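import Pool.Agent.HQ.Defs

/-!
# HQ module Acc60: accessible zeros
-/

set_option autoImplicit false

open Filter Topology Set Metric

namespace Pool.Agent.HQ

/-- nearest zero -/
theorem Acc60_near {u : ℂ → ℝ} (hu : Continuous u) (u0 : ∀ t, 0 ≤ u t) (a : ℂ) {b₁ : ℂ}
    (hb : u b₁ = 0) :
    ∃ b, u b = 0 ∧ dist a b ≤ dist a b₁ ∧ ∀ t ∈ ball a (dist a b), 0 < u t := by
  have hZ : IsClosed {t | u t = 0} := isClosed_eq hu continuous_const
  obtain ⟨b, hb0, hbd⟩ := hZ.exists_infDist_eq_dist ⟨b₁, hb⟩ a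
  refine ⟨b, hb0, ?_, ?_⟩
  · rw [← hbd]
    exact infDist_le_dist_of_mem hb
  · intro t ht
    rcases (u0 t).lt_or_eq with h | h
    · exact h
    · exfalso
      have h1 : infDist a {t | u t = 0} ≤ dist a t := infDist_le_dist_of_mem h.symm
      rw [hbd] at h1
      rw [mem_ball, dist_comm] at ht
      linarith

/-- the punctured disc is preconnected -/
theorem Acc60_punct (b : ℂ) {R : ℝ} (hR : 0 < R) :
    IsPreconnected {t : ℂ | t ≠ b ∧ dist t b < R} := by
  have h1 : IsPreconnected {w : ℂ | w.re < Real.log R} :=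
    (convex_halfSpace_re_lt (Real.log R)).isPreconnected
  have h2 := h1.image (fun w => b + Complex.exp w)
    ((continuous_const.add Complex.continuous_exp).continuousOn)
  have h3 : (fun w => b + Complex.exp w) '' {w : ℂ | w.re < Real.log R} =
      {t : ℂ | t ≠ b ∧ dist t b < R} := by
    ext t
    constructor
    · rintro ⟨w, hw, rfl⟩
      refine ⟨fun h => Complex.exp_ne_zero w (add_eq_left.1 h), ?_⟩
      rw [dist_eq_norm, add_sub_cancel_left, Complex.norm_exp]
      exact (Real.lt_log_iff_exp_lt hR).1 hw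
    · rintro ⟨hne, hd⟩
      have h0 : t - b ≠ 0 := sub_ne_zero.2 hne
      refine ⟨Complex.log (t - b), ?_, ?_⟩
      · change (Complex.log (t - b)).re < Real.log R
        rw [Complex.log_re]
        rw [dist_eq_norm] at hd
        exact Real.log_lt_log (norm_pos_iff.2 h0) hd
      · change b + Complex.exp (Complex.log (t - b)) = t
        rw [Complex.exp_log h0, add_sub_cancel]
  rwa [h3] at h2

theorem exists_acc {g : E → ℝ} (hg : Continuous g) (g0 : ∀ x, 0 ≤ g x) {T : ℂ → E}
    (hT : Continuous T) {D : Set ℂ} (hD : IsOpen D) {b₁ : ℂ} (hb₁ : b₁ ∈ D)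
    (hz : g (T b₁) = 0) (hpos : ∃ᶠ t in 𝓝 b₁, 0 < g (T t)) :
    ∀ r > 0, ∃ a b : ℂ, Acc g T D a b ∧ dist b b₁ < r := by
  intro r hr
  obtain ⟨ρ, hρ, hρD⟩ := Metric.isOpen_iff.1 hD b₁ hb₁
  have hδ : 0 < min ρ r / 4 := by positivity
  obtain ⟨a, ha, had⟩ := (hpos.and_eventually (ball_mem_nhds b₁ hδ)).exists
  obtain ⟨b, hb0, hbd, hbp⟩ := Acc60_near (u := fun t => g (T t)) (hg.comp hT)
    (fun t => g0 _) a hz
  have h1 : dist b b₁ ≤ dist a b + dist a b₁ := by
    have := dist_triangle b a b₁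
    rwa [dist_comm b a] at this
  have h2 : min ρ r ≤ ρ := min_le_left _ _
  have h3 : min ρ r ≤ r := min_le_right _ _
  refine ⟨a, b, ⟨?_, hb0, hbp, ?_⟩, by linarith⟩
  · rintro rfl
    have : g (T a) = 0 := hb0
    linarith
  · intro t ht
    apply hρD
    rw [mem_closedBall] at ht
    rw [mem_ball]
    have := dist_triangle t a b₁
    linarith

theorem exists_acc' {g : E → ℝ} (hg : Continuous g) (g0 : ∀ x, 0 ≤ g x) {T : ℂ → E}
    (hT : Continuous T) {D : Set ℂ} (hD : IsOpen D) (hc : IsPreconnected D)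
    (h1 : ∃ t ∈ D, g (T t) = 0) (h2 : ∃ t ∈ D, 0 < g (T t)) :
    ∃ a b : ℂ, Acc g T D a b := by
  have hu : Continuous (fun t => g (T t)) := hg.comp hT
  by_cases hex : ∃ b₁ ∈ D, g (T b₁) = 0 ∧ ∃ᶠ t in 𝓝 b₁, 0 < g (T t)
  · obtain ⟨b₁, hb₁, hz, hp⟩ := hex
    obtain ⟨a, b, hab, -⟩ := exists_acc hg g0 hT hD hb₁ hz hp 1 one_pos
    exact ⟨a, b, hab⟩
  · exfalso
    push Not at hex
    have hU : IsOpen {t | 0 < g (T t)} := isOpen_lt continuous_const hu
    have hV : IsOpen (interior {t | g (T t) = 0}) := isOpen_interior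
    have hsub : ∀ b ∈ D, g (T b) = 0 → b ∈ interior {t | g (T t) = 0} := by
      intro b hb hb0
      rw [mem_interior_iff_mem_nhds]
      have := hex b hb hb0
      filter_upwards [this] with t ht
      exact le_antisymm ht (g0 _)
    obtain ⟨t1, ht1, ht1z⟩ := h1
    obtain ⟨t2, ht2, ht2p⟩ := h2
    obtain ⟨x, -, hx1, hx2⟩ := hc _ _ hU hV (fun t ht => by
      rcases (g0 (T t)).lt_or_eq with h | h
      · exact Or.inl h
      · exact Or.inr (hsub t ht h.symm)) ⟨t2, ht2, ht2p⟩ ⟨t1, ht1, hsub t1 ht1 ht1z⟩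
    have hx3 : g (T x) = 0 := (interior_subset hx2 : x ∈ {t | g (T t) = 0})
    have hx4 : 0 < g (T x) := hx1
    linarith

/-- facts about accessible zeros -/
theorem Acc.mem {g : E → ℝ} {T : ℂ → E} {D : Set ℂ} {a b : ℂ} (h : Acc g T D a b) : b ∈ D := by
  apply h.sub
  rw [mem_closedBall, dist_comm]

theorem Acc.freq {g : E → ℝ} {T : ℂ → E} {D : Set ℂ} {a b : ℂ} (h : Acc g T D a b) :
    ∃ᶠ t in 𝓝 b, 0 < g (T t) := by
  have h1 : b ∈ closure (ball a (dist a b)) := by
    rw [closure_ball a (dist_ne_zero.2 h.ne), mem_closedBall, dist_comm]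
  have h2 := mem_closure_iff_frequently.1 h1
  exact h2.mono fun t ht => h.pos t ht

theorem Acc.pos_a {g : E → ℝ} {T : ℂ → E} {D : Set ℂ} {a b : ℂ} (h : Acc g T D a b) :
    0 < g (T a) := h.pos a (mem_ball_self (dist_pos.2 h.ne))

/-- accessible zeros accumulate at every accessible zero -/
theorem acc_not_iso {g : E → ℝ} (hg : Continuous g) (g0 : ∀ x, 0 ≤ g x) (hi : NoIso g)
    {T : ℂ → E} (hT : Differentiable ℂ T) {D : Set ℂ} (hD : IsOpen D) {a b : ℂ}
    (hab : Acc g T D a b) :
    ∀ ε > 0, ∃ a' b' : ℂ, Acc g T D a' b' ∧ b' ≠ b ∧ dist b' b < ε := by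
  intro ε hε
  by_contra hcon
  push Not at hcon
  have hu : Continuous (fun t => g (T t)) := hg.comp hT.continuous
  obtain ⟨ρ, hρ, hρD⟩ := Metric.isOpen_iff.1 hD b hab.mem
  set R : ℝ := min ρ ε / 4 with hR
  have hR0 : 0 < R := by positivity
  have h2 : min ρ ε ≤ ρ := min_le_left _ _
  have h3 : min ρ ε ≤ ε := min_le_right _ _
  -- key property
  have key : ∀ t, t ≠ b → dist t b < R → 0 < g (T t) → ∀ s ∈ ball t (dist t b), 0 < g (T s) := by
    intro t htb htR htp
    obtain ⟨c, hc0, hcd, hcp⟩ := Acc60_near (u := fun t => g (T t)) hu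
      (fun t => g0 _) t hab.zero
    have hacc : Acc g T D t c := by
      refine ⟨?_, hc0, hcp, ?_⟩
      · rintro rfl
        have : g (T t) = 0 := hc0
        linarith
      · intro s hs
        apply hρD
        rw [mem_closedBall] at hs
        rw [mem_ball]
        have := dist_triangle s t b
        linarith
    have hcb : c = b := by
      by_contra hne
      have h4 := hcon t c hacc hne
      have h5 : dist c b ≤ dist t c + dist t b := by
        have := dist_triangle c t b
        rwa [dist_comm c t] at this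
      linarith
    rw [hcb] at hcp
    exact hcp
  have hpre := Acc60_punct b hR0
  have hall : ∀ t, t ≠ b → dist t b < R → 0 < g (T t) := by
    by_contra hne
    push Not at hne
    obtain ⟨t0, ht0b, ht0R, ht0⟩ := hne
    have hU : IsOpen {t | 0 < g (T t)} := isOpen_lt continuous_const hu
    have hV : IsOpen (interior {t | (t ≠ b ∧ dist t b < R) → g (T t) ≤ 0}) := isOpen_interior
    have hsub : ∀ t, t ≠ b → g (T t) ≤ 0 →
        t ∈ interior {t | (t ≠ b ∧ dist t b < R) → g (T t) ≤ 0} := by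
      intro t htb ht
      rw [mem_interior_iff_mem_nhds]
      have hdp : 0 < dist t b / 2 := by
        have := dist_pos.2 htb
        positivity
      filter_upwards [ball_mem_nhds t hdp] with s hs
      rintro ⟨hsb, hsR⟩
      by_contra hsp
      push Not at hsp
      have h6 := key s hsb hsR hsp t ?_
      · linarith
      · rw [mem_ball] at hs ⊢
        have h7 := dist_triangle t s b
        rw [dist_comm t s] at h7 ⊢
        linarith
    obtain ⟨t1, ht1p, ht1⟩ := (hab.freq.and_eventually (ball_mem_nhds b hR0)).exists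
    have ht1b : t1 ≠ b := by
      rintro rfl
      have := hab.zero
      linarith
    obtain ⟨x, hx0, hx1, hx2⟩ := hpre _ _ hU hV (fun t ht => by
      rcases lt_or_ge 0 (g (T t)) with h | h
      · exact Or.inl h
      · exact Or.inr (hsub t ht.1 h)) ⟨t1, ⟨ht1b, ht1⟩, ht1p⟩
        ⟨t0, ⟨ht0b, ht0R⟩, hsub t0 ht0b ht0⟩
    have hx3 : g (T x) ≤ 0 :=
      (interior_subset hx2 : x ∈ {t | (t ≠ b ∧ dist t b < R) → g (T t) ≤ 0}) hx0
    have hx4 : 0 < g (T x) := hx1
    linarith
  have hfin := hi T b R hR0 hT.differentiableOn (fun z hz hzb => hall z hzb hz)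
  have := hab.zero
  linarith

end Pool.Agent.HQ
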