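import Pool.Agent.HQ.Defs

/-!
# HQ module Bas: basic facts on systems
-/

set_option autoImplicit false

open Filter Topology Set Metric

namespace Pool.Agent.HQ

namespace Sys

variable (S : Sys)

theorem d_pos : 0 < S.d := lt_trans zero_lt_one S.hd

theorem P_pow (n : ℕ) (x : E) : S.P ((S.F ^ n) x) = S.d ^ n * S.P x := by
  induction n with
  | zero => simp
  | succ n ih =>
    rw [pow_succ', Equiv.Perm.mul_apply, S.PF, ih, pow_succ]
    ring

theorem P_zpow (n : ℤ) (x : E) : S.P ((S.F ^ n) x) = S.d ^ n * S.P x := by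
  obtain ⟨n, rfl | rfl⟩ := n.eq_nat_or_neg
  · rw [zpow_natCast, zpow_natCast]
    exact S.P_pow n x
  · have h := S.P_pow n ((S.F ^ (-(n : ℤ))) x)
    have h1 : (S.F ^ n) ((S.F ^ (-(n : ℤ))) x) = x := by
      rw [zpow_neg, zpow_natCast]
      exact (S.F ^ n).apply_symm_apply x
    rw [h1] at h
    rw [h, ← mul_assoc, zpow_neg S.d, zpow_natCast S.d,
      inv_mul_cancel₀ (pow_ne_zero _ S.d_pos.ne'), one_mul]

theorem M_zpow (n : ℤ) (x : E) : S.M ((S.F ^ n) x) = S.d ^ (-n) * S.M x := by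
  have h := S.dual.P_zpow (-n) x
  rw [dual_F, dual_P, dual_d, inv_zpow', neg_neg] at h
  exact h

theorem M_pow (n : ℕ) (x : E) : S.M ((S.F ^ n) x) = (S.d ^ n)⁻¹ * S.M x := by
  have h := S.M_zpow n x
  rwa [zpow_natCast, zpow_neg, zpow_natCast] at h

theorem P_zero_iff (n : ℤ) (x : E) : S.P ((S.F ^ n) x) = 0 ↔ S.P x = 0 := by
  rw [S.P_zpow, mul_eq_zero, or_iff_right (zpow_ne_zero _ S.d_pos.ne')]

theorem M_zero_iff (n : ℤ) (x : E) : S.M ((S.F ^ n) x) = 0 ↔ S.M x = 0 := by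
  rw [S.M_zpow, mul_eq_zero, or_iff_right (zpow_ne_zero _ S.d_pos.ne')]

theorem diff_pow (n : ℕ) : Differentiable ℂ (⇑(S.F ^ n)) := HQ.diff_pow S.dF n

theorem diff_inv_pow (n : ℕ) : Differentiable ℂ (⇑(S.F⁻¹ ^ n)) := HQ.diff_pow S.dG n

theorem diff_zpow (n : ℤ) : Differentiable ℂ (⇑(S.F ^ n)) := by
  obtain ⟨n, rfl | rfl⟩ := n.eq_nat_or_neg
  · rw [zpow_natCast]
    exact S.diff_pow n
  · rw [← inv_zpow', zpow_natCast]
    exact S.diff_inv_pow n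

/-- the iterates as homeomorphisms -/
def homeo (n : ℤ) : E ≃ₜ E where
  toEquiv := S.F ^ n
  continuous_toFun := (S.diff_zpow n).continuous
  continuous_invFun := by
    have h : (S.F ^ n).symm = S.F ^ (-n) := by
      rw [zpow_neg]
      rfl
    change Continuous (⇑(S.F ^ n).symm)
    rw [h]
    exact (S.diff_zpow (-n)).continuous

theorem homeo_apply (n : ℤ) (x : E) : S.homeo n x = (S.F ^ n) x := rfl

theorem isClosed_Kp : IsClosed S.Kp := isClosed_eq S.cP continuous_const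

theorem isClosed_Km : IsClosed S.Km := isClosed_eq S.cM continuous_const

theorem mem_int_Kp (n : ℤ) (x : E) : (S.F ^ n) x ∈ interior S.Kp ↔ x ∈ interior S.Kp := by
  have h : (S.homeo n) ⁻¹' S.Kp = S.Kp := by
    ext y
    exact S.P_zero_iff n y
  have h2 := (S.homeo n).preimage_interior S.Kp
  rw [h] at h2
  exact Iff.of_eq (congrArg (fun A : Set E => x ∈ A) h2)

theorem mem_int_Km (n : ℤ) (x : E) : (S.F ^ n) x ∈ interior S.Km ↔ x ∈ interior S.Km := by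
  have h : (S.homeo n) ⁻¹' S.Km = S.Km := by
    ext y
    exact S.M_zero_iff n y
  have h2 := (S.homeo n).preimage_interior S.Km
  rw [h] at h2
  exact Iff.of_eq (congrArg (fun A : Set E => x ∈ A) h2)

theorem mem_Sad_one (x : E) : S.F x ∈ Sad S.F ↔ x ∈ Sad S.F := by
  refine ⟨fun h => ?_, fun h => Sad_apply S.dF S.dG h⟩
  rw [← Sad_inv S.dF S.dG] at h ⊢
  have h2 := Sad_apply (F := S.F⁻¹) S.dG (by rw [inv_inv]; exact S.dF) h
  have h3 : S.F⁻¹ (S.F x) = x := S.F.symm_apply_apply x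
  rwa [h3] at h2

theorem zpow_mem_iff {A : Set E} (h : ∀ x, S.F x ∈ A ↔ x ∈ A) (n : ℤ) (x : E) :
    (S.F ^ n) x ∈ A ↔ x ∈ A := by
  induction n with
  | zero => simp
  | succ n ih =>
    rw [add_comm, zpow_add, zpow_one, Equiv.Perm.mul_apply, h]
    exact ih
  | pred n ih =>
    rw [← ih, ← h ((S.F ^ (-(n : ℤ) - 1)) x), ← Equiv.Perm.mul_apply]
    rw [show S.F * S.F ^ (-(n : ℤ) - 1) = S.F ^ (-(n : ℤ)) by
      rw [← zpow_one_add]; congr 1; ring]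

theorem mem_Sad (n : ℤ) (x : E) : (S.F ^ n) x ∈ Sad S.F ↔ x ∈ Sad S.F :=
  S.zpow_mem_iff S.mem_Sad_one n x

theorem mem_clSad (n : ℤ) (x : E) :
    (S.F ^ n) x ∈ closure (Sad S.F) ↔ x ∈ closure (Sad S.F) := by
  have h : (S.homeo n) ⁻¹' (Sad S.F) = Sad S.F := by
    ext y
    exact S.mem_Sad n y
  have h2 := (S.homeo n).preimage_closure (Sad S.F)
  rw [h] at h2
  exact Iff.of_eq (congrArg (fun A : Set E => x ∈ A) h2)

theorem mem_Ws_one (x q : E) : S.F x ∈ Ws S.F (S.F q) ↔ x ∈ Ws S.F q := by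
  have h : ∀ (n : ℕ) (y : E), (S.F ^ n) (S.F y) = (S.F ^ (n + 1)) y := fun n y => by
    rw [pow_succ, Equiv.Perm.mul_apply]
  unfold Ws
  simp only [Set.mem_ofPred_eq, h]
  exact tendsto_add_atTop_iff_nat (f := fun n : ℕ => dist ((S.F ^ n) x) ((S.F ^ n) q)) 1

theorem mem_Ws (n : ℤ) (x q : E) : (S.F ^ n) x ∈ Ws S.F ((S.F ^ n) q) ↔ x ∈ Ws S.F q := by
  induction n with
  | zero => simp
  | succ n ih =>
    rw [add_comm, zpow_add, zpow_one, Equiv.Perm.mul_apply, Equiv.Perm.mul_apply, S.mem_Ws_one]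
    exact ih
  | pred n ih =>
    rw [← ih, ← S.mem_Ws_one ((S.F ^ (-(n : ℤ) - 1)) x), ← Equiv.Perm.mul_apply,
      ← Equiv.Perm.mul_apply]
    rw [show S.F * S.F ^ (-(n : ℤ) - 1) = S.F ^ (-(n : ℤ)) by
      rw [← zpow_one_add]; congr 1; ring]

theorem mem_Wu (n : ℤ) (x q : E) : (S.F ^ n) x ∈ Wu S.F ((S.F ^ n) q) ↔ x ∈ Wu S.F q := by
  have h := S.dual.mem_Ws (-n) x q
  rw [dual_F, inv_zpow', neg_neg] at h
  exact h

theorem self_mem_Ws (q : E) : q ∈ Ws S.F q := by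
  unfold Ws
  simp

theorem self_mem_Wu (q : E) : q ∈ Wu S.F q := S.dual.self_mem_Ws q

theorem Sad_P {p : E} (hp : p ∈ Sad S.F) : S.P p = 0 := by
  obtain ⟨k, hk, hkp, -⟩ := hp
  have h := S.P_pow k p
  rw [hkp] at h
  have h1 : 1 < S.d ^ k := one_lt_pow₀ S.hd hk.ne'
  have h2 : (S.d ^ k - 1) * S.P p = 0 := by linarith
  rcases mul_eq_zero.1 h2 with h3 | h3
  · linarith
  · exact h3

theorem Sad_M {p : E} (hp : p ∈ Sad S.F) : S.M p = 0 := by
  have h := S.dual.Sad_P (p := p) (by rw [dual_F, Sad_inv S.dF S.dG]; exact hp)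
  exact h

theorem clSad_P {p : E} (hp : p ∈ closure (Sad S.F)) : S.P p = 0 :=
  closure_minimal (fun _ h => S.Sad_P h) S.isClosed_Kp hp

theorem clSad_M {p : E} (hp : p ∈ closure (Sad S.F)) : S.M p = 0 :=
  closure_minimal (fun _ h => S.Sad_M h) S.isClosed_Km hp

theorem per_mul {p : E} {k : ℕ} (hk : (S.F ^ k) p = p) (n : ℕ) : (S.F ^ (k * n)) p = p := by
  rw [pow_mul]
  induction n with
  | zero => simp
  | succ n ih => rw [pow_succ, Equiv.Perm.mul_apply, hk, ih]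

theorem Ws_P {q x : E} (hq : q ∈ Sad S.F) (hx : x ∈ Ws S.F q) : S.P x = 0 := by
  obtain ⟨k, hk, hkq, -⟩ := id hq
  have hk' : Tendsto (fun n : ℕ => k * n) atTop atTop :=
    Filter.tendsto_id.const_mul_atTop' hk
  have h1 : Tendsto (fun n : ℕ => dist ((S.F ^ (k * n)) x) ((S.F ^ (k * n)) q)) atTop (𝓝 0) :=
    Tendsto.comp hx hk'
  have h2 : Tendsto (fun n : ℕ => (S.F ^ (k * n)) x) atTop (𝓝 q) := by
    rw [tendsto_iff_dist_tendsto_zero]
    refine h1.congr fun n => ?_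
    rw [S.per_mul hkq n]
  have h3 : Tendsto (fun n : ℕ => S.P ((S.F ^ (k * n)) x)) atTop (𝓝 (S.P q)) :=
    (S.cP.tendsto q).comp h2
  rw [S.Sad_P hq] at h3
  have h4 : S.P x ≤ 0 := by
    refine ge_of_tendsto h3 (Eventually.of_forall fun n => ?_)
    rw [S.P_pow]
    have : 1 ≤ S.d ^ (k * n) := one_le_pow₀ S.hd.le
    nlinarith [S.P0 x]
  exact le_antisymm h4 (S.P0 x)

theorem Wu_M {q x : E} (hq : q ∈ Sad S.F) (hx : x ∈ Wu S.F q) : S.M x = 0 :=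
  S.dual.Ws_P (q := q) (x := x) (by rw [dual_F, Sad_inv S.dF S.dG]; exact hq) hx

theorem Ws_disj {p q x : E} (hp : p ∈ Sad S.F) (hq : q ∈ Sad S.F) (h1 : x ∈ Ws S.F p)
    (h2 : x ∈ Ws S.F q) : p = q := by
  obtain ⟨k, hk, hkp, -⟩ := hp
  obtain ⟨l, hl, hlq, -⟩ := hq
  have h3 : Tendsto (fun n : ℕ => dist ((S.F ^ n) p) ((S.F ^ n) q)) atTop (𝓝 0) := by
    have h4 := Tendsto.add (show Tendsto (fun n : ℕ => dist ((S.F ^ n) x) ((S.F ^ n) p)) atTop
      (𝓝 0) from h1) (show Tendsto (fun n : ℕ => dist ((S.F ^ n) x) ((S.F ^ n) q)) atTop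
      (𝓝 0) from h2)
    rw [add_zero] at h4
    refine squeeze_zero (fun n => dist_nonneg) (fun n => ?_) h4
    exact (dist_triangle_left _ _ _)
  have h5 : Tendsto (fun n : ℕ => k * l * n) atTop atTop :=
    Filter.tendsto_id.const_mul_atTop' (Nat.mul_pos hk hl)
  have h6 := h3.comp h5
  have h7 : (fun n : ℕ => dist ((S.F ^ n) p) ((S.F ^ n) q)) ∘ (fun n : ℕ => k * l * n) =
      fun _ => dist p q := by
    funext n
    simp only [Function.comp]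
    rw [mul_assoc, S.per_mul hkp, ← mul_assoc, mul_comm k l, mul_assoc, S.per_mul hlq]
  rw [h7] at h6
  have h8 := tendsto_nhds_unique h6 tendsto_const_nhds
  exact dist_eq_zero.1 h8.symm

theorem Wu_disj {p q x : E} (hp : p ∈ Sad S.F) (hq : q ∈ Sad S.F) (h1 : x ∈ Wu S.F p)
    (h2 : x ∈ Wu S.F q) : p = q :=
  S.dual.Ws_disj (p := p) (q := q) (x := x) (by rw [dual_F, Sad_inv S.dF S.dG]; exact hp)
    (by rw [dual_F, Sad_inv S.dF S.dG]; exact hq) h1 h2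

/-- the general form of the bound -/
theorem sub_bdd (c : ℝ) : ∃ R : ℝ, ∀ x, S.P x ≤ c → S.M x ≤ c → ‖x‖ ≤ R := by
  obtain ⟨R, hR⟩ := (S.bdd c).exists_norm_le
  exact ⟨R, fun x h1 h2 => hR x ⟨h1, h2⟩⟩

/-- `K` is bounded -/
theorem K_bdd : ∃ R : ℝ, ∀ x, S.P x = 0 → S.M x = 0 → ‖x‖ ≤ R := by
  obtain ⟨R, hR⟩ := S.sub_bdd 0
  exact ⟨R, fun x h1 h2 => hR x h1.le h2.le⟩

/-- forward orbits in `K⁺` are bounded -/
theorem fwd_bdd (c : ℝ) : ∃ R : ℝ, ∀ x, S.P x = 0 → S.M x ≤ c → ∀ n : ℕ,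
    ‖(S.F ^ n) x‖ ≤ R := by
  obtain ⟨R, hR⟩ := S.sub_bdd (max c 0)
  refine ⟨R, fun x h1 h2 n => hR _ ?_ ?_⟩
  · rw [S.P_pow, h1, mul_zero]
    exact le_max_right _ _
  · rw [S.M_pow]
    have h3 : (S.d ^ n)⁻¹ ≤ 1 := inv_le_one_of_one_le₀ (one_le_pow₀ S.hd.le)
    calc (S.d ^ n)⁻¹ * S.M x ≤ 1 * S.M x := by
          exact mul_le_mul_of_nonneg_right h3 (S.M0 x)
      _ = S.M x := one_mul _
      _ ≤ c := h2
      _ ≤ max c 0 := le_max_left _ _

/-- powers of `d` along a sequence -/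
theorem M_lim {x : ℕ → E} {n : ℕ → ℕ} (hn : Tendsto n atTop atTop) {c : ℝ}
    (hx : ∀ i, S.M (x i) ≤ c) {y : E}
    (hy : Tendsto (fun i => (S.F ^ n i) (x i)) atTop (𝓝 y)) : S.M y = 0 := by
  have h1 : Tendsto (fun i => S.M ((S.F ^ n i) (x i))) atTop (𝓝 (S.M y)) :=
    (S.cM.tendsto y).comp hy
  have h2 : Tendsto (fun i => (S.d ^ n i)⁻¹ * c) atTop (𝓝 0) := by
    have h3 : Tendsto (fun i => (S.d ^ n i)⁻¹) atTop (𝓝 0) :=
      tendsto_inv_atTop_zero.comp ((tendsto_pow_atTop_atTop_of_one_lt S.hd).comp hn)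
    simpa using h3.mul_const c
  have h4 : S.M y ≤ 0 := by
    refine le_of_tendsto_of_tendsto' h1 h2 fun i => ?_
    rw [S.M_pow]
    exact mul_le_mul_of_nonneg_left (hx i) (inv_nonneg.2 (pow_nonneg S.d_pos.le _))
  exact le_antisymm h4 (S.M0 y)

end Sys

end Pool.Agent.HQ
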