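import Pool.Agent.HQ.Defs

/-!
# HQ module Hur: zeros persist
-/

set_option autoImplicit false

open Filter Topology Set Metric

namespace Pool.Agent.HQ

theorem zero_persist {h : ℂ → ℂ} {hs : ℕ → ℂ → ℂ} {D : Set ℂ} (hD : IsOpen D) {z₀ : ℂ}
    (hz : z₀ ∈ D) (hd : ∀ᶠ n in atTop, DifferentiableOn ℂ (hs n) D)
    (hl : TendstoLocallyUniformlyOn hs h atTop D) (h0 : h z₀ = 0) (hnc : NC h z₀) :
    ∀ η > 0, ∀ᶠ i in atTop, ∃ z ∈ ball z₀ η, hs i z = 0 := by
  intro η hη
  have hdiff : DifferentiableOn ℂ h D := hl.differentiableOn hd hD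
  have han : AnalyticAt ℂ h z₀ := (hdiff.analyticOnNhd hD) z₀ hz
  have hne : ∀ᶠ z in 𝓝[≠] z₀, h z ≠ 0 := by
    rcases han.eventually_eq_zero_or_eventually_ne_zero with h1 | h1
    · exfalso
      apply hnc
      filter_upwards [h1] with z hz1
      rw [hz1, h0]
      simp
    · exact h1
  rw [eventually_nhdsWithin_iff] at hne
  obtain ⟨r1, hr1, hb1⟩ := Metric.eventually_nhds_iff_ball.1 hne
  obtain ⟨r2, hr2, hb2⟩ := Metric.isOpen_iff.1 hD z₀ hz
  set r := min (min r1 r2) η / 2 with hr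
  have hmin : 0 < min (min r1 r2) η := lt_min (lt_min hr1 hr2) hη
  have hr0 : 0 < r := by rw [hr]; linarith
  have hrr1 : r < r1 := by
    have : min (min r1 r2) η ≤ r1 := (min_le_left _ _).trans (min_le_left _ _)
    rw [hr]; linarith
  have hrr2 : r < r2 := by
    have : min (min r1 r2) η ≤ r2 := (min_le_left _ _).trans (min_le_right _ _)
    rw [hr]; linarith
  have hrη : r < η := by
    have : min (min r1 r2) η ≤ η := min_le_right _ _
    rw [hr]; linarith
  have hcb : closedBall z₀ r ⊆ D := (closedBall_subset_ball hrr2).trans hb2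
  -- lower bound on the sphere
  have hsc : IsCompact (sphere z₀ r) := isCompact_sphere z₀ r
  have hsn : (sphere z₀ r).Nonempty := NormedSpace.sphere_nonempty.2 hr0.le
  have hcont : ContinuousOn (fun z => ‖h z‖) (sphere z₀ r) :=
    (hdiff.continuousOn.mono (sphere_subset_closedBall.trans hcb)).norm
  obtain ⟨w, hw, hwm⟩ := hsc.exists_isMinOn hsn hcont
  have hm0 : 0 < ‖h w‖ := by
    rw [norm_pos_iff]
    refine hb1 w ?_ ?_
    · rw [mem_ball, mem_sphere.1 hw]
      exact hrr1
    · intro hh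
      rw [mem_singleton_iff] at hh
      rw [hh, mem_sphere, dist_self] at hw
      exact hr0.ne hw
  have hmin' : ∀ z ∈ sphere z₀ r, ‖h w‖ ≤ ‖h z‖ := fun z hz => hwm hz
  have hunif : TendstoUniformlyOn hs h atTop (closedBall z₀ r) :=
    (tendstoLocallyUniformlyOn_iff_tendstoUniformlyOn_of_compact
      (isCompact_closedBall z₀ r)).1 (hl.mono hcb)
  have hev := Metric.tendstoUniformlyOn_iff.1 hunif (‖h w‖ / 2) (by linarith)
  filter_upwards [hd, hev] with i hdi hi
  by_contra hcon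
  push Not at hcon
  have hnz : ∀ z ∈ closedBall z₀ r, hs i z ≠ 0 := fun z hz =>
    hcon z (closedBall_subset_ball hrη hz)
  have hdc : DiffContOnCl ℂ (fun z => (hs i z)⁻¹) (ball z₀ r) := by
    have h1 : DifferentiableOn ℂ (fun z => (hs i z)⁻¹) (closedBall z₀ r) :=
      (hdi.mono hcb).inv hnz
    exact ⟨h1.mono ball_subset_closedBall, by
      rw [closure_ball z₀ hr0.ne']
      exact h1.continuousOn⟩
  have hbound : ∀ z ∈ frontier (ball z₀ r), ‖(hs i z)⁻¹‖ ≤ (‖h w‖ / 2)⁻¹ := by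
    intro z hz1
    rw [frontier_ball z₀ hr0.ne'] at hz1
    have h1 := hi z (sphere_subset_closedBall hz1)
    have h2 := hmin' z hz1
    rw [dist_eq_norm] at h1
    have h3 : ‖h z‖ ≤ ‖h z - hs i z‖ + ‖hs i z‖ := by
      have := norm_add_le (h z - hs i z) (hs i z)
      simpa using this
    rw [norm_inv]
    exact inv_anti₀ (by linarith) (by linarith)
  have hfin := Complex.norm_le_of_forall_mem_frontier_norm_le isBounded_ball hdc hbound
    (z := z₀) (subset_closure (mem_ball_self hr0))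
  have h4 := hi z₀ (mem_closedBall_self hr0.le)
  rw [h0, dist_eq_norm, zero_sub, norm_neg] at h4
  rw [norm_inv] at hfin
  have h5 : 0 < ‖hs i z₀‖ := norm_pos_iff.2 (hnz z₀ (mem_closedBall_self hr0.le))
  have h6 := (inv_le_inv₀ h5 (by linarith : 0 < ‖h w‖ / 2)).1 hfin
  linarith

end Pool.Agent.HQ
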