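import Pool.Agent.HQ.Defs

/-!
# HQ module DHb: maps holomorphic along discs: basic facts
-/

set_option autoImplicit false

open Filter Topology Set Metric

namespace Pool.Agent.HQ

theorem dh_of_diff {Y : Type} [NormedAddCommGroup Y] [NormedSpace ℂ Y] {g : E → Y}
    (hg : Differentiable ℂ g) (W : Set E) : DH W g :=
  ⟨hg.continuous.continuousOn, fun _ _ _ hγ _ => hg.comp_differentiableOn hγ⟩

theorem dh_mono {Y : Type} [NormedAddCommGroup Y] [NormedSpace ℂ Y] {W W' : Set E} {g : E → Y}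
    (h : W' ⊆ W) (hg : DH W g) : DH W' g :=
  ⟨hg.1.mono h, fun γ D hD hγ hm => hg.2 γ D hD hγ (fun _ hz => h (hm hz))⟩

/-- locally uniform limits of differentiable maps -/
theorem dh_lim {W : Set E} (hW : IsOpen W) {f : ℕ → E → E} (hf : ∀ n, Differentiable ℂ (f n))
    {g : E → E} (h : TendstoLocallyUniformlyOn f g atTop W) : DH W g := by
  refine ⟨h.continuousOn (Eventually.frequently
    (Eventually.of_forall fun n => (hf n).continuous.continuousOn)), ?_⟩
  intro γ D hD hγ hm
  have h1 := h.comp γ hm hγ.continuousOn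
  exact h1.differentiableOn
    (Eventually.of_forall fun n => (hf n).comp_differentiableOn hγ) hD

/-- the line through `p` in direction `v` -/
theorem DHb_line (p v : E) : Differentiable ℂ (fun t : ℂ => p + t • v) := by
  fun_prop

/-- the part of a line in a ball is an open preconnected set -/
theorem DHb_pre (p v x : E) (r : ℝ) :
    IsOpen ((fun t : ℂ => p + t • v) ⁻¹' ball x r) ∧
      IsPreconnected ((fun t : ℂ => p + t • v) ⁻¹' ball x r) := by
  refine ⟨isOpen_ball.preimage (DHb_line p v).continuous, ?_⟩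
  apply Convex.isPreconnected
  intro s hs t ht a b ha hb hab
  have h1 := convex_ball x r hs ht ha hb hab
  have h2 : p + (a • s + b • t) • v = a • (p + s • v) + b • (p + t • v) := by
    have hp : p = a • p + b • p := by rw [← add_smul, hab, one_smul]
    calc p + (a • s + b • t) • v = (a • p + b • p) + (a • s + b • t) • v := by rw [← hp]
      _ = a • (p + s • v) + b • (p + t • v) := by
        rw [add_smul, smul_add, smul_add, smul_assoc, smul_assoc]
        abel
  show p + (a • s + b • t) • v ∈ ball x r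
  rw [h2]
  exact h1

/-- one-variable identity theorem along lines in a ball -/
theorem DHb_id {Y : Type} [NormedAddCommGroup Y] [NormedSpace ℂ Y] [CompleteSpace Y]
    {W : Set E} {g : E → Y} (hg : DH W g) {x : E} {r : ℝ} (hb : ball x r ⊆ W) {p y : E}
    (hp : p ∈ ball x r) (hy : y ∈ ball x r) {c : Y}
    (hloc : ∀ᶠ t : ℂ in 𝓝 0, g (p + t • (y - p)) = c) : g y = c := by
  obtain ⟨hO, hC⟩ := DHb_pre p (y - p) x r
  set D : Set ℂ := (fun t : ℂ => p + t • (y - p)) ⁻¹' ball x r with hD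
  have h0 : (0 : ℂ) ∈ D := by
    show p + (0 : ℂ) • (y - p) ∈ ball x r
    rw [zero_smul, add_zero]; exact hp
  have h1 : (1 : ℂ) ∈ D := by
    show p + (1 : ℂ) • (y - p) ∈ ball x r
    rw [one_smul, add_sub_cancel]; exact hy
  have hd := hg.2 (fun t : ℂ => p + t • (y - p)) D hO (DHb_line _ _).differentiableOn
    (fun t ht => hb ht)
  have ha : AnalyticOnNhd ℂ (fun z : ℂ => g (p + z • (y - p))) D := hd.analyticOnNhd hO
  have hk : AnalyticOnNhd ℂ (fun _ : ℂ => c) D := analyticOnNhd_const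
  have he : EqOn (fun z : ℂ => g (p + z • (y - p))) (fun _ : ℂ => c) D :=
    ha.eqOn_of_preconnected_of_eventuallyEq hk hC h0 hloc
  have h2 := he h1
  simp only [one_smul, add_sub_cancel] at h2
  exact h2

/-- identity principle -/
theorem dh_const {Y : Type} [NormedAddCommGroup Y] [NormedSpace ℂ Y] [CompleteSpace Y]
    {W B : Set E} (hW : IsOpen W) (hc : IsPreconnected W) {g : E → Y} (hg : DH W g)
    (hB : IsOpen B) (hBW : B ⊆ W) (hne : B.Nonempty) {c : Y} (hBc : ∀ x ∈ B, g x = c) :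
    ∀ x ∈ W, g x = c := by
  set u : Set E := {x | ∀ᶠ y in 𝓝 x, g y = c} with hu
  have huo : IsOpen u := isOpen_setOf_eventually_nhds
  have hne' : (W ∩ u).Nonempty := by
    obtain ⟨b, hb⟩ := hne
    exact ⟨b, hBW hb, Filter.mem_of_superset (hB.mem_nhds hb) hBc⟩
  have hcl : closure u ∩ W ⊆ u := by
    rintro x ⟨hx, hxW⟩
    obtain ⟨r, hr, hb⟩ := Metric.isOpen_iff.1 hW x hxW
    obtain ⟨z, hzb, hzu⟩ := mem_closure_iff.1 hx (ball x r) isOpen_ball (mem_ball_self hr)
    have key : ∀ y ∈ ball x r, g y = c := by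
      intro y hy
      refine DHb_id hg hb hzb hy ?_
      have hz : ∀ᶠ y in 𝓝 z, g y = c := hzu
      have ht : Tendsto (fun t : ℂ => z + t • (y - z)) (𝓝 0) (𝓝 z) := by
        have h3 := (DHb_line z (y - z)).continuous.tendsto 0
        simpa using h3
      exact ht.eventually hz
    exact Filter.mem_of_superset (isOpen_ball.mem_nhds (mem_ball_self hr)) key
  have hsub : W ⊆ u := hc.subset_of_closure_inter_subset huo hne' hcl
  intro x hx
  exact (hsub hx).self_of_nhds

/-- a nonconstant map is nonconstant along some complex line through each point -/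
theorem dh_dir {Y : Type} [NormedAddCommGroup Y] [NormedSpace ℂ Y] [CompleteSpace Y]
    {W : Set E} (hW : IsOpen W) (hc : IsPreconnected W) {g : E → Y} (hg : DH W g)
    (hne : ∃ x ∈ W, ∃ y ∈ W, g x ≠ g y) {x : E} (hx : x ∈ W) :
    ∃ v : E, v ≠ 0 ∧ NC (fun t : ℂ => g (x + t • v)) 0 := by
  by_contra hcon
  push Not at hcon
  obtain ⟨r, hr, hb⟩ := Metric.isOpen_iff.1 hW x hx
  have key : ∀ y ∈ ball x r, g y = g x := by
    intro y hy
    rcases eq_or_ne y x with rfl | hyx
    · rfl
    · have h1 := hcon (y - x) (sub_ne_zero.2 hyx)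
      have h2 : ∀ᶠ t : ℂ in 𝓝 0, g (x + t • (y - x)) = g x := by
        have h3 : ∀ᶠ t : ℂ in 𝓝 0, ¬ (g (x + t • (y - x)) ≠ g (x + (0 : ℂ) • (y - x))) :=
          Filter.not_frequently.1 h1
        filter_upwards [h3] with t ht
        have h4 := not_not.1 ht
        rw [zero_smul, add_zero] at h4
        exact h4
      exact DHb_id hg hb (mem_ball_self hr) hy h2
  have hall := dh_const hW hc hg isOpen_ball hb ⟨x, mem_ball_self hr⟩ key
  obtain ⟨a, ha, b, hbW, hab⟩ := hne
  exact hab ((hall a ha).trans (hall b hbW).symm)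

/-- maximum principle -/
theorem dh_max {W : Set E} (hW : IsOpen W) (hc : IsPreconnected W) {g : E → ℂ} (hg : DH W g)
    {x₀ : E} (hx₀ : x₀ ∈ W) (hmax : ∀ x ∈ W, ‖g x‖ ≤ ‖g x₀‖) : ∀ x ∈ W, g x = g x₀ := by
  obtain ⟨r, hr, hb⟩ := Metric.isOpen_iff.1 hW x₀ hx₀
  refine dh_const hW hc hg isOpen_ball hb ⟨x₀, mem_ball_self hr⟩ ?_
  intro y hy
  obtain ⟨hO, hC⟩ := DHb_pre x₀ (y - x₀) x₀ r
  set D : Set ℂ := (fun t : ℂ => x₀ + t • (y - x₀)) ⁻¹' ball x₀ r with hD
  have h0 : (0 : ℂ) ∈ D := by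
    show x₀ + (0 : ℂ) • (y - x₀) ∈ ball x₀ r
    rw [zero_smul, add_zero]; exact mem_ball_self hr
  have h1 : (1 : ℂ) ∈ D := by
    show x₀ + (1 : ℂ) • (y - x₀) ∈ ball x₀ r
    rw [one_smul, add_sub_cancel]; exact hy
  have hd := hg.2 (fun t : ℂ => x₀ + t • (y - x₀)) D hO (DHb_line _ _).differentiableOn
    (fun t ht => hb ht)
  have hm : IsMaxOn (norm ∘ fun z : ℂ => g (x₀ + z • (y - x₀))) D 0 := by
    intro t ht
    show ‖g (x₀ + t • (y - x₀))‖ ≤ ‖g (x₀ + (0 : ℂ) • (y - x₀))‖
    rw [zero_smul, add_zero]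
    exact hmax _ (hb ht)
  have he := Complex.eqOn_of_isPreconnected_of_isMaxOn_norm hC hO hd h0 hm
  have h2 := he h1
  simp only [one_smul, add_sub_cancel, Function.const_apply, zero_smul, add_zero] at h2
  exact h2

end Pool.Agent.HQ
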