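import Pool.Agent.HQ.Defs

/-!
# HQ module Lines: bounded holomorphic maps are Lipschitz on smaller balls
-/

set_option autoImplicit false

open Filter Topology Set Metric

namespace Pool.Agent.HQ

theorem Lines_schwarz {Y : Type} [NormedAddCommGroup Y] [NormedSpace ℂ Y] {c z : ℂ} {r R : ℝ}
    (hr : 0 < r) {g : ℂ → Y} (hg : DifferentiableOn ℂ g (ball c r))
    (hR : ∀ y ∈ ball c r, ‖g y‖ ≤ R) (hz : z ∈ ball c r) :
    ‖g z - g c‖ ≤ 2 * R / r * ‖z - c‖ := by
  have hmap : MapsTo g (ball c r) (closedBall (g c) (2 * R)) := by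
    intro y hy
    rw [mem_closedBall, dist_eq_norm]
    have h1 := hR y hy
    have h2 := hR c (mem_ball_self hr)
    have h3 := norm_sub_le (g y) (g c)
    linarith
  have h := Complex.dist_le_div_mul_dist_of_mapsTo_ball hg hmap hz
  rwa [dist_eq_norm, dist_eq_norm] at h

theorem Lines_far {Y : Type} [NormedAddCommGroup Y] {a b : Y} {r R t : ℝ}
    (hr : 0 < r) (ha : ‖a‖ ≤ R) (hb : ‖b‖ ≤ R) (ht : r / 2 ≤ t) :
    ‖a - b‖ ≤ (8 * R / r) * t := by
  have hR : 0 ≤ R := (norm_nonneg _).trans ha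
  have h1 := norm_sub_le a b
  have h2 : (8 * R / r) * (r / 2) ≤ (8 * R / r) * t :=
    mul_le_mul_of_nonneg_left ht (by positivity)
  have h3 : (8 * R / r) * (r / 2) = 4 * R := by
    field_simp
    ring
  linarith

theorem lip_of_bdd_disc {Y : Type} [NormedAddCommGroup Y] [NormedSpace ℂ Y] {x : ℂ} {r R : ℝ}
    (hr : 0 < r) {g : ℂ → Y} (hg : DifferentiableOn ℂ g (ball x r))
    (hR : ∀ y ∈ ball x r, ‖g y‖ ≤ R) :
    ∀ y ∈ ball x (r / 2), ∀ z ∈ ball x (r / 2), ‖g y - g z‖ ≤ (8 * R / r) * ‖y - z‖ := by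
  intro y hy z hz
  have hsub : ball x (r / 2) ⊆ ball x r := ball_subset_ball (by linarith)
  rcases le_or_gt (r / 2) ‖y - z‖ with h | h
  · exact Lines_far hr (hR y (hsub hy)) (hR z (hsub hz)) h
  · have hR0 : 0 ≤ R := (norm_nonneg _).trans (hR y (hsub hy))
    have hsub2 : ball z (r / 2) ⊆ ball x r := by
      refine ball_subset_ball' ?_
      have := mem_ball.1 hz
      linarith
    have h1 := Lines_schwarz (r := r / 2) (by linarith) (hg.mono hsub2)
      (fun w hw => hR w (hsub2 hw)) (z := y) (by rwa [mem_ball, dist_eq_norm])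
    refine h1.trans (mul_le_mul_of_nonneg_right ?_ (norm_nonneg _))
    have h2 : 2 * R / (r / 2) = 4 * R / r := by
      field_simp
      ring
    rw [h2]
    exact div_le_div_of_nonneg_right (by linarith) hr.le

theorem lip_of_bdd {Y : Type} [NormedAddCommGroup Y] [NormedSpace ℂ Y] {x : E} {r R : ℝ}
    (hr : 0 < r) {g : E → Y} (hg : DH (ball x r) g) (hR : ∀ y ∈ ball x r, ‖g y‖ ≤ R) :
    ∀ y ∈ ball x (r / 2), ∀ z ∈ ball x (r / 2), ‖g y - g z‖ ≤ (8 * R / r) * ‖y - z‖ := by
  intro y hy z hz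
  have hsub : ball x (r / 2) ⊆ ball x r := ball_subset_ball (by linarith)
  rcases le_or_gt (r / 2) ‖y - z‖ with h | h
  · exact Lines_far hr (hR y (hsub hy)) (hR z (hsub hz)) h
  · have hR0 : 0 ≤ R := (norm_nonneg _).trans (hR y (hsub hy))
    rcases eq_or_ne y z with rfl | hne
    · simp
    have hn : 0 < ‖y - z‖ := norm_pos_iff.2 (sub_ne_zero.2 hne)
    have hsub2 : ball z (r / 2) ⊆ ball x r := by
      refine ball_subset_ball' ?_
      have := mem_ball.1 hz
      linarith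
    let γ : ℂ → E := fun t => z + (t * ((‖y - z‖ : ℝ) : ℂ)⁻¹) • (y - z)
    have hn' : ((‖y - z‖ : ℝ) : ℂ) ≠ 0 := by
      exact_mod_cast hn.ne'
    have hγd : Differentiable ℂ γ := by
      intro t
      exact ((differentiableAt_id.mul_const _).smul_const _).const_add _
    have hγn : ∀ t : ℂ, ‖γ t - z‖ = ‖t‖ := by
      intro t
      have h0 : γ t - z = (t * ((‖y - z‖ : ℝ) : ℂ)⁻¹) • (y - z) := by
        change z + (t * ((‖y - z‖ : ℝ) : ℂ)⁻¹) • (y - z) - z = _
        rw [add_sub_cancel_left]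
      rw [h0, norm_smul, norm_mul, norm_inv, Complex.norm_real, norm_norm]
      field_simp
    have hmaps : MapsTo γ (ball 0 (r / 2)) (ball x r) := by
      intro t ht
      refine hsub2 ?_
      rw [mem_ball, dist_eq_norm, hγn]
      rwa [mem_ball_zero_iff] at ht
    have hd := hg.2 γ (ball 0 (r / 2)) isOpen_ball hγd.differentiableOn hmaps
    have h1 := Lines_schwarz (r := r / 2) (c := 0) (z := ((‖y - z‖ : ℝ) : ℂ)) (by linarith) hd
      (fun w hw => hR _ (hmaps hw)) (by
        rw [mem_ball_zero_iff, Complex.norm_real, norm_norm]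
        exact h)
    have h2 : γ ((‖y - z‖ : ℝ) : ℂ) = y := by
      change z + (((‖y - z‖ : ℝ) : ℂ) * ((‖y - z‖ : ℝ) : ℂ)⁻¹) • (y - z) = y
      rw [mul_inv_cancel₀ hn', one_smul, add_sub_cancel]
    have h3 : γ 0 = z := by
      change z + ((0 : ℂ) * ((‖y - z‖ : ℝ) : ℂ)⁻¹) • (y - z) = z
      rw [zero_mul, zero_smul, add_zero]
    rw [h2, h3, sub_zero, Complex.norm_real, norm_norm] at h1
    refine h1.trans (mul_le_mul_of_nonneg_right ?_ (norm_nonneg _))
    have h4 : 2 * R / (r / 2) = 4 * R / r := by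
      field_simp
      ring
    rw [h4]
    exact div_le_div_of_nonneg_right (by linarith) hr.le

end Pool.Agent.HQ
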