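import Pool.Agent.HQ.Defs

/-!
# HQ module Loc: local normal form of a nonconstant holomorphic function
-/

set_option autoImplicit false

open Filter Topology Set Metric

namespace Pool.Agent.HQ

theorem local_coord {g : ℂ → ℂ} {s₀ : ℂ} {D : Set ℂ} (hD : IsOpen D) (hs : s₀ ∈ D)
    (hg : DifferentiableOn ℂ g D) (hnc : NC g s₀) :
    ∃ m : ℕ, 0 < m ∧ ∃ t₀ > 0, ∃ φ : ℂ → ℂ, DifferentiableOn ℂ φ (ball 0 t₀) ∧
      InjOn φ (ball 0 t₀) ∧ MapsTo φ (ball 0 t₀) D ∧ φ 0 = s₀ ∧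
      (∀ t ∈ ball (0 : ℂ) t₀, g (φ t) = g s₀ + t ^ m) ∧
      ∀ r, 0 < r → r ≤ t₀ → φ '' ball 0 r ∈ 𝓝 s₀ := by
  have hga : AnalyticAt ℂ g s₀ := hg.analyticAt (hD.mem_nhds hs)
  have hfa : AnalyticAt ℂ (fun z => g z - g s₀) s₀ := hga.sub analyticAt_const
  have hne : ¬ ∀ᶠ z in 𝓝 s₀, (fun z => g z - g s₀) z = 0 := by
    intro h
    apply hnc
    filter_upwards [h] with z hz
    simp only [not_not]
    exact sub_eq_zero.1 hz
  obtain ⟨m, u, hu, hu0, hEq⟩ := hfa.exists_eventuallyEq_pow_smul_nonzero_iff.2 hne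
  have hm : 0 < m := by
    rcases Nat.eq_zero_or_pos m with rfl | h
    · exfalso
      have := hEq.self_of_nhds
      simp at this
      exact hu0 this.symm
    · exact h
  obtain ⟨c, hc⟩ := IsAlgClosed.exists_pow_nat_eq (u s₀) hm
  have hc0 : c ≠ 0 := by
    rintro rfl
    rw [zero_pow hm.ne'] at hc
    exact hu0 hc.symm
  have hw : AnalyticAt ℂ (fun z => u z / u s₀) s₀ := hu.div analyticAt_const hu0
  have hv : AnalyticAt ℂ (fun z => c * (u z / u s₀) ^ (1 / m : ℂ)) s₀ := by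
    apply AnalyticAt.mul analyticAt_const
    apply AnalyticAt.cpow hw analyticAt_const
    rw [div_self hu0]
    exact Complex.one_mem_slitPlane
  have hvm : ∀ z, (c * (u z / u s₀) ^ (1 / m : ℂ)) ^ m = u z := by
    intro z
    rw [mul_pow, hc, one_div, Complex.cpow_nat_inv_pow _ hm.ne']
    field_simp
  set v : ℂ → ℂ := fun z => c * (u z / u s₀) ^ (1 / m : ℂ) with hvdef
  have hv0 : v s₀ = c := by
    simp [hvdef, div_self hu0]
  set h : ℂ → ℂ := fun z => (z - s₀) * v z with hhdef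
  have hh : AnalyticAt ℂ h s₀ := (analyticAt_id.sub analyticAt_const).mul hv
  have hder : HasDerivAt h c s₀ := by
    have h1 : HasDerivAt (fun z : ℂ => z - s₀) 1 s₀ := (hasDerivAt_id s₀).sub_const s₀
    have h2 := h1.mul hv.differentiableAt.hasDerivAt
    have h3 : (1 : ℂ) * v s₀ + (s₀ - s₀) * deriv v s₀ = c := by rw [hv0]; ring
    rw [← h3]
    exact h2
  have hstr : HasStrictDerivAt h c s₀ := by
    have := hh.hasStrictDerivAt
    rwa [hder.deriv] at this
  have hstr' : HasStrictFDerivAt h ((ContinuousLinearEquiv.unitsEquivAut ℂ (Units.mk0 c hc0) : ℂ ≃L[ℂ] ℂ) : ℂ →L[ℂ] ℂ) s₀ :=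
    hstr.hasStrictFDerivAt_equiv hc0
  let e : OpenPartialHomeomorph ℂ ℂ := hstr'.toOpenPartialHomeomorph h
  have hes : s₀ ∈ e.source := hstr'.mem_toOpenPartialHomeomorph_source
  have hec : ⇑e = h := hstr'.toOpenPartialHomeomorph_coe
  have hh0 : h s₀ = 0 := by simp [hhdef]
  have hes0 : e s₀ = 0 := by rw [hec, hh0]
  have hsym0 : e.symm 0 = s₀ := by rw [← hes0]; exact e.left_inv hes
  have ht0 : (0 : ℂ) ∈ e.target := by rw [← hes0]; exact e.map_source hes
  have hgood : ∀ᶠ z in 𝓝 s₀, z ∈ D ∧ g z - g s₀ = (z - s₀) ^ m * u z ∧ AnalyticAt ℂ h z ∧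
      deriv h z ≠ 0 := by
    have h1 : ∀ᶠ z in 𝓝 s₀, deriv h z ≠ 0 := by
      have : ContinuousAt (deriv h) s₀ := hh.deriv.continuousAt
      apply this.eventually_ne
      rw [hder.deriv]; exact hc0
    filter_upwards [hD.mem_nhds hs, hEq, hh.eventually_analyticAt, h1] with z a1 a2 a3 a4
    exact ⟨a1, by simpa using a2, a3, a4⟩
  have hev : ∀ᶠ t in 𝓝 (0 : ℂ), t ∈ e.target ∧ (e.symm t ∈ D ∧
      g (e.symm t) - g s₀ = (e.symm t - s₀) ^ m * u (e.symm t) ∧ AnalyticAt ℂ h (e.symm t) ∧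
      deriv h (e.symm t) ≠ 0) := by
    have hc1 : Tendsto e.symm (𝓝 0) (𝓝 s₀) := by
      have := e.symm.continuousAt (x := 0) ht0
      unfold ContinuousAt at this
      rwa [hsym0] at this
    exact Filter.Eventually.and (e.open_target.mem_nhds ht0) (hc1.eventually hgood)
  obtain ⟨t₀, ht₀, hball⟩ := Metric.eventually_nhds_iff_ball.1 hev
  refine ⟨m, hm, t₀, ht₀, e.symm, ?_, ?_, ?_, hsym0, ?_, ?_⟩
  · intro t ht
    obtain ⟨b1, b2, b3, b4, b5⟩ := hball t ht
    have hd : HasDerivAt (⇑e) (deriv h (e.symm t)) (e.symm t) := by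
      rw [hec]; exact b4.differentiableAt.hasDerivAt
    exact (e.hasDerivAt_symm b1 b5 hd).differentiableAt.differentiableWithinAt
  · exact e.symm.injOn.mono fun t ht => (hball t ht).1
  · exact fun t ht => (hball t ht).2.1
  · intro t ht
    obtain ⟨b1, b2, b3, b4, b5⟩ := hball t ht
    have hht : h (e.symm t) = t := by
      rw [← hec]; exact e.right_inv b1
    have : t ^ m = (e.symm t - s₀) ^ m * u (e.symm t) := by
      conv_lhs => rw [← hht]
      change ((e.symm t - s₀) * v (e.symm t)) ^ m = _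
      rw [mul_pow]
      congr 1
      exact hvm _
    rw [this, ← b3]
    ring
  · intro r hr _
    have := e.symm.image_mem_nhds (x := 0) ht0 (Metric.ball_mem_nhds (0 : ℂ) hr)
    rwa [hsym0] at this

end Pool.Agent.HQ
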