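import Pool.Agent.HQ.Defs
import Pool.Agent.HQ.DHb

/-!
# HQ module RootP: product over the m-th roots is holomorphic along discs
-/

set_option autoImplicit false

open Filter Topology Set Metric

namespace Pool.Agent.HQ

/-- the `j`-th root of unity -/
noncomputable def RootP_w (m j : ℕ) : ℂ := Complex.exp (2 * Real.pi * Complex.I * j / m)

/-- the product over the roots -/
noncomputable def RootP_Phi (g : ℂ → ℂ) (m : ℕ) (t w : ℂ) : ℂ :=
  ∏ j ∈ Finset.range m, (w - g (RootP_w m j * t))

theorem RootP_norm (m j : ℕ) : ‖RootP_w m j‖ = 1 := by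
  unfold RootP_w
  have h : (2 * Real.pi * Complex.I * j / m : ℂ) = ((2 * Real.pi * j / m : ℝ) : ℂ) * Complex.I := by
    push_cast
    ring
  rw [h]
  exact Complex.norm_exp_ofReal_mul_I _

theorem RootP_pow (m j : ℕ) : RootP_w m j = Complex.exp (2 * Real.pi * Complex.I / m) ^ j := by
  unfold RootP_w
  rw [← Complex.exp_nat_mul]
  congr 1
  ring

theorem RootP_per {m : ℕ} (hm : 0 < m) {F : ℕ → ℂ} (h : ∀ j, F (j + m) = F j) (i : ℕ) :
    ∏ j ∈ Finset.range m, F (j + i) = ∏ j ∈ Finset.range m, F j := by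
  obtain ⟨n, rfl⟩ : ∃ n, m = n + 1 := ⟨m - 1, by omega⟩
  induction i with
  | zero => rfl
  | succ i ih =>
    rw [← ih, Finset.prod_range_succ, Finset.prod_range_succ']
    have h1 : F (n + (i + 1)) = F (0 + i) := by
      rw [zero_add, ← h i]
      congr 1
      omega
    rw [h1]
    congr 1
    refine Finset.prod_congr rfl fun j _ => ?_
    congr 1
    omega

theorem RootP_inv {g : ℂ → ℂ} {m : ℕ} (hm : 0 < m) {t s w : ℂ} (h : t ^ m = s ^ m) :
    RootP_Phi g m t w = RootP_Phi g m s w := by
  by_cases ht : t = 0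
  · subst ht
    rw [zero_pow hm.ne'] at h
    have hs : s = 0 := by
      by_contra hs
      exact (pow_ne_zero m hs) h.symm
    rw [hs]
  · have hprim : IsPrimitiveRoot (Complex.exp (2 * Real.pi * Complex.I / m)) m :=
      Complex.isPrimitiveRoot_exp m hm.ne'
    have hξ : (s / t) ^ m = 1 := by
      rw [div_pow, ← h, div_self (pow_ne_zero m ht)]
    have : NeZero m := ⟨hm.ne'⟩
    obtain ⟨i, -, hi⟩ := hprim.eq_pow_of_pow_eq_one hξ
    have hs : s = RootP_w m i * t := by
      rw [RootP_pow, hi, div_mul_cancel₀ _ ht]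
    have hF : ∀ j, (fun j => w - g (RootP_w m j * t)) (j + m) =
        (fun j => w - g (RootP_w m j * t)) j := by
      intro j
      simp only
      rw [RootP_pow, RootP_pow, pow_add, hprim.pow_eq_one, mul_one]
    have h1 := RootP_per (F := fun j => w - g (RootP_w m j * t)) hm hF i
    unfold RootP_Phi
    rw [← h1]
    refine Finset.prod_congr rfl fun j _ => ?_
    rw [hs, RootP_pow, RootP_pow, RootP_pow, pow_add, mul_assoc]

theorem RootP_mem {m j : ℕ} {t₀ : ℝ} {t : ℂ} (ht : t ∈ ball (0 : ℂ) t₀) :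
    RootP_w m j * t ∈ ball (0 : ℂ) t₀ := by
  rw [mem_ball_zero_iff] at ht ⊢
  rwa [norm_mul, RootP_norm, one_mul]

theorem RootP_diff {m : ℕ} {t₀ : ℝ} {g : ℂ → ℂ} (hg : DifferentiableOn ℂ g (ball 0 t₀))
    {a b : ℂ → ℂ} {z : ℂ} (ha : DifferentiableAt ℂ a z) (hb : DifferentiableAt ℂ b z)
    (hz : a z ∈ ball (0 : ℂ) t₀) : DifferentiableAt ℂ (fun y => RootP_Phi g m (a y) (b y)) z := by
  unfold RootP_Phi
  refine DifferentiableAt.fun_finsetProd fun j _ => ?_
  refine hb.sub ?_
  have h1 : DifferentiableAt ℂ g (RootP_w m j * a z) :=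
    hg.differentiableAt (isOpen_ball.mem_nhds (RootP_mem hz))
  exact h1.comp z (ha.const_mul (RootP_w m j))

theorem RootP_cont {m : ℕ} {t₀ : ℝ} {g : ℂ → ℂ} (hg : DifferentiableOn ℂ g (ball 0 t₀))
    {a b : E → ℂ} {z : E} (ha : ContinuousAt a z) (hb : ContinuousAt b z)
    (hz : a z ∈ ball (0 : ℂ) t₀) : ContinuousAt (fun y => RootP_Phi g m (a y) (b y)) z := by
  unfold RootP_Phi
  refine tendsto_finsetProd _ fun j _ => ?_
  refine hb.sub ?_
  have h1 : ContinuousAt g (RootP_w m j * a z) :=
    (hg.differentiableAt (isOpen_ball.mem_nhds (RootP_mem hz))).continuousAt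
  exact ContinuousAt.comp (f := fun y => RootP_w m j * a y) h1 (ha.const_mul (RootP_w m j))

/-- the principal root -/
noncomputable def RootP_r (m : ℕ) (z : ℂ) : ℂ := z ^ ((1 : ℂ) / m)

theorem RootP_r_pow {m : ℕ} (hm : 0 < m) (z : ℂ) : RootP_r m z ^ m = z := by
  unfold RootP_r
  rw [one_div]
  exact Complex.cpow_nat_inv_pow z hm.ne'

theorem RootP_lt {m : ℕ} {t₀ : ℝ} (ht₀ : 0 < t₀) {t z : ℂ} (h : t ^ m = z) (hz : ‖z‖ < t₀ ^ m) :
    t ∈ ball (0 : ℂ) t₀ := by
  rw [mem_ball_zero_iff]
  refine lt_of_pow_lt_pow_left₀ m ht₀.le ?_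
  rw [← norm_pow, h]
  exact hz

/-- a local branch of the root -/
theorem RootP_branch {m : ℕ} (hm : 0 < m) {c : ℂ} (hc : c ≠ 0) :
    ∃ r : ℂ → ℂ, DifferentiableAt ℂ r c ∧ (∀ z, r z ^ m = z) := by
  refine ⟨fun z => RootP_r m c * RootP_r m (z / c), ?_, fun z => ?_⟩
  · have h1 : DifferentiableAt ℂ (fun z => RootP_r m (z / c)) c := by
      unfold RootP_r
      have h2 : DifferentiableAt ℂ (fun z : ℂ => z / c) c := by fun_prop
      refine h2.cpow_const ?_
      left
      rw [div_self hc]
      simp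
    exact h1.const_mul _
  · rw [mul_pow, RootP_r_pow hm, RootP_r_pow hm, mul_div_cancel₀ _ hc]

theorem root_prod {m : ℕ} (hm : 0 < m) {t₀ : ℝ} (ht₀ : 0 < t₀) {g : ℂ → ℂ}
    (hg : DifferentiableOn ℂ g (ball 0 t₀)) :
    ∃ H : E → ℂ, DH {z : E | ‖z.1‖ < t₀ ^ m} H ∧
      ∀ z : E, ‖z.1‖ < t₀ ^ m → ∀ t : ℂ, t ^ m = z.1 →
        H z = ∏ j ∈ Finset.range m,
          (z.2 - g (Complex.exp (2 * Real.pi * Complex.I * j / m) * t)) := by
  refine ⟨fun z => RootP_Phi g m (RootP_r m z.1) z.2, ⟨?_, ?_⟩, ?_⟩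
  · -- continuity
    intro z hz
    have hz' : ‖z.1‖ < t₀ ^ m := hz
    refine ContinuousAt.continuousWithinAt ?_
    by_cases h0 : z.1 = 0
    · refine RootP_cont hg ?_ continuousAt_snd ?_
      · have h1 : ContinuousAt (fun y : ℂ => RootP_r m y) z.1 := by
          rw [h0]
          unfold RootP_r
          have h2 : ContinuousAt (fun x : ℂ × ℂ => x.1 ^ x.2) (0, (1 : ℂ) / m) := by
            refine Complex.continuousAt_cpow_zero_of_re_pos ?_
            have : ((1 : ℂ) / m) = ((1 / m : ℝ) : ℂ) := by push_cast; rfl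
            rw [this, Complex.ofReal_re]
            positivity
          exact ContinuousAt.comp (f := fun y : ℂ => (y, (1 : ℂ) / m)) h2
            (continuousAt_id.prodMk continuousAt_const)
        exact ContinuousAt.comp (f := fun y : E => y.1) h1 continuousAt_fst
      · exact RootP_lt ht₀ (RootP_r_pow hm _) hz'
    · obtain ⟨r, hr, hrm⟩ := RootP_branch hm h0
      have h1 : (fun y : E => RootP_Phi g m (RootP_r m y.1) y.2) =
          fun y : E => RootP_Phi g m (r y.1) y.2 := by
        funext y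
        exact RootP_inv hm (by rw [RootP_r_pow hm, hrm])
      rw [h1]
      refine RootP_cont hg ?_ continuousAt_snd ?_
      · exact ContinuousAt.comp (f := fun y : E => y.1) hr.continuousAt continuousAt_fst
      · exact RootP_lt ht₀ (hrm _) hz'
  · -- holomorphy
    intro γ D hD hγ hmap
    have hc : ∀ z ∈ D, (γ z).1 ≠ 0 →
        DifferentiableAt ℂ (fun y => RootP_Phi g m (RootP_r m (γ y).1) (γ y).2) z := by
      intro z hz h0
      obtain ⟨r, hr, hrm⟩ := RootP_branch hm h0
      have h1 : (fun y => RootP_Phi g m (RootP_r m (γ y).1) (γ y).2) =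
          fun y => RootP_Phi g m (r (γ y).1) (γ y).2 := by
        funext y
        exact RootP_inv hm (by rw [RootP_r_pow hm, hrm])
      rw [h1]
      have h2 : DifferentiableAt ℂ γ z := hγ.differentiableAt (hD.mem_nhds hz)
      refine RootP_diff hg ?_ h2.snd (RootP_lt ht₀ (hrm _) (hmap hz))
      exact DifferentiableAt.comp (f := fun y => (γ y).1) z hr h2.fst
    intro z hz
    refine DifferentiableAt.differentiableWithinAt ?_
    by_cases h0 : (γ z).1 = 0
    · have han : AnalyticAt ℂ (fun y => (γ y).1) z := (hγ.fst).analyticAt (hD.mem_nhds hz)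
      have h2 : DifferentiableAt ℂ γ z := hγ.differentiableAt (hD.mem_nhds hz)
      rcases han.eventually_eq_zero_or_eventually_ne_zero with h1 | h1
      · have h3 : (fun y => RootP_Phi g m (RootP_r m (γ y).1) (γ y).2) =ᶠ[𝓝 z]
            fun y => RootP_Phi g m 0 (γ y).2 := by
          filter_upwards [h1] with y hy
          exact RootP_inv hm (by rw [RootP_r_pow hm, hy, zero_pow hm.ne'])
        refine (h3.differentiableAt_iff).2 ?_
        exact RootP_diff (a := fun _ => 0) hg (differentiableAt_const _) h2.snd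
          (mem_ball_self ht₀)
      · -- removable singularity
        have h4 : ∀ᶠ y in 𝓝[≠] z, y ∈ D := nhdsWithin_le_nhds (hD.mem_nhds hz)
        obtain ⟨u, hu, hu'⟩ := (mem_nhdsWithin_iff_exists_mem_nhds_inter).1 (h1.and h4)
        have h5 : DifferentiableOn ℂ (fun y => RootP_Phi g m (RootP_r m (γ y).1) (γ y).2)
            (u \ {z}) := by
          intro y hy
          have h6 := hu' hy
          exact (hc y h6.2 h6.1).differentiableWithinAt
        have h7 : ContinuousAt (fun y => RootP_Phi g m (RootP_r m (γ y).1) (γ y).2) z := by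
          have h8 : ContinuousAt (fun y : ℂ => RootP_r m y) (γ z).1 := by
            rw [h0]
            unfold RootP_r
            have h2 : ContinuousAt (fun x : ℂ × ℂ => x.1 ^ x.2) (0, (1 : ℂ) / m) := by
              refine Complex.continuousAt_cpow_zero_of_re_pos ?_
              have : ((1 : ℂ) / m) = ((1 / m : ℝ) : ℂ) := by push_cast; rfl
              rw [this, Complex.ofReal_re]
              positivity
            exact ContinuousAt.comp (f := fun y : ℂ => (y, (1 : ℂ) / m)) h2
              (continuousAt_id.prodMk continuousAt_const)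
          have h9 : ContinuousAt (fun y : E => RootP_Phi g m (RootP_r m y.1) y.2) (γ z) := by
            refine RootP_cont hg ?_ continuousAt_snd (RootP_lt ht₀ (RootP_r_pow hm _) (hmap hz))
            exact ContinuousAt.comp (f := fun y : E => y.1) h8 continuousAt_fst
          exact ContinuousAt.comp (f := γ) h9 h2.continuousAt
        exact ((Complex.differentiableOn_compl_singleton_and_continuousAt_iff hu).1
          ⟨h5, h7⟩).differentiableAt hu
    · exact hc z hz h0
  · intro z hz t ht
    have h1 : RootP_Phi g m (RootP_r m z.1) z.2 = RootP_Phi g m t z.2 :=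
      RootP_inv hm (by rw [RootP_r_pow hm, ht])
    exact h1

end Pool.Agent.HQ
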