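import Pool.Agent.HQ.Defs
import Pool.Agent.HQ.DHb
import Pool.Agent.HQ.Lines
import Pool.Agent.HQ.Loc
import Pool.Agent.HQ.RootP

/-!
# HQ module LEq: local equation of a holomorphic disc
-/

set_option autoImplicit false

open Filter Topology Set Metric

namespace Pool.Agent.HQ

theorem LEq_root {m : ℕ} (hm : 0 < m) (j : ℕ) :
    (Complex.exp (2 * Real.pi * Complex.I * j / m)) ^ m = 1 := by
  rw [← Complex.exp_nat_mul]
  have h1 : (m : ℂ) * (2 * Real.pi * Complex.I * j / m) = j * (2 * Real.pi * Complex.I) := by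
    have : (m : ℂ) ≠ 0 := by exact_mod_cast hm.ne'
    field_simp
  rw [h1]
  exact Complex.exp_nat_mul_two_pi_mul_I j

/-- the local equation if the first coordinate is not constant -/
theorem LEq_fst {Γ : ℂ → E} {s₀ : ℂ} {D : Set ℂ} (hD : IsOpen D) (hs : s₀ ∈ D)
    (hΓ : DifferentiableOn ℂ Γ D) (hnc : NC (fun s => (Γ s).1) s₀) :
    ∃ ε₀ > 0, ball s₀ ε₀ ⊆ D ∧ ∀ ε, 0 < ε → ε ≤ ε₀ → ∃ δ₀ > 0, ∃ H : E → ℂ,
      ∀ δ, 0 < δ → δ ≤ δ₀ → LEqn Γ s₀ ε δ H := by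
  obtain ⟨m, hm, t₀, ht₀, φ, hφ, hinj, hmaps, hφ0, hφm, hφn⟩ :=
    local_coord (g := fun s => (Γ s).1) hD hs hΓ.fst hnc
  have hg : DifferentiableOn ℂ (fun t => (Γ (φ t)).2) (ball 0 t₀) := (hΓ.snd).comp hφ hmaps
  obtain ⟨H₀, hH₀, hH₀'⟩ := root_prod hm ht₀ hg
  obtain ⟨ε₀, hε₀, hball⟩ := Metric.mem_nhds_iff.1 (hφn t₀ ht₀ le_rfl)
  refine ⟨ε₀, hε₀, ?_, ?_⟩
  · intro s hs
    obtain ⟨t, ht, rfl⟩ := hball hs
    exact hmaps ht
  intro ε hε hεε₀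
  have h0 : (0 : ℂ) ∈ ball (0 : ℂ) t₀ := mem_ball_self ht₀
  have hcont : ContinuousAt φ 0 :=
    (hφ.continuousOn).continuousAt (isOpen_ball.mem_nhds h0)
  obtain ⟨t₁, ht₁, hφε⟩ := Metric.continuousAt_iff.1 hcont ε hε
  rw [hφ0] at hφε
  set t₂ := min t₀ t₁ with ht₂def
  have ht₂ : 0 < t₂ := lt_min ht₀ ht₁
  have ht₂₀ : t₂ ≤ t₀ := min_le_left _ _
  have ht₂₁ : t₂ ≤ t₁ := min_le_right _ _
  set δ₀ := t₂ ^ m / 4 with hδ₀def
  have hδ₀ : 0 < δ₀ := by positivity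
  have hδ₀t : 2 * δ₀ < t₂ ^ m := by
    rw [hδ₀def]
    have : 0 < t₂ ^ m := by positivity
    linarith
  have ht₂m : t₂ ^ m ≤ t₀ ^ m := pow_le_pow_left₀ ht₂.le ht₂₀ m
  set x : E := Γ s₀ with hx
  set T : E → E := fun z => (z.1 - x.1, z.2) with hT
  have hTc : Continuous T := by
    rw [hT]
    fun_prop
  have hTd : Differentiable ℂ T := by
    rw [hT]
    fun_prop
  have hfst : ∀ {z : E} {r : ℝ}, ‖z - x‖ < r → ‖(T z).1‖ < r := by
    intro z r hz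
    refine lt_of_le_of_lt ?_ hz
    rw [hT]
    exact norm_fst_le (z - x)
  have hdist : ∀ {z : E} {r : ℝ}, z ∈ ball x r → ‖z - x‖ < r := by
    intro z r hz
    rwa [mem_ball, dist_eq_norm] at hz
  set H : E → ℂ := fun z => H₀ (T z) with hHdef
  have hHDH : ∀ r, r ≤ 2 * δ₀ → DH (ball x r) H := by
    intro r hr
    have hmap : MapsTo T (ball x r) {z : E | ‖z.1‖ < t₀ ^ m} := by
      intro z hz
      show ‖(T z).1‖ < t₀ ^ m
      exact (hfst (hdist hz)).trans_le ((hr.trans hδ₀t.le).trans ht₂m)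
    refine ⟨hH₀.1.comp hTc.continuousOn hmap, ?_⟩
    intro γ D' hD' hγ hγm
    exact hH₀.2 (fun z => T (γ z)) D' hD' (hTd.comp_differentiableOn hγ)
      (fun z hz => hmap (hγm hz))
  have hform : ∀ {z : E}, ‖z - x‖ < 2 * δ₀ → ∀ {t : ℂ}, t ^ m = z.1 - x.1 →
      H z = ∏ j ∈ Finset.range m,
        (z.2 - (Γ (φ (Complex.exp (2 * Real.pi * Complex.I * j / m) * t))).2) := by
    intro z hz t ht
    exact hH₀' (T z) ((hfst hz).trans_le (hδ₀t.le.trans ht₂m)) t ht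
  have hrt : ∀ {z : E} {δ : ℝ}, δ ≤ δ₀ → ‖z - x‖ < δ → ∀ {t : ℂ}, t ^ m = z.1 - x.1 → ∀ j : ℕ,
      Complex.exp (2 * Real.pi * Complex.I * j / m) * t ∈ ball (0 : ℂ) t₂ ∧
      (Complex.exp (2 * Real.pi * Complex.I * j / m) * t) ^ m = z.1 - x.1 := by
    intro z δ hδ hz t ht j
    have h1 : (Complex.exp (2 * Real.pi * Complex.I * j / m) * t) ^ m = z.1 - x.1 := by
      rw [mul_pow, LEq_root hm, one_mul, ht]
    refine ⟨?_, h1⟩
    rw [mem_ball_zero_iff]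
    refine lt_of_pow_lt_pow_left₀ m ht₂.le ?_
    rw [← norm_pow, h1]
    have h2 := hfst hz
    refine lt_of_lt_of_le h2 ?_
    linarith
  have hΓφ : ∀ {z : E} {t : ℂ}, t ∈ ball (0 : ℂ) t₂ → t ^ m = z.1 - x.1 →
      Γ (φ t) = (z.1, (Γ (φ t)).2) ∧ φ t ∈ ball s₀ ε := by
    intro z t ht htm
    rw [mem_ball_zero_iff] at ht
    have h1 : (Γ (φ t)).1 = z.1 := by
      have := hφm t (by rw [mem_ball_zero_iff]; exact ht.trans_le ht₂₀)
      rw [this, htm]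
      ring
    refine ⟨Prod.ext h1 rfl, ?_⟩
    rw [mem_ball]
    refine hφε ?_
    rw [dist_zero_right]
    exact ht.trans_le ht₂₁
  refine ⟨δ₀, hδ₀, H, fun δ hδ hδδ₀ => ⟨hδ, hHDH δ (by linarith), ?_, ?_, ?_⟩⟩
  · -- Lipschitz
    have hcH : ContinuousOn H (closedBall x (2 * δ₀)) := by
      refine (hH₀.1).comp hTc.continuousOn ?_
      intro z hz
      show ‖(T z).1‖ < t₀ ^ m
      rw [mem_closedBall, dist_eq_norm] at hz
      have h1 : ‖(T z).1‖ ≤ ‖z - x‖ := by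
        rw [hT]
        exact norm_fst_le (z - x)
      linarith
    obtain ⟨R, hR⟩ := (isCompact_closedBall x (2 * δ₀)).exists_bound_of_continuousOn hcH
    refine ⟨8 * R / (2 * δ₀), fun z hz w hw => ?_⟩
    have h1 := lip_of_bdd (x := x) (r := 2 * δ₀) (R := R) (by linarith) (hHDH _ le_rfl)
      (fun y hy => hR y (ball_subset_closedBall hy))
    have h2 : ball x δ ⊆ ball x (2 * δ₀ / 2) := ball_subset_ball (by linarith)
    exact h1 z (h2 hz) w (h2 hw)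
  · -- zeros
    intro z hz
    have hz' := hdist hz
    constructor
    · intro hz0
      obtain ⟨t, ht⟩ := IsAlgClosed.exists_pow_nat_eq (z.1 - x.1) hm
      rw [hform (by linarith) ht, Finset.prod_eq_zero_iff] at hz0
      obtain ⟨j, -, hj⟩ := hz0
      obtain ⟨h1, h2⟩ := hrt hδδ₀ hz' ht j
      obtain ⟨h3, h4⟩ := hΓφ h1 h2
      refine ⟨_, h4, ?_⟩
      rw [h3, ← sub_eq_zero.1 hj]
    · rintro ⟨s, hs1, rfl⟩
      obtain ⟨t, ht, rfl⟩ := hball (ball_subset_ball hεε₀ hs1)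
      have h1 : t ^ m = (Γ (φ t)).1 - x.1 := by
        have := hφm t ht
        rw [this]
        ring
      rw [hform (by linarith) h1]
      refine Finset.prod_eq_zero (i := 0) (Finset.mem_range.2 hm) ?_
      simp
  · -- lower bound
    refine ⟨1, one_pos, m, hm, fun z hz => ?_⟩
    have hz' := hdist hz
    obtain ⟨t, ht⟩ := IsAlgClosed.exists_pow_nat_eq (z.1 - x.1) hm
    rw [hform (by linarith) ht, norm_prod]
    obtain ⟨j, hj, hmin⟩ := Finset.exists_min_image (Finset.range m) (fun j : ℕ =>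
      ‖z.2 - (Γ (φ (Complex.exp (2 * Real.pi * Complex.I * j / m) * t))).2‖)
      ⟨0, Finset.mem_range.2 hm⟩
    obtain ⟨h1, h2⟩ := hrt hδδ₀ hz' ht j
    obtain ⟨h3, h4⟩ := hΓφ h1 h2
    refine ⟨_, h4, ?_⟩
    have h5 : ‖z - Γ (φ (Complex.exp (2 * Real.pi * Complex.I * j / m) * t))‖ =
        ‖z.2 - (Γ (φ (Complex.exp (2 * Real.pi * Complex.I * j / m) * t))).2‖ := by
      rw [h3, Prod.norm_def]
      simp
    rw [one_mul, h5]
    calc ‖z.2 - (Γ (φ (Complex.exp (2 * Real.pi * Complex.I * j / m) * t))).2‖ ^ m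
        = ∏ _i ∈ Finset.range m,
          ‖z.2 - (Γ (φ (Complex.exp (2 * Real.pi * Complex.I * j / m) * t))).2‖ := by
          rw [Finset.prod_const, Finset.card_range]
      _ ≤ _ := Finset.prod_le_prod (fun i _ => norm_nonneg _) (fun i hi => hmin i hi)

theorem LEq_swap_norm (z : E) : ‖z.swap‖ = ‖z‖ := by
  rw [Prod.norm_def, Prod.norm_def, Prod.fst_swap, Prod.snd_swap, max_comm]

theorem LEq_swap_sub (z w : E) : z.swap - w.swap = (z - w).swap := rfl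

theorem LEq_swap_ball {x z : E} {δ : ℝ} : z.swap ∈ ball x.swap δ ↔ z ∈ ball x δ := by
  rw [mem_ball, mem_ball, dist_eq_norm, dist_eq_norm, LEq_swap_sub, LEq_swap_norm]

theorem LEq_swap {Γ : ℂ → E} {s₀ : ℂ} {ε δ : ℝ} {H : E → ℂ}
    (h : LEqn (fun s => (Γ s).swap) s₀ ε δ H) : LEqn Γ s₀ ε δ (fun z => H z.swap) := by
  have hswc : Continuous (Prod.swap : E → E) := continuous_swap
  have hswd : Differentiable ℂ (Prod.swap : E → E) := by
    have : (Prod.swap : E → E) = fun z => (z.2, z.1) := rfl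
    rw [this]
    fun_prop
  refine ⟨h.pos, ⟨h.dh.1.comp hswc.continuousOn fun z hz => LEq_swap_ball.2 hz, ?_⟩, ?_, ?_, ?_⟩
  · intro γ D hD hγ hm
    exact h.dh.2 (fun z => (γ z).swap) D hD (hswd.comp_differentiableOn hγ)
      (fun z hz => LEq_swap_ball.2 (hm hz))
  · obtain ⟨C, hC⟩ := h.lip
    refine ⟨C, fun z hz w hw => ?_⟩
    have := hC z.swap (LEq_swap_ball.2 hz) w.swap (LEq_swap_ball.2 hw)
    rwa [LEq_swap_sub, LEq_swap_norm] at this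
  · intro z hz
    rw [h.zero z.swap (LEq_swap_ball.2 hz)]
    constructor
    · rintro ⟨s, hs, hs'⟩
      exact ⟨s, hs, Prod.swap_injective hs'⟩
    · rintro ⟨s, hs, rfl⟩
      exact ⟨s, hs, rfl⟩
  · obtain ⟨c, hc, m, hm, hlow⟩ := h.low
    refine ⟨c, hc, m, hm, fun z hz => ?_⟩
    obtain ⟨s, hs, hs'⟩ := hlow z.swap (LEq_swap_ball.2 hz)
    refine ⟨s, hs, ?_⟩
    rwa [LEq_swap_sub, LEq_swap_norm] at hs'

theorem local_eq {Γ : ℂ → E} {s₀ : ℂ} {D : Set ℂ} (hD : IsOpen D) (hs : s₀ ∈ D)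
    (hΓ : DifferentiableOn ℂ Γ D) (hnc : NC Γ s₀) :
    ∃ ε₀ > 0, ball s₀ ε₀ ⊆ D ∧ ∀ ε, 0 < ε → ε ≤ ε₀ → ∃ δ₀ > 0, ∃ H : E → ℂ,
      ∀ δ, 0 < δ → δ ≤ δ₀ → LEqn Γ s₀ ε δ H := by
  by_cases h1 : NC (fun s => (Γ s).1) s₀
  · exact LEq_fst hD hs hΓ h1
  · have h2 : NC (fun s => (Γ s).2) s₀ := by
      unfold NC at h1 ⊢
      rw [not_frequently] at h1
      refine (hnc.and_eventually h1).mono ?_
      rintro z ⟨hz1, hz2⟩ hz3
      exact hz1 (Prod.ext (not_not.1 hz2) hz3)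
    have hΓ' : DifferentiableOn ℂ (fun s => (Γ s).swap) D := by
      have : (fun s => (Γ s).swap) = fun s => ((Γ s).2, (Γ s).1) := rfl
      rw [this]
      exact hΓ.snd.prodMk hΓ.fst
    obtain ⟨ε₀, hε₀, hsub, h3⟩ := LEq_fst (Γ := fun s => (Γ s).swap) hD hs hΓ' h2
    refine ⟨ε₀, hε₀, hsub, fun ε hε hεε₀ => ?_⟩
    obtain ⟨δ₀, hδ₀, H, hH⟩ := h3 ε hε hεε₀
    exact ⟨δ₀, hδ₀, fun z => H z.swap, fun δ hδ hδδ₀ => LEq_swap (hH δ hδ hδδ₀)⟩

end Pool.Agent.HQ
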