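import Pool.Agent.HQ.Defs
import Pool.Agent.HQ.LEq
import Pool.Agent.HQ.Hur

/-!
# HQ module IP: intersection persistence
-/

set_option autoImplicit false

open Filter Topology Set Metric

namespace Pool.Agent.HQ

theorem ip {Γ g : ℂ → E} {gs : ℕ → ℂ → E} {s₀ z₀ : ℂ} {D D' : Set ℂ} (hD : IsOpen D)
    (hs : s₀ ∈ D) (hΓ : DifferentiableOn ℂ Γ D) (hnc : NC Γ s₀) (hD' : IsOpen D') (hz : z₀ ∈ D')
    (hgs : ∀ n, DifferentiableOn ℂ (gs n) D') (hlim : TendstoLocallyUniformlyOn gs g atTop D')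
    (h0 : g z₀ = Γ s₀) :
    Gm g z₀ Γ s₀ ∨
      ∀ η > 0, ∀ᶠ i in atTop, ∃ z ∈ ball z₀ η, ∃ s ∈ ball s₀ η, gs i z = Γ s := by
  by_cases hG : Gm g z₀ Γ s₀
  · exact Or.inl hG
  refine Or.inr ?_
  intro η hη
  unfold Gm at hG
  push Not at hG
  obtain ⟨ε1, hε1, hbad⟩ := hG
  obtain ⟨ε₀, hε₀, -, hloc⟩ := local_eq hD hs hΓ hnc
  obtain ⟨δ, hδ, H, hH⟩ := hloc (min ε₀ (min ε1 η)) (lt_min hε₀ (lt_min hε1 hη))
    (min_le_left _ _)
  have hL := hH δ hδ le_rfl
  have hε : 0 < min ε₀ (min ε1 η) := lt_min hε₀ (lt_min hε1 hη)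
  have hgd : DifferentiableOn ℂ g D' :=
    hlim.differentiableOn (Eventually.of_forall hgs) hD'
  have hgc : ContinuousAt g z₀ := (hgd.differentiableAt (hD'.mem_nhds hz)).continuousAt
  -- a small closed ball around `z₀`
  obtain ⟨ρ, hρ, hρ1⟩ : ∃ ρ > 0, closedBall z₀ ρ ⊆ D' ∩ g ⁻¹' ball (Γ s₀) (δ / 2) := by
    have hmem : D' ∩ g ⁻¹' ball (Γ s₀) (δ / 2) ∈ 𝓝 z₀ := by
      refine Filter.inter_mem (hD'.mem_nhds hz) (hgc.preimage_mem_nhds ?_)
      rw [h0]
      exact ball_mem_nhds _ (half_pos hδ)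
    exact nhds_basis_closedBall.mem_iff.1 hmem
  have hcpt : TendstoUniformlyOn gs g atTop (closedBall z₀ ρ) := by
    have h1 : TendstoLocallyUniformlyOn gs g atTop (closedBall z₀ ρ) :=
      hlim.mono fun z hz => (hρ1 hz).1
    exact (tendstoLocallyUniformlyOn_iff_tendstoUniformlyOn_of_compact
      (isCompact_closedBall z₀ ρ)).1 h1
  have hmaps : ∀ᶠ i in atTop, ∀ z ∈ closedBall z₀ ρ, gs i z ∈ ball (Γ s₀) δ := by
    have h1 := Metric.tendstoUniformlyOn_iff.1 hcpt (δ / 2) (half_pos hδ)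
    filter_upwards [h1] with i hi z hz
    have h2 := hi z hz
    have h3 : dist (g z) (Γ s₀) < δ / 2 := (hρ1 hz).2
    rw [mem_ball]
    calc dist (gs i z) (Γ s₀) ≤ dist (gs i z) (g z) + dist (g z) (Γ s₀) := dist_triangle _ _ _
      _ < δ / 2 + δ / 2 := add_lt_add (by rwa [dist_comm]) h3
      _ = δ := add_halves δ
  have hdiff : ∀ᶠ i in atTop, DifferentiableOn ℂ (fun z => H (gs i z)) (ball z₀ ρ) := by
    filter_upwards [hmaps] with i hi
    refine hL.dh.2 (gs i) (ball z₀ ρ) isOpen_ball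
      ((hgs i).mono fun z hz => (hρ1 (ball_subset_closedBall hz)).1) ?_
    intro z hz
    exact hi z (ball_subset_closedBall hz)
  have hgb : ∀ z ∈ closedBall z₀ ρ, g z ∈ ball (Γ s₀) δ := fun z hz =>
    ball_subset_ball (by linarith) (hρ1 hz).2
  obtain ⟨C, hC⟩ := hL.lip
  have hconv : TendstoLocallyUniformlyOn (fun i z => H (gs i z)) (fun z => H (g z)) atTop
      (ball z₀ ρ) := by
    have h1 : TendstoUniformlyOn (fun i z => H (gs i z)) (fun z => H (g z)) atTop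
        (closedBall z₀ ρ) := by
      rw [Metric.tendstoUniformlyOn_iff]
      intro e he
      have hC1 : 0 < |C| + 1 := by positivity
      have h2 := Metric.tendstoUniformlyOn_iff.1 hcpt (e / (|C| + 1)) (div_pos he hC1)
      filter_upwards [h2, hmaps] with i hi him z hz
      have h3 := hi z hz
      rw [dist_eq_norm] at h3 ⊢
      calc ‖H (g z) - H (gs i z)‖ ≤ C * ‖g z - gs i z‖ := hC _ (hgb z hz) _ (him z hz)
        _ ≤ (|C| + 1) * ‖g z - gs i z‖ := by
            refine mul_le_mul_of_nonneg_right ?_ (norm_nonneg _)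
            have := le_abs_self C
            linarith
        _ < (|C| + 1) * (e / (|C| + 1)) := mul_lt_mul_of_pos_left h3 hC1
        _ = e := mul_div_cancel₀ e hC1.ne'
    exact (h1.mono ball_subset_closedBall).tendstoLocallyUniformlyOn
  have hz0 : z₀ ∈ ball z₀ ρ := mem_ball_self hρ
  have hH0 : H (g z₀) = 0 := by
    rw [h0]
    refine (hL.zero _ (mem_ball_self hδ)).2 ⟨s₀, mem_ball_self hε, rfl⟩
  have hncH : NC (fun z => H (g z)) z₀ := by
    intro hcon
    have h1 : ∀ᶠ z in 𝓝 z₀, H (g z) = H (g z₀) := by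
      filter_upwards [hcon] with z hz
      exact not_not.1 hz
    have h2 : ∀ᶠ z in 𝓝 z₀, g z ∈ Γ '' ball s₀ ε1 := by
      filter_upwards [h1, closedBall_mem_nhds z₀ hρ] with z hz1 hz2
      rw [hH0] at hz1
      obtain ⟨s, hs1, hs2⟩ := (hL.zero _ (hgb z hz2)).1 hz1
      refine ⟨s, ball_subset_ball ?_ hs1, hs2⟩
      exact (min_le_right _ _).trans (min_le_left _ _)
    obtain ⟨r, hr, hr1⟩ := Metric.eventually_nhds_iff_ball.1 h2
    obtain ⟨z, hz1, hz2⟩ := hbad r hr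
    exact hz2 (hr1 z hz1)
  have hfin := zero_persist isOpen_ball hz0 hdiff hconv hH0 hncH (min η ρ) (lt_min hη hρ)
  filter_upwards [hfin, hmaps] with i hi him
  obtain ⟨z, hz1, hz2⟩ := hi
  have hz3 : z ∈ closedBall z₀ ρ :=
    ball_subset_closedBall (ball_subset_ball (min_le_right _ _) hz1)
  obtain ⟨s, hs1, hs2⟩ := (hL.zero _ (him z hz3)).1 hz2
  refine ⟨z, ball_subset_ball (min_le_left _ _) hz1, s, ball_subset_ball ?_ hs1, hs2.symm⟩
  exact (min_le_right _ _).trans (min_le_right _ _)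

end Pool.Agent.HQ
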