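import Pool.Agent.HQ.Defs

/-!
# HQ module Surj: the range of a holomorphic curve has empty interior
-/

set_option autoImplicit false

open Filter Topology Set Metric

namespace Pool.Agent.HQ

theorem range_interior {σ : ℂ → E} (hσ : Differentiable ℂ σ) : interior (range σ) = ∅ := by
  have h1 : ContDiff ℝ 1 σ := (hσ.contDiff (n := 1)).restrict_scalars ℝ
  have h2 : Dense (range σ)ᶜ := by
    refine h1.dense_compl_range_of_finrank_lt_finrank ?_
    have : Module.finrank ℝ (ℂ × ℂ) = 4 := by
      rw [Module.finrank_prod, Complex.finrank_real_complex]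
    change Module.finrank ℝ ℂ < Module.finrank ℝ (ℂ × ℂ)
    rw [this, Complex.finrank_real_complex]
    norm_num
  exact interior_eq_empty_iff_dense_compl.2 h2

/-- a nonconstant entire function has dense range -/
theorem entire_dense {h : ℂ → ℂ} (hh : Differentiable ℂ h) (hne : ∃ z w, h z ≠ h w) :
    DenseRange h := by
  by_contra hd
  have hd' : ∃ c, c ∉ closure (range h) := by
    by_contra hc
    push Not at hc
    exact hd hc
  obtain ⟨c, hc⟩ := hd'
  obtain ⟨δ, hδ, hδ'⟩ : ∃ δ > 0, ∀ z, δ ≤ ‖h z - c‖ := by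
    rw [Metric.mem_closure_iff] at hc
    push Not at hc
    obtain ⟨δ, hδ, hδ'⟩ := hc
    refine ⟨δ, hδ, fun z => ?_⟩
    have := hδ' (h z) (mem_range_self z)
    rwa [dist_comm, dist_eq_norm] at this
  have hne0 : ∀ z, h z - c ≠ 0 := fun z h0 => by
    have := hδ' z
    rw [h0, norm_zero] at this
    linarith
  have hdf : Differentiable ℂ (fun z => (h z - c)⁻¹) := by
    intro z
    exact ((hh z).sub_const c).inv (hne0 z)
  have hb : Bornology.IsBounded (range (fun z => (h z - c)⁻¹)) := by
    refine (isBounded_closedBall (x := (0 : ℂ)) (r := δ⁻¹)).subset ?_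
    rintro _ ⟨z, rfl⟩
    rw [mem_closedBall, dist_zero_right, norm_inv]
    exact inv_anti₀ hδ (hδ' z)
  obtain ⟨z, w, hzw⟩ := hne
  have := hdf.apply_eq_apply_of_bounded hb z w
  have h2 := inv_injective this
  exact hzw (sub_left_injective h2)

/-- the same on a connected open set -/
theorem nc_of_conn {Y : Type} [NormedAddCommGroup Y] [NormedSpace ℂ Y] [CompleteSpace Y]
    {g : ℂ → Y} {D : Set ℂ} (hD : IsOpen D) (hc : IsPreconnected D)
    (hg : DifferentiableOn ℂ g D) (hne : ∃ z ∈ D, ∃ w ∈ D, g z ≠ g w) {v : ℂ} (hv : v ∈ D) :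
    NC g v := by
  intro hcon
  have hcon' : g =ᶠ[𝓝 v] (fun _ => g v) := by
    filter_upwards [hcon] with z hz
    exact not_not.1 hz
  have h1 : AnalyticOnNhd ℂ g D := hg.analyticOnNhd hD
  have h2 : AnalyticOnNhd ℂ (fun _ : ℂ => g v) D := analyticOnNhd_const
  have h3 := h1.eqOn_of_preconnected_of_eventuallyEq h2 hc hv hcon'
  obtain ⟨z, hz, w, hw, hzw⟩ := hne
  exact hzw ((h3 hz).trans (h3 hw).symm)

/-- an entire curve which is not constant is not locally constant anywhere -/
theorem nc_of_entire {Y : Type} [NormedAddCommGroup Y] [NormedSpace ℂ Y] [CompleteSpace Y]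
    {g : ℂ → Y} (hg : Differentiable ℂ g) (hne : ∃ z w, g z ≠ g w) (v : ℂ) : NC g v := by
  obtain ⟨z, w, hzw⟩ := hne
  exact nc_of_conn isOpen_univ isPreconnected_univ hg.differentiableOn
    ⟨z, mem_univ _, w, mem_univ _, hzw⟩ (mem_univ v)

end Pool.Agent.HQ
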