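import Pool.Agent.HQ.Defs
import Pool.Agent.HQ.Bas

/-!
# HQ module UBas: basic facts on the limit curves
-/

set_option autoImplicit false

open Filter Topology Set Metric

namespace Pool.Agent.HQ

theorem UBas_close {G ξ : ℕ → ℂ → E} {η : ℂ → E} (hG : TendstoLocallyUniformly G η atTop)
    {φ : ℕ → ℕ} (hφ : ∀ n, n ≤ φ n)
    (h : ∀ n, ∀ z, ‖z‖ ≤ (φ n : ℝ) → dist (ξ n z) (G n z) ≤ 1 / ((φ n : ℝ) + 1)) :
    TendstoLocallyUniformly ξ η atTop := by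
  rw [tendstoLocallyUniformly_iff_forall_isCompact] at hG ⊢
  intro K hK
  have h1 := hG K hK
  rw [Metric.tendstoUniformlyOn_iff] at h1 ⊢
  intro ε hε
  obtain ⟨B, hB⟩ := hK.isBounded.exists_norm_le
  obtain ⟨N1, hN1⟩ := exists_nat_gt B
  obtain ⟨N2, hN2⟩ := exists_nat_one_div_lt (half_pos hε)
  filter_upwards [h1 (ε / 2) (half_pos hε), eventually_ge_atTop N1, eventually_ge_atTop N2]
    with n hn hn1 hn2 x hx
  have hφ1 : (n : ℝ) ≤ (φ n : ℝ) := by exact_mod_cast hφ n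
  have hn1' : (N1 : ℝ) ≤ n := by exact_mod_cast hn1
  have hn2' : (N2 : ℝ) ≤ n := by exact_mod_cast hn2
  have h2 : ‖x‖ ≤ (φ n : ℝ) := by linarith [hB x hx]
  have h3 := h n x h2
  have h4 : 1 / ((φ n : ℝ) + 1) ≤ 1 / ((N2 : ℝ) + 1) := by
    apply one_div_le_one_div_of_le
    · positivity
    · linarith
  calc dist (η x) (ξ n x) ≤ dist (η x) (G n x) + dist (G n x) (ξ n x) := dist_triangle _ _ _
    _ < ε := by
      rw [dist_comm (G n x)]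
      linarith [hn x hx]

theorem UBas_approx (Q : QS) {ξ : ℂ → E} (hξ : ξ ∈ Q.U) (n : ℕ) :
    ∃ p ∈ Sad Q.F, ∀ z : ℂ, ‖z‖ ≤ (n : ℝ) → dist (ξ z) (Q.Xu p z) ≤ 1 / ((n : ℝ) + 1) := by
  obtain ⟨p, hp, ht⟩ := hξ
  rw [tendstoLocallyUniformly_iff_forall_isCompact] at ht
  have h1 := ht (closedBall 0 n) (isCompact_closedBall 0 _)
  rw [Metric.tendstoUniformlyOn_iff] at h1
  obtain ⟨i, hi⟩ := (h1 (1 / ((n : ℝ) + 1)) (by positivity)).exists
  refine ⟨p i, hp i, fun z hz => (hi z ?_).le⟩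
  rw [mem_closedBall, dist_zero_right]
  exact hz

theorem UBas_pt {G : ℕ → ℂ → E} {η : ℂ → E} (h : TendstoLocallyUniformly G η atTop) (z : ℂ) :
    Tendsto (fun n => G n z) atTop (𝓝 (η z)) :=
  (tendstoLocallyUniformlyOn_univ.2 h).tendsto_at (mem_univ z)

theorem UBas_cont (Q : QS) {G : ℕ → ℂ → E} {η : ℂ → E} (hc : Continuous η)
    (h : TendstoLocallyUniformly G η atTop) {z : ℕ → ℂ} {w : ℂ}
    (hz : Tendsto z atTop (𝓝 w)) : Tendsto (fun n => G n (z n)) atTop (𝓝 (η w)) := by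
  have _ := Q
  exact tendsto_comp_of_locally_uniform_limit hc.continuousAt hz
    (fun u hu => by
      obtain ⟨t, ht, h2⟩ := h u hu w
      exact ⟨t, ht, h2⟩)

theorem U_diff (Q : QS) {ξ : ℂ → E} (hξ : ξ ∈ Q.U) : Differentiable ℂ ξ := by
  obtain ⟨p, hp, ht⟩ := hξ
  rw [← differentiableOn_univ]
  exact (tendstoLocallyUniformlyOn_univ.2 ht).differentiableOn
    (Eventually.of_forall fun n => (Q.hu _ (hp n)).diff.differentiableOn) isOpen_univ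

theorem Xu_mem_U (Q : QS) {p : E} (hp : p ∈ Sad Q.F) : Q.Xu p ∈ Q.U := by
  refine ⟨fun _ => p, fun _ => hp, ?_⟩
  intro u hu x
  exact ⟨univ, univ_mem, Eventually.of_forall fun n y _ => refl_mem_uniformity hu⟩

theorem U_le_one (Q : QS) {ξ : ℂ → E} (hξ : ξ ∈ Q.U) {z : ℂ} (hz : ‖z‖ ≤ 1) :
    Q.P (ξ z) ≤ 1 := by
  obtain ⟨p, hp, ht⟩ := hξ
  exact le_of_tendsto ((Q.cP.tendsto _).comp (UBas_pt ht z))
    (Eventually.of_forall fun n => (Q.hu _ (hp n)).le_one z hz)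

theorem U_eq_one (Q : QS) {ξ : ℂ → E} (hξ : ξ ∈ Q.U) : ∃ z, ‖z‖ ≤ 1 ∧ Q.P (ξ z) = 1 := by
  have hc := (U_diff Q hξ).continuous
  obtain ⟨p, hp, ht⟩ := hξ
  choose z hz1 hz2 using fun n => (Q.hu _ (hp n)).eq_one
  obtain ⟨w, hw, φ, hφ, hlim⟩ := (isCompact_closedBall (0 : ℂ) 1).tendsto_subseq
    (x := z) (fun n => by rw [mem_closedBall, dist_zero_right]; exact hz1 n)
  rw [mem_closedBall, dist_zero_right] at hw
  refine ⟨w, hw, ?_⟩
  have ht' : TendstoLocallyUniformly (fun n => Q.Xu (p (φ n))) ξ atTop := by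
    intro u hu x
    obtain ⟨t, ht1, ht2⟩ := ht u hu x
    exact ⟨t, ht1, hφ.tendsto_atTop.eventually ht2⟩
  have h1 := UBas_cont Q hc ht' hlim
  have h2 := (Q.cP.tendsto _).comp h1
  refine tendsto_nhds_unique h2 ?_
  have h3 : (Q.P ∘ fun n => Q.Xu (p (φ n)) ((z ∘ φ) n)) = fun _ => 1 := by
    funext n
    exact hz2 (φ n)
  rw [h3]
  exact tendsto_const_nhds

theorem U_zero (Q : QS) {ξ : ℂ → E} (hξ : ξ ∈ Q.U) : ξ 0 ∈ closure (Sad Q.F) := by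
  obtain ⟨p, hp, ht⟩ := hξ
  have h1 := UBas_pt ht 0
  refine mem_closure_of_tendsto h1 (Eventually.of_forall fun n => ?_)
  rw [(Q.hu _ (hp n)).zero]
  exact hp n

theorem U_M0 (Q : QS) {ξ : ℂ → E} (hξ : ξ ∈ Q.U) (z : ℂ) : Q.M (ξ z) = 0 := by
  obtain ⟨p, hp, ht⟩ := hξ
  have h2 := (Q.cM.tendsto _).comp (UBas_pt ht z)
  refine tendsto_nhds_unique h2 ?_
  have h3 : (Q.M ∘ fun n => Q.Xu (p n) z) = fun _ => 0 := by
    funext n
    refine Q.toSys.Wu_M (hp n) ?_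
    rw [← (Q.hu _ (hp n)).range]
    exact mem_range_self z
  rw [h3]
  exact tendsto_const_nhds

theorem U_ne (Q : QS) {ξ : ℂ → E} (hξ : ξ ∈ Q.U) : ∃ z w, ξ z ≠ ξ w := by
  obtain ⟨z, -, hz⟩ := U_eq_one Q hξ
  refine ⟨0, z, fun h => ?_⟩
  have h1 := Q.toSys.clSad_P (U_zero Q hξ)
  rw [h, hz] at h1
  exact one_ne_zero h1

/-- every limit of saddle points is the centre of a limit curve -/
theorem U_center (Q : QS) {x : E} (hx : x ∈ closure (Sad Q.F)) :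
    ∃ p : ℕ → E, (∀ n, p n ∈ Sad Q.F) ∧ ∃ ξ ∈ Q.U, ξ 0 = x ∧
      TendstoLocallyUniformly (fun n => Q.Xu (p n)) ξ atTop := by
  obtain ⟨p, hp, hlim⟩ := mem_closure_iff_seq_limit.1 hx
  obtain ⟨φ, hφ, g, hg⟩ := Q.nu p hp
  refine ⟨fun n => p (φ n), fun n => hp _, g, ⟨fun n => p (φ n), fun n => hp _, hg⟩, ?_, hg⟩
  have h1 := UBas_pt hg 0
  refine tendsto_nhds_unique h1 ?_
  have h2 : (fun n => Q.Xu (p (φ n)) 0) = p ∘ φ := by
    funext n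
    exact (Q.hu _ (hp _)).zero
  rw [h2]
  exact hlim.comp hφ.tendsto_atTop

/-- limits of sequences of limit curves -/
theorem U_lim (Q : QS) {ξ : ℕ → ℂ → E} (h : ∀ n, ξ n ∈ Q.U) {η : ℂ → E}
    (hη : TendstoLocallyUniformly ξ η atTop) : η ∈ Q.U := by
  choose p hp hd using fun n => UBas_approx Q (h n) n
  refine ⟨p, hp, ?_⟩
  refine UBas_close hη (φ := id) (fun n => le_rfl) fun n z hz => ?_
  rw [dist_comm]
  exact hd n z hz

/-- sequential compactness -/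
theorem U_seq (Q : QS) {ξ : ℕ → ℂ → E} (h : ∀ n, ξ n ∈ Q.U) :
    ∃ φ : ℕ → ℕ, StrictMono φ ∧ ∃ η ∈ Q.U,
      TendstoLocallyUniformly (fun n => ξ (φ n)) η atTop := by
  choose p hp hd using fun n => UBas_approx Q (h n) n
  obtain ⟨φ, hφ, g, hg⟩ := Q.nu p hp
  refine ⟨φ, hφ, g, ⟨fun n => p (φ n), fun n => hp _, hg⟩, ?_⟩
  exact UBas_close hg (φ := φ) (fun n => hφ.id_le n) fun n z hz => hd (φ n) z hz

theorem U_bdd (Q : QS) (R : ℝ) : ∃ C : ℝ, ∀ ξ ∈ Q.U, ∀ z : ℂ, ‖z‖ ≤ R → ‖ξ z‖ ≤ C := by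
  by_contra hcon
  push Not at hcon
  choose ξ hξ z hz hbig using fun n : ℕ => hcon (n : ℝ)
  obtain ⟨φ, hφ, η, hη, hlim⟩ := U_seq Q hξ
  obtain ⟨w, -, ψ, hψ, hlim2⟩ := (isCompact_closedBall (0 : ℂ) R).tendsto_subseq
    (x := fun n => z (φ n)) (fun n => by rw [mem_closedBall, dist_zero_right]; exact hz _)
  have ht' : TendstoLocallyUniformly (fun n => ξ (φ (ψ n))) η atTop := by
    intro u hu x
    obtain ⟨t, ht1, ht2⟩ := hlim u hu x
    exact ⟨t, ht1, hψ.tendsto_atTop.eventually ht2⟩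
  have h1 := UBas_cont Q (U_diff Q hη).continuous ht' hlim2
  have h2 := h1.norm
  have h3 : Tendsto (fun n => ((φ (ψ n) : ℕ) : ℝ)) atTop atTop :=
    tendsto_natCast_atTop_atTop.comp (hφ.tendsto_atTop.comp hψ.tendsto_atTop)
  have h4 := tendsto_atTop_mono (fun n => (hbig (φ (ψ n))).le) h3
  exact not_tendsto_nhds_of_tendsto_atTop h4 _ h2

theorem U_lip (Q : QS) (R : ℝ) : ∃ C : ℝ, 0 ≤ C ∧ ∀ ξ ∈ Q.U, ∀ z w : ℂ, ‖z‖ ≤ R → ‖w‖ ≤ R →
    ‖ξ z - ξ w‖ ≤ C * ‖z - w‖ := by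
  obtain ⟨C, hC⟩ := U_bdd Q (R + 1)
  refine ⟨max C 0, le_max_right _ _, fun ξ hξ z w hz hw => ?_⟩
  have hd := U_diff Q hξ
  have hder : ∀ x ∈ closedBall (0 : ℂ) R, ‖deriv ξ x‖ ≤ max C 0 := by
    intro x hx
    rw [mem_closedBall, dist_zero_right] at hx
    have h1 := Complex.norm_deriv_le_of_forall_mem_sphere_norm_le (c := x) (R := 1)
      (C := max C 0) (f := ξ) one_pos hd.diffContOnCl (fun y hy => by
        rw [mem_sphere, dist_eq_norm] at hy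
        refine (hC ξ hξ y ?_).trans (le_max_left _ _)
        calc ‖y‖ = ‖x + (y - x)‖ := by ring_nf
          _ ≤ ‖x‖ + ‖y - x‖ := norm_add_le _ _
          _ ≤ R + 1 := by rw [hy]; linarith)
    rwa [div_one] at h1
  refine (convex_closedBall (0 : ℂ) R).norm_image_sub_le_of_norm_deriv_le
    (fun x _ => hd x) hder ?_ ?_
  · rwa [mem_closedBall, dist_zero_right]
  · rwa [mem_closedBall, dist_zero_right]

end Pool.Agent.HQ
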