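import Pool.Agent.HQ.Defs
import Pool.Agent.HQ.Bas
import Pool.Agent.HQ.IP
import Pool.Agent.HQ.UBas
import Pool.Agent.HQ.Surj

/-!
# HQ module Al29: curves contained in an unstable manifold
-/

set_option autoImplicit false

open Filter Topology Set Metric

namespace Pool.Agent.HQ

theorem Al29_diff {f : ℂ → ℂ} {k τ : ℂ → ℂ} {v : ℂ} (hf : Differentiable ℂ f)
    (hf' : deriv f (τ v) ≠ 0) (hk : DifferentiableAt ℂ k v) (hτ : ContinuousAt τ v)
    (h : ∀ z, f (τ z) = k z) : DifferentiableAt ℂ τ v := by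
  have hs : HasStrictDerivAt f (deriv f (τ v)) (τ v) :=
    (hf.analyticAt (τ v)).hasStrictDerivAt
  have h1 := hs.to_localInverse hf'
  have h2 : ∀ᶠ s in 𝓝 (τ v), hs.localInverse f (deriv f (τ v)) (τ v) hf' (f s) = s :=
    HasStrictDerivAt.eventually_left_inverse ..
  have h3 := hτ.eventually h2
  have h4 : (fun z => hs.localInverse f (deriv f (τ v)) (τ v) hf' (k z)) =ᶠ[𝓝 v] τ := by
    filter_upwards [h3] with z hz
    rw [← h z]
    exact hz
  have h5 : DifferentiableAt ℂ (hs.localInverse f (deriv f (τ v)) (τ v) hf') (k v) := by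
    rw [← h v]
    exact h1.hasDerivAt.differentiableAt
  have h6 : DifferentiableAt ℂ (fun z => hs.localInverse f (deriv f (τ v)) (τ v) hf' (k z)) v :=
    h5.comp v hk
  exact h6.congr_of_eventuallyEq h4.symm

theorem al (Q : QS) {p : E} (hp : p ∈ Sad Q.F) {ξ : ℂ → E} (hξ : ξ ∈ Q.U)
    (h : ∀ z, ξ z ∈ Wu Q.F p) :
    ∃ τ : ℂ → ℂ, Differentiable ℂ τ ∧ (∀ z, ξ z = Q.Xu p (τ z)) ∧ ∃ z w, τ z ≠ τ w := by
  have hX := Q.hu p hp
  have hτ' : ∀ z, ∃ t, Q.Xu p t = ξ z := by
    intro z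
    have := h z
    rw [← hX.range] at this
    exact this
  choose τ hτ using hτ'
  have hdξ := U_diff Q hξ
  have hne : ∃ z w, τ z ≠ τ w := by
    obtain ⟨z, w, hzw⟩ := U_ne Q hξ
    refine ⟨z, w, fun hcon => hzw ?_⟩
    rw [← hτ z, ← hτ w, hcon]
  by_cases hcase : ξ = Q.Xu p
  · refine ⟨id, differentiable_id, fun z => by rw [hcase]; rfl, 0, 1, ?_⟩
    simp
  obtain ⟨q, hq, hlim⟩ := id hξ
  have hGm : ∀ v, Gm ξ v (Q.Xu p) (τ v) := by
    intro v
    have hnc : NC (Q.Xu p) (τ v) :=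
      nc_of_entire hX.diff ⟨0, 1, fun hcon => by simpa using hX.inj hcon⟩ _
    rcases ip (Γ := Q.Xu p) (g := ξ) (gs := fun n => Q.Xu (q n)) (s₀ := τ v) (z₀ := v)
      isOpen_univ (mem_univ _) hX.diff.differentiableOn hnc isOpen_univ (mem_univ _)
      (fun n => (Q.hu (q n) (hq n)).diff.differentiableOn)
      (tendstoLocallyUniformlyOn_univ.2 hlim) (hτ v).symm with h1 | h1
    · exact h1
    · exfalso
      apply hcase
      have h2 : ∀ᶠ i in atTop, q i = p := by
        filter_upwards [h1 1 one_pos] with i hi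
        obtain ⟨z, -, s, -, hzs⟩ := hi
        have h3 : Q.Xu (q i) z ∈ Wu Q.F (q i) := by
          rw [← (Q.hu (q i) (hq i)).range]; exact mem_range_self z
        have h4 : Q.Xu p s ∈ Wu Q.F p := by
          rw [← hX.range]; exact mem_range_self s
        rw [← hzs] at h4
        exact Q.toSys.Wu_disj (hq i) hp h3 h4
      funext z
      have h5 : Tendsto (fun n => Q.Xu (q n) z) atTop (𝓝 (ξ z)) :=
        (tendstoLocallyUniformlyOn_univ.2 hlim).tendsto_at (mem_univ z)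
      have h6 : Tendsto (fun n => Q.Xu (q n) z) atTop (𝓝 (Q.Xu p z)) := by
        apply tendsto_const_nhds.congr'
        filter_upwards [h2] with i hi
        rw [hi]
      exact tendsto_nhds_unique h5 h6
  have hcont : ∀ v, ContinuousAt τ v := by
    intro v
    rw [Metric.continuousAt_iff]
    intro ε hε
    obtain ⟨r, hr, hball⟩ := hGm v ε hε
    refine ⟨r, hr, fun z hz => ?_⟩
    obtain ⟨s, hs, hs2⟩ := hball z hz
    have : s = τ z := hX.inj (by rw [hs2, hτ z])
    rw [← this]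
    exact hs
  refine ⟨τ, fun v => ?_, fun z => (hτ z).symm, hne⟩
  have himm := hX.imm (τ v)
  have hd : HasDerivAt (Q.Xu p) (deriv (Q.Xu p) (τ v)) (τ v) := (hX.diff _).hasDerivAt
  have hor : (deriv (Q.Xu p) (τ v)).1 ≠ 0 ∨ (deriv (Q.Xu p) (τ v)).2 ≠ 0 := by
    by_contra hcon
    push Not at hcon
    exact himm (Prod.ext hcon.1 hcon.2)
  rcases hor with h1 | h1
  · have h2 : HasDerivAt (fun s => (Q.Xu p s).1) (deriv (Q.Xu p) (τ v)).1 (τ v) := hd.fst
    refine Al29_diff (f := fun s => (Q.Xu p s).1) (k := fun z => (ξ z).1)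
      hX.diff.fst ?_ (hdξ v).fst (hcont v) (fun z => by rw [hτ z])
    rw [h2.deriv]
    exact h1
  · have h2 : HasDerivAt (fun s => (Q.Xu p s).2) (deriv (Q.Xu p) (τ v)).2 (τ v) := hd.snd
    refine Al29_diff (f := fun s => (Q.Xu p s).2) (k := fun z => (ξ z).2)
      hX.diff.snd ?_ (hdξ v).snd (hcont v) (fun z => by rw [hτ z])
    rw [h2.deriv]
    exact h1

end Pool.Agent.HQ
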