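import Pool.Agent.HQ.Defs
import Pool.Agent.Squeeze.OneDim

/-!
# HQ module InjLin: injective entire functions are affine
-/

set_option autoImplicit false

open Filter Topology Set Metric

namespace Pool.Agent.HQ

theorem inj_entire {h : ℂ → ℂ} (hd : Differentiable ℂ h) (hi : Function.Injective h)
    (h0 : h 0 = 0) : ∃ l : ℂ, l ≠ 0 ∧ ∀ z, h z = l * z := by
  -- open mapping
  have hopen : IsOpen (h '' ball (0 : ℂ) 1) := by
    have han : AnalyticOnNhd ℂ h univ := hd.differentiableOn.analyticOnNhd isOpen_univ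
    rcases han.is_constant_or_isOpen isPreconnected_univ with ⟨w, hw⟩ | ho
    · exfalso
      have h1 := hw 0 (mem_univ _)
      have h2 := hw 1 (mem_univ _)
      exact one_ne_zero (hi (h2.trans h1.symm))
    · exact ho _ (subset_univ _) isOpen_ball
  have h0mem : (0 : ℂ) ∈ h '' ball (0 : ℂ) 1 := ⟨0, mem_ball_self one_pos, h0⟩
  obtain ⟨δ, hδ, hball⟩ := Metric.isOpen_iff.mp hopen 0 h0mem
  have hfar : ∀ z : ℂ, 1 ≤ ‖z‖ → δ ≤ ‖h z‖ := by
    intro z hz
    by_contra hlt
    push Not at hlt
    have : h z ∈ ball (0 : ℂ) δ := by rw [mem_ball, dist_zero_right]; exact hlt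
    obtain ⟨w, hw, hwz⟩ := hball this
    have hwz' := hi hwz
    rw [hwz', mem_ball, dist_zero_right] at hw
    linarith
  -- the quotient
  set k : ℂ → ℂ := dslope h 0 with hk
  have hkd : Differentiable ℂ k := by
    rw [← differentiableOn_univ]
    exact (Complex.differentiableOn_dslope univ_mem).mpr hd.differentiableOn
  have hk0 : k 0 = deriv h 0 := by rw [hk, dslope_same]
  have hkz : ∀ z, z ≠ 0 → k z = h z / z := by
    intro z hz
    rw [hk, dslope_of_ne _ hz, slope_def_field, h0, sub_zero, sub_zero]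
  have hder : deriv h 0 ≠ 0 :=
    Pool.Agent.Squeeze.deriv_ne_zero_of_injOn isOpen_univ hd.differentiableOn hi.injOn
      (mem_univ 0)
  have hkne : ∀ z, k z ≠ 0 := by
    intro z
    by_cases hz : z = 0
    · rw [hz, hk0]; exact hder
    · rw [hkz z hz]
      refine div_ne_zero (fun hh => hz (hi ?_)) hz
      rw [hh, h0]
  -- the inverse
  set g : ℂ → ℂ := fun z => (k z)⁻¹ with hg
  have hgd : Differentiable ℂ g := fun z => (hkd z).inv (hkne z)
  have hgb : ∀ z : ℂ, 1 ≤ ‖z‖ → ‖g z‖ ≤ ‖z‖ / δ := by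
    intro z hz
    have hz0 : z ≠ 0 := by rintro rfl; rw [norm_zero] at hz; linarith
    rw [hg]
    simp only
    rw [hkz z hz0, inv_div, norm_div]
    exact div_le_div_of_nonneg_left (norm_nonneg _) hδ (hfar z hz)
  set G : ℂ → ℂ := dslope g 0 with hG
  have hGd : Differentiable ℂ G := by
    rw [← differentiableOn_univ]
    exact (Complex.differentiableOn_dslope univ_mem).mpr hgd.differentiableOn
  have hGb : Bornology.IsBounded (range G) := by
    obtain ⟨C, hC⟩ := (isCompact_closedBall (0 : ℂ) 1).exists_bound_of_continuousOn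
      hGd.continuous.continuousOn
    rw [isBounded_iff_forall_norm_le]
    refine ⟨max C (1 / δ + ‖g 0‖), ?_⟩
    rintro _ ⟨z, rfl⟩
    by_cases hz : ‖z‖ ≤ 1
    · exact (hC z (by rw [mem_closedBall, dist_zero_right]; exact hz)).trans (le_max_left _ _)
    · push Not at hz
      refine le_trans ?_ (le_max_right _ _)
      have hz0 : z ≠ 0 := by rintro rfl; rw [norm_zero] at hz; linarith
      rw [hG, dslope_of_ne _ hz0, slope_def_field, sub_zero, norm_div,
        div_le_iff₀ (by linarith)]
      calc ‖g z - g 0‖ ≤ ‖g z‖ + ‖g 0‖ := norm_sub_le _ _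
        _ ≤ ‖z‖ / δ + ‖g 0‖ * ‖z‖ :=
            add_le_add (hgb z hz.le) (le_mul_of_one_le_right (norm_nonneg _) hz.le)
        _ = (1 / δ + ‖g 0‖) * ‖z‖ := by ring
  have hGc : ∀ z, G z = G 0 := fun z => hGd.apply_eq_apply_of_bounded hGb z 0
  have hgaff : ∀ z, g z = g 0 + G 0 * z := by
    intro z
    by_cases hz : z = 0
    · rw [hz]; ring
    · have h1 := hGc z
      rw [hG, dslope_of_ne _ hz, slope_def_field, sub_zero, ← hG] at h1
      rw [← h1]
      field_simp
      ring
  have hgne : ∀ z, g z ≠ 0 := fun z => inv_ne_zero (hkne z)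
  have hG0 : G 0 = 0 := by
    by_contra hne
    apply hgne (-(g 0) / G 0)
    rw [hgaff]
    field_simp
    ring
  refine ⟨k 0, hkne 0, fun z => ?_⟩
  have h1 : g z = g 0 := by rw [hgaff z, hG0]; ring
  have h2 : k z = k 0 := inv_injective h1
  by_cases hz : z = 0
  · rw [hz, h0, mul_zero]
  · rw [← h2, hkz z hz]
    field_simp

end Pool.Agent.HQ
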