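import Pool.Agent.HQ.Defs
import Pool.Agent.HQ.InjLin
import Pool.Agent.HQ.LEq
import Pool.Agent.HQ.Surj

/-!
# HQ module RePar: two injective immersed entire curves with the same image
-/

set_option autoImplicit false

open Filter Topology Set Metric

namespace Pool.Agent.HQ

theorem RePar_tend {A B : ℂ → E} {h : ℂ → ℂ} (hB : Continuous B) (iB : Function.Injective B)
    (hBh : ∀ z, B (h z) = A z) {l : Filter ℂ} {w : ℂ} {R : ℝ} (hR : ∀ᶠ z in l, ‖h z‖ ≤ R)
    (hA : Tendsto A l (𝓝 (B w))) : Tendsto h l (𝓝 w) := by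
  refine (isCompact_closedBall (0 : ℂ) R).tendsto_nhds_of_unique_mapClusterPt ?_ ?_
  · filter_upwards [hR] with z hz
    rwa [mem_closedBall_zero_iff]
  · intro x _ hx
    have h1 : MapClusterPt (B x) l (B ∘ h) := hx.continuousAt_comp hB.continuousAt
    have h2 : B ∘ h = A := funext hBh
    rw [h2] at h1
    have h4 : ClusterPt (B x) (map A l) := h1
    have h3 : (𝓝 (B x) ⊓ 𝓝 (B w)).NeBot := ClusterPt.mono h4 hA
    exact iB (eq_of_nhds_neBot h3)

theorem RePar_diffAt {A B : ℂ → E} {h : ℂ → ℂ} (hA : Differentiable ℂ A)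
    (hB : Differentiable ℂ B) (dB : ∀ z, deriv B z ≠ 0) (hBh : ∀ z, B (h z) = A z) {z : ℂ}
    (hc : ContinuousAt h z) : DifferentiableAt ℂ h z := by
  obtain ⟨lam, hlam⟩ : ∃ lam : E →L[ℂ] ℂ, lam (deriv B (h z)) ≠ 0 := by
    by_contra hcon
    push Not at hcon
    apply dB (h z)
    have h1 := hcon (ContinuousLinearMap.fst ℂ ℂ ℂ)
    have h2 := hcon (ContinuousLinearMap.snd ℂ ℂ ℂ)
    exact Prod.ext h1 h2
  set b : ℂ → ℂ := fun w => lam (B w) with hb
  have hbd : Differentiable ℂ b := lam.differentiable.comp hB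
  have hbs : HasStrictDerivAt b (lam (deriv B (h z))) (h z) := by
    have h1 : HasDerivAt b (lam (deriv B (h z))) (h z) :=
      lam.hasFDerivAt.comp_hasDerivAt _ (hB _).hasDerivAt
    have h2 : HasStrictDerivAt b (deriv b (h z)) (h z) :=
      (hbd.analyticAt (h z)).hasStrictDerivAt
    rwa [h1.deriv] at h2
  have hφ := hbs.to_localInverse hlam
  have hl : ∀ᶠ w in 𝓝 (h z), hbs.localInverse b _ _ hlam (b w) = w :=
    (hbs.hasStrictFDerivAt_equiv hlam).eventually_left_inverse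
  have h3 : ∀ᶠ y in 𝓝 z, hbs.localInverse b _ _ hlam (lam (A y)) = h y := by
    filter_upwards [hc.eventually hl] with y hy
    rw [← hBh y]
    exact hy
  have h4 : DifferentiableAt ℂ (fun y => hbs.localInverse b _ _ hlam (lam (A y))) z := by
    have h5 : b (h z) = lam (A z) := by
      rw [← hBh z]
    rw [h5] at hφ
    exact DifferentiableAt.comp (f := fun y => lam (A y)) z hφ.hasDerivAt.differentiableAt
      (lam.differentiableAt.comp z (hA z))
  exact h4.congr_of_eventuallyEq (h3.mono fun y hy => hy.symm)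

theorem RePar_iso {A B : ℂ → E} {h : ℂ → ℂ} (hA : Differentiable ℂ A)
    (hB : Differentiable ℂ B) (ih : Function.Injective h) (hBh : ∀ z, B (h z) = A z) {z₁ : ℂ}
    (hd : ∀ᶠ z in 𝓝[≠] z₁, DifferentiableAt ℂ h z) (hne : ∃ z w, B z ≠ B w) :
    ∃ R : ℝ, ∀ᶠ z in 𝓝 z₁, ‖h z‖ ≤ R := by
  by_contra hub
  rw [eventually_nhdsWithin_iff, Metric.eventually_nhds_iff] at hd
  obtain ⟨r, hr, hd⟩ := hd
  have hd' : ∀ z, dist z z₁ < r → z ≠ z₁ → DifferentiableAt ℂ h z := fun z hz hz' => hd hz hz'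
  set a : ℂ := z₁ + (r / 2 : ℝ) with ha
  have haz : dist a z₁ = r / 2 := by
    rw [ha, dist_eq_norm, add_sub_cancel_left, Complex.norm_real, Real.norm_eq_abs,
      abs_of_pos (by linarith)]
  have hane : a ≠ z₁ := by
    intro h1
    rw [h1, dist_self] at haz
    linarith
  -- open mapping at `a`
  have han : AnalyticAt ℂ h a := by
    rw [Complex.analyticAt_iff_eventually_differentiableAt]
    have h1 : ∀ᶠ z in 𝓝 a, dist z z₁ < r := by
      have : Continuous fun z : ℂ => dist z z₁ := continuous_id.dist continuous_const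
      exact this.continuousAt.eventually_lt continuousAt_const (by rw [haz]; linarith)
    have h2 : ∀ᶠ z in 𝓝 a, z ≠ z₁ := isOpen_ne.mem_nhds hane
    filter_upwards [h1, h2] with z hz hz' using hd' z hz hz'
  have hopen : 𝓝 (h a) ≤ map h (𝓝 a) := by
    rcases han.eventually_constant_or_nhds_le_map_nhds with h1 | h1
    · exfalso
      have h2 : ∀ᶠ z in 𝓝[≠] a, False := by
        filter_upwards [h1.filter_mono nhdsWithin_le_nhds, self_mem_nhdsWithin] with z hz hz'
        exact hz' (ih hz)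
      exact (h2.frequently (f := 𝓝[≠] a)).exists.choose_spec
    · exact h1
  have himg : h '' ball a (r / 4) ∈ 𝓝 (h a) :=
    hopen (image_mem_map (ball_mem_nhds a (by linarith)))
  obtain ⟨η, hη, hηs⟩ := Metric.mem_nhds_iff.1 himg
  have hfar : ∀ z, dist z z₁ < r / 4 → η ≤ ‖h z - h a‖ := by
    intro z hz
    by_contra hcon
    push Not at hcon
    have h1 : h z ∈ ball (h a) η := by rwa [mem_ball, dist_eq_norm]
    obtain ⟨y, hy, hyz⟩ := hηs h1
    have h2 : y = z := ih hyz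
    subst h2
    have h3 := dist_triangle a y z₁
    rw [mem_ball, dist_comm] at hy
    linarith
  set g : ℂ → ℂ := fun z => (h z - h a)⁻¹ with hg
  set s : Set ℂ := ball z₁ (r / 4) with hs
  have hsn : s ∈ 𝓝 z₁ := ball_mem_nhds _ (by linarith)
  have hne0 : ∀ z ∈ s, h z - h a ≠ 0 := by
    intro z hz h0
    have := hfar z hz
    rw [h0, norm_zero] at this
    linarith
  have hgd : DifferentiableOn ℂ g (s \ {z₁}) := by
    intro z hz
    refine DifferentiableAt.differentiableWithinAt ?_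
    have h1 : dist z z₁ < r := lt_trans hz.1 (by linarith)
    exact ((hd' z h1 hz.2).sub_const (h a)).inv (hne0 z hz.1)
  have hgb : BddAbove (norm ∘ g '' (s \ {z₁})) := by
    refine ⟨η⁻¹, ?_⟩
    rintro _ ⟨z, hz, rfl⟩
    show ‖(h z - h a)⁻¹‖ ≤ η⁻¹
    rw [norm_inv]
    exact inv_anti₀ hη (hfar z hz.1)
  have hG := Complex.differentiableOn_update_limUnder_of_bddAbove hsn hgd hgb
  set L : ℂ := limUnder (𝓝[≠] z₁) g with hL
  set G : ℂ → ℂ := Function.update g z₁ L with hGdef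
  have hGz : G z₁ = L := Function.update_self _ _ _
  have hGne : ∀ z, z ≠ z₁ → G z = (h z - h a)⁻¹ := fun z hz => Function.update_of_ne hz _ _
  have hGa : AnalyticAt ℂ G z₁ := hG.analyticAt hsn
  by_cases hL0 : L = 0
  · -- pole
    have hGopen : 𝓝 (G z₁) ≤ map G (𝓝 z₁) := by
      rcases hGa.eventually_constant_or_nhds_le_map_nhds with h1 | h1
      · exfalso
        have h2 : ∀ᶠ z in 𝓝[≠] z₁, False := by
          filter_upwards [h1.filter_mono nhdsWithin_le_nhds, self_mem_nhdsWithin,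
            nhdsWithin_le_nhds hsn] with z hz hz' hzs
          rw [hGne z hz', hGz, hL0] at hz
          exact hne0 z hzs (inv_eq_zero.1 hz)
        exact (h2.frequently (f := 𝓝[≠] z₁)).exists.choose_spec
      · exact h1
    have himg2 : G '' s ∈ 𝓝 (G z₁) := hGopen (image_mem_map hsn)
    rw [hGz, hL0] at himg2
    obtain ⟨t, ht, hts⟩ := Metric.mem_nhds_iff.1 himg2
    obtain ⟨C, hC⟩ := (isCompact_closedBall z₁ (r / 4)).exists_bound_of_continuousOn
      hA.continuous.continuousOn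
    obtain ⟨C', hC'⟩ := (isCompact_closedBall (h a) t⁻¹).exists_bound_of_continuousOn
      hB.continuous.continuousOn
    have hbB : ∀ w, ‖B w‖ ≤ max C C' := by
      intro w
      by_cases hw : w ∈ closedBall (h a) t⁻¹
      · exact (hC' w hw).trans (le_max_right _ _)
      · rw [mem_closedBall, dist_eq_norm, not_le] at hw
        have hw0 : 0 < ‖w - h a‖ := lt_trans (inv_pos.2 ht) hw
        have hv : (w - h a)⁻¹ ∈ ball (0 : ℂ) t := by
          rw [mem_ball_zero_iff, norm_inv]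
          exact inv_lt_of_inv_lt₀ ht hw
        obtain ⟨z, hz, hzG⟩ := hts hv
        have hwne : w - h a ≠ 0 := norm_pos_iff.1 hw0
        have hzne : z ≠ z₁ := by
          rintro rfl
          rw [hGz, hL0] at hzG
          exact inv_ne_zero hwne hzG.symm
        rw [hGne z hzne] at hzG
        have h5 : h z = w := by
          have := inv_injective hzG
          exact sub_left_injective this
        rw [← h5, hBh z]
        exact (hC z (ball_subset_closedBall hz)).trans (le_max_left _ _)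
    obtain ⟨x, y, hxy⟩ := hne
    refine hxy (hB.apply_eq_apply_of_bounded ?_ x y)
    rw [isBounded_iff_forall_norm_le]
    refine ⟨max C C', ?_⟩
    rintro _ ⟨w, rfl⟩
    exact hbB w
  · -- bounded
    apply hub
    have hcont : ContinuousAt G z₁ := hGa.continuousAt
    have hLp : 0 < ‖L‖ := norm_pos_iff.2 hL0
    have h1 : ∀ᶠ z in 𝓝 z₁, ‖L‖ / 2 < ‖G z‖ := by
      have : ContinuousAt (fun z => ‖G z‖) z₁ := hcont.norm
      refine continuousAt_const.eventually_lt this ?_
      rw [hGz]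
      linarith
    refine ⟨max (‖h z₁‖) (‖h a‖ + (‖L‖ / 2)⁻¹), ?_⟩
    filter_upwards [h1] with z hz
    by_cases hzz : z = z₁
    · rw [hzz]
      exact le_max_left _ _
    · refine le_trans ?_ (le_max_right _ _)
      rw [hGne z hzz, norm_inv] at hz
      have h2 : ‖h z - h a‖ ≤ (‖L‖ / 2)⁻¹ := by
        have h3 : 0 < ‖h z - h a‖⁻¹ := lt_trans (by linarith) hz
        have h4 : 0 < ‖h z - h a‖ := inv_pos.1 h3
        rw [← inv_inv ‖h z - h a‖]
        exact inv_anti₀ (by linarith) hz.le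
      calc ‖h z‖ = ‖h a + (h z - h a)‖ := by rw [add_sub_cancel]
        _ ≤ ‖h a‖ + ‖h z - h a‖ := norm_add_le _ _
        _ ≤ ‖h a‖ + (‖L‖ / 2)⁻¹ := by linarith

theorem reparam {A B : ℂ → E} (hA : Differentiable ℂ A) (hB : Differentiable ℂ B)
    (iA : Function.Injective A) (iB : Function.Injective B) (dA : ∀ z, deriv A z ≠ 0)
    (dB : ∀ z, deriv B z ≠ 0) (hr : range A = range B) (h0 : A 0 = B 0) :
    ∃ l : ℂ, l ≠ 0 ∧ ∀ z, A z = B (l * z) := by
  have hex : ∀ z, ∃ w, B w = A z := fun z => by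
    have h1 : A z ∈ range B := hr ▸ mem_range_self z
    exact h1
  choose h hBh using hex
  have ih : Function.Injective h := fun x y hxy => iA (by rw [← hBh x, ← hBh y, hxy])
  have hAc := hA.continuous
  have hBc := hB.continuous
  set O : Set ℂ := {z | ∃ R : ℝ, ∀ᶠ w in 𝓝 z, ‖h w‖ ≤ R} with hO
  have hOo : ∀ z ∈ O, ∀ᶠ w in 𝓝 z, w ∈ O := by
    rintro z ⟨R, hR⟩
    filter_upwards [hR.eventually_nhds] with w hw using ⟨R, hw⟩
  have hOopen : IsOpen O := isOpen_iff_eventually.2 hOo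
  have hOd : ∀ z ∈ O, DifferentiableAt ℂ h z := by
    rintro z ⟨R, hR⟩
    refine RePar_diffAt hA hB dB hBh (RePar_tend hBc iB hBh hR ?_)
    rw [hBh]
    exact hAc.continuousAt
  have hall : ∀ z, z ∈ O := by
    by_contra hcon
    push Not at hcon
    obtain ⟨z₀, hz₀⟩ := hcon
    have hFc : IsClosed Oᶜ := hOopen.isClosed_compl
    have i1 : Nonempty ↥Oᶜ := ⟨⟨z₀, hz₀⟩⟩
    have i2 : CompleteSpace ↥Oᶜ := hFc.completeSpace_coe
    have hcl : ∀ N : ℕ, IsClosed {x : ↥Oᶜ | ‖h x‖ ≤ N} := by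
      intro N
      have h1 : IsClosed (A ⁻¹' (B '' closedBall 0 (N : ℝ))) :=
        (((isCompact_closedBall 0 (N : ℝ)).image hBc).isClosed).preimage hAc
      have h2 : {x : ↥Oᶜ | ‖h x‖ ≤ N} =
          Subtype.val ⁻¹' (A ⁻¹' (B '' closedBall 0 (N : ℝ))) := by
        ext x
        constructor
        · intro hx
          exact ⟨h x, mem_closedBall_zero_iff.2 hx, hBh x⟩
        · rintro ⟨w, hw, hwx⟩
          have h3 : w = h x := iB (hwx.trans (hBh x).symm)
          subst h3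
          exact mem_closedBall_zero_iff.1 hw
      rw [h2]
      exact h1.preimage continuous_subtype_val
    have hU : ⋃ N : ℕ, {x : ↥Oᶜ | ‖h x‖ ≤ N} = univ := by
      rw [eq_univ_iff_forall]
      intro x
      obtain ⟨N, hN⟩ := exists_nat_ge ‖h x‖
      exact mem_iUnion.2 ⟨N, hN⟩
    obtain ⟨N, ⟨x, hx⟩⟩ := nonempty_interior_of_iUnion_of_closed hcl hU
    have hNbd : ∀ᶠ z in 𝓝[Oᶜ] (x : ℂ), ‖h z‖ ≤ N := by
      have h1 : {x : ↥Oᶜ | ‖h x‖ ≤ N} ∈ 𝓝 x := mem_interior_iff_mem_nhds.1 hx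
      rw [mem_nhds_subtype_iff_nhdsWithin] at h1
      filter_upwards [h1] with z hz
      obtain ⟨y, hy, rfl⟩ := hz
      exact hy
    have hx1 : (x : ℂ) ∉ O := x.2
    generalize (x : ℂ) = z₁ at hNbd hx1
    have hnc : NC B (h z₁) := by
      have h1 : ∀ᶠ z in 𝓝[≠] (h z₁), B z ≠ B (h z₁) := by
        filter_upwards [self_mem_nhdsWithin] with z hz hz'
        exact hz (iB hz')
      exact h1.frequently.filter_mono nhdsWithin_le_nhds
    obtain ⟨ε₀, hε₀, _, hloc⟩ := local_eq isOpen_univ (mem_univ (h z₁)) hB.differentiableOn hnc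
    obtain ⟨δ₀, hδ₀, H, hH⟩ := hloc ε₀ hε₀ le_rfl
    have L := hH δ₀ hδ₀ le_rfl
    have hDo : IsOpen (A ⁻¹' ball (B (h z₁)) δ₀) := isOpen_ball.preimage hAc
    have hDz : A ⁻¹' ball (B (h z₁)) δ₀ ∈ 𝓝 z₁ := by
      refine hDo.mem_nhds ?_
      show A z₁ ∈ ball (B (h z₁)) δ₀
      rw [hBh]
      exact mem_ball_self hδ₀
    have hHA : DifferentiableOn ℂ (fun z => H (A z)) (A ⁻¹' ball (B (h z₁)) δ₀) :=
      L.dh.2 A _ hDo hA.differentiableOn (fun z hz => hz)
    have hHan : AnalyticAt ℂ (fun z => H (A z)) z₁ := hHA.analyticAt hDz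
    rcases hHan.eventually_eq_zero_or_eventually_ne_zero with hz | hnz
    · apply hx1
      refine ⟨‖h z₁‖ + ε₀, ?_⟩
      filter_upwards [hz, hDz] with z hz hzD
      obtain ⟨w, hw, hwz⟩ := (L.zero (A z) hzD).1 hz
      have h3 : w = h z := iB (hwz.trans (hBh z).symm)
      subst h3
      rw [mem_ball, dist_eq_norm] at hw
      calc ‖h z‖ = ‖h z₁ + (h z - h z₁)‖ := by rw [add_sub_cancel]
        _ ≤ ‖h z₁‖ + ‖h z - h z₁‖ := norm_add_le _ _
        _ ≤ ‖h z₁‖ + ε₀ := by linarith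
    · have ht : Tendsto h (𝓝[Oᶜ] z₁) (𝓝 (h z₁)) := by
        refine RePar_tend hBc iB hBh hNbd ?_
        rw [hBh]
        exact hAc.continuousAt.mono_left nhdsWithin_le_nhds
      have he : ∀ᶠ z in 𝓝[Oᶜ] z₁, h z ∈ ball (h z₁) ε₀ := ht (ball_mem_nhds _ hε₀)
      have hiso : ∀ᶠ z in 𝓝[≠] z₁, DifferentiableAt ℂ h z := by
        rw [eventually_nhdsWithin_iff] at he hnz ⊢
        filter_upwards [he, hnz, hDz] with z hz1 hz2 hzD hzne
        refine hOd z ?_
        by_contra hzO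
        exact hz2 hzne ((L.zero (A z) hzD).2 ⟨h z, hz1 hzO, hBh z⟩)
      exact hx1 (RePar_iso hA hB ih hBh hiso ⟨0, 1, fun h01 => zero_ne_one (iB h01)⟩)
  have hd : Differentiable ℂ h := fun z => hOd z (hall z)
  have hh0 : h 0 = 0 := iB ((hBh 0).trans h0)
  obtain ⟨l, hl, hlz⟩ := inj_entire hd ih hh0
  refine ⟨l, hl, fun z => ?_⟩
  rw [← hlz z, hBh z]

end Pool.Agent.HQ
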