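import Pool.Agent.HQ.Defs
import Pool.Agent.HQ.Bas
import Pool.Agent.HQ.UBas
import Pool.Agent.HQ.RePar

/-!
# HQ module Gro: growth rates
-/

set_option autoImplicit false

open Filter Topology Set Metric

namespace Pool.Agent.HQ

/-- subsequences of locally uniformly convergent sequences -/
theorem Gro_sub {g : ℕ → ℂ → E} {h : ℂ → E} (hg : TendstoLocallyUniformly g h atTop)
    {φ : ℕ → ℕ} (hφ : Tendsto φ atTop atTop) :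
    TendstoLocallyUniformly (fun n => g (φ n)) h atTop := by
  intro u hu x
  obtain ⟨t, ht, h1⟩ := hg u hu x
  exact ⟨t, ht, hφ.eventually h1⟩

/-- two sided sequences for a relation -/
theorem Gro_int {T : Type} {R : T → T → Prop} (h1 : ∀ t, ∃ t', R t t') (h2 : ∀ t, ∃ t', R t' t)
    (t0 : T) : ∃ x : ℤ → T, x 0 = t0 ∧ ∀ n, R (x n) (x (n + 1)) := by
  choose f hf using h1
  choose g hg using h2
  refine ⟨fun n => match n with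
    | Int.ofNat m => f^[m] t0
    | Int.negSucc m => g^[m + 1] t0, rfl, fun n => ?_⟩
  cases n with
  | ofNat m =>
    change R (f^[m] t0) (f^[m + 1] t0)
    rw [Function.iterate_succ_apply']
    exact hf _
  | negSucc m =>
    cases m with
    | zero => exact hg t0
    | succ m =>
      have h3 : Int.negSucc (m + 1) + 1 = Int.negSucc m := by omega
      rw [h3]
      change R (g^[m + 1 + 1] t0) (g^[m + 1] t0)
      rw [Function.iterate_succ_apply']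
      exact hg _

theorem func_eq (Q : QS) {p : E} (hp : p ∈ Sad Q.F) :
    ∃ l : ℂ, l ≠ 0 ∧ ∀ z, Q.F (Q.Xu p z) = Q.Xu (Q.F p) (l * z) := by
  have hp' : Q.F p ∈ Sad Q.F := Sad_apply Q.dF Q.dG hp
  have u1 := Q.hu p hp
  have u2 := Q.hu (Q.F p) hp'
  refine reparam (A := fun z => Q.F (Q.Xu p z)) (B := Q.Xu (Q.F p)) (Q.dF.comp u1.diff) u2.diff
    (Q.F.injective.comp u1.inj) u2.inj (fun z => ?_) u2.imm ?_ ?_
  · intro h0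
    have h1 : HasDerivAt (fun z => Q.F (Q.Xu p z)) (fderiv ℂ (⇑Q.F) (Q.Xu p z)
        (deriv (Q.Xu p) z)) z :=
      (Q.dF (Q.Xu p z)).hasFDerivAt.comp_hasDerivAt z (u1.diff z).hasDerivAt
    rw [h1.deriv] at h0
    have h2 := fderiv_inv_comp (p := Q.Xu p z) Q.dF Q.dG (fun x => Q.F.symm_apply_apply x)
      (deriv (Q.Xu p) z)
    rw [h0, map_zero] at h2
    exact u1.imm z h2.symm
  · rw [u2.range]
    ext y
    constructor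
    · rintro ⟨z, rfl⟩
      have h1 : Q.Xu p z ∈ Wu Q.F p := by
        rw [← u1.range]
        exact ⟨z, rfl⟩
      have h2 := (Q.toSys.mem_Wu 1 (Q.Xu p z) p).2 h1
      rwa [zpow_one] at h2
    · intro hy
      have h1 : Q.F (Q.F⁻¹ y) = y := Q.F.apply_symm_apply y
      have h2 := (Q.toSys.mem_Wu 1 (Q.F⁻¹ y) p).1 (by rw [zpow_one, h1]; exact hy)
      rw [← u1.range] at h2
      obtain ⟨z, hz⟩ := h2
      refine ⟨z, ?_⟩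
      change Q.F (Q.Xu p z) = y
      rw [hz, h1]
  · rw [u1.zero, u2.zero]

theorem Gro_ne (Q : QS) {p : E} (hp : p ∈ Sad Q.F) {l : ℂ}
    (hl : ∀ z, Q.F (Q.Xu p z) = Q.Xu (Q.F p) (l * z)) : l ≠ 0 := by
  rintro rfl
  have h1 := hl 0
  have h2 := hl 1
  rw [zero_mul] at h1 h2
  have h3 := (Q.hu p hp).inj (Q.F.injective (h2.trans h1.symm))
  exact one_ne_zero h3

theorem Gro_le (Q : QS) {p : E} (hp : p ∈ Sad Q.F) {l : ℂ}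
    (hl : ∀ z, Q.F (Q.Xu p z) = Q.Xu (Q.F p) (l * z)) {w : ℂ} (hw : ‖w‖ ≤ ‖l‖) :
    Q.P (Q.Xu (Q.F p) w) ≤ Q.d := by
  have hl0 := Gro_ne Q hp hl
  have h1 : w = l * (w / l) := by field_simp
  rw [h1, ← hl, Q.PF]
  have h2 : ‖w / l‖ ≤ 1 := by
    rw [norm_div]
    exact div_le_one_of_le₀ hw (norm_nonneg _)
  have h3 := (Q.hu p hp).le_one _ h2
  have h4 := Q.toSys.d_pos
  nlinarith

theorem Gro_eq (Q : QS) {p : E} (hp : p ∈ Sad Q.F) {l : ℂ}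
    (hl : ∀ z, Q.F (Q.Xu p z) = Q.Xu (Q.F p) (l * z)) :
    ∃ w : ℂ, ‖w‖ ≤ ‖l‖ ∧ Q.P (Q.Xu (Q.F p) w) = Q.d := by
  obtain ⟨z, hz, h1⟩ := (Q.hu p hp).eq_one
  refine ⟨l * z, ?_, ?_⟩
  · rw [norm_mul]
    exact mul_le_of_le_one_right (norm_nonneg _) hz
  · rw [← hl, Q.PF, h1, mul_one]

theorem Gro_lower (Q : QS) : ∃ κ : ℝ, 1 < κ ∧ ∀ p ∈ Sad Q.F, ∀ l : ℂ,
    (∀ z, Q.F (Q.Xu p z) = Q.Xu (Q.F p) (l * z)) → κ ≤ ‖l‖ := by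
  by_contra hcon
  push Not at hcon
  have h0 : ∀ n : ℕ, ∃ p ∈ Sad Q.F, ∃ l : ℂ,
      (∀ z, Q.F (Q.Xu p z) = Q.Xu (Q.F p) (l * z)) ∧ ‖l‖ < 1 + 1 / ((n : ℝ) + 1) := by
    intro n
    obtain ⟨p, hp, l, h1, h2⟩ := hcon (1 + 1 / ((n : ℝ) + 1)) (by
      have : (0 : ℝ) < 1 / ((n : ℝ) + 1) := by positivity
      linarith)
    exact ⟨p, hp, l, h1, h2⟩
  choose p hp l hl hlt using h0
  have hU : ∀ n, Q.Xu (Q.F (p n)) ∈ Q.U := fun n => Xu_mem_U Q (Sad_apply Q.dF Q.dG (hp n))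
  obtain ⟨φ, hφ, η, hη, hlim⟩ := U_seq Q hU
  choose w hw hw' using fun n => Gro_eq Q (hp n) (hl n)
  have hbd : ∀ n, w (φ n) ∈ closedBall (0 : ℂ) 2 := by
    intro n
    rw [mem_closedBall_zero_iff]
    refine (hw _).trans ((hlt _).le.trans ?_)
    have : (1 : ℝ) / ((φ n : ℝ) + 1) ≤ 1 := by
      rw [div_le_one (by positivity)]
      have : (0 : ℝ) ≤ (φ n : ℝ) := Nat.cast_nonneg _
      linarith
    linarith
  obtain ⟨w0, -, ψ, hψ, hw0⟩ := (isCompact_closedBall (0 : ℂ) 2).tendsto_subseq hbd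
  have hlim2 := Gro_sub hlim hψ.tendsto_atTop
  have h1 : Tendsto (fun n => Q.Xu (Q.F (p (φ (ψ n)))) (w (φ (ψ n)))) atTop (𝓝 (η w0)) :=
    hlim2.tendsto_comp (U_diff Q hη).continuous.continuousAt hw0
  have h2 : Tendsto (fun n => Q.P (Q.Xu (Q.F (p (φ (ψ n)))) (w (φ (ψ n))))) atTop
      (𝓝 (Q.P (η w0))) := (Q.cP.tendsto _).comp h1
  have h3 : Q.P (η w0) = Q.d := by
    refine tendsto_nhds_unique h2 ?_
    simp only [hw']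
    exact tendsto_const_nhds
  have h4 : ‖w0‖ ≤ 1 := by
    have h5 : Tendsto (fun n => ‖w (φ (ψ n))‖) atTop (𝓝 ‖w0‖) := hw0.norm
    have h6 : Tendsto (fun n : ℕ => 1 + 1 / (((φ (ψ n) : ℕ) : ℝ) + 1)) atTop (𝓝 (1 + 0)) := by
      refine Tendsto.add tendsto_const_nhds ?_
      exact tendsto_one_div_add_atTop_nhds_zero_nat.comp
        (hφ.tendsto_atTop.comp hψ.tendsto_atTop)
    rw [add_zero] at h6
    exact le_of_tendsto_of_tendsto' h5 h6 fun n => (hw _).trans (hlt _).le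
  have h5 := U_le_one Q hη h4
  rw [h3] at h5
  exact absurd Q.hd (not_lt.2 h5)

theorem Gro_upper (Q : QS) : ∃ Λ : ℝ, ∀ p ∈ Sad Q.F, ∀ l : ℂ,
    (∀ z, Q.F (Q.Xu p z) = Q.Xu (Q.F p) (l * z)) → ‖l‖ ≤ Λ := by
  by_contra hcon
  push Not at hcon
  have h0 : ∀ n : ℕ, ∃ p ∈ Sad Q.F, ∃ l : ℂ,
      (∀ z, Q.F (Q.Xu p z) = Q.Xu (Q.F p) (l * z)) ∧ (n : ℝ) < ‖l‖ := fun n => by
    obtain ⟨p, hp, l, h1, h2⟩ := hcon n
    exact ⟨p, hp, l, h1, h2⟩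
  choose p hp l hl hlt using h0
  have hU : ∀ n, Q.Xu (Q.F (p n)) ∈ Q.U := fun n => Xu_mem_U Q (Sad_apply Q.dF Q.dG (hp n))
  obtain ⟨φ, hφ, η, hη, hlim⟩ := U_seq Q hU
  have h1 : ∀ z, Q.P (η z) ≤ Q.d := by
    intro z
    have h2 : Tendsto (fun n => Q.P (Q.Xu (Q.F (p (φ n))) z)) atTop (𝓝 (Q.P (η z))) := by
      refine (Q.cP.tendsto _).comp ?_
      exact hlim.tendsto_comp (U_diff Q hη).continuous.continuousAt tendsto_const_nhds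
    refine le_of_tendsto h2 ?_
    obtain ⟨N, hN⟩ := exists_nat_ge ‖z‖
    filter_upwards [eventually_ge_atTop N] with n hn
    refine Gro_le Q (hp _) (hl _) (hN.trans ?_)
    refine le_trans ?_ (hlt (φ n)).le
    exact_mod_cast hn.trans (hφ.id_le n)
  obtain ⟨R, hR⟩ := Q.toSys.sub_bdd Q.d
  have h2 : Bornology.IsBounded (range η) := by
    refine isBounded_iff_forall_norm_le.2 ⟨R, ?_⟩
    rintro _ ⟨z, rfl⟩
    refine hR _ (h1 z) ?_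
    rw [U_M0 Q hη z]
    exact Q.toSys.d_pos.le
  obtain ⟨z, w, hzw⟩ := U_ne Q hη
  exact hzw ((U_diff Q hη).apply_eq_apply_of_bounded h2 z w)

theorem mult_bound (Q : QS) : ∃ κ Λ : ℝ, 1 < κ ∧ κ ≤ Λ ∧ ∀ p ∈ Sad Q.F, ∀ l : ℂ,
    (∀ z, Q.F (Q.Xu p z) = Q.Xu (Q.F p) (l * z)) → κ ≤ ‖l‖ ∧ ‖l‖ ≤ Λ := by
  obtain ⟨κ, hκ, h1⟩ := Gro_lower Q
  obtain ⟨Λ, h2⟩ := Gro_upper Q
  exact ⟨κ, max κ Λ, hκ, le_max_left _ _, fun p hp l hl =>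
    ⟨h1 p hp l hl, (h2 p hp l hl).trans (le_max_right _ _)⟩⟩

/-- the limit of the functional equations -/
theorem Gro_limit (Q : QS) {κ Λ : ℝ} (hb : ∀ p ∈ Sad Q.F, ∀ l : ℂ,
    (∀ z, Q.F (Q.Xu p z) = Q.Xu (Q.F p) (l * z)) → κ ≤ ‖l‖ ∧ ‖l‖ ≤ Λ)
    {p : ℕ → E} (hp : ∀ n, p n ∈ Sad Q.F) {ξ η : ℂ → E}
    (hξd : Differentiable ℂ ξ) (hηd : Differentiable ℂ η)
    (hξ : TendstoLocallyUniformly (fun n => Q.Xu (p n)) ξ atTop)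
    (hη : TendstoLocallyUniformly (fun n => Q.Xu (Q.F (p n))) η atTop) :
    ∃ c : ℂ, κ ≤ ‖c‖ ∧ ‖c‖ ≤ Λ ∧ ∀ z, Q.F (ξ z) = η (c * z) := by
  choose l _ hl using fun n => func_eq Q (hp n)
  have hbd : ∀ n, l n ∈ closedBall (0 : ℂ) Λ := by
    intro n
    rw [mem_closedBall_zero_iff]
    exact (hb _ (hp n) _ (hl n)).2
  obtain ⟨c, hc, ψ, hψ, hlim⟩ := (isCompact_closedBall (0 : ℂ) Λ).tendsto_subseq hbd
  refine ⟨c, ?_, ?_, fun z => ?_⟩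
  · have h1 : Tendsto (fun n => ‖l (ψ n)‖) atTop (𝓝 ‖c‖) := hlim.norm
    exact ge_of_tendsto' h1 fun n => (hb _ (hp _) _ (hl _)).1
  · exact mem_closedBall_zero_iff.1 hc
  · have h1 : Tendsto (fun n => Q.F (Q.Xu (p (ψ n)) z)) atTop (𝓝 (Q.F (ξ z))) := by
      refine (Q.dF.continuous.tendsto _).comp ?_
      exact (Gro_sub hξ hψ.tendsto_atTop).tendsto_comp hξd.continuous.continuousAt
        tendsto_const_nhds
    have h2 : Tendsto (fun n => Q.Xu (Q.F (p (ψ n))) (l (ψ n) * z)) atTop (𝓝 (η (c * z))) := by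
      refine (Gro_sub hη hψ.tendsto_atTop).tendsto_comp hηd.continuous.continuousAt ?_
      exact Tendsto.mul_const z hlim
    refine tendsto_nhds_unique h1 ?_
    simp only [hl]
    exact h2

theorem Gro_fwd (Q : QS) {κ Λ : ℝ} (hb : ∀ p ∈ Sad Q.F, ∀ l : ℂ,
    (∀ z, Q.F (Q.Xu p z) = Q.Xu (Q.F p) (l * z)) → κ ≤ ‖l‖ ∧ ‖l‖ ≤ Λ)
    {ξ : ℂ → E} (hξ : ξ ∈ Q.U) : ∃ η ∈ Q.U, ∃ c : ℂ, κ ≤ ‖c‖ ∧ ‖c‖ ≤ Λ ∧
      ∀ z, Q.F (ξ z) = η (c * z) := by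
  obtain ⟨p, hp, hlim⟩ := id hξ
  obtain ⟨φ, hφ, η, hη, hlim2⟩ := U_seq Q
    (fun n => Xu_mem_U Q (Sad_apply Q.dF Q.dG (hp n)))
  exact ⟨η, hη, Gro_limit Q hb (fun n => hp (φ n)) (U_diff Q hξ) (U_diff Q hη)
    (Gro_sub hlim hφ.tendsto_atTop) hlim2⟩

theorem Gro_bwd (Q : QS) {κ Λ : ℝ} (hb : ∀ p ∈ Sad Q.F, ∀ l : ℂ,
    (∀ z, Q.F (Q.Xu p z) = Q.Xu (Q.F p) (l * z)) → κ ≤ ‖l‖ ∧ ‖l‖ ≤ Λ)
    {ξ : ℂ → E} (hξ : ξ ∈ Q.U) : ∃ η ∈ Q.U, ∃ c : ℂ, κ ≤ ‖c‖ ∧ ‖c‖ ≤ Λ ∧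
      ∀ z, Q.F (η z) = ξ (c * z) := by
  obtain ⟨p, hp, hlim⟩ := id hξ
  have hq : ∀ n, Q.F⁻¹ (p n) ∈ Sad Q.F := by
    intro n
    have h1 : Q.F (Q.F⁻¹ (p n)) = p n := Q.F.apply_symm_apply (p n)
    rw [← Q.toSys.mem_Sad_one, h1]
    exact hp n
  obtain ⟨φ, hφ, η, hη, hlim2⟩ := U_seq Q (fun n => Xu_mem_U Q (hq n))
  refine ⟨η, hη, Gro_limit Q hb (fun n => hq (φ n)) (U_diff Q hη) (U_diff Q hξ) hlim2 ?_⟩
  have h1 : ∀ n, Q.F (Q.F⁻¹ (p (φ n))) = p (φ n) := fun n => Q.F.apply_symm_apply (p (φ n))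
  simp only [h1]
  exact Gro_sub hlim hφ.tendsto_atTop

theorem growth (Q : QS) : ∃ κ Λ : ℝ, Gr Q κ Λ := by
  obtain ⟨κ, Λ, hκ, hκΛ, hb⟩ := mult_bound Q
  refine ⟨κ, Λ, hκ, hκΛ, fun ξ hξ => ?_⟩
  let T : Type := {t : (ℂ → E) × ℂ // t.1 ∈ Q.U ∧ t.2 ≠ 0}
  let R : T → T → Prop := fun s t => ∃ c : ℂ, κ ≤ ‖c‖ ∧ ‖c‖ ≤ Λ ∧ t.1.2 = c * s.1.2 ∧
    ∀ z, Q.F (s.1.1 z) = t.1.1 (c * z)
  have hR1 : ∀ t, ∃ t', R t t' := by
    rintro ⟨⟨ζ, a⟩, hζ, ha⟩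
    obtain ⟨η, hη, c, h1, h2, h3⟩ := Gro_fwd Q hb hζ
    have hc : c ≠ 0 := by
      rintro rfl
      rw [norm_zero] at h1
      linarith
    exact ⟨⟨⟨η, c * a⟩, hη, mul_ne_zero hc ha⟩, c, h1, h2, rfl, h3⟩
  have hR2 : ∀ t, ∃ t', R t' t := by
    rintro ⟨⟨ζ, a⟩, hζ, ha⟩
    obtain ⟨η, hη, c, h1, h2, h3⟩ := Gro_bwd Q hb hζ
    have hc : c ≠ 0 := by
      rintro rfl
      rw [norm_zero] at h1
      linarith
    refine ⟨⟨⟨η, c⁻¹ * a⟩, hη, mul_ne_zero (inv_ne_zero hc) ha⟩, c, h1, h2, ?_, h3⟩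
    change a = c * (c⁻¹ * a)
    rw [mul_inv_cancel_left₀ hc]
  obtain ⟨x, hx0, hx⟩ := Gro_int hR1 hR2 ⟨⟨ξ, 1⟩, hξ, one_ne_zero⟩
  have key : ∀ n : ℤ, ∀ z, (Q.F ^ n) (ξ z) = (x n).1.1 ((x n).1.2 * z) := by
    intro n
    induction n with
    | zero =>
      intro z
      rw [hx0, zpow_zero]
      change ξ z = ξ (1 * z)
      rw [one_mul]
    | succ n ih =>
      intro z
      obtain ⟨c, _, _, h3, h4⟩ := hx n
      have h5 : (Q.F ^ ((n : ℤ) + 1)) (ξ z) = Q.F ((Q.F ^ (n : ℤ)) (ξ z)) := by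
        rw [add_comm (n : ℤ) 1, zpow_add, zpow_one, Equiv.Perm.mul_apply]
      rw [h5, ih, h4, h3, mul_assoc]
    | pred n ih =>
      intro z
      obtain ⟨c, _, _, h3, h4⟩ := hx (-(n : ℤ) - 1)
      rw [sub_add_cancel] at h3 h4
      apply Q.F.injective
      rw [h4, ← Equiv.Perm.mul_apply, ← zpow_one_add, add_sub_cancel, ih, h3, mul_assoc]
  refine ⟨fun n => (x n).1.1, fun n => (x n).1.2, ?_, ?_, fun n => (x n).2.1,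
    fun n => (x n).2.2, key, ?_⟩
  · change (x 0).1.1 = ξ
    rw [hx0]
  · change (x 0).1.2 = 1
    rw [hx0]
  · intro n
    obtain ⟨c, h1, h2, h3, _⟩ := hx n
    change κ * ‖(x n).1.2‖ ≤ ‖(x (n + 1)).1.2‖ ∧ ‖(x (n + 1)).1.2‖ ≤ Λ * ‖(x n).1.2‖
    rw [h3, norm_mul]
    exact ⟨mul_le_mul_of_nonneg_right h1 (norm_nonneg _),
      mul_le_mul_of_nonneg_right h2 (norm_nonneg _)⟩

end Pool.Agent.HQ
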