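import Pool.Agent.HQ.Defs
import Pool.Agent.HQ.Bas
import Pool.Agent.HQ.UBas
import Pool.Agent.HQ.Gro

/-!
# HQ module GrF: consequences of the growth rates
-/

set_option autoImplicit false

open Filter Topology Set Metric

namespace Pool.Agent.HQ

theorem GrF_mono {κ Λ : ℝ} (hκ : 1 < κ) {a : ℤ → ℂ}
    (ha : ∀ n, κ * ‖a n‖ ≤ ‖a (n + 1)‖ ∧ ‖a (n + 1)‖ ≤ Λ * ‖a n‖) :
    Monotone fun n : ℤ => ‖a n‖ := by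
  refine monotone_int_of_le_succ fun n => ?_
  have h1 := (ha n).1
  have h2 := norm_nonneg (a n)
  nlinarith

theorem GrF_low {κ Λ : ℝ} (hκ : 1 < κ) {a : ℤ → ℂ} (h0 : a 0 = 1)
    (ha : ∀ n, κ * ‖a n‖ ≤ ‖a (n + 1)‖ ∧ ‖a (n + 1)‖ ≤ Λ * ‖a n‖) (n : ℕ) :
    κ ^ n ≤ ‖a n‖ := by
  induction n with
  | zero => simp [h0]
  | succ n ih =>
    have h1 := (ha n).1
    have h2 : κ * κ ^ n ≤ κ * ‖a n‖ := mul_le_mul_of_nonneg_left ih (by linarith)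
    rw [pow_succ']
    push_cast
    exact h2.trans h1

theorem GrF_up {κ Λ : ℝ} (hΛ : 1 < Λ) {a : ℤ → ℂ} (h0 : a 0 = 1)
    (ha : ∀ n, κ * ‖a n‖ ≤ ‖a (n + 1)‖ ∧ ‖a (n + 1)‖ ≤ Λ * ‖a n‖) (n : ℕ) :
    ‖a n‖ ≤ Λ ^ n := by
  induction n with
  | zero => simp [h0]
  | succ n ih =>
    have h1 := (ha n).2
    have h2 : Λ * ‖a n‖ ≤ Λ * Λ ^ n := mul_le_mul_of_nonneg_left ih (by linarith)
    rw [pow_succ']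
    push_cast
    exact h1.trans h2

theorem GrF_neg {κ Λ : ℝ} (hκ : 1 < κ) {a : ℤ → ℂ} (h0 : a 0 = 1)
    (ha : ∀ n, κ * ‖a n‖ ≤ ‖a (n + 1)‖ ∧ ‖a (n + 1)‖ ≤ Λ * ‖a n‖) (n : ℕ) :
    ‖a (-(n : ℤ))‖ ≤ κ⁻¹ ^ n := by
  have hκ0 : 0 < κ := by linarith
  induction n with
  | zero => simp [h0]
  | succ n ih =>
    have h1 := (ha (-((n + 1 : ℕ) : ℤ))).1
    have h2 : -((n + 1 : ℕ) : ℤ) + 1 = -(n : ℤ) := by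
      push_cast
      ring
    rw [h2] at h1
    have h3 : κ * ‖a (-((n + 1 : ℕ) : ℤ))‖ ≤ κ⁻¹ ^ n := h1.trans ih
    rw [pow_succ', ← div_eq_inv_mul, le_div_iff₀ hκ0, mul_comm]
    exact h3

theorem U_pos (Q : QS) {ξ : ℂ → E} (hξ : ξ ∈ Q.U) {r : ℝ} (hr : 0 < r) :
    ∃ z ∈ ball (0 : ℂ) r, 0 < Q.P (ξ z) := by
  obtain ⟨κ, Λ, hg⟩ := growth Q
  obtain ⟨η, a, -, ha0, hηU, hane, hFη, hrat⟩ := hg.orb ξ hξ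
  obtain ⟨n, hn⟩ := pow_unbounded_of_one_lt r⁻¹ hg.one_lt
  have hn' : r⁻¹ < ‖a n‖ := lt_of_lt_of_le hn (GrF_low hg.one_lt ha0 hrat n)
  obtain ⟨w, hw, hP⟩ := U_eq_one Q (hηU n)
  have han : 0 < ‖a n‖ := norm_pos_iff.2 (hane n)
  refine ⟨w / a n, ?_, ?_⟩
  · rw [mem_ball_zero_iff, norm_div, div_lt_iff₀ han]
    have h1 : 1 < r * ‖a n‖ := by
      have := mul_lt_mul_of_pos_left hn' hr
      rwa [mul_inv_cancel₀ hr.ne'] at this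
    linarith
  · have h1 : (Q.F ^ (n : ℤ)) (ξ (w / a n)) = η n w := by
      rw [hFη, mul_div_cancel₀ _ (hane n)]
    have h2 := Q.toSys.P_zpow n (ξ (w / a n))
    rw [h1, hP] at h2
    by_contra hcon
    have h3 : Q.P (ξ (w / a n)) = 0 := le_antisymm (not_lt.1 hcon) (Q.P0 _)
    rw [h3, mul_zero] at h2
    exact one_ne_zero h2

theorem Gr.back {Q : QS} {κ Λ : ℝ} (hg : Gr Q κ Λ) (R : ℝ) : ∃ C : ℝ, 0 ≤ C ∧ ∀ ξ ∈ Q.U,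
    ∀ z : ℂ, ‖z‖ ≤ R → ∀ n : ℕ,
      dist ((Q.F⁻¹ ^ n) (ξ z)) ((Q.F⁻¹ ^ n) (ξ 0)) ≤ C * κ⁻¹ ^ n * ‖z‖ := by
  obtain ⟨C, hC, hlip⟩ := U_lip Q R
  refine ⟨C, hC, fun ξ hξ z hz n => ?_⟩
  obtain ⟨η, a, -, ha0, hηU, hane, hFη, hrat⟩ := hg.orb ξ hξ
  have hκ0 : 0 < κ := lt_trans zero_lt_one hg.one_lt
  have h1 := GrF_neg hg.one_lt ha0 hrat n
  have h2 : κ⁻¹ ^ n ≤ 1 := pow_le_one₀ (inv_nonneg.2 hκ0.le) (inv_le_one_of_one_le₀ hg.one_lt.le)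
  have hR : 0 ≤ R := (norm_nonneg _).trans hz
  have h3 : ∀ w, (Q.F⁻¹ ^ n) (ξ w) = η (-(n : ℤ)) (a (-(n : ℤ)) * w) := by
    intro w
    rw [← hFη, zpow_neg, zpow_natCast, inv_pow]
  have h4 : ‖a (-(n : ℤ)) * z‖ ≤ κ⁻¹ ^ n * ‖z‖ := by
    rw [norm_mul]
    exact mul_le_mul_of_nonneg_right h1 (norm_nonneg _)
  have h5 : ‖a (-(n : ℤ)) * z‖ ≤ R := by
    refine h4.trans (le_trans ?_ hz)
    calc κ⁻¹ ^ n * ‖z‖ ≤ 1 * ‖z‖ := mul_le_mul_of_nonneg_right h2 (norm_nonneg _)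
      _ = ‖z‖ := one_mul _
  have h6 := hlip (η (-(n : ℤ))) (hηU _) (a (-(n : ℤ)) * z) (a (-(n : ℤ)) * 0) h5
    (by rw [mul_zero, norm_zero]; exact hR)
  rw [h3, h3, dist_eq_norm]
  refine h6.trans ?_
  rw [mul_zero, sub_zero, mul_assoc]
  exact mul_le_mul_of_nonneg_left h4 hC

theorem Gr.scale {Q : QS} {κ Λ : ℝ} (hg : Gr Q κ Λ) {ξ : ℂ → E} (hξ : ξ ∈ Q.U) {u : ℂ}
    (hu : u ≠ 0) : ∃ n : ℤ, ∃ η ∈ Q.U, ∃ a : ℂ, a ≠ 0 ∧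
      (∀ z, (Q.F ^ n) (ξ z) = η (a * z)) ∧ 1 / Λ ≤ ‖a * u‖ ∧ ‖a * u‖ ≤ 1 ∧
      ∀ m : ℕ, ‖u‖ * Λ ^ (m + 1) < 1 → (m : ℤ) ≤ n := by
  obtain ⟨η, a, -, ha0, hηU, hane, hFη, hrat⟩ := hg.orb ξ hξ
  have hκ0 : 0 < κ := lt_trans zero_lt_one hg.one_lt
  have hΛ1 : 1 < Λ := lt_of_lt_of_le hg.one_lt hg.le
  have hΛ0 : 0 < Λ := lt_trans zero_lt_one hΛ1
  have hun : 0 < ‖u‖ := norm_pos_iff.2 hu
  have hmono := GrF_mono hg.one_lt hrat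
  obtain ⟨n, hn1, hn2⟩ := Int.exists_greatest_of_bdd (P := fun k : ℤ => ‖a k * u‖ ≤ 1) (by
    obtain ⟨b, hb⟩ := pow_unbounded_of_one_lt ‖u‖⁻¹ hg.one_lt
    refine ⟨b, fun z hz => ?_⟩
    by_contra hcon
    have h1 : ‖a b‖ ≤ ‖a z‖ := hmono (not_le.1 hcon).le
    have h2 := GrF_low hg.one_lt ha0 hrat b
    have h3 : ‖u‖⁻¹ < ‖a z‖ := lt_of_lt_of_le (lt_of_lt_of_le hb h2) h1
    have h4 : 1 < ‖a z‖ * ‖u‖ := by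
      have := mul_lt_mul_of_pos_right h3 hun
      rwa [inv_mul_cancel₀ hun.ne'] at this
    rw [norm_mul] at hz
    linarith) (by
    obtain ⟨b, hb⟩ := pow_unbounded_of_one_lt ‖u‖ hg.one_lt
    refine ⟨-(b : ℤ), ?_⟩
    have h1 := GrF_neg hg.one_lt ha0 hrat b
    have h2 : ‖a (-(b : ℤ))‖ * ‖u‖ ≤ κ⁻¹ ^ b * κ ^ b :=
      mul_le_mul h1 hb.le (norm_nonneg _) (pow_nonneg (inv_nonneg.2 hκ0.le) _)
    rw [← mul_pow, inv_mul_cancel₀ hκ0.ne', one_pow] at h2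
    change ‖a (-(b : ℤ)) * u‖ ≤ 1
    rw [norm_mul]
    exact h2)
  refine ⟨n, η n, hηU n, a n, hane n, hFη n, ?_, hn1, fun m hm => hn2 _ ?_⟩
  · have h1 : 1 < ‖a (n + 1) * u‖ := by
      by_contra hcon
      have := hn2 (n + 1) (not_lt.1 hcon)
      omega
    have h2 := (hrat n).2
    rw [norm_mul] at h1
    rw [norm_mul, div_le_iff₀ hΛ0]
    have h3 : ‖a (n + 1)‖ * ‖u‖ ≤ Λ * ‖a n‖ * ‖u‖ := mul_le_mul_of_nonneg_right h2 hun.le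
    nlinarith
  · rw [norm_mul]
    have h1 := GrF_up hΛ1 ha0 hrat m
    have h2 : ‖a m‖ * ‖u‖ ≤ Λ ^ m * ‖u‖ := mul_le_mul_of_nonneg_right h1 hun.le
    have h3 : Λ ^ m * ‖u‖ ≤ ‖u‖ * Λ ^ (m + 1) := by
      rw [pow_succ, mul_comm (Λ ^ m) ‖u‖, ← mul_assoc]
      exact le_mul_of_one_le_right (by positivity) hΛ1.le
    linarith

end Pool.Agent.HQ
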