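import Pool.Agent.HQ.Defs
import Pool.Agent.HQ.Bas
import Pool.Agent.HQ.UBas
import Pool.Agent.HQ.GrF
import Pool.Agent.HQ.Surj
import Pool.Agent.HQ.Acc60

/-!
# HQ module F80a: zero sets along the curves
-/

set_option autoImplicit false

open Filter Topology Set Metric

namespace Pool.Agent.HQ

theorem F80a_front {t s : Set ℂ} (ht : IsPreconnected t) (h1 : (t ∩ s).Nonempty)
    (h2 : (t ∩ sᶜ).Nonempty) : (t ∩ frontier s).Nonempty := by
  by_contra hcon
  rw [Set.not_nonempty_iff_eq_empty] at hcon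
  have hno : ∀ x ∈ t, x ∉ frontier s := fun x hx hf => by
    have : x ∈ t ∩ frontier s := ⟨hx, hf⟩
    rw [hcon] at this
    exact this
  have hin : ∀ x ∈ t, x ∈ s → x ∈ interior s := fun x hx hxs => by
    by_contra h
    exact hno x hx ⟨subset_closure hxs, h⟩
  have hout : ∀ x ∈ t, x ∉ s → x ∈ (closure s)ᶜ := fun x hx hxs h =>
    hno x hx ⟨h, fun h' => hxs (interior_subset h')⟩
  obtain ⟨a, ha1, ha2⟩ := h1
  obtain ⟨b, hb1, hb2⟩ := h2
  obtain ⟨x, -, hx1, hx2⟩ := ht _ _ (isOpen_interior (s := s)) (isClosed_closure (s := s)).isOpen_compl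
    (fun y hy => by
      by_cases h : y ∈ s
      · exact Or.inl (hin y hy h)
      · exact Or.inr (hout y hy h)) ⟨a, ha1, hin a ha1 ha2⟩ ⟨b, hb1, hout b hb1 hb2⟩
  exact hx2 (subset_closure (interior_subset hx1))

/-- some frontier point of the zero set of `P ∘ ξ` has a value different from the centre -/
theorem fr_ne (Q : QS) {ξ : ℂ → E} (hξ : ξ ∈ Q.U) :
    ∃ z ∈ frontier {w | Q.P (ξ w) = 0}, ξ z ≠ ξ 0 := by
  have dξ := U_diff Q hξ
  set Z : Set ℂ := {w | Q.P (ξ w) = 0} with hZ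
  have hZc : IsClosed Z := isClosed_eq (Q.cP.comp dξ.continuous) continuous_const
  have h0 : (0 : ℂ) ∈ Z := Q.clSad_P (U_zero Q hξ)
  obtain ⟨z1, -, hz1⟩ := U_eq_one Q hξ
  have h1 : z1 ∉ Z := fun h => by
    have h2 : Q.P (ξ z1) = 0 := h
    rw [hz1] at h2
    exact one_ne_zero h2
  obtain ⟨z0, -, hz0⟩ := F80a_front (s := Z) (isPreconnected_univ (α := ℂ))
    ⟨0, mem_univ _, h0⟩ ⟨z1, mem_univ _, h1⟩
  by_contra hcon
  push Not at hcon
  -- isolated
  have hana : AnalyticAt ℂ ξ z0 := (dξ.differentiableOn.analyticOnNhd isOpen_univ) z0 (mem_univ _)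
  have hne : ∀ᶠ z in 𝓝[≠] z0, ξ z ≠ ξ z0 := by
    rcases hana.eventually_eq_or_eventually_ne (analyticAt_const (v := ξ z0)) with h | h
    · exfalso
      exact (nc_of_entire dξ (U_ne Q hξ) z0) (h.mono fun z hz => not_not.2 hz)
    · exact h
  rw [eventually_nhdsWithin_iff, Metric.eventually_nhds_iff_ball] at hne
  obtain ⟨ρ, hρ, hρn⟩ := hne
  have hpre := Acc60_punct z0 hρ
  have hz0Z : z0 ∈ Z := hZc.frontier_subset hz0
  have hnofr : ∀ t : ℂ, t ≠ z0 → dist t z0 < ρ → t ∉ frontier Z := by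
    intro t ht htd htf
    have h2 := hρn t htd ht
    rw [hcon t htf, hcon z0 hz0] at h2
    exact h2 rfl
  by_cases hex : ∃ t : ℂ, t ≠ z0 ∧ dist t z0 < ρ ∧ t ∈ Z
  · obtain ⟨t, ht1, ht2, ht3⟩ := hex
    -- then the punctured disc is in Z
    have hall : ∀ s : ℂ, s ≠ z0 → dist s z0 < ρ → s ∈ Z := by
      intro s hs1 hs2
      by_contra hs3
      obtain ⟨x, hx1, hx2⟩ := F80a_front (s := Z) hpre ⟨t, ⟨ht1, ht2⟩, ht3⟩
        ⟨s, ⟨hs1, hs2⟩, hs3⟩
      exact hnofr x hx1.1 hx1.2 hx2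
    have hint : z0 ∈ interior Z := by
      rw [mem_interior_iff_mem_nhds]
      filter_upwards [ball_mem_nhds z0 hρ] with s hs
      by_cases hsz : s = z0
      · rw [hsz]; exact hz0Z
      · exact hall s hsz hs
    rw [hZc.frontier_eq] at hz0
    exact hz0.2 hint
  · push Not at hex
    have h3 := Q.iP ξ z0 ρ hρ dξ.differentiableOn (fun z hz hzz =>
      lt_of_le_of_ne (Q.P0 _) fun h4 => hex z hzz hz h4.symm)
    have h4 : Q.P (ξ z0) = 0 := hz0Z
    linarith

/-- frontier points persist -/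
theorem fr_persist (S : Sys) {gs : ℕ → ℂ → E} {g : ℂ → E} (hgs : ∀ n, Differentiable ℂ (gs n))
    (hl : TendstoLocallyUniformly gs g atTop) {z : ℂ} (hz : z ∈ frontier {w | S.P (g w) = 0})
    {r : ℝ} (hr : 0 < r) :
    ∀ᶠ n in atTop, ∃ w ∈ ball z r, w ∈ frontier {w | S.P (gs n w) = 0} := by
  have cg : Continuous g :=
    hl.continuous (Eventually.of_forall fun n => (hgs n).continuous).frequently
  have hlim : ∀ w, Tendsto (fun n => S.P (gs n w)) atTop (𝓝 (S.P (g w))) := fun w =>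
    (S.cP.tendsto _).comp (hl.tendsto_comp cg.continuousAt tendsto_const_nhds)
  have hZc : IsClosed {w | S.P (g w) = 0} := isClosed_eq (S.cP.comp cg) continuous_const
  have hzZ : S.P (g z) = 0 := hZc.frontier_subset hz
  have hznot : z ∉ interior {w | S.P (g w) = 0} := by
    rw [hZc.frontier_eq] at hz
    exact hz.2
  by_contra hcon
  rw [not_eventually] at hcon
  have hdich : ∃ᶠ n in atTop, (∀ w ∈ ball z r, S.P (gs n w) = 0) ∨
      (∀ w ∈ ball z r, 0 < S.P (gs n w)) := by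
    refine hcon.mono fun n hn => ?_
    push Not at hn
    by_contra hd
    push Not at hd
    obtain ⟨⟨w1, hw1, hw1'⟩, ⟨w2, hw2, hw2'⟩⟩ := hd
    have hw2'' : S.P (gs n w2) = 0 := le_antisymm hw2' (S.P0 _)
    obtain ⟨x, hx1, hx2⟩ := F80a_front (s := {w | S.P (gs n w) = 0})
      (convex_ball z r).isPreconnected ⟨w2, hw2, hw2''⟩ ⟨w1, hw1, hw1'⟩
    exact hn x hx1 hx2
  rw [frequently_or_distrib] at hdich
  rcases hdich with h | h
  · apply hznot
    rw [mem_interior_iff_mem_nhds]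
    filter_upwards [ball_mem_nhds z hr] with w hw
    exact isClosed_singleton.mem_of_frequently_of_tendsto (h.mono fun n hn => hn w hw) (hlim w)
  · apply hznot
    rw [mem_interior_iff_mem_nhds]
    filter_upwards [ball_mem_nhds z (half_pos hr)] with w hw
    rw [mem_ball] at hw
    have hw' : w ∈ ball z r := by rw [mem_ball]; linarith
    have h2 : ∃ᶠ n in atTop, S.P (gs n w) ≤ 3 * S.P (gs n z) := by
      refine h.mono fun n hn => ?_
      have h3 := (S.hP (gs n) z r hr (hgs n).differentiableOn hn w hw').2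
      refine h3.trans (mul_le_mul_of_nonneg_right ?_ (S.P0 _))
      rw [div_le_iff₀ (by linarith)]
      linarith
    have h4 : S.P (g w) ≤ 3 * S.P (g z) := by
      have h5 : Tendsto (fun n => (S.P (gs n w), 3 * S.P (gs n z))) atTop
          (𝓝 (S.P (g w), 3 * S.P (g z))) := (hlim w).prodMk_nhds ((hlim z).const_mul 3)
      exact (OrderClosedTopology.isClosed_le' (α := ℝ)).mem_of_frequently_of_tendsto h2 h5
    rw [hzZ, mul_zero] at h4
    exact le_antisymm h4 (S.P0 _)

end Pool.Agent.HQ
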