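import Pool.Agent.HQ.Defs
import Pool.Agent.HQ.Bas
import Pool.Agent.HQ.UBas
import Pool.Agent.HQ.GrF
import Pool.Agent.HQ.F80a
import Pool.Agent.HQ.Gro

/-!
# HQ module F80: far points of the closure of the saddles on every curve
-/

set_option autoImplicit false

open Filter Topology Set Metric

namespace Pool.Agent.HQ

/-- a frontier point of the zero set along a curve has its value in the closure of the saddles -/
theorem F80_fr (Q : QS) (h5 : Q.H5) {ξ : ℂ → E} (hξ : ξ ∈ Q.U) {w : ℂ}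
    (hw : w ∈ frontier {w | Q.P (ξ w) = 0}) : ξ w ∈ closure (Sad Q.F) := by
  have hc : Continuous ξ := (U_diff Q hξ).continuous
  have hcl : IsClosed {w | Q.P (ξ w) = 0} := isClosed_eq (Q.cP.comp hc) continuous_const
  have h1 : w ∈ {w | Q.P (ξ w) = 0} := by
    have := hw.1
    rwa [hcl.closure_eq] at this
  refine h5 (ξ w) h1 (U_M0 Q hξ w) fun hin => hw.2 ?_
  rw [mem_interior]
  refine ⟨ξ ⁻¹' interior Q.Kp, fun v hv => ?_, isOpen_interior.preimage hc, hin⟩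
  have h2 : ξ v ∈ Q.Kp := interior_subset (show ξ v ∈ interior Q.Kp from hv)
  exact h2

/-- the growth of the multipliers -/
theorem F80_pow {Q : QS} {κ Λ : ℝ} (hg : Gr Q κ Λ) {a : ℤ → ℂ} (h0 : a 0 = 1)
    (h : ∀ n, κ * ‖a n‖ ≤ ‖a (n + 1)‖) (N : ℕ) : κ ^ N ≤ ‖a (N : ℤ)‖ := by
  have hk : 0 < κ := lt_trans zero_lt_one hg.one_lt
  induction N with
  | zero =>
    rw [pow_zero, Nat.cast_zero, h0, norm_one]
  | succ N ih =>
    have h1 := h (N : ℤ)
    have h2 : ((N + 1 : ℕ) : ℤ) = (N : ℤ) + 1 := by push_cast; rfl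
    rw [h2, pow_succ']
    exact (mul_le_mul_of_nonneg_left ih hk.le).trans h1

/-- curves on which the points of the closure of the saddles are close to the centre -/
theorem F80_step (Q : QS) {κ Λ : ℝ} (hg : Gr Q κ Λ)
    (hcon : ∀ c > 0, ∃ ξ ∈ Q.U, ∀ z : ℂ, ‖z‖ ≤ 1 → ξ z ∈ closure (Sad Q.F) →
      ‖ξ z - ξ 0‖ < c) (N : ℕ) :
    ∃ η ∈ Q.U, ∀ z : ℂ, ‖z‖ ≤ κ ^ N → η z ∈ closure (Sad Q.F) →
      ‖η z - η 0‖ < 1 / ((N : ℝ) + 1) := by
  obtain ⟨C, hC⟩ := U_bdd Q 1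
  have hk : 0 < κ := lt_trans zero_lt_one hg.one_lt
  have huc : UniformContinuousOn (⇑(Q.F ^ (N : ℤ))) (closedBall (0 : E) C) :=
    (isCompact_closedBall (0 : E) C).uniformContinuousOn_of_continuous
      (Q.toSys.diff_zpow N).continuous.continuousOn
  rw [Metric.uniformContinuousOn_iff] at huc
  obtain ⟨δ, hδ, hδ'⟩ := huc (1 / ((N : ℝ) + 1)) (by positivity)
  obtain ⟨ξ, hξ, hξ'⟩ := hcon δ hδ
  obtain ⟨η, a, e0, a0, hU, ha, heq, hgr⟩ := hg.orb ξ hξ
  refine ⟨η N, hU N, fun z hz hzs => ?_⟩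
  have hpow := F80_pow hg a0 (fun n => (hgr n).1) N
  have haN : 0 < ‖a (N : ℤ)‖ := norm_pos_iff.mpr (ha N)
  have hw1 : ‖z / a N‖ ≤ 1 := by
    rw [norm_div]
    exact div_le_one_of_le₀ (hz.trans hpow) (norm_nonneg _)
  have hz2 : a N * (z / a N) = z := mul_div_cancel₀ z (ha N)
  have h1 : (Q.F ^ (N : ℤ)) (ξ (z / a N)) = η N z := by
    rw [heq, hz2]
  have h2 : (Q.F ^ (N : ℤ)) (ξ 0) = η N 0 := by
    rw [heq, mul_zero]
  have h3 : ξ (z / a N) ∈ closure (Sad Q.F) := by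
    rw [← Q.toSys.mem_clSad (N : ℤ)]
    rw [h1]
    exact hzs
  have h4 := hξ' _ hw1 h3
  have h5 := hδ' (ξ (z / a N)) (by
      rw [mem_closedBall_zero_iff]; exact hC ξ hξ _ hw1) (ξ 0) (by
      rw [mem_closedBall_zero_iff]
      exact hC ξ hξ 0 (by rw [norm_zero]; exact zero_le_one)) (by
      rw [dist_eq_norm]; exact h4)
  rw [h1, h2, dist_eq_norm] at h5
  exact h5

theorem far (Q : QS) (h5 : Q.H5) : ∃ c₁ > 0, ∀ ξ ∈ Q.U, ∃ z : ℂ, ‖z‖ ≤ 1 ∧
    ξ z ∈ closure (Sad Q.F) ∧ c₁ ≤ ‖ξ z - ξ 0‖ := by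
  by_contra hcon
  push Not at hcon
  obtain ⟨κ, Λ, hg⟩ := growth Q
  have hk1 : 1 < κ := hg.one_lt
  choose η hη hη' using fun N => F80_step Q hg hcon N
  obtain ⟨φ, hφ, ζ, hζ, hlim⟩ := U_seq Q hη
  obtain ⟨z, hz, hne⟩ := fr_ne Q hζ
  have hcz : Continuous ζ := (U_diff Q hζ).continuous
  -- uniform convergence on a ball
  have hunif : TendstoUniformlyOn (fun n => η (φ n)) ζ atTop (closedBall (0 : ℂ) (‖z‖ + 1)) :=
    (tendstoLocallyUniformlyOn_iff_tendstoUniformlyOn_of_compact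
      (isCompact_closedBall _ _)).1 hlim.tendstoLocallyUniformlyOn
  rw [Metric.tendstoUniformlyOn_iff] at hunif
  have key : ∀ ε : ℝ, 0 < ε → dist (ζ z) (ζ 0) < 4 * ε := by
    intro ε hε
    obtain ⟨r0, hr0, hr0'⟩ := Metric.continuous_iff.1 hcz z ε hε
    set r : ℝ := min r0 1 with hr
    have hrpos : 0 < r := lt_min hr0 one_pos
    have e1 := fr_persist Q.toSys (fun n => U_diff Q (hη (φ n))) hlim hz hrpos
    have e2 := hunif ε hε
    have e3 : ∀ᶠ n in atTop, ‖z‖ + 1 ≤ κ ^ (φ n) :=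
      ((tendsto_pow_atTop_atTop_of_one_lt hk1).comp hφ.tendsto_atTop).eventually_ge_atTop _
    have e4 : ∀ᶠ n in atTop, 1 / (((φ n : ℕ) : ℝ) + 1) < ε :=
      (tendsto_one_div_add_atTop_nhds_zero_nat.comp hφ.tendsto_atTop).eventually_lt_const hε
    obtain ⟨n, ⟨w, hw, hwf⟩, h2, h3, h4⟩ := (e1.and (e2.and (e3.and e4))).exists
    have hwz : dist w z < r := hw
    have hwn : ‖w‖ ≤ ‖z‖ + 1 := by
      have h6 : ‖w‖ ≤ ‖z‖ + dist w z := by
        rw [dist_eq_norm]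
        calc ‖w‖ = ‖z + (w - z)‖ := by rw [add_sub_cancel]
          _ ≤ _ := norm_add_le _ _
      have h7 : r ≤ 1 := min_le_right _ _
      linarith
    have a1 : dist (ζ z) (ζ w) < ε := by
      rw [dist_comm]
      exact hr0' w (hwz.trans_le (min_le_left _ _))
    have a2 : dist (ζ w) (η (φ n) w) < ε := h2 w (by
      rw [mem_closedBall_zero_iff]; exact hwn)
    have a3 : dist (η (φ n) w) (η (φ n) 0) < ε := by
      rw [dist_eq_norm]
      exact (hη' (φ n) w (hwn.trans h3) (F80_fr Q h5 (hη (φ n)) hwf)).trans h4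
    have a4 : dist (η (φ n) 0) (ζ 0) < ε := by
      rw [dist_comm]
      refine h2 0 ?_
      rw [mem_closedBall_zero_iff, norm_zero]
      positivity
    calc dist (ζ z) (ζ 0) ≤ dist (ζ z) (ζ w) + dist (ζ w) (η (φ n) w) +
          dist (η (φ n) w) (η (φ n) 0) + dist (η (φ n) 0) (ζ 0) := by
          refine (dist_triangle4 _ (ζ w) (η (φ n) w) _).trans ?_
          have := dist_triangle (η (φ n) w) (η (φ n) 0) (ζ 0)
          linarith
      _ < 4 * ε := by linarith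
  apply hne
  rw [← dist_eq_zero]
  by_contra h0
  have hpos : 0 < dist (ζ z) (ζ 0) := lt_of_le_of_ne dist_nonneg (Ne.symm h0)
  have := key (dist (ζ z) (ζ 0) / 4) (by positivity)
  linarith

end Pool.Agent.HQ
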