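import Pool.Agent.HQ.Defs
import Pool.Agent.HQ.Bas
import Pool.Agent.HQ.UBas
import Pool.Agent.HQ.GrF
import Pool.Agent.HQ.F80

/-!
# HQ module An84: anchors
-/

set_option autoImplicit false

open Filter Topology Set Metric

namespace Pool.Agent.HQ

theorem An84_inv (F : Equiv.Perm E) (n : ℕ) (x : E) : (F⁻¹ ^ n) ((F ^ n) x) = x := by
  rw [inv_pow]
  exact (F ^ n).symm_apply_apply x

theorem An84_inv' (F : Equiv.Perm E) (n : ℕ) (x : E) : (F ^ n) ((F⁻¹ ^ n) x) = x := by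
  rw [inv_pow]
  exact (F ^ n).apply_symm_apply x

theorem anchors (Q : QS) (h5 : Q.H5) {κ Λ : ℝ} (hg : Gr Q κ Λ) {c₀ : E}
    (hc₀ : c₀ ∈ closure (Sad Q.F)) :
    ∃ c₂ > 0, ∃ C : ℝ, ∃ a : ℕ → E, (∀ n, a n ∈ Sad Q.F) ∧
      (∀ n, ‖a n - c₀‖ ≤ C * κ⁻¹ ^ n) ∧
      ∀ n, c₂ ≤ ‖(Q.F ^ n) (a n) - (Q.F ^ n) c₀‖ := by
  obtain ⟨c₁, hc₁, hfar⟩ := far Q h5
  obtain ⟨C, hC, hback⟩ := hg.back 1
  have hκ : 0 < κ⁻¹ := inv_pos.2 (zero_lt_one.trans hg.one_lt)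
  have key : ∀ n : ℕ, ∃ a ∈ Sad Q.F, ‖a - c₀‖ ≤ (C + 1) * κ⁻¹ ^ n ∧
      c₁ / 2 ≤ ‖(Q.F ^ n) a - (Q.F ^ n) c₀‖ := by
    intro n
    have hx : (Q.F ^ n) c₀ ∈ closure (Sad Q.F) := by
      have := (Q.toSys.mem_clSad (n : ℤ) c₀).2 hc₀
      rwa [zpow_natCast] at this
    obtain ⟨p, -, ξ, hξ, hξ0, -⟩ := U_center Q hx
    obtain ⟨z, hz, hzS, hzc⟩ := hfar ξ hξ
    have h1 := hback ξ hξ z hz n
    rw [hξ0, An84_inv, dist_eq_norm] at h1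
    have h2 : ‖(Q.F⁻¹ ^ n) (ξ z) - c₀‖ ≤ C * κ⁻¹ ^ n := by
      refine h1.trans ?_
      have : 0 ≤ C * κ⁻¹ ^ n := mul_nonneg hC (pow_nonneg hκ.le n)
      calc C * κ⁻¹ ^ n * ‖z‖ ≤ C * κ⁻¹ ^ n * 1 := mul_le_mul_of_nonneg_left hz this
        _ = C * κ⁻¹ ^ n := mul_one _
    have hcont : Continuous (⇑(Q.F⁻¹ ^ n)) := (Q.toSys.diff_inv_pow n).continuous
    obtain ⟨δ, hδ, hδ'⟩ := Metric.continuousAt_iff.1 (hcont.continuousAt (x := ξ z)) (κ⁻¹ ^ n)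
      (pow_pos hκ n)
    obtain ⟨e, he, hde⟩ := Metric.mem_closure_iff.1 hzS (min δ (c₁ / 2))
      (lt_min hδ (half_pos hc₁))
    rw [dist_comm] at hde
    have h3 : ‖(Q.F⁻¹ ^ n) e - (Q.F⁻¹ ^ n) (ξ z)‖ < κ⁻¹ ^ n := by
      rw [← dist_eq_norm]
      exact hδ' (hde.trans_le (min_le_left _ _))
    have h4 : ‖e - ξ z‖ < c₁ / 2 := by
      rw [← dist_eq_norm]
      exact hde.trans_le (min_le_right _ _)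
    refine ⟨(Q.F⁻¹ ^ n) e, ?_, ?_, ?_⟩
    · have h5 := (Q.toSys.mem_Sad (-(n : ℤ)) e).2 he
      rwa [zpow_neg, zpow_natCast, ← inv_pow] at h5
    · calc ‖(Q.F⁻¹ ^ n) e - c₀‖
          ≤ ‖(Q.F⁻¹ ^ n) e - (Q.F⁻¹ ^ n) (ξ z)‖ + ‖(Q.F⁻¹ ^ n) (ξ z) - c₀‖ :=
            norm_sub_le_norm_sub_add_norm_sub _ _ _
        _ ≤ κ⁻¹ ^ n + C * κ⁻¹ ^ n := add_le_add h3.le h2
        _ = (C + 1) * κ⁻¹ ^ n := by ring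
    · rw [An84_inv', ← hξ0]
      have h6 : ‖ξ z - ξ 0‖ ≤ ‖ξ z - e‖ + ‖e - ξ 0‖ := norm_sub_le_norm_sub_add_norm_sub _ _ _
      rw [norm_sub_rev (ξ z) e] at h6
      linarith
  choose a ha1 ha2 ha3 using key
  exact ⟨c₁ / 2, half_pos hc₁, C + 1, a, ha1, ha2, ha3⟩

end Pool.Agent.HQ
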