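import Pool.Agent.HQ.Defs

/-!
# HQ module Arz: Arzela-Ascoli for sequences of locally equi-Lipschitz maps
-/

set_option autoImplicit false

open Filter Topology Set Metric

namespace Pool.Agent.HQ

/-- a subsequence which converges at all points of a countable set -/
theorem Arz_diag {X Y : Type} [MetricSpace Y] [ProperSpace Y] {t : Set X} (ht : t.Countable)
    (f : ℕ → X → Y) (hb : ∀ x ∈ t, Bornology.IsBounded (range fun n => f n x)) :
    ∃ φ : ℕ → ℕ, StrictMono φ ∧ ∀ q ∈ t, ∃ a : Y, Tendsto (fun n => f (φ n) q) atTop (𝓝 a) := by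
  have hct : Countable t := ht.to_subtype
  let K : t → Set Y := fun q => closure (range fun n => f n q)
  have hK : IsCompact (Set.pi univ K) :=
    isCompact_univ_pi fun q => (hb q.1 q.2).isCompact_closure
  have hx : ∀ n : ℕ, (fun q : t => f n q) ∈ Set.pi univ K := by
    intro n q _
    exact subset_closure ⟨n, rfl⟩
  obtain ⟨a, _, φ, hφ, ha⟩ := hK.isSeqCompact hx
  refine ⟨φ, hφ, fun q hq => ⟨a ⟨q, hq⟩, ?_⟩⟩
  exact (tendsto_pi_nhds.1 ha) ⟨q, hq⟩

theorem arzela {X Y : Type} [PseudoMetricSpace X] [ProperSpace X] [MetricSpace Y] [ProperSpace Y]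
    {W : Set X} (hW : IsOpen W) (f : ℕ → X → Y)
    (hb : ∀ x ∈ W, Bornology.IsBounded (range fun n => f n x))
    (hl : ∀ x ∈ W, ∃ r > 0, ball x r ⊆ W ∧ ∃ C : ℝ, ∀ n, ∀ y ∈ ball x r, ∀ z ∈ ball x r,
      dist (f n y) (f n z) ≤ C * dist y z) :
    ∃ φ : ℕ → ℕ, StrictMono φ ∧ ∃ g : X → Y,
      TendstoLocallyUniformlyOn (fun n => f (φ n)) g atTop W := by
  have hsep : TopologicalSpace.IsSeparable W := TopologicalSpace.IsSeparable.of_separableSpace W
  obtain ⟨t, htW, htc, hd⟩ := hsep.exists_countable_dense_subset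
  obtain ⟨φ, hφ, hconv⟩ := Arz_diag htc f fun x hx => hb x (htW hx)
  -- positive Lipschitz constants
  have hl' : ∀ x ∈ W, ∃ r > 0, ball x r ⊆ W ∧ ∃ C : ℝ, 0 < C ∧ ∀ n, ∀ y ∈ ball x r,
      ∀ z ∈ ball x r, dist (f n y) (f n z) ≤ C * dist y z := by
    intro x hx
    obtain ⟨r, hr, hrW, C, hC⟩ := hl x hx
    refine ⟨r, hr, hrW, |C| + 1, by positivity, fun n y hy z hz => (hC n y hy z hz).trans ?_⟩
    apply mul_le_mul_of_nonneg_right _ dist_nonneg
    have := le_abs_self C
    linarith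
  have hcau : ∀ x ∈ W, CauchySeq fun n => f (φ n) x := by
    intro x hx
    obtain ⟨r, hr, -, C, hC0, hC⟩ := hl' x hx
    rw [Metric.cauchySeq_iff']
    intro ε hε
    have hδ : 0 < min r (ε / (4 * C)) := lt_min hr (by positivity)
    obtain ⟨q, hq, hxq⟩ := Metric.mem_closure_iff.1 (hd hx) _ hδ
    have hxq1 : dist x q < r := hxq.trans_le (min_le_left _ _)
    have hxq2 : dist x q < ε / (4 * C) := hxq.trans_le (min_le_right _ _)
    have hqb : q ∈ ball x r := by
      rw [mem_ball, dist_comm]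
      exact hxq1
    have hxb : x ∈ ball x r := mem_ball_self hr
    obtain ⟨a, ha⟩ := hconv q hq
    obtain ⟨N, hN⟩ := Metric.cauchySeq_iff'.1 ha.cauchySeq (ε / 4) (by positivity)
    refine ⟨N, fun n hn => ?_⟩
    have h1 := hC (φ n) x hxb q hqb
    have h2 := hC (φ N) q hqb x hxb
    have h3 := hN n hn
    have h4 : C * dist x q < ε / 4 := by
      have h5 : C * dist x q < C * (ε / (4 * C)) := mul_lt_mul_of_pos_left hxq2 hC0
      have h6 : C * (ε / (4 * C)) = ε / 4 := by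
        field_simp
      rwa [h6] at h5
    rw [dist_comm q x] at h2
    have h7 := dist_triangle4 (f (φ n) x) (f (φ n) q) (f (φ N) q) (f (φ N) x)
    linarith
  have hlim : ∀ x : X, ∃ y : Y, x ∈ W → Tendsto (fun n => f (φ n) x) atTop (𝓝 y) := by
    intro x
    by_cases hx : x ∈ W
    · obtain ⟨y, hy⟩ := cauchySeq_tendsto_of_complete (hcau x hx)
      exact ⟨y, fun _ => hy⟩
    · exact ⟨f 0 x, fun h => absurd h hx⟩
  choose g hg using hlim
  refine ⟨φ, hφ, g, ?_⟩
  rw [Metric.tendstoLocallyUniformlyOn_iff]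
  intro ε hε x hx
  obtain ⟨r, hr, hrW, C, hC0, hC⟩ := hl' x hx
  have hδ : 0 < min r (ε / (4 * C)) := lt_min hr (by positivity)
  refine ⟨ball x (min r (ε / (4 * C))), mem_nhdsWithin_of_mem_nhds (ball_mem_nhds x hδ), ?_⟩
  have hxb : x ∈ ball x r := mem_ball_self hr
  have h1 : ∀ᶠ n in atTop, dist (f (φ n) x) (g x) < ε / 4 :=
    (Metric.tendsto_nhds.1 (hg x hx)) (ε / 4) (by positivity)
  filter_upwards [h1] with n hn y hy
  have hy1 : dist y x < r := (mem_ball.1 hy).trans_le (min_le_left _ _)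
  have hy2 : dist y x < ε / (4 * C) := (mem_ball.1 hy).trans_le (min_le_right _ _)
  have hyb : y ∈ ball x r := mem_ball.2 hy1
  have hyW : y ∈ W := hrW hyb
  have h4 : C * dist y x < ε / 4 := by
    have h5 : C * dist y x < C * (ε / (4 * C)) := mul_lt_mul_of_pos_left hy2 hC0
    have h6 : C * (ε / (4 * C)) = ε / 4 := by
      field_simp
    rwa [h6] at h5
  have h7 : dist (g y) (g x) ≤ C * dist y x :=
    le_of_tendsto ((hg y hyW).dist (hg x hx)) (Eventually.of_forall fun n => hC (φ n) y hyb x hxb)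
  have h8 := hC (φ n) x hxb y hyb
  rw [dist_comm x y] at h8
  have h9 := dist_triangle4 (g y) (g x) (f (φ n) x) (f (φ n) y)
  rw [dist_comm (g x) (f (φ n) x)] at h9
  linarith

end Pool.Agent.HQ
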