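import Pool.Agent.HQ.Defs

/-!
# HQ module MatG: linear algebra: eigenvalues and growth
-/

set_option autoImplicit false

open Filter Topology Set Metric

namespace Pool.Agent.HQ

/-- in finite dimension the spectrum of a continuous linear map consists of eigenvalues -/
theorem MatG_eig_of_spec (A : E →L[ℂ] E) {l : ℂ} (hl : l ∈ spectrum ℂ A) :
    Module.End.HasEigenvalue A.toLinearMap l := by
  rw [Module.End.hasEigenvalue_iff_mem_spectrum]
  have h := AlgEquiv.spectrum_eq (Module.End.toContinuousLinearMap (𝕜 := ℂ) E) A.toLinearMap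
  rw [← h]
  exact hl

theorem MatG_pow_lt (A : E →L[ℂ] E) {r : NNReal}
    (h : spectralRadius ℂ A < r) : ∀ᶠ n : ℕ in atTop, ‖A ^ n‖ < (r : ℝ) ^ n := by
  have h1 := spectrum.pow_nnnorm_pow_one_div_tendsto_nhds_spectralRadius A
  have h2 := h1.eventually (gt_mem_nhds h)
  filter_upwards [h2, eventually_gt_atTop 0] with n hn hn0
  have hn0' : (0 : ℝ) < n := by exact_mod_cast hn0
  have h3 := ENNReal.rpow_lt_rpow hn hn0'
  rw [← ENNReal.rpow_mul, one_div, inv_mul_cancel₀ hn0'.ne', ENNReal.rpow_one,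
    ENNReal.rpow_natCast] at h3
  have h4 : ‖A ^ n‖₊ < r ^ n := by exact_mod_cast h3
  exact_mod_cast h4

theorem eig_of_growth (A : E →L[ℂ] E) {c ρ : ℝ} (hc : 0 < c) (hρ : 1 < ρ)
    (h : ∀ n : ℕ, c * ρ ^ n ≤ ‖A ^ n‖) :
    ∃ l : ℂ, 1 < ‖l‖ ∧ Module.End.HasEigenvalue A.toLinearMap l := by
  obtain ⟨l, hl, hl2⟩ := spectrum.exists_nnnorm_eq_spectralRadius A
  refine ⟨l, ?_, MatG_eig_of_spec A hl⟩
  by_contra hcon
  push Not at hcon
  obtain ⟨r', hr1, hr2⟩ := exists_between hρ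
  have hr0 : 0 ≤ r' := by linarith
  obtain ⟨r, rfl⟩ : ∃ s : NNReal, (s : ℝ) = r' := ⟨Real.toNNReal r', Real.coe_toNNReal r' hr0⟩
  have h1 : spectralRadius ℂ A < r := by
    rw [← hl2]
    have : ‖l‖₊ < r := by
      rw [← NNReal.coe_lt_coe]
      exact lt_of_le_of_lt hcon hr1
    exact_mod_cast this
  have h2 := MatG_pow_lt A h1
  have h3 : Tendsto (fun n : ℕ => ((r : ℝ) / ρ) ^ n) atTop (𝓝 0) :=
    tendsto_pow_atTop_nhds_zero_of_lt_one (by positivity) (by rw [div_lt_one (by linarith)]; exact hr2)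
  have h4 := h3.eventually (gt_mem_nhds hc)
  obtain ⟨n, hn1, hn2⟩ := (h2.and h4).exists
  have h5 := h n
  have h6 : ((r : ℝ) / ρ) ^ n < c := hn2
  rw [div_pow, div_lt_iff₀ (by positivity)] at h6
  have h7 : ‖A ^ n‖ < (r : ℝ) ^ n := hn1
  linarith

theorem pow_small (A : E →L[ℂ] E)
    (h : ∀ l : ℂ, Module.End.HasEigenvalue A.toLinearMap l → ‖l‖ < 1) :
    ∃ n : ℕ, 0 < n ∧ ‖A ^ n‖ < 1 / 2 := by
  obtain ⟨l, hl, hl2⟩ := spectrum.exists_nnnorm_eq_spectralRadius A
  have hl1 := h l (MatG_eig_of_spec A hl)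
  obtain ⟨r', hr1, hr2⟩ := exists_between hl1
  have hr0 : 0 ≤ r' := by linarith [norm_nonneg l]
  obtain ⟨r, rfl⟩ : ∃ s : NNReal, (s : ℝ) = r' := ⟨Real.toNNReal r', Real.coe_toNNReal r' hr0⟩
  have h1 : spectralRadius ℂ A < r := by
    rw [← hl2]
    have : ‖l‖₊ < r := by
      rw [← NNReal.coe_lt_coe]
      exact hr1
    exact_mod_cast this
  have h2 := MatG_pow_lt A h1
  have h3 : Tendsto (fun n : ℕ => (r : ℝ) ^ n) atTop (𝓝 0) :=
    tendsto_pow_atTop_nhds_zero_of_lt_one hr0 hr2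
  have h4 := h3.eventually (gt_mem_nhds (show (0 : ℝ) < 1 / 2 by norm_num))
  obtain ⟨n, ⟨hn1, hn2⟩, hn3⟩ := ((h2.and h4).and (eventually_gt_atTop 0)).exists
  have h7 : ‖A ^ n‖ < (r : ℝ) ^ n := hn1
  exact ⟨n, hn3, by linarith⟩

theorem MatG_pair {A : E →L[ℂ] E} {l m : ℂ} (hlm : l ≠ m) {v w : E}
    (hv : Module.End.HasEigenvector A.toLinearMap l v)
    (hw : Module.End.HasEigenvector A.toLinearMap m w) (a : E) :
    ∃ x y : ℂ, a = x • v + y • w := by
  have hli : LinearIndependent ℂ (![v, w] : Fin 2 → E) := by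
    refine Module.End.eigenvectors_linearIndependent' A.toLinearMap (![l, m] : Fin 2 → ℂ) ?_ _ ?_
    · intro i j hij
      fin_cases i <;> fin_cases j <;> simp_all
    · intro i
      fin_cases i
      · exact hv
      · exact hw
  have hfr : Module.finrank ℂ E = 2 := by
    simp [E]
  have hsp : Submodule.span ℂ (Set.range (![v, w] : Fin 2 → E)) = ⊤ := by
    apply LinearIndependent.span_eq_top_of_card_eq_finrank' hli
    simp [hfr]
  have ha : a ∈ Submodule.span ℂ (Set.range (![v, w] : Fin 2 → E)) := by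
    rw [hsp]; trivial
  rw [Matrix.range_cons, Matrix.range_cons, Matrix.range_empty, Set.union_empty,
    Set.singleton_union, Submodule.mem_span_pair] at ha
  obtain ⟨x, y, hxy⟩ := ha
  exact ⟨x, y, hxy.symm⟩

theorem MatG_pow_apply {A : E →L[ℂ] E} {l : ℂ} {v : E}
    (hv : A v = l • v) (n : ℕ) : (A ^ n) v = l ^ n • v := by
  induction n with
  | zero => simp
  | succ n ih =>
    rw [pow_succ', mul_apply_eq_comp, ih, map_smul, hv, smul_smul, pow_succ]

theorem MatG_tend {l : ℂ} (hl : 1 < ‖l‖) {v : E} {C : ℝ}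
    (h : ∀ n : ℕ, ‖l ^ n • v‖ ≤ C) : v = 0 := by
  by_contra hv
  have hv' : 0 < ‖v‖ := norm_pos_iff.2 hv
  have h1 := tendsto_pow_atTop_atTop_of_one_lt hl
  obtain ⟨n, hn⟩ := (h1.eventually (eventually_gt_atTop (C / ‖v‖))).exists
  have h2 := h n
  rw [norm_smul, norm_pow] at h2
  rw [div_lt_iff₀ hv'] at hn
  linarith

theorem eig_bdd {A B : E →L[ℂ] E} (hAB : ∀ v, A (B v) = v) (hBA : ∀ v, B (A v) = v)
    {l m : ℂ} (hl : 1 < ‖l‖) (hm : ‖m‖ < 1) (hel : Module.End.HasEigenvalue A.toLinearMap l)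
    (hem : Module.End.HasEigenvalue A.toLinearMap m) {a : E} {C : ℝ}
    (hA : ∀ n : ℕ, ‖(A ^ n) a‖ ≤ C) (hB : ∀ n : ℕ, ‖(B ^ n) a‖ ≤ C) : a = 0 := by
  obtain ⟨v, hv⟩ := hel.exists_hasEigenvector
  obtain ⟨w, hw⟩ := hem.exists_hasEigenvector
  have hlm : l ≠ m := by
    rintro rfl
    linarith
  have hv1 : A v = l • v := hv.apply_eq_smul
  have hw1 : A w = m • w := hw.apply_eq_smul
  obtain ⟨x, y, hxy⟩ := MatG_pair hlm hv hw a
  have inv_eig : ∀ (c : ℂ) (u : E), u ≠ 0 → A u = c • u → c ≠ 0 ∧ B u = c⁻¹ • u := by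
    intro c u hu hcu
    have h2 := hBA u
    rw [hcu, map_smul] at h2
    have hc0 : c ≠ 0 := by
      rintro rfl
      rw [zero_smul] at h2
      exact hu h2.symm
    refine ⟨hc0, ?_⟩
    rw [eq_inv_smul_iff₀ hc0]
    exact h2
  obtain ⟨hl0, hv2⟩ := inv_eig l v hv.2 hv1
  obtain ⟨hm0, hw2⟩ := inv_eig m w hw.2 hw1
  have e1 : x • v = 0 := by
    apply MatG_tend hl (C := C + ‖y • w‖)
    intro n
    have h1 : l ^ n • x • v = (A ^ n) a - m ^ n • y • w := by
      rw [hxy, map_add, map_smul, map_smul, MatG_pow_apply hv1, MatG_pow_apply hw1,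
        smul_comm x, smul_comm y]
      abel
    rw [h1]
    refine (norm_sub_le _ _).trans (add_le_add (hA n) ?_)
    rw [norm_smul, norm_pow]
    exact mul_le_of_le_one_left (norm_nonneg _) (pow_le_one₀ (norm_nonneg _) hm.le)
  rw [e1, zero_add] at hxy
  rw [hxy] at hB ⊢
  have hmi : 1 < ‖m⁻¹‖ := by
    rw [norm_inv]
    exact (one_lt_inv₀ (norm_pos_iff.2 hm0)).2 hm
  apply MatG_tend hmi (C := C)
  intro n
  have := hB n
  rwa [map_smul, MatG_pow_apply hw2, smul_comm y] at this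

/-- at most two eigenvalues -/
theorem eig_two {A : E →L[ℂ] E} {l m c : ℂ} (hlm : l ≠ m)
    (hel : Module.End.HasEigenvalue A.toLinearMap l)
    (hem : Module.End.HasEigenvalue A.toLinearMap m)
    (hec : Module.End.HasEigenvalue A.toLinearMap c) : c = l ∨ c = m := by
  obtain ⟨v, hv⟩ := hel.exists_hasEigenvector
  obtain ⟨w, hw⟩ := hem.exists_hasEigenvector
  obtain ⟨u, hu⟩ := hec.exists_hasEigenvector
  by_contra hcon
  push Not at hcon
  obtain ⟨hcl, hcm⟩ := hcon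
  have hli : LinearIndependent ℂ (![v, w, u] : Fin 3 → E) := by
    refine Module.End.eigenvectors_linearIndependent' A.toLinearMap (![l, m, c] : Fin 3 → ℂ) ?_ _ ?_
    · intro i j hij
      fin_cases i <;> fin_cases j <;> simp_all
    · intro i
      fin_cases i
      · exact hv
      · exact hw
      · exact hu
  have h := hli.fintype_card_le_finrank
  have hfr : Module.finrank ℂ E = 2 := by
    simp [E]
  rw [hfr] at h
  simp at h

end Pool.Agent.HQ
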