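import Pool.Agent.HQ.Defs
import Pool.Agent.HQ.Bas
import Pool.Agent.HQ.MatG

/-!
# HQ module C21: discs in K through a saddle point are constant
-/

set_option autoImplicit false

open Filter Topology Set Metric

namespace Pool.Agent.HQ

theorem C21_bound {H : E → E} (hH : Differentiable ℂ H) {q : E} {n : ℕ} {R r : ℝ} (hr : 0 < r)
    {s₀ : ℂ} {Γ g : ℂ → E} (hΓ : DifferentiableOn ℂ Γ (ball s₀ r)) (hg : ContinuousAt g s₀)
    (heq : ∀ᶠ z in 𝓝 s₀, Γ z - q = (z - s₀) ^ (n + 1) • g z)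
    (hmap : ∀ s ∈ ball s₀ r, ‖H (Γ s)‖ ≤ R) (hq : H q = q) (hΓ0 : Γ s₀ = q) :
    ‖fderiv ℂ H q (g s₀)‖ ≤ 2 * R / r ^ (n + 1) := by
  have hs0 : s₀ ∈ ball s₀ r := mem_ball_self hr
  have hd : DifferentiableOn ℂ (fun s => H (Γ s)) (ball s₀ r) :=
    hH.comp_differentiableOn hΓ
  have hcΓ : ContinuousAt Γ s₀ := (hΓ.differentiableAt (isOpen_ball.mem_nhds hs0)).continuousAt
  have htΓ : Tendsto Γ (𝓝 s₀) (𝓝 q) := by
    have := hcΓ.tendsto
    rwa [hΓ0] at this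
  have hm : MapsTo (fun s => H (Γ s)) (ball s₀ r) (closedBall (H (Γ s₀)) (2 * R)) := by
    intro s hs
    rw [mem_closedBall, dist_eq_norm]
    calc ‖H (Γ s) - H (Γ s₀)‖ ≤ ‖H (Γ s)‖ + ‖H (Γ s₀)‖ := norm_sub_le _ _
      _ ≤ 2 * R := by linarith [hmap s hs, hmap s₀ hs0]
  -- the remainder
  have hgb : g =O[𝓝 s₀] (fun _ => (1 : ℂ)) := hg.isBigO_one ℂ
  have hO1 : (fun z => Γ z - q) =O[𝓝 s₀] (fun z => (z - s₀) ^ (n + 1)) := by
    have h1 : (fun z => Γ z - q) =ᶠ[𝓝 s₀] fun z => (z - s₀) ^ (n + 1) • g z := heq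
    refine h1.trans_isBigO ?_
    have h2 := (Asymptotics.isBigO_refl (fun z : ℂ => (z - s₀) ^ (n + 1)) (𝓝 s₀)).smul hgb
    refine h2.trans ?_
    refine Asymptotics.isBigO_of_le _ fun z => ?_
    simp
  have hF : (fun z => H (Γ z) - q - fderiv ℂ H q (Γ z - q)) =o[𝓝 s₀]
      (fun z => (z - s₀) ^ (n + 1)) := by
    have h1 := (hH q).hasFDerivAt.isLittleO
    have h2 := h1.comp_tendsto htΓ
    rw [hq] at h2
    exact h2.trans_isBigO hO1
  have hO2 : (fun z => H (Γ z) - q) =O[𝓝 s₀] (fun z => (z - s₀) ^ (n + 1)) := by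
    have h1 : (fun z => fderiv ℂ H q (Γ z - q)) =O[𝓝 s₀] (fun z => (z - s₀) ^ (n + 1)) :=
      ((fderiv ℂ H q).isBigO_comp _ _).trans hO1
    have h2 := hF.isBigO.add h1
    refine h2.congr_left fun z => ?_
    abel
  have ho : (fun s => H (Γ s) - H (Γ s₀)) =o[𝓝 s₀] (fun w => ‖w - s₀‖ ^ n) := by
    rw [hΓ0, hq]
    refine hO2.trans_isLittleO ?_
    rw [← Asymptotics.isLittleO_norm_left]
    have h1 : (fun w : ℂ => ‖(w - s₀) ^ (n + 1)‖) = fun w => ‖w - s₀‖ ^ n * ‖w - s₀‖ := by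
      funext w
      rw [norm_pow, pow_succ]
    rw [h1]
    have h2 : (fun w : ℂ => ‖w - s₀‖) =o[𝓝 s₀] (fun _ => (1 : ℝ)) := by
      rw [Asymptotics.isLittleO_one_iff]
      have : Tendsto (fun w : ℂ => ‖w - s₀‖) (𝓝 s₀) (𝓝 ‖s₀ - s₀‖) :=
        (continuous_norm.comp (continuous_id.sub continuous_const)).tendsto s₀
      simpa using this
    have h3 := (Asymptotics.isBigO_refl (fun w : ℂ => ‖w - s₀‖ ^ n) (𝓝 s₀)).mul_isLittleO h2
    simpa using h3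
  -- the limit
  have hlim : Tendsto (fun z => ((z - s₀) ^ (n + 1))⁻¹ • (H (Γ z) - q)) (𝓝[≠] s₀)
      (𝓝 (fderiv ℂ H q (g s₀))) := by
    have h1 : Tendsto (fun z => fderiv ℂ H q (g z)) (𝓝[≠] s₀) (𝓝 (fderiv ℂ H q (g s₀))) :=
      (((fderiv ℂ H q).continuous.continuousAt.comp hg).tendsto).mono_left nhdsWithin_le_nhds
    have h2 : Tendsto (fun z => ((z - s₀) ^ (n + 1))⁻¹ •
        (H (Γ z) - q - fderiv ℂ H q (Γ z - q))) (𝓝[≠] s₀) (𝓝 0) := by
      have h3 := (hF.mono (nhdsWithin_le_nhds (s := {s₀}ᶜ))).norm_norm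
      rw [Asymptotics.isLittleO_iff_tendsto'] at h3
      · rw [tendsto_zero_iff_norm_tendsto_zero]
        refine h3.congr fun z => ?_
        rw [norm_smul, norm_inv, div_eq_inv_mul]
      · refine Eventually.of_forall fun z hz => ?_
        have h4 : (z - s₀) ^ (n + 1) = 0 := norm_eq_zero.1 hz
        have h5 : z - s₀ = 0 := by
          by_contra h6
          exact pow_ne_zero _ h6 h4
        have h6 : z = s₀ := sub_eq_zero.1 h5
        rw [h6, hΓ0, hq]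
        simp
    have h3 := h1.add h2
    rw [add_zero] at h3
    refine h3.congr' ?_
    have h4 : ∀ᶠ z in 𝓝[≠] s₀, Γ z - q = (z - s₀) ^ (n + 1) • g z :=
      heq.filter_mono nhdsWithin_le_nhds
    filter_upwards [h4, self_mem_nhdsWithin] with z hz hne
    have h5 : (z - s₀) ^ (n + 1) ≠ 0 := pow_ne_zero _ (sub_ne_zero.2 hne)
    rw [smul_sub, ← map_smul (fderiv ℂ H q) _ (Γ z - q), hz, inv_smul_smul₀ h5]
    abel
  refine le_of_tendsto hlim.norm ?_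
  have h1 : ∀ᶠ z in 𝓝[≠] s₀, z ∈ ball s₀ r :=
    nhdsWithin_le_nhds (isOpen_ball.mem_nhds hs0)
  filter_upwards [h1, self_mem_nhdsWithin] with z hz hne
  have h2 := Complex.dist_le_mul_div_pow_of_mapsTo_ball_of_isLittleO hd hm ho hz
  rw [hΓ0, hq, dist_eq_norm, dist_eq_norm] at h2
  have h3 : 0 < ‖z - s₀‖ := norm_pos_iff.2 (sub_ne_zero.2 hne)
  rw [norm_smul, norm_inv, norm_pow]
  rw [inv_mul_le_iff₀ (pow_pos h3 _)]
  refine h2.trans (le_of_eq ?_)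
  rw [div_pow]
  ring

theorem const_at_saddle (S : Sys) {q : E} (hq : q ∈ Sad S.F) {s₀ : ℂ} {r : ℝ} (hr : 0 < r)
    {Γ : ℂ → E} (hΓ : DifferentiableOn ℂ Γ (ball s₀ r)) (hP : ∀ s ∈ ball s₀ r, S.P (Γ s) = 0)
    (hM : ∀ s ∈ ball s₀ r, S.M (Γ s) = 0) (h0 : Γ s₀ = q) : ∀ s ∈ ball s₀ r, Γ s = q := by
  have hs0 : s₀ ∈ ball s₀ r := mem_ball_self hr
  have han : AnalyticOnNhd ℂ (fun z => Γ z - q) (ball s₀ r) :=
    (hΓ.sub_const q).analyticOnNhd isOpen_ball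
  by_cases hev : ∀ᶠ z in 𝓝 s₀, Γ z - q = 0
  · intro s hs
    have h1 := han.eqOn_zero_of_preconnected_of_eventuallyEq_zero
      (convex_ball s₀ r).isPreconnected hs0 hev hs
    exact sub_eq_zero.1 h1
  exfalso
  obtain ⟨n, g, hg, hg0, hev'⟩ := (han s₀ hs0).exists_eventuallyEq_pow_smul_nonzero_iff.2 hev
  obtain ⟨R, hR⟩ := S.K_bdd
  obtain ⟨k, hk, hkq, l, m, hl, hm, hel, hem⟩ := id hq
  have hn : n ≠ 0 := by
    rintro rfl
    have h1 := hev'.self_of_nhds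
    rw [h0, sub_self, pow_zero, one_smul] at h1
    exact hg0 h1.symm
  obtain ⟨n, rfl⟩ := Nat.exists_eq_succ_of_ne_zero hn
  have hpowz : ∀ (j : ℤ) (s : ℂ), s ∈ ball s₀ r → ‖(S.F ^ j) (Γ s)‖ ≤ R := by
    intro j s hs
    exact hR _ ((S.P_zero_iff j _).2 (hP s hs)) ((S.M_zero_iff j _).2 (hM s hs))
  have hinvq : (S.F⁻¹ ^ k) q = q := by
    have h1 : (S.F⁻¹ ^ k) ((S.F ^ k) q) = q := by
      rw [inv_pow]; exact (S.F ^ k).symm_apply_apply q
    rwa [hkq] at h1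
  have hiter : ∀ (T : Equiv.Perm E), Differentiable ℂ (⇑T) → T q = q → ∀ j : ℕ,
      (T ^ j) q = q ∧ fderiv ℂ (⇑(T ^ j)) q = (fderiv ℂ (⇑T) q) ^ j := by
    intro T hT hTq j
    induction j with
    | zero =>
      refine ⟨by simp, ?_⟩
      rw [pow_zero, pow_zero, Equiv.Perm.coe_one, fderiv_id]
      rfl
    | succ j ih =>
      obtain ⟨h1, h2⟩ := ih
      refine ⟨by rw [pow_succ, Equiv.Perm.mul_apply, hTq, h1], ?_⟩
      have h3 : (⇑(T ^ (j + 1)) : E → E) = ⇑(T ^ j) ∘ ⇑T := by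
        funext x
        rw [pow_succ, Equiv.Perm.mul_apply]
        rfl
      rw [h3, fderiv_comp q ((diff_pow hT j) _) (hT q), hTq, h2, pow_succ]
      rfl
  have hA := diff_pow S.dF k
  have hB := diff_pow S.dG k
  have hzero : g s₀ = 0 := by
    refine eig_bdd (A := fderiv ℂ (⇑(S.F ^ k)) q) (B := fderiv ℂ (⇑(S.F⁻¹ ^ k)) q) ?_ ?_ hl hm hel
      hem (C := 2 * R / r ^ (n + 1)) ?_ ?_
    · intro v
      have h1 := fderiv_inv_comp (p := q) hB hA (fun x => by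
        rw [inv_pow]; exact (S.F ^ k).apply_symm_apply x) v
      rwa [hinvq] at h1
    · intro v
      have h1 := fderiv_inv_comp (p := q) hA hB (fun x => by
        rw [inv_pow]; exact (S.F ^ k).symm_apply_apply x) v
      rwa [hkq] at h1
    · intro j
      obtain ⟨h1, h2⟩ := hiter (S.F ^ k) hA hkq j
      rw [← h2]
      refine C21_bound (diff_pow hA j) hr hΓ hg.continuousAt hev' ?_ h1 h0
      intro s hs
      have h3 := hpowz ((k * j : ℕ) : ℤ) s hs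
      rwa [zpow_natCast, pow_mul] at h3
    · intro j
      obtain ⟨h1, h2⟩ := hiter (S.F⁻¹ ^ k) hB hinvq j
      rw [← h2]
      refine C21_bound (diff_pow hB j) hr hΓ hg.continuousAt hev' ?_ h1 h0
      intro s hs
      have h3 := hpowz (-((k * j : ℕ) : ℤ)) s hs
      rwa [zpow_neg, zpow_natCast, ← inv_pow, pow_mul] at h3
  exact hg0 hzero

end Pool.Agent.HQ
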