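import Pool.Agent.HQ.Defs
import Pool.Agent.HQ.Arz

/-!
# HQ module Mont: Montel for maps from an open set of C to E
-/

set_option autoImplicit false

open Filter Topology Set Metric

namespace Pool.Agent.HQ

theorem montel {D : Set ℂ} (hD : IsOpen D) (g : ℕ → ℂ → E)
    (hg : ∀ n, DifferentiableOn ℂ (g n) D)
    (hb : ∀ z ∈ D, ∃ r > 0, ∃ R : ℝ, ∀ n, ∀ w ∈ ball z r, w ∈ D → ‖g n w‖ ≤ R) :
    ∃ φ : ℕ → ℕ, StrictMono φ ∧ ∃ h : ℂ → E, DifferentiableOn ℂ h D ∧
      TendstoLocallyUniformlyOn (fun n => g (φ n)) h atTop D := by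
  have h1 : ∀ x ∈ D, Bornology.IsBounded (range fun n => g n x) := by
    intro x hx
    obtain ⟨r, hr, R, hR⟩ := hb x hx
    refine isBounded_iff_forall_norm_le.2 ⟨R, ?_⟩
    rintro _ ⟨n, rfl⟩
    exact hR n x (mem_ball_self hr) hx
  have h2 : ∀ x ∈ D, ∃ r > 0, ball x r ⊆ D ∧ ∃ C : ℝ, ∀ n, ∀ y ∈ ball x r, ∀ z ∈ ball x r,
      dist (g n y) (g n z) ≤ C * dist y z := by
    intro x hx
    obtain ⟨r0, hr0, hr0D⟩ := Metric.isOpen_iff.1 hD x hx
    obtain ⟨r, hr, R, hR⟩ := hb x hx
    have hρ : 0 < min r0 r := lt_min hr0 hr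
    have hsub : ball x (min r0 r) ⊆ D := (ball_subset_ball (min_le_left _ _)).trans hr0D
    refine ⟨min r0 r / 4, by positivity, (ball_subset_ball (by linarith)).trans hsub,
      2 * R / (min r0 r / 2), fun n y hy z hz => ?_⟩
    rw [mem_ball] at hy hz
    have h3 : ball z (min r0 r / 2) ⊆ ball x (min r0 r) := by
      intro w hw
      rw [mem_ball] at hw ⊢
      have := dist_triangle w z x
      linarith
    have hb' : ∀ w ∈ ball x (min r0 r), ‖g n w‖ ≤ R := fun w hw =>
      hR n w (ball_subset_ball (min_le_right _ _) hw) (hsub hw)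
    have hzz : z ∈ ball x (min r0 r) := by
      rw [mem_ball]
      linarith
    refine Complex.dist_le_div_mul_dist_of_mapsTo_ball ((hg n).mono (h3.trans hsub)) ?_ ?_
    · intro w hw
      rw [mem_closedBall, dist_eq_norm]
      have h4 := norm_sub_le (g n w) (g n z)
      have h5 := hb' w (h3 hw)
      have h6 := hb' z hzz
      linarith
    · rw [mem_ball]
      have := dist_triangle y x z
      rw [dist_comm x z] at this
      linarith
  obtain ⟨φ, hφ, h, hh⟩ := arzela hD g h1 h2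
  exact ⟨φ, hφ, h, hh.differentiableOn (Eventually.of_forall fun n => hg (φ n)) hD, hh⟩

end Pool.Agent.HQ
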