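import Pool.Agent.HQ.Defs
import Pool.Agent.HQ.Bas
import Pool.Agent.HQ.Mont

/-!
# HQ module LimD: limits of iterates along discs in K+
-/

set_option autoImplicit false

open Filter Topology Set Metric

namespace Pool.Agent.HQ

theorem lim_disc (S : Sys) {D : Set ℂ} (hD : IsOpen D) {Γ : ℂ → E} (hΓ : DifferentiableOn ℂ Γ D)
    (h0 : ∀ z ∈ D, S.P (Γ z) = 0) (n : ℕ → ℕ) :
    ∃ φ : ℕ → ℕ, StrictMono φ ∧ ∃ h : ℂ → E, DifferentiableOn ℂ h D ∧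
      TendstoLocallyUniformlyOn (fun i z => (S.F ^ (n (φ i))) (Γ z)) h atTop D ∧
      (Tendsto n atTop atTop → ∀ z ∈ D, S.P (h z) = 0 ∧ S.M (h z) = 0) := by
  have hd : ∀ i : ℕ, DifferentiableOn ℂ (fun z => (S.F ^ (n i)) (Γ z)) D := fun i =>
    (S.diff_pow (n i)).comp_differentiableOn hΓ
  have hb : ∀ z ∈ D, ∃ r > 0, ∃ R : ℝ, ∀ i : ℕ, ∀ w ∈ ball z r, w ∈ D →
      ‖(S.F ^ (n i)) (Γ w)‖ ≤ R := by
    intro z hz
    have hc : ContinuousOn (fun w => S.M (Γ w)) D := S.cM.comp_continuousOn hΓ.continuousOn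
    have h1 : ∀ᶠ w in 𝓝[D] z, S.M (Γ w) < S.M (Γ z) + 1 :=
      (hc z hz).eventually (gt_mem_nhds (lt_add_one _))
    rw [eventually_nhdsWithin_iff, Metric.eventually_nhds_iff_ball] at h1
    obtain ⟨r, hr, hball⟩ := h1
    obtain ⟨R, hR⟩ := S.fwd_bdd (S.M (Γ z) + 1)
    exact ⟨r, hr, R, fun i w hw hwD => hR (Γ w) (h0 w hwD) (hball w hw hwD).le (n i)⟩
  obtain ⟨φ, hφ, h, hh, hlim⟩ := montel hD (fun i z => (S.F ^ (n i)) (Γ z)) hd hb
  refine ⟨φ, hφ, h, hh, hlim, fun hn z hz => ?_⟩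
  have ht : Tendsto (fun i => (S.F ^ (n (φ i))) (Γ z)) atTop (𝓝 (h z)) :=
    hlim.tendsto_at hz
  constructor
  · have h1 : Tendsto (fun i => S.P ((S.F ^ (n (φ i))) (Γ z))) atTop (𝓝 (S.P (h z))) :=
      (S.cP.tendsto _).comp ht
    have h2 : ∀ i, S.P ((S.F ^ (n (φ i))) (Γ z)) = 0 := by
      intro i
      rw [S.P_pow, h0 z hz, mul_zero]
    simp only [h2] at h1
    exact (tendsto_nhds_unique h1 tendsto_const_nhds)
  · exact S.M_lim (x := fun _ => Γ z) (n := fun i => n (φ i)) (hn.comp hφ.tendsto_atTop)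
      (c := S.M (Γ z)) (fun _ => le_rfl) ht

end Pool.Agent.HQ
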