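import Pool.Agent.HQ.Defs
import Pool.Agent.HQ.Bas
import Pool.Agent.HQ.C21
import Pool.Agent.HQ.LimD

/-!
# HQ module StayA: discs in K+ touching a stable manifold stay in it
-/

set_option autoImplicit false

open Filter Topology Set Metric

namespace Pool.Agent.HQ

/-- convergence along the multiples of the period -/
theorem StayA_of_Ws (S : Sys) {q x : E} {k : ℕ} (hk : 0 < k) (hkq : (S.F ^ k) q = q)
    (hx : x ∈ Ws S.F q) : Tendsto (fun n : ℕ => (S.F ^ (k * n)) x) atTop (𝓝 q) := by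
  have hk' : Tendsto (fun n : ℕ => k * n) atTop atTop :=
    Filter.tendsto_id.const_mul_atTop' hk
  have h1 : Tendsto (fun n : ℕ => dist ((S.F ^ (k * n)) x) ((S.F ^ (k * n)) q)) atTop (𝓝 0) :=
    Tendsto.comp hx hk'
  rw [tendsto_iff_dist_tendsto_zero]
  refine h1.congr fun n => ?_
  rw [S.per_mul hkq n]

/-- the converse -/
theorem StayA_to_Ws (S : Sys) {q x : E} {k : ℕ} (hk : 0 < k) (hkq : (S.F ^ k) q = q)
    (hx : Tendsto (fun n : ℕ => (S.F ^ (k * n)) x) atTop (𝓝 q)) : x ∈ Ws S.F q := by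
  change Tendsto (fun n : ℕ => dist ((S.F ^ n) x) ((S.F ^ n) q)) atTop (𝓝 0)
  rw [Metric.tendsto_atTop]
  intro ε hε
  have h1 : ∀ j ∈ Finset.range k, ∀ᶠ n : ℕ in atTop,
      dist ((S.F ^ j) ((S.F ^ (k * n)) x)) ((S.F ^ j) q) < ε := by
    intro j _
    have h2 : Tendsto (fun n : ℕ => (S.F ^ j) ((S.F ^ (k * n)) x)) atTop (𝓝 ((S.F ^ j) q)) :=
      ((S.diff_pow j).continuous.tendsto q).comp hx
    exact h2 (ball_mem_nhds _ hε)
  have h2 : ∀ᶠ n : ℕ in atTop, ∀ j ∈ Finset.range k,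
      dist ((S.F ^ j) ((S.F ^ (k * n)) x)) ((S.F ^ j) q) < ε :=
    (Filter.eventually_all_finset _).2 h1
  obtain ⟨N, hN⟩ := eventually_atTop.1 h2
  refine ⟨k * N, fun m hm => ?_⟩
  have h3 : N ≤ m / k := by
    rw [Nat.le_div_iff_mul_le hk, mul_comm]
    exact hm
  have h4 := hN (m / k) h3 (m % k) (Finset.mem_range.2 (Nat.mod_lt m hk))
  have h5 : m = m % k + k * (m / k) := (Nat.mod_add_div m k).symm
  have h6 : ∀ y : E, (S.F ^ m) y = (S.F ^ (m % k)) ((S.F ^ (k * (m / k))) y) := by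
    intro y
    rw [← Equiv.Perm.mul_apply, ← pow_add, ← h5]
  rw [h6 x, h6 q, S.per_mul hkq (m / k), Real.dist_eq, sub_zero, abs_of_nonneg dist_nonneg]
  exact h4

theorem stay_s (S : Sys) {D : Set ℂ} (hD : IsOpen D) (hc : IsPreconnected D) {Γ : ℂ → E}
    (hΓ : DifferentiableOn ℂ Γ D) (hP : ∀ s ∈ D, S.P (Γ s) = 0) {q : E} (hq : q ∈ Sad S.F)
    {s₀ : ℂ} (hs₀ : s₀ ∈ D) (h0 : Γ s₀ ∈ Ws S.F q) : ∀ s ∈ D, Γ s ∈ Ws S.F q := by
  intro s hs
  obtain ⟨k, hk, hkq, -⟩ := id hq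
  refine StayA_to_Ws S hk hkq ?_
  refine tendsto_of_subseq_tendsto fun ns hns => ?_
  obtain ⟨φ, hφ, h, hh, hlim, hK⟩ := lim_disc S hD hΓ hP (fun i => k * ns i)
  have hn : Tendsto (fun i => k * ns i) atTop atTop := hns.const_mul_atTop' hk
  refine ⟨φ, ?_⟩
  have hpt : ∀ z ∈ D, Tendsto (fun i => (S.F ^ (k * ns (φ i))) (Γ z)) atTop (𝓝 (h z)) :=
    fun z hz => hlim.tendsto_at hz
  have h1 : h s₀ = q := by
    refine tendsto_nhds_unique (hpt s₀ hs₀) ?_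
    exact (StayA_of_Ws S hk hkq h0).comp (hns.comp hφ.tendsto_atTop)
  obtain ⟨r, hr, hrD⟩ := Metric.isOpen_iff.1 hD s₀ hs₀
  have h2 := const_at_saddle S hq hr (hh.mono hrD) (fun z hz => (hK hn z (hrD hz)).1)
    (fun z hz => (hK hn z (hrD hz)).2) h1
  have h3 : EqOn h (fun _ => q) D := by
    refine AnalyticOnNhd.eqOn_of_preconnected_of_eventuallyEq (hh.analyticOnNhd hD)
      (fun z _ => analyticAt_const) hc hs₀ ?_
    filter_upwards [ball_mem_nhds s₀ hr] with z hz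
    exact h2 z hz
  have h4 := hpt s hs
  rw [h3 hs] at h4
  exact h4

theorem stay_u (S : Sys) {D : Set ℂ} (hD : IsOpen D) (hc : IsPreconnected D) {Γ : ℂ → E}
    (hΓ : DifferentiableOn ℂ Γ D) (hM : ∀ s ∈ D, S.M (Γ s) = 0) {q : E} (hq : q ∈ Sad S.F)
    {s₀ : ℂ} (hs₀ : s₀ ∈ D) (h0 : Γ s₀ ∈ Wu S.F q) : ∀ s ∈ D, Γ s ∈ Wu S.F q := by
  have hq' : q ∈ Sad S.dual.F := by rw [Sys.dual_F, Sad_inv S.dF S.dG]; exact hq
  exact stay_s S.dual hD hc hΓ hM hq' hs₀ h0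

end Pool.Agent.HQ
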