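import Pool.Agent.HQ.Defs
import Pool.Agent.HQ.Bas
import Pool.Agent.HQ.IP
import Pool.Agent.HQ.C21
import Pool.Agent.HQ.StayA
import Pool.Agent.HQ.UBas
import Pool.Agent.HQ.GrF
import Pool.Agent.HQ.Surj

/-!
# HQ module B26: discs in K through the closure of the saddles are constant
-/

set_option autoImplicit false

open Filter Topology Set Metric

namespace Pool.Agent.HQ

theorem discB (Q : QS) {D : Set ℂ} (hD : IsOpen D) (hc : IsPreconnected D) {Γ : ℂ → E}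
    (hΓ : DifferentiableOn ℂ Γ D) (hP : ∀ s ∈ D, Q.P (Γ s) = 0) (hM : ∀ s ∈ D, Q.M (Γ s) = 0)
    {s₀ : ℂ} (hs₀ : s₀ ∈ D) (h0 : Γ s₀ ∈ closure (Sad Q.F)) : ∀ s ∈ D, Γ s = Γ s₀ := by
  by_contra hcon
  push Not at hcon
  obtain ⟨s, hs, hne⟩ := hcon
  have hnc : NC Γ s₀ := nc_of_conn hD hc hΓ ⟨s, hs, s₀, hs₀, hne⟩ hs₀
  obtain ⟨p, hp, ξ, hξ, hξ0, hlim⟩ := U_center Q h0
  obtain ⟨ε, hε, hεD⟩ := Metric.isOpen_iff.1 hD s₀ hs₀
  have hip := ip (Γ := Γ) (g := ξ) (gs := fun n => Q.Xu (p n)) (s₀ := s₀) (z₀ := 0) hD hs₀ hΓ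
    hnc isOpen_univ (mem_univ _) (fun n => (Q.hu (p n) (hp n)).diff.differentiableOn)
    (tendstoLocallyUniformlyOn_univ.2 hlim) hξ0
  rcases hip with ha | hb
  · obtain ⟨r, hr, hr1⟩ := ha ε hε
    obtain ⟨z, hz, hz1⟩ := U_pos Q hξ hr
    obtain ⟨t, ht, ht1⟩ := hr1 z hz
    rw [← ht1, hP t (hεD ht)] at hz1
    exact lt_irrefl _ hz1
  · obtain ⟨N, hN⟩ := eventually_atTop.1 (hb ε hε)
    have hW : ∀ i, N ≤ i → Γ s₀ ∈ Wu Q.F (p i) := by
      intro i hi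
      obtain ⟨z, -, t, ht, hzt⟩ := hN i hi
      have h1 : Γ t ∈ Wu Q.F (p i) := by
        rw [← (Q.hu (p i) (hp i)).range, ← hzt]
        exact mem_range_self z
      exact stay_u Q.toSys hD hc hΓ hM (hp i) (hεD ht) h1 s₀ hs₀
    have hpc : ∀ i, N ≤ i → p i = p N := by
      intro i hi
      exact Q.toSys.Wu_disj (hp i) (hp N) (hW i hi) (hW N le_rfl)
    have h1 : Tendsto (fun n => Q.Xu (p n) 0) atTop (𝓝 (ξ 0)) :=
      (tendstoLocallyUniformlyOn_univ.2 hlim).tendsto_at (mem_univ _)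
    have h2 : Tendsto (fun n => Q.Xu (p n) 0) atTop (𝓝 (p N)) := by
      refine tendsto_const_nhds.congr' ?_
      filter_upwards [eventually_ge_atTop N] with i hi
      rw [(Q.hu (p i) (hp i)).zero, hpc i hi]
    have h3 : Γ s₀ = p N := by
      rw [← hξ0]
      exact tendsto_nhds_unique h1 h2
    have h4 := const_at_saddle Q.toSys (hp N) hε (hΓ.mono hεD) (fun t ht => hP t (hεD ht))
      (fun t ht => hM t (hεD ht)) h3
    refine hnc ?_
    filter_upwards [ball_mem_nhds s₀ hε] with t ht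
    rw [h3, h4 t ht]
    exact fun h => h rfl

end Pool.Agent.HQ
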