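import Pool.Agent.HQ.Defs
import Pool.Agent.HQ.Bas
import Pool.Agent.HQ.DHb
import Pool.Agent.HQ.B26
import Pool.Agent.HQ.Surj

/-!
# HQ module C27: nonconstant discs in K lie in the interior of K+
-/

set_option autoImplicit false

open Filter Topology Set Metric

namespace Pool.Agent.HQ

theorem discC (Q : QS) (h5 : Q.H5) {D : Set ℂ} (hD : IsOpen D) (hc : IsPreconnected D)
    {Γ : ℂ → E} (hΓ : DifferentiableOn ℂ Γ D) (hP : ∀ s ∈ D, Q.P (Γ s) = 0)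
    (hM : ∀ s ∈ D, Q.M (Γ s) = 0) (hnc : ∃ s ∈ D, ∃ s' ∈ D, Γ s ≠ Γ s') :
    ∀ s ∈ D, Γ s ∈ interior Q.Kp := by
  intro s hs
  by_contra hcon
  have h1 := h5 (Γ s) (hP s hs) (hM s hs) hcon
  have h2 := discB Q hD hc hΓ hP hM hs h1
  obtain ⟨a, ha, b, hb, hab⟩ := hnc
  exact hab ((h2 a ha).trans (h2 b hb).symm)

theorem dhC (Q : QS) (h5 : Q.H5) {W : Set E} (hW : IsOpen W) (hc : IsPreconnected W)
    {g : E → E} (hg : DH W g) (hP : ∀ x ∈ W, Q.P (g x) = 0) (hM : ∀ x ∈ W, Q.M (g x) = 0)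
    (hnc : ∃ x ∈ W, ∃ y ∈ W, g x ≠ g y) : ∀ x ∈ W, g x ∈ interior Q.Kp := by
  intro x hx
  obtain ⟨v, _, hv⟩ := dh_dir hW hc hg hnc hx
  have hγ : Differentiable ℂ (fun t : ℂ => x + t • v) :=
    (differentiable_id.smul_const v).const_add x
  have hopen : IsOpen ((fun t : ℂ => x + t • v) ⁻¹' W) := hW.preimage hγ.continuous
  have h0 : (0 : ℂ) ∈ (fun t : ℂ => x + t • v) ⁻¹' W := by
    show x + (0 : ℂ) • v ∈ W
    rw [zero_smul, add_zero]
    exact hx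
  obtain ⟨r, hr, hrW⟩ := Metric.isOpen_iff.1 hopen 0 h0
  have hmaps : MapsTo (fun t : ℂ => x + t • v) (ball (0 : ℂ) r) W := fun t ht => hrW ht
  have hdiff : DifferentiableOn ℂ (fun t : ℂ => g (x + t • v)) (ball (0 : ℂ) r) :=
    hg.2 (fun t : ℂ => x + t • v) (ball (0 : ℂ) r) isOpen_ball hγ.differentiableOn hmaps
  have hmem : (0 : ℂ) ∈ ball (0 : ℂ) r := mem_ball_self hr
  have hne : ∃ s ∈ ball (0 : ℂ) r, ∃ s' ∈ ball (0 : ℂ) r,
      g (x + s • v) ≠ g (x + s' • v) := by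
    obtain ⟨z, hz1, hz2⟩ := (Filter.Frequently.and_eventually hv (ball_mem_nhds (0 : ℂ) hr)).exists
    exact ⟨z, hz2, 0, hmem, hz1⟩
  have h1 := discC Q h5 isOpen_ball (convex_ball (0 : ℂ) r).isPreconnected hdiff
    (fun s hs => hP _ (hmaps hs)) (fun s hs => hM _ (hmaps hs)) hne 0 hmem
  simp only [zero_smul, add_zero] at h1
  exact h1

end Pool.Agent.HQ
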