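import Pool.Agent.HQ.Defs
import Pool.Agent.HQ.Bas

/-!
# HQ module Cmp: components of the interior of K+
-/

set_option autoImplicit false

open Filter Topology Set Metric

namespace Pool.Agent.HQ

namespace Sys

variable {S : Sys} {Ω Ω' : Set E}

theorem IsComp.isOpen (h : S.IsComp Ω) : IsOpen Ω := by
  obtain ⟨x, -, rfl⟩ := h
  exact isOpen_interior.connectedComponentIn

theorem IsComp.conn (h : S.IsComp Ω) : IsPreconnected Ω := by
  obtain ⟨x, -, rfl⟩ := h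
  exact isPreconnected_connectedComponentIn

theorem IsComp.sub (h : S.IsComp Ω) : Ω ⊆ interior S.Kp := by
  obtain ⟨x, -, rfl⟩ := h
  exact connectedComponentIn_subset _ _

theorem IsComp.nonempty (h : S.IsComp Ω) : Ω.Nonempty := by
  obtain ⟨x, hx, rfl⟩ := h
  exact ⟨x, mem_connectedComponentIn hx⟩

theorem IsComp.eq_of_mem (h : S.IsComp Ω) (h' : S.IsComp Ω') {x : E} (hx : x ∈ Ω)
    (hx' : x ∈ Ω') : Ω = Ω' := by
  obtain ⟨y, -, rfl⟩ := h
  obtain ⟨y', -, rfl⟩ := h'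
  rw [connectedComponentIn_eq hx, connectedComponentIn_eq hx']

theorem exists_comp {x : E} (hx : x ∈ interior S.Kp) : ∃ Ω, S.IsComp Ω ∧ x ∈ Ω :=
  ⟨_, ⟨x, hx, rfl⟩, mem_connectedComponentIn hx⟩

theorem Cmp_image_int (n : ℤ) : (S.homeo n) '' interior S.Kp = interior S.Kp := by
  ext y
  constructor
  · rintro ⟨x, hx, rfl⟩
    exact (S.mem_int_Kp n x).2 hx
  · intro hy
    refine ⟨(S.homeo n).symm y, ?_, (S.homeo n).apply_symm_apply y⟩
    rw [← S.mem_int_Kp n]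
    have h : (S.F ^ n) ((S.homeo n).symm y) = y := (S.homeo n).apply_symm_apply y
    rw [h]
    exact hy

theorem IsComp.image (h : S.IsComp Ω) (n : ℤ) : S.IsComp ((S.F ^ n) '' Ω) := by
  obtain ⟨x, hx, rfl⟩ := h
  refine ⟨(S.F ^ n) x, (S.mem_int_Kp n x).2 hx, ?_⟩
  have h1 := (S.homeo n).image_connectedComponentIn hx
  rw [Cmp_image_int] at h1
  exact h1

theorem IsComp.of_conn (h : S.IsComp Ω) {A : Set E} (hA : IsPreconnected A)
    (hAK : A ⊆ interior S.Kp) {x : E} (hx : x ∈ A) (hx' : x ∈ Ω) : A ⊆ Ω := by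
  obtain ⟨y, hy, rfl⟩ := h
  rw [connectedComponentIn_eq hx']
  exact hA.subset_connectedComponentIn hx hAK

theorem IsComp.closure_inter (h : S.IsComp Ω) {x : E} (hx : x ∈ closure Ω)
    (hx' : x ∈ interior S.Kp) : x ∈ Ω := by
  obtain ⟨Ω', h', hm⟩ := exists_comp hx'
  obtain ⟨y, hy1, hy2⟩ := mem_closure_iff.1 hx Ω' h'.isOpen hm
  rw [h.eq_of_mem h' hy2 hy1]
  exact hm

/-- finitely many components meet a compact subset of the interior -/
theorem comp_fin_of_compact {K : Set E} (hK : IsCompact K) (hKi : K ⊆ interior S.Kp) :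
    {Ω : Set E | S.IsComp Ω ∧ (Ω ∩ K).Nonempty}.Finite := by
  obtain ⟨t, ht⟩ := hK.elim_finite_subcover (fun i : {Ω : Set E // S.IsComp Ω} => i.1)
    (fun i => i.2.isOpen) (fun x hx => by
      obtain ⟨Ω, h, hm⟩ := exists_comp (hKi hx)
      exact mem_iUnion.2 ⟨⟨Ω, h⟩, hm⟩)
  refine (t.finite_toSet.image (fun i : {Ω : Set E // S.IsComp Ω} => i.1)).subset ?_
  rintro Ω ⟨h, x, hx1, hx2⟩
  obtain ⟨i, hi, hxi⟩ := mem_iUnion₂.1 (ht hx2)
  exact ⟨i, hi, i.2.eq_of_mem h hxi hx1⟩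

/-- a nearest boundary point and a complex line through it with a tangent disc in `Ω` -/
theorem IsComp.tangent (h : S.IsComp Ω) : ∃ (b v : E) (ρ : ℝ), 0 < ρ ∧ S.P b = 0 ∧
    b ∉ interior S.Kp ∧ ∀ t ∈ ball (ρ : ℂ) ρ, b + t • v ∈ Ω := by
  obtain ⟨x0, hx0⟩ := h.nonempty
  have hne : (Ωᶜ).Nonempty := by
    obtain ⟨x, hx⟩ := S.neP
    refine ⟨x, fun hxm => ?_⟩
    have h0 : x ∈ S.Kp := interior_subset (h.sub hxm)
    have h1 : S.P x = 0 := h0
    exact absurd h1 hx.ne'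
  have hcl : IsClosed (Ωᶜ) := h.isOpen.isClosed_compl
  obtain ⟨b, hb, hdist⟩ := hcl.exists_infDist_eq_dist hne x0
  have hρ : 0 < dist x0 b := by
    rw [dist_pos]
    rintro rfl
    exact hb hx0
  have hball : ball x0 (dist x0 b) ⊆ Ω := by
    intro y hy
    by_contra hy'
    have h1 : infDist x0 (Ωᶜ) ≤ dist x0 y := infDist_le_dist_of_mem hy'
    rw [hdist, dist_comm x0 y] at h1
    exact absurd (mem_ball.1 hy) (not_lt.2 h1)
  have hbc : b ∈ closure Ω := by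
    refine closure_mono hball ?_
    rw [closure_ball x0 hρ.ne']
    rw [mem_closedBall, dist_comm]
  have hbK : S.P b = 0 :=
    closure_minimal (h.sub.trans interior_subset) S.isClosed_Kp hbc
  refine ⟨b, ((dist x0 b : ℝ) : ℂ)⁻¹ • (x0 - b), dist x0 b, hρ, hbK,
    fun hbi => hb (h.closure_inter hbc hbi), fun t ht => hball ?_⟩
  have hρc : ((dist x0 b : ℝ) : ℂ) ≠ 0 := by
    exact_mod_cast hρ.ne'
  have e : b + t • (((dist x0 b : ℝ) : ℂ)⁻¹ • (x0 - b)) - x0 =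
      ((t - (dist x0 b : ℝ)) * ((dist x0 b : ℝ) : ℂ)⁻¹) • (x0 - b) := by
    rw [sub_mul, mul_inv_cancel₀ hρc, sub_smul, one_smul, smul_smul]
    abel
  rw [mem_ball, dist_eq_norm, e, norm_smul, norm_mul, norm_inv]
  have hn : ‖((dist x0 b : ℝ) : ℂ)‖ = dist x0 b := by
    rw [Complex.norm_real, Real.norm_of_nonneg hρ.le]
  rw [hn, ← dist_eq_norm x0 b, mul_assoc, inv_mul_cancel₀ hρ.ne', mul_one]
  rw [mem_ball, dist_eq_norm] at ht
  exact ht

end Sys

end Pool.Agent.HQ
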