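import Pool.Agent.HQ.Defs
import Pool.Agent.HQ.Bas
import Pool.Agent.HQ.StayA
import Pool.Agent.HQ.Surj

/-!
# HQ module Fr23: stable manifolds do not meet the interior of K+
-/

set_option autoImplicit false

open Filter Topology Set Metric

namespace Pool.Agent.HQ

theorem Fr23_Xs_range (Q : QS) {q : E} (hq : q ∈ Sad Q.F) : Set.range (Q.Xs q) = Ws Q.F q := by
  have h := (Q.hs q hq).range
  rwa [Wu, inv_inv] at h

theorem Fr23_P0 (Q : QS) {y : E} (hy : y ∈ interior Q.Kp) : Q.P y = 0 := by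
  have h : y ∈ Q.Kp := interior_subset hy
  exact h

theorem Ws_not_int (Q : QS) {q x : E} (hq : q ∈ Sad Q.F) (hx : x ∈ Ws Q.F q) :
    x ∉ interior Q.Kp := by
  intro hi
  obtain ⟨r, hr, hball⟩ := Metric.isOpen_iff.1 isOpen_interior x hi
  have key : ball x r ⊆ Set.range (Q.Xs q) := by
    intro y hy
    rw [Fr23_Xs_range Q hq]
    let γ : ℂ → E := fun s => x + s • (y - x)
    have hγ : Differentiable ℂ γ := fun s =>
      (differentiableAt_id.smul_const (y - x)).const_add x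
    have hD : IsOpen (γ ⁻¹' ball x r) := isOpen_ball.preimage hγ.continuous
    have hconv : Convex ℝ (γ ⁻¹' ball x r) := by
      intro s hs t ht a b ha hb hab
      have h1 : γ (a • s + b • t) = a • γ s + b • γ t := by
        change x + (a • s + b • t) • (y - x) = a • (x + s • (y - x)) + b • (x + t • (y - x))
        have h2 : a • x + b • x = x := by rw [← add_smul, hab, one_smul]
        rw [add_smul, smul_assoc, smul_assoc, smul_add, smul_add, add_add_add_comm, h2]
      change γ (a • s + b • t) ∈ ball x r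
      rw [h1]
      exact convex_ball x r hs ht ha hb hab
    have h0 : γ 0 = x := by
      change x + (0 : ℂ) • (y - x) = x
      rw [zero_smul, add_zero]
    have h1 : γ 1 = y := by
      change x + (1 : ℂ) • (y - x) = y
      rw [one_smul, add_sub_cancel]
    have h0m : (0 : ℂ) ∈ γ ⁻¹' ball x r := by
      rw [mem_preimage, h0]
      exact mem_ball_self hr
    have h1m : (1 : ℂ) ∈ γ ⁻¹' ball x r := by
      rw [mem_preimage, h1]
      exact hy
    have hst := stay_s Q.toSys hD hconv.isPreconnected hγ.differentiableOn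
      (fun s hs => Fr23_P0 Q (hball hs)) hq h0m (by rw [h0]; exact hx) 1 h1m
    rwa [h1] at hst
  have hdiff : Differentiable ℂ (Q.Xs q) := (Q.hs q hq).diff
  have h3 : x ∈ interior (Set.range (Q.Xs q)) :=
    interior_maximal key isOpen_ball (mem_ball_self hr)
  rw [range_interior hdiff] at h3
  exact h3

theorem Wu_not_int (Q : QS) {q x : E} (hq : q ∈ Sad Q.F) (hx : x ∈ Wu Q.F q) :
    x ∉ interior Q.Km := by
  have h := Ws_not_int Q.dual (q := q) (x := x) (by rw [Q.dual_Sad]; exact hq) hx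
  exact h

theorem Us_P (Q : QS) {σ : ℂ → E} (hσ : σ ∈ Q.Us) (w : ℂ) : Q.P (σ w) = 0 := by
  obtain ⟨p, hp, hlim⟩ := hσ
  have h1 : Tendsto (fun n => Q.Xs (p n) w) atTop (𝓝 (σ w)) := (tendstoLocallyUniformlyOn_univ.2 hlim).tendsto_at (mem_univ w)
  have h2 : Tendsto (fun n => Q.P (Q.Xs (p n) w)) atTop (𝓝 (Q.P (σ w))) :=
    (Q.cP.tendsto _).comp h1
  have h3 : ∀ n, Q.P (Q.Xs (p n) w) = 0 := by
    intro n
    refine Q.toSys.Ws_P (hp n) ?_
    rw [← Fr23_Xs_range Q (hp n)]
    exact mem_range_self w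
  simp only [h3] at h2
  exact (tendsto_nhds_unique h2 tendsto_const_nhds)

theorem Us_not_int (Q : QS) {σ : ℂ → E} (hσ : σ ∈ Q.Us) (w : ℂ) : σ w ∉ interior Q.Kp := by
  intro hi
  obtain ⟨p, hp, hlim⟩ := hσ
  have h1 : Tendsto (fun n => Q.Xs (p n) w) atTop (𝓝 (σ w)) := (tendstoLocallyUniformlyOn_univ.2 hlim).tendsto_at (mem_univ w)
  have h2 : ∀ᶠ n in atTop, Q.Xs (p n) w ∈ interior Q.Kp := h1 (isOpen_interior.mem_nhds hi)
  obtain ⟨n, hn⟩ := h2.exists
  refine Ws_not_int Q (hp n) ?_ hn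
  rw [← Fr23_Xs_range Q (hp n)]
  exact mem_range_self w

theorem U_M (Q : QS) {ξ : ℂ → E} (hξ : ξ ∈ Q.U) (w : ℂ) : Q.M (ξ w) = 0 := by
  have h := Us_P Q.dual (σ := ξ) (by rw [Q.dual_Us]; exact hξ) w
  exact h

theorem U_not_int (Q : QS) {ξ : ℂ → E} (hξ : ξ ∈ Q.U) (w : ℂ) : ξ w ∉ interior Q.Km := by
  have h := Us_not_int Q.dual (σ := ξ) (by rw [Q.dual_Us]; exact hξ) w
  exact h

theorem clSad_not_int_p (Q : QS) {x : E} (hx : x ∈ closure (Sad Q.F)) :
    x ∉ interior Q.Kp := by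
  intro hi
  obtain ⟨p, hp1, hp2⟩ := mem_closure_iff.1 hx _ isOpen_interior hi
  exact Ws_not_int Q hp2 (Q.toSys.self_mem_Ws p) hp1

theorem clSad_not_int_m (Q : QS) {x : E} (hx : x ∈ closure (Sad Q.F)) :
    x ∉ interior Q.Km := by
  have h := clSad_not_int_p Q.dual (x := x) (by rw [Q.dual_Sad]; exact hx)
  exact h

end Pool.Agent.HQ
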