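import Pool.Agent.HQ.Defs
import Pool.Agent.HQ.Bas
import Pool.Agent.HQ.UBas
import Pool.Agent.HQ.C27
import Pool.Agent.HQ.Fr23

/-!
# HQ module K41: the thick part is compact and in the interior of K+
-/

set_option autoImplicit false

open Filter Topology Set Metric

namespace Pool.Agent.HQ

theorem Kc_compact (Q : QS) {Λ : ℝ} (hΛ : 0 < Λ) (N : ℕ) : IsCompact (Q.Kc Λ N) := by
  apply IsSeqCompact.isCompact
  intro x hx
  choose ξ hξ u hu1 hu2 hxu hP using hx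
  obtain ⟨φ, hφ, η, hη, hlim⟩ := U_seq Q hξ
  have hcomp : IsCompact (closedBall (0 : ℂ) 1) := isCompact_closedBall 0 1
  obtain ⟨w, hw, ψ, hψ, hlim2⟩ := hcomp.tendsto_subseq (x := fun n => u (φ n))
    (fun n => by rw [mem_closedBall_zero_iff]; exact hu2 _)
  have hψ' : Tendsto ψ atTop atTop := hψ.tendsto_atTop
  have hlim2' : Tendsto (fun n => u (φ (ψ n))) atTop (𝓝 w) := hlim2
  have hlim3 : TendstoLocallyUniformly (fun n => ξ (φ (ψ n))) η atTop := by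
    intro s hs z
    obtain ⟨t, ht, h1⟩ := hlim s hs z
    exact ⟨t, ht, hψ'.eventually h1⟩
  have hηc : Continuous η := (U_diff Q hη).continuous
  have hn : Tendsto (fun n => ‖u (φ (ψ n))‖) atTop (𝓝 ‖w‖) := hlim2'.norm
  have hw1 : 1 / Λ ≤ ‖w‖ := ge_of_tendsto' hn fun n => hu1 _
  have hw2 : ‖w‖ ≤ 1 := le_of_tendsto' hn fun n => hu2 _
  refine ⟨η w, ⟨η, hη, w, hw1, hw2, rfl, ?_⟩, φ ∘ ψ, hφ.comp hψ, ?_⟩
  · intro v hv
    have h1 : Tendsto (fun n => ‖v - u (φ (ψ n))‖) atTop (𝓝 ‖v - w‖) :=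
      (tendsto_const_nhds.sub hlim2').norm
    have h2 : Tendsto (fun n => (1 / 3 : ℝ) ^ N * ‖u (φ (ψ n))‖) atTop
        (𝓝 ((1 / 3 : ℝ) ^ N * ‖w‖)) := tendsto_const_nhds.mul hn
    have h3 := h1.eventually_lt h2 hv
    have h4 : ∀ᶠ n in atTop, Q.P (ξ (φ (ψ n)) v) = 0 := h3.mono fun n hn => hP _ v hn
    have h5 : Tendsto (fun n => Q.P (ξ (φ (ψ n)) v)) atTop (𝓝 (Q.P (η v))) :=
      (Q.cP.tendsto _).comp ((tendstoLocallyUniformlyOn_univ.2 hlim3).tendsto_at (mem_univ v))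
    exact tendsto_nhds_unique h5 (tendsto_const_nhds.congr' (h4.mono fun n hn => hn.symm))
  · have h1 : Tendsto (fun n => ξ (φ (ψ n)) (u (φ (ψ n)))) atTop (𝓝 (η w)) :=
      hlim3.tendsto_comp hηc.continuousAt hlim2'
    refine h1.congr fun n => ?_
    exact (hxu _).symm

theorem Kc_int (Q : QS) (h5 : Q.H5) {Λ : ℝ} (hΛ : 0 < Λ) (N : ℕ) :
    Q.Kc Λ N ⊆ interior Q.Kp := by
  rintro x ⟨ξ, hξ, u, hu1, hu2, rfl, hP⟩
  have hupos : 0 < ‖u‖ := lt_of_lt_of_le (by positivity) hu1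
  have hr : 0 < (1 / 3 : ℝ) ^ N * ‖u‖ := by positivity
  have hnc : NC ξ u := nc_of_entire (U_diff Q hξ) (U_ne Q hξ) u
  obtain ⟨z, hz1, hz2⟩ := Metric.nhds_basis_ball.frequently_iff.1 hnc _ hr
  refine discC Q h5 isOpen_ball (convex_ball u _).isPreconnected
    (U_diff Q hξ).differentiableOn (fun s hs => hP s ?_) (fun s _ => U_M0 Q hξ s)
    ⟨z, hz1, u, mem_ball_self hr, hz2⟩ u (mem_ball_self hr)
  rwa [mem_ball, dist_eq_norm] at hs

end Pool.Agent.HQ
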