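import Pool.Agent.HQ.Defs

/-!
# HQ module MinRoot: root of minimal modulus of a polynomial
-/

set_option autoImplicit false

open Filter Topology Set Metric

namespace Pool.Agent.HQ

theorem MinRoot_prod_le (s : Multiset ℂ) (v : ℂ) (h : ∀ a ∈ s, ‖v - a‖ ≤ 3 * ‖a‖) :
    (s.map fun a => ‖v - a‖).prod ≤ 3 ^ Multiset.card s * (s.map fun a => ‖a‖).prod := by
  induction s using Multiset.induction_on with
  | empty => simp
  | cons a s ih =>
    rw [Multiset.map_cons, Multiset.prod_cons, Multiset.map_cons, Multiset.prod_cons,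
      Multiset.card_cons]
    have h1 := h a (Multiset.mem_cons_self a s)
    have h2 := ih fun b hb => h b (Multiset.mem_cons_of_mem hb)
    have h3 : 0 ≤ (s.map fun a => ‖v - a‖).prod := by
      refine Multiset.prod_nonneg ?_
      intro x hx
      obtain ⟨b, _, rfl⟩ := Multiset.mem_map.1 hx
      exact norm_nonneg _
    calc ‖v - a‖ * (s.map fun a => ‖v - a‖).prod
        ≤ (3 * ‖a‖) * (3 ^ Multiset.card s * (s.map fun a => ‖a‖).prod) :=
          mul_le_mul h1 h2 h3 (by positivity)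
      _ = 3 ^ (Multiset.card s + 1) * (‖a‖ * (s.map fun a => ‖a‖).prod) := by
          rw [pow_succ]; ring

theorem MinRoot_norm_prod (s : Multiset ℂ) (v : ℂ) :
    ‖(s.map fun a => v - a).prod‖ = (s.map fun a => ‖v - a‖).prod := by
  induction s using Multiset.induction_on with
  | empty => simp
  | cons a s ih =>
    rw [Multiset.map_cons, Multiset.prod_cons, norm_mul, ih, Multiset.map_cons,
      Multiset.prod_cons]

theorem MinRoot_prod_pos (s : Multiset ℂ) (h : ∀ a ∈ s, a ≠ 0) :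
    0 < (s.map fun a => ‖a‖).prod := by
  induction s using Multiset.induction_on with
  | empty => simp
  | cons a s ih =>
    rw [Multiset.map_cons, Multiset.prod_cons]
    exact mul_pos (norm_pos_iff.2 (h a (Multiset.mem_cons_self a s)))
      (ih fun b hb => h b (Multiset.mem_cons_of_mem hb))

theorem min_root {N : ℕ} {τ : Polynomial ℂ} (hN : τ.natDegree ≤ N) (hdeg : 0 < τ.natDegree)
    {z₁ : ℂ} (hne : τ.eval 0 ≠ z₁) :
    ∃ u : ℂ, u ≠ 0 ∧ τ.eval u = z₁ ∧ (∀ u', τ.eval u' = z₁ → ‖u‖ ≤ ‖u'‖) ∧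
      ∀ v, ‖v - u‖ < (1 / 3) ^ N * ‖u‖ → ‖τ.eval v - z₁‖ < ‖τ.eval 0 - z₁‖ := by
  set q : Polynomial ℂ := τ - Polynomial.C z₁ with hq
  have hqd : q.natDegree = τ.natDegree := Polynomial.natDegree_sub_C
  have hq0 : q ≠ 0 := by
    intro h0
    rw [h0, Polynomial.natDegree_zero] at hqd
    omega
  have hev : ∀ v, q.eval v = τ.eval v - z₁ := by
    intro v
    simp [hq]
  have hsp : q.Splits := IsAlgClosed.splits q
  have hcard : Multiset.card q.roots = q.natDegree := by
    exact hsp.natDegree_eq_card_roots.symm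
  have hprod : ∀ v, q.eval v = q.leadingCoeff * (q.roots.map fun a => v - a).prod := by
    intro v
    have h1 := hsp.eq_prod_roots
    conv_lhs => rw [h1]
    rw [Polynomial.eval_mul, Polynomial.eval_C, Polynomial.eval_multiset_prod, Multiset.map_map]
    congr 2
    refine Multiset.map_congr rfl fun a _ => ?_
    simp
  -- a root of minimal modulus
  have hne' : q.roots.toFinset.Nonempty := by
    rw [Multiset.toFinset_nonempty]
    intro h0
    rw [h0, Multiset.card_zero] at hcard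
    omega
  obtain ⟨u, hu, hmin⟩ := Finset.exists_min_image q.roots.toFinset (fun a => ‖a‖) hne'
  rw [Multiset.mem_toFinset] at hu
  have hroot : ∀ a, a ∈ q.roots ↔ τ.eval a = z₁ := by
    intro a
    rw [Polynomial.mem_roots hq0, Polynomial.IsRoot.def, hev, sub_eq_zero]
  have hu1 : τ.eval u = z₁ := (hroot u).1 hu
  have ha0 : ∀ a ∈ q.roots, a ≠ 0 := by
    intro a ha h0
    rw [h0] at ha
    exact hne ((hroot 0).1 ha)
  have hmin' : ∀ a ∈ q.roots, ‖u‖ ≤ ‖a‖ := fun a ha => hmin a (Multiset.mem_toFinset.2 ha)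
  refine ⟨u, ha0 u hu, hu1, fun u' hu' => hmin' u' ((hroot u').2 hu'), ?_⟩
  intro v hv
  rw [← hev, ← hev, hprod v, hprod 0, norm_mul, norm_mul]
  have hlc : 0 < ‖q.leadingCoeff‖ := norm_pos_iff.2 (Polynomial.leadingCoeff_ne_zero.2 hq0)
  refine mul_lt_mul_of_pos_left ?_ hlc
  rw [MinRoot_norm_prod, MinRoot_norm_prod]
  obtain ⟨s, hs⟩ := Multiset.exists_cons_of_mem hu
  have hsub : ∀ a ∈ s, a ∈ q.roots := by
    intro a ha
    rw [hs]
    exact Multiset.mem_cons_of_mem ha
  have hsc : Multiset.card s + 1 = q.natDegree := by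
    rw [← hcard, hs, Multiset.card_cons]
  rw [hs, Multiset.map_cons, Multiset.prod_cons, Multiset.map_cons, Multiset.prod_cons]
  simp only [zero_sub, norm_neg]
  have hu0 : 0 < ‖u‖ := norm_pos_iff.2 (ha0 u hu)
  have h13 : ((1 : ℝ) / 3) ^ N ≤ 1 := pow_le_one₀ (by norm_num) (by norm_num)
  have hvn : ‖v‖ ≤ 2 * ‖u‖ := by
    have h1 : ‖v‖ ≤ ‖v - u‖ + ‖u‖ := by
      have := norm_add_le (v - u) u
      simpa using this
    have h2 : (1 / 3) ^ N * ‖u‖ ≤ 1 * ‖u‖ := by gcongr
    linarith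
  have hle := MinRoot_prod_le s v (by
    intro a ha
    have h1 := norm_sub_le v a
    have h2 := hmin' a (hsub a ha)
    linarith)
  have hpp := MinRoot_prod_pos s fun a ha => ha0 a (hsub a ha)
  calc ‖v - u‖ * (s.map fun a => ‖v - a‖).prod
      ≤ ‖v - u‖ * (3 ^ Multiset.card s * (s.map fun a => ‖a‖).prod) := by gcongr
    _ < ((1 / 3) ^ N * ‖u‖) * (3 ^ Multiset.card s * (s.map fun a => ‖a‖).prod) := by
        have : 0 < 3 ^ Multiset.card s * (s.map fun a => ‖a‖).prod := by positivity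
        exact mul_lt_mul_of_pos_right hv this
    _ = ((1 / 3) ^ N * 3 ^ Multiset.card s) * (‖u‖ * (s.map fun a => ‖a‖).prod) := by ring
    _ ≤ 1 * (‖u‖ * (s.map fun a => ‖a‖).prod) := by
        have h5 : ((1 : ℝ) / 3) ^ N * 3 ^ Multiset.card s ≤ 1 := by
          have h6 : (3 : ℝ) ^ Multiset.card s ≤ 3 ^ N :=
            pow_le_pow_right₀ (by norm_num) (by omega)
          calc ((1 : ℝ) / 3) ^ N * 3 ^ Multiset.card s ≤ (1 / 3) ^ N * 3 ^ N := by gcongr
            _ = 1 := by rw [← mul_pow]; norm_num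
        have h7 : 0 ≤ ‖u‖ * (s.map fun a => ‖a‖).prod := by positivity
        exact mul_le_mul_of_nonneg_right h5 h7
    _ = ‖u‖ * (s.map fun a => ‖a‖).prod := one_mul _

end Pool.Agent.HQ
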