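import Pool.Agent.HQ.Defs

/-!
# HQ module PolyG: entire functions of polynomial growth
-/

set_option autoImplicit false

open Filter Topology Set Metric

namespace Pool.Agent.HQ

theorem PolyG_deriv_zero {τ : ℂ → ℂ} (hτ : Differentiable ℂ τ) (N : ℕ) (C : ℝ)
    (h : ∀ v, ‖τ v‖ ≤ C * (1 + ‖v‖) ^ N) {k : ℕ} (hk : N < k) :
    iteratedDeriv k τ 0 = 0 := by
  have hC : 0 ≤ C := by
    have h0 := h 0
    simp only [norm_zero, add_zero, one_pow, mul_one] at h0
    exact (norm_nonneg _).trans h0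
  have hb : ∀ R : ℝ, 1 ≤ R → ‖iteratedDeriv k τ 0‖ ≤ (k.factorial * C * 2 ^ N) / R := by
    intro R hR
    have hR0 : 0 < R := by linarith
    have h1 := Complex.norm_iteratedDeriv_le_of_forall_mem_sphere_norm_le (c := 0) (R := R)
      (C := C * (1 + R) ^ N) (f := τ) k hR0 hτ.diffContOnCl (by
        intro z hz
        have hz' : ‖z‖ = R := by simpa using hz
        have := h z
        rwa [hz'] at this)
    refine h1.trans ?_
    rw [div_le_div_iff₀ (pow_pos hR0 k) hR0]
    have h2 : (1 + R) ^ N ≤ (2 * R) ^ N := pow_le_pow_left₀ (by linarith) (by linarith) N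
    have h3 : R ^ N * R ≤ R ^ k := by
      rw [← pow_succ]
      exact pow_le_pow_right₀ hR hk
    have hf : (0 : ℝ) ≤ k.factorial := Nat.cast_nonneg _
    calc (k.factorial : ℝ) * (C * (1 + R) ^ N) * R
        ≤ k.factorial * (C * (2 * R) ^ N) * R := by gcongr
      _ = k.factorial * C * 2 ^ N * (R ^ N * R) := by rw [mul_pow]; ring
      _ ≤ k.factorial * C * 2 ^ N * R ^ k := by
          gcongr
  have hlim : Tendsto (fun R : ℝ => (k.factorial * C * 2 ^ N) / R) atTop (𝓝 0) :=
    tendsto_const_nhds.div_atTop tendsto_id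
  have h4 : ‖iteratedDeriv k τ 0‖ ≤ 0 :=
    ge_of_tendsto hlim (by
      filter_upwards [eventually_ge_atTop 1] with R hR using hb R hR)
  exact norm_le_zero_iff.1 h4

theorem poly_of_growth {τ : ℂ → ℂ} (hτ : Differentiable ℂ τ) (N : ℕ) (C : ℝ)
    (h : ∀ v, ‖τ v‖ ≤ C * (1 + ‖v‖) ^ N) :
    ∃ p : Polynomial ℂ, p.natDegree ≤ N ∧ ∀ v, τ v = p.eval v := by
  refine ⟨∑ k ∈ Finset.range (N + 1),
    Polynomial.C (((k.factorial : ℂ))⁻¹ * iteratedDeriv k τ 0) * Polynomial.X ^ k, ?_, ?_⟩
  · refine Polynomial.natDegree_sum_le_of_forall_le _ _ fun k hk => ?_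
    refine (Polynomial.natDegree_C_mul_X_pow_le _ _).trans ?_
    have := Finset.mem_range.1 hk
    omega
  · intro v
    have h1 := Complex.hasSum_taylorSeries_of_entire hτ 0 v
    have h2 : HasSum (fun n : ℕ => ((n.factorial : ℂ))⁻¹ • (v - 0) ^ n • iteratedDeriv n τ 0)
        (∑ n ∈ Finset.range (N + 1),
          ((n.factorial : ℂ))⁻¹ • (v - 0) ^ n • iteratedDeriv n τ 0) := by
      refine hasSum_sum_of_ne_finset_zero fun n hn => ?_
      have : N < n := by
        have := Finset.mem_range.not.1 hn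
        omega
      rw [PolyG_deriv_zero hτ N C h this]
      simp
    rw [h1.unique h2, Polynomial.eval_finsetSum]
    refine Finset.sum_congr rfl fun k _ => ?_
    simp only [Polynomial.eval_mul, Polynomial.eval_C, Polynomial.eval_pow, Polynomial.eval_X,
      smul_eq_mul, sub_zero]
    ring

end Pool.Agent.HQ
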