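import Pool.Agent.HQ.Defs
import Pool.Agent.HQ.Bas
import Pool.Agent.HQ.IP
import Pool.Agent.HQ.StayA
import Pool.Agent.HQ.UBas
import Pool.Agent.HQ.Al29
import Pool.Agent.HQ.Surj

/-!
# HQ module G28: germs of limit curves through a common point
-/

set_option autoImplicit false

open Filter Topology Set Metric

namespace Pool.Agent.HQ

/-- an entire function which is not locally constant at `v` maps discs onto neighbourhoods -/
theorem G28_open {τ : ℂ → ℂ} (hτ : Differentiable ℂ τ) {v : ℂ} (hnc : NC τ v) {ε : ℝ}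
    (hε : 0 < ε) : ∃ r > 0, ball (τ v) r ⊆ τ '' ball v ε := by
  have ha : AnalyticAt ℂ τ v := hτ.analyticAt v
  rcases ha.eventually_constant_or_nhds_le_map_nhds with h | h
  · exact absurd (h.mono fun z hz => not_not.2 hz) hnc
  · have h1 : τ '' ball v ε ∈ 𝓝 (τ v) := h (image_mem_map (ball_mem_nhds v hε))
    exact Metric.mem_nhds_iff.1 h1

/-- the case of a common unstable manifold -/
theorem G28_same (Q : QS) {ξ₁ ξ₂ : ℂ → E} (h₂ : ξ₂ ∈ Q.U) {v₁ v₂ : ℂ}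
    (h : ξ₁ v₁ = ξ₂ v₂) {p : E} (hp : p ∈ Sad Q.F) (h₁ : ∀ z, ξ₁ z = Q.Xu p z)
    (hW : ∀ z, ξ₂ z ∈ Wu Q.F p) : Gm ξ₁ v₁ ξ₂ v₂ := by
  obtain ⟨τ, hτ, hτ1, hτ2⟩ := al Q hp h₂ hW
  have h3 : τ v₂ = v₁ := by
    apply (Q.hu p hp).inj
    rw [← hτ1, ← h₁, h]
  intro ε hε
  obtain ⟨r, hr, h4⟩ := G28_open hτ (nc_of_entire hτ hτ2 v₂) hε
  rw [h3] at h4
  refine ⟨r, hr, fun z hz => ?_⟩
  obtain ⟨s, hs, h5⟩ := h4 hz
  exact ⟨s, hs, by rw [hτ1, h5, h₁]⟩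

theorem germG (Q : QS) {ξ₁ ξ₂ : ℂ → E} (h₁ : ξ₁ ∈ Q.U) (h₂ : ξ₂ ∈ Q.U) {v₁ v₂ : ℂ}
    (h : ξ₁ v₁ = ξ₂ v₂) : Gm ξ₁ v₁ ξ₂ v₂ := by
  obtain ⟨p, hp, hlim⟩ := h₁
  have hd : Differentiable ℂ ξ₂ := U_diff Q h₂
  have hnc : NC ξ₂ v₂ := nc_of_entire hd (U_ne Q h₂) v₂
  rcases ip (Γ := ξ₂) (g := ξ₁) (gs := fun n => Q.Xu (p n)) (s₀ := v₂) (z₀ := v₁)
    isOpen_univ (mem_univ _) hd.differentiableOn hnc isOpen_univ (mem_univ _)
    (fun n => (Q.hu (p n) (hp n)).diff.differentiableOn)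
    (tendstoLocallyUniformlyOn_univ.2 hlim) h with h3 | h3
  · exact h3
  · have h4 : ∀ᶠ i in atTop, ∀ z, ξ₂ z ∈ Wu Q.F (p i) := by
      filter_upwards [h3 1 one_pos] with i hi z
      obtain ⟨z', -, s, -, h5⟩ := hi
      have h6 : ξ₂ s ∈ Wu Q.F (p i) := by
        rw [← h5, ← (Q.hu (p i) (hp i)).range]
        exact mem_range_self z'
      exact stay_u Q.toSys isOpen_univ isPreconnected_univ hd.differentiableOn
        (fun s _ => U_M0 Q h₂ s) (hp i) (mem_univ s) h6 z (mem_univ z)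
    obtain ⟨N, hN⟩ := eventually_atTop.1 h4
    have h5 : ∀ i, N ≤ i → p i = p N := fun i hi =>
      Q.toSys.Wu_disj (hp i) (hp N) (hN i hi 0) (hN N le_rfl 0)
    refine G28_same Q h₂ h (hp N) (fun z => ?_) (hN N le_rfl)
    have h6 : Tendsto (fun n => Q.Xu (p n) z) atTop (𝓝 (ξ₁ z)) :=
      (tendstoLocallyUniformlyOn_univ.2 hlim).tendsto_at (mem_univ z)
    have h7 : Tendsto (fun n => Q.Xu (p n) z) atTop (𝓝 (Q.Xu (p N) z)) := by
      refine tendsto_const_nhds.congr' ?_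
      filter_upwards [eventually_ge_atTop N] with i hi
      rw [h5 i hi]
    exact tendsto_nhds_unique h6 h7

end Pool.Agent.HQ
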