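import Pool.Agent.HQ.Defs
import Pool.Agent.HQ.Bas
import Pool.Agent.HQ.UBas
import Pool.Agent.HQ.GrF
import Pool.Agent.HQ.G28
import Pool.Agent.HQ.Gro

/-!
# HQ module R210: uniform overlap of limit curves with a common point
-/

set_option autoImplicit false

open Filter Topology Set Metric

namespace Pool.Agent.HQ

/-- crossing of the circle of radius `r` -/
theorem R210_cross (Q : QS) {ξ ξ' : ℂ → E} (hξ : ξ ∈ Q.U) (hξ' : ξ' ∈ Q.U) {z' v : ℂ}
    (hz' : ‖z'‖ ≤ 1) (h : ξ z' = ξ' 0) (hv : ξ' v ∉ ξ '' ball 0 2) {r : ℝ} (h1 : 1 < r)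
    (h2 : r < 2) : ∃ s ∈ Icc (0 : ℝ) 1, ∃ z : ℂ, ‖z‖ = r ∧ ξ' ((s : ℂ) * v) = ξ z := by
  by_contra hcon
  push Not at hcon
  have cξ : Continuous ξ := (U_diff Q hξ).continuous
  have cξ' : Continuous ξ' := (U_diff Q hξ').continuous
  have hf : Continuous (fun s : ℝ => ξ' ((s : ℂ) * v)) :=
    cξ'.comp (Complex.continuous_ofReal.mul continuous_const)
  set A : Set ℝ := {s : ℝ | ξ' ((s : ℂ) * v) ∈ ξ '' closedBall 0 r} with hA
  have hAc : IsClosed A :=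
    ((isCompact_closedBall (0 : ℂ) r).image cξ).isClosed.preimage hf
  have hint : ∀ s ∈ Icc (0 : ℝ) 1, s ∈ A → s ∈ interior A := by
    rintro s hs ⟨z, hz, hzs⟩
    rw [mem_closedBall, dist_zero_right] at hz
    have hz' : ‖z‖ < r := lt_of_le_of_ne hz fun h0 => hcon s hs z h0 hzs.symm
    obtain ⟨ρ, hρ, hρ'⟩ := germG Q hξ' hξ hzs.symm (r - ‖z‖) (by linarith)
    rw [mem_interior_iff_mem_nhds]
    have hcont : Continuous (fun s : ℝ => (s : ℂ) * v) :=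
      Complex.continuous_ofReal.mul continuous_const
    have : ∀ᶠ t : ℝ in 𝓝 s, ((t : ℂ) * v) ∈ ball ((s : ℂ) * v) ρ :=
      hcont.continuousAt.eventually (ball_mem_nhds _ hρ)
    filter_upwards [this] with t ht
    obtain ⟨w, hw, hwt⟩ := hρ' _ ht
    refine ⟨w, ?_, hwt⟩
    rw [mem_ball] at hw
    rw [mem_closedBall, dist_zero_right]
    have h3 : ‖w‖ ≤ dist w z + ‖z‖ := by
      rw [dist_eq_norm]
      have := norm_add_le (w - z) z
      rwa [sub_add_cancel] at this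
    linarith
  obtain ⟨x, hx0, hx1, hx2⟩ := (isPreconnected_Icc (a := (0 : ℝ)) (b := 1)) _ _
    (isOpen_interior (s := A)) hAc.isOpen_compl
    (fun s hs => by
      by_cases h3 : s ∈ A
      · exact Or.inl (hint s hs h3)
      · exact Or.inr h3)
    ⟨0, ⟨le_rfl, zero_le_one⟩, hint 0 ⟨le_rfl, zero_le_one⟩ ⟨z', by
      rw [mem_closedBall, dist_zero_right]; linarith, by
      rw [h, Complex.ofReal_zero, zero_mul]⟩⟩
    ⟨1, ⟨zero_le_one, le_rfl⟩, fun h3 => by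
      obtain ⟨w, hw, hwt⟩ := h3
      rw [Complex.ofReal_one, one_mul] at hwt
      apply hv
      refine ⟨w, ?_, hwt⟩
      rw [mem_closedBall, dist_zero_right] at hw
      rw [mem_ball, dist_zero_right]
      linarith⟩
  exact hx2 (interior_subset hx1)

theorem R0 (Q : QS) : ∃ δ > 0, ∀ ξ ∈ Q.U, ∀ ξ' ∈ Q.U, ∀ z' : ℂ, ‖z'‖ ≤ 1 → ξ z' = ξ' 0 →
    ∀ v ∈ ball (0 : ℂ) δ, ξ' v ∈ ξ '' ball 0 2 := by
  by_contra hcon
  push Not at hcon
  choose! X hX X' hX' z' hz' hxz v hv hnot using fun n : ℕ =>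
    hcon (1 / ((n : ℝ) + 1)) (by positivity)
  -- subsequences
  obtain ⟨φ, hφ, η, hη, hlim⟩ := U_seq Q hX
  obtain ⟨ψ, hψ, η', hη', hlim'⟩ := U_seq Q (fun n => hX' (φ n))
  have hlim2 : TendstoLocallyUniformly (fun n => X (φ (ψ n))) η atTop := by
    intro u hu x
    obtain ⟨t, ht, h3⟩ := hlim u hu x
    exact ⟨t, ht, hψ.tendsto_atTop.eventually h3⟩
  have hv0 : Tendsto v atTop (𝓝 0) := by
    rw [tendsto_zero_iff_norm_tendsto_zero]
    refine squeeze_zero (fun n => norm_nonneg _) (fun n => ?_)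
      tendsto_one_div_add_atTop_nhds_zero_nat
    have := hv n
    rw [mem_ball, dist_zero_right] at this
    exact this.le
  have hvφ : Tendsto (fun n => v (φ (ψ n))) atTop (𝓝 0) :=
    hv0.comp (hφ.tendsto_atTop.comp hψ.tendsto_atTop)
  have key : ∀ r : ℝ, 1 < r → r < 2 → ∃ z : ℂ, ‖z‖ = r ∧ η z = η' 0 := by
    intro r h1 h2
    choose s hs z hz hzs using fun n : ℕ =>
      R210_cross Q (hX (φ (ψ n))) (hX' (φ (ψ n))) (hz' _) (hxz _) (hnot _) h1 h2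
    have hzc : ∀ n, z n ∈ sphere (0 : ℂ) r := fun n => by
      rw [mem_sphere, dist_zero_right]; exact hz n
    obtain ⟨w, hw, χ, hχ, hwl⟩ := (isCompact_sphere (0 : ℂ) r).tendsto_subseq hzc
    refine ⟨w, by rwa [mem_sphere, dist_zero_right] at hw, ?_⟩
    have e1 : Tendsto (fun n => X (φ (ψ (χ n))) (z (χ n))) atTop (𝓝 (η w)) := by
      have hl : TendstoLocallyUniformly (fun n => X (φ (ψ (χ n)))) η atTop := by
        intro u hu x
        obtain ⟨t, ht, h3⟩ := hlim2 u hu x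
        exact ⟨t, ht, hχ.tendsto_atTop.eventually h3⟩
      exact hl.tendsto_comp ((U_diff Q hη).continuous.continuousAt) hwl
    have e2 : Tendsto (fun n => X' (φ (ψ (χ n))) ((s (χ n) : ℂ) * v (φ (ψ (χ n))))) atTop
        (𝓝 (η' 0)) := by
      have hl : TendstoLocallyUniformly (fun n => X' (φ (ψ (χ n)))) η' atTop := by
        intro u hu x
        obtain ⟨t, ht, h3⟩ := hlim' u hu x
        exact ⟨t, ht, hχ.tendsto_atTop.eventually h3⟩
      refine hl.tendsto_comp ((U_diff Q hη').continuous.continuousAt) ?_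
      rw [tendsto_zero_iff_norm_tendsto_zero]
      have h3 : Tendsto (fun n => ‖v (φ (ψ (χ n)))‖) atTop (𝓝 0) := by
        have := (hvφ.comp hχ.tendsto_atTop).norm
        simpa using this
      refine squeeze_zero (fun n => norm_nonneg _) (fun n => ?_) h3
      rw [norm_mul, Complex.norm_real, Real.norm_eq_abs, abs_of_nonneg (hs _).1]
      exact mul_le_of_le_one_left (norm_nonneg _) (hs _).2
    have e3 : (fun n => X (φ (ψ (χ n))) (z (χ n))) =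
        fun n => X' (φ (ψ (χ n))) ((s (χ n) : ℂ) * v (φ (ψ (χ n)))) := by
      funext n
      exact (hzs (χ n)).symm
    rw [e3] at e1
    exact tendsto_nhds_unique e1 e2
  -- contradiction
  set Z : Set ℂ := {z | η z = η' 0} ∩ closedBall 0 2 with hZ
  have hinf : Z.Infinite := by
    have h3 : Ioo (1 : ℝ) 2 ⊆ norm '' Z := by
      rintro r ⟨h1, h2⟩
      obtain ⟨z, hz, hz2⟩ := key r h1 h2
      refine ⟨z, ⟨hz2, ?_⟩, hz⟩
      rw [mem_closedBall, dist_zero_right]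
      linarith
    exact Set.Infinite.of_image norm ((Ioo_infinite (by norm_num : (1 : ℝ) < 2)).mono h3)
  obtain ⟨x, -, hx⟩ := hinf.exists_accPt_of_subset_isCompact
    (isCompact_closedBall (0 : ℂ) 2) inter_subset_right
  rw [accPt_iff_frequently_nhdsNE] at hx
  have hfr : ∃ᶠ y in 𝓝[≠] x, η y = (fun _ => η' 0) y := hx.mono fun y hy => hy.1
  have hηa : AnalyticOnNhd ℂ η univ :=
    (U_diff Q hη).differentiableOn.analyticOnNhd isOpen_univ
  have heq := hηa.eqOn_of_preconnected_of_frequently_eq analyticOnNhd_const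
    isPreconnected_univ (mem_univ x) hfr
  obtain ⟨z, w, hzw⟩ := U_ne Q hη
  exact hzw ((heq (mem_univ z)).trans (heq (mem_univ w)).symm)

/-- decay of the backward multipliers -/
theorem R210_back {κ : ℝ} (hκ : 1 < κ) {b : ℤ → ℂ} (hb0 : b 0 = 1)
    (hb : ∀ n, κ * ‖b n‖ ≤ ‖b (n + 1)‖) (n : ℕ) : κ ^ n * ‖b (-(n : ℤ))‖ ≤ 1 := by
  induction n with
  | zero => simp [hb0]
  | succ n ih =>
    have h1 := hb (-((n + 1 : ℕ) : ℤ))
    have h2 : -((n + 1 : ℕ) : ℤ) + 1 = -(n : ℤ) := by push_cast; ring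
    rw [h2] at h1
    have h3 : (0 : ℝ) ≤ κ ^ n := by positivity
    calc κ ^ (n + 1) * ‖b (-((n + 1 : ℕ) : ℤ))‖
        = κ ^ n * (κ * ‖b (-((n + 1 : ℕ) : ℤ))‖) := by rw [pow_succ]; ring
      _ ≤ κ ^ n * ‖b (-(n : ℤ))‖ := mul_le_mul_of_nonneg_left h1 h3
      _ ≤ 1 := ih

theorem R0' (Q : QS) {ξ ξ' : ℂ → E} (hξ : ξ ∈ Q.U) (hξ' : ξ' ∈ Q.U) (h : ξ 0 = ξ' 0) :
    range ξ' ⊆ range ξ := by
  obtain ⟨δ, hδ, hR⟩ := R0 Q
  obtain ⟨κ, Λ, hg⟩ := growth Q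
  obtain ⟨η, a, -, -, hηU, ha0, hηa, -⟩ := hg.orb ξ hξ
  obtain ⟨η', b, -, hb1, hηU', hb0, hηb, hbg⟩ := hg.orb ξ' hξ'
  rintro _ ⟨v, rfl⟩
  have hback := R210_back hg.one_lt hb1 (fun n => (hbg n).1)
  -- choose n
  have hlim : Tendsto (fun n : ℕ => κ ^ n * δ) atTop atTop :=
    (tendsto_pow_atTop_atTop_of_one_lt hg.one_lt).atTop_mul_const hδ
  obtain ⟨n, hn⟩ := (hlim.eventually_gt_atTop ‖v‖).exists
  have hκn : (0 : ℝ) < κ ^ n := pow_pos (by linarith [hg.one_lt]) n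
  have hbv : b (-(n : ℤ)) * v ∈ ball (0 : ℂ) δ := by
    rw [mem_ball, dist_zero_right, norm_mul]
    have h3 := hback n
    have h4 : κ ^ n * (‖b (-(n : ℤ))‖ * ‖v‖) < κ ^ n * δ := by
      calc κ ^ n * (‖b (-(n : ℤ))‖ * ‖v‖) = (κ ^ n * ‖b (-(n : ℤ))‖) * ‖v‖ := by ring
        _ ≤ 1 * ‖v‖ := mul_le_mul_of_nonneg_right h3 (norm_nonneg _)
        _ = ‖v‖ := one_mul _
        _ < κ ^ n * δ := hn
    exact lt_of_mul_lt_mul_left h4 hκn.le
  have hc : η (-(n : ℤ)) 0 = η' (-(n : ℤ)) 0 := by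
    have h5 := hηa (-(n : ℤ)) 0
    have h6 := hηb (-(n : ℤ)) 0
    rw [mul_zero] at h5 h6
    rw [← h5, ← h6, h]
  obtain ⟨w, -, hw⟩ := hR _ (hηU (-(n : ℤ))) _ (hηU' (-(n : ℤ))) 0 (by simp) hc _ hbv
  refine ⟨w / a (-(n : ℤ)), ?_⟩
  have h7 := hηa (-(n : ℤ)) (w / a (-(n : ℤ)))
  have h8 := hηb (-(n : ℤ)) v
  rw [mul_div_cancel₀ _ (ha0 _), hw, ← h8] at h7
  exact (Q.F ^ (-(n : ℤ))).injective h7

end Pool.Agent.HQ
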