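import Pool.Agent.HQ.Defs
import Pool.Agent.HQ.Bas
import Pool.Agent.HQ.StayA
import Pool.Agent.HQ.UBas
import Pool.Agent.HQ.GrF
import Pool.Agent.HQ.Al29
import Pool.Agent.HQ.R210
import Pool.Agent.HQ.PolyG

/-!
# HQ module R211: curves through an unstable manifold are polynomial reparametrisations
-/

set_option autoImplicit false

open Filter Topology Set Metric

namespace Pool.Agent.HQ

theorem R211_up {κ Λ : ℝ} (hκ : 1 < κ) {a : ℤ → ℂ} (h0 : a 0 = 1)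
    (h : ∀ n, κ * ‖a n‖ ≤ ‖a (n + 1)‖ ∧ ‖a (n + 1)‖ ≤ Λ * ‖a n‖) (n : ℕ) :
    κ ^ n * ‖a (-(n : ℤ))‖ ≤ 1 := by
  induction n with
  | zero => simp [h0]
  | succ n ih =>
    have h1 := (h (-((n + 1 : ℕ) : ℤ))).1
    have h2 : -((n + 1 : ℕ) : ℤ) + 1 = -(n : ℤ) := by push_cast; ring
    rw [h2] at h1
    have h3 : 0 < κ ^ n := pow_pos (by linarith) n
    calc κ ^ (n + 1) * ‖a (-((n + 1 : ℕ) : ℤ))‖
        = κ ^ n * (κ * ‖a (-((n + 1 : ℕ) : ℤ))‖) := by rw [pow_succ]; ring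
      _ ≤ κ ^ n * ‖a (-(n : ℤ))‖ := mul_le_mul_of_nonneg_left h1 h3.le
      _ ≤ 1 := ih

theorem R211_low {κ Λ : ℝ} (hΛ : 0 < Λ) {a : ℤ → ℂ} (h0 : a 0 = 1)
    (h : ∀ n, κ * ‖a n‖ ≤ ‖a (n + 1)‖ ∧ ‖a (n + 1)‖ ≤ Λ * ‖a n‖) (n : ℕ) :
    1 ≤ Λ ^ n * ‖a (-(n : ℤ))‖ := by
  induction n with
  | zero => simp [h0]
  | succ n ih =>
    have h1 := (h (-((n + 1 : ℕ) : ℤ))).2
    have h2 : -((n + 1 : ℕ) : ℤ) + 1 = -(n : ℤ) := by push_cast; ring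
    rw [h2] at h1
    have h3 : 0 < Λ ^ n := pow_pos hΛ n
    calc (1 : ℝ) ≤ Λ ^ n * ‖a (-(n : ℤ))‖ := ih
      _ ≤ Λ ^ n * (Λ * ‖a (-((n + 1 : ℕ) : ℤ))‖) := mul_le_mul_of_nonneg_left h1 h3.le
      _ = Λ ^ (n + 1) * ‖a (-((n + 1 : ℕ) : ℤ))‖ := by rw [pow_succ]; ring

/-- the growth estimate from the estimates on the discs of radius `δ κ ^ n` -/
theorem R211_growth {κ Λ δ : ℝ} (hκ : 1 < κ) (hΛ : 1 ≤ Λ) (hδ : 0 < δ) {N : ℕ}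
    (hN : Λ ≤ κ ^ N) {τ : ℂ → ℂ} {n0 : ℕ}
    (h : ∀ n : ℕ, n0 ≤ n → ∀ v, ‖v‖ < δ * κ ^ n → ‖τ v‖ ≤ 2 * Λ ^ n) :
    ∀ v, ‖τ v‖ ≤ (2 * Λ ^ n0 + 2 * Λ * (δ⁻¹) ^ N) * (1 + ‖v‖) ^ N := by
  intro v
  have hv1 : (1 : ℝ) ≤ (1 + ‖v‖) ^ N := one_le_pow₀ (by linarith [norm_nonneg v])
  have hA : 0 ≤ 2 * Λ ^ n0 := by positivity
  have hB : 0 ≤ 2 * Λ * (δ⁻¹) ^ N := by positivity
  by_cases hc : ‖v‖ < δ * κ ^ n0
  · have h1 := h n0 le_rfl v hc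
    calc ‖τ v‖ ≤ 2 * Λ ^ n0 := h1
      _ ≤ (2 * Λ ^ n0 + 2 * Λ * (δ⁻¹) ^ N) * 1 := by linarith
      _ ≤ _ := mul_le_mul_of_nonneg_left hv1 (by positivity)
  · have hex : ∃ k : ℕ, ‖v‖ < δ * κ ^ (n0 + k) := by
      obtain ⟨k, hk⟩ := pow_unbounded_of_one_lt (‖v‖ / δ) hκ
      refine ⟨k, ?_⟩
      rw [div_lt_iff₀ hδ] at hk
      have h2 : κ ^ k ≤ κ ^ (n0 + k) := pow_le_pow_right₀ hκ.le (by omega)
      calc ‖v‖ < κ ^ k * δ := hk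
        _ ≤ κ ^ (n0 + k) * δ := mul_le_mul_of_nonneg_right h2 hδ.le
        _ = δ * κ ^ (n0 + k) := mul_comm _ _
    classical
    obtain ⟨k, hk, hmin⟩ : ∃ k : ℕ, ‖v‖ < δ * κ ^ (n0 + k) ∧
        ∀ j < k, ¬ ‖v‖ < δ * κ ^ (n0 + j) :=
      ⟨Nat.find hex, Nat.find_spec hex, fun j hj => Nat.find_min hex hj⟩
    obtain _ | k := k
    · exact absurd hk hc
    · have h3 := hmin k (Nat.lt_succ_self k)
      push Not at h3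
      have h4 := h (n0 + (k + 1)) (by omega) v hk
      have hκ0 : 0 < κ := by linarith
      have h5 : κ ^ (n0 + k) ≤ δ⁻¹ * ‖v‖ := by
        rw [inv_mul_eq_div, le_div_iff₀ hδ, mul_comm]
        exact h3
      have h6 : Λ ^ (n0 + k) ≤ (δ⁻¹ * (1 + ‖v‖)) ^ N := by
        calc Λ ^ (n0 + k) ≤ (κ ^ N) ^ (n0 + k) := pow_le_pow_left₀ (by linarith) hN _
          _ = (κ ^ (n0 + k)) ^ N := by rw [← pow_mul, ← pow_mul, mul_comm]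
          _ ≤ (δ⁻¹ * ‖v‖) ^ N := pow_le_pow_left₀ (by positivity) h5 _
          _ ≤ (δ⁻¹ * (1 + ‖v‖)) ^ N := by
              apply pow_le_pow_left₀ (by positivity)
              apply mul_le_mul_of_nonneg_left _ (by positivity)
              linarith
      calc ‖τ v‖ ≤ 2 * Λ ^ (n0 + (k + 1)) := h4
        _ = 2 * Λ * Λ ^ (n0 + k) := by rw [← add_assoc, pow_succ]; ring
        _ ≤ 2 * Λ * (δ⁻¹ * (1 + ‖v‖)) ^ N := mul_le_mul_of_nonneg_left h6 (by positivity)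
        _ = (2 * Λ * (δ⁻¹) ^ N) * (1 + ‖v‖) ^ N := by rw [mul_pow]; ring
        _ ≤ _ := by
            apply mul_le_mul_of_nonneg_right _ (by positivity)
            linarith

theorem Rpoly (Q : QS) {κ Λ : ℝ} (hg : Gr Q κ Λ) {N : ℕ} (hN : Λ ≤ κ ^ N) {p : E}
    (hp : p ∈ Sad Q.F) {ξ' : ℂ → E} (hξ' : ξ' ∈ Q.U) (h0 : ξ' 0 ∈ Wu Q.F p) :
    ∃ τ : Polynomial ℂ, 0 < τ.natDegree ∧ τ.natDegree ≤ N ∧
      ∀ z, ξ' z = Q.Xu p (τ.eval z) := by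
  have hstay : ∀ s, ξ' s ∈ Wu Q.F p := fun s =>
    stay_u Q.toSys isOpen_univ isPreconnected_univ (U_diff Q hξ').differentiableOn
      (fun s _ => U_M0 Q hξ' s) hp (mem_univ 0) h0 s (mem_univ s)
  obtain ⟨τ, hτd, hτ, z₁, z₂, hne⟩ := al Q hp hξ' hstay
  obtain ⟨η, a, hη0, ha0, hηU, han, hηF, har⟩ := hg.orb (Q.Xu p) (Xu_mem_U Q hp)
  obtain ⟨η', b, hη'0, hb0, hη'U, hbn, hη'F, hbr⟩ := hg.orb ξ' hξ'
  have hκ := hg.one_lt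
  have hΛ1 : 1 ≤ Λ := hκ.le.trans hg.le
  obtain ⟨δ, hδ, hR0⟩ := R0 Q
  have hinj := (Q.hu p hp).inj
  -- the index from which on the point is in the unit disc
  obtain ⟨n0, hn0⟩ := pow_unbounded_of_one_lt ‖τ 0‖ hκ
  have hsmall : ∀ n : ℕ, n0 ≤ n → ‖a (-(n : ℤ)) * τ 0‖ ≤ 1 := by
    intro n hn
    have h1 := R211_up hκ ha0 har n
    have h2 : κ ^ n0 ≤ κ ^ n := pow_le_pow_right₀ hκ.le hn
    rw [norm_mul]
    calc ‖a (-(n : ℤ))‖ * ‖τ 0‖ ≤ ‖a (-(n : ℤ))‖ * κ ^ n :=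
          mul_le_mul_of_nonneg_left (hn0.le.trans h2) (norm_nonneg _)
      _ = κ ^ n * ‖a (-(n : ℤ))‖ := mul_comm _ _
      _ ≤ 1 := h1
  have hmain : ∀ n : ℕ, n0 ≤ n → ∀ v, ‖v‖ < δ * κ ^ n → ‖τ v‖ ≤ 2 * Λ ^ n := by
    intro n hn v hv
    have hκn : 0 < κ ^ n := pow_pos (by linarith) n
    have e1 : η (-(n : ℤ)) (a (-(n : ℤ)) * τ 0) = η' (-(n : ℤ)) 0 := by
      rw [← hηF, ← hτ, hη'F, mul_zero]
    have hbv : b (-(n : ℤ)) * v ∈ ball (0 : ℂ) δ := by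
      rw [mem_ball_zero_iff, norm_mul]
      have h1 := R211_up hκ hb0 hbr n
      have h2 : 0 < ‖b (-(n : ℤ))‖ := norm_pos_iff.2 (hbn _)
      calc ‖b (-(n : ℤ))‖ * ‖v‖ < ‖b (-(n : ℤ))‖ * (δ * κ ^ n) :=
            mul_lt_mul_of_pos_left hv h2
        _ = δ * (κ ^ n * ‖b (-(n : ℤ))‖) := by ring
        _ ≤ δ * 1 := mul_le_mul_of_nonneg_left h1 hδ.le
        _ = δ := mul_one δ
    obtain ⟨w, hw, hweq⟩ := hR0 (η (-(n : ℤ))) (hηU _) (η' (-(n : ℤ))) (hη'U _) _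
      (hsmall n hn) e1 _ hbv
    have hz : Q.Xu p (w / a (-(n : ℤ))) = Q.Xu p (τ v) := by
      apply (Q.F ^ (-(n : ℤ))).injective
      rw [hηF, mul_div_cancel₀ w (han _), hweq, ← hη'F, hτ]
    have hz' : w / a (-(n : ℤ)) = τ v := hinj hz
    have hz'' : τ v * a (-(n : ℤ)) = w := by rw [← hz', div_mul_cancel₀ _ (han _)]
    have hw2 : ‖w‖ < 2 := by rwa [mem_ball_zero_iff] at hw
    have h3 := R211_low (by linarith) ha0 har n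
    have h4 : 0 < Λ ^ n := pow_pos (by linarith) n
    calc ‖τ v‖ = ‖τ v‖ * 1 := (mul_one _).symm
      _ ≤ ‖τ v‖ * (Λ ^ n * ‖a (-(n : ℤ))‖) := mul_le_mul_of_nonneg_left h3 (norm_nonneg _)
      _ = ‖τ v * a (-(n : ℤ))‖ * Λ ^ n := by rw [norm_mul]; ring
      _ = ‖w‖ * Λ ^ n := by rw [hz'']
      _ ≤ 2 * Λ ^ n := mul_le_mul_of_nonneg_right hw2.le h4.le
  obtain ⟨P, hPd, hP⟩ := poly_of_growth hτd N _ (R211_growth hκ hΛ1 hδ hN hmain)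
  refine ⟨P, ?_, hPd, fun z => by rw [hτ, hP]⟩
  by_contra hcon
  have h0 : P.natDegree = 0 := by omega
  rw [Polynomial.natDegree_eq_zero] at h0
  obtain ⟨c, hc⟩ := h0
  apply hne
  rw [hP, hP, ← hc, Polynomial.eval_C, Polynomial.eval_C]

end Pool.Agent.HQ
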