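import Pool.Agent.HQ.Defs
import Pool.Agent.HQ.Bas
import Pool.Agent.HQ.UBas
import Pool.Agent.HQ.GrF
import Pool.Agent.HQ.R211
import Pool.Agent.HQ.MinRoot

/-!
# HQ module St42: flat points of unstable manifolds return to the thick part
-/

set_option autoImplicit false

open Filter Topology Set Metric

namespace Pool.Agent.HQ

/-- one point of the segment -/
theorem St42_point (Q : QS) {κ Λ : ℝ} (hg : Gr Q κ Λ) {N : ℕ} {p : E} {τ : Polynomial ℂ}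
    (hτ0 : 0 < τ.natDegree) (hτN : τ.natDegree ≤ N) {ξ' : ℂ → E} (hξ' : ξ' ∈ Q.U)
    (hτ : ∀ z, ξ' z = Q.Xu p (τ.eval z)) {z₁ : ℂ} (hne : τ.eval 0 ≠ z₁)
    (hP : ∀ z, ‖z - z₁‖ < ‖τ.eval 0 - z₁‖ → Q.P (Q.Xu p z) = 0) :
    ∃ n : ℤ, (Q.F ^ n) (Q.Xu p z₁) ∈ Q.Kc Λ N ∧
      ∀ m : ℕ, (∃ u' : ℂ, τ.eval u' = z₁ ∧ ‖u'‖ * Λ ^ (m + 1) < 1) → (m : ℤ) ≤ n := by
  have hΛ : 0 < Λ := lt_of_lt_of_le (lt_trans zero_lt_one hg.one_lt) hg.le
  obtain ⟨u, hu0, huz, humin, hu⟩ := min_root hτN hτ0 hne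
  obtain ⟨n, η, hη, a, ha0, hηa, h1, h2, h3⟩ := hg.scale hξ' hu0
  have ha : 0 < ‖a‖ := norm_pos_iff.2 ha0
  refine ⟨n, ?_, ?_⟩
  · have hX : Q.Xu p z₁ = ξ' u := by rw [hτ, huz]
    rw [hX, hηa]
    refine ⟨η, hη, a * u, h1, h2, rfl, fun v' hv' => ?_⟩
    have hv : ‖v' / a - u‖ < (1 / 3) ^ N * ‖u‖ := by
      have h4 : v' / a - u = (v' - a * u) / a := by
        field_simp
      rw [h4, norm_div, div_lt_iff₀ ha]
      calc ‖v' - a * u‖ < (1 / 3) ^ N * ‖a * u‖ := hv'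
        _ = (1 / 3) ^ N * ‖u‖ * ‖a‖ := by rw [norm_mul]; ring
    have h5 : a * (v' / a) = v' := mul_div_cancel₀ v' ha0
    have h6 : η v' = (Q.F ^ n) (ξ' (v' / a)) := by rw [hηa, h5]
    rw [h6, Q.P_zero_iff, hτ]
    exact hP _ (hu _ hv)
  · rintro m ⟨u', hu', hm⟩
    refine h3 m (lt_of_le_of_lt ?_ hm)
    exact mul_le_mul_of_nonneg_right (humin u' hu') (pow_nonneg hΛ.le _)

theorem star (Q : QS) {κ Λ : ℝ} (hg : Gr Q κ Λ) {N : ℕ} (hN : Λ ≤ κ ^ N) (h5 : Q.H5) {p : E}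
    (hp : p ∈ Sad Q.F) {z₀ : ℂ} (hz₀ : ∀ᶠ z in 𝓝 z₀, Q.P (Q.Xu p z) = 0) :
    (∃ n : ℤ, (Q.F ^ n) (Q.Xu p z₀) ∈ Q.Kc Λ N) ∧
    ∃ r₀ > 0, (∀ z ∈ ball z₀ r₀, Q.P (Q.Xu p z) = 0) ∧
      ∀ m : ℕ, ∃ n : ℤ, (m : ℤ) ≤ n ∧ ∃ z ∈ ball z₀ r₀,
        (Q.F ^ n) (Q.Xu p z) ∈ Q.Kc Λ N := by
  have hXU : Q.Xu p ∈ Q.U := Xu_mem_U Q hp
  have hXd : Differentiable ℂ (Q.Xu p) := U_diff Q hXU
  have hΛ : 0 < Λ := lt_of_lt_of_le (lt_trans zero_lt_one hg.one_lt) hg.le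
  let A : Set ℂ := {z | 0 < Q.P (Q.Xu p z)}
  have hAne : A.Nonempty := by
    obtain ⟨z, -, hz⟩ := U_eq_one Q hXU
    exact ⟨z, by show 0 < Q.P (Q.Xu p z); rw [hz]; exact zero_lt_one⟩
  obtain ⟨z', hz'A, hz'd⟩ := isClosed_closure.exists_infDist_eq_dist
    (hAne.mono subset_closure : (closure A).Nonempty) z₀
  have hcont : Continuous fun z => Q.P (Q.Xu p z) := Q.cP.comp hXd.continuous
  -- `P = 0` on the ball
  have hball : ∀ z, dist z z₀ < dist z₀ z' → Q.P (Q.Xu p z) = 0 := by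
    intro z hz
    by_contra hne
    have hzA : z ∈ A := lt_of_le_of_ne (Q.P0 _) (Ne.symm hne)
    have h1 : infDist z₀ (closure A) ≤ dist z₀ z := infDist_le_dist_of_mem (subset_closure hzA)
    rw [hz'd, dist_comm z₀ z] at h1
    exact absurd hz (not_lt.2 h1)
  have hr : 0 < dist z₀ z' := by
    rw [dist_pos]
    rintro rfl
    have h1 := (mem_closure_iff_frequently.1 hz'A)
    exact h1 (hz₀.mono fun z hz h2 => absurd hz (ne_of_gt h2))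
  have hPz' : Q.P (Q.Xu p z') = 0 := by
    have hcl : z' ∈ closure (ball z₀ (dist z₀ z')) := by
      rw [closure_ball z₀ hr.ne', mem_closedBall, dist_comm]
    have h1 : IsClosed {z | Q.P (Q.Xu p z) = 0} := isClosed_eq hcont continuous_const
    exact closure_minimal (fun z hz => hball z hz) h1 hcl
  have hMz' : Q.M (Q.Xu p z') = 0 := U_M0 Q hXU z'
  have hint : Q.Xu p z' ∉ interior Q.Kp := by
    intro h
    have h1 : ∀ᶠ z in 𝓝 z', Q.Xu p z ∈ interior Q.Kp :=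
      hXd.continuous.continuousAt.eventually (isOpen_interior.mem_nhds h)
    have h2 := (mem_closure_iff_frequently.1 hz'A)
    refine h2 (h1.mono fun z hz h3 => ?_)
    have h4 : Q.Xu p z ∈ Q.Kp := interior_subset hz
    exact absurd (show Q.P (Q.Xu p z) = 0 from h4) (ne_of_gt h3)
  have hcS : Q.Xu p z' ∈ closure (Sad Q.F) := h5 _ hPz' hMz' hint
  obtain ⟨-, -, ξ', hξ', hξ'0, -⟩ := U_center Q hcS
  have h0 : ξ' 0 ∈ Wu Q.F p := by
    rw [hξ'0, ← (Q.hu p hp).range]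
    exact mem_range_self z'
  obtain ⟨τ, hτ0, hτN, hτ⟩ := Rpoly Q hg hN hp hξ' h0
  have hτz' : τ.eval 0 = z' := by
    apply (Q.hu p hp).inj
    rw [← hτ, hξ'0]
  -- the points of the segment
  have hseg : ∀ t : ℝ, 0 ≤ t → t < 1 → ∃ n : ℤ,
      (Q.F ^ n) (Q.Xu p (z₀ + t * (z' - z₀))) ∈ Q.Kc Λ N ∧
      ∀ m : ℕ, (∃ u' : ℂ, τ.eval u' = z₀ + t * (z' - z₀) ∧ ‖u'‖ * Λ ^ (m + 1) < 1) →
        (m : ℤ) ≤ n := by
    intro t ht0 ht1
    have hd0 : ‖z' - z₀‖ = dist z₀ z' := by rw [dist_comm, dist_eq_norm]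
    have hd : ‖z' - (z₀ + t * (z' - z₀))‖ = (1 - t) * dist z₀ z' := by
      have h1 : z' - (z₀ + t * (z' - z₀)) = ((1 - t : ℝ) : ℂ) * (z' - z₀) := by
        push_cast
        ring
      rw [h1, norm_mul, Complex.norm_real, Real.norm_eq_abs, abs_of_pos (by linarith), hd0]
    refine St42_point Q hg hτ0 hτN hξ' hτ ?_ ?_
    · rw [hτz']
      intro h
      rw [← h, sub_self, norm_zero] at hd
      have : 0 < (1 - t) * dist z₀ z' := mul_pos (by linarith) hr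
      linarith
    · intro z hz
      rw [hτz', hd] at hz
      apply hball
      have h2 : dist (z₀ + t * (z' - z₀)) z₀ = t * dist z₀ z' := by
        rw [dist_eq_norm, add_sub_cancel_left, norm_mul, Complex.norm_real, Real.norm_eq_abs,
          abs_of_nonneg ht0, hd0]
      calc dist z z₀ ≤ dist z (z₀ + t * (z' - z₀)) + dist (z₀ + t * (z' - z₀)) z₀ :=
            dist_triangle _ _ _
        _ < (1 - t) * dist z₀ z' + t * dist z₀ z' := by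
            rw [h2]
            exact add_lt_add_of_lt_of_le (by rw [dist_eq_norm]; exact hz) le_rfl
        _ = dist z₀ z' := by ring
  refine ⟨?_, dist z₀ z', hr, fun z hz => hball z hz, ?_⟩
  · obtain ⟨n, hn, -⟩ := hseg 0 le_rfl zero_lt_one
    refine ⟨n, ?_⟩
    simpa using hn
  · intro m
    have he : 0 < (Λ ^ (m + 1))⁻¹ := inv_pos.2 (pow_pos hΛ _)
    have hopen : IsOpen ((fun z => τ.eval z) '' ball (0 : ℂ) (Λ ^ (m + 1))⁻¹) :=
      (Polynomial.isOpenQuotientMap_eval τ hτ0.ne').isOpenMap _ isOpen_ball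
    have hmem : z' ∈ (fun z => τ.eval z) '' ball (0 : ℂ) (Λ ^ (m + 1))⁻¹ :=
      ⟨0, mem_ball_self he, hτz'⟩
    have hlim : Tendsto (fun t : ℝ => z₀ + (t : ℂ) * (z' - z₀)) (𝓝[<] 1) (𝓝 z') := by
      have h1 : Continuous fun t : ℝ => z₀ + (t : ℂ) * (z' - z₀) := by fun_prop
      have h2 := h1.tendsto 1
      have h3 : z₀ + ((1 : ℝ) : ℂ) * (z' - z₀) = z' := by push_cast; ring
      rw [h3] at h2
      exact h2.mono_left nhdsWithin_le_nhds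
    have hev : ∀ᶠ t : ℝ in 𝓝[<] 1, 0 < t ∧ t < 1 ∧
        z₀ + (t : ℂ) * (z' - z₀) ∈ (fun z => τ.eval z) '' ball (0 : ℂ) (Λ ^ (m + 1))⁻¹ := by
      filter_upwards [hlim.eventually (hopen.mem_nhds hmem), self_mem_nhdsWithin,
        mem_nhdsWithin_of_mem_nhds (lt_mem_nhds (zero_lt_one : (0 : ℝ) < 1))] with t h1 h2 h3
      exact ⟨h3, h2, h1⟩
    obtain ⟨t, ht0, ht1, u', hu'b, hu'⟩ := hev.exists
    obtain ⟨n, hn, hm⟩ := hseg t ht0.le ht1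
    refine ⟨n, hm m ⟨u', hu', ?_⟩, z₀ + t * (z' - z₀), ?_, hn⟩
    · rw [mem_ball, dist_zero_right] at hu'b
      have h4 := mul_lt_mul_of_pos_right hu'b (pow_pos hΛ (m + 1))
      rwa [inv_mul_cancel₀ (pow_pos hΛ (m + 1)).ne'] at h4
    · rw [mem_ball, dist_eq_norm, add_sub_cancel_left, norm_mul, Complex.norm_real,
        Real.norm_eq_abs, abs_of_pos ht0, ← dist_eq_norm, dist_comm z' z₀]
      nlinarith

end Pool.Agent.HQ
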