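import Pool.Agent.HQ.Defs
import Pool.Agent.HQ.Bas
import Pool.Agent.HQ.Cmp
import Pool.Agent.HQ.C27
import Pool.Agent.HQ.K41
import Pool.Agent.HQ.St42
import Pool.Agent.HQ.Gro
import Pool.Agent.HQ.UBas

/-!
# HQ module CF44: components meeting unstable manifolds are periodic and finitely many
-/

set_option autoImplicit false

open Filter Topology Set Metric

namespace Pool.Agent.HQ

theorem comp_star (Q : QS) {κ Λ : ℝ} (hg : Gr Q κ Λ) {N : ℕ} (hN : Λ ≤ κ ^ N) (h5 : Q.H5)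
    {Ω : Set E} (hΩ : Q.IsComp Ω) {p : E} (hp : p ∈ Sad Q.F) {x : E} (hx : x ∈ Ω)
    (hxp : x ∈ Wu Q.F p) :
    (∃ n : ℤ, (Q.F ^ n) x ∈ Q.Kc Λ N) ∧
    ∀ m : ℕ, ∃ n : ℤ, (m : ℤ) ≤ n ∧ ((⇑(Q.F ^ n) '' Ω) ∩ Q.Kc Λ N).Nonempty := by
  have hu := Q.hu p hp
  rw [← hu.range] at hxp
  obtain ⟨z₀, rfl⟩ := hxp
  have hz₀ : ∀ᶠ z in 𝓝 z₀, Q.P (Q.Xu p z) = 0 := by
    have h1 : Q.Xu p ⁻¹' Ω ∈ 𝓝 z₀ :=
      (hu.diff.continuous.isOpen_preimage _ hΩ.isOpen).mem_nhds hx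
    filter_upwards [h1] with z hz
    exact (show Q.Xu p z ∈ Q.Kp from interior_subset (hΩ.sub hz))
  obtain ⟨h1, r₀, hr₀, hP, h2⟩ := star Q hg hN h5 hp hz₀
  refine ⟨h1, fun m => ?_⟩
  obtain ⟨n, hn, z, hz, hzK⟩ := h2 m
  refine ⟨n, hn, (Q.F ^ n) (Q.Xu p z), ⟨Q.Xu p z, ?_, rfl⟩, hzK⟩
  have hsub : Q.Xu p '' ball z₀ r₀ ⊆ interior Q.Kp := by
    rintro _ ⟨s, hs, rfl⟩
    refine discC Q h5 isOpen_ball (convex_ball z₀ r₀).isPreconnected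
      hu.diff.differentiableOn hP (fun s _ => U_M0 Q (Xu_mem_U Q hp) s) ?_ s hs
    refine ⟨z₀, mem_ball_self hr₀, z₀ + (r₀ / 2 : ℝ), ?_, fun h => ?_⟩
    · rw [mem_ball, dist_self_add_left, Complex.norm_real, Real.norm_eq_abs,
        abs_of_pos (half_pos hr₀)]
      exact half_lt_self hr₀
    · have h3 := hu.inj h
      have h4 : ((r₀ / 2 : ℝ) : ℂ) = 0 := by
        have := congrArg (fun w => w - z₀) h3
        simpa using this.symm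
      have h5' : r₀ / 2 = 0 := by exact_mod_cast h4
      linarith
  have hconn : IsPreconnected (Q.Xu p '' ball z₀ r₀) :=
    (convex_ball z₀ r₀).isPreconnected.image _ hu.diff.continuous.continuousOn
  exact hΩ.of_conn hconn hsub ⟨z₀, mem_ball_self hr₀, rfl⟩ hx ⟨z, hz, rfl⟩

theorem CF44_inv {F : Equiv.Perm E} {k : ℕ} {Ω : Set E} (hF : (⇑(F ^ k)) '' Ω = Ω) (q : ℤ)
    (x : E) : (F ^ ((k : ℤ) * q)) x ∈ Ω ↔ x ∈ Ω := by
  have h1 : ∀ y, (F ^ k) y ∈ Ω ↔ y ∈ Ω := by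
    intro y
    constructor
    · intro h
      rw [← hF] at h
      obtain ⟨z, hz, hzy⟩ := h
      rwa [← (F ^ k).injective hzy]
    · intro h
      rw [← hF]
      exact ⟨y, h, rfl⟩
  rw [zpow_mul, zpow_natCast]
  induction q with
  | zero => simp
  | succ n ih =>
    rw [add_comm, zpow_add, zpow_one, Equiv.Perm.mul_apply, h1]
    exact ih
  | pred n ih =>
    refine Iff.trans (h1 _).symm ?_
    rw [← Equiv.Perm.mul_apply, show F ^ k * (F ^ k) ^ (-(n : ℤ) - 1) =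
      (F ^ k) ^ (-(n : ℤ)) by rw [← zpow_one_add]; congr 1; ring]
    exact ih

theorem CF44_image_image (F : Equiv.Perm E) (m n : ℤ) (Ω : Set E) :
    ⇑(F ^ m) '' (⇑(F ^ n) '' Ω) = ⇑(F ^ (m + n)) '' Ω := by
  rw [image_image, zpow_add]
  rfl

theorem CF44_image_inv {F : Equiv.Perm E} {k : ℕ} {Ω : Set E} (hF : (⇑(F ^ k)) '' Ω = Ω)
    (q : ℤ) : ⇑(F ^ ((k : ℤ) * q)) '' Ω = Ω := by
  ext y
  constructor
  · rintro ⟨x, hx, rfl⟩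
    exact (CF44_inv hF q x).2 hx
  · intro hy
    refine ⟨(F ^ ((k : ℤ) * (-q))) y, (CF44_inv hF (-q) y).2 hy, ?_⟩
    rw [← Equiv.Perm.mul_apply, ← zpow_add, mul_neg, add_neg_cancel, zpow_zero,
      Equiv.Perm.one_apply]

theorem comp_per (Q : QS) (h5 : Q.H5) {Ω : Set E} (hΩ : Q.IsComp Ω) {p : E} (hp : p ∈ Sad Q.F)
    (hne : (Ω ∩ Wu Q.F p).Nonempty) : ∃ k : ℕ, 0 < k ∧ (⇑(Q.F ^ k)) '' Ω = Ω := by
  obtain ⟨κ, Λ, hg⟩ := growth Q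
  obtain ⟨N, hN⟩ := pow_unbounded_of_one_lt Λ hg.one_lt
  have hΛ : 0 < Λ := lt_of_lt_of_le (lt_trans zero_lt_one hg.one_lt) hg.le
  obtain ⟨x, hx, hxp⟩ := hne
  have hs := (comp_star Q hg hN.le h5 hΩ hp hx hxp).2
  have hfin := Sys.comp_fin_of_compact (S := Q.toSys) (Kc_compact Q hΛ N) (Kc_int Q h5 hΛ N)
  have hinf : {n : ℤ | ((⇑(Q.F ^ n) '' Ω) ∩ Q.Kc Λ N).Nonempty}.Infinite := by
    apply Set.infinite_of_not_bddAbove
    rintro ⟨B, hB⟩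
    obtain ⟨n, hn, hn2⟩ := hs (B.toNat + 1)
    have h1 := hB hn2
    have h2 := Int.self_le_toNat B
    push_cast at hn
    linarith
  have hmaps : MapsTo (fun n : ℤ => ⇑(Q.F ^ n) '' Ω)
      {n : ℤ | ((⇑(Q.F ^ n) '' Ω) ∩ Q.Kc Λ N).Nonempty}
      {A : Set E | Q.IsComp A ∧ (A ∩ Q.Kc Λ N).Nonempty} := fun n hn => ⟨hΩ.image n, hn⟩
  obtain ⟨m, hm, n, hn, hmn, he⟩ := hinf.exists_ne_map_eq_of_mapsTo hmaps hfin
  have key : ∀ m n : ℤ, m < n → ⇑(Q.F ^ m) '' Ω = ⇑(Q.F ^ n) '' Ω →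
      ∃ k : ℕ, 0 < k ∧ (⇑(Q.F ^ k)) '' Ω = Ω := by
    intro m n hmn he
    refine ⟨(n - m).toNat, by omega, ?_⟩
    have h1 := congrArg (fun A => ⇑(Q.F ^ (-m)) '' A) he
    simp only [CF44_image_image] at h1
    rw [neg_add_cancel, zpow_zero] at h1
    rw [← zpow_natCast, Int.toNat_of_nonneg (by omega), show n - m = -m + n by ring, ← h1]
    simp
  rcases lt_or_gt_of_ne hmn with h | h
  · exact key m n h he
  · exact key n m h he.symm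

theorem comp_fin (Q : QS) (h5 : Q.H5) :
    {Ω : Set E | Q.IsComp Ω ∧ ∃ p ∈ Sad Q.F, (Ω ∩ Wu Q.F p).Nonempty}.Finite := by
  obtain ⟨κ, Λ, hg⟩ := growth Q
  obtain ⟨N, hN⟩ := pow_unbounded_of_one_lt Λ hg.one_lt
  have hΛ : 0 < Λ := lt_of_lt_of_le (lt_trans zero_lt_one hg.one_lt) hg.le
  have hfin := Sys.comp_fin_of_compact (S := Q.toSys) (Kc_compact Q hΛ N) (Kc_int Q h5 hΛ N)
  have horb : ∀ W : Set E, (∃ k : ℕ, 0 < k ∧ (⇑(Q.F ^ k)) '' W = W) →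
      {A : Set E | ∃ n : ℤ, A = ⇑(Q.F ^ n) '' W}.Finite := by
    rintro W ⟨k, hk, hW⟩
    refine ((Set.finite_Iio k).image fun j : ℕ => ⇑(Q.F ^ j) '' W).subset ?_
    rintro A ⟨n, rfl⟩
    have hkz : (0 : ℤ) < k := by exact_mod_cast hk
    have h1 := Int.emod_lt_of_pos n hkz
    have h2 := Int.emod_nonneg n hkz.ne'
    refine ⟨(n % k).toNat, ?_, ?_⟩
    · rw [mem_Iio]
      omega
    · show ⇑(Q.F ^ (n % k).toNat) '' W = _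
      rw [← zpow_natCast, Int.toNat_of_nonneg h2]
      conv_lhs => rw [← CF44_image_inv hW (n / k)]
      rw [CF44_image_image, Int.emod_add_mul_ediv]
  have hfin2 : (⋃ W ∈ {W : Set E | (Q.IsComp W ∧ (W ∩ Q.Kc Λ N).Nonempty) ∧
      ∃ k : ℕ, 0 < k ∧ (⇑(Q.F ^ k)) '' W = W}, {A : Set E | ∃ n : ℤ, A = ⇑(Q.F ^ n) '' W}).Finite :=
    (hfin.subset fun W hW => hW.1).biUnion fun W hW => horb W hW.2
  refine hfin2.subset ?_
  rintro Ω ⟨hΩ, p, hp, x, hx, hxp⟩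
  obtain ⟨n, hn⟩ := (comp_star Q hg hN.le h5 hΩ hp hx hxp).1
  obtain ⟨k, hk, hkΩ⟩ := comp_per Q h5 hΩ hp ⟨x, hx, hxp⟩
  refine mem_biUnion (x := ⇑(Q.F ^ n) '' Ω) ⟨⟨hΩ.image n, (Q.F ^ n) x, ⟨x, hx, rfl⟩, hn⟩, k, hk,
    ?_⟩ ⟨-n, ?_⟩
  · rw [← zpow_natCast, CF44_image_image, add_comm, ← CF44_image_image, zpow_natCast, hkΩ]
  · rw [CF44_image_image, neg_add_cancel, zpow_zero]
    simp

end Pool.Agent.HQ
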