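import Pool.Agent.HQ.Defs

/-!
# HQ module HL: Harnack for nonvanishing holomorphic functions
-/

set_option autoImplicit false

open Filter Topology Set Metric

namespace Pool.Agent.HQ

/-- holomorphic logarithm on a disc -/
theorem HL_log {φ : ℂ → ℂ} {a : ℂ} {r : ℝ} (hr : 0 < r)
    (hφ : DifferentiableOn ℂ φ (ball a r)) (h0 : ∀ z ∈ ball a r, φ z ≠ 0) :
    ∃ ψ : ℂ → ℂ, DifferentiableOn ℂ ψ (ball a r) ∧ ∀ z ∈ ball a r, φ z = Complex.exp (ψ z) := by
  have ha : a ∈ ball a r := mem_ball_self hr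
  have h1 : DifferentiableOn ℂ (fun z => deriv φ z / φ z) (ball a r) :=
    (hφ.deriv isOpen_ball).div hφ h0
  obtain ⟨g, hg⟩ := h1.isExactOn_ball
  have hgd : DifferentiableOn ℂ g (ball a r) := fun z hz =>
    (hg z hz).differentiableAt.differentiableWithinAt
  -- `φ exp(-g)` is constant
  have hconst : ∀ z ∈ ball a r, φ z * Complex.exp (-g z) = φ a * Complex.exp (-g a) := by
    intro z hz
    have hder : ∀ w ∈ ball a r, HasDerivAt (fun w => φ w * Complex.exp (-g w)) 0 w := by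
      intro w hw
      have h2 : HasDerivAt φ (deriv φ w) w :=
        (hφ.differentiableAt (isOpen_ball.mem_nhds hw)).hasDerivAt
      have h3 : HasDerivAt (fun w => Complex.exp (-g w))
          (Complex.exp (-g w) * (-(deriv φ w / φ w))) w := (hg w hw).neg.cexp
      have h4 := h2.mul h3
      have h5 : deriv φ w * Complex.exp (-g w) +
          φ w * (Complex.exp (-g w) * (-(deriv φ w / φ w))) = 0 := by
        have := h0 w hw
        field_simp
        ring
      rw [h5] at h4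
      exact h4
    have hconv : Convex ℝ (ball a r) := convex_ball a r
    refine hconv.is_const_of_fderivWithin_eq_zero (𝕜 := ℂ)
      (fun w hw => (hder w hw).differentiableAt.differentiableWithinAt) ?_ hz ha
    intro w hw
    rw [fderivWithin_of_isOpen isOpen_ball hw]
    have := (hder w hw).hasFDerivAt.fderiv
    rw [this]
    ext
    simp
  have hne : φ a * Complex.exp (-g a) ≠ 0 := mul_ne_zero (h0 a ha) (Complex.exp_ne_zero _)
  refine ⟨fun z => g z + Complex.log (φ a * Complex.exp (-g a)), hgd.add_const _, ?_⟩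
  intro z hz
  rw [Complex.exp_add, Complex.exp_log hne, ← hconst z hz, mul_comm (φ z), ← mul_assoc,
    ← Complex.exp_add]
  simp

/-- Harnack inequality for the real part of a holomorphic function -/
theorem HL_re {ψ : ℂ → ℂ} {a : ℂ} {r : ℝ} (hr : 0 < r)
    (hψ : DifferentiableOn ℂ ψ (ball a r)) (h1 : ∀ z ∈ ball a r, 0 < (ψ z).re) :
    ∀ z ∈ ball a r,
      (r - dist z a) / (r + dist z a) * (ψ a).re ≤ (ψ z).re ∧
      (ψ z).re ≤ (r + dist z a) / (r - dist z a) * (ψ a).re := by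
  intro z hz
  have ha : a ∈ ball a r := mem_ball_self hr
  have hA := h1 a ha
  set W : ℂ → ℂ := fun w => (ψ w - ψ a) / (ψ w + (starRingEnd ℂ) (ψ a)) with hW
  have hden : ∀ w ∈ ball a r, ψ w + (starRingEnd ℂ) (ψ a) ≠ 0 := by
    intro w hw h
    have h2 := congrArg Complex.re h
    rw [Complex.add_re, Complex.conj_re, Complex.zero_re] at h2
    have := h1 w hw
    linarith
  have hWd : DifferentiableOn ℂ W (ball a r) :=
    (hψ.sub_const _).div (hψ.add_const _) hden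
  have hsq : ∀ w ∈ ball a r, ‖ψ w - ψ a‖ ^ 2 ≤ ‖ψ w + (starRingEnd ℂ) (ψ a)‖ ^ 2 := by
    intro w hw
    have h3 := h1 w hw
    rw [← Complex.normSq_eq_norm_sq, ← Complex.normSq_eq_norm_sq, Complex.normSq_apply,
      Complex.normSq_apply]
    simp only [Complex.sub_re, Complex.sub_im, Complex.add_re, Complex.add_im, Complex.conj_re,
      Complex.conj_im]
    nlinarith [mul_pos h3 hA]
  have hWa : W a = 0 := by rw [hW]; simp
  have hmaps : MapsTo W (ball a r) (closedBall (W a) 1) := by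
    intro w hw
    rw [hWa, mem_closedBall, dist_zero_right, hW]
    simp only
    rw [norm_div]
    refine div_le_one_of_le₀ ?_ (norm_nonneg _)
    exact (pow_le_pow_iff_left₀ (norm_nonneg _) (norm_nonneg _) two_ne_zero).mp (hsq w hw)
  have hS := Complex.dist_le_div_mul_dist_of_mapsTo_ball hWd hmaps hz
  rw [hWa, dist_zero_right, hW] at hS
  simp only [norm_div] at hS
  have hzr : dist z a < r := mem_ball.mp hz
  set ρ := dist z a with hρ
  have hρ0 : 0 ≤ ρ := dist_nonneg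
  have hdpos : 0 < ‖ψ z + (starRingEnd ℂ) (ψ a)‖ := norm_pos_iff.mpr (hden z hz)
  rw [div_le_iff₀ hdpos] at hS
  have hS2 : r * ‖ψ z - ψ a‖ ≤ ρ * ‖ψ z + (starRingEnd ℂ) (ψ a)‖ := by
    have := mul_le_mul_of_nonneg_left hS hr.le
    calc r * ‖ψ z - ψ a‖ ≤ r * (1 / r * ρ * ‖ψ z + (starRingEnd ℂ) (ψ a)‖) := this
      _ = ρ * ‖ψ z + (starRingEnd ℂ) (ψ a)‖ := by field_simp
  have hS3 : r ^ 2 * ‖ψ z - ψ a‖ ^ 2 ≤ ρ ^ 2 * ‖ψ z + (starRingEnd ℂ) (ψ a)‖ ^ 2 := by
    rw [← mul_pow, ← mul_pow]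
    exact pow_le_pow_left₀ (by positivity) hS2 2
  rw [← Complex.normSq_eq_norm_sq, ← Complex.normSq_eq_norm_sq, Complex.normSq_apply,
    Complex.normSq_apply] at hS3
  simp only [Complex.sub_re, Complex.sub_im, Complex.add_re, Complex.add_im, Complex.conj_re,
    Complex.conj_im] at hS3
  set x := (ψ z).re with hx
  set u := (ψ a).re with hu
  set y := (ψ z).im - (ψ a).im with hy
  have hx0 : 0 < x := h1 z hz
  have hS4 : (r * (x - u)) ^ 2 ≤ (ρ * (x + u)) ^ 2 := by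
    have e1 : (ψ z).im + -(ψ a).im = y := by rw [hy]; ring
    rw [e1] at hS3
    have e2 : ρ ^ 2 ≤ r ^ 2 := pow_le_pow_left₀ hρ0 hzr.le 2
    nlinarith [mul_nonneg (sub_nonneg.mpr e2) (sq_nonneg y)]
  have hS5 := abs_le_of_sq_le_sq' hS4 (by positivity)
  refine ⟨?_, ?_⟩
  · rw [div_mul_eq_mul_div, div_le_iff₀ (by linarith)]
    nlinarith [hS5.1]
  · rw [div_mul_eq_mul_div, le_div_iff₀ (by linarith)]
    nlinarith [hS5.2]

/-- Harnack inequality for `log ‖φ‖` when `‖φ‖ > 1` -/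
theorem harnack_log {φ : ℂ → ℂ} {a : ℂ} {r : ℝ} (hr : 0 < r)
    (hφ : DifferentiableOn ℂ φ (ball a r)) (h1 : ∀ z ∈ ball a r, 1 < ‖φ z‖) :
    ∀ z ∈ ball a r,
      (r - dist z a) / (r + dist z a) * Real.log ‖φ a‖ ≤ Real.log ‖φ z‖ ∧
      Real.log ‖φ z‖ ≤ (r + dist z a) / (r - dist z a) * Real.log ‖φ a‖ := by
  obtain ⟨ψ, hψ, he⟩ := HL_log hr hφ (fun z hz h => by
    have := h1 z hz
    rw [h, norm_zero] at this
    linarith)
  have hl : ∀ z ∈ ball a r, Real.log ‖φ z‖ = (ψ z).re := by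
    intro z hz
    rw [he z hz, Complex.norm_exp, Real.log_exp]
  intro z hz
  rw [hl z hz, hl a (mem_ball_self hr)]
  refine HL_re hr hψ (fun w hw => ?_) z hz
  rw [← hl w hw]
  exact Real.log_pos (h1 w hw)

theorem harnack_pow {φ : ℂ → ℂ} {w : ℂ} {δ : ℝ} (hδ : 0 < δ)
    (hφ : DifferentiableOn ℂ φ (ball w (2 * δ))) (h0 : ∀ z ∈ ball w (2 * δ), φ z ≠ 0)
    (h1 : ∀ z ∈ ball w (2 * δ), ‖φ z‖ < 1) :
    ∀ z ∈ ball w δ, ∀ z' ∈ ball w δ, ‖φ z‖ ^ 9 ≤ ‖φ z'‖ := by
  intro z hz z' hz'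
  have h2 : (0 : ℝ) < 2 * δ := by linarith
  have hpos : ∀ v ∈ ball w (2 * δ), 0 < ‖φ v‖ := fun v hv => norm_pos_iff.mpr (h0 v hv)
  have hH := harnack_log (φ := fun v => (φ v)⁻¹) h2 (hφ.inv h0) (fun v hv => by
    rw [norm_inv]
    exact (one_lt_inv₀ (hpos v hv)).mpr (h1 v hv))
  have hsub : ∀ v ∈ ball w δ, v ∈ ball w (2 * δ) := fun v hv => by
    rw [mem_ball] at hv ⊢; linarith
  have hz1 := (hH z (hsub z hz)).1
  have hz2 := (hH z' (hsub z' hz')).2
  rw [norm_inv, norm_inv, Real.log_inv, Real.log_inv] at hz1 hz2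
  have hL : 0 ≤ -Real.log ‖φ w‖ := by
    have := Real.log_nonpos (norm_nonneg (φ w)) (h1 w (mem_ball_self h2)).le
    linarith
  set L := -Real.log ‖φ w‖ with hLdef
  have hd1 : dist z w < δ := mem_ball.mp hz
  have hd2 : dist z' w < δ := mem_ball.mp hz'
  have hn1 : 0 ≤ dist z w := dist_nonneg
  have hn2 : 0 ≤ dist z' w := dist_nonneg
  have c1 : (1 : ℝ) / 3 ≤ (2 * δ - dist z w) / (2 * δ + dist z w) := by
    rw [div_le_div_iff₀ (by norm_num) (by linarith)]
    linarith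
  have c2 : (2 * δ + dist z' w) / (2 * δ - dist z' w) ≤ 3 := by
    rw [div_le_iff₀ (by linarith)]
    linarith
  have d1 : (1 : ℝ) / 3 * L ≤ -Real.log ‖φ z‖ :=
    (mul_le_mul_of_nonneg_right c1 hL).trans hz1
  have d2 : -Real.log ‖φ z'‖ ≤ 3 * L := hz2.trans (mul_le_mul_of_nonneg_right c2 hL)
  have hfin : 9 * Real.log ‖φ z‖ ≤ Real.log ‖φ z'‖ := by linarith
  have hp := hpos z (hsub z hz)
  have hp' := hpos z' (hsub z' hz')
  have : Real.log (‖φ z‖ ^ 9) ≤ Real.log ‖φ z'‖ := by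
    rw [Real.log_pow]; push_cast; exact hfin
  exact (Real.log_le_log_iff (by positivity) hp').mp this

end Pool.Agent.HQ
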