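import Pool.Agent.HQ.Defs
import Pool.Agent.HQ.Bas
import Pool.Agent.HQ.UBas
import Pool.Agent.HQ.LEq
import Pool.Agent.HQ.G28
import Pool.Agent.HQ.HL
import Pool.Agent.HQ.Surj

/-!
# HQ module Ch85: exponential closeness propagates along a limit curve
-/

set_option autoImplicit false

open Filter Topology Set Metric

namespace Pool.Agent.HQ

/-- the points of `X j` above `w` are exponentially close to the curve `σ` -/
def Ch85_Pr (X : ℕ → ℂ → E) (σ : ℂ → E) (n : ℕ → ℕ) (R : ℝ) (w : ℂ) : Prop :=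
  ∃ C θ : ℝ, 0 ≤ C ∧ 0 < θ ∧ θ < 1 ∧
    ∀ᶠ j in atTop, ∃ v : ℂ, ‖v‖ ≤ R ∧ ‖X j w - σ v‖ ≤ C * θ ^ n j

/-- taking `m`-th roots of exponential bounds -/
theorem Ch85_root {m : ℕ} (hm : 0 < m) {C θ : ℝ} (hC : 0 ≤ C) (h0 : 0 < θ) (h1 : θ < 1) :
    ∃ C' θ' : ℝ, 0 ≤ C' ∧ 0 < θ' ∧ θ' < 1 ∧ ∀ (k : ℕ) (x : ℝ), 0 ≤ x → x ^ m ≤ C * θ ^ k →
      x ≤ C' * θ' ^ k := by
  refine ⟨C ^ ((m : ℝ)⁻¹), θ ^ ((m : ℝ)⁻¹), Real.rpow_nonneg hC _, Real.rpow_pos_of_pos h0 _,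
    Real.rpow_lt_one h0.le h1 (inv_pos.mpr (by exact_mod_cast hm)), fun k x hx h => ?_⟩
  have hr : 0 ≤ C ^ ((m : ℝ)⁻¹) * (θ ^ ((m : ℝ)⁻¹)) ^ k :=
    mul_nonneg (Real.rpow_nonneg hC _) (pow_nonneg (Real.rpow_nonneg h0.le _) _)
  have key : (C ^ ((m : ℝ)⁻¹) * (θ ^ ((m : ℝ)⁻¹)) ^ k) ^ m = C * θ ^ k := by
    rw [mul_pow, Real.rpow_inv_natCast_pow hC hm.ne', ← pow_mul, mul_comm k m, pow_mul,
      Real.rpow_inv_natCast_pow h0.le hm.ne']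
  rw [← key] at h
  exact le_of_pow_le_pow_left₀ hm.ne' hr h

/-- compactness: values close to `σ w` are values at parameters near `w` -/
theorem Ch85_near {σ : ℂ → E} (hσ : Continuous σ) (hg : ∀ v v' : ℂ, σ v = σ v' → Gm σ v σ v')
    (R : ℝ) (w : ℂ) {e : ℝ} (he : 0 < e) :
    ∃ η > 0, ∀ z : ℂ, ‖z‖ ≤ R → ‖σ z - σ w‖ < η → σ z ∈ σ '' ball w e := by
  have hO : IsOpen (interior (σ ⁻¹' (σ '' ball w e))) := isOpen_interior
  have hK : IsCompact (closedBall (0 : ℂ) R \ interior (σ ⁻¹' (σ '' ball w e))) :=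
    (isCompact_closedBall 0 R).diff hO
  rcases (closedBall (0 : ℂ) R \ interior (σ ⁻¹' (σ '' ball w e))).eq_empty_or_nonempty with h | h
  · refine ⟨1, one_pos, fun z hz _ => ?_⟩
    have hz' : z ∈ closedBall (0 : ℂ) R := by rw [mem_closedBall, dist_zero_right]; exact hz
    by_contra hcon
    have : z ∈ closedBall (0 : ℂ) R \ interior (σ ⁻¹' (σ '' ball w e)) :=
      ⟨hz', fun h' => hcon (show z ∈ σ ⁻¹' (σ '' ball w e) from interior_subset h')⟩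
    rw [h] at this
    exact this
  · have hc : ContinuousOn (fun z => ‖σ z - σ w‖)
        (closedBall (0 : ℂ) R \ interior (σ ⁻¹' (σ '' ball w e))) :=
      (continuous_norm.comp (hσ.sub continuous_const)).continuousOn
    obtain ⟨z0, hz0, hmin⟩ := hK.exists_isMinOn h hc
    refine ⟨‖σ z0 - σ w‖, ?_, fun z hz hlt => ?_⟩
    · change 0 < ‖σ z0 - σ w‖
      rw [norm_pos_iff, sub_ne_zero]
      intro heq
      apply hz0.2
      obtain ⟨r, hr, hr'⟩ := hg z0 w heq e he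
      rw [mem_interior]
      exact ⟨ball z0 r, fun z hz => hr' z hz, isOpen_ball, mem_ball_self hr⟩
    · have hz' : z ∈ closedBall (0 : ℂ) R := by rw [mem_closedBall, dist_zero_right]; exact hz
      by_contra hcon
      have hmem : z ∈ closedBall (0 : ℂ) R \ interior (σ ⁻¹' (σ '' ball w e)) :=
        ⟨hz', fun h' => hcon (show z ∈ σ ⁻¹' (σ '' ball w e) from interior_subset h')⟩
      have : ‖σ z0 - σ w‖ ≤ ‖σ z - σ w‖ := isMinOn_iff.mp hmin z hmem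
      exact absurd hlt (not_lt.mpr this)

/-- the step: near `w`, closeness at one point gives closeness everywhere -/
theorem Ch85_step {X : ℕ → ℂ → E} {σ : ℂ → E} (hX : ∀ j, Differentiable ℂ (X j))
    (hσ : Differentiable ℂ σ) (hlim : TendstoLocallyUniformly X σ atTop)
    (hne : ∃ z w, σ z ≠ σ w) (hg : ∀ v v' : ℂ, σ v = σ v' → Gm σ v σ v')
    (hdis : ∀ᶠ j in atTop, ∀ w w' : ℂ, X j w ≠ σ w') {n : ℕ → ℕ} (hn : Tendsto n atTop atTop)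
    (R : ℝ) (w : ℂ) (hw : ‖w‖ + 1 ≤ R) :
    ∃ ε > 0, ∃ δ > 0, ∃ H : E → ℂ, LEqn σ w ε δ H ∧ ∃ δ' > 0, ∀ w₂ ∈ ball w δ',
      Ch85_Pr X σ n R w₂ → (∃ C' θ' : ℝ, 0 < θ' ∧ θ' < 1 ∧ ∀ᶠ j in atTop, ∀ w' ∈ ball w δ',
        X j w' ∈ ball (σ w) δ ∧ ‖H (X j w')‖ ≤ C' * θ' ^ n j) ∧
        ∀ w' ∈ ball w δ', Ch85_Pr X σ n R w' := by
  obtain ⟨ε₀, hε₀, -, hloc⟩ := local_eq isOpen_univ (mem_univ w) hσ.differentiableOn
    (nc_of_entire hσ hne w)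
  obtain ⟨δ₀, hδ₀, H, hH⟩ := hloc (min ε₀ 1) (lt_min hε₀ one_pos) (min_le_left _ _)
  set ε := min ε₀ 1 with hεdef
  have hε : 0 < ε := lt_min hε₀ one_pos
  have hε1 : ε ≤ 1 := min_le_right _ _
  obtain ⟨CL₀, hCL₀⟩ := (hH δ₀ hδ₀ le_rfl).lip
  set CL := max CL₀ 1 with hCLdef
  have hCL1 : 1 ≤ CL := le_max_right _ _
  have hCL : ∀ z ∈ ball (σ w) δ₀, ∀ z' ∈ ball (σ w) δ₀, ‖H z - H z'‖ ≤ CL * ‖z - z'‖ := by
    intro z hz z' hz'
    refine (hCL₀ z hz z' hz').trans ?_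
    exact mul_le_mul_of_nonneg_right (le_max_left _ _) (norm_nonneg _)
  set δ := min δ₀ (1 / CL) with hδdef
  have hCL0 : 0 < CL := by linarith
  have hδ : 0 < δ := lt_min hδ₀ (by positivity)
  have hδle : δ ≤ δ₀ := min_le_left _ _
  have hδle' : δ ≤ 1 / CL := min_le_right _ _
  have hL : LEqn σ w ε δ H := hH δ hδ hδle
  have hHσ : H (σ w) = 0 := by
    rw [hL.zero _ (mem_ball_self hδ)]
    exact ⟨w, mem_ball_self hε, rfl⟩
  have hsub : ball (σ w) δ ⊆ ball (σ w) δ₀ := ball_subset_ball hδle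
  have hH1 : ∀ z ∈ ball (σ w) δ, ‖H z‖ < 1 := by
    intro z hz
    have h1 := hCL z (hsub hz) (σ w) (mem_ball_self hδ₀)
    rw [hHσ, sub_zero] at h1
    have h2 : ‖z - σ w‖ < 1 / CL := by
      rw [← dist_eq_norm]
      exact (mem_ball.mp hz).trans_le hδle'
    calc ‖H z‖ ≤ CL * ‖z - σ w‖ := h1
      _ < CL * (1 / CL) := mul_lt_mul_of_pos_left h2 hCL0
      _ = 1 := by field_simp
  -- the radius
  obtain ⟨r, hr, hrσ⟩ := Metric.continuousAt_iff.mp (hσ.continuous.continuousAt (x := w))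
    (δ / 2) (half_pos hδ)
  set δ' := min (r / 4) (ε / 2) with hδ'def
  have hδ' : 0 < δ' := lt_min (by positivity) (by positivity)
  have h2r : 2 * δ' < r := by
    have : δ' ≤ r / 4 := min_le_left _ _
    linarith
  have h2ε : 2 * δ' ≤ ε := by
    have : δ' ≤ ε / 2 := min_le_right _ _
    linarith
  have hσball : ∀ z ∈ closedBall w (2 * δ'), dist (σ z) (σ w) < δ / 2 := by
    intro z hz
    exact hrσ ((mem_closedBall.mp hz).trans_lt h2r)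
  have hev : ∀ᶠ j in atTop, ∀ z ∈ closedBall w (2 * δ'), X j z ∈ ball (σ w) δ := by
    have hu : TendstoUniformlyOn X σ atTop (closedBall w (2 * δ')) :=
      (tendstoLocallyUniformlyOn_iff_tendstoUniformlyOn_of_compact
        (isCompact_closedBall w (2 * δ'))).mp
        ((tendstoLocallyUniformlyOn_univ.mpr hlim).mono (subset_univ _))
    filter_upwards [Metric.tendstoUniformlyOn_iff.mp hu (δ / 2) (half_pos hδ)] with j hj z hz
    rw [mem_ball]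
    calc dist (X j z) (σ w) ≤ dist (X j z) (σ z) + dist (σ z) (σ w) := dist_triangle _ _ _
      _ < δ / 2 + δ / 2 := by
        rw [dist_comm (X j z)]
        exact add_lt_add (hj z hz) (hσball z hz)
      _ = δ := by ring
  refine ⟨ε, hε, δ, hδ, H, hL, δ', hδ', fun w₂ hw₂ hPr => ?_⟩
  obtain ⟨C, θ, hC, hθ0, hθ1, hPr⟩ := hPr
  obtain ⟨η, hη, hnear⟩ := Ch85_near hσ.continuous hg R w₂ hδ'
  have hw2ball : ball w₂ δ' ⊆ ball w (2 * δ') := by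
    intro z hz
    rw [mem_ball] at hz hw₂ ⊢
    calc dist z w ≤ dist z w₂ + dist w₂ w := dist_triangle _ _ _
      _ < δ' + δ' := add_lt_add hz hw₂
      _ = 2 * δ' := by ring
  have hballsub : ball w δ' ⊆ ball w (2 * δ') := ball_subset_ball (by linarith)
  -- convergence to zero
  have hpow : Tendsto (fun j => C * θ ^ n j) atTop (𝓝 0) := by
    have h1 : Tendsto (fun k : ℕ => C * θ ^ k) atTop (𝓝 (C * 0)) :=
      (tendsto_pow_atTop_nhds_zero_of_lt_one hθ0.le hθ1).const_mul C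
    rw [mul_zero] at h1
    exact h1.comp hn
  have hptw : Tendsto (fun j => X j w₂) atTop (𝓝 (σ w₂)) :=
    (tendstoLocallyUniformlyOn_univ.mpr hlim).tendsto_at (mem_univ w₂)
  have e1 : ∀ᶠ j in atTop, C * θ ^ n j < η / 2 := hpow.eventually_lt_const (by positivity)
  have e2 : ∀ᶠ j in atTop, dist (X j w₂) (σ w₂) < η / 2 :=
    (Metric.tendsto_nhds.mp hptw) (η / 2) (by positivity)
  have hphi : ∀ᶠ j in atTop, ∀ z ∈ ball w δ', ‖H (X j z)‖ ^ 9 ≤ CL * C * θ ^ n j := by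
    filter_upwards [hPr, e1, e2, hev, hdis] with j hj h1 h2 h3 h4 z hz
    obtain ⟨v, hv, hvd⟩ := hj
    have h5 : ‖σ v - σ w₂‖ < η := by
      calc ‖σ v - σ w₂‖ = ‖(σ v - X j w₂) + (X j w₂ - σ w₂)‖ := by
            rw [sub_add_sub_cancel]
        _ ≤ ‖σ v - X j w₂‖ + ‖X j w₂ - σ w₂‖ := norm_add_le _ _
        _ < η / 2 + η / 2 := by
          rw [norm_sub_rev (σ v), ← dist_eq_norm (X j w₂) (σ w₂)]
          exact add_lt_add (hvd.trans_lt h1) h2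
        _ = η := by ring
    obtain ⟨s, hs, hsv⟩ := hnear v hv h5
    have hs2 : s ∈ ball w (2 * δ') := hw2ball hs
    have hσs : σ v ∈ ball (σ w) δ := by
      rw [← hsv, mem_ball]
      exact (hσball s (ball_subset_closedBall hs2)).trans (by linarith)
    have hHv : H (σ v) = 0 := by
      rw [hL.zero _ hσs, ← hsv]
      exact ⟨s, ball_subset_ball h2ε hs2, rfl⟩
    have hX2 : X j w₂ ∈ ball (σ w) δ := h3 w₂ (ball_subset_closedBall (hballsub hw₂))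
    have h6 : ‖H (X j w₂)‖ ≤ CL * C * θ ^ n j := by
      have h7 := hCL (X j w₂) (hsub hX2) (σ v) (hsub hσs)
      rw [hHv, sub_zero] at h7
      calc ‖H (X j w₂)‖ ≤ CL * ‖X j w₂ - σ v‖ := h7
        _ ≤ CL * (C * θ ^ n j) := mul_le_mul_of_nonneg_left hvd hCL0.le
        _ = CL * C * θ ^ n j := by ring
    have hmaps : MapsTo (X j) (ball w (2 * δ')) (ball (σ w) δ) := fun z hz =>
      h3 z (ball_subset_closedBall hz)
    have hd : DifferentiableOn ℂ (fun z => H (X j z)) (ball w (2 * δ')) :=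
      hL.dh.2 (X j) (ball w (2 * δ')) isOpen_ball (hX j).differentiableOn hmaps
    have hnz : ∀ z ∈ ball w (2 * δ'), (fun z => H (X j z)) z ≠ 0 := by
      intro z hz h0
      obtain ⟨s, -, hs⟩ := (hL.zero _ (hmaps hz)).mp h0
      exact h4 z s hs.symm
    have hlt : ∀ z ∈ ball w (2 * δ'), ‖(fun z => H (X j z)) z‖ < 1 := fun z hz =>
      hH1 _ (hmaps hz)
    exact (harnack_pow hδ' hd hnz hlt z hz w₂ hw₂).trans h6
  obtain ⟨C', θ', hC', hθ'0, hθ'1, hroot⟩ := Ch85_root (m := 9) (by norm_num)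
    (mul_nonneg hCL0.le hC) hθ0 hθ1
  have hfin : ∀ᶠ j in atTop, ∀ w' ∈ ball w δ', X j w' ∈ ball (σ w) δ ∧
      ‖H (X j w')‖ ≤ C' * θ' ^ n j := by
    filter_upwards [hphi, hev] with j h1 h2 w' hw'
    exact ⟨h2 w' (ball_subset_closedBall (hballsub hw')), hroot _ _ (norm_nonneg _) (h1 w' hw')⟩
  refine ⟨⟨C', θ', hθ'0, hθ'1, hfin⟩, fun w' hw' => ?_⟩
  obtain ⟨c, hc, m, hm, hlow⟩ := hL.low
  obtain ⟨C'', θ'', hC'', hθ''0, hθ''1, hroot'⟩ := Ch85_root hm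
    (div_nonneg hC' hc.le) hθ'0 hθ'1
  refine ⟨C'', θ'', hC'', hθ''0, hθ''1, ?_⟩
  filter_upwards [hfin] with j hj
  obtain ⟨h1, h2⟩ := hj w' hw'
  obtain ⟨s, hs, hs2⟩ := hlow _ h1
  refine ⟨s, ?_, hroot' _ _ (norm_nonneg _) ?_⟩
  · have h3 : ‖s‖ ≤ ‖s - w‖ + ‖w‖ := by
      calc ‖s‖ = ‖(s - w) + w‖ := by rw [sub_add_cancel]
        _ ≤ ‖s - w‖ + ‖w‖ := norm_add_le _ _
    have h4 : ‖s - w‖ < 1 := by
      rw [← dist_eq_norm]
      exact (mem_ball.mp hs).trans_le hε1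
    linarith
  · rw [div_mul_eq_mul_div, le_div_iff₀ hc, mul_comm]
    exact hs2.trans h2

theorem chain (Q : QS) {σ : ℂ → E} (hσ : σ ∈ Q.Us) {a : ℕ → E} (ha : ∀ j, a j ∈ Sad Q.F)
    (hlim : TendstoLocallyUniformly (fun j => Q.Xs (a j)) σ atTop)
    (hdis : ∀ᶠ j in atTop, ∀ w w' : ℂ, Q.Xs (a j) w ≠ σ w') {n : ℕ → ℕ} {C θ : ℝ}
    (hθ0 : 0 < θ) (hθ1 : θ < 1) (hn : Tendsto n atTop atTop)
    (h0 : ∀ j, ‖a j - σ 0‖ ≤ C * θ ^ n j) (w₁ : ℂ) :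
    ∃ ε > 0, ∃ δ > 0, ∃ H : E → ℂ, LEqn σ w₁ ε δ H ∧ ∃ δ' > 0, ∃ C' θ' : ℝ,
      0 < θ' ∧ θ' < 1 ∧ ∀ᶠ j in atTop, ∀ w ∈ ball w₁ δ',
        Q.Xs (a j) w ∈ ball (σ w₁) δ ∧ ‖H (Q.Xs (a j) w)‖ ≤ C' * θ' ^ n j := by
  have hσU : σ ∈ Q.dual.U := by rw [QS.dual_U]; exact hσ
  have hσd : Differentiable ℂ σ := U_diff Q.dual hσU
  have hne : ∃ z w, σ z ≠ σ w := U_ne Q.dual hσU
  have hg : ∀ v v' : ℂ, σ v = σ v' → Gm σ v σ v' := fun v v' h => germG Q.dual hσU hσU h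
  have hXd : ∀ j, Differentiable ℂ (Q.Xs (a j)) := fun j => (Q.hs (a j) (ha j)).diff
  set R : ℝ := ‖w₁‖ + 1 with hR
  have hC : 0 ≤ C := by
    have h1 := (norm_nonneg _).trans (h0 0)
    have h2 : 0 < θ ^ n 0 := pow_pos hθ0 _
    exact nonneg_of_mul_nonneg_left h1 h2
  have hP0 : Ch85_Pr (fun j => Q.Xs (a j)) σ n R 0 := by
    refine ⟨C, θ, hC, hθ0, hθ1, Eventually.of_forall fun j => ⟨0, ?_, ?_⟩⟩
    · rw [norm_zero]; positivity
    · change ‖Q.Xs (a j) 0 - σ 0‖ ≤ C * θ ^ n j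
      rw [(Q.hs (a j) (ha j)).zero]; exact h0 j
  have hstep := fun (w : ℂ) (hw : ‖w‖ + 1 ≤ R) => Ch85_step (X := fun j => Q.Xs (a j)) hXd hσd
    hlim hne hg hdis hn R w hw
  choose! ε hε δ hδ H hH δ' hδ' hS using hstep
  have hball : ∀ w ∈ closedBall (0 : ℂ) ‖w₁‖, ‖w‖ + 1 ≤ R := by
    intro w hw
    rw [mem_closedBall, dist_zero_right] at hw
    linarith
  have hconn : IsPreconnected (closedBall (0 : ℂ) ‖w₁‖) :=
    (convex_closedBall (0 : ℂ) ‖w₁‖).isPreconnected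
  have hP1 : Ch85_Pr (fun j => Q.Xs (a j)) σ n R w₁ := by
    by_contra hcon
    let u : Set ℂ := ⋃ w ∈ {w ∈ closedBall (0 : ℂ) ‖w₁‖ | Ch85_Pr (fun j => Q.Xs (a j)) σ n R w},
      ball w (δ' w)
    let v : Set ℂ := ⋃ w ∈ {w ∈ closedBall (0 : ℂ) ‖w₁‖ | ¬ Ch85_Pr (fun j => Q.Xs (a j)) σ n R w},
      ball w (δ' w)
    have hu : IsOpen u := isOpen_biUnion fun w _ => isOpen_ball
    have hv : IsOpen v := isOpen_biUnion fun w _ => isOpen_ball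
    have h0m : (0 : ℂ) ∈ closedBall (0 : ℂ) ‖w₁‖ := mem_closedBall_self (norm_nonneg _)
    have h1m : w₁ ∈ closedBall (0 : ℂ) ‖w₁‖ := by rw [mem_closedBall, dist_zero_right]
    have hcov : closedBall (0 : ℂ) ‖w₁‖ ⊆ u ∪ v := by
      intro w hw
      have hself : w ∈ ball w (δ' w) := mem_ball_self (hδ' w (hball w hw))
      by_cases hp : Ch85_Pr (fun j => Q.Xs (a j)) σ n R w
      · exact Or.inl (mem_biUnion (show w ∈ {w ∈ closedBall (0 : ℂ) ‖w₁‖ |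
          Ch85_Pr (fun j => Q.Xs (a j)) σ n R w} from ⟨hw, hp⟩) hself)
      · exact Or.inr (mem_biUnion (show w ∈ {w ∈ closedBall (0 : ℂ) ‖w₁‖ |
          ¬ Ch85_Pr (fun j => Q.Xs (a j)) σ n R w} from ⟨hw, hp⟩) hself)
    have hun : (closedBall (0 : ℂ) ‖w₁‖ ∩ u).Nonempty :=
      ⟨0, h0m, mem_biUnion (show (0 : ℂ) ∈ {w ∈ closedBall (0 : ℂ) ‖w₁‖ |
          Ch85_Pr (fun j => Q.Xs (a j)) σ n R w} from ⟨h0m, hP0⟩)
          (mem_ball_self (hδ' 0 (hball 0 h0m)))⟩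
    have hvn : (closedBall (0 : ℂ) ‖w₁‖ ∩ v).Nonempty :=
      ⟨w₁, h1m, mem_biUnion (show w₁ ∈ {w ∈ closedBall (0 : ℂ) ‖w₁‖ |
          ¬ Ch85_Pr (fun j => Q.Xs (a j)) σ n R w} from ⟨h1m, hcon⟩)
          (mem_ball_self (hδ' w₁ (hball w₁ h1m)))⟩
    obtain ⟨x, -, hxu, hxv⟩ := hconn u v hu hv hcov hun hvn
    obtain ⟨w, ⟨hw, hwP⟩, hxw⟩ := mem_iUnion₂.mp hxu
    obtain ⟨w', ⟨hw', hwP'⟩, hxw'⟩ := mem_iUnion₂.mp hxv
    have hxP : Ch85_Pr (fun j => Q.Xs (a j)) σ n R x :=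
      (hS w (hball w hw) w (mem_ball_self (hδ' w (hball w hw))) hwP).2 x hxw
    exact hwP' ((hS w' (hball w' hw') x hxw' hxP).2 w' (mem_ball_self (hδ' w' (hball w' hw'))))
  have h1m : w₁ ∈ closedBall (0 : ℂ) ‖w₁‖ := by rw [mem_closedBall, dist_zero_right]
  have hb := hball w₁ h1m
  exact ⟨ε w₁, hε w₁ hb, δ w₁, hδ w₁ hb, H w₁, hH w₁ hb, δ' w₁, hδ' w₁ hb,
    (hS w₁ hb w₁ (mem_ball_self (hδ' w₁ hb)) hP1).1⟩

end Pool.Agent.HQ
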