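import Pool.Agent.HQ.Defs
import Pool.Agent.HQ.MatG

/-!
# HQ module Cnv: convergence to one of finitely many fixed points; isolated fixed points
-/

set_option autoImplicit false

open Filter Topology Set Metric

namespace Pool.Agent.HQ

/-- the distance of the points of a finite set -/
theorem Cnv_sep {Z : Set E} (hZ : Z.Finite) :
    ∃ δ > 0, ∀ z ∈ Z, ∀ z' ∈ Z, z ≠ z' → δ ≤ dist z z' := by
  set A : Finset (E × E) := (hZ.toFinset ×ˢ hZ.toFinset).filter (fun q => q.1 ≠ q.2) with hA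
  by_cases hne : A.Nonempty
  · obtain ⟨q, hq, hmin⟩ := A.exists_min_image (fun q => dist q.1 q.2) hne
    have hq2 : q.1 ≠ q.2 := (Finset.mem_filter.1 hq).2
    refine ⟨dist q.1 q.2, dist_pos.2 hq2, fun z hz z' hz' hzz => ?_⟩
    refine hmin (z, z') ?_
    rw [hA, Finset.mem_filter, Finset.mem_product]
    exact ⟨⟨hZ.mem_toFinset.2 hz, hZ.mem_toFinset.2 hz'⟩, hzz⟩
  · refine ⟨1, one_pos, fun z hz z' hz' hzz => ?_⟩
    exfalso
    apply hne
    refine ⟨(z, z'), ?_⟩
    rw [hA, Finset.mem_filter, Finset.mem_product]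
    exact ⟨⟨hZ.mem_toFinset.2 hz, hZ.mem_toFinset.2 hz'⟩, hzz⟩

theorem conv_of_fin {T : E → E} (hT : Continuous T) {Z : Set E} (hZ : Z.Finite)
    (hfix : ∀ z ∈ Z, T z = z) {x : E} (hb : Bornology.IsBounded (range fun n : ℕ => T^[n] x))
    (hl : ∀ y, MapClusterPt y atTop (fun n : ℕ => T^[n] x) → y ∈ Z) :
    ∃ z ∈ Z, Tendsto (fun n : ℕ => T^[n] x) atTop (𝓝 z) := by
  have hcomp : IsCompact (closure (range fun n : ℕ => T^[n] x)) := hb.isCompact_closure
  -- near `Z`
  have near : ∀ ε > 0, ∀ᶠ n in atTop, ∃ z ∈ Z, dist (T^[n] x) z < ε := by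
    intro ε hε
    by_contra hcon
    rw [Filter.not_eventually] at hcon
    obtain ⟨φ, hφ, hφ2⟩ := Filter.extraction_of_frequently_atTop hcon
    obtain ⟨y, -, ψ, hψ, hy⟩ := hcomp.tendsto_subseq (x := fun k => T^[φ k] x)
      (fun k => subset_closure (mem_range_self _))
    have hcl : MapClusterPt y atTop (fun n : ℕ => T^[n] x) := by
      refine MapClusterPt.of_comp (φ := fun k => φ (ψ k)) ?_ (Tendsto.mapClusterPt hy)
      exact hφ.tendsto_atTop.comp hψ.tendsto_atTop
    have hyZ := hl y hcl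
    have h1 := Metric.tendsto_atTop.1 hy ε hε
    obtain ⟨N, hN⟩ := h1
    exact hφ2 (ψ N) ⟨y, hyZ, hN N le_rfl⟩
  obtain ⟨δ, hδ, hsep⟩ := Cnv_sep hZ
  -- continuity at the points of `Z`
  have hcont : ∃ η > 0, ∀ z ∈ Z, ∀ w, dist w z < η → dist (T w) z < δ / 2 := by
    have h1 : ∀ z ∈ Z, ∃ η > 0, ∀ w, dist w z < η → dist (T w) z < δ / 2 := by
      intro z hz
      have h2 := Metric.continuous_iff.1 hT z (δ / 2) (half_pos hδ)
      rw [hfix z hz] at h2
      exact h2
    have hev : ∀ z ∈ Z, ∀ᶠ η in 𝓝[>] (0:ℝ), ∀ w, dist w z < η → dist (T w) z < δ / 2 := by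
      intro z hz
      obtain ⟨η, hη, h3⟩ := h1 z hz
      filter_upwards [Ioo_mem_nhdsGT hη] with η' hη' w hw
      exact h3 w (hw.trans hη'.2)
    have h4 : ∀ᶠ η in 𝓝[>] (0:ℝ), ∀ z ∈ Z, ∀ w, dist w z < η → dist (T w) z < δ / 2 :=
      (Filter.eventually_all_finite hZ).2 hev
    obtain ⟨η, h5, h6⟩ := (h4.and self_mem_nhdsWithin).exists
    exact ⟨η, h6, h5⟩
  obtain ⟨η, hη, hcont⟩ := hcont
  set ε : ℝ := min η (δ / 2) with hε
  have hε0 : 0 < ε := lt_min hη (half_pos hδ)
  obtain ⟨N, hN⟩ := Filter.eventually_atTop.1 (near ε hε0)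
  obtain ⟨z, hz, hzN⟩ := hN N le_rfl
  have hstay : ∀ n, N ≤ n → dist (T^[n] x) z < ε := by
    intro n hn
    induction n, hn using Nat.le_induction with
    | base => exact hzN
    | succ n hn ih =>
      obtain ⟨z', hz', hd⟩ := hN (n + 1) (by omega)
      have h1 : dist (T^[n + 1] x) z < δ / 2 := by
        rw [Function.iterate_succ_apply']
        exact hcont z hz _ (ih.trans_le (min_le_left _ _))
      by_cases hzz : z' = z
      · rw [hzz] at hd; exact hd
      · exfalso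
        have h2 := hsep z' hz' z hz hzz
        have h3 : dist z' z ≤ dist (T^[n + 1] x) z' + dist (T^[n + 1] x) z :=
          dist_triangle_left _ _ _
        have h4 : dist (T^[n + 1] x) z' < δ / 2 := hd.trans_le (min_le_right _ _)
        linarith
  refine ⟨z, hz, ?_⟩
  rw [Metric.tendsto_atTop]
  intro e he
  obtain ⟨N', hN'⟩ := Filter.eventually_atTop.1 (near (min e (δ / 2)) (lt_min he (half_pos hδ)))
  refine ⟨max N N', fun n hn => ?_⟩
  obtain ⟨z', hz', hd⟩ := hN' n (le_trans (le_max_right _ _) hn)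
  have h1 := hstay n (le_trans (le_max_left _ _) hn)
  have h1' : dist (T^[n] x) z < δ / 2 := h1.trans_le (min_le_right _ _)
  by_cases hzz : z' = z
  · rw [hzz] at hd
    exact hd.trans_le (min_le_left _ _)
  · exfalso
    have h2 := hsep z' hz' z hz hzz
    have h3 : dist z' z ≤ dist (T^[n] x) z' + dist (T^[n] x) z := dist_triangle_left _ _ _
    have h4 : dist (T^[n] x) z' < δ / 2 := hd.trans_le (min_le_right _ _)
    linarith

theorem iso_fix {T : E → E} (hT : Differentiable ℂ T) {c : E} (hc : T c = c)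
    (h : ¬ Module.End.HasEigenvalue (fderiv ℂ T c).toLinearMap 1) :
    ∀ᶠ x in 𝓝 c, T x = x → x = c := by
  set A : E →L[ℂ] E := fderiv ℂ T c - ContinuousLinearMap.id ℂ E with hA
  have hder : HasFDerivAt (fun x => T x - x) A c :=
    (hT c).hasFDerivAt.sub (hasFDerivAt_id c)
  have hinj : LinearMap.ker A.toLinearMap = ⊥ := by
    rw [LinearMap.ker_eq_bot']
    intro v hv
    by_contra hv0
    apply h
    refine Module.End.hasEigenvalue_of_hasEigenvector (x := v) ⟨?_, hv0⟩
    rw [Module.End.mem_eigenspace_iff, one_smul]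
    have h1 : fderiv ℂ T c v - v = 0 := hv
    exact sub_eq_zero.1 h1
  obtain ⟨K, -, hanti⟩ := LinearMap.exists_antilipschitzWith A.toLinearMap hinj
  have hev : ∀ᶠ z in 𝓝[≠] c, T z - z ≠ (0 : E) := hder.eventually_ne ⟨K, hanti⟩
  rw [eventually_nhdsWithin_iff] at hev
  filter_upwards [hev] with x hx hTx
  by_contra hne
  exact hx hne (sub_eq_zero.2 hTx)

end Pool.Agent.HQ
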