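import Mathlib

/-!
# Quasi-hyperbolic Henon maps: definitions

The plane is `E = ℂ × ℂ`.  A map is a permutation `F` of `E` (a polynomial automorphism in the
application); `F ^ n` denotes iterates (`n : ℕ` or `n : ℤ`).
-/

set_option autoImplicit false

open Filter Topology Set Metric

namespace Pool.Agent.HQ

/-- the complex plane of dimension two (with the sup norm) -/
abbrev E : Type := ℂ × ℂ

/-- stable set of a point `q` -/
def Ws (F : Equiv.Perm E) (q : E) : Set E :=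
  {x | Tendsto (fun n : ℕ => dist ((F ^ n) x) ((F ^ n) q)) atTop (𝓝 0)}

/-- unstable set of a point `p`: the stable set for the inverse map -/
def Wu (F : Equiv.Perm E) (p : E) : Set E := Ws F⁻¹ p

/-- saddle periodic points -/
def Sad (F : Equiv.Perm E) : Set E :=
  {p | ∃ k : ℕ, 0 < k ∧ (F ^ k) p = p ∧ ∃ l m : ℂ, 1 < ‖l‖ ∧ ‖m‖ < 1 ∧
    Module.End.HasEigenvalue (fderiv ℂ (⇑(F ^ k)) p).toLinearMap l ∧
    Module.End.HasEigenvalue (fderiv ℂ (⇑(F ^ k)) p).toLinearMap m}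

/-- attracting periodic points (sinks) -/
def Snk (F : Equiv.Perm E) : Set E :=
  {p | ∃ k : ℕ, 0 < k ∧ (F ^ k) p = p ∧
    ∀ l : ℂ, Module.End.HasEigenvalue (fderiv ℂ (⇑(F ^ k)) p).toLinearMap l → ‖l‖ < 1}

/-- the basin of a periodic point: the points whose forward orbit converges to its orbit -/
def Basin (F : Equiv.Perm E) (p : E) : Set E :=
  {x | Tendsto (fun n : ℕ => infDist ((F ^ n) x) (range fun j : ℕ => (F ^ j) p)) atTop (𝓝 0)}

/-- points with bounded forward orbit -/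
def Kplus (F : Equiv.Perm E) : Set E :=
  {x | Bornology.IsBounded (range fun n : ℕ => (F ^ n) x)}

/-- Harnack inequality along holomorphic discs on which the function is positive -/
def Harn (g : E → ℝ) : Prop :=
  ∀ (γ : ℂ → E) (a : ℂ) (r : ℝ), 0 < r → DifferentiableOn ℂ γ (ball a r) →
    (∀ z ∈ ball a r, 0 < g (γ z)) → ∀ z ∈ ball a r,
      (r - dist z a) / (r + dist z a) * g (γ a) ≤ g (γ z) ∧
      g (γ z) ≤ (r + dist z a) / (r - dist z a) * g (γ a)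

/-- zeros along holomorphic discs are not isolated -/
def NoIso (g : E → ℝ) : Prop :=
  ∀ (γ : ℂ → E) (a : ℂ) (r : ℝ), 0 < r → DifferentiableOn ℂ γ (ball a r) →
    (∀ z ∈ ball a r, z ≠ a → 0 < g (γ z)) → 0 < g (γ a)

/-- the abstract system: `P`, `M` play the role of the Green functions of `F`, `F⁻¹` -/
structure Sys where
  F : Equiv.Perm E
  dF : Differentiable ℂ (⇑F)
  dG : Differentiable ℂ (⇑(F⁻¹))
  d : ℝ
  hd : 1 < d
  P : E → ℝ
  M : E → ℝ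
  cP : Continuous P
  cM : Continuous M
  P0 : ∀ x, 0 ≤ P x
  M0 : ∀ x, 0 ≤ M x
  PF : ∀ x, P (F x) = d * P x
  MF : ∀ x, M (F⁻¹ x) = d * M x
  bdd : ∀ c : ℝ, Bornology.IsBounded {x | P x ≤ c ∧ M x ≤ c}
  neP : ∃ x, 0 < P x
  neM : ∃ x, 0 < M x
  hP : Harn P
  hM : Harn M
  iP : NoIso P
  iM : NoIso M

/-- the dual system (exchange `F` and `F⁻¹`) -/
def Sys.dual (S : Sys) : Sys where
  F := S.F⁻¹
  dF := S.dG
  dG := by rw [inv_inv]; exact S.dF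
  d := S.d
  hd := S.hd
  P := S.M
  M := S.P
  cP := S.cM
  cM := S.cP
  P0 := S.M0
  M0 := S.P0
  PF := S.MF
  MF := by rw [inv_inv]; exact S.PF
  bdd := fun c => by
    have h := S.bdd c
    simpa only [and_comm] using h
  neP := S.neM
  neM := S.neP
  hP := S.hM
  hM := S.hP
  iP := S.iM
  iM := S.iP

@[simp] theorem Sys.dual_F (S : Sys) : S.dual.F = S.F⁻¹ := rfl
@[simp] theorem Sys.dual_P (S : Sys) : S.dual.P = S.M := rfl
@[simp] theorem Sys.dual_M (S : Sys) : S.dual.M = S.P := rfl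
@[simp] theorem Sys.dual_d (S : Sys) : S.dual.d = S.d := rfl
theorem Sys.dual_dual (S : Sys) : S.dual.dual = S := rfl

/-- zero set of `P` -/
def Sys.Kp (S : Sys) : Set E := {x | S.P x = 0}

/-- zero set of `M` -/
def Sys.Km (S : Sys) : Set E := {x | S.M x = 0}

@[simp] theorem Sys.dual_Kp (S : Sys) : S.dual.Kp = S.Km := rfl
@[simp] theorem Sys.dual_Km (S : Sys) : S.dual.Km = S.Kp := rfl

/-- the points of `K` outside the interior of `K⁺` are limits of saddle points -/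
def Sys.H5 (S : Sys) : Prop :=
  ∀ x, S.P x = 0 → S.M x = 0 → x ∉ interior S.Kp → x ∈ closure (Sad S.F)

/-- connected components of the interior of `K⁺` -/
def Sys.IsComp (S : Sys) (Ω : Set E) : Prop :=
  ∃ x ∈ interior S.Kp, Ω = connectedComponentIn (interior S.Kp) x

/-- limits of the iterates of `F ^ k` on `Ω` -/
def Sys.Lim (S : Sys) (k : ℕ) (Ω : Set E) : Set (E → E) :=
  {g | ∃ m : ℕ → ℕ, Tendsto m atTop atTop ∧
    TendstoLocallyUniformlyOn (fun j => ⇑(S.F ^ (k * m j))) g atTop Ω}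

/-- a normalised parametrisation of the unstable manifold of `p` -/
structure UPar (F : Equiv.Perm E) (P : E → ℝ) (p : E) (ξ : ℂ → E) : Prop where
  diff : Differentiable ℂ ξ
  inj : Function.Injective ξ
  imm : ∀ z, deriv ξ z ≠ 0
  zero : ξ 0 = p
  range : Set.range ξ = Wu F p
  le_one : ∀ z, ‖z‖ ≤ 1 → P (ξ z) ≤ 1
  eq_one : ∃ z, ‖z‖ ≤ 1 ∧ P (ξ z) = 1

/-- every sequence of the family has a locally uniformly convergent subsequence -/
def Nrml (X : E → ℂ → E) (A : Set E) : Prop :=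
  ∀ p : ℕ → E, (∀ n, p n ∈ A) → ∃ φ : ℕ → ℕ, StrictMono φ ∧
    ∃ g : ℂ → E, TendstoLocallyUniformly (fun n => X (p (φ n))) g atTop

/-- holomorphic along holomorphic discs -/
def DH {Y : Type} [NormedAddCommGroup Y] [NormedSpace ℂ Y] (W : Set E) (g : E → Y) : Prop :=
  ContinuousOn g W ∧ ∀ (γ : ℂ → E) (D : Set ℂ), IsOpen D → DifferentiableOn ℂ γ D →
    MapsTo γ D W → DifferentiableOn ℂ (fun z => g (γ z)) D

/-- not locally constant at a point -/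
def NC {Y : Type} [TopologicalSpace Y] (Γ : ℂ → Y) (s : ℂ) : Prop := ∃ᶠ z in 𝓝 s, Γ z ≠ Γ s

/-- the germ of `g` at `z0` is contained in the germ of `Γ` at `s0` -/
def Gm (g : ℂ → E) (z0 : ℂ) (Γ : ℂ → E) (s0 : ℂ) : Prop :=
  ∀ ε > 0, ∃ r > 0, ∀ z ∈ ball z0 r, g z ∈ Γ '' ball s0 ε

/-! ## iterates and saddle points -/

theorem diff_pow {F : Equiv.Perm E} (hF : Differentiable ℂ (⇑F)) (n : ℕ) :
    Differentiable ℂ (⇑(F ^ n)) := by
  induction n with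
  | zero => simp
  | succ n ih =>
    rw [pow_succ]
    exact ih.comp hF

theorem fderiv_inv_comp {A B : E → E} {p : E} (hA : Differentiable ℂ A) (hB : Differentiable ℂ B)
    (h : ∀ x, B (A x) = x) (v : E) : fderiv ℂ B (A p) (fderiv ℂ A p v) = v := by
  have h1 : fderiv ℂ (B ∘ A) p = (fderiv ℂ B (A p)).comp (fderiv ℂ A p) :=
    fderiv_comp p (hB _) (hA _)
  have h2 : (B ∘ A) = id := funext h
  rw [h2, fderiv_id] at h1
  have := congrArg (fun L : E →L[ℂ] E => L v) h1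
  simpa using this.symm

theorem Sad_inv_sub {F : Equiv.Perm E} (hF : Differentiable ℂ (⇑F))
    (hG : Differentiable ℂ (⇑(F⁻¹))) : Sad F ⊆ Sad F⁻¹ := by
  rintro p ⟨k, hk, hp, l, m, hl, hm, hel, hem⟩
  have hA := diff_pow hF k
  have hB := diff_pow hG k
  have hBA : ∀ x, (F⁻¹ ^ k) ((F ^ k) x) = x := fun x => by
    rw [inv_pow]; exact (F ^ k).symm_apply_apply x
  have hp' : (F⁻¹ ^ k) p = p := by
    conv_lhs => rw [← hp]
    exact hBA p
  have key : ∀ v : E, fderiv ℂ (⇑(F⁻¹ ^ k)) p (fderiv ℂ (⇑(F ^ k)) p v) = v := by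
    intro v
    have := fderiv_inv_comp (p := p) hA hB hBA v
    rwa [hp] at this
  have eig : ∀ c : ℂ, Module.End.HasEigenvalue (fderiv ℂ (⇑(F ^ k)) p).toLinearMap c →
      c ≠ 0 ∧ Module.End.HasEigenvalue (fderiv ℂ (⇑(F⁻¹ ^ k)) p).toLinearMap c⁻¹ := by
    intro c hc
    obtain ⟨v, hv⟩ := hc.exists_hasEigenvector
    have hv1 : fderiv ℂ (⇑(F ^ k)) p v = c • v := hv.apply_eq_smul
    have hv2 := key v
    rw [hv1, map_smul] at hv2
    have hc0 : c ≠ 0 := by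
      rintro rfl
      rw [zero_smul] at hv2
      exact hv.2 hv2.symm
    refine ⟨hc0, Module.End.hasEigenvalue_of_hasEigenvector (x := v) ⟨?_, hv.2⟩⟩
    rw [Module.End.mem_eigenspace_iff]
    change fderiv ℂ (⇑(F⁻¹ ^ k)) p v = c⁻¹ • v
    rw [eq_inv_smul_iff₀ hc0]
    exact hv2
  obtain ⟨hl0, hel'⟩ := eig l hel
  obtain ⟨hm0, hem'⟩ := eig m hem
  refine ⟨k, hk, hp', m⁻¹, l⁻¹, ?_, ?_, hem', hel'⟩
  · rw [norm_inv]
    exact (one_lt_inv₀ (norm_pos_iff.2 hm0)).2 hm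
  · rw [norm_inv]
    exact inv_lt_one_of_one_lt₀ hl

theorem Sad_inv {F : Equiv.Perm E} (hF : Differentiable ℂ (⇑F))
    (hG : Differentiable ℂ (⇑(F⁻¹))) : Sad F⁻¹ = Sad F := by
  refine Subset.antisymm ?_ (Sad_inv_sub hF hG)
  have := Sad_inv_sub hG (by rw [inv_inv]; exact hF)
  rwa [inv_inv] at this

theorem Sad_apply {F : Equiv.Perm E} (hF : Differentiable ℂ (⇑F))
    (hG : Differentiable ℂ (⇑(F⁻¹))) {p : E} (hp : p ∈ Sad F) : F p ∈ Sad F := by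
  obtain ⟨k, hk, hp, l, m, hl, hm, hel, hem⟩ := hp
  have hA := diff_pow hF k
  have hfix : (F ^ k) (F p) = F p := by
    have : (F ^ k) (F p) = F ((F ^ k) p) := by
      rw [← Equiv.Perm.mul_apply, ← Equiv.Perm.mul_apply, ← pow_succ, pow_succ']
    rw [this, hp]
  have hinj : ∀ v : E, fderiv ℂ (⇑(F⁻¹)) (F p) (fderiv ℂ (⇑F) p v) = v :=
    fun v => fderiv_inv_comp hF hG (fun x => F.symm_apply_apply x) v
  have key : ∀ v : E, fderiv ℂ (⇑(F ^ k)) (F p) (fderiv ℂ (⇑F) p v) =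
      fderiv ℂ (⇑F) p (fderiv ℂ (⇑(F ^ k)) p v) := by
    intro v
    have h1 : fderiv ℂ (⇑(F ^ k) ∘ ⇑F) p = (fderiv ℂ (⇑(F ^ k)) (F p)).comp (fderiv ℂ (⇑F) p) :=
      fderiv_comp p (hA _) (hF _)
    have h2 : fderiv ℂ (⇑F ∘ ⇑(F ^ k)) p =
        (fderiv ℂ (⇑F) ((F ^ k) p)).comp (fderiv ℂ (⇑(F ^ k)) p) :=
      fderiv_comp p (hF _) (hA _)
    have h3 : (⇑(F ^ k) ∘ ⇑F) = (⇑F ∘ ⇑(F ^ k)) := by
      funext x
      change (F ^ k) (F x) = F ((F ^ k) x)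
      rw [← Equiv.Perm.mul_apply, ← Equiv.Perm.mul_apply, ← pow_succ, pow_succ']
    rw [h3, h2, hp] at h1
    have := congrArg (fun L : E →L[ℂ] E => L v) h1
    exact this.symm
  have eig : ∀ c : ℂ, Module.End.HasEigenvalue (fderiv ℂ (⇑(F ^ k)) p).toLinearMap c →
      Module.End.HasEigenvalue (fderiv ℂ (⇑(F ^ k)) (F p)).toLinearMap c := by
    intro c hc
    obtain ⟨v, hv⟩ := hc.exists_hasEigenvector
    have hv1 : fderiv ℂ (⇑(F ^ k)) p v = c • v := hv.apply_eq_smul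
    refine Module.End.hasEigenvalue_of_hasEigenvector (x := fderiv ℂ (⇑F) p v) ⟨?_, ?_⟩
    · rw [Module.End.mem_eigenspace_iff]
      change fderiv ℂ (⇑(F ^ k)) (F p) (fderiv ℂ (⇑F) p v) = c • fderiv ℂ (⇑F) p v
      rw [key, hv1, map_smul]
    · intro h0
      have := hinj v
      rw [h0, map_zero] at this
      exact hv.2 this.symm
  exact ⟨k, hk, hfix, l, m, hl, hm, eig l hel, eig m hem⟩

/-- a quasi-hyperbolic system -/
structure QS extends Sys where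
  Xu : E → ℂ → E
  Xs : E → ℂ → E
  hu : ∀ p ∈ Sad F, UPar F P p (Xu p)
  hs : ∀ p ∈ Sad F, UPar F⁻¹ M p (Xs p)
  nu : Nrml Xu (Sad F)
  ns : Nrml Xs (Sad F)

/-- the dual quasi-hyperbolic system -/
def QS.dual (Q : QS) : QS where
  toSys := Q.toSys.dual
  Xu := Q.Xs
  Xs := Q.Xu
  hu := by
    intro p hp
    have hp' : p ∈ Sad Q.F := by rwa [Sys.dual_F, Sad_inv Q.dF Q.dG] at hp
    exact Q.hs p hp'
  hs := by
    intro p hp
    have hp' : p ∈ Sad Q.F := by rwa [Sys.dual_F, Sad_inv Q.dF Q.dG] at hp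
    exact Q.hu p hp'
  nu := by
    rw [Sys.dual_F, Sad_inv Q.dF Q.dG]
    exact Q.ns
  ns := by
    rw [Sys.dual_F, Sad_inv Q.dF Q.dG]
    exact Q.nu

@[simp] theorem QS.dual_F (Q : QS) : Q.dual.F = Q.F⁻¹ := rfl
@[simp] theorem QS.dual_P (Q : QS) : Q.dual.P = Q.M := rfl
@[simp] theorem QS.dual_M (Q : QS) : Q.dual.M = Q.P := rfl
@[simp] theorem QS.dual_d (Q : QS) : Q.dual.d = Q.d := rfl
@[simp] theorem QS.dual_Xu (Q : QS) : Q.dual.Xu = Q.Xs := rfl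
@[simp] theorem QS.dual_Xs (Q : QS) : Q.dual.Xs = Q.Xu := rfl
@[simp] theorem QS.dual_Kp (Q : QS) : Q.dual.Kp = Q.Km := rfl
@[simp] theorem QS.dual_Km (Q : QS) : Q.dual.Km = Q.Kp := rfl
theorem QS.dual_dual (Q : QS) : Q.dual.dual = Q := rfl
theorem QS.dual_Sad (Q : QS) : Sad Q.dual.F = Sad Q.F := Sad_inv Q.dF Q.dG

/-- limits of the normalised unstable parametrisations -/
def QS.U (Q : QS) : Set (ℂ → E) :=
  {ξ | ∃ p : ℕ → E, (∀ n, p n ∈ Sad Q.F) ∧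
    TendstoLocallyUniformly (fun n => Q.Xu (p n)) ξ atTop}

/-- limits of the normalised stable parametrisations -/
def QS.Us (Q : QS) : Set (ℂ → E) :=
  {ξ | ∃ p : ℕ → E, (∀ n, p n ∈ Sad Q.F) ∧
    TendstoLocallyUniformly (fun n => Q.Xs (p n)) ξ atTop}

theorem QS.dual_U (Q : QS) : Q.dual.U = Q.Us := by
  unfold QS.U QS.Us
  rw [Q.dual_Sad]
  rfl

theorem QS.dual_Us (Q : QS) : Q.dual.Us = Q.U := by
  unfold QS.U QS.Us
  rw [Q.dual_Sad]
  rfl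

/-- growth rates along the orbits of the curves in `U` -/
structure Gr (Q : QS) (κ Λ : ℝ) : Prop where
  one_lt : 1 < κ
  le : κ ≤ Λ
  orb : ∀ ξ ∈ Q.U, ∃ (η : ℤ → ℂ → E) (a : ℤ → ℂ), η 0 = ξ ∧ a 0 = 1 ∧
    (∀ n, η n ∈ Q.U) ∧ (∀ n, a n ≠ 0) ∧ (∀ n z, (Q.F ^ n) (ξ z) = η n (a n * z)) ∧
    ∀ n, κ * ‖a n‖ ≤ ‖a (n + 1)‖ ∧ ‖a (n + 1)‖ ≤ Λ * ‖a n‖

/-- the thick part: values of curves at points of modulus in `[1/Λ, 1]` around which `P = 0` -/
def QS.Kc (Q : QS) (Λ : ℝ) (N : ℕ) : Set E :=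
  {x | ∃ ξ ∈ Q.U, ∃ u : ℂ, 1 / Λ ≤ ‖u‖ ∧ ‖u‖ ≤ 1 ∧ x = ξ u ∧
    ∀ v, ‖v - u‖ < (1 / 3) ^ N * ‖u‖ → Q.P (ξ v) = 0}

/-- `H` is a local equation of the curve `Γ` at the parameter `s0` -/
structure LEqn (Γ : ℂ → E) (s0 : ℂ) (ε δ : ℝ) (H : E → ℂ) : Prop where
  pos : 0 < δ
  dh : DH (ball (Γ s0) δ) H
  lip : ∃ C : ℝ, ∀ z ∈ ball (Γ s0) δ, ∀ w ∈ ball (Γ s0) δ, ‖H z - H w‖ ≤ C * ‖z - w‖
  zero : ∀ z ∈ ball (Γ s0) δ, H z = 0 ↔ z ∈ Γ '' ball s0 ε
  low : ∃ c > 0, ∃ m : ℕ, 0 < m ∧ ∀ z ∈ ball (Γ s0) δ, ∃ s ∈ ball s0 ε,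
    c * ‖z - Γ s‖ ^ m ≤ ‖H z‖

/-- `b` is a zero of `g ∘ T` on the boundary of a disc (centre `a`) where `g ∘ T` is positive -/
structure Acc (g : E → ℝ) (T : ℂ → E) (D : Set ℂ) (a b : ℂ) : Prop where
  ne : a ≠ b
  zero : g (T b) = 0
  pos : ∀ t ∈ ball a (dist a b), 0 < g (T t)
  sub : closedBall a (dist a b) ⊆ D

end Pool.Agent.HQ
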