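import Pool.Agent.HQ.Defs
import Pool.Agent.HQ.Bas
import Pool.Agent.HQ.Arz
import Pool.Agent.HQ.Lines
import Pool.Agent.HQ.DHb

/-!
# HQ module LimW: limits of iterates on open subsets of K+
-/

set_option autoImplicit false

open Filter Topology Set Metric

namespace Pool.Agent.HQ

theorem equi_Kp (S : Sys) {x : E} (hx : x ∈ interior S.Kp) :
    ∃ r > 0, ball x r ⊆ interior S.Kp ∧ ∃ C : ℝ, 0 ≤ C ∧ ∀ n : ℕ, ∀ y ∈ ball x r, ∀ z ∈ ball x r,
      dist ((S.F ^ n) y) ((S.F ^ n) z) ≤ C * dist y z := by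
  have h1 : ∀ᶠ y in 𝓝 x, S.M y < S.M x + 1 :=
    S.cM.continuousAt.eventually (gt_mem_nhds (lt_add_one _))
  have h2 : ∀ᶠ y in 𝓝 x, y ∈ interior S.Kp := isOpen_interior.mem_nhds hx
  obtain ⟨r, hr, hball⟩ := Metric.eventually_nhds_iff_ball.1 (h1.and h2)
  obtain ⟨R, hR⟩ := S.fwd_bdd (S.M x + 1)
  have hbd : ∀ n : ℕ, ∀ y ∈ ball x r, ‖(S.F ^ n) y‖ ≤ R := fun n y hy =>
    hR y (interior_subset (s := S.Kp) (hball y hy).2) (hball y hy).1.le n
  have hR0 : 0 ≤ R := (norm_nonneg _).trans (hbd 0 x (mem_ball_self hr))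
  refine ⟨r / 2, by positivity, fun y hy => (hball y (ball_subset_ball (by linarith) hy)).2,
    8 * R / r, by positivity, fun n y hy z hz => ?_⟩
  rw [dist_eq_norm, dist_eq_norm]
  exact lip_of_bdd hr (dh_of_diff (S.diff_pow n) _) (hbd n) y hy z hz

theorem lim_W (S : Sys) {W : Set E} (hW : IsOpen W) (hK : W ⊆ S.Kp) (n : ℕ → ℕ) :
    ∃ φ : ℕ → ℕ, StrictMono φ ∧ ∃ g : E → E, DH W g ∧
      TendstoLocallyUniformlyOn (fun i => ⇑(S.F ^ (n (φ i)))) g atTop W ∧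
      (Tendsto n atTop atTop → ∀ x ∈ W, S.P (g x) = 0 ∧ S.M (g x) = 0) := by
  have hb : ∀ x ∈ W, Bornology.IsBounded (range fun i : ℕ => (S.F ^ (n i)) x) := by
    intro x hx
    obtain ⟨R, hR⟩ := S.fwd_bdd (S.M x)
    rw [isBounded_iff_forall_norm_le]
    refine ⟨R, ?_⟩
    rintro _ ⟨i, rfl⟩
    exact hR x (hK hx) le_rfl (n i)
  have hl : ∀ x ∈ W, ∃ r > 0, ball x r ⊆ W ∧ ∃ C : ℝ, ∀ i : ℕ, ∀ y ∈ ball x r, ∀ z ∈ ball x r,
      dist ((S.F ^ (n i)) y) ((S.F ^ (n i)) z) ≤ C * dist y z := by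
    intro x hx
    have hxi : x ∈ interior S.Kp := interior_maximal hK hW hx
    obtain ⟨r, hr, -, C, -, hC⟩ := equi_Kp S hxi
    obtain ⟨r', hr', hball⟩ := Metric.isOpen_iff.1 hW x hx
    refine ⟨min r r', lt_min hr hr', (ball_subset_ball (min_le_right _ _)).trans hball, C,
      fun i y hy z hz => hC (n i) y (ball_subset_ball (min_le_left _ _) hy) z
        (ball_subset_ball (min_le_left _ _) hz)⟩
  obtain ⟨φ, hφ, g, hlim⟩ := arzela hW (fun i => ⇑(S.F ^ (n i))) hb hl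
  refine ⟨φ, hφ, g, dh_lim hW (fun i => S.diff_pow _) hlim, hlim, fun hn x hx => ?_⟩
  have ht : Tendsto (fun i => (S.F ^ (n (φ i))) x) atTop (𝓝 (g x)) := hlim.tendsto_at hx
  constructor
  · have h1 : Tendsto (fun i => S.P ((S.F ^ (n (φ i))) x)) atTop (𝓝 (S.P (g x))) :=
      (S.cP.tendsto _).comp ht
    have h2 : ∀ i, S.P ((S.F ^ (n (φ i))) x) = 0 := by
      intro i
      have hx0 : S.P x = 0 := hK hx
      rw [S.P_pow, hx0, mul_zero]
    simp only [h2] at h1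
    exact tendsto_nhds_unique h1 tendsto_const_nhds
  · exact S.M_lim (x := fun _ => x) (n := fun i => n (φ i)) (hn.comp hφ.tendsto_atTop)
      (c := S.M x) (fun _ => le_rfl) ht

end Pool.Agent.HQ
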