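import Pool.Agent.HQ.Defs
import Pool.Agent.HQ.Bas
import Pool.Agent.HQ.Cmp
import Pool.Agent.HQ.LimW
import Pool.Agent.HQ.DHb
import Pool.Agent.HQ.Arz

/-!
# HQ module Lm50: limits of iterates on a periodic component
-/

set_option autoImplicit false

open Filter Topology Set Metric

namespace Pool.Agent.HQ

/-- locally uniform convergence to a continuous map is continuous convergence -/
theorem Lm50_cc {F : ℕ → E → E} {f : E → E} {s : Set E} (hf : ContinuousOn f s)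
    (h : TendstoLocallyUniformlyOn F f atTop s) {x : E} (hx : x ∈ s) :
    Tendsto (fun y : ℕ × E => F y.1 y.2) (atTop ×ˢ 𝓝[s] x) (𝓝 (f x)) := by
  rw [Metric.tendsto_nhds]
  intro ε hε
  rw [Metric.tendstoLocallyUniformlyOn_iff] at h
  obtain ⟨t, ht, h1⟩ := h (ε / 2) (half_pos hε) x hx
  have h2 : ∀ᶠ y in 𝓝[s] x, dist (f y) (f x) < ε / 2 :=
    Metric.tendsto_nhds.1 (hf x hx) (ε / 2) (half_pos hε)
  have h3 : ∀ᶠ y in 𝓝[s] x, y ∈ t ∧ dist (f y) (f x) < ε / 2 :=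
    (Filter.eventually_mem_set.2 ht).and h2
  have h4 := h1.prod_mk h3
  filter_upwards [h4] with y hy
  obtain ⟨ha, hb, hc⟩ := hy
  have hd := ha y.2 hb
  calc dist (F y.1 y.2) (f x) ≤ dist (F y.1 y.2) (f y.2) + dist (f y.2) (f x) :=
        dist_triangle _ _ _
    _ < ε / 2 + ε / 2 := by rw [dist_comm (F y.1 y.2) (f y.2)]; exact add_lt_add hd hc
    _ = ε := add_halves ε

/-- continuous convergence is locally uniform convergence -/
theorem Lm50_cc' {F : ℕ → E → E} {f : E → E} {s : Set E} (hf : ContinuousOn f s)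
    (h : ∀ x ∈ s, Tendsto (fun y : ℕ × E => F y.1 y.2) (atTop ×ˢ 𝓝[s] x) (𝓝 (f x))) :
    TendstoLocallyUniformlyOn F f atTop s := by
  rw [Metric.tendstoLocallyUniformlyOn_iff]
  intro ε hε x hx
  have h1 := Metric.tendsto_nhds.1 (h x hx) (ε / 2) (half_pos hε)
  obtain ⟨pa, ha, pb, hb, hab⟩ := Filter.eventually_prod_iff.1 h1
  have h2 : ∀ᶠ y in 𝓝[s] x, dist (f y) (f x) < ε / 2 :=
    Metric.tendsto_nhds.1 (hf x hx) (ε / 2) (half_pos hε)
  refine ⟨{y | pb y ∧ dist (f y) (f x) < ε / 2}, hb.and h2, ?_⟩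
  filter_upwards [ha] with n hn y hy
  have h3 := hab hn hy.1
  calc dist (f y) (F n y) ≤ dist (f y) (f x) + dist (F n y) (f x) := dist_triangle_right _ _ _
    _ < ε / 2 + ε / 2 := add_lt_add hy.2 h3
    _ = ε := add_halves ε

section
variable {S : Sys} {k : ℕ} {Ω : Set E} {g : E → E}

theorem Lim_dh (hΩ : S.IsComp Ω) (hg : g ∈ S.Lim k Ω) : DH Ω g := by
  obtain ⟨m, -, h⟩ := hg
  exact dh_lim hΩ.isOpen (fun n => S.diff_pow (k * m n)) h

theorem Lim_K (hk : 0 < k) (hΩ : S.IsComp Ω) (hg : g ∈ S.Lim k Ω) :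
    ∀ x ∈ Ω, S.P (g x) = 0 ∧ S.M (g x) = 0 := by
  obtain ⟨m, hm, h⟩ := hg
  intro x hx
  have h1 := h.tendsto_at hx
  have hx0 : S.P x = 0 := by
    have hxK : x ∈ S.Kp := interior_subset (hΩ.sub hx)
    exact hxK
  constructor
  · have h2 : Tendsto (fun j => S.P ((S.F ^ (k * m j)) x)) atTop (𝓝 (S.P (g x))) :=
      (S.cP.tendsto (g x)).comp h1
    have h3 : (fun j => S.P ((S.F ^ (k * m j)) x)) = fun _ => (0 : ℝ) := by
      funext j
      rw [S.P_pow, hx0, mul_zero]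
    rw [h3] at h2
    exact (tendsto_nhds_unique h2 tendsto_const_nhds)
  · have hkm : Tendsto (fun j => k * m j) atTop atTop := hm.const_mul_atTop' hk
    exact S.M_lim hkm (x := fun _ => x) (c := S.M x) (fun _ => le_rfl) h1

theorem Lm50_mem (hF : (⇑(S.F ^ k)) '' Ω = Ω) (n : ℕ) {x : E} (hx : x ∈ Ω) :
    (S.F ^ (k * n)) x ∈ Ω := by
  induction n with
  | zero => simpa using hx
  | succ n ih =>
    rw [mul_add, mul_one, add_comm, pow_add, Equiv.Perm.mul_apply]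
    rw [← hF]
    exact mem_image_of_mem _ ih

theorem Lim_closure (hΩ : S.IsComp Ω) (hF : (⇑(S.F ^ k)) '' Ω = Ω) (hg : g ∈ S.Lim k Ω) :
    ∀ x ∈ Ω, g x ∈ closure Ω := by
  obtain ⟨m, -, h⟩ := hg
  intro x hx
  exact mem_closure_of_tendsto (h.tendsto_at hx)
    (Eventually.of_forall fun j => Lm50_mem hF (m j) hx)

theorem Lim_sub (S : Sys) (k : ℕ) {Ω : Set E} (hΩ : S.IsComp Ω) {m : ℕ → ℕ}
    (hm : Tendsto m atTop atTop) :
    ∃ φ : ℕ → ℕ, StrictMono φ ∧ ∃ g ∈ S.Lim k Ω,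
      TendstoLocallyUniformlyOn (fun j => ⇑(S.F ^ (k * m (φ j)))) g atTop Ω := by
  obtain ⟨φ, hφ, g, -, h, -⟩ := lim_W S hΩ.isOpen (hΩ.sub.trans interior_subset)
    (fun j => k * m j)
  exact ⟨φ, hφ, g, ⟨fun j => m (φ j), hm.comp hφ.tendsto_atTop, h⟩, h⟩

theorem Lim_comm (hΩ : S.IsComp Ω) (hF : (⇑(S.F ^ k)) '' Ω = Ω) (hg : g ∈ S.Lim k Ω) :
    ∀ x ∈ Ω, g ((S.F ^ k) x) = (S.F ^ k) (g x) := by
  obtain ⟨m, -, h⟩ := hg
  intro x hx
  have hx' : (S.F ^ k) x ∈ Ω := by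
    have h0 : (S.F ^ k) x ∈ (⇑(S.F ^ k)) '' Ω := mem_image_of_mem _ hx
    rwa [hF] at h0
  have h1 := h.tendsto_at hx
  have h2 := h.tendsto_at hx'
  have h3 : Tendsto (fun j => (S.F ^ k) ((S.F ^ (k * m j)) x)) atTop (𝓝 ((S.F ^ k) (g x))) :=
    ((S.diff_pow k).continuous.tendsto (g x)).comp h1
  have h4 : (fun j => (S.F ^ k) ((S.F ^ (k * m j)) x)) =
      fun j => (S.F ^ (k * m j)) ((S.F ^ k) x) := by
    funext j
    rw [← Equiv.Perm.mul_apply, ← Equiv.Perm.mul_apply, ← pow_add, ← pow_add, add_comm]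
  rw [h4] at h3
  exact tendsto_nhds_unique h2 h3

theorem Lim_shift (hΩ : S.IsComp Ω) (hg : g ∈ S.Lim k Ω) (q : ℤ) :
    (fun x => (S.F ^ ((k : ℤ) * q)) (g x)) ∈ S.Lim k Ω := by
  have hgc := (Lim_dh hΩ hg).1
  obtain ⟨m, hm, h⟩ := hg
  have hcont : Continuous (⇑(S.F ^ ((k : ℤ) * q))) := (S.diff_zpow _).continuous
  have hge : ∀ᶠ j in atTop, (-q).toNat ≤ m j := hm.eventually_ge_atTop _
  refine ⟨fun j => ((m j : ℤ) + q).toNat, ?_, ?_⟩
  · rw [Filter.tendsto_atTop]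
    intro b
    have h1 : ∀ᶠ j in atTop, b + (-q).toNat ≤ m j := hm.eventually_ge_atTop _
    filter_upwards [h1] with j hj
    omega
  · refine Lm50_cc' (hcont.comp_continuousOn hgc) ?_
    intro x hx
    have h1 := Lm50_cc hgc h hx
    have h2 : Tendsto (fun y : ℕ × E => (S.F ^ ((k : ℤ) * q)) ((S.F ^ (k * m y.1)) y.2))
        (atTop ×ˢ 𝓝[Ω] x) (𝓝 ((S.F ^ ((k : ℤ) * q)) (g x))) := (hcont.tendsto _).comp h1
    refine h2.congr' ?_
    have h3 : ∀ᶠ y : ℕ × E in atTop ×ˢ 𝓝[Ω] x, (-q).toNat ≤ m y.1 :=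
      Filter.tendsto_fst.eventually hge
    filter_upwards [h3] with y hy
    have h4 : ((m y.1 : ℤ) + q).toNat = (m y.1 : ℤ) + q := Int.toNat_of_nonneg (by omega)
    have h5 : S.F ^ ((k : ℤ) * q) * S.F ^ (k * m y.1) =
        S.F ^ (k * ((m y.1 : ℤ) + q).toNat) := by
      rw [← zpow_natCast S.F (k * m y.1), ← zpow_natCast S.F (k * ((m y.1 : ℤ) + q).toNat),
        ← zpow_add]
      have h6 : ((k * ((m y.1 : ℤ) + q).toNat : ℕ) : ℤ) = (k : ℤ) * q + ((k * m y.1 : ℕ) : ℤ) := by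
        rw [Nat.cast_mul, Nat.cast_mul, h4]
        ring
      rw [h6]
    rw [← Equiv.Perm.mul_apply, h5]

theorem Lim_seq (hk : 0 < k) (hΩ : S.IsComp Ω) {gs : ℕ → E → E} (hgs : ∀ j, gs j ∈ S.Lim k Ω) :
    ∃ φ : ℕ → ℕ, StrictMono φ ∧ ∃ h ∈ S.Lim k Ω,
      TendstoLocallyUniformlyOn (fun j => gs (φ j)) h atTop Ω := by
  have hO := hΩ.isOpen
  -- a subsequence converges
  have hsub : ∃ φ : ℕ → ℕ, StrictMono φ ∧ ∃ h : E → E,
      TendstoLocallyUniformlyOn (fun j => gs (φ j)) h atTop Ω := by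
    refine arzela hO gs ?_ ?_
    · intro x hx
      obtain ⟨R, hR⟩ := S.K_bdd
      rw [isBounded_iff_forall_norm_le]
      refine ⟨R, ?_⟩
      rintro _ ⟨n, rfl⟩
      have h1 := Lim_K hk hΩ (hgs n) x hx
      exact hR _ h1.1 h1.2
    · intro x hx
      obtain ⟨r, hr, -, C, -, hC⟩ := equi_Kp S (hΩ.sub hx)
      obtain ⟨r', hr', hb'⟩ := Metric.isOpen_iff.1 hO x hx
      refine ⟨min r r', lt_min hr hr', (ball_subset_ball (min_le_right _ _)).trans hb', C, ?_⟩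
      intro n y hy z hz
      obtain ⟨m, -, h⟩ := hgs n
      have hyΩ : y ∈ Ω := hb' (ball_subset_ball (min_le_right _ _) hy)
      have hzΩ : z ∈ Ω := hb' (ball_subset_ball (min_le_right _ _) hz)
      have h1 := (h.tendsto_at hyΩ).dist (h.tendsto_at hzΩ)
      exact le_of_tendsto h1 (Eventually.of_forall fun j =>
        hC _ y (ball_subset_ball (min_le_left _ _) hy) z (ball_subset_ball (min_le_left _ _) hz))
  obtain ⟨φ, hφ, h, hh⟩ := hsub
  refine ⟨φ, hφ, h, ?_, hh⟩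
  -- an exhaustion
  have : LocallyCompactSpace Ω := hO.locallyCompactSpace
  let K : CompactExhaustion Ω := default
  let C : ℕ → Set E := fun n => Subtype.val '' (K n)
  have hCc : ∀ n, IsCompact (C n) := fun n => (K.isCompact n).image continuous_subtype_val
  have hCs : ∀ n, C n ⊆ Ω := by
    rintro n _ ⟨y, -, rfl⟩
    exact y.2
  have hCe : ∀ A : Set E, A ⊆ Ω → IsCompact A → ∃ N, ∀ n, N ≤ n → A ⊆ C n := by
    intro A hA hAc
    have h1 : IsCompact (Subtype.val ⁻¹' A : Set Ω) := by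
      rw [Subtype.isCompact_iff, Subtype.image_preimage_coe, inter_eq_right.2 hA]
      exact hAc
    obtain ⟨N, hN⟩ := K.exists_superset_of_isCompact h1
    refine ⟨N, fun n hn x hx => ⟨⟨x, hA hx⟩, K.subset hn (hN hx), rfl⟩⟩
  have hcho : ∀ n : ℕ, ∃ a : ℕ, n ≤ a ∧ ∀ x ∈ C n,
      dist (gs (φ n) x) ((S.F ^ (k * a)) x) < 1 / ((n : ℝ) + 1) := by
    intro n
    obtain ⟨m, hm, h1⟩ := hgs (φ n)
    have h2 := (tendstoLocallyUniformlyOn_iff_forall_isCompact hO).1 h1 (C n) (hCs n) (hCc n)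
    have h3 := Metric.tendstoUniformlyOn_iff.1 h2 (1 / ((n : ℝ) + 1)) (by positivity)
    obtain ⟨i, hi1, hi2⟩ := (h3.and (hm.eventually_ge_atTop n)).exists
    exact ⟨m i, hi2, hi1⟩
  choose a ha1 ha2 using hcho
  refine ⟨a, tendsto_atTop_mono ha1 tendsto_id, ?_⟩
  rw [tendstoLocallyUniformlyOn_iff_forall_isCompact hO]
  intro A hA hAc
  rw [Metric.tendstoUniformlyOn_iff]
  intro ε hε
  have h1 := Metric.tendstoUniformlyOn_iff.1
    ((tendstoLocallyUniformlyOn_iff_forall_isCompact hO).1 hh A hA hAc) (ε / 2) (half_pos hε)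
  obtain ⟨N, hN⟩ := hCe A hA hAc
  have h2 : ∀ᶠ n : ℕ in atTop, 1 / ((n : ℝ) + 1) < ε / 2 :=
    tendsto_one_div_add_atTop_nhds_zero_nat.eventually_lt_const (half_pos hε)
  filter_upwards [h1, h2, eventually_ge_atTop N] with n hn1 hn2 hn3 x hx
  calc dist (h x) ((S.F ^ (k * a n)) x) ≤ dist (h x) (gs (φ n) x) +
        dist (gs (φ n) x) ((S.F ^ (k * a n)) x) := dist_triangle _ _ _
    _ < ε / 2 + ε / 2 := add_lt_add (hn1 x hx) ((ha2 n x (hN n hn3 hx)).trans hn2)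
    _ = ε := add_halves ε

end

end Pool.Agent.HQ
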