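import Pool.Agent.HQ.Defs
import Pool.Agent.HQ.Bas
import Pool.Agent.HQ.IP
import Pool.Agent.HQ.B26
import Pool.Agent.HQ.UBas
import Pool.Agent.HQ.Fr23
import Pool.Agent.HQ.Surj
import Pool.Agent.HQ.StayA

/-!
# HQ module Zc62: the centre of a zoom is not in the closure of the saddles
-/

set_option autoImplicit false

open Filter Topology Set Metric

namespace Pool.Agent.HQ

/-- an entire curve which is locally contained in a line is contained in the line and dense in it -/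
theorem Zc62_line {b₀ v : E} (hv : v ≠ 0) {h : ℂ → E} (hh : Differentiable ℂ h)
    (hne : ∃ z w, h z ≠ h w) {w₁ : ℂ} (hloc : ∀ᶠ w in 𝓝 w₁, ∃ t : ℂ, h w = b₀ + t • v)
    {P : E → ℝ} (hP : Continuous P) (h0 : ∀ w, P (h w) = 0) (t : ℂ) : P (b₀ + t • v) = 0 := by
  have hd1 : Differentiable ℂ fun w => (h w).1 := differentiable_fst.comp hh
  have hd2 : Differentiable ℂ fun w => (h w).2 := differentiable_snd.comp hh
  have hL : Differentiable ℂ fun w => v.2 * ((h w).1 - b₀.1) - v.1 * ((h w).2 - b₀.2) :=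
    ((hd1.sub_const _).const_mul _).sub ((hd2.sub_const _).const_mul _)
  have hLz : ∀ w, v.2 * ((h w).1 - b₀.1) - v.1 * ((h w).2 - b₀.2) = 0 := by
    have h1 : AnalyticOnNhd ℂ (fun w => v.2 * ((h w).1 - b₀.1) - v.1 * ((h w).2 - b₀.2)) univ :=
      hL.differentiableOn.analyticOnNhd isOpen_univ
    have h2 : AnalyticOnNhd ℂ (fun _ : ℂ => (0 : ℂ)) univ := analyticOnNhd_const
    have h3 := h1.eqOn_of_preconnected_of_eventuallyEq h2 isPreconnected_univ (mem_univ w₁) ?_
    · exact fun w => h3 (mem_univ w)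
    · filter_upwards [hloc] with w hw
      obtain ⟨t, ht⟩ := hw
      rw [ht]
      simp only [Prod.fst_add, Prod.snd_add, Prod.smul_fst, Prod.smul_snd, smul_eq_mul]
      ring
  -- the parameter
  obtain ⟨τ, hτ, hτh⟩ : ∃ τ : ℂ → ℂ, Differentiable ℂ τ ∧ ∀ w, h w = b₀ + τ w • v := by
    by_cases hv1 : v.1 = 0
    · have hv2 : v.2 ≠ 0 := by
        intro hv2
        exact hv (Prod.ext hv1 hv2)
      refine ⟨fun w => ((h w).2 - b₀.2) / v.2, (hd2.sub_const _).div_const _, fun w => ?_⟩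
      have h4 := hLz w
      rw [hv1, zero_mul, sub_zero] at h4
      have h5 : (h w).1 - b₀.1 = 0 := (mul_eq_zero.1 h4).resolve_left hv2
      refine Prod.ext ?_ ?_
      · simp only [Prod.fst_add, Prod.smul_fst, smul_eq_mul, hv1, mul_zero, add_zero]
        exact sub_eq_zero.1 h5
      · simp only [Prod.snd_add, Prod.smul_snd, smul_eq_mul]
        rw [div_mul_cancel₀ _ hv2]
        ring
    · refine ⟨fun w => ((h w).1 - b₀.1) / v.1, (hd1.sub_const _).div_const _, fun w => ?_⟩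
      have h4 := hLz w
      refine Prod.ext ?_ ?_
      · simp only [Prod.fst_add, Prod.smul_fst, smul_eq_mul]
        rw [div_mul_cancel₀ _ hv1]
        ring
      · simp only [Prod.snd_add, Prod.smul_snd, smul_eq_mul]
        have h5 : ((h w).1 - b₀.1) / v.1 * v.2 = (h w).2 - b₀.2 := by
          rw [div_mul_eq_mul_div, div_eq_iff hv1]
          linear_combination h4
        rw [h5]
        ring
  have hτne : ∃ z w, τ z ≠ τ w := by
    obtain ⟨z, w, hzw⟩ := hne
    refine ⟨z, w, fun h6 => hzw ?_⟩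
    rw [hτh, hτh, h6]
  have hdense := entire_dense hτ hτne
  have hcont : Continuous fun t : ℂ => P (b₀ + t • v) :=
    hP.comp (continuous_const.add (continuous_id.smul continuous_const))
  have hcl : IsClosed {t : ℂ | P (b₀ + t • v) = 0} := isClosed_eq hcont continuous_const
  have hsub : range τ ⊆ {t : ℂ | P (b₀ + t • v) = 0} := by
    rintro _ ⟨w, rfl⟩
    show P (b₀ + τ w • v) = 0
    rw [← hτh]
    exact h0 w
  exact closure_minimal hsub hcl (hdense t)

theorem zoom_center (Q : QS) {b₀ v : E} (hv : v ≠ 0) {D : Set ℂ} (hD : IsOpen D)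
    (hW : ∀ t ∈ D, ∀ q ∈ Sad Q.F, b₀ + t • v ∉ Ws Q.F q)
    (hpos : ∃ t : ℂ, 0 < Q.P (b₀ + t • v)) {b : ℂ} {n : ℕ → ℕ} {r : ℕ → ℝ} {g : ℂ → E}
    (hr : ∀ k, 0 < r k) (hrD : ∀ k, ball b (r k) ⊆ D) (hg : DifferentiableOn ℂ g (ball 0 1))
    (hlim : TendstoLocallyUniformlyOn
      (fun k (s : ℂ) => (Q.F ^ n k) (b₀ + (b + (r k : ℂ) * s) • v)) g atTop (ball 0 1))
    (hM : ∀ s ∈ ball (0 : ℂ) 1, Q.M (g s) = 0)
    (hp : ∃ s ∈ ball (0 : ℂ) 1, 0 < Q.P (g s)) : g 0 ∉ closure (Sad Q.F) := by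
  intro hg0
  have h01 : (0 : ℂ) ∈ ball (0 : ℂ) 1 := mem_ball_self one_pos
  have hg0' : g 0 ∈ closure (Sad Q.dual.F) := by rw [Q.dual_Sad]; exact hg0
  obtain ⟨q, hq, σ, hσ, hσ0, hσlim⟩ := U_center Q.dual hg0'
  have hσd : Differentiable ℂ σ := U_diff Q.dual hσ
  have hσne : ∃ z w, σ z ≠ σ w := U_ne Q.dual hσ
  have hσU : σ ∈ Q.Us := by rw [← Q.dual_U]; exact hσ
  have hσP : ∀ w, Q.P (σ w) = 0 := Us_P Q hσU
  have hqS : ∀ i, q i ∈ Sad Q.F := fun i => by rw [← Q.dual_Sad]; exact hq i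
  have hσlim' : TendstoLocallyUniformly (fun i => Q.Xs (q i)) σ atTop := hσlim
  -- the curves
  have hgk : ∀ k, Differentiable ℂ fun s : ℂ => (Q.F ^ n k) (b₀ + (b + (r k : ℂ) * s) • v) := by
    intro k
    have h1 : Differentiable ℂ fun s : ℂ => b₀ + (b + (r k : ℂ) * s) • v := by fun_prop
    exact (Q.diff_pow (n k)).comp h1
  have hgkinj : ∀ k, Function.Injective
      fun s : ℂ => (Q.F ^ n k) (b₀ + (b + (r k : ℂ) * s) • v) := by
    intro k s s' h1
    have h2 := add_left_cancel ((Q.F ^ n k).injective h1)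
    have h3 : ((b + (r k : ℂ) * s) - (b + (r k : ℂ) * s')) • v = 0 := by
      rw [sub_smul, h2, sub_self]
    rcases smul_eq_zero.1 h3 with h4 | h4
    · have h5 : (r k : ℂ) * (s - s') = 0 := by linear_combination h4
      rcases mul_eq_zero.1 h5 with h6 | h6
      · exact absurd (Complex.ofReal_eq_zero.1 h6) (hr k).ne'
      · exact sub_eq_zero.1 h6
    · exact absurd h4 hv
  rcases ip isOpen_univ (mem_univ (0 : ℂ)) hσd.differentiableOn (nc_of_entire hσd hσne 0)
    isOpen_ball h01 (fun k => (hgk k).differentiableOn) hlim hσ0.symm with hG | hI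
  · -- `g` is contained in `σ`
    obtain ⟨ρ, hρ, hρG⟩ := hG 1 one_pos
    have hm : 0 < min ρ 1 := lt_min hρ one_pos
    have hsub : ball (0 : ℂ) (min ρ 1) ⊆ ball 0 1 := ball_subset_ball (min_le_right _ _)
    have hconst := discB Q (isOpen_ball (x := (0 : ℂ)) (ε := min ρ 1))
      (convex_ball (0 : ℂ) (min ρ 1)).isPreconnected (hg.mono hsub)
      (fun s hs => by
        obtain ⟨w, -, hw⟩ := hρG s (ball_subset_ball (min_le_left _ _) hs)
        rw [← hw]
        exact hσP w) (fun s hs => hM s (hsub hs)) (mem_ball_self hm) hg0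
    obtain ⟨s, hs, hsP⟩ := hp
    have hne : g s ≠ g 0 := by
      intro h1
      rw [h1, Q.clSad_P hg0] at hsP
      exact lt_irrefl _ hsP
    have hnc : NC g 0 := nc_of_conn isOpen_ball (convex_ball (0 : ℂ) 1).isPreconnected hg
      ⟨s, hs, 0, h01, hne⟩ h01
    refine hnc ?_
    filter_upwards [ball_mem_nhds (0 : ℂ) hm] with z hz h2
    exact h2 (hconst z hz)
  · -- intersections
    obtain ⟨k, s₁, hs₁, w₁, -, hsw⟩ := (hI 1 one_pos).exists
    have hnck : NC (fun s : ℂ => (Q.F ^ n k) (b₀ + (b + (r k : ℂ) * s) • v)) s₁ :=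
      nc_of_entire (hgk k) ⟨0, 1, fun h1 => zero_ne_one (hgkinj k h1)⟩ s₁
    rcases ip isOpen_univ (mem_univ s₁) (hgk k).differentiableOn hnck isOpen_univ (mem_univ w₁)
      (fun i => ((Q.hs (q i) (hqS i)).diff).differentiableOn)
      (tendstoLocallyUniformlyOn_univ.2 hσlim') hsw.symm with hG | hI'
    · -- `σ` is locally contained in the image of the line
      obtain ⟨ρ, hρ, hρG⟩ := hG 1 one_pos
      have hinv : ∀ y, (Q.F⁻¹ ^ n k) ((Q.F ^ n k) y) = y := fun y => by
        rw [inv_pow]; exact (Q.F ^ n k).symm_apply_apply y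
      have hinv' : ∀ y, (Q.F ^ n k) ((Q.F⁻¹ ^ n k) y) = y := fun y => by
        rw [inv_pow]; exact (Q.F ^ n k).apply_symm_apply y
      have hhd : Differentiable ℂ fun w => (Q.F⁻¹ ^ n k) (σ w) := (Q.diff_inv_pow (n k)).comp hσd
      obtain ⟨t, ht⟩ := hpos
      have h1 := Zc62_line (b₀ := b₀) hv hhd ?_ (w₁ := w₁) ?_ Q.cP ?_ t
      · rw [h1] at ht
        exact lt_irrefl _ ht
      · obtain ⟨z, w, hzw⟩ := hσne
        exact ⟨z, w, fun h2 => hzw ((Q.F⁻¹ ^ n k).injective h2)⟩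
      · filter_upwards [ball_mem_nhds w₁ hρ] with w hw
        obtain ⟨s, -, hs⟩ := hρG w hw
        exact ⟨b + (r k : ℂ) * s, by rw [← hs, hinv]⟩
      · intro w
        have h2 := hσP w
        rw [← hinv' (σ w), Q.P_pow] at h2
        exact (mul_eq_zero.1 h2).resolve_left (pow_ne_zero _ Q.d_pos.ne')
    · have hs₁' : ‖s₁‖ < 1 := by
        rw [mem_ball, dist_zero_right] at hs₁
        exact hs₁
      obtain ⟨i, w, -, s, hs, hws⟩ := (hI' (1 - ‖s₁‖) (by linarith)).exists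
      have hs1 : ‖s‖ < 1 := by
        rw [mem_ball, dist_eq_norm] at hs
        have h1 := norm_add_le (s - s₁) s₁
        rw [sub_add_cancel] at h1
        linarith
      have h2 : Q.Xs (q i) w ∈ Ws Q.F (q i) := by
        have h3 : Q.Xs (q i) w ∈ Wu Q.F⁻¹ (q i) := by
          rw [← (Q.hs (q i) (hqS i)).range]
          exact mem_range_self w
        rw [Wu, inv_inv] at h3
        exact h3
      have h3 : (Q.F ^ (n k : ℤ)) ((Q.F ^ (-(n k : ℤ))) (q i)) = q i := by
        rw [← Equiv.Perm.mul_apply, ← zpow_add, add_neg_cancel, zpow_zero]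
        rfl
      have h4 : (Q.F ^ (-(n k : ℤ))) (q i) ∈ Sad Q.F := (Q.mem_Sad _ _).2 (hqS i)
      refine hW (b + (r k : ℂ) * s) (hrD k ?_) _ h4 ?_
      · rw [mem_ball, dist_eq_norm, add_sub_cancel_left, norm_mul, Complex.norm_real,
          Real.norm_eq_abs, abs_of_pos (hr k)]
        nlinarith [hr k]
      · rw [← Q.mem_Ws (n k : ℤ), h3, zpow_natCast]
        rw [hws] at h2
        exact h2

end Pool.Agent.HQ
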