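import Pool.Agent.HQ.Defs
import Pool.Agent.HQ.Bas
import Pool.Agent.HQ.Mont
import Pool.Agent.HQ.Acc60

/-!
# HQ module Zm61: zooming at an accessible zero
-/

set_option autoImplicit false

open Filter Topology Set Metric

namespace Pool.Agent.HQ

/-- a positive sequence which decays at most like `2⁻ᵏ` is often at least a quarter of its
predecessor -/
theorem Zm61_freq {N : ℕ → ℝ} {c : ℝ} (hc : 0 < c) (hN : ∀ k, c * (1 / 2) ^ k ≤ N k) :
    ∃ᶠ k in atTop, N k / 4 ≤ N (k + 1) := by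
  by_contra hcon
  rw [not_frequently] at hcon
  obtain ⟨K, hK⟩ := eventually_atTop.1 hcon
  have h1 : ∀ j, N (K + j) ≤ N K * (1 / 4) ^ j := by
    intro j
    induction j with
    | zero => simp
    | succ j ih =>
      have h2 := hK (K + j) (by omega)
      rw [not_le] at h2
      calc N (K + (j + 1)) ≤ N (K + j) / 4 := h2.le
        _ ≤ N K * (1 / 4) ^ j / 4 := by linarith
        _ = N K * (1 / 4) ^ (j + 1) := by rw [pow_succ]; ring
  obtain ⟨j, hj⟩ := pow_unbounded_of_one_lt (N K / (c * (1 / 2) ^ K)) (one_lt_two (α := ℝ))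
  have h2 := hN (K + j)
  have h3 := h1 j
  have h4 : 0 < c * (1 / 2) ^ K := by positivity
  rw [div_lt_iff₀ h4] at hj
  have h5 : c * (1 / 2) ^ (K + j) ≤ N K * (1 / 4) ^ j := h2.trans h3
  have h6 : (0 : ℝ) < 4 ^ j := by positivity
  have h7 : c * (1 / 2) ^ (K + j) * 4 ^ j ≤ N K * (1 / 4) ^ j * 4 ^ j :=
    mul_le_mul_of_nonneg_right h5 h6.le
  have h8 : N K * (1 / 4) ^ j * 4 ^ j = N K := by
    rw [mul_assoc, ← mul_pow]
    norm_num
  have h9 : c * (1 / 2) ^ (K + j) * 4 ^ j = 2 ^ j * (c * (1 / 2) ^ K) := by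
    have h10 : ((1 : ℝ) / 2) ^ j * 4 ^ j = 2 ^ j := by
      rw [← mul_pow]
      norm_num
    calc c * (1 / 2) ^ (K + j) * 4 ^ j = c * (1 / 2) ^ K * ((1 / 2) ^ j * 4 ^ j) := by
          rw [pow_add]; ring
      _ = 2 ^ j * (c * (1 / 2) ^ K) := by rw [h10]; ring
  rw [h8, h9] at h7
  linarith

/-- reindexing of locally uniform convergence -/
theorem Zm61_sub {F : ℕ → ℂ → E} {g : ℂ → E} {D : Set ℂ} (h : TendstoLocallyUniformlyOn F g atTop D)
    {χ : ℕ → ℕ} (hχ : Tendsto χ atTop atTop) :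
    TendstoLocallyUniformlyOn (fun k => F (χ k)) g atTop D := by
  intro u hu x hx
  obtain ⟨t, ht, h1⟩ := h u hu x hx
  exact ⟨t, ht, hχ.eventually h1⟩

theorem zoom (S : Sys) {b₀ v : E} {D : Set ℂ} {a b : ℂ} (hD : IsOpen D)
    (h : Acc S.P (fun t : ℂ => b₀ + t • v) D a b) :
    ∃ (n : ℕ → ℕ) (r : ℕ → ℝ) (g : ℂ → E), Tendsto n atTop atTop ∧ (∀ k, 0 < r k) ∧
      Tendsto r atTop (𝓝 0) ∧ (∀ k, ball b (r k) ⊆ D) ∧ DifferentiableOn ℂ g (ball 0 1) ∧
      TendstoLocallyUniformlyOn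
        (fun k (s : ℂ) => (S.F ^ n k) (b₀ + (b + (r k : ℂ) * s) • v)) g atTop (ball 0 1) ∧
      (∀ s ∈ ball (0 : ℂ) 1, S.M (g s) = 0) ∧ S.P (g 0) = 0 ∧
      ∃ s ∈ ball (0 : ℂ) 1, 0 < S.P (g s) := by
  set T : ℂ → E := fun t => b₀ + t • v with hT
  have hTd : Differentiable ℂ T := by
    rw [hT]
    exact (differentiable_const _).add (differentiable_id.smul_const v)
  have hTc : Continuous T := hTd.continuous
  have hbD : b ∈ D := h.mem
  have hc0 : 0 < S.P (T a) := h.pos_a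
  set ρ : ℝ := dist a b with hρ
  have hρ0 : 0 < ρ := dist_pos.2 h.ne
  obtain ⟨r1, hr1, hr1D⟩ := Metric.isOpen_iff.1 hD b hbD
  set r0 : ℝ := min (r1 / 2) (ρ / 2) with hr0
  have hr0pos : 0 < r0 := lt_min (by linarith) (by linarith)
  have hr0D : closedBall b r0 ⊆ D := by
    intro z hz
    apply hr1D
    rw [mem_closedBall] at hz
    rw [mem_ball]
    have : r0 ≤ r1 / 2 := min_le_left _ _
    linarith
  have hr0ρ : r0 ≤ ρ / 2 := min_le_right _ _
  set rr : ℕ → ℝ := fun k => r0 * (1 / 2) ^ k with hrr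
  have hrrpos : ∀ k, 0 < rr k := fun k => by rw [hrr]; positivity
  have hrrle : ∀ k, rr k ≤ r0 := fun k => by
    have : ((1 : ℝ) / 2) ^ k ≤ 1 := pow_le_one₀ (by norm_num) (by norm_num)
    calc rr k = r0 * (1 / 2) ^ k := rfl
      _ ≤ r0 * 1 := mul_le_mul_of_nonneg_left this hr0pos.le
      _ = r0 := mul_one _
  have hrrlim : Tendsto rr atTop (𝓝 0) := by
    have := (tendsto_pow_atTop_nhds_zero_of_lt_one (r := (1:ℝ)/2) (by norm_num)
      (by norm_num)).const_mul r0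
    rw [mul_zero] at this
    exact this
  have hPT : Continuous fun z => S.P (T z) := S.cP.comp hTc
  -- maximum points
  have hmax : ∀ k, ∃ z ∈ closedBall b (rr k), ∀ y ∈ closedBall b (rr k), S.P (T y) ≤ S.P (T z) := by
    intro k
    obtain ⟨z, hz, hzm⟩ := (isCompact_closedBall b (rr k)).exists_isMaxOn
      ⟨b, mem_closedBall_self (hrrpos k).le⟩ hPT.continuousOn
    exact ⟨z, hz, fun y hy => hzm hy⟩
  choose m hm1 hm2 using hmax
  set N : ℕ → ℝ := fun k => S.P (T (m k)) with hN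
  have hNlow : ∀ k, (r0 / (2 * ρ) * S.P (T a)) * (1 / 2) ^ k ≤ N k := by
    intro k
    set t : ℝ := rr k / ρ with ht
    have ht0 : 0 < t := div_pos (hrrpos k) hρ0
    have ht1 : t ≤ 1 / 2 := by
      rw [ht, div_le_iff₀ hρ0]
      linarith [hrrle k]
    set z : ℂ := b + (t : ℂ) * (a - b) with hz
    have hzb : dist z b = rr k := by
      rw [hz, dist_eq_norm, add_sub_cancel_left, norm_mul, Complex.norm_real, Real.norm_eq_abs,
        abs_of_pos ht0, ← dist_eq_norm, ← hρ, ht, div_mul_cancel₀ _ hρ0.ne']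
    have hza : dist z a = (1 - t) * ρ := by
      have h1 : z - a = ((1 - t : ℝ) : ℂ) * (b - a) := by rw [hz]; push_cast; ring
      rw [dist_eq_norm, h1, norm_mul, Complex.norm_real, Real.norm_eq_abs,
        abs_of_pos (by linarith), ← dist_eq_norm, dist_comm]
    have hzmem : z ∈ ball a ρ := by
      rw [mem_ball, hza]
      nlinarith
    have hH := (S.hP T a ρ hρ0 hTd.differentiableOn h.pos z hzmem).1
    have h2 : t / 2 * S.P (T a) ≤ S.P (T z) := by
      refine le_trans ?_ hH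
      refine mul_le_mul_of_nonneg_right ?_ hc0.le
      have h5 : 0 ≤ t * t * ρ := mul_nonneg (mul_self_nonneg t) hρ0.le
      rw [hza, div_le_div_iff₀ (by norm_num) (by nlinarith)]
      nlinarith
    have h3 : S.P (T z) ≤ N k := hm2 k z (by rw [mem_closedBall, hzb])
    refine le_trans (le_of_eq ?_) (h2.trans h3)
    rw [ht, hrr]
    field_simp
  have hcpos : 0 < r0 / (2 * ρ) * S.P (T a) := by positivity
  have hNpos : ∀ k, 0 < N k := fun k => lt_of_lt_of_le (by positivity) (hNlow k)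
  have hmlim : Tendsto m atTop (𝓝 b) := by
    rw [tendsto_iff_dist_tendsto_zero]
    exact squeeze_zero (fun _ => dist_nonneg) (fun k => hm1 k) hrrlim
  have hNlim : Tendsto N atTop (𝓝 0) := by
    have h1 := (hPT.tendsto b).comp hmlim
    have h2 : S.P (T b) = 0 := h.zero
    rw [h2] at h1
    exact h1
  have hev : ∀ᶠ k in atTop, N k < 1 := hNlim.eventually (gt_mem_nhds one_pos)
  obtain ⟨φ, hφ, hφ2⟩ := extraction_of_frequently_atTop
    ((Zm61_freq hcpos hNlow).and_eventually hev)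
  -- the number of iterations
  have hn : ∀ i, ∃ n : ℕ, S.d ^ n ≤ (N (φ i))⁻¹ ∧ (N (φ i))⁻¹ < S.d ^ (n + 1) := fun i =>
    exists_nat_pow_near ((one_le_inv₀ (hNpos _)).2 (hφ2 i).2.le) S.hd
  choose n hn1 hn2 using hn
  have hnlim : Tendsto n atTop atTop := by
    rw [tendsto_atTop_atTop]
    intro B
    have h1 : Tendsto (fun i => (N (φ i))⁻¹) atTop atTop := by
      refine Tendsto.inv_tendsto_nhdsGT_zero ?_
      rw [tendsto_nhdsWithin_iff]
      exact ⟨hNlim.comp hφ.tendsto_atTop, Eventually.of_forall fun i => hNpos _⟩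
    obtain ⟨I, hI⟩ := (tendsto_atTop_atTop.1 h1) (S.d ^ (B + 1))
    refine ⟨I, fun i hi => ?_⟩
    have h2 := hI i hi
    have h3 := lt_of_le_of_lt h2 (hn2 i)
    have h4 := (pow_lt_pow_iff_right₀ S.hd).1 h3
    omega
  have hNd : ∀ i, S.d ^ n i * N (φ i) ≤ 1 := fun i => by
    have := mul_le_mul_of_nonneg_right (hn1 i) (hNpos (φ i)).le
    rwa [inv_mul_cancel₀ (hNpos _).ne'] at this
  have hNd' : ∀ i, S.d⁻¹ ≤ S.d ^ n i * N (φ i) := fun i => by
    have h1 := mul_lt_mul_of_pos_right (hn2 i) (hNpos (φ i))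
    rw [inv_mul_cancel₀ (hNpos _).ne', pow_succ] at h1
    rw [inv_le_iff_one_le_mul₀ S.d_pos]
    linarith
  -- bound for M
  obtain ⟨zM, -, hzM⟩ := (isCompact_closedBall b r0).exists_isMaxOn
      ⟨b, mem_closedBall_self hr0pos.le⟩ (S.cM.comp hTc).continuousOn
  set Mx : ℝ := S.M (T zM) with hMx
  have hMle : ∀ z ∈ closedBall b r0, S.M (T z) ≤ Mx := fun z hz => hzM hz
  set G : ℕ → ℂ → E := fun i s => (S.F ^ n i) (T (b + (rr (φ i) : ℂ) * s)) with hG
  have hpt : ∀ i, ∀ s : ℂ, ‖s‖ ≤ 1 → b + (rr (φ i) : ℂ) * s ∈ closedBall b (rr (φ i)) := by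
    intro i s hs
    rw [mem_closedBall, dist_eq_norm, add_sub_cancel_left, norm_mul, Complex.norm_real,
      Real.norm_eq_abs, abs_of_pos (hrrpos _)]
    calc rr (φ i) * ‖s‖ ≤ rr (φ i) * 1 := mul_le_mul_of_nonneg_left hs (hrrpos _).le
      _ = rr (φ i) := mul_one _
  have hGP : ∀ i, ∀ s : ℂ, ‖s‖ ≤ 1 → S.P (G i s) ≤ 1 := by
    intro i s hs
    show S.P ((S.F ^ n i) (T (b + (rr (φ i) : ℂ) * s))) ≤ 1
    rw [S.P_pow]
    refine le_trans ?_ (hNd i)
    exact mul_le_mul_of_nonneg_left (hm2 _ _ (hpt i s hs)) (pow_nonneg S.d_pos.le _)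
  have hTM : ∀ i, ∀ s : ℂ, ‖s‖ ≤ 1 → S.M (T (b + (rr (φ i) : ℂ) * s)) ≤ Mx := by
    intro i s hs
    exact hMle _ (closedBall_subset_closedBall (hrrle _) (hpt i s hs))
  have hMx0 : 0 ≤ Mx := S.M0 _
  have hGM : ∀ i, ∀ s : ℂ, ‖s‖ ≤ 1 → S.M (G i s) ≤ Mx := by
    intro i s hs
    show S.M ((S.F ^ n i) (T (b + (rr (φ i) : ℂ) * s))) ≤ Mx
    rw [S.M_pow]
    have h3 : (S.d ^ n i)⁻¹ ≤ 1 := inv_le_one_of_one_le₀ (one_le_pow₀ S.hd.le)
    calc (S.d ^ n i)⁻¹ * S.M (T (b + (rr (φ i) : ℂ) * s))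
        ≤ 1 * S.M (T (b + (rr (φ i) : ℂ) * s)) := mul_le_mul_of_nonneg_right h3 (S.M0 _)
      _ ≤ Mx := by rw [one_mul]; exact hTM i s hs
  obtain ⟨R, hR⟩ := S.sub_bdd (max 1 Mx)
  have hGd : ∀ i, Differentiable ℂ (G i) := by
    intro i
    have h1 : Differentiable ℂ fun s : ℂ => b + (rr (φ i) : ℂ) * s :=
      (differentiable_const _).add (differentiable_id.const_mul _)
    exact (S.diff_pow (n i)).comp (hTd.comp h1)
  obtain ⟨ψ, hψ, g, hgd, hglim⟩ := montel (D := ball (0 : ℂ) 1) isOpen_ball G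
    (fun i => (hGd i).differentiableOn) (fun z _ => ⟨1, one_pos, R, fun i w _ hw => by
      have hw1 : ‖w‖ ≤ 1 := by
        rw [mem_ball, dist_zero_right] at hw
        exact hw.le
      exact hR _ ((hGP i w hw1).trans (le_max_left _ _)) ((hGM i w hw1).trans (le_max_right _ _))⟩)
  refine ⟨fun k => n (ψ k), fun k => rr (φ (ψ k)), g, hnlim.comp hψ.tendsto_atTop,
    fun k => hrrpos _, hrrlim.comp (hφ.tendsto_atTop.comp hψ.tendsto_atTop), ?_, hgd, hglim,
    ?_, ?_, ?_⟩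
  · intro k z hz
    exact hr0D (closedBall_subset_closedBall (hrrle _) (ball_subset_closedBall hz))
  · intro s hs
    have hs1 : ‖s‖ ≤ 1 := by
      rw [mem_ball, dist_zero_right] at hs
      exact hs.le
    exact S.M_lim (x := fun k => T (b + (rr (φ (ψ k)) : ℂ) * s)) (n := fun k => n (ψ k))
      (hnlim.comp hψ.tendsto_atTop) (c := Mx) (fun k => hTM (ψ k) s hs1)
      (hglim.tendsto_at hs)
  · have h1 := hglim.tendsto_at (mem_ball_self (x := (0 : ℂ)) one_pos)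
    have h2 : Tendsto (fun k => S.P (G (ψ k) 0)) atTop (𝓝 (S.P (g 0))) :=
      (S.cP.tendsto _).comp h1
    have h3 : ∀ k, S.P (G (ψ k) 0) = 0 := by
      intro k
      show S.P ((S.F ^ n (ψ k)) (T (b + (rr (φ (ψ k)) : ℂ) * 0))) = 0
      rw [S.P_pow, mul_zero, add_zero]
      have : S.P (T b) = 0 := h.zero
      rw [this, mul_zero]
    simp only [h3] at h2
    exact (tendsto_nhds_unique h2 tendsto_const_nhds)
  · -- a point where P is positive
    set sp : ℕ → ℂ := fun i => (m (φ i + 1) - b) / (rr (φ i) : ℂ) with hsp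
    have hspn : ∀ i, sp i ∈ closedBall (0 : ℂ) (1 / 2) := by
      intro i
      rw [mem_closedBall, dist_zero_right, hsp]
      show ‖(m (φ i + 1) - b) / (rr (φ i) : ℂ)‖ ≤ 1 / 2
      rw [norm_div, Complex.norm_real, Real.norm_eq_abs, abs_of_pos (hrrpos _),
        div_le_iff₀ (hrrpos _), ← dist_eq_norm]
      have h1 : dist (m (φ i + 1)) b ≤ rr (φ i + 1) := hm1 (φ i + 1)
      have h2 : rr (φ i + 1) = 1 / 2 * rr (φ i) := by
        rw [hrr]
        show r0 * (1 / 2) ^ (φ i + 1) = 1 / 2 * (r0 * (1 / 2) ^ (φ i))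
        rw [pow_succ]; ring
      rw [← h2]
      exact h1
    have hspP : ∀ i, S.d⁻¹ / 4 ≤ S.P (G i (sp i)) := by
      intro i
      have h1 : b + (rr (φ i) : ℂ) * sp i = m (φ i + 1) := by
        rw [hsp]
        show b + (rr (φ i) : ℂ) * ((m (φ i + 1) - b) / (rr (φ i) : ℂ)) = m (φ i + 1)
        have : (rr (φ i) : ℂ) ≠ 0 := by exact_mod_cast (hrrpos (φ i)).ne'
        rw [mul_div_cancel₀ _ this]
        ring
      show S.d⁻¹ / 4 ≤ S.P ((S.F ^ n i) (T (b + (rr (φ i) : ℂ) * sp i)))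
      rw [S.P_pow, h1]
      have h2 : N (φ i) / 4 ≤ N (φ i + 1) := (hφ2 i).1
      calc S.d⁻¹ / 4 ≤ S.d ^ n i * N (φ i) / 4 := by linarith [hNd' i]
        _ = S.d ^ n i * (N (φ i) / 4) := by ring
        _ ≤ S.d ^ n i * N (φ i + 1) := mul_le_mul_of_nonneg_left h2 (pow_nonneg S.d_pos.le _)
    obtain ⟨s0, hs0, χ, hχ, hχlim⟩ := (isCompact_closedBall (0 : ℂ) (1 / 2)).tendsto_subseq
      (fun k => hspn (ψ k))
    have hsub : closedBall (0 : ℂ) (1 / 2) ⊆ ball 0 1 := closedBall_subset_ball (by norm_num)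
    have hs0' : s0 ∈ ball (0 : ℂ) 1 := hsub hs0
    refine ⟨s0, hs0', ?_⟩
    have h1 := Zm61_sub hglim hχ.tendsto_atTop
    have h2 : Tendsto (fun k => G (ψ (χ k)) (sp (ψ (χ k)))) atTop (𝓝 (g s0)) := by
      refine h1.tendsto_comp (hgd.continuousOn s0 hs0') hs0' ?_
      rw [tendsto_nhdsWithin_iff]
      exact ⟨hχlim, Eventually.of_forall fun k => hsub (hspn _)⟩
    have h3 : Tendsto (fun k => S.P (G (ψ (χ k)) (sp (ψ (χ k))))) atTop (𝓝 (S.P (g s0))) :=
      (S.cP.tendsto _).comp h2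
    have h4 : S.d⁻¹ / 4 ≤ S.P (g s0) := ge_of_tendsto' h3 fun k => hspP _
    have h5 : 0 < S.d⁻¹ / 4 := by have := S.d_pos; positivity
    linarith

end Pool.Agent.HQ
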