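import Pool.Agent.HQ.Defs
import Pool.Agent.HQ.Bas
import Pool.Agent.HQ.Cmp
import Pool.Agent.HQ.Acc60
import Pool.Agent.HQ.Zm61
import Pool.Agent.HQ.Zc62
import Pool.Agent.HQ.Lm50
import Pool.Agent.HQ.LimW

/-!
# HQ module DmA: backward zoom: periodic components
-/

set_option autoImplicit false

open Filter Topology Set Metric

namespace Pool.Agent.HQ

/-- periodic components: the dynamical part -/
theorem DmA_core (S : Sys) {y z : E} {n : ℕ → ℕ} (hn : Tendsto n atTop atTop)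
    (hz : z ∈ interior S.Kp)
    (hlim : Tendsto (fun j => (S.F ^ (-(n j : ℤ))) y) atTop (𝓝 z)) :
    ∃ Ω, S.IsComp Ω ∧ y ∈ Ω ∧ (∃ k : ℕ, 0 < k ∧ (⇑(S.F ^ k)) '' Ω = Ω) ∧
      ∀ k : ℕ, 0 < k → (⇑(S.F ^ k)) '' Ω = Ω →
        ∃ g ∈ S.Lim k Ω, ∃ x ∈ Ω, g x = y := by
  obtain ⟨Ω', hΩ', hzΩ'⟩ := Sys.exists_comp hz
  have hev : ∀ᶠ j in atTop, (S.F ^ (-(n j : ℤ))) y ∈ Ω' :=
    hlim (hΩ'.isOpen.mem_nhds hzΩ')
  have hback : ∀ m : ℤ, (S.F ^ m) ((S.F ^ (-m)) y) = y := by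
    intro m
    rw [← Equiv.Perm.mul_apply, ← zpow_add, add_neg_cancel, zpow_zero, Equiv.Perm.one_apply]
  obtain ⟨j0, hj0⟩ := hev.exists
  have hy : y ∈ interior S.Kp := (S.mem_int_Kp _ _).1 (hΩ'.sub hj0)
  obtain ⟨Ω, hΩ, hyΩ⟩ := Sys.exists_comp hy
  have himg : ∀ j, (S.F ^ (-(n j : ℤ))) y ∈ Ω' → (⇑(S.F ^ (n j : ℤ))) '' Ω' = Ω := by
    intro j hj
    refine (hΩ'.image (n j : ℤ)).eq_of_mem hΩ (x := y) ?_ hyΩ
    exact ⟨_, hj, hback _⟩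
  refine ⟨Ω, hΩ, hyΩ, ?_, ?_⟩
  · obtain ⟨j1, hj1, hj1'⟩ := (hev.and (hn.eventually_gt_atTop (n j0))).exists
    refine ⟨n j1 - n j0, by omega, ?_⟩
    have e0 := himg j0 hj0
    have e1 := himg j1 hj1
    conv_lhs => rw [← e0]
    rw [← e1, image_image]
    refine image_congr fun x _ => ?_
    rw [zpow_natCast, zpow_natCast, ← Equiv.Perm.mul_apply, ← pow_add]
    congr 2
    omega
  · intro k hk hkΩ
    -- iterates of the periodic component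
    have hkq : ∀ q : ℕ, (⇑(S.F ^ (k * q))) '' Ω = Ω := by
      intro q
      induction q with
      | zero => simp
      | succ q ih =>
        have e : (⇑(S.F ^ (k * (q + 1)))) '' Ω = (⇑(S.F ^ k)) '' ((⇑(S.F ^ (k * q))) '' Ω) := by
          rw [image_image]
          refine image_congr fun x _ => ?_
          rw [← Equiv.Perm.mul_apply, ← pow_add]
          congr 2
          ring
        rw [e, ih, hkΩ]
    -- pigeonhole
    have hfr : ∃ s : Fin k, ∃ᶠ j in atTop, n j % k = s ∧ (S.F ^ (-(n j : ℤ))) y ∈ Ω' := by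
      by_contra hcon
      rw [not_exists] at hcon
      have h1 : ∀ᶠ j in atTop, ∀ s : Fin k,
          ¬ (n j % k = s ∧ (S.F ^ (-(n j : ℤ))) y ∈ Ω') :=
        eventually_all.2 fun s => not_frequently.1 (hcon s)
      obtain ⟨j, hj1, hj2⟩ := (h1.and hev).exists
      exact hj1 ⟨n j % k, Nat.mod_lt _ hk⟩ ⟨rfl, hj2⟩
    obtain ⟨s, hs⟩ := hfr
    obtain ⟨φ0, hφ0, hφs⟩ := extraction_of_frequently_atTop hs
    have hnφ : Tendsto (fun j => n (φ0 j)) atTop atTop := hn.comp hφ0.tendsto_atTop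
    have hm : Tendsto (fun j => n (φ0 j) / k) atTop atTop :=
      Nat.tendsto_div_const_atTop hk.ne' |>.comp hnφ
    obtain ⟨φ, hφ, g, hg, hgl⟩ := Lim_sub S k hΩ hm
    -- the points F^s b_j
    have hw : ∀ j, (S.F ^ (k * (n (φ0 j) / k)))
        ((S.F ^ (s : ℕ)) ((S.F ^ (-(n (φ0 j) : ℤ))) y)) = y := by
      intro j
      have e : k * (n (φ0 j) / k) + (s : ℕ) = n (φ0 j) := by
        rw [← (hφs j).1]
        exact Nat.div_add_mod _ _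
      rw [← Equiv.Perm.mul_apply, ← pow_add, e, ← zpow_natCast]
      exact hback _
    have hwΩ : ∀ j, (S.F ^ (s : ℕ)) ((S.F ^ (-(n (φ0 j) : ℤ))) y) ∈ Ω := by
      intro j
      have h1 : y ∈ (⇑(S.F ^ (k * (n (φ0 j) / k)))) '' Ω := by rw [hkq]; exact hyΩ
      obtain ⟨x, hx, hxy⟩ := h1
      have h2 := (S.F ^ (k * (n (φ0 j) / k))).injective (hxy.trans (hw j).symm)
      rw [← h2]
      exact hx
    have hΩs : (⇑(S.F ^ ((s : ℕ) : ℤ))) '' Ω' = Ω := by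
      refine (hΩ'.image ((s : ℕ) : ℤ)).eq_of_mem hΩ
        (x := (S.F ^ (s : ℕ)) ((S.F ^ (-(n (φ0 0) : ℤ))) y)) ?_ (hwΩ 0)
      exact ⟨_, (hφs 0).2, by rw [zpow_natCast]⟩
    have hx : (S.F ^ (s : ℕ)) z ∈ Ω := by
      rw [← hΩs]
      exact ⟨z, hzΩ', by rw [zpow_natCast]⟩
    refine ⟨g, hg, (S.F ^ (s : ℕ)) z, hx, ?_⟩
    have hcont : Continuous (⇑(S.F ^ (s : ℕ))) := (S.diff_pow s).continuous
    have hwl : Tendsto (fun j => (S.F ^ (s : ℕ)) ((S.F ^ (-(n (φ0 (φ j)) : ℤ))) y)) atTop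
        (𝓝 ((S.F ^ (s : ℕ)) z)) := by
      have h1 : Tendsto (fun j => (S.F ^ (-(n (φ0 (φ j)) : ℤ))) y) atTop (𝓝 z) :=
        hlim.comp (hφ0.tendsto_atTop.comp hφ.tendsto_atTop)
      exact (hcont.tendsto z).comp h1
    have hwl' : Tendsto (fun j => (S.F ^ (s : ℕ)) ((S.F ^ (-(n (φ0 (φ j)) : ℤ))) y)) atTop
        (𝓝[Ω] ((S.F ^ (s : ℕ)) z)) :=
      tendsto_nhdsWithin_iff.2 ⟨hwl, Eventually.of_forall fun j => hwΩ (φ j)⟩
    have hfin := hgl.tendsto_comp ((Lim_dh hΩ hg).1 _ hx) hx hwl'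
    have hconst : (fun j => (S.F ^ (k * (n (φ0 (φ j)) / k)))
        ((S.F ^ (s : ℕ)) ((S.F ^ (-(n (φ0 (φ j)) : ℤ))) y))) = fun _ => y :=
      funext fun j => hw (φ j)
    have hfin' : Tendsto (fun _ : ℕ => y) atTop (𝓝 (g ((S.F ^ (s : ℕ)) z))) := by
      rw [← hconst]
      exact hfin
    exact tendsto_nhds_unique hfin' tendsto_const_nhds

theorem dm_a (Q : QS) (h5 : Q.H5) {b₀ v : E} (hv : v ≠ 0) {D : Set ℂ} (hD : IsOpen D)
    (hW : ∀ t ∈ D, ∀ p ∈ Sad Q.F, b₀ + t • v ∉ Wu Q.F p) {a b : ℂ}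
    (hab : Acc Q.M (fun t : ℂ => b₀ + t • v) D a b) :
    ∃ Ω, Q.IsComp Ω ∧ b₀ + b • v ∈ Ω ∧ (∃ k : ℕ, 0 < k ∧ (⇑(Q.F ^ k)) '' Ω = Ω) ∧
      ∀ k : ℕ, 0 < k → (⇑(Q.F ^ k)) '' Ω = Ω →
        ∃ g ∈ Q.Lim k Ω, ∃ x ∈ Ω, g x = b₀ + b • v := by
  have hab' : Acc Q.dual.P (fun t : ℂ => b₀ + t • v) D a b := hab
  obtain ⟨n, r, g, hn, hr, hr0, hrD, hg, hlim, hM, hP0, hp⟩ := zoom Q.dual.toSys hD hab'
  have hz : g 0 ∉ closure (Sad Q.dual.F) := by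
    refine zoom_center Q.dual hv hD ?_ ⟨a, hab.pos_a⟩ hr hrD hg hlim hM hp
    intro t ht q hq
    rw [Q.dual_Sad] at hq
    exact hW t ht q hq
  rw [Q.dual_Sad] at hz
  have h0 : (0 : ℂ) ∈ ball (0 : ℂ) 1 := mem_ball_self one_pos
  have hPz : Q.P (g 0) = 0 := hM 0 h0
  have hMz : Q.M (g 0) = 0 := hP0
  have hzi : g 0 ∈ interior Q.Kp := by
    by_contra hcon
    exact hz (h5 _ hPz hMz hcon)
  refine DmA_core Q.toSys hn hzi ?_
  have h1 := hlim.tendsto_at h0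
  refine h1.congr fun j => ?_
  show (Q.F⁻¹ ^ n j) (b₀ + (b + (r j : ℂ) * 0) • v) = (Q.F ^ (-(n j : ℤ))) (b₀ + b • v)
  rw [mul_zero, add_zero, zpow_neg, zpow_natCast, inv_pow]

end Pool.Agent.HQ
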