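import Pool.Agent.HQ.Defs
import Pool.Agent.HQ.Bas
import Pool.Agent.HQ.UBas
import Pool.Agent.HQ.GrF
import Pool.Agent.HQ.Gro
import Pool.Agent.HQ.Surj

/-!
# HQ module FixA: growth of the derivative at periodic points of the closure
-/

set_option autoImplicit false

open Filter Topology Set Metric

namespace Pool.Agent.HQ

/-- iterated derivatives of a function `z ^ m g` -/
theorem FixA_mul (m : ℕ) : ∀ (g φ : ℂ → E), AnalyticAt ℂ g 0 →
    (∀ᶠ z in 𝓝 (0 : ℂ), φ z = z ^ m • g z) →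
      iteratedDeriv m φ 0 = (m.factorial : ℂ) • g 0 := by
  induction m with
  | zero =>
    intro g φ _ h
    have h1 := h.self_of_nhds
    rw [iteratedDeriv_zero, h1]
    simp
  | succ m ih =>
    intro g φ hg h
    have h1 : ∀ᶠ z in 𝓝 (0 : ℂ), deriv φ z = z ^ m • (((m : ℂ) + 1) • g z + z • deriv g z) := by
      filter_upwards [h.eventually_nhds, hg.eventually_analyticAt] with z hz hgz
      have h2 : deriv φ z = deriv (fun z => z ^ (m + 1) • g z) z := EventuallyEq.deriv_eq hz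
      have h3 : HasDerivAt (fun z : ℂ => z ^ (m + 1) • g z)
          (z ^ (m + 1) • deriv g z + (((m + 1 : ℕ) : ℂ) * z ^ m) • g z) z := by
        have h4 : HasDerivAt (fun z : ℂ => z ^ (m + 1)) (((m + 1 : ℕ) : ℂ) * z ^ m) z := by
          simpa using hasDerivAt_pow (m + 1) z
        exact h4.smul hgz.differentiableAt.hasDerivAt
      rw [h2, h3.deriv, smul_add, smul_smul, smul_smul, ← pow_succ, add_comm]
      congr 2
      push_cast
      ring
    have h2 : AnalyticAt ℂ (fun z => ((m : ℂ) + 1) • g z + z • deriv g z) 0 :=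
      (((analyticAt_const (v := ((m : ℂ) + 1))).smul hg).add (analyticAt_id.smul hg.deriv) :)
    rw [iteratedDeriv_succ', ih _ _ h2 h1, zero_smul, add_zero, smul_smul]
    congr 1
    rw [Nat.factorial_succ]
    push_cast
    ring

theorem FixA_tendsto {φ : ℂ → E} (hφ : AnalyticAt ℂ φ 0) {m : ℕ}
    (h : ∀ i < m, iteratedDeriv i φ 0 = 0) :
    Tendsto (fun z : ℂ => (z ^ m)⁻¹ • φ z) (𝓝[≠] 0)
      (𝓝 ((m.factorial : ℂ)⁻¹ • iteratedDeriv m φ 0)) := by
  obtain ⟨g, hg, h1⟩ := (natCast_le_analyticOrderAt hφ).1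
    ((natCast_le_analyticOrderAt_iff_iteratedDeriv_eq_zero hφ).2 h)
  simp only [sub_zero] at h1
  rw [FixA_mul m g φ hg h1, inv_smul_smul₀ (Nat.cast_ne_zero.2 (Nat.factorial_ne_zero m))]
  have h2 : Tendsto g (𝓝[≠] 0) (𝓝 (g 0)) := hg.continuousAt.tendsto.mono_left nhdsWithin_le_nhds
  refine h2.congr' ?_
  filter_upwards [h1.filter_mono nhdsWithin_le_nhds, self_mem_nhdsWithin] with z hz hz0
  rw [hz, inv_smul_smul₀ (pow_ne_zero _ hz0)]

theorem FixA_coeff {φ : ℂ → E} (hφ : AnalyticAt ℂ φ 0) {m : ℕ} {L : E}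
    (h : Tendsto (fun z : ℂ => (z ^ m)⁻¹ • φ z) (𝓝[≠] 0) (𝓝 L)) :
    (∀ i < m, iteratedDeriv i φ 0 = 0) ∧ iteratedDeriv m φ 0 = (m.factorial : ℂ) • L := by
  have key : ∀ j, j ≤ m → ∀ i < j, iteratedDeriv i φ 0 = 0 := by
    intro j
    induction j with
    | zero => intro _ i hi; exact absurd hi (Nat.not_lt_zero _)
    | succ j ih =>
      intro hj i hi
      have ih' := ih (Nat.le_of_succ_le hj)
      rcases Nat.lt_succ_iff_lt_or_eq.1 hi with h1 | h1
      · exact ih' i h1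
      · rw [h1]
        have h2 := FixA_tendsto hφ ih'
        have h3 : Tendsto (fun z : ℂ => (z ^ j)⁻¹ • φ z) (𝓝[≠] 0) (𝓝 0) := by
          have h4 : Tendsto (fun z : ℂ => z ^ (m - j)) (𝓝[≠] 0) (𝓝 0) := by
            have h5 : Tendsto (fun z : ℂ => z ^ (m - j)) (𝓝 0) (𝓝 (0 ^ (m - j))) :=
              (continuous_pow (m - j)).tendsto 0
            rw [zero_pow (by omega)] at h5
            exact h5.mono_left nhdsWithin_le_nhds
          have h5 := h4.smul h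
          rw [zero_smul] at h5
          refine h5.congr' ?_
          filter_upwards [self_mem_nhdsWithin] with z hz
          have hz' : (z : ℂ) ≠ 0 := hz
          rw [smul_smul]
          congr 1
          have h6 : z ^ m = z ^ (m - j) * z ^ j := by rw [← pow_add]; congr 1; omega
          rw [h6, mul_inv, ← mul_assoc, mul_inv_cancel₀ (pow_ne_zero _ hz'), one_mul]
        have h4 := tendsto_nhds_unique h2 h3
        exact (smul_eq_zero_iff_right
          (inv_ne_zero (Nat.cast_ne_zero.2 (Nat.factorial_ne_zero j)))).1 h4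
  refine ⟨key m le_rfl, ?_⟩
  have h1 := tendsto_nhds_unique (FixA_tendsto hφ (key m le_rfl)) h
  rw [← h1, smul_inv_smul₀ (Nat.cast_ne_zero.2 (Nat.factorial_ne_zero m))]

/-- iterated derivatives of locally uniform limits -/
theorem FixA_lim (i : ℕ) : ∀ (f : ℕ → ℂ → E) (g : ℂ → E), (∀ n, Differentiable ℂ (f n)) →
    TendstoLocallyUniformly f g atTop →
      Tendsto (fun n => iteratedDeriv i (f n) 0) atTop (𝓝 (iteratedDeriv i g 0)) := by
  induction i with
  | zero =>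
    intro f g _ hfg
    simp only [iteratedDeriv_zero]
    exact (tendstoLocallyUniformlyOn_univ.2 hfg).tendsto_at (mem_univ 0)
  | succ i ih =>
    intro f g hf hfg
    have h1 := (tendstoLocallyUniformlyOn_univ.2 hfg).deriv
      (Eventually.of_forall fun n => (hf n).differentiableOn) isOpen_univ
    have h2 := ih (fun n => deriv (f n)) (deriv g) (fun n => ?_)
      (tendstoLocallyUniformlyOn_univ.1 h1)
    · simp only [iteratedDeriv_succ']
      exact h2
    · exact differentiableOn_univ.1 ((hf n).differentiableOn.deriv isOpen_univ)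

/-- the functional equation for the leading coefficients -/
theorem FixA_eq {G : E → E} (hG : Differentiable ℂ G) {c : E} (hc : G c = c) {ξ η : ℂ → E}
    (hξ : Differentiable ℂ ξ) (hη : Differentiable ℂ η) (hξ0 : ξ 0 = c) {a : ℂ} (ha : a ≠ 0)
    (he : ∀ z, G (ξ z) = η (a * z)) {m : ℕ}
    (h : ∀ i < m, iteratedDeriv i (fun z => ξ z - c) 0 = 0) :
    (∀ i < m, iteratedDeriv i (fun z => η z - c) 0 = 0) ∧
      fderiv ℂ G c (iteratedDeriv m (fun z => ξ z - c) 0) =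
        a ^ m • iteratedDeriv m (fun z => η z - c) 0 := by
  have hξc : Differentiable ℂ (fun z => ξ z - c) := hξ.sub_const c
  have hηc : Differentiable ℂ (fun z => η z - c) := hη.sub_const c
  have h1 := FixA_tendsto (hξc.analyticAt 0) h
  have hd : Tendsto (fun z => ξ z - c) (𝓝[≠] (0 : ℂ)) (𝓝 0) := by
    have h2 : Tendsto (fun z => ξ z - c) (𝓝 (0 : ℂ)) (𝓝 (ξ 0 - c)) := hξc.continuous.tendsto 0
    rw [hξ0, sub_self] at h2
    exact h2.mono_left nhdsWithin_le_nhds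
  have h2 := (hG c).hasFDerivAt.hasFDerivWithinAt.lim (s := univ) hd
    (Eventually.of_forall fun _ => mem_univ _) h1
  have h3 : Tendsto (fun z : ℂ => (z ^ m)⁻¹ • (η (a * z) - c)) (𝓝[≠] 0)
      (𝓝 (fderiv ℂ G c ((m.factorial : ℂ)⁻¹ • iteratedDeriv m (fun z => ξ z - c) 0))) := by
    refine h2.congr fun z => ?_
    rw [add_sub_cancel, hc, he]
  have h4 : Tendsto (fun w : ℂ => a⁻¹ * w) (𝓝[≠] 0) (𝓝[≠] 0) := by
    rw [tendsto_nhdsWithin_iff]
    constructor
    · have h5 : Tendsto (fun w : ℂ => a⁻¹ * w) (𝓝 0) (𝓝 (a⁻¹ * 0)) :=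
        (continuous_const.mul continuous_id).tendsto 0
      rw [mul_zero] at h5
      exact h5.mono_left nhdsWithin_le_nhds
    · filter_upwards [self_mem_nhdsWithin] with w hw
      exact mul_ne_zero (inv_ne_zero ha) hw
  have h5 := (h3.comp h4).const_smul ((a ^ m)⁻¹)
  have h6 : Tendsto (fun w : ℂ => (w ^ m)⁻¹ • (η w - c)) (𝓝[≠] 0) (𝓝 ((a ^ m)⁻¹ •
      fderiv ℂ G c ((m.factorial : ℂ)⁻¹ • iteratedDeriv m (fun z => ξ z - c) 0))) := by
    refine h5.congr' ?_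
    filter_upwards [self_mem_nhdsWithin] with w hw
    simp only [Function.comp]
    rw [mul_inv_cancel_left₀ ha, smul_smul]
    congr 1
    rw [mul_pow, mul_inv, inv_pow, inv_inv, inv_mul_cancel_left₀ (pow_ne_zero _ ha)]
  obtain ⟨h7, h8⟩ := FixA_coeff (hηc.analyticAt 0) h6
  refine ⟨h7, ?_⟩
  rw [h8, map_smul, smul_smul, smul_smul, smul_smul]
  have h9 : a ^ m * (m.factorial : ℂ) * (a ^ m)⁻¹ * (m.factorial : ℂ)⁻¹ = 1 := by
    have h10 : (m.factorial : ℂ) ≠ 0 := Nat.cast_ne_zero.2 (Nat.factorial_ne_zero m)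
    have h11 : a ^ m ≠ 0 := pow_ne_zero _ ha
    field_simp
  rw [h9, one_smul]

theorem fix_growth (Q : QS) {κ Λ : ℝ} (hg : Gr Q κ Λ) {c : E} (hc : c ∈ closure (Sad Q.F))
    {k : ℕ} (hk : 0 < k) (hf : (Q.F ^ k) c = c) :
    ∃ m : ℕ, 0 < m ∧ ∃ c₁ > 0, ∀ n : ℕ,
      c₁ * (κ ^ (k * m)) ^ n ≤ ‖(fderiv ℂ (⇑(Q.F ^ k)) c) ^ n‖ := by
  classical
  let D : ℕ → (ℂ → E) → E := fun i ξ => iteratedDeriv i (fun z => ξ z - c) 0
  let W : ℕ → Set (ℂ → E) := fun m => {ξ | ξ ∈ Q.U ∧ ξ 0 = c ∧ ∀ i < m, D i ξ = 0}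
  have hDlim : ∀ (i : ℕ) (ξ : ℕ → ℂ → E) (η : ℂ → E), (∀ n, ξ n ∈ Q.U) →
      TendstoLocallyUniformly ξ η atTop → Tendsto (fun n => D i (ξ n)) atTop (𝓝 (D i η)) := by
    intro i ξ η hξ hη
    refine FixA_lim i (fun n z => ξ n z - c) (fun z => η z - c)
      (fun n => (U_diff Q (hξ n)).sub_const c) ?_
    intro u hu x
    obtain ⟨v, hv, h1⟩ := Metric.mem_uniformity_dist.1 hu
    obtain ⟨t, ht, h2⟩ := hη {p | dist p.1 p.2 < v} (Metric.dist_mem_uniformity hv) x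
    refine ⟨t, ht, ?_⟩
    filter_upwards [h2] with n hn y hy
    refine h1 ?_
    rw [dist_sub_right]
    exact hn y hy
  have h0lim : ∀ (ξ : ℕ → ℂ → E) (η : ℂ → E), (∀ n, ξ n 0 = c) →
      TendstoLocallyUniformly ξ η atTop → η 0 = c := by
    intro ξ η hξ hη
    have h1 : Tendsto (fun n => ξ n 0) atTop (𝓝 (η 0)) :=
      (tendstoLocallyUniformlyOn_univ.2 hη).tendsto_at (mem_univ 0)
    simp only [hξ] at h1
    exact (tendsto_nhds_unique h1 tendsto_const_nhds)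
  -- `W 1` is not empty
  have hW1 : (W 1).Nonempty := by
    obtain ⟨p, _, ξ, hξ, hξ0, _⟩ := U_center Q hc
    refine ⟨ξ, hξ, hξ0, fun i hi => ?_⟩
    have : i = 0 := by omega
    rw [this]
    change iteratedDeriv 0 (fun z => ξ z - c) 0 = 0
    rw [iteratedDeriv_zero, hξ0, sub_self]
  -- some `W m` is empty
  have hWe : ∃ M, ¬ (W M).Nonempty := by
    by_contra hcon
    push Not at hcon
    choose ξ hξ using hcon
    obtain ⟨φ, hφ, η, hη, hlim⟩ := U_seq Q (fun n => (hξ n).1)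
    have h1 : ∀ i, D i η = 0 := by
      intro i
      have h2 := hDlim i _ _ (fun n => (hξ (φ n)).1) hlim
      refine tendsto_nhds_unique h2 ?_
      refine tendsto_const_nhds.congr' ?_
      filter_upwards [eventually_gt_atTop i] with n hn
      exact ((hξ (φ n)).2.2 i (lt_of_lt_of_le hn (hφ.id_le n))).symm
    have h0 : η 0 = c := h0lim _ _ (fun n => (hξ (φ n)).2.1) hlim
    have hηa : AnalyticAt ℂ (fun z => η z - c) 0 := ((U_diff Q hη).sub_const c).analyticAt 0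
    have h2 : analyticOrderAt (fun z => η z - c) 0 = ⊤ := by
      refine ENat.eq_top_iff_forall_ge.2 fun n => ?_
      exact (natCast_le_analyticOrderAt_iff_iteratedDeriv_eq_zero hηa).2 fun i _ => h1 i
    have h3 := analyticOrderAt_eq_top.1 h2
    have h4 := nc_of_entire (U_diff Q hη) (U_ne Q hη) 0
    obtain ⟨z, h5, h6⟩ := (h4.and_eventually h3).exists
    rw [h0] at h5
    exact h5 (sub_eq_zero.1 h6)
  obtain ⟨m, hm, hWm, hWm'⟩ : ∃ m, 0 < m ∧ (W m).Nonempty ∧ ¬ (W (m + 1)).Nonempty := by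
    have h1 := Nat.find_spec hWe
    have h2 : ∀ j < Nat.find hWe, (W j).Nonempty := fun j hj => not_not.1 (Nat.find_min hWe hj)
    have h3 : 1 < Nat.find hWe := by
      by_contra h4
      have h5 : Nat.find hWe = 0 ∨ Nat.find hWe = 1 := by omega
      rcases h5 with h5 | h5
      · rw [h5] at h1
        obtain ⟨ξ, h6, h7, h8⟩ := hW1
        exact h1 ⟨ξ, h6, h7, fun i hi => absurd hi (Nat.not_lt_zero _)⟩
      · rw [h5] at h1
        exact h1 hW1
    refine ⟨Nat.find hWe - 1, by omega, h2 _ (by omega), ?_⟩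
    rwa [Nat.sub_add_cancel (by omega)]
  have hne : ∀ ξ ∈ W m, D m ξ ≠ 0 := by
    intro ξ hξ h1
    refine hWm' ⟨ξ, hξ.1, hξ.2.1, fun i hi => ?_⟩
    rcases Nat.lt_succ_iff_lt_or_eq.1 hi with h2 | h2
    · exact hξ.2.2 i h2
    · rw [h2]
      exact h1
  -- lower bound for the leading coefficients
  obtain ⟨c₁, hc₁, hlow⟩ : ∃ c₁ > 0, ∀ ξ ∈ W m, c₁ ≤ ‖D m ξ‖ := by
    by_contra hcon
    push Not at hcon
    have h1 : ∀ n : ℕ, ∃ ξ ∈ W m, ‖D m ξ‖ < 1 / ((n : ℝ) + 1) :=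
      fun n => hcon _ (by positivity)
    choose ξ hξ hlt using h1
    obtain ⟨φ, hφ, η, hη, hlim⟩ := U_seq Q (fun n => (hξ n).1)
    have h2 : η ∈ W m := by
      refine ⟨hη, h0lim _ _ (fun n => (hξ (φ n)).2.1) hlim, fun i hi => ?_⟩
      have h3 := hDlim i _ _ (fun n => (hξ (φ n)).1) hlim
      have h4 : ∀ n, D i (ξ (φ n)) = 0 := fun n => (hξ (φ n)).2.2 i hi
      simp only [h4] at h3
      exact (tendsto_nhds_unique h3 tendsto_const_nhds)
    have h3 := (hDlim m _ _ (fun n => (hξ (φ n)).1) hlim).norm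
    have h4 : Tendsto (fun n : ℕ => 1 / (((φ n : ℕ) : ℝ) + 1)) atTop (𝓝 0) :=
      tendsto_one_div_add_atTop_nhds_zero_nat.comp hφ.tendsto_atTop
    have h5 : ‖D m η‖ ≤ 0 := le_of_tendsto_of_tendsto' h3 h4 fun n => (hlt (φ n)).le
    exact hne η h2 (norm_le_zero_iff.1 h5)
  have hκ0 : 0 < κ := lt_trans zero_lt_one hg.one_lt
  -- the step
  have hstep : ∀ ξ ∈ W m, ∃ η ∈ W m, ∃ a : ℂ, κ ^ k ≤ ‖a‖ ∧
      fderiv ℂ (⇑(Q.F ^ k)) c (D m ξ) = a ^ m • D m η := by
    intro ξ hξ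
    obtain ⟨η, a, h1, h2, h3, h4, h5, h6⟩ := hg.orb ξ hξ.1
    have h7 : ∀ n : ℕ, κ ^ n ≤ ‖a n‖ := by
      intro n
      induction n with
      | zero => simp [h2]
      | succ n ih =>
        have h8 := (h6 n).1
        rw [pow_succ']
        push_cast
        exact (mul_le_mul_of_nonneg_left ih hκ0.le).trans h8
    have h8 : ∀ z, (Q.F ^ k) (ξ z) = η k (a k * z) := fun z => by
      have h9 := h5 k z
      rwa [zpow_natCast] at h9
    have h9 : η k 0 = c := by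
      have h10 := h8 0
      rw [mul_zero, hξ.2.1, hf] at h10
      exact h10.symm
    have h10 := FixA_eq (Q.toSys.diff_pow k) hf (U_diff Q hξ.1) (U_diff Q (h3 k)) hξ.2.1
      (h4 k) h8 hξ.2.2
    exact ⟨η k, ⟨h3 k, h9, h10.1⟩, a k, h7 k, h10.2⟩
  obtain ⟨ξ₀, hξ₀⟩ := hWm
  have hv : 0 < ‖D m ξ₀‖ := norm_pos_iff.2 (hne ξ₀ hξ₀)
  have hgrow : ∀ n : ℕ, ∀ ξ ∈ W m,
      c₁ * (κ ^ (k * m)) ^ n ≤ ‖((fderiv ℂ (⇑(Q.F ^ k)) c) ^ n) (D m ξ)‖ := by
    intro n
    induction n with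
    | zero =>
      intro ξ hξ
      rw [pow_zero, pow_zero, mul_one]
      exact hlow ξ hξ
    | succ n ih =>
      intro ξ hξ
      obtain ⟨η, hη, a, ha, h1⟩ := hstep ξ hξ
      have h0 : ((fderiv ℂ (⇑(Q.F ^ k)) c) ^ (n + 1)) (D m ξ) =
          ((fderiv ℂ (⇑(Q.F ^ k)) c) ^ n) (fderiv ℂ (⇑(Q.F ^ k)) c (D m ξ)) := by
        rw [pow_succ]
        rfl
      rw [h0, h1, map_smul, norm_smul, norm_pow]
      have h2 := ih η hη
      have h3 : κ ^ (k * m) ≤ ‖a‖ ^ m := by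
        rw [pow_mul]
        exact pow_le_pow_left₀ (pow_nonneg hκ0.le k) ha m
      calc c₁ * (κ ^ (k * m)) ^ (n + 1) = κ ^ (k * m) * (c₁ * (κ ^ (k * m)) ^ n) := by ring
        _ ≤ ‖a‖ ^ m * ‖((fderiv ℂ (⇑(Q.F ^ k)) c) ^ n) (D m η)‖ :=
            mul_le_mul h3 h2 (by positivity) (by positivity)
  refine ⟨m, hm, c₁ / ‖D m ξ₀‖, div_pos hc₁ hv, fun n => ?_⟩
  have h1 := hgrow n ξ₀ hξ₀
  have h2 := ((fderiv ℂ (⇑(Q.F ^ k)) c) ^ n).le_opNorm (D m ξ₀)
  rw [div_mul_eq_mul_div, div_le_iff₀ hv]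
  exact h1.trans h2

end Pool.Agent.HQ
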