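import Pool.Agent.HQ.Defs
import Pool.Agent.HQ.Bas
import Pool.Agent.HQ.FixA
import Pool.Agent.HQ.MatG
import Pool.Agent.HQ.Gro

/-!
# HQ module Fix31: periodic points of the closure of the saddles are saddles
-/

set_option autoImplicit false

open Filter Topology Set Metric

namespace Pool.Agent.HQ

/-- an eigenvalue of modulus greater than one -/
theorem Fix31_one (Q : QS) {c : E} (hc : c ∈ closure (Sad Q.F)) {k : ℕ} (hk : 0 < k)
    (hf : (Q.F ^ k) c = c) : ∃ l : ℂ, 1 < ‖l‖ ∧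
      Module.End.HasEigenvalue (fderiv ℂ (⇑(Q.F ^ k)) c).toLinearMap l := by
  obtain ⟨κ, Λ, hg⟩ := growth Q
  obtain ⟨m, hm, c₁, hc₁, hn⟩ := fix_growth Q hg hc hk hf
  exact eig_of_growth _ hc₁ (one_lt_pow₀ hg.one_lt (Nat.mul_pos hk hm).ne') hn

/-- the same period -/
theorem fix_sad' (Q : QS) {c : E} (hc : c ∈ closure (Sad Q.F)) {k : ℕ} (hk : 0 < k)
    (hf : (Q.F ^ k) c = c) : ∃ l m : ℂ, 1 < ‖l‖ ∧ ‖m‖ < 1 ∧
      Module.End.HasEigenvalue (fderiv ℂ (⇑(Q.F ^ k)) c).toLinearMap l ∧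
      Module.End.HasEigenvalue (fderiv ℂ (⇑(Q.F ^ k)) c).toLinearMap m := by
  obtain ⟨l, hl, hel⟩ := Fix31_one Q hc hk hf
  have hA := Q.diff_pow k
  have hB := Q.diff_inv_pow k
  have hAB : ∀ x, (Q.F ^ k) ((Q.F⁻¹ ^ k) x) = x := fun x => by
    rw [inv_pow]; exact (Q.F ^ k).apply_symm_apply x
  have hf' : (Q.F⁻¹ ^ k) c = c := by
    conv_lhs => rw [← hf]
    rw [inv_pow]
    exact (Q.F ^ k).symm_apply_apply c
  have hc' : c ∈ closure (Sad Q.dual.F) := by rw [QS.dual_Sad]; exact hc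
  obtain ⟨l', hl', hel'⟩ := Fix31_one Q.dual hc' hk hf'
  rw [QS.dual_F] at hel'
  have key : ∀ v : E, fderiv ℂ (⇑(Q.F ^ k)) c (fderiv ℂ (⇑(Q.F⁻¹ ^ k)) c v) = v := by
    intro v
    have := fderiv_inv_comp (p := c) hB hA hAB v
    rwa [hf'] at this
  have hl0 : l' ≠ 0 := by
    rintro rfl
    rw [norm_zero] at hl'
    linarith
  refine ⟨l, l'⁻¹, hl, ?_, hel, ?_⟩
  · rw [norm_inv]
    exact inv_lt_one_of_one_lt₀ hl'
  · obtain ⟨v, hv⟩ := hel'.exists_hasEigenvector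
    have hv1 : fderiv ℂ (⇑(Q.F⁻¹ ^ k)) c v = l' • v := hv.apply_eq_smul
    have hv2 := key v
    rw [hv1, map_smul] at hv2
    refine Module.End.hasEigenvalue_of_hasEigenvector (x := v) ⟨?_, hv.2⟩
    rw [Module.End.mem_eigenspace_iff]
    change fderiv ℂ (⇑(Q.F ^ k)) c v = l'⁻¹ • v
    rw [eq_inv_smul_iff₀ hl0]
    exact hv2

theorem fix_sad (Q : QS) {c : E} (hc : c ∈ closure (Sad Q.F)) {k : ℕ} (hk : 0 < k)
    (hf : (Q.F ^ k) c = c) : c ∈ Sad Q.F := ⟨k, hk, hf, fix_sad' Q hc hk hf⟩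

end Pool.Agent.HQ
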