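import Pool.Agent.HQ.Defs
import Pool.Agent.HQ.Bas
import Pool.Agent.HQ.Cmp
import Pool.Agent.HQ.Lm50
import Pool.Agent.HQ.Fix31
import Pool.Agent.HQ.Cnv
import Pool.Agent.HQ.Fr23
import Pool.Agent.HQ.MatG

/-!
# HQ module N52: not all limits are constants outside the interior
-/

set_option autoImplicit false

open Filter Topology Set Metric

namespace Pool.Agent.HQ

theorem N52_iter (F : Equiv.Perm E) (k n : ℕ) (x : E) :
    (⇑(F ^ k))^[n] x = (F ^ (k * n)) x := by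
  rw [Equiv.Perm.iterate_eq_pow, pow_mul]

theorem N52_fin (Q : QS) {k : ℕ} (hk : 0 < k) :
    {c | c ∈ closure (Sad Q.F) ∧ (Q.F ^ k) c = c}.Finite := by
  have hcl : IsClosed {c | c ∈ closure (Sad Q.F) ∧ (Q.F ^ k) c = c} :=
    isClosed_closure.inter (isClosed_eq (Q.diff_pow k).continuous continuous_id)
  obtain ⟨R, hR⟩ := Q.K_bdd
  have hbd : Bornology.IsBounded {c | c ∈ closure (Sad Q.F) ∧ (Q.F ^ k) c = c} := by
    refine (Metric.isBounded_closedBall (x := (0 : E)) (r := R)).subset ?_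
    rintro c ⟨hc, -⟩
    rw [mem_closedBall_zero_iff]
    exact hR c (Q.clSad_P hc) (Q.clSad_M hc)
  have hcpt := Metric.isCompact_of_isClosed_isBounded hcl hbd
  have hU : ∀ c ∈ {c | c ∈ closure (Sad Q.F) ∧ (Q.F ^ k) c = c},
      {x | (Q.F ^ k) x = x → x = c} ∈ 𝓝 c := by
    rintro c ⟨hc, hfc⟩
    refine iso_fix (Q.diff_pow k) hfc ?_
    intro h1
    obtain ⟨l, m, hl, hm, hel, hem⟩ := fix_sad' Q hc hk hfc
    have hlm : l ≠ m := by
      rintro rfl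
      linarith
    rcases eig_two hlm hel hem h1 with h | h
    · rw [← h] at hl
      simp at hl
    · rw [← h] at hm
      simp at hm
  obtain ⟨t, -, ht⟩ := hcpt.elim_nhds_subcover _ hU
  refine (t.finite_toSet).subset ?_
  intro z hz
  obtain ⟨c, hc, hzc⟩ := mem_iUnion₂.1 (ht hz)
  have : z = c := hzc hz.2
  rw [this]
  exact hc

theorem N52_Ws (Q : QS) {k : ℕ} (hk : 0 < k) {x z : E} (hz : (Q.F ^ k) z = z)
    (h : Tendsto (fun n : ℕ => (Q.F ^ (k * n)) x) atTop (𝓝 z)) : x ∈ Ws Q.F z := by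
  have h1 : ∀ j : ℕ, Tendsto (fun n : ℕ => (Q.F ^ j) ((Q.F ^ (k * n)) x)) atTop
      (𝓝 ((Q.F ^ j) z)) := fun j =>
    (((Q.diff_pow j).continuous).tendsto z).comp h
  unfold Ws
  rw [mem_ofPred_eq, Metric.tendsto_atTop]
  intro ε hε
  have h2 : ∀ᶠ n : ℕ in atTop, ∀ j ∈ Finset.range k,
      dist ((Q.F ^ j) ((Q.F ^ (k * n)) x)) ((Q.F ^ j) z) < ε := by
    rw [Finset.eventually_all]
    intro j _
    exact (Metric.tendsto_nhds.1 (h1 j)) ε hε
  obtain ⟨N, hN⟩ := eventually_atTop.1 h2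
  refine ⟨N * k, fun n hn => ?_⟩
  have h3 : N ≤ n / k := (Nat.le_div_iff_mul_le hk).2 hn
  have h4 := hN (n / k) h3 (n % k) (Finset.mem_range.2 (Nat.mod_lt _ hk))
  have h5 : ∀ y : E, (Q.F ^ n) y = (Q.F ^ (n % k)) ((Q.F ^ (k * (n / k))) y) := by
    intro y
    rw [← Equiv.Perm.mul_apply, ← pow_add, Nat.mod_add_div]
  rw [h5 x, h5 z, Q.per_mul hz]
  simpa using h4

theorem not_all_bad (Q : QS) (h5 : Q.H5) {k : ℕ} (hk : 0 < k) {Ω : Set E} (hΩ : Q.IsComp Ω)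
    (hF : (⇑(Q.F ^ k)) '' Ω = Ω) :
    ¬ ∀ g ∈ Q.Lim k Ω, ∃ c, c ∉ interior Q.Kp ∧ ∀ x ∈ Ω, g x = c := by
  intro hall
  obtain ⟨x, hx⟩ := hΩ.nonempty
  have hxi : x ∈ interior Q.Kp := hΩ.sub hx
  have hxK : x ∈ Q.Kp := interior_subset hxi
  have hxP : Q.P x = 0 := hxK
  obtain ⟨R, hR⟩ := Q.fwd_bdd (Q.M x)
  have hb : Bornology.IsBounded (range fun n : ℕ => (⇑(Q.F ^ k))^[n] x) := by
    refine (Metric.isBounded_closedBall (x := (0 : E)) (r := R)).subset ?_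
    rintro _ ⟨n, rfl⟩
    rw [mem_closedBall_zero_iff]
    simp only [N52_iter]
    exact hR x hxP le_rfl _
  have hl : ∀ y, MapClusterPt y atTop (fun n : ℕ => (⇑(Q.F ^ k))^[n] x) →
      y ∈ {c | c ∈ closure (Sad Q.F) ∧ (Q.F ^ k) c = c} := by
    intro y hy
    obtain ⟨ψ, hψ, hψy⟩ := MapClusterPt.tendsto_subseq hy
    obtain ⟨φ, hφ, g, hg, hgl⟩ := Lim_sub Q.toSys k hΩ hψ.tendsto_atTop
    have e1 : Tendsto (fun j => (Q.F ^ (k * ψ (φ j))) x) atTop (𝓝 (g x)) :=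
      hgl.tendsto_at hx
    have e2 : Tendsto (fun j => (Q.F ^ (k * ψ (φ j))) x) atTop (𝓝 y) := by
      have := hψy.comp hφ.tendsto_atTop
      refine this.congr fun j => ?_
      simp only [Function.comp, N52_iter]
    have hyg : y = g x := tendsto_nhds_unique e2 e1
    obtain ⟨c, hc, hgc⟩ := hall g hg
    have hyc : y = c := hyg.trans (hgc x hx)
    have hK := Lim_K hk hΩ hg x hx
    rw [← hyg] at hK
    refine ⟨h5 y hK.1 hK.2 (by rw [hyc]; exact hc), ?_⟩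
    have hTx : (Q.F ^ k) x ∈ Ω := by
      rw [← hF]
      exact mem_image_of_mem _ hx
    have h6 := Lim_comm hΩ hF hg x hx
    rw [hgc _ hTx, hgc _ hx] at h6
    rw [hyc]
    exact h6.symm
  obtain ⟨z, hz, hzt⟩ := conv_of_fin (T := ⇑(Q.F ^ k)) (Q.diff_pow k).continuous (N52_fin Q hk)
    (fun z hz => hz.2) hb hl
  have hzS : z ∈ Sad Q.F := fix_sad Q hz.1 hk hz.2
  refine Ws_not_int Q hzS (N52_Ws Q hk hz.2 ?_) hxi
  refine hzt.congr fun n => ?_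
  rw [N52_iter]

end Pool.Agent.HQ
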