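import Pool.Agent.HQ.Defs

/-!
# HQ module Rec: recurrent orbits are relatively compact
-/

set_option autoImplicit false

open Filter Topology Set Metric

namespace Pool.Agent.HQ

set_option linter.unusedVariables false in
theorem recur {T : E → E} (hT : Continuous T) {Ω : Set E} (hΩ : IsOpen Ω) (hm : MapsTo T Ω Ω)
    (hb : ∀ x ∈ Ω, Bornology.IsBounded (range fun n : ℕ => T^[n] x))
    (he : ∀ x ∈ Ω, ∃ r > 0, ball x r ⊆ Ω ∧ ∃ C : ℝ, ∀ n : ℕ, ∀ y ∈ ball x r, ∀ z ∈ ball x r,
      dist (T^[n] y) (T^[n] z) ≤ C * dist y z)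
    {s : E} (hs : s ∈ Ω) {e : ℕ → ℕ} (hee : Tendsto e atTop atTop)
    (hes : Tendsto (fun j => T^[e j] s) atTop (𝓝 s)) :
    ∃ K : Set E, IsCompact K ∧ K ⊆ Ω ∧ ∀ n : ℕ, T^[n] s ∈ K := by
  obtain ⟨r0, hr0, hr0Ω⟩ := Metric.isOpen_iff.1 hΩ s hs
  set r : ℝ := r0 / 2 with hr
  have hrp : 0 < r := by positivity
  have hBΩ : closedBall s r ⊆ Ω := fun x hx => hr0Ω (by
    rw [mem_closedBall] at hx
    rw [mem_ball]
    linarith)
  have hBc : IsCompact (closedBall s r) := isCompact_closedBall s r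
  -- every visit is followed by a visit after a bounded time
  have hgap : ∃ N : ℕ, ∀ v : ℕ, T^[v] s ∈ closedBall s r →
      ∃ m : ℕ, 0 < m ∧ m ≤ N ∧ T^[v + m] s ∈ closedBall s r := by
    refine IsCompact.induction_on (p := fun S : Set E => ∃ N : ℕ, ∀ v : ℕ, T^[v] s ∈ S →
      ∃ m : ℕ, 0 < m ∧ m ≤ N ∧ T^[v + m] s ∈ closedBall s r) hBc ?_ ?_ ?_ ?_
    · exact ⟨0, fun v hv => absurd hv (notMem_empty _)⟩
    · rintro S S' hSS' ⟨N, hN⟩
      exact ⟨N, fun v hv => hN v (hSS' hv)⟩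
    · rintro S S' ⟨N, hN⟩ ⟨N', hN'⟩
      refine ⟨max N N', fun v hv => ?_⟩
      rcases hv with hv | hv
      · obtain ⟨m, h1, h2, h3⟩ := hN v hv
        exact ⟨m, h1, h2.trans (le_max_left _ _), h3⟩
      · obtain ⟨m, h1, h2, h3⟩ := hN' v hv
        exact ⟨m, h1, h2.trans (le_max_right _ _), h3⟩
    · intro y hy
      obtain ⟨η, hη, hηΩ, C, hC⟩ := he y (hBΩ hy)
      -- small radius
      set δ : ℝ := min η (r / (8 * (|C| + 1))) with hδ
      have hCp : 0 < |C| + 1 := by positivity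
      have hδp : 0 < δ := by positivity
      have hδη : δ ≤ η := min_le_left _ _
      have hδC : δ * (8 * (|C| + 1)) ≤ r := by
        have : δ ≤ r / (8 * (|C| + 1)) := min_le_right _ _
        rwa [le_div_iff₀ (by positivity)] at this
      have hclose : ∀ n : ℕ, ∀ z ∈ ball y δ, ∀ w ∈ ball y δ,
          dist (T^[n] z) (T^[n] w) ≤ r / 4 := by
        intro n z hz w hw
        have h1 := hC n z (ball_subset_ball hδη hz) w (ball_subset_ball hδη hw)
        rw [mem_ball] at hz hw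
        have h2 : dist z w ≤ 2 * δ := by
          have := dist_triangle_right z w y
          linarith
        have h3 : C * dist z w ≤ |C| * dist z w :=
          mul_le_mul_of_nonneg_right (le_abs_self C) dist_nonneg
        have h4 : |C| * dist z w ≤ |C| * (2 * δ) :=
          mul_le_mul_of_nonneg_left h2 (abs_nonneg C)
        nlinarith [abs_nonneg C]
      by_cases hex : ∃ v0 : ℕ, T^[v0] s ∈ ball y δ
      · obtain ⟨v0, hv0⟩ := hex
        have h5 : ∀ᶠ j in atTop, dist (T^[e j] s) s < r / 4 :=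
          (hes.eventually (ball_mem_nhds s (by positivity : (0 : ℝ) < r / 4)))
        have h6 : ∀ᶠ j in atTop, v0 < e j := hee.eventually_gt_atTop v0
        obtain ⟨J, hJ1, hJ2⟩ := (h5.and h6).exists
        refine ⟨ball y δ, mem_nhdsWithin_of_mem_nhds (ball_mem_nhds y hδp),
          e J - v0, fun v hv => ⟨e J - v0, by omega, le_rfl, ?_⟩⟩
        have h7 := hclose (e J - v0) _ hv _ hv0
        rw [← Function.iterate_add_apply, ← Function.iterate_add_apply] at h7
        have h8 : e J - v0 + v0 = e J := by omega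
        rw [h8, add_comm (e J - v0) v] at h7
        rw [mem_closedBall]
        have := dist_triangle (T^[v + (e J - v0)] s) (T^[e J] s) s
        linarith
      · refine ⟨ball y δ, mem_nhdsWithin_of_mem_nhds (ball_mem_nhds y hδp), 0,
          fun v hv => absurd ⟨v, hv⟩ hex⟩
  obtain ⟨N, hN⟩ := hgap
  have hcov : ∀ n : ℕ, ∃ v ≤ n, n ≤ v + N ∧ T^[v] s ∈ closedBall s r := by
    intro n
    induction n with
    | zero => exact ⟨0, le_rfl, Nat.zero_le _, mem_closedBall_self hrp.le⟩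
    | succ n ih =>
      obtain ⟨v, hv1, hv2, hv3⟩ := ih
      by_cases h : n + 1 ≤ v + N
      · exact ⟨v, by omega, h, hv3⟩
      · obtain ⟨m, hm1, hm2, hm3⟩ := hN v hv3
        exact ⟨v + m, by omega, by omega, hm3⟩
  have hmit : ∀ j : ℕ, MapsTo T^[j] Ω Ω := fun j => hm.iterate j
  refine ⟨⋃ j ∈ Finset.range (N + 1), T^[j] '' closedBall s r, ?_, ?_, ?_⟩
  · exact (Finset.range (N + 1)).isCompact_biUnion fun j _ => hBc.image (hT.iterate j)
  · refine iUnion₂_subset fun j _ => ?_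
    rintro _ ⟨x, hx, rfl⟩
    exact hmit j (hBΩ hx)
  · intro n
    obtain ⟨v, hv1, hv2, hv3⟩ := hcov n
    rw [mem_iUnion₂]
    refine ⟨n - v, Finset.mem_range.2 (by omega), T^[v] s, hv3, ?_⟩
    rw [← Function.iterate_add_apply]
    have : n - v + v = n := by omega
    rw [this]

end Pool.Agent.HQ
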