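import Pool.Agent.HQ.Defs
import Pool.Agent.HQ.Bas
import Pool.Agent.HQ.Cmp
import Pool.Agent.HQ.Lm50
import Pool.Agent.HQ.LimW

/-!
# HQ module S51: constant limits in the interior give sinks
-/

set_option autoImplicit false

open Filter Topology Set Metric

namespace Pool.Agent.HQ

theorem S51_mem {S : Sys} {k : ℕ} {Ω : Set E} (hF : (⇑(S.F ^ k)) '' Ω = Ω) (n : ℕ) {x : E}
    (hx : x ∈ Ω) : (S.F ^ (k * n)) x ∈ Ω := by
  induction n with
  | zero => simpa using hx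
  | succ n ih =>
    rw [mul_add, mul_one, add_comm, pow_add, Equiv.Perm.mul_apply]
    rw [← hF]
    exact mem_image_of_mem _ ih

/-- the eigenvalues at a fixed point, some iterate of which contracts a ball -/
theorem S51_eig (S : Sys) {k m : ℕ} {c : E} (hc : (S.F ^ k) c = c) {r : ℝ} (hr : 0 < r)
    (hmap : MapsTo (⇑(S.F ^ (k * m))) (ball c r) (closedBall c (r / 4))) {l : ℂ}
    (hl : Module.End.HasEigenvalue (fderiv ℂ (⇑(S.F ^ k)) c).toLinearMap l) : ‖l‖ < 1 := by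
  obtain ⟨v, hv⟩ := hl.exists_hasEigenvector
  have hv1 : fderiv ℂ (⇑(S.F ^ k)) c v = l • v := hv.apply_eq_smul
  have hv0 : v ≠ 0 := hv.2
  have hfix : (S.F ^ (k * m)) c = c := S.per_mul hc m
  have hd : HasFDerivAt (⇑(S.F ^ k)) (fderiv ℂ (⇑(S.F ^ k)) c) c :=
    (S.diff_pow k c).hasFDerivAt
  have hit := hd.iterate hc m
  have hfun : (⇑(S.F ^ k))^[m] = ⇑(S.F ^ (k * m)) := by
    rw [Equiv.Perm.iterate_eq_pow, pow_mul]
  rw [hfun] at hit
  have h1 : ‖fderiv ℂ (⇑(S.F ^ (k * m))) c‖ ≤ (r / 4) / r := by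
    refine Complex.norm_fderiv_le_div_of_mapsTo_ball (S.diff_pow _).differentiableOn ?_ hr
    rw [hfix]
    exact hmap
  rw [hit.fderiv] at h1
  have h2 : (r / 4) / r = 1 / 4 := by field_simp
  rw [h2] at h1
  have hpow : ∀ n : ℕ, ((fderiv ℂ (⇑(S.F ^ k)) c) ^ n) v = l ^ n • v := by
    intro n
    induction n with
    | zero => simp
    | succ n ih =>
      rw [pow_succ', mul_apply_eq_comp, ih, map_smul, hv1, smul_smul, pow_succ]
  have h3 : ‖l ^ m • v‖ ≤ 1 / 4 * ‖v‖ := by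
    rw [← hpow m]
    exact (ContinuousLinearMap.le_opNorm _ _).trans
      (mul_le_mul_of_nonneg_right h1 (norm_nonneg _))
  rw [norm_smul, norm_pow] at h3
  have hvp : 0 < ‖v‖ := norm_pos_iff.2 hv0
  have h4 : ‖l‖ ^ m ≤ 1 / 4 := le_of_mul_le_mul_right h3 hvp
  by_contra hcon
  have h5 : 1 ≤ ‖l‖ ^ m := one_le_pow₀ (not_lt.1 hcon)
  linarith

theorem sink_of_const (S : Sys) {k : ℕ} (hk : 0 < k) {Ω : Set E} (hΩ : S.IsComp Ω)
    (hF : (⇑(S.F ^ k)) '' Ω = Ω) {g : E → E} (hg : g ∈ S.Lim k Ω) {c : E}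
    (hgc : ∀ x ∈ Ω, g x = c) (hc : c ∈ interior S.Kp) :
    c ∈ Ω ∧ c ∈ Snk S.F ∧ (S.F ^ k) c = c ∧
      ∀ x ∈ Ω, Tendsto (fun n : ℕ => (S.F ^ (k * n)) x) atTop (𝓝 c) := by
  obtain ⟨x0, hx0⟩ := hΩ.nonempty
  have hcΩ : c ∈ Ω := by
    have h1 := Lim_closure hΩ hF hg x0 hx0
    rw [hgc x0 hx0] at h1
    exact hΩ.closure_inter h1 hc
  have hfix : (S.F ^ k) c = c := by
    have h1 := Lim_comm hΩ hF hg x0 hx0
    have hx1 : (S.F ^ k) x0 ∈ Ω := by
      have h0 : (S.F ^ k) x0 ∈ (⇑(S.F ^ k)) '' Ω := mem_image_of_mem _ hx0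
      rwa [hF] at h0
    rw [hgc _ hx1, hgc _ hx0] at h1
    exact h1.symm
  obtain ⟨m, hm, hlim⟩ := hg
  refine ⟨hcΩ, ?_, hfix, ?_⟩
  · refine ⟨k, hk, hfix, ?_⟩
    intro l hl
    obtain ⟨r, hr, hb⟩ := Metric.isOpen_iff.1 hΩ.isOpen c hcΩ
    have hcb : closedBall c (r / 2) ⊆ Ω :=
      (closedBall_subset_ball (by linarith)).trans hb
    have h1 := (tendstoLocallyUniformlyOn_iff_forall_isCompact hΩ.isOpen).1 hlim
      (closedBall c (r / 2)) hcb (isCompact_closedBall _ _)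
    have h2 := Metric.tendstoUniformlyOn_iff.1 h1 (r / 2 / 4) (by positivity)
    obtain ⟨j, hj⟩ := h2.exists
    refine S51_eig S (m := m j) hfix (r := r / 2) (by positivity) ?_ hl
    intro y hy
    have h3 := hj y (ball_subset_closedBall hy)
    rw [hgc y (hcb (ball_subset_closedBall hy))] at h3
    rw [mem_closedBall, dist_comm]
    exact h3.le
  · intro x hx
    obtain ⟨r, hr, -, C, hC0, hC⟩ := equi_Kp S hc
    rw [Metric.tendsto_atTop]
    intro ε hε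
    have h1 := hlim.tendsto_at hx
    rw [hgc x hx] at h1
    have hδ : 0 < min r (ε / (C + 1)) := lt_min hr (by positivity)
    obtain ⟨j, hj⟩ := (Metric.tendsto_nhds.1 h1 _ hδ).exists
    refine ⟨m j, fun n hn => ?_⟩
    obtain ⟨a, rfl⟩ := Nat.exists_eq_add_of_le hn
    have h2 : (S.F ^ (k * (m j + a))) x = (S.F ^ (k * a)) ((S.F ^ (k * m j)) x) := by
      rw [← Equiv.Perm.mul_apply, ← pow_add, ← mul_add, add_comm a]
    have h3 : (S.F ^ (k * a)) c = c := S.per_mul hfix a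
    rw [h2]
    calc dist ((S.F ^ (k * a)) ((S.F ^ (k * m j)) x)) c
        = dist ((S.F ^ (k * a)) ((S.F ^ (k * m j)) x)) ((S.F ^ (k * a)) c) := by rw [h3]
      _ ≤ C * dist ((S.F ^ (k * m j)) x) c :=
          hC _ _ (mem_ball.2 (hj.trans_le (min_le_left _ _))) _ (mem_ball_self hr)
      _ ≤ (C + 1) * dist ((S.F ^ (k * m j)) x) c :=
          mul_le_mul_of_nonneg_right (by linarith) dist_nonneg
      _ < (C + 1) * (ε / (C + 1)) :=
          mul_lt_mul_of_pos_left (hj.trans_le (min_le_right _ _)) (by linarith)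
      _ = ε := by field_simp

end Pool.Agent.HQ
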