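import Pool.Agent.HQ.Defs
import Pool.Agent.HQ.Bas
import Pool.Agent.HQ.Cmp
import Pool.Agent.HQ.Lm50
import Pool.Agent.HQ.LimW
import Pool.Agent.HQ.S51
import Pool.Agent.HQ.N52
import Pool.Agent.HQ.Rec
import Pool.Agent.HQ.C27

/-!
# HQ module R53: the retraction on the limit set
-/

set_option autoImplicit false

open Filter Topology Set Metric

namespace Pool.Agent.HQ

theorem R53_sub {f : ℕ → E → E} {g : E → E} {Ω : Set E}
    (h : TendstoLocallyUniformlyOn f g atTop Ω) {φ : ℕ → ℕ} (hφ : Tendsto φ atTop atTop) :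
    TendstoLocallyUniformlyOn (fun j => f (φ j)) g atTop Ω := by
  intro u hu x hx
  obtain ⟨t, ht, h1⟩ := h u hu x hx
  exact ⟨t, ht, hφ.eventually h1⟩

/-- composition of a locally uniform limit with a convergent sequence -/
theorem R53_comp {f : ℕ → E → E} {g : E → E} {Ω : Set E} (hΩ : IsOpen Ω)
    (h : TendstoLocallyUniformlyOn f g atTop Ω) (hg : ContinuousOn g Ω) {y : ℕ → E} {x : E}
    (hx : x ∈ Ω) (hy : Tendsto y atTop (𝓝 x)) :
    Tendsto (fun j => f j (y j)) atTop (𝓝 (g x)) := by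
  refine h.tendsto_comp (hg x hx) hx ?_
  rw [hΩ.nhdsWithin_eq hx]
  exact hy

/-- nonconstant limits map the component to itself -/
theorem R53_maps (Q : QS) (h5 : Q.H5) {k : ℕ} (hk : 0 < k) {Ω : Set E} (hΩ : Q.IsComp Ω)
    (hF : (⇑(Q.F ^ k)) '' Ω = Ω) {g : E → E} (hg : g ∈ Q.Lim k Ω)
    (hnc : ∃ x ∈ Ω, ∃ y ∈ Ω, g x ≠ g y) : MapsTo g Ω Ω := by
  intro x hx
  have hK := Lim_K hk hΩ hg
  have h1 : g x ∈ interior Q.Kp :=
    dhC Q h5 hΩ.isOpen hΩ.conn (Lim_dh hΩ hg) (fun y hy => (hK y hy).1)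
      (fun y hy => (hK y hy).2) hnc x hx
  exact hΩ.closure_inter (Lim_closure hΩ hF hg x hx) h1

/-- factorisation of the iterates along two sequences of exponents -/
theorem R53_factor {S : Sys} {k : ℕ} {Ω : Set E} (hΩ : S.IsComp Ω) {m l : ℕ → ℕ}
    (hl : Tendsto l atTop atTop) :
    ∃ (ι : ℕ → ℕ) (φ : ℕ → ℕ) (h : E → E), StrictMono φ ∧ Tendsto ι atTop atTop ∧
      h ∈ S.Lim k Ω ∧
      TendstoLocallyUniformlyOn (fun j => ⇑(S.F ^ (k * (l (ι (φ j)) - m (φ j))))) h atTop Ω ∧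
      (∀ j, m j ≤ l (ι j)) ∧ Tendsto (fun j => l (ι j) - m j) atTop atTop := by
  have h1 : ∀ j, ∃ i, j ≤ i ∧ m j + j ≤ l i := by
    intro j
    obtain ⟨i, hi1, hi2⟩ := ((hl.eventually (eventually_ge_atTop (m j + j))).and
      (eventually_ge_atTop j)).exists
    exact ⟨i, hi2, hi1⟩
  choose ι h2 h3 using h1
  have h4 : Tendsto (fun j => l (ι j) - m j) atTop atTop :=
    tendsto_atTop_mono (fun j => by
      have h5 := h3 j
      show j ≤ l (ι j) - m j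
      omega) tendsto_id
  obtain ⟨φ, hφ, h, hh, hlim⟩ := Lim_sub S k hΩ h4
  refine ⟨ι, φ, h, hφ, tendsto_atTop_mono h2 tendsto_id, hh, hlim, fun j => ?_, h4⟩
  have := h3 j
  omega

theorem R53_pow_split (F : Equiv.Perm E) {k a b : ℕ} (hab : a ≤ b) (x : E) :
    (F ^ (k * b)) x = (F ^ (k * (b - a))) ((F ^ (k * a)) x) := by
  rw [← Equiv.Perm.mul_apply, ← pow_add, ← mul_add, Nat.sub_add_cancel hab]

theorem R53_pow_split' (F : Equiv.Perm E) {k a b : ℕ} (hab : a ≤ b) (x : E) :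
    (F ^ (k * b)) x = (F ^ (k * a)) ((F ^ (k * (b - a))) x) := by
  rw [← Equiv.Perm.mul_apply, ← pow_add, ← mul_add, Nat.add_sub_cancel' hab]

theorem R53_iter (F : Equiv.Perm E) (k n : ℕ) (x : E) :
    (⇑(F ^ k))^[n] x = (F ^ (k * n)) x := by
  induction n with
  | zero => simp
  | succ n ih =>
    rw [Function.iterate_succ_apply', ih, ← Equiv.Perm.mul_apply, ← pow_add, mul_add, mul_one,
      add_comm]

theorem retr (Q : QS) (h5 : Q.H5) {k : ℕ} (hk : 0 < k) {Ω : Set E} (hΩ : Q.IsComp Ω)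
    (hF : (⇑(Q.F ^ k)) '' Ω = Ω)
    (hns : ¬ ∃ g ∈ Q.Lim k Ω, ∃ c ∈ interior Q.Kp, ∀ x ∈ Ω, g x = c) :
    (∀ g ∈ Q.Lim k Ω, MapsTo g Ω Ω ∧ ∃ x ∈ Ω, ∃ y ∈ Ω, g x ≠ g y) ∧
    ∃ ρ ∈ Q.Lim k Ω, ∀ g ∈ Q.Lim k Ω, ∀ x ∈ Ω, ρ (g x) = g x := by
  obtain ⟨x0, hx0⟩ := hΩ.nonempty
  -- a nonconstant limit
  obtain ⟨g1, hg1, hnc1⟩ : ∃ g1 ∈ Q.Lim k Ω, ∃ x ∈ Ω, ∃ y ∈ Ω, g1 x ≠ g1 y := by
    by_contra hcon
    push Not at hcon
    refine not_all_bad Q h5 hk hΩ hF fun g hg => ⟨g x0, fun hint => ?_, fun x hx => ?_⟩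
    · exact hns ⟨g, hg, g x0, hint, fun x hx => hcon g hg x hx x0 hx0⟩
    · exact hcon g hg x hx x0 hx0
  have hmaps1 : MapsTo g1 Ω Ω := R53_maps Q h5 hk hΩ hF hg1 hnc1
  obtain ⟨m, hm, hmlim⟩ := id hg1
  have hcont : ∀ g ∈ Q.Lim k Ω, ContinuousOn g Ω := fun g hg => (Lim_dh hΩ hg).1
  -- the retraction
  obtain ⟨ι, φ, ρ, hφ, hι, hρ, hρlim, hle, hdiff⟩ := R53_factor (k := k) hΩ (m := m) hm
  have hρg1 : ∀ x ∈ Ω, ρ (g1 x) = g1 x := by
    intro x hx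
    have h1 : Tendsto (fun j => (Q.F ^ (k * m (φ j))) x) atTop (𝓝 (g1 x)) :=
      (hmlim.tendsto_at hx).comp hφ.tendsto_atTop
    have h2 := R53_comp hΩ.isOpen hρlim (hcont ρ hρ) (hmaps1 hx) h1
    have h3 : Tendsto (fun j => (Q.F ^ (k * m (ι (φ j)))) x) atTop (𝓝 (g1 x)) :=
      (hmlim.tendsto_at hx).comp (hι.comp hφ.tendsto_atTop)
    refine tendsto_nhds_unique (h2.congr fun j => ?_) h3
    exact (R53_pow_split Q.F (hle (φ j)) x).symm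
  -- the orbit of `s`
  have hs : g1 x0 ∈ Ω := hmaps1 hx0
  have hmapsF : MapsTo (⇑(Q.F ^ k)) Ω Ω := by
    intro x hx
    rw [← hF]
    exact mem_image_of_mem _ hx
  obtain ⟨K, hK, hKΩ, horb⟩ := recur (T := ⇑(Q.F ^ k)) (Q.diff_pow k).continuous hΩ.isOpen hmapsF
    (by
      intro x hx
      obtain ⟨R, hR⟩ := Q.fwd_bdd (Q.M x)
      refine (isBounded_iff_forall_norm_le.2 ⟨R, ?_⟩)
      rintro _ ⟨n, rfl⟩
      simp only
      rw [R53_iter]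
      have hxP : x ∈ Q.Kp := interior_subset (hΩ.sub hx)
      exact hR x hxP le_rfl _)
    (by
      intro x hx
      obtain ⟨r, hr, hball, C, _, hC⟩ := equi_Kp Q.toSys (hΩ.sub hx)
      refine ⟨r, hr, hΩ.of_conn (convex_ball x r).isPreconnected hball (mem_ball_self hr) hx,
        C, fun n y hy z hz => ?_⟩
      rw [R53_iter, R53_iter]
      exact hC _ y hy z hz)
    hs (e := fun j => m (ι (φ j)) - m (φ j)) (hdiff.comp hφ.tendsto_atTop)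
    (by
      have h1 := hρlim.tendsto_at hs
      rw [hρg1 x0 hx0] at h1
      refine h1.congr fun j => ?_
      rw [R53_iter])
  have hgs : ∀ g ∈ Q.Lim k Ω, g (g1 x0) ∈ Ω := by
    rintro g ⟨l, _, hllim⟩
    refine hKΩ (hK.isClosed.mem_of_tendsto (hllim.tendsto_at hs) (Eventually.of_forall fun j => ?_))
    have := horb (l j)
    rwa [R53_iter] at this
  have hall : ∀ g ∈ Q.Lim k Ω, MapsTo g Ω Ω ∧ ∃ x ∈ Ω, ∃ y ∈ Ω, g x ≠ g y := by
    intro g hg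
    have hnc : ∃ x ∈ Ω, ∃ y ∈ Ω, g x ≠ g y := by
      by_contra hcon
      push Not at hcon
      exact hns ⟨g, hg, g (g1 x0), hΩ.sub (hgs g hg), fun x hx => hcon x hx _ hs⟩
    exact ⟨R53_maps Q h5 hk hΩ hF hg hnc, hnc⟩
  refine ⟨hall, ρ, hρ, fun g hg x hx => ?_⟩
  obtain ⟨l, hl, hllim⟩ := id hg
  obtain ⟨ι', φ', h, hφ', hι', hh, hhlim, hle', _⟩ := R53_factor (k := k) hΩ (m := m) hl
  have hhx : h x ∈ Ω := (hall h hh).1 hx
  have h1 : Tendsto (fun j => (Q.F ^ (k * m (φ' j))) ((Q.F ^ (k * (l (ι' (φ' j)) - m (φ' j)))) x))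
      atTop (𝓝 (g1 (h x))) :=
    R53_comp hΩ.isOpen (R53_sub hmlim hφ'.tendsto_atTop) (hcont g1 hg1) hhx (hhlim.tendsto_at hx)
  have h2 : Tendsto (fun j => (Q.F ^ (k * l (ι' (φ' j)))) x) atTop (𝓝 (g x)) :=
    (hllim.tendsto_at hx).comp (hι'.comp hφ'.tendsto_atTop)
  have h3 : g x = g1 (h x) := by
    refine tendsto_nhds_unique h2 (h1.congr fun j => ?_)
    exact (R53_pow_split' Q.F (hle' (φ' j)) x).symm
  rw [h3]
  exact hρg1 (h x) hhx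

end Pool.Agent.HQ
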