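import Pool.Agent.HQ.Defs
import Pool.Agent.HQ.Bas
import Pool.Agent.HQ.Cmp
import Pool.Agent.HQ.Lm50
import Pool.Agent.HQ.S51
import Pool.Agent.HQ.R53

/-!
# HQ module RA53: retraction, all cases
-/

set_option autoImplicit false

open Filter Topology Set Metric

namespace Pool.Agent.HQ

theorem retr_any (Q : QS) (h5 : Q.H5) {k : ℕ} (hk : 0 < k) {Ω : Set E} (hΩ : Q.IsComp Ω)
    (hF : (⇑(Q.F ^ k)) '' Ω = Ω) :
    ∃ ρ : E → E, DH Ω ρ ∧ (∀ x ∈ Ω, Q.P (ρ x) = 0 ∧ Q.M (ρ x) = 0) ∧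
      ∀ g ∈ Q.Lim k Ω, ∀ x ∈ Ω, ρ (g x) = g x := by
  by_cases hns : ∃ g ∈ Q.Lim k Ω, ∃ c ∈ interior Q.Kp, ∀ x ∈ Ω, g x = c
  · obtain ⟨g, hg, c, hc, hgc⟩ := hns
    obtain ⟨hcΩ, -, -, ht⟩ := sink_of_const Q.toSys hk hΩ hF hg hgc hc
    refine ⟨fun _ => c, ⟨continuousOn_const, fun γ D _ _ _ => differentiableOn_const c⟩, ?_, ?_⟩
    · intro x hx
      have h := Lim_K hk hΩ hg x hx
      rw [hgc x hx] at h
      exact h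
    · intro g' hg' x hx
      obtain ⟨m, hm, hl⟩ := hg'
      have h1 : Tendsto (fun j => (Q.F ^ (k * m j)) x) atTop (𝓝 (g' x)) := hl.tendsto_at hx
      have h2 : Tendsto (fun j => (Q.F ^ (k * m j)) x) atTop (𝓝 c) := (ht x hx).comp hm
      exact tendsto_nhds_unique h2 h1
  · obtain ⟨-, ρ, hρ, hr⟩ := retr Q h5 hk hΩ hF hns
    exact ⟨ρ, Lim_dh hΩ hρ, Lim_K hk hΩ hρ, hr⟩

end Pool.Agent.HQ
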