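import Pool.Agent.HQ.Defs
import Pool.Agent.HQ.Bas
import Pool.Agent.HQ.Cmp
import Pool.Agent.HQ.Acc60
import Pool.Agent.HQ.DmA
import Pool.Agent.HQ.RA53
import Pool.Agent.HQ.DHb
import Pool.Agent.HQ.Surj

/-!
# HQ module DmB: unstable manifolds are dense in K-
-/

set_option autoImplicit false

open Filter Topology Set Metric

namespace Pool.Agent.HQ

theorem Dminus (Q : QS) (h5 : Q.H5) (hV : interior Q.Km = ∅) :
    Q.Km ⊆ closure (⋃ p ∈ Sad Q.F, Wu Q.F p) := by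
  intro x hx
  by_contra hcon
  rw [Metric.mem_closure_iff] at hcon
  push Not at hcon
  obtain ⟨r, hr, hball⟩ := hcon
  have hdis : ∀ y ∈ ball x r, ∀ p ∈ Sad Q.F, y ∉ Wu Q.F p := by
    intro y hy p hp hyp
    have h1 := hball y (mem_biUnion hp hyp)
    rw [mem_ball, dist_comm] at hy
    linarith
  -- a point with positive value
  have ha0 : ∃ a0 ∈ ball x r, 0 < Q.M a0 := by
    by_contra h
    push Not at h
    have h1 : ball x r ⊆ Q.Km := fun y hy => le_antisymm (h y hy) (Q.M0 y)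
    have h2 : x ∈ interior Q.Km := interior_maximal h1 isOpen_ball (mem_ball_self hr)
    rw [hV] at h2
    exact h2
  obtain ⟨a0, ha0, ha0p⟩ := ha0
  have hMx : Q.M x = 0 := hx
  set v : E := a0 - x with hv
  have hv0 : v ≠ 0 := by
    intro h
    rw [hv, sub_eq_zero] at h
    rw [h, hMx] at ha0p
    exact lt_irrefl _ ha0p
  set T : ℂ → E := fun t : ℂ => x + t • v with hT
  have hTd : Differentiable ℂ T := DHb_line x v
  obtain ⟨hDo, hDc⟩ := DHb_pre x v x r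
  set D : Set ℂ := (fun t : ℂ => x + t • v) ⁻¹' ball x r with hD
  have h0D : (0 : ℂ) ∈ D := by
    show x + (0 : ℂ) • v ∈ ball x r
    rw [zero_smul, add_zero]
    exact mem_ball_self hr
  have h1D : (1 : ℂ) ∈ D := by
    show x + (1 : ℂ) • v ∈ ball x r
    rw [one_smul, hv, add_sub_cancel]
    exact ha0
  obtain ⟨a, b, hab⟩ := exists_acc' (g := Q.M) Q.cM Q.M0 (T := T) hTd.continuous hDo hDc
    ⟨0, h0D, by show Q.M (x + (0 : ℂ) • v) = 0; rw [zero_smul, add_zero]; exact hMx⟩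
    ⟨1, h1D, by show 0 < Q.M (x + (1 : ℂ) • v); rw [one_smul, hv, add_sub_cancel]; exact ha0p⟩
  have hW : ∀ t ∈ D, ∀ p ∈ Sad Q.F, x + t • v ∉ Wu Q.F p := fun t ht p hp => hdis _ ht p hp
  obtain ⟨Ω, hΩ, hbΩ, ⟨k, hk, hkΩ⟩, hlim⟩ := dm_a Q h5 hv0 hDo hW hab
  obtain ⟨ρ, hρ, hρK, hρg⟩ := retr_any Q h5 hk hΩ hkΩ
  -- all accessible zeros near b
  have hz : ∀ a' b' : ℂ, Acc Q.M T D a' b' → T b' ∈ Ω → ρ (T b') = T b' := by
    intro a' b' hab' hb'
    obtain ⟨Ω', hΩ', hb'Ω', -, hlim'⟩ := dm_a Q h5 hv0 hDo hW hab'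
    have he : Ω' = Ω := hΩ'.eq_of_mem hΩ hb'Ω' hb'
    rw [he] at hlim'
    obtain ⟨g, hg, y, hy, hgy⟩ := hlim' k hk hkΩ
    have h1 := hρg g hg y hy
    rw [hgy] at h1
    exact h1
  have hnb : T ⁻¹' Ω ∈ 𝓝 b := (hTd.continuous.isOpen_preimage _ hΩ.isOpen).mem_nhds hbΩ
  obtain ⟨ε, hε, hεΩ⟩ := Metric.mem_nhds_iff.1 hnb
  have hdiff : DifferentiableOn ℂ (fun t => ρ (T t) - T t) (ball b ε) :=
    (hρ.2 T (ball b ε) isOpen_ball hTd.differentiableOn fun t ht => hεΩ ht).sub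
      hTd.differentiableOn
  have han : AnalyticAt ℂ (fun t => ρ (T t) - T t) b :=
    hdiff.analyticAt (ball_mem_nhds b hε)
  have hfr : ∃ᶠ t in 𝓝[≠] b, (fun t => ρ (T t) - T t) t = 0 := by
    rw [frequently_nhdsWithin_iff, Metric.nhds_basis_ball.frequently_iff]
    intro δ hδ
    obtain ⟨a', b', hab', hne, hd⟩ := acc_not_iso (g := Q.M) Q.cM Q.M0 Q.iM hTd hDo hab
      (min δ ε) (lt_min hδ hε)
    refine ⟨b', lt_of_lt_of_le hd (min_le_left _ _), ?_, hne⟩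
    have h1 : b' ∈ ball b ε := lt_of_lt_of_le hd (min_le_right _ _)
    show ρ (T b') - T b' = 0
    rw [hz a' b' hab' (hεΩ h1), sub_self]
  have hev := han.frequently_zero_iff_eventually_zero.1 hfr
  have hev2 : ∀ᶠ t in 𝓝 b, ¬ 0 < Q.M (T t) := by
    filter_upwards [hev, hnb] with t ht htΩ
    have h1 : ρ (T t) = T t := sub_eq_zero.1 ht
    have h2 := (hρK (T t) htΩ).2
    rw [h1] at h2
    rw [h2]
    exact lt_irrefl _
  exact hab.freq hev2

end Pool.Agent.HQ
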