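import Pool.Agent.HQ.Defs
import Pool.Agent.HQ.Bas
import Pool.Agent.HQ.Acc60
import Pool.Agent.HQ.Zm61
import Pool.Agent.HQ.Zc62

/-!
# HQ module Dp62: stable manifolds are dense in the frontier of K+
-/

set_option autoImplicit false

open Filter Topology Set Metric

namespace Pool.Agent.HQ

theorem Dplus (Q : QS) (h5 : Q.H5) :
    frontier Q.Kp ⊆ closure (⋃ q ∈ Sad Q.F, Ws Q.F q) := by
  intro x hx
  by_contra hcon
  -- a ball without points of stable manifolds
  obtain ⟨ρ, hρ, hdis⟩ : ∃ ρ > 0, ∀ y ∈ ball x ρ, ∀ q ∈ Sad Q.F, y ∉ Ws Q.F q := by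
    rw [Metric.mem_closure_iff] at hcon
    push Not at hcon
    obtain ⟨ρ, hρ, h⟩ := hcon
    refine ⟨ρ, hρ, fun y hy q hq hyq => ?_⟩
    have h1 := h y (mem_iUnion₂.2 ⟨q, hq, hyq⟩)
    rw [mem_ball, dist_comm] at hy
    linarith
  have hxK : Q.P x = 0 := by
    have h1 : x ∈ closure Q.Kp := frontier_subset_closure hx
    rw [Q.isClosed_Kp.closure_eq] at h1
    exact h1
  have hxI : x ∉ interior Q.Kp := hx.2
  obtain ⟨a0, ha0, hpa0⟩ : ∃ a0 ∈ ball x ρ, 0 < Q.P a0 := by
    by_contra hno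
    push Not at hno
    apply hxI
    rw [mem_interior_iff_mem_nhds]
    filter_upwards [ball_mem_nhds x hρ] with y hy
    exact le_antisymm (hno y hy) (Q.P0 y)
  have hv : a0 - x ≠ 0 := by
    intro h
    rw [sub_eq_zero.1 h, hxK] at hpa0
    exact lt_irrefl _ hpa0
  set v : E := a0 - x with hvdef
  have hTd : Differentiable ℂ (fun t : ℂ => x + t • v) :=
    (differentiable_const x).add (differentiable_id.smul_const v)
  set D : Set ℂ := (fun t : ℂ => x + t • v) ⁻¹' ball x ρ with hDdef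
  have hDo : IsOpen D := isOpen_ball.preimage hTd.continuous
  have hDc : IsPreconnected D := by
    apply Convex.isPreconnected
    intro s hs t ht α β hα hβ hαβ
    have hs' : x + s • v ∈ ball x ρ := hs
    have ht' : x + t • v ∈ ball x ρ := ht
    have h1 := (convex_ball x ρ) hs' ht' hα hβ hαβ
    have h2 : x + (α • s + β • t) • v = α • (x + s • v) + β • (x + t • v) := by
      have h3 : x = α • x + β • x := by rw [← add_smul, hαβ, one_smul]
      rw [add_smul, smul_add, smul_add, smul_assoc, smul_assoc]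
      nth_rewrite 1 [h3]
      abel
    show x + (α • s + β • t) • v ∈ ball x ρ
    rw [h2]
    exact h1
  have hT1 : x + (1 : ℂ) • v = a0 := by
    rw [one_smul, hvdef]
    abel
  have h0D : (0 : ℂ) ∈ D := by
    show x + (0 : ℂ) • v ∈ ball x ρ
    rw [zero_smul, add_zero]
    exact mem_ball_self hρ
  have h1D : (1 : ℂ) ∈ D := by
    show x + (1 : ℂ) • v ∈ ball x ρ
    rw [hT1]
    exact ha0
  obtain ⟨a, b, hab⟩ := exists_acc' Q.cP Q.P0 hTd.continuous hDo hDc
    ⟨0, h0D, by rw [zero_smul, add_zero]; exact hxK⟩ ⟨1, h1D, by rw [hT1]; exact hpa0⟩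
  obtain ⟨n, r, g, hn, hr, hr0, hrD, hg, hlim, hM, hg0, hgp⟩ := zoom Q.toSys hDo hab
  have hnot : g 0 ∉ closure (Sad Q.F) :=
    zoom_center Q hv hDo (fun t ht q hq => hdis _ ht q hq) ⟨1, by rw [hT1]; exact hpa0⟩
      hr hrD hg hlim hM hgp
  apply hnot
  have h00 : (0 : ℂ) ∈ ball (0 : ℂ) 1 := mem_ball_self one_pos
  refine h5 (g 0) hg0 (hM 0 h00) ?_
  -- `g 0` is not interior
  have hTb : x + b • v ∉ interior Q.Kp := by
    intro hint
    have h1 : ∀ᶠ t in 𝓝 b, x + t • v ∈ interior Q.Kp :=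
      hTd.continuous.continuousAt.eventually (isOpen_interior.mem_nhds hint)
    obtain ⟨t, ht1, ht2⟩ := (hab.freq.and_eventually h1).exists
    have ht3' : x + t • v ∈ Q.Kp := interior_subset ht2
    have ht3 : Q.P (x + t • v) = 0 := ht3'
    have ht4 : 0 < Q.P (x + t • v) := ht1
    linarith
  have hseq : Tendsto (fun k => (Q.F ^ n k) (x + b • v)) atTop (𝓝 (g 0)) := by
    have h1 := hlim.tendsto_at h00
    refine h1.congr fun k => ?_
    simp only [mul_zero, add_zero]
  have hcl : IsClosed (interior Q.Kp)ᶜ := isOpen_interior.isClosed_compl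
  have hmem : g 0 ∈ (interior Q.Kp)ᶜ := by
    refine hcl.mem_of_tendsto hseq (Eventually.of_forall fun k => ?_)
    intro hk
    apply hTb
    have h2 := (Q.mem_int_Kp (n k : ℤ) (x + b • v)).1
    rw [zpow_natCast] at h2
    exact h2 hk
  exact hmem

end Pool.Agent.HQ
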