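import Pool.Agent.HQ.Defs
import Pool.Agent.HQ.LEq

/-!
# HQ module Germ: germs of curves
-/

set_option autoImplicit false

open Filter Topology Set Metric

namespace Pool.Agent.HQ

theorem germ_acc {Γ g : ℂ → E} {s₀ z₀ : ℂ} {D D' : Set ℂ} (hD : IsOpen D) (hs : s₀ ∈ D)
    (hΓ : DifferentiableOn ℂ Γ D) (hnc : NC Γ s₀) (hD' : IsOpen D') (hz : z₀ ∈ D')
    (hg : DifferentiableOn ℂ g D') (h0 : g z₀ = Γ s₀)
    (h : ∀ ε > 0, ∃ᶠ z in 𝓝[≠] z₀, g z ∈ Γ '' ball s₀ ε) : Gm g z₀ Γ s₀ := by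
  intro ε₁ hε₁
  obtain ⟨ε₀, hε₀, -, hloc⟩ := local_eq hD hs hΓ hnc
  have hε : 0 < min ε₁ ε₀ := lt_min hε₁ hε₀
  obtain ⟨δ, hδ, H, hH⟩ := hloc (min ε₁ ε₀) hε (min_le_right _ _)
  have hL := hH δ hδ le_rfl
  have hcont : ContinuousOn g D' := hg.continuousOn
  have hopen : IsOpen (D' ∩ g ⁻¹' ball (Γ s₀) δ) := hcont.isOpen_inter_preimage hD' isOpen_ball
  have hmem : z₀ ∈ D' ∩ g ⁻¹' ball (Γ s₀) δ := by
    refine ⟨hz, ?_⟩
    rw [Set.mem_preimage, h0]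
    exact mem_ball_self hδ
  have hdiff : DifferentiableOn ℂ (fun z => H (g z)) (D' ∩ g ⁻¹' ball (Γ s₀) δ) :=
    hL.dh.2 g _ hopen (hg.mono inter_subset_left) fun z hz => hz.2
  have han : AnalyticAt ℂ (fun z => H (g z)) z₀ := hdiff.analyticAt (hopen.mem_nhds hmem)
  have hev : ∀ᶠ z in 𝓝 z₀, z ∈ D' ∩ g ⁻¹' ball (Γ s₀) δ := hopen.mem_nhds hmem
  have hfr : ∃ᶠ z in 𝓝[≠] z₀, H (g z) = 0 := by
    have h1 := (h _ hε).and_eventually (hev.filter_mono nhdsWithin_le_nhds)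
    exact h1.mono fun z hz => (hL.zero (g z) hz.2.2).2 hz.1
  have hzero : ∀ᶠ z in 𝓝 z₀, H (g z) = 0 := by
    rcases han.eventually_eq_zero_or_eventually_ne_zero with h1 | h1
    · exact h1
    · exact absurd h1 hfr
  obtain ⟨r, hr, hball⟩ := Metric.eventually_nhds_iff_ball.1 (hzero.and hev)
  refine ⟨r, hr, fun z hz => ?_⟩
  obtain ⟨h1, h2⟩ := hball z hz
  have h3 := (hL.zero (g z) h2.2).1 h1
  exact image_mono (ball_subset_ball (min_le_left _ _)) h3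

theorem germ_symm {Γ g : ℂ → E} {s₀ z₀ : ℂ} {D D' : Set ℂ} (hD : IsOpen D) (hs : s₀ ∈ D)
    (hΓ : DifferentiableOn ℂ Γ D) (hnc : NC Γ s₀) (hD' : IsOpen D') (hz : z₀ ∈ D')
    (hg : DifferentiableOn ℂ g D') (hncg : NC g z₀) (h0 : g z₀ = Γ s₀)
    (h : Gm g z₀ Γ s₀) : Gm Γ s₀ g z₀ := by
  refine germ_acc hD' hz hg hncg hD hs hΓ h0.symm ?_
  intro ε hε
  rw [frequently_nhdsWithin_iff, Metric.nhds_basis_ball.frequently_iff]
  intro δ hδ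
  obtain ⟨r, hr, hball⟩ := h δ hδ
  obtain ⟨z, hz1, hz2⟩ := (Metric.nhds_basis_ball.frequently_iff.1 hncg) _ (lt_min hr hε)
  obtain ⟨s, hs1, hs2⟩ := hball z (ball_subset_ball (min_le_left _ _) hz1)
  refine ⟨s, hs1, ⟨z, ball_subset_ball (min_le_right _ _) hz1, hs2.symm⟩, ?_⟩
  rintro rfl
  exact hz2 (by rw [← hs2, h0])

end Pool.Agent.HQ
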