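import Pool.Agent.HQ.Defs
import Pool.Agent.HQ.Bas
import Pool.Agent.HQ.IP
import Pool.Agent.HQ.Germ
import Pool.Agent.HQ.UBas
import Pool.Agent.HQ.StayA
import Pool.Agent.HQ.Fr23
import Pool.Agent.HQ.Surj

/-!
# HQ module N83: the tangent disc is not flat
-/

set_option autoImplicit false

open Filter Topology Set Metric

namespace Pool.Agent.HQ

theorem N83_pt {r ρ : ℝ} (hr : 0 < r) (hρ : 0 < ρ) :
    ∃ t : ℂ, t ∈ ball (0 : ℂ) r ∧ t ∈ ball (ρ : ℂ) ρ := by
  have h1 : 0 < min (r / 2) ρ := lt_min (half_pos hr) hρ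
  have h2 : min (r / 2) ρ ≤ r / 2 := min_le_left _ _
  have h3 : min (r / 2) ρ ≤ ρ := min_le_right _ _
  refine ⟨((min (r / 2) ρ : ℝ) : ℂ), ?_, ?_⟩
  · rw [mem_ball, dist_zero_right, Complex.norm_real, Real.norm_eq_abs, abs_of_pos h1]
    linarith
  · rw [mem_ball, dist_eq_norm, ← Complex.ofReal_sub, Complex.norm_real, Real.norm_eq_abs,
      abs_lt]
    constructor <;> linarith

theorem N83_line (b v : E) : Differentiable ℂ (fun t : ℂ => b + t • v) := by
  intro t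
  exact ((differentiableAt_id).smul_const v).const_add b

section
variable (Q : QS) {σ : ℂ → E} (hσ : σ ∈ Q.Us) {v₀ : ℂ} {b v : E} (hb : σ v₀ = b) {ρ : ℝ}
  (hρ : 0 < ρ) (hint : ∀ t ∈ ball (ρ : ℂ) ρ, b + t • v ∈ interior Q.Kp)
include hσ hb hρ hint

theorem tan_ne : v ≠ 0 := by
  rintro rfl
  have h1 := hint (ρ : ℂ) (mem_ball_self hρ)
  rw [smul_zero, add_zero, ← hb] at h1
  exact Us_not_int Q hσ v₀ h1

theorem not_germ : ¬ Gm (fun t : ℂ => b + t • v) 0 σ v₀ := by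
  intro h
  obtain ⟨r, hr, hr1⟩ := h 1 one_pos
  obtain ⟨t, ht, ht1⟩ := N83_pt hr hρ
  obtain ⟨w, -, hw⟩ := hr1 t ht
  have h1 := hint t ht1
  have h2 : σ w = b + t • v := hw
  rw [← h2] at h1
  exact Us_not_int Q hσ w h1

theorem not_germ' : ¬ Gm σ v₀ (fun t : ℂ => b + t • v) 0 := by
  intro h
  have hv := tan_ne Q hσ hb hρ hint
  have hσ' : σ ∈ Q.dual.U := by rw [Q.dual_U]; exact hσ
  have hncl : NC (fun t : ℂ => b + t • v) 0 := by
    refine nc_of_entire (N83_line b v) ⟨0, 1, ?_⟩ 0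
    intro h1
    have h2 : b + (0 : ℂ) • v = b + (1 : ℂ) • v := h1
    rw [zero_smul, one_smul, add_zero] at h2
    exact hv (left_eq_add.1 h2)
  have hncσ : NC σ v₀ := nc_of_entire (U_diff Q.dual hσ') (U_ne Q.dual hσ') v₀
  refine not_germ Q hσ hb hρ hint ?_
  refine germ_symm isOpen_univ (mem_univ _) (N83_line b v).differentiableOn hncl isOpen_univ
    (mem_univ _) (U_diff Q.dual hσ').differentiableOn hncσ ?_ h
  rw [hb, zero_smul, add_zero]

theorem not_flat {r : ℝ} (hr : 0 < r) :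
    ∃ t ∈ ball (0 : ℂ) r, 0 < Q.P (b + t • v) := by
  by_contra hcon
  push Not at hcon
  have hP : ∀ t ∈ ball (0 : ℂ) r, Q.P (b + t • v) = 0 := fun t ht =>
    le_antisymm (hcon t ht) (Q.P0 _)
  have hv := tan_ne Q hσ hb hρ hint
  have hncl : NC (fun t : ℂ => b + t • v) 0 := by
    refine nc_of_entire (N83_line b v) ⟨0, 1, ?_⟩ 0
    intro h1
    have h2 : b + (0 : ℂ) • v = b + (1 : ℂ) • v := h1
    rw [zero_smul, one_smul, add_zero] at h2
    exact hv (left_eq_add.1 h2)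
  obtain ⟨q, hq, hlim⟩ := hσ
  have hh0 : σ v₀ = (fun t : ℂ => b + t • v) 0 := by
    change σ v₀ = b + (0 : ℂ) • v
    rw [hb, zero_smul, add_zero]
  have hip := ip (Γ := fun t : ℂ => b + t • v) (g := σ) (gs := fun n => Q.Xs (q n)) (s₀ := 0)
    (z₀ := v₀) isOpen_univ (mem_univ _) (N83_line b v).differentiableOn hncl isOpen_univ
    (mem_univ _) (fun n => (Q.hs (q n) (hq n)).diff.differentiableOn)
    (tendstoLocallyUniformlyOn_univ.2 hlim) hh0
  rcases hip with ha | hb'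
  · exact not_germ' Q ⟨q, hq, hlim⟩ hb hρ hint ha
  · obtain ⟨i, hi⟩ := (hb' r hr).exists
    obtain ⟨z, -, s, hs, hzs⟩ := hi
    have h1 : b + s • v ∈ Ws Q.F (q i) := by
      have h2 : Q.Xs (q i) z ∈ Wu Q.F⁻¹ (q i) := by
        rw [← (Q.hs (q i) (hq i)).range]
        exact mem_range_self z
      unfold Wu at h2
      rw [inv_inv, hzs] at h2
      exact h2
    obtain ⟨t, ht, ht1⟩ := N83_pt hr hρ
    have h3 := stay_s Q.toSys isOpen_ball (convex_ball (0 : ℂ) r).isPreconnected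
      (Γ := fun t : ℂ => b + t • v) (N83_line b v).differentiableOn hP (hq i) hs h1 t ht
    exact Ws_not_int Q (hq i) h3 (hint t ht1)

end

end Pool.Agent.HQ
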