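import Pool.Agent.HQ.Defs
import Pool.Agent.HQ.Bas
import Pool.Agent.HQ.UBas
import Pool.Agent.HQ.GrF
import Pool.Agent.HQ.R211
import Pool.Agent.HQ.MinRoot
import Pool.Agent.HQ.Fr23

/-!
# HQ module O82a: thick points on stable manifolds
-/

set_option autoImplicit false

open Filter Topology Set Metric

namespace Pool.Agent.HQ

theorem thick_s (Q : QS) (h5 : Q.H5) {κ Λ : ℝ} (hg : Gr Q.dual κ Λ) {N : ℕ}
    (hN : Λ ≤ κ ^ N) {q : E} (hq : q ∈ Sad Q.F) {w : ℂ} (hw : 0 < Q.M (Q.Xs q w)) :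
    ∃ n : ℤ, ∃ σ ∈ Q.Us, ∃ v : ℂ, 1 / Λ ≤ ‖v‖ ∧ ‖v‖ ≤ 1 ∧
      (Q.F ^ n) (Q.Xs q w) = σ v ∧ ∀ v', ‖v' - v‖ < (1 / 3) ^ N * ‖v‖ → 0 < Q.M (σ v') := by
  have hX : UPar Q.F⁻¹ Q.M q (Q.Xs q) := Q.hs q hq
  have hcont : Continuous fun z => Q.M (Q.Xs q z) := Q.cM.comp hX.diff.continuous
  set Z : Set ℂ := {z | Q.M (Q.Xs q z) = 0} with hZ
  have hZc : IsClosed Z := isClosed_eq hcont continuous_const
  have hZ0 : (0 : ℂ) ∈ Z := by
    change Q.M (Q.Xs q 0) = 0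
    rw [hX.zero]
    exact Q.Sad_M hq
  obtain ⟨w', hw'Z, hw'⟩ := hZc.exists_infDist_eq_dist ⟨0, hZ0⟩ w
  have hM' : Q.M (Q.Xs q w') = 0 := hw'Z
  have hpos : ∀ z : ℂ, dist z w < dist w' w → 0 < Q.M (Q.Xs q z) := by
    intro z hz
    refine lt_of_le_of_ne (Q.M0 _) fun h0 => ?_
    have hzZ : z ∈ Z := h0.symm
    have h1 : infDist w Z ≤ dist w z := infDist_le_dist_of_mem hzZ
    rw [hw', dist_comm w w', dist_comm w z] at h1
    exact absurd hz (not_lt.2 h1)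
  have hne : w' ≠ w := by
    intro h
    rw [h] at hM'
    exact hw.ne' hM'
  have hrange : Set.range (Q.Xs q) = Ws Q.F q := by
    have h := hX.range
    unfold Wu at h
    rwa [inv_inv] at h
  have hx'W : Q.Xs q w' ∈ Ws Q.F q := by
    rw [← hrange]
    exact mem_range_self w'
  have hcl : Q.Xs q w' ∈ closure (Sad Q.F) :=
    h5 _ (Q.Ws_P hq hx'W) hM' (Ws_not_int Q hq hx'W)
  have hcl' : Q.Xs q w' ∈ closure (Sad Q.dual.F) := by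
    rw [Q.dual_Sad]
    exact hcl
  obtain ⟨p, hp, ξ, hξ, hξ0, hlim⟩ := U_center Q.dual hcl'
  have hq' : q ∈ Sad Q.dual.F := by
    rw [Q.dual_Sad]
    exact hq
  have h0 : ξ 0 ∈ Wu Q.dual.F q := by
    rw [hξ0, QS.dual_F]
    have h := hX.range
    rw [← h]
    exact mem_range_self w'
  obtain ⟨τ, hτ0, hτN, hτ⟩ := Rpoly Q.dual hg hN hq' hξ h0
  have hτ' : ∀ z, ξ z = Q.Xs q (τ.eval z) := hτ
  have hτw : τ.eval 0 = w' := by
    apply hX.inj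
    rw [← hτ' 0, hξ0]
  obtain ⟨u, hu0, hu1, -, hu2⟩ := min_root hτN hτ0 (z₁ := w) (by rw [hτw]; exact hne)
  obtain ⟨n, η, hη, a, ha, hηa, hle1, hle2, -⟩ := hg.scale hξ hu0
  have hηa' : ∀ z, (Q.F ^ (-n)) (ξ z) = η (a * z) := by
    intro z
    have h := hηa z
    rw [QS.dual_F, inv_zpow'] at h
    exact h
  refine ⟨-n, η, ?_, a * u, hle1, hle2, ?_, ?_⟩
  · rw [← Q.dual_U]
    exact hη
  · rw [← hηa' u, hτ' u, hu1]
  · intro v' hv'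
    have hz : η v' = (Q.F ^ (-n)) (ξ (a⁻¹ * v')) := by
      rw [hηa', mul_inv_cancel_left₀ ha]
    have hnorm : ‖a⁻¹ * v' - u‖ < (1 / 3) ^ N * ‖u‖ := by
      have h1 : a⁻¹ * v' - u = a⁻¹ * (v' - a * u) := by
        rw [mul_sub, inv_mul_cancel_left₀ ha]
      have ha' : 0 < ‖a‖ := norm_pos_iff.2 ha
      rw [h1, norm_mul, norm_inv, inv_mul_lt_iff₀ ha']
      rw [norm_mul] at hv'
      calc ‖v' - a * u‖ < (1 / 3) ^ N * (‖a‖ * ‖u‖) := hv'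
        _ = ‖a‖ * ((1 / 3) ^ N * ‖u‖) := by ring
    have h2 := hu2 _ hnorm
    rw [hτw] at h2
    have h3 : 0 < Q.M (ξ (a⁻¹ * v')) := by
      rw [hτ']
      apply hpos
      rw [dist_eq_norm, dist_eq_norm]
      exact h2
    rw [hz, Q.M_zpow]
    exact mul_pos (zpow_pos Q.d_pos _) h3

end Pool.Agent.HQ
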