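import Pool.Agent.HQ.Defs
import Pool.Agent.HQ.Bas
import Pool.Agent.HQ.UBas
import Pool.Agent.HQ.GrF
import Pool.Agent.HQ.Gro
import Pool.Agent.HQ.Dp62
import Pool.Agent.HQ.O82a
import Pool.Agent.HQ.C27
import Pool.Agent.HQ.Fr23
import Pool.Agent.HQ.Surj

/-!
# HQ module O82: every boundary point of K+ lies on a stable limit curve
-/

set_option autoImplicit false

open Filter Topology Set Metric

namespace Pool.Agent.HQ

/-- the case where the point is not in the zero set of `M` -/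
theorem O82_pos (Q : QS) (h5 : Q.H5) {b : E} (hb : Q.P b = 0) (hbi : b ∉ interior Q.Kp)
    (hMb : 0 < Q.M b) : ∃ σ ∈ Q.Us, ∃ v₀ : ℂ, σ v₀ = b := by
  have hd0 : 0 < Q.d := Q.toSys.d_pos
  have hd1 : 1 < Q.d := Q.hd
  -- a sequence of points of stable manifolds
  have hbf : b ∈ frontier Q.Kp := ⟨subset_closure hb, hbi⟩
  obtain ⟨y, hy, hyb⟩ := mem_closure_iff_seq_limit.1 (Dplus Q h5 hbf)
  have hy1 : ∀ i, ∃ q ∈ Sad Q.F, ∃ w : ℂ, y i = Q.Xs q w := by
    intro i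
    have h1 := hy i
    rw [mem_iUnion₂] at h1
    obtain ⟨q, hq, hyq⟩ := h1
    refine ⟨q, hq, ?_⟩
    have h2 := (Q.hs q hq).range
    have h3 : y i ∈ Wu Q.F⁻¹ q := by
      unfold Wu
      rw [inv_inv]
      exact hyq
    rw [← h2] at h3
    obtain ⟨w, hw⟩ := h3
    exact ⟨w, hw.symm⟩
  have hMy : Tendsto (fun i => Q.M (y i)) atTop (𝓝 (Q.M b)) := (Q.cM.tendsto b).comp hyb
  have hMy1 : ∀ᶠ i in atTop, Q.M b / 2 < Q.M (y i) :=
    hMy.eventually (lt_mem_nhds (by linarith))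
  obtain ⟨i0, hi0⟩ := eventually_atTop.1 hMy1
  -- shift
  set x : ℕ → E := fun i => y (i + i0) with hx
  have hxb : Tendsto x atTop (𝓝 b) := hyb.comp (tendsto_add_atTop_nat i0)
  have hMx : ∀ i, Q.M b / 2 < Q.M (x i) := fun i => hi0 _ (Nat.le_add_left _ _)
  obtain ⟨κ, Λ, hg⟩ := growth Q.dual
  obtain ⟨N, hN⟩ := pow_unbounded_of_one_lt Λ hg.one_lt
  have hΛ : 0 < Λ := by linarith [hg.one_lt, hg.le]
  have hth : ∀ i, ∃ n : ℤ, ∃ σ ∈ Q.Us, ∃ v : ℂ, 1 / Λ ≤ ‖v‖ ∧ ‖v‖ ≤ 1 ∧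
      (Q.F ^ n) (x i) = σ v ∧ ∀ v', ‖v' - v‖ < (1 / 3) ^ N * ‖v‖ → 0 < Q.M (σ v') := by
    intro i
    obtain ⟨q, hq, w, hw⟩ := hy1 (i + i0)
    have hMw : 0 < Q.M (Q.Xs q w) := by
      rw [← hw]
      exact lt_trans (by linarith) (hMx i)
    have h1 := thick_s Q h5 hg hN.le hq hMw
    rw [← hw] at h1
    exact h1
  choose n σ hσ v hv1 hv2 hFv hpos using hth
  have hσ' : ∀ i, σ i ∈ Q.dual.U := fun i => by rw [QS.dual_U]; exact hσ i
  obtain ⟨φ, hφ, τ, hτ, hlim⟩ := U_seq Q.dual hσ'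
  -- convergence of the parameters
  have hvc : ∀ i, v (φ i) ∈ closedBall (0 : ℂ) 1 := fun i => by
    rw [mem_closedBall_zero_iff]
    exact hv2 _
  obtain ⟨v0, -, ψ, hψ, hvlim⟩ := (isCompact_closedBall (0 : ℂ) 1).tendsto_subseq hvc
  set θ : ℕ → ℕ := fun i => φ (ψ i) with hθ
  have hθm : Tendsto θ atTop atTop := hφ.tendsto_atTop.comp hψ.tendsto_atTop
  have hlim2 : TendstoLocallyUniformly (fun i => σ (θ i)) τ atTop := by
    intro u hu z
    obtain ⟨t, ht, he⟩ := hlim u hu z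
    exact ⟨t, ht, hψ.tendsto_atTop.eventually he⟩
  have hvlim2 : Tendsto (fun i => v (θ i)) atTop (𝓝 v0) := hvlim
  have hτd : Differentiable ℂ τ := U_diff Q.dual hτ
  have hτc : Continuous τ := hτd.continuous
  have hτs : τ ∈ Q.Us := by rw [← QS.dual_U]; exact hτ
  have hσv : Tendsto (fun i => σ (θ i) (v (θ i))) atTop (𝓝 (τ v0)) :=
    hlim2.tendsto_comp hτc.continuousAt hvlim2
  have hxθ : Tendsto (fun i => x (θ i)) atTop (𝓝 b) := hxb.comp hθm
  -- values of `M`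
  have hMval : ∀ i, Q.M (σ i (v i)) = Q.d ^ (-(n i)) * Q.M (x i) := by
    intro i
    rw [← hFv i, Q.toSys.M_zpow]
  have hMle : ∀ i, Q.M (σ i (v i)) ≤ 1 := fun i => U_le_one Q.dual (hσ' i) (hv2 i)
  -- lower bound for `n i`
  obtain ⟨K, hK⟩ : ∃ K : ℕ, 2 / Q.M b < Q.d ^ K := pow_unbounded_of_one_lt _ hd1
  have hnl : ∀ i, -(K : ℤ) ≤ n i := by
    intro i
    by_contra hlt
    have hlt' : (K : ℤ) ≤ -(n i) := by omega
    have h1 : Q.d ^ K ≤ Q.d ^ (-(n i)) := by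
      rw [← zpow_natCast]
      exact zpow_le_zpow_right₀ hd1.le hlt'
    have h2 := hMle i
    rw [hMval i] at h2
    have h3 := hMx i
    have h4 : 2 / Q.M b * (Q.M b / 2) = 1 := by
      field_simp
    have h5' : 2 / Q.M b * (Q.M b / 2) < Q.d ^ (-(n i)) * Q.M (x i) :=
      mul_lt_mul'' (hK.trans_le h1) h3 (by positivity) (by linarith)
    linarith
  -- some value of `n` occurs infinitely often
  have hfreq : ∃ m : ℤ, ∃ᶠ i in atTop, n (θ i) = m := by
    by_contra hcon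
    push Not at hcon
    have hcon' : ∀ m : ℤ, ∀ᶠ i in atTop, n (θ i) ≠ m := fun m => by
      have := hcon m
      simpa [Filter.not_frequently] using this
    have hbig : ∀ B : ℕ, ∀ᶠ i in atTop, (B : ℤ) ≤ n (θ i) := by
      intro B
      have h1 : ∀ᶠ i in atTop, ∀ m ∈ Finset.Ico (-(K : ℤ)) B, n (θ i) ≠ m :=
        (Finset.eventually_all _).2 fun m _ => hcon' m
      filter_upwards [h1] with i hi
      by_contra hlt
      exact hi (n (θ i)) (Finset.mem_Ico.2 ⟨hnl _, not_le.1 hlt⟩) rfl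
    -- `M` at the centres tends to zero
    have hM0 : Tendsto (fun i => Q.M (σ (θ i) (v (θ i)))) atTop (𝓝 0) := by
      rw [Metric.tendsto_atTop]
      intro ε hε
      obtain ⟨B, hB⟩ : ∃ B : ℕ, (Q.M b + 1) / ε < Q.d ^ B := pow_unbounded_of_one_lt _ hd1
      have hMx1 : ∀ᶠ i in atTop, Q.M (x (θ i)) < Q.M b + 1 :=
        ((Q.cM.tendsto b).comp hxθ).eventually (gt_mem_nhds (by linarith))
      obtain ⟨j0, hj0⟩ := eventually_atTop.1 ((hbig B).and hMx1)
      refine ⟨j0, fun i hi => ?_⟩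
      obtain ⟨h1, h2⟩ := hj0 i hi
      rw [Real.dist_eq, sub_zero, abs_of_nonneg (Q.M0 _), hMval, zpow_neg]
      have h3 : Q.d ^ B ≤ Q.d ^ (n (θ i)) := by
        rw [← zpow_natCast]
        exact zpow_le_zpow_right₀ hd1.le h1
      have h4 : 0 < Q.d ^ B := by positivity
      have h5' : (Q.d ^ (n (θ i)))⁻¹ ≤ (Q.d ^ B)⁻¹ := inv_anti₀ h4 h3
      have h6 : (Q.M b + 1) < Q.d ^ B * ε := by
        rw [div_lt_iff₀ hε] at hB
        exact hB
      calc (Q.d ^ (n (θ i)))⁻¹ * Q.M (x (θ i)) ≤ (Q.d ^ B)⁻¹ * (Q.M b + 1) :=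
            mul_le_mul h5' h2.le (Q.M0 _) (by positivity)
        _ < (Q.d ^ B)⁻¹ * (Q.d ^ B * ε) := mul_lt_mul_of_pos_left h6 (by positivity)
        _ = ε := by rw [← mul_assoc, inv_mul_cancel₀ h4.ne', one_mul]
    -- `M ∘ τ` vanishes near `v0`
    set c : ℝ := (1 / 3) ^ N * (1 / Λ) with hc
    have hc0 : 0 < c := by positivity
    have hzero : ∀ z ∈ ball v0 (c / 4), Q.M (τ z) = 0 := by
      intro z hz
      have hz' : dist z v0 < c / 4 := hz
      have h1 : Tendsto (fun i => Q.M (σ (θ i) z)) atTop (𝓝 (Q.M (τ z))) :=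
        (Q.cM.tendsto _).comp (hlim2.tendsto_comp (g := fun _ => z) hτc.continuousAt
          tendsto_const_nhds)
      have h2 : Tendsto (fun i => 3 * Q.M (σ (θ i) (v (θ i)))) atTop (𝓝 (3 * 0)) :=
        hM0.const_mul 3
      rw [mul_zero] at h2
      have h3 : ∀ᶠ i in atTop, dist (v (θ i)) v0 < c / 4 :=
        (Metric.tendsto_nhds.1 hvlim2) (c / 4) (by linarith)
      have h4 : ∀ᶠ i in atTop, Q.M (σ (θ i) z) ≤ 3 * Q.M (σ (θ i) (v (θ i))) := by
        filter_upwards [h3] with i hi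
        set a := v (θ i) with ha
        have hr : c ≤ (1 / 3) ^ N * ‖a‖ := by
          rw [hc]
          exact mul_le_mul_of_nonneg_left (hv1 _) (by positivity)
        set r := (1 / 3) ^ N * ‖a‖ with hrd
        have hr0 : 0 < r := hc0.trans_le hr
        have hda : dist z a < c / 2 := by
          have := dist_triangle z v0 a
          rw [dist_comm v0 a] at this
          linarith
        have hd : DifferentiableOn ℂ (σ (θ i)) (ball a r) :=
          (U_diff Q.dual (hσ' (θ i))).differentiableOn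
        have hp : ∀ u ∈ ball a r, 0 < Q.M (σ (θ i) u) := by
          intro u hu
          refine hpos (θ i) u ?_
          rw [← dist_eq_norm]
          exact hu
        have h6 := (Q.hM (σ (θ i)) a r hr0 hd hp z (by
          rw [mem_ball]
          linarith)).2
        refine h6.trans (mul_le_mul_of_nonneg_right ?_ (Q.M0 _))
        rw [div_le_iff₀ (by linarith)]
        linarith
      have h5' : Q.M (τ z) ≤ 0 := le_of_tendsto_of_tendsto h1 h2 h4
      exact le_antisymm h5' (Q.M0 _)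
    -- contradiction
    have hnc : NC τ v0 := nc_of_entire hτd (U_ne Q.dual hτ) v0
    have hball : ball v0 (c / 4) ∈ 𝓝 v0 := ball_mem_nhds v0 (by linarith)
    obtain ⟨z, hz, hzb⟩ := (hnc.and_eventually hball).exists
    have hin := discC Q h5 isOpen_ball (convex_ball v0 (c / 4)).isPreconnected
      (hτd.differentiableOn (s := ball v0 (c / 4)))
      (fun s _ => Us_P Q hτs s) hzero ⟨z, hzb, v0, mem_ball_self (by linarith), hz⟩ v0
      (mem_ball_self (by linarith))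
    exact Us_not_int Q hτs v0 hin
  obtain ⟨m, hm⟩ := hfreq
  obtain ⟨χ, hχ, hχm⟩ := extraction_of_frequently_atTop hm
  have h1 : Tendsto (fun i => (Q.F ^ m) (x (θ (χ i)))) atTop (𝓝 ((Q.F ^ m) b)) :=
    ((Q.toSys.diff_zpow m).continuous.tendsto b).comp (hxθ.comp hχ.tendsto_atTop)
  have h2 : Tendsto (fun i => σ (θ (χ i)) (v (θ (χ i)))) atTop (𝓝 (τ v0)) :=
    hσv.comp hχ.tendsto_atTop
  have h3 : (fun i => (Q.F ^ m) (x (θ (χ i)))) = fun i => σ (θ (χ i)) (v (θ (χ i))) := by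
    funext i
    rw [← hFv, hχm i]
  rw [h3] at h1
  have h4 : (Q.F ^ m) b = τ v0 := tendsto_nhds_unique h1 h2
  obtain ⟨η, a, -, -, hη, -, hηa, -⟩ := hg.orb τ hτ
  refine ⟨η m, by rw [← QS.dual_U]; exact hη m, a m * v0, ?_⟩
  have h6 := hηa m v0
  rw [QS.dual_F, ← h4, inv_zpow] at h6
  rw [← h6]
  exact (Q.F ^ m).symm_apply_apply b

theorem on_curve (Q : QS) (h5 : Q.H5) {b : E} (hb : Q.P b = 0) (hbi : b ∉ interior Q.Kp) :
    ∃ σ ∈ Q.Us, ∃ v₀ : ℂ, σ v₀ = b := by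
  rcases (Q.M0 b).eq_or_lt with h | h
  · have h1 : b ∈ closure (Sad Q.F) := h5 b hb h.symm hbi
    have h2 : b ∈ closure (Sad Q.dual.F) := by
      rw [QS.dual_Sad]
      exact h1
    obtain ⟨p, hp, ξ, hξ, hξ0, -⟩ := U_center Q.dual h2
    exact ⟨ξ, by rw [← QS.dual_U]; exact hξ, 0, hξ0⟩
  · exact O82_pos Q h5 hb hbi h

end Pool.Agent.HQ
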