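import Pool.Agent.HQ.Defs
import Pool.Agent.HQ.Bas
import Pool.Agent.HQ.UBas
import Pool.Agent.HQ.GrF
import Pool.Agent.HQ.Gro
import Pool.Agent.HQ.O82
import Pool.Agent.HQ.N83
import Pool.Agent.HQ.An84
import Pool.Agent.HQ.Ch85
import Pool.Agent.HQ.R210
import Pool.Agent.HQ.IP
import Pool.Agent.HQ.StayA
import Pool.Agent.HQ.Surj

/-!
# HQ module FP84: points of exponentially fast approach with separated images
-/

set_option autoImplicit false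

open Filter Topology Set Metric

namespace Pool.Agent.HQ

/-- a holomorphic function that vanishes at `0` but not near `0` is at least a power -/
theorem FP84_low {f : ℂ → ℂ} {r : ℝ} (hr : 0 < r) (hf : DifferentiableOn ℂ f (ball 0 r))
    (h0 : f 0 = 0) (hne : ¬ ∀ᶠ z in 𝓝 (0 : ℂ), f z = 0) :
    ∃ c > 0, ∃ m : ℕ, 0 < m ∧ ∃ r' > 0, ∀ z ∈ ball (0 : ℂ) r', c * ‖z‖ ^ m ≤ ‖f z‖ := by
  have han : AnalyticAt ℂ f 0 := hf.analyticAt (isOpen_ball.mem_nhds (mem_ball_self hr))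
  obtain ⟨m, g, hg, hg0, hfg⟩ := han.exists_eventuallyEq_pow_smul_nonzero_iff.2 hne
  have hm : 0 < m := by
    rcases Nat.eq_zero_or_pos m with rfl | hm
    · exfalso
      have h1 := hfg.self_of_nhds
      rw [h0, pow_zero, one_smul] at h1
      exact hg0 h1.symm
    · exact hm
  have hgp : 0 < ‖g 0‖ := norm_pos_iff.2 hg0
  have hgc : ∀ᶠ z in 𝓝 (0 : ℂ), ‖g 0‖ / 2 < ‖g z‖ :=
    (hg.continuousAt.norm).eventually_const_lt (half_lt_self hgp)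
  obtain ⟨r', hr', hb⟩ := Metric.eventually_nhds_iff_ball.1 (hfg.and hgc)
  refine ⟨‖g 0‖ / 2, half_pos hgp, m, hm, r', hr', fun z hz => ?_⟩
  obtain ⟨h1, h2⟩ := hb z hz
  rw [h1, norm_smul, norm_pow, sub_zero, mul_comm]
  exact mul_le_mul_of_nonneg_left h2.le (pow_nonneg (norm_nonneg _) _)

/-- the stable parametrisations of anchors are eventually disjoint from the limit curve -/
theorem FP84_disj (Q : QS) {a : ℕ → E} {σ : ℂ → E} {φ : ℕ → ℕ} (hσ : σ ∈ Q.Us)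
    (ha : ∀ n, a n ∈ Sad Q.F) {c₂ : ℝ} (hc₂ : 0 < c₂)
    (hlim : Tendsto (fun j => a (φ j)) atTop (𝓝 (σ 0)))
    (hsep : ∀ n, c₂ ≤ ‖(Q.F ^ n) (a n) - (Q.F ^ n) (σ 0)‖) :
    ∀ᶠ j in atTop, ∀ w w' : ℂ, Q.Xs (a (φ j)) w ≠ σ w' := by
  by_contra hcon
  have hfr : ∃ᶠ j in atTop, σ 0 ∈ Ws Q.F (a (φ j)) := by
    refine (not_eventually.1 hcon).mono fun j hj => ?_
    push Not at hj
    obtain ⟨w, w', h1⟩ := hj
    have h2 : Q.Xs (a (φ j)) w ∈ Wu Q.F⁻¹ (a (φ j)) := by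
      rw [← (Q.hs _ (ha (φ j))).range]
      exact mem_range_self w
    have h3 : σ w' ∈ Ws Q.F (a (φ j)) := by
      rw [← h1]
      unfold Wu at h2
      rwa [inv_inv] at h2
    have hd : Differentiable ℂ σ := by
      rw [← Q.dual_U] at hσ
      exact U_diff Q.dual hσ
    exact stay_s Q.toSys isOpen_univ isPreconnected_univ hd.differentiableOn
      (fun s _ => Us_P Q hσ s) (ha (φ j)) (mem_univ w') h3 0 (mem_univ 0)
  obtain ⟨j₀, hj₀⟩ := hfr.exists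
  have h4 : ∃ᶠ j in atTop, a (φ j) = a (φ j₀) :=
    hfr.mono fun j hj => Q.toSys.Ws_disj (ha _) (ha _) hj hj₀
  have h5 : σ 0 = a (φ j₀) := by
    by_contra hne
    have h6 : ∀ᶠ j in atTop, a (φ j) ≠ a (φ j₀) := hlim.eventually_ne hne
    exact (h4.and_eventually h6).exists.elim fun j hj => hj.2 hj.1
  have h7 := hsep (φ j₀)
  rw [← h5, sub_self, norm_zero] at h7
  exact absurd h7 (not_le.2 hc₂)

theorem fast_points (Q : QS) (h5 : Q.H5) {b v : E} {ρ : ℝ} (hρ : 0 < ρ) (hbP : Q.P b = 0)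
    (hbi : b ∉ interior Q.Kp) (hint : ∀ t ∈ ball (ρ : ℂ) ρ, b + t • v ∈ interior Q.Kp) :
    ∃ c₃ > 0, ∃ (n : ℕ → ℕ) (t : ℕ → ℂ) (C θ : ℝ), StrictMono n ∧ 0 < θ ∧ θ < 1 ∧
      (∀ j, ‖t j‖ ≤ C * θ ^ n j) ∧
      ∀ j, c₃ ≤ ‖(Q.F ^ n j) (b + t j • v) - (Q.F ^ n j) b‖ := by
  obtain ⟨σ, hσ, v₀, hσb⟩ := on_curve Q h5 hbP hbi
  obtain ⟨κ, Λ, hg⟩ := growth Q
  obtain ⟨κd, Λd, hgd⟩ := growth Q.dual
  have hc₀ : σ 0 ∈ closure (Sad Q.F) := by
    have h1 : σ ∈ Q.dual.U := by rw [Q.dual_U]; exact hσ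
    have h2 := U_zero Q.dual h1
    rwa [Q.dual_Sad] at h2
  obtain ⟨c₂, hc₂, C₀, a, haS, haC, hsep⟩ := anchors Q h5 hg hc₀
  obtain ⟨φ, hφ, σ₁, hσ₁l⟩ := Q.ns a haS
  have hσ₁ : σ₁ ∈ Q.Us := ⟨fun n => a (φ n), fun n => haS _, hσ₁l⟩
  have hσ₁d : σ₁ ∈ Q.dual.U := by rw [Q.dual_U]; exact hσ₁
  have hσ₁diff : Differentiable ℂ σ₁ := U_diff Q.dual hσ₁d
  have hκ1 : κ⁻¹ < 1 := inv_lt_one_of_one_lt₀ hg.one_lt
  have hκ0 : 0 < κ⁻¹ := inv_pos.2 (lt_trans zero_lt_one hg.one_lt)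
  have halim : Tendsto a atTop (𝓝 (σ 0)) := by
    rw [tendsto_iff_norm_sub_tendsto_zero]
    refine squeeze_zero (fun n => norm_nonneg _) haC ?_
    simpa using (tendsto_pow_atTop_nhds_zero_of_lt_one hκ0.le hκ1).const_mul C₀
  have haφ : Tendsto (fun j => a (φ j)) atTop (𝓝 (σ 0)) := halim.comp hφ.tendsto_atTop
  have h00 : σ₁ 0 = σ 0 := by
    have h1 : Tendsto (fun j => Q.Xs (a (φ j)) 0) atTop (𝓝 (σ₁ 0)) :=
      (tendstoLocallyUniformlyOn_univ.2 hσ₁l).tendsto_at (mem_univ 0)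
    have h2 : (fun j => Q.Xs (a (φ j)) 0) = fun j => a (φ j) :=
      funext fun j => (Q.hs _ (haS (φ j))).zero
    rw [h2] at h1
    exact tendsto_nhds_unique h1 haφ
  obtain ⟨w₀, hw₀⟩ : b ∈ range σ₁ := by
    have h1 : σ ∈ Q.dual.U := by rw [Q.dual_U]; exact hσ
    exact R0' Q.dual hσ₁d h1 h00 ⟨v₀, hσb⟩
  have hdis := FP84_disj Q hσ₁ haS hc₂ (by rw [h00]; exact haφ) (by rw [h00]; exact hsep)
  have hφt : Tendsto φ atTop atTop := hφ.tendsto_atTop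
  obtain ⟨ε, hε, δ, hδ, H, hH, δ', hδ', C', θ', hθ'0, hθ'1, hch⟩ :=
    chain Q hσ₁ (fun j => haS (φ j)) hσ₁l hdis hκ0 hκ1 hφt
      (fun j => by rw [h00]; exact haC (φ j)) w₀
  -- the tangent disc
  set T : ℂ → E := fun t => b + t • v with hT
  have hTd : Differentiable ℂ T := by
    intro t
    exact (differentiableAt_const b).add (differentiableAt_id.smul_const v)
  have hT0 : T 0 = b := by simp [hT]
  have hv : v ≠ 0 := tan_ne Q hσ₁ hw₀ hρ hint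
  have hTnc : NC T 0 := by
    refine nc_of_entire hTd ⟨0, 1, ?_⟩ 0
    simp only [hT, zero_smul, add_zero, one_smul]
    intro h
    exact hv (by simpa using h.symm)
  -- the function H ∘ T
  obtain ⟨r₁, hr₁, hr₁b⟩ : ∃ r₁ > 0, ∀ t ∈ ball (0 : ℂ) r₁, T t ∈ ball (σ₁ w₀) δ := by
    have h1 : ∀ᶠ t in 𝓝 (0 : ℂ), T t ∈ ball (σ₁ w₀) δ := by
      refine hTd.continuous.continuousAt.eventually_mem ?_
      rw [hT0, hw₀]
      exact ball_mem_nhds b hδ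
    exact Metric.eventually_nhds_iff_ball.1 h1
  have hHT : DifferentiableOn ℂ (fun t => H (T t)) (ball 0 r₁) :=
    hH.dh.2 T (ball 0 r₁) isOpen_ball hTd.differentiableOn hr₁b
  have hHT0 : H (T 0) = 0 := by
    rw [hT0, ← hw₀]
    exact (hH.zero _ (mem_ball_self hδ)).2 ⟨w₀, mem_ball_self hε, rfl⟩
  have hHTne : ¬ ∀ᶠ t in 𝓝 (0 : ℂ), H (T t) = 0 := by
    intro hev
    obtain ⟨r₂, hr₂, hr₂b⟩ := Metric.eventually_nhds_iff_ball.1 hev
    set s : ℝ := min (min r₁ r₂) ρ / 2 with hs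
    have hs0 : 0 < s := half_pos (lt_min (lt_min hr₁ hr₂) hρ)
    have hsn : ‖(s : ℂ)‖ = s := by
      rw [Complex.norm_real, Real.norm_eq_abs, abs_of_pos hs0]
    have hs1 : s < r₁ := lt_of_lt_of_le (half_lt_self (lt_min (lt_min hr₁ hr₂) hρ))
      ((min_le_left _ _).trans (min_le_left _ _))
    have hs2 : s < r₂ := lt_of_lt_of_le (half_lt_self (lt_min (lt_min hr₁ hr₂) hρ))
      ((min_le_left _ _).trans (min_le_right _ _))
    have hs3 : s < ρ := lt_of_lt_of_le (half_lt_self (lt_min (lt_min hr₁ hr₂) hρ))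
      (min_le_right _ _)
    have h1 : (s : ℂ) ∈ ball (0 : ℂ) r₁ := by rw [mem_ball_zero_iff, hsn]; exact hs1
    have h2 : (s : ℂ) ∈ ball (0 : ℂ) r₂ := by rw [mem_ball_zero_iff, hsn]; exact hs2
    have h3 : (s : ℂ) ∈ ball (ρ : ℂ) ρ := by
      rw [mem_ball, Complex.dist_eq, ← Complex.ofReal_sub, Complex.norm_real,
        Real.norm_eq_abs, abs_sub_lt_iff]
      constructor <;> linarith
    have h4 := (hH.zero _ (hr₁b _ h1)).1 (hr₂b _ h2)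
    obtain ⟨u, -, hu⟩ := h4
    have h5' := Us_not_int Q hσ₁ u
    rw [hu] at h5'
    exact h5' (hint _ h3)
  obtain ⟨c, hc, m, hm, r₃, hr₃, hlow⟩ := FP84_low hr₁ hHT hHT0 hHTne
  -- intersection points
  have hgs : ∀ n, DifferentiableOn ℂ (Q.Xs (a (φ n))) univ := fun n =>
    ((Q.hs _ (haS (φ n))).diff).differentiableOn
  have hip := ip isOpen_univ (mem_univ (0 : ℂ)) hTd.differentiableOn hTnc isOpen_univ
    (mem_univ w₀) hgs (tendstoLocallyUniformlyOn_univ.2 hσ₁l) (by rw [hT0, hw₀])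
  have hip2 := hip.resolve_left (not_germ' Q hσ₁ hw₀ hρ hint)
  obtain ⟨C₁, hC₁0, hC₁⟩ := hgd.back (‖w₀‖ + 1)
  set η : ℝ := min (min δ' r₃) (min r₁ 1) with hη
  have hη0 : 0 < η := lt_min (lt_min hδ' hr₃) (lt_min hr₁ zero_lt_one)
  have hipη := hip2 η hη0
  have hκd1 : κd⁻¹ < 1 := inv_lt_one_of_one_lt₀ hgd.one_lt
  have hκd0 : 0 < κd⁻¹ := inv_pos.2 (lt_trans zero_lt_one hgd.one_lt)
  have hback : ∀ {ξ : ℂ → E}, ξ ∈ Q.Us → ∀ z : ℂ, ‖z‖ ≤ ‖w₀‖ + 1 → ∀ n : ℕ,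
      ‖(Q.F ^ n) (ξ z) - (Q.F ^ n) (ξ 0)‖ ≤ C₁ * κd⁻¹ ^ n * (‖w₀‖ + 1) := by
    intro ξ hξ z hz n
    have h1 : ξ ∈ Q.dual.U := by rw [Q.dual_U]; exact hξ
    have h2 := hC₁ ξ h1 z hz n
    rw [QS.dual_F, inv_inv, dist_eq_norm] at h2
    refine h2.trans ?_
    exact mul_le_mul_of_nonneg_left hz (mul_nonneg hC₁0 (pow_nonneg hκd0.le _))
  have hsmall : ∀ᶠ j in atTop, C₁ * κd⁻¹ ^ (φ j) * (‖w₀‖ + 1) < c₂ / 4 := by
    have h1 : Tendsto (fun n : ℕ => C₁ * κd⁻¹ ^ n * (‖w₀‖ + 1)) atTop (𝓝 0) := by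
      have h2 := ((tendsto_pow_atTop_nhds_zero_of_lt_one hκd0.le hκd1).const_mul C₁).mul_const
        (‖w₀‖ + 1)
      simpa using h2
    exact (h1.comp hφt).eventually_lt_const (by positivity)
  obtain ⟨J, hJ⟩ := eventually_atTop.1 (hipη.and (hch.and hsmall))
  choose w hw s hs hws using fun j : ℕ => (hJ (j + J) (Nat.le_add_left J j)).1
  have hC'0 : 0 ≤ C' := by
    obtain ⟨_, h2, _⟩ := hJ J le_rfl
    have h3 := (h2 w₀ (mem_ball_self hδ')).2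
    have h4 : 0 ≤ C' * θ' ^ (φ J) := (norm_nonneg _).trans h3
    exact nonneg_of_mul_nonneg_left h4 (pow_pos hθ'0 _)
  have hmr : (0 : ℝ) < (m : ℝ) := by exact_mod_cast hm
  refine ⟨c₂ / 2, half_pos hc₂, fun j => φ (j + J), s, (C' / c) ^ ((1 : ℝ) / m),
    θ' ^ ((1 : ℝ) / m), ?_, Real.rpow_pos_of_pos hθ'0 _,
    Real.rpow_lt_one hθ'0.le hθ'1 (by positivity), ?_, ?_⟩
  · intro i j hij
    exact hφ (Nat.add_lt_add_right hij J)
  · intro j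
    obtain ⟨_, h2, _⟩ := hJ (j + J) (Nat.le_add_left J j)
    have hwδ : w j ∈ ball w₀ δ' :=
      ball_subset_ball ((min_le_left _ _).trans (min_le_left _ _)) (hw j)
    have hsr : s j ∈ ball (0 : ℂ) r₃ :=
      ball_subset_ball ((min_le_left _ _).trans (min_le_right _ _)) (hs j)
    have h3 := (h2 (w j) hwδ).2
    rw [hws j] at h3
    have h4 := (hlow (s j) hsr).trans h3
    have h5' : ‖s j‖ ^ m ≤ C' / c * θ' ^ φ (j + J) := by
      rw [div_mul_eq_mul_div, le_div_iff₀ hc, mul_comm]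
      exact h4
    have h6 : ‖s j‖ = (‖s j‖ ^ m) ^ ((1 : ℝ) / m) := by
      rw [← Real.rpow_natCast, ← Real.rpow_mul (norm_nonneg _), mul_one_div_cancel hmr.ne',
        Real.rpow_one]
    rw [h6]
    have h7 : (C' / c) ^ ((1 : ℝ) / m) * (θ' ^ ((1 : ℝ) / m)) ^ φ (j + J) =
        (C' / c * θ' ^ φ (j + J)) ^ ((1 : ℝ) / m) := by
      rw [Real.mul_rpow (div_nonneg hC'0 hc.le) (pow_nonneg hθ'0.le _)]
      congr 1
      rw [← Real.rpow_natCast, ← Real.rpow_natCast, ← Real.rpow_mul hθ'0.le,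
        ← Real.rpow_mul hθ'0.le, mul_comm]
    rw [h7]
    exact Real.rpow_le_rpow (pow_nonneg (norm_nonneg _) _) h5' (by positivity)
  · intro j
    obtain ⟨_, _, h3⟩ := hJ (j + J) (Nat.le_add_left J j)
    have hwR : ‖w j‖ ≤ ‖w₀‖ + 1 := by
      have h4 : w j ∈ ball w₀ 1 :=
        ball_subset_ball ((min_le_right _ _).trans (min_le_right _ _)) (hw j)
      rw [mem_ball, dist_eq_norm] at h4
      have h6 : ‖w j‖ ≤ ‖w₀‖ + ‖w j - w₀‖ := norm_le_norm_add_norm_sub' _ _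
      linarith
    have hXs : Q.Xs (a (φ (j + J))) ∈ Q.Us := by
      rw [← Q.dual_U]
      exact Xu_mem_U Q.dual (p := a (φ (j + J))) (by rw [Q.dual_Sad]; exact haS _)
    have h1 := hback hXs (w j) hwR (φ (j + J))
    rw [hws j, (Q.hs _ (haS (φ (j + J)))).zero] at h1
    have h2 := hback hσ₁ w₀ (by linarith) (φ (j + J))
    rw [hw₀, h00] at h2
    have h4 := hsep (φ (j + J))
    have h6 : (Q.F ^ φ (j + J)) (a (φ (j + J))) - (Q.F ^ φ (j + J)) (σ 0) =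
        ((Q.F ^ φ (j + J)) (T (s j)) - (Q.F ^ φ (j + J)) b) -
        ((Q.F ^ φ (j + J)) (T (s j)) - (Q.F ^ φ (j + J)) (a (φ (j + J)))) +
        ((Q.F ^ φ (j + J)) b - (Q.F ^ φ (j + J)) (σ 0)) := by abel
    rw [h6] at h4
    have h7 := (norm_add_le (((Q.F ^ φ (j + J)) (T (s j)) - (Q.F ^ φ (j + J)) b) -
        ((Q.F ^ φ (j + J)) (T (s j)) - (Q.F ^ φ (j + J)) (a (φ (j + J)))))
        ((Q.F ^ φ (j + J)) b - (Q.F ^ φ (j + J)) (σ 0)))
    have h8 := norm_sub_le ((Q.F ^ φ (j + J)) (T (s j)) - (Q.F ^ φ (j + J)) b)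
        ((Q.F ^ φ (j + J)) (T (s j)) - (Q.F ^ φ (j + J)) (a (φ (j + J))))
    change c₂ / 2 ≤ ‖(Q.F ^ φ (j + J)) (T (s j)) - (Q.F ^ φ (j + J)) b‖
    linarith

end Pool.Agent.HQ
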