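import Pool.Agent.HQ.Defs
import Pool.Agent.HQ.Bas
import Pool.Agent.HQ.MatG

/-!
# HQ module Sn87: sinks are interior to K+ together with their basins
-/

set_option autoImplicit false

open Filter Topology Set Metric

namespace Pool.Agent.HQ

theorem Sn87_P_zero (S : Sys) (G : Equiv.Perm E) (D : ℝ) (hD : 1 < D)
    (hG : ∀ (m : ℕ) (x : E), S.P ((G ^ m) x) = D ^ m * S.P x) {p x : E} {r : ℝ}
    (hb : ∀ m : ℕ, (G ^ m) x ∈ closedBall p r) : S.P x = 0 := by
  obtain ⟨C, hC⟩ := (isCompact_closedBall p r).exists_bound_of_continuousOn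
    (S.cP.continuousOn (s := closedBall p r))
  by_contra hne
  have hpos : 0 < S.P x := lt_of_le_of_ne (S.P0 x) (Ne.symm hne)
  obtain ⟨m, hm⟩ := ((tendsto_pow_atTop_atTop_of_one_lt hD).eventually_gt_atTop
    (C / S.P x)).exists
  have h1 := hC _ (hb m)
  rw [hG, Real.norm_eq_abs] at h1
  have h2 := le_trans (le_abs_self _) h1
  rw [div_lt_iff₀ hpos] at hm
  linarith

theorem sink_int (S : Sys) {p : E} (hp : p ∈ Snk S.F) : p ∈ interior S.Kp := by
  obtain ⟨k, hk, hkp, hev⟩ := hp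
  obtain ⟨n, hn, hA⟩ := pow_small (fderiv ℂ (⇑(S.F ^ k)) p) hev
  set A := fderiv ℂ (⇑(S.F ^ k)) p with hAdef
  have hd1 : HasFDerivAt (⇑(S.F ^ k)) A p := (S.diff_pow k p).hasFDerivAt
  have hd2 : HasFDerivAt ((⇑(S.F ^ k))^[n]) (A ^ n) p := hd1.iterate hkp n
  set G : Equiv.Perm E := S.F ^ (k * n) with hGdef
  have hGe : (⇑(S.F ^ k))^[n] = ⇑G := by
    rw [Equiv.Perm.iterate_eq_pow, hGdef, pow_mul]
  rw [hGe] at hd2
  have hGp : G p = p := S.per_mul hkp n
  have hev2 : ∀ᶠ x in 𝓝 p, ‖G x - G p - (A ^ n) (x - p)‖ ≤ 1 / 4 * ‖x - p‖ :=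
    hd2.isLittleO.def (by norm_num : (0 : ℝ) < 1 / 4)
  obtain ⟨r, hr, hball⟩ := Metric.eventually_nhds_iff_ball.1 hev2
  have hcon : ∀ x ∈ ball p r, G x ∈ ball p r := by
    intro x hx
    have h1 := hball x hx
    rw [hGp] at h1
    have h2 : ‖(A ^ n) (x - p)‖ ≤ 1 / 2 * ‖x - p‖ :=
      (A ^ n).le_of_opNorm_le hA.le _
    have h3 : ‖G x - p‖ ≤ ‖G x - p - (A ^ n) (x - p)‖ + ‖(A ^ n) (x - p)‖ := by
      have := norm_add_le (G x - p - (A ^ n) (x - p)) ((A ^ n) (x - p))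
      rwa [sub_add_cancel] at this
    rw [mem_ball, dist_eq_norm] at hx ⊢
    have h4 := norm_nonneg (x - p)
    linarith
  have hall : ∀ (m : ℕ) (x : E), x ∈ ball p r → (G ^ m) x ∈ ball p r := by
    intro m
    induction m with
    | zero => intro x hx; simpa using hx
    | succ m ih =>
      intro x hx
      rw [pow_succ, Equiv.Perm.mul_apply]
      exact ih _ (hcon x hx)
  have hkn : k * n ≠ 0 := (Nat.mul_pos hk hn).ne'
  have hsub : ball p r ⊆ S.Kp := by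
    intro x hx
    refine Sn87_P_zero S G (S.d ^ (k * n)) (one_lt_pow₀ S.hd hkn) (fun m y => ?_) (p := p)
      (r := r) (fun m => ball_subset_closedBall (hall m x hx))
    rw [hGdef, ← pow_mul, S.P_pow, ← pow_mul]
  exact interior_maximal hsub isOpen_ball (mem_ball_self hr)

theorem basin_int (S : Sys) {p : E} (hp : p ∈ Snk S.F) : Basin S.F p ⊆ interior S.Kp := by
  have hint := sink_int S hp
  obtain ⟨k, hk, hkp, -⟩ := hp
  intro x hx
  set R : Set E := range fun j : ℕ => (S.F ^ j) p with hR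
  have hRf : R.Finite := by
    refine ((Finset.range k).finite_toSet.image (fun j : ℕ => (S.F ^ j) p)).subset ?_
    rintro y ⟨j, rfl⟩
    refine ⟨j % k, by simpa using Nat.mod_lt j hk, ?_⟩
    change (S.F ^ (j % k)) p = (S.F ^ j) p
    conv_rhs => rw [← Nat.mod_add_div j k, pow_add, Equiv.Perm.mul_apply, S.per_mul hkp]
  have hRi : R ⊆ interior S.Kp := by
    rintro y ⟨j, rfl⟩
    have := (S.mem_int_Kp (j : ℤ) p).2 hint
    rwa [zpow_natCast] at this
  obtain ⟨δ, hδ, hth⟩ := hRf.isCompact.exists_thickening_subset_open isOpen_interior hRi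
  have hRn : R.Nonempty := ⟨_, ⟨0, rfl⟩⟩
  have hx' : Tendsto (fun n : ℕ => infDist ((S.F ^ n) x) R) atTop (𝓝 0) := hx
  obtain ⟨n, hn⟩ := (hx'.eventually (gt_mem_nhds hδ)).exists
  have h1 : (S.F ^ n) x ∈ thickening δ R := by
    rw [thickening_eq_biUnion_ball]
    obtain ⟨y, hy, hyd⟩ := (infDist_lt_iff hRn).1 hn
    exact mem_iUnion₂.2 ⟨y, hy, hyd⟩
  have h2 := hth h1
  have h3 := (S.mem_int_Kp (n : ℤ) x)
  rw [zpow_natCast] at h3
  exact h3.1 h2

end Pool.Agent.HQ
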