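import Pool.Agent.HQ.Defs
import Pool.Agent.HQ.Bas
import Pool.Agent.HQ.Cmp
import Pool.Agent.HQ.Lm50
import Pool.Agent.HQ.K41
import Pool.Agent.HQ.CF44
import Pool.Agent.HQ.DmB
import Pool.Agent.HQ.GrF
import Pool.Agent.HQ.Fr23
import Pool.Agent.HQ.Gro
import Pool.Agent.HQ.UBas
import Pool.Agent.HQ.LimW

/-!
# HQ module P71a: the union of the limit images is compact
-/

set_option autoImplicit false

open Filter Topology Set Metric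

namespace Pool.Agent.HQ

theorem P71a_neg (F : Equiv.Perm E) (m : ℕ) (x : E) : (F ^ (-(m : ℤ))) x = (F⁻¹ ^ m) x := by
  rw [zpow_neg, zpow_natCast, inv_pow]

theorem P71a_inv {S : Sys} {k : ℕ} {Ω : Set E} (hF : (⇑(S.F ^ k)) '' Ω = Ω) (q : ℤ) (x : E) :
    (S.F ^ ((k : ℤ) * q)) x ∈ Ω ↔ x ∈ Ω := by
  have h1 : ∀ y, (S.F ^ k) y ∈ Ω ↔ y ∈ Ω := by
    intro y
    constructor
    · intro h
      rw [← hF] at h
      obtain ⟨z, hz, hzy⟩ := h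
      rwa [← (S.F ^ k).injective hzy]
    · intro h
      rw [← hF]
      exact ⟨y, h, rfl⟩
  rw [zpow_mul, zpow_natCast]
  induction q with
  | zero => simp
  | succ n ih =>
    rw [add_comm, zpow_add, zpow_one, Equiv.Perm.mul_apply, h1]
    exact ih
  | pred n ih =>
    refine Iff.trans (h1 _).symm ?_
    rw [← Equiv.Perm.mul_apply, show S.F ^ k * (S.F ^ k) ^ (-(n : ℤ) - 1) =
      (S.F ^ k) ^ (-(n : ℤ)) by rw [← zpow_one_add]; congr 1; ring]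
    exact ih

theorem P71a_back (Q : QS) {κ Λ : ℝ} (hg : Gr Q κ Λ) (N : ℕ) : ∃ C : ℝ, 0 ≤ C ∧
    ∀ w, (∃ s : ℕ, (Q.F ^ s) w ∈ Q.Kc Λ N) → ∀ m : ℕ, ∃ z ∈ closure (Sad Q.F),
      dist ((Q.F⁻¹ ^ m) w) z ≤ C * κ⁻¹ ^ m := by
  obtain ⟨C, hC, hb⟩ := hg.back 1
  refine ⟨C, hC, ?_⟩
  rintro w ⟨s, ξ, hξ, u, -, hu, hw, -⟩ m
  refine ⟨(Q.F⁻¹ ^ (m + s)) (ξ 0), ?_, ?_⟩
  · rw [← P71a_neg, Q.toSys.mem_clSad]
    exact U_zero Q hξ
  · have h1 : (Q.F⁻¹ ^ m) w = (Q.F⁻¹ ^ (m + s)) (ξ u) := by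
      rw [← hw, pow_add, Equiv.Perm.mul_apply]
      congr 1
      rw [inv_pow]
      exact ((Q.F ^ s).symm_apply_apply w).symm
    rw [h1]
    have hk0 : 0 < κ := lt_trans zero_lt_one hg.one_lt
    have hk1 : κ⁻¹ ≤ 1 := inv_le_one_of_one_le₀ hg.one_lt.le
    have hk2 : 0 ≤ κ⁻¹ := inv_nonneg.2 hk0.le
    refine (hb ξ hξ u hu (m + s)).trans ?_
    calc C * κ⁻¹ ^ (m + s) * ‖u‖ ≤ C * κ⁻¹ ^ (m + s) * 1 :=
          mul_le_mul_of_nonneg_left hu (by positivity)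
      _ = C * κ⁻¹ ^ (m + s) := mul_one _
      _ ≤ C * κ⁻¹ ^ m :=
          mul_le_mul_of_nonneg_left (pow_le_pow_of_le_one hk2 hk1 (Nat.le_add_right _ _)) hC

/-- the set of the points of `Ω` whose next `k` iterates meet the thick part -/
theorem P71a_Kq (Q : QS) (h5 : Q.H5) {Λ : ℝ} (hΛ : 0 < Λ) (N : ℕ) (k : ℕ) {Ω : Set E}
    (hΩ : Q.IsComp Ω) : IsCompact {x | x ∈ Ω ∧ ∃ s : ℕ, s < k ∧ (Q.F ^ s) x ∈ Q.Kc Λ N} := by
  have h1 : IsCompact (⋃ s ∈ Finset.range k, (⇑(Q.F ^ s)) ⁻¹' Q.Kc Λ N) := by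
    refine (Finset.range k).isCompact_biUnion fun s _ => ?_
    have h2 := (Q.toSys.homeo (s : ℤ)).isCompact_preimage.2 (Kc_compact Q hΛ N)
    have h3 : (Q.toSys.homeo (s : ℤ)) ⁻¹' Q.Kc Λ N = (⇑(Q.F ^ s)) ⁻¹' Q.Kc Λ N := by
      ext y
      rw [mem_preimage, mem_preimage, Sys.homeo_apply, zpow_natCast]
    rwa [h3] at h2
  refine h1.of_isClosed_subset ?_ ?_
  · refine isClosed_of_closure_subset fun x hx => ?_
    have h4 : {x | x ∈ Ω ∧ ∃ s : ℕ, s < k ∧ (Q.F ^ s) x ∈ Q.Kc Λ N} ⊆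
        ⋃ s ∈ Finset.range k, (⇑(Q.F ^ s)) ⁻¹' Q.Kc Λ N := by
      rintro y ⟨-, s, hs, hy⟩
      exact mem_biUnion (Finset.mem_coe.2 (Finset.mem_range.2 hs)) hy
    have h5' := closure_minimal h4 h1.isClosed hx
    rw [mem_iUnion₂] at h5'
    obtain ⟨s, hs, hxs⟩ := h5'
    refine ⟨hΩ.closure_inter (closure_mono (fun y hy => hy.1) hx) ?_, s, Finset.mem_range.1 hs,
      hxs⟩
    have h6 := Kc_int Q h5 hΛ N hxs
    rw [← zpow_natCast, Q.toSys.mem_int_Kp] at h6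
    exact h6
  · rintro y ⟨-, s, hs, hy⟩
    exact mem_biUnion (Finset.mem_coe.2 (Finset.mem_range.2 hs)) hy

theorem P71a_image (Q : QS) {k : ℕ} (hk : 0 < k) {Ω K : Set E} (hΩ : Q.IsComp Ω)
    (hK : IsCompact K) (hKΩ : K ⊆ Ω) : IsCompact {y | ∃ g ∈ Q.Lim k Ω, ∃ x ∈ K, g x = y} := by
  rw [isCompact_iff_isSeqCompact]
  intro y hy
  choose g hg x hx hgx using hy
  obtain ⟨φ, hφ, h, hh, hlim⟩ := Lim_seq hk hΩ hg
  obtain ⟨a, ha, ψ, hψ, hx'⟩ := hK.isSeqCompact (x := fun n => x (φ n)) fun n => hx _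
  refine ⟨h a, ⟨h, hh, a, ha, rfl⟩, φ ∘ ψ, hφ.comp hψ, ?_⟩
  have hc : ContinuousWithinAt h Ω a := (Lim_dh hΩ hh).1 a (hKΩ ha)
  have h1 : TendstoLocallyUniformlyOn (fun j => g (φ (ψ j))) h atTop Ω := by
    intro u hu z hz
    obtain ⟨t, ht, ht'⟩ := hlim u hu z hz
    exact ⟨t, ht, hψ.tendsto_atTop.eventually ht'⟩
  have h2 : Tendsto (fun n => x (φ (ψ n))) atTop (𝓝[Ω] a) :=
    tendsto_nhdsWithin_iff.2 ⟨hx', Eventually.of_forall fun n => hKΩ (hx _)⟩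
  have h3 := h1.tendsto_comp hc (hKΩ ha) h2
  refine h3.congr fun n => ?_
  exact hgx _

theorem P71a_main (Q : QS) (h5 : Q.H5) (hV : interior Q.Km = ∅) {k : ℕ} (hk : 0 < k)
    {Ω : Set E} (hΩ : Q.IsComp Ω) (hF : (⇑(Q.F ^ k)) '' Ω = Ω)
    (hm : ∀ g ∈ Q.Lim k Ω, MapsTo g Ω Ω) {κ Λ : ℝ} (hg : Gr Q κ Λ) {N : ℕ} (hN : Λ ≤ κ ^ N)
    {g : E → E} (hgL : g ∈ Q.Lim k Ω) {z' : E} (hz' : z' ∈ Ω) :
    ∃ g2 ∈ Q.Lim k Ω, ∃ w, (w ∈ Ω ∧ ∃ s : ℕ, s < k ∧ (Q.F ^ s) w ∈ Q.Kc Λ N) ∧ g2 w = g z' := by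
  have hκ0 : 0 < κ := lt_trans zero_lt_one hg.one_lt
  have hΛ : 0 < Λ := lt_of_lt_of_le hκ0 hg.le
  have hkz : (0 : ℤ) < k := by exact_mod_cast hk
  obtain ⟨C, hC, hback⟩ := P71a_back Q hg N
  set x := g z' with hx
  have hxΩ : x ∈ Ω := hm g hgL hz'
  have hxi : x ∈ interior Q.Kp := hΩ.sub hxΩ
  have hxM : x ∈ Q.Km := (Lim_K hk hΩ hgL z' hz').2
  set Kq : Set E := {x | x ∈ Ω ∧ ∃ s : ℕ, s < k ∧ (Q.F ^ s) x ∈ Q.Kc Λ N} with hKq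
  have hKqc : IsCompact Kq := P71a_Kq Q h5 hΛ N k hΩ
  have hpow0 : Tendsto (fun n : ℕ => C * κ⁻¹ ^ n) atTop (𝓝 0) := by
    have := (tendsto_pow_atTop_nhds_zero_of_lt_one (inv_nonneg.2 hκ0.le)
      (inv_lt_one_of_one_lt₀ hg.one_lt)).const_mul C
    rwa [mul_zero] at this
  obtain ⟨𝒰, h𝒰, h𝒰x⟩ := mem_closure_iff_ultrafilter.1 (Dminus Q h5 hV hxM)
  have h𝒰Ω : Ω ∈ 𝒰 := h𝒰x (hΩ.isOpen.mem_nhds hxΩ)
  -- the return
  have hret : ∀ y : E, ∃ q : ℤ, y ∈ Ω → (y ∈ ⋃ p ∈ Sad Q.F, Wu Q.F p) →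
      (Q.F ^ ((k : ℤ) * q)) y ∈ Kq := by
    intro y
    by_cases hy : y ∈ Ω ∧ y ∈ ⋃ p ∈ Sad Q.F, Wu Q.F p
    · obtain ⟨hyΩ, hyW⟩ := hy
      rw [mem_iUnion₂] at hyW
      obtain ⟨p, hp, hyp⟩ := hyW
      obtain ⟨n, hn⟩ := (comp_star Q hg hN h5 hΩ hp hyΩ hyp).1
      refine ⟨n / k, fun _ _ => ⟨(P71a_inv hF _ _).2 hyΩ, (n % k).toNat, ?_, ?_⟩⟩
      · have h1 := Int.emod_lt_of_pos n hkz
        have h2 := Int.emod_nonneg n hkz.ne'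
        omega
      · rw [← zpow_natCast, Int.toNat_of_nonneg (Int.emod_nonneg n hkz.ne'),
          ← Equiv.Perm.mul_apply, ← zpow_add, Int.emod_add_mul_ediv]
        exact hn
    · exact ⟨0, fun h1 h2 => absurd ⟨h1, h2⟩ hy⟩
  choose q hq using hret
  have hev : ∀ᶠ y in (𝒰 : Filter E), (Q.F ^ ((k : ℤ) * q y)) y ∈ Kq := by
    filter_upwards [h𝒰, h𝒰Ω] with y h1 h2 using hq y h2 h1
  obtain ⟨w, hwK, hw⟩ := hKqc.ultrafilter_le_nhds' (𝒰.map fun y => (Q.F ^ ((k : ℤ) * q y)) y) hev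
  have hwt : Tendsto (fun y => (Q.F ^ ((k : ℤ) * q y)) y) 𝒰 (𝓝 w) := hw
  have hxt : Tendsto (fun y : E => y) 𝒰 (𝓝 x) := h𝒰x
  have hyw : ∀ y : E, (Q.F ^ (-((k : ℤ) * q y))) ((Q.F ^ ((k : ℤ) * q y)) y) = y := by
    intro y
    rw [← Equiv.Perm.mul_apply, ← zpow_add, neg_add_cancel, zpow_zero, Equiv.Perm.one_apply]
  by_cases hA : ∀ B : ℤ, ∀ᶠ y in (𝒰 : Filter E), B ≤ q y
  · -- the times tend to infinity
    exfalso
    have h1 : x ∈ closure (Sad Q.F) := by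
      rw [← closure_closure, Metric.mem_closure_iff]
      intro ε hε
      obtain ⟨n0, hn0⟩ := (hpow0.eventually (gt_mem_nhds (half_pos hε))).exists_forall_of_atTop
      have h2 : ∀ᶠ y in (𝒰 : Filter E), dist y x < ε / 2 :=
        hxt.eventually (Metric.ball_mem_nhds x (half_pos hε))
      obtain ⟨y, hy1, hy2, hy3⟩ := (h2.and ((hA n0).and hev)).exists
      have hq0 : 0 ≤ q y := le_trans (Int.natCast_nonneg _) hy2
      obtain ⟨s, -, hs⟩ := hy3.2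
      obtain ⟨z, hz, hz'⟩ := hback _ ⟨s, hs⟩ (k * (q y).toNat)
      have h3 : (Q.F⁻¹ ^ (k * (q y).toNat)) ((Q.F ^ ((k : ℤ) * q y)) y) = y := by
        rw [← P71a_neg]
        have h4 : (((k * (q y).toNat : ℕ)) : ℤ) = (k : ℤ) * q y := by
          rw [Nat.cast_mul, Int.toNat_of_nonneg hq0]
        rw [h4]
        exact hyw y
      rw [h3] at hz'
      have h5 : n0 ≤ k * (q y).toNat := by
        have h6 : n0 ≤ (q y).toNat := by omega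
        exact h6.trans (Nat.le_mul_of_pos_left _ hk)
      refine ⟨z, hz, ?_⟩
      have h7 := hn0 _ h5
      calc dist x z ≤ dist x y + dist y z := dist_triangle _ _ _
        _ < ε / 2 + ε / 2 := by
            rw [dist_comm x y]
            linarith
        _ = ε := add_halves ε
    exact clSad_not_int_p Q h1 hxi
  push Not at hA
  obtain ⟨B, hB⟩ := hA
  have hB' : ∀ᶠ y in (𝒰 : Filter E), q y < B := hB
  by_cases hA2 : ∀ B : ℤ, ∀ᶠ y in (𝒰 : Filter E), q y ≤ -B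
  · -- the times tend to minus infinity
    have hch : ∀ j : ℕ, ∃ y : E, dist y x < 1 / ((j : ℝ) + 1) ∧
        dist ((Q.F ^ ((k : ℤ) * q y)) y) w < 1 / ((j : ℝ) + 1) ∧ q y ≤ -(j : ℤ) ∧
        (Q.F ^ ((k : ℤ) * q y)) y ∈ Kq := by
      intro j
      have hj : (0 : ℝ) < 1 / ((j : ℝ) + 1) := by positivity
      have h2 : ∀ᶠ y in (𝒰 : Filter E), dist y x < 1 / ((j : ℝ) + 1) :=
        hxt.eventually (Metric.ball_mem_nhds x hj)
      have h3 : ∀ᶠ y in (𝒰 : Filter E), dist ((Q.F ^ ((k : ℤ) * q y)) y) w < 1 / ((j : ℝ) + 1) :=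
        hwt.eventually (Metric.ball_mem_nhds w hj)
      obtain ⟨y, h4, h5, h6, h7⟩ := (h2.and (h3.and ((hA2 j).and hev))).exists
      exact ⟨y, h4, h5, h6, h7⟩
    choose Y hY1 hY2 hY3 hY4 using hch
    have hone : Tendsto (fun j : ℕ => 1 / ((j : ℝ) + 1)) atTop (𝓝 0) :=
      tendsto_one_div_add_atTop_nhds_zero_nat
    have hYx : Tendsto Y atTop (𝓝 x) := by
      rw [tendsto_iff_dist_tendsto_zero]
      exact squeeze_zero (fun _ => dist_nonneg) (fun j => (hY1 j).le) hone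
    have hYw : Tendsto (fun j => (Q.F ^ ((k : ℤ) * q (Y j))) (Y j)) atTop (𝓝 w) := by
      rw [tendsto_iff_dist_tendsto_zero]
      exact squeeze_zero (fun _ => dist_nonneg) (fun j => (hY2 j).le) hone
    have hmt : Tendsto (fun j => (-(q (Y j))).toNat) atTop atTop := by
      refine tendsto_atTop_mono (fun j => ?_) tendsto_id
      have := hY3 j
      simp only [id]
      omega
    obtain ⟨φ, hφ, g2, hg2, hlim⟩ := Lim_sub Q.toSys k hΩ hmt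
    have hc : ContinuousWithinAt g2 Ω w := (Lim_dh hΩ hg2).1 w hwK.1
    have h2 : Tendsto (fun j => (Q.F ^ ((k : ℤ) * q (Y (φ j)))) (Y (φ j))) atTop (𝓝[Ω] w) :=
      tendsto_nhdsWithin_iff.2 ⟨hYw.comp hφ.tendsto_atTop,
        Eventually.of_forall fun j => (hY4 (φ j)).1⟩
    have h3 := hlim.tendsto_comp hc hwK.1 h2
    have h4 : Tendsto (fun j => Y (φ j)) atTop (𝓝 (g2 w)) := by
      refine h3.congr fun j => ?_
      have h5 : (((k * (-(q (Y (φ j)))).toNat : ℕ)) : ℤ) = -((k : ℤ) * q (Y (φ j))) := by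
        have h6 := hY3 (φ j)
        have h7 : ((-(q (Y (φ j)))).toNat : ℤ) = -(q (Y (φ j))) :=
          Int.toNat_of_nonneg (by omega)
        rw [Nat.cast_mul, h7]
        ring
      rw [← zpow_natCast, h5]
      exact hyw _
    have h5 := tendsto_nhds_unique h4 (hYx.comp hφ.tendsto_atTop)
    exact ⟨g2, hg2, w, hwK, h5⟩
  push Not at hA2
  obtain ⟨B2, hB2⟩ := hA2
  have hB2' : ∀ᶠ y in (𝒰 : Filter E), -B2 < q y := hB2
  -- the times are constant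
  exfalso
  have hconst : ∃ c : ℤ, ∀ᶠ y in (𝒰 : Filter E), q y = c := by
    have h1 : (⋃ c ∈ Set.Ioo (-B2) B, {y : E | q y = c}) ∈ 𝒰 := by
      filter_upwards [hB', hB2'] with y h1 h2
      exact mem_biUnion (show q y ∈ Set.Ioo (-B2) B from ⟨h2, h1⟩) rfl
    obtain ⟨c, -, hc⟩ := (Ultrafilter.finite_biUnion_mem_iff (Set.finite_Ioo _ _)).1 h1
    exact ⟨c, hc⟩
  obtain ⟨c, hc⟩ := hconst
  have hxw : x = (Q.F ^ (-((k : ℤ) * c))) w := by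
    have h1 : Tendsto (fun y => (Q.F ^ (-((k : ℤ) * c))) ((Q.F ^ ((k : ℤ) * q y)) y)) 𝒰
        (𝓝 ((Q.F ^ (-((k : ℤ) * c))) w)) :=
      ((Q.toSys.diff_zpow (-((k : ℤ) * c))).continuous.tendsto w).comp hwt
    have h2 : Tendsto (fun y : E => y) 𝒰 (𝓝 ((Q.F ^ (-((k : ℤ) * c))) w)) := by
      refine h1.congr' ?_
      filter_upwards [hc] with y hy
      rw [hy]
      have := hyw y
      rwa [hy] at this
    exact tendsto_nhds_unique hxt h2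
  obtain ⟨s, -, hs⟩ := hwK.2
  obtain ⟨φ, hφ, h, hh, hlim⟩ := Lim_seq hk hΩ
    (gs := fun n : ℕ => fun x => (Q.F ^ ((k : ℤ) * (-(n : ℤ)))) (g x))
    fun n => Lim_shift hΩ hgL (-(n : ℤ))
  have hc2 : ContinuousWithinAt h Ω z' := (Lim_dh hΩ hh).1 z' hz'
  have h3 : Tendsto (fun j => (Q.F ^ ((k : ℤ) * (-((φ j : ℕ) : ℤ)))) x) atTop (𝓝 (h z')) :=
    hlim.tendsto_comp hc2 hz' (tendsto_nhdsWithin_iff.2 ⟨tendsto_const_nhds,
      Eventually.of_forall fun _ => hz'⟩)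
  have h4 : h z' ∈ closure (Sad Q.F) := by
    rw [← closure_closure, Metric.mem_closure_iff]
    intro ε hε
    obtain ⟨n0, hn0⟩ := (hpow0.eventually (gt_mem_nhds (half_pos hε))).exists_forall_of_atTop
    have h5 : ∀ᶠ j in atTop, dist ((Q.F ^ ((k : ℤ) * (-((φ j : ℕ) : ℤ)))) x) (h z') < ε / 2 :=
      h3.eventually (Metric.ball_mem_nhds _ (half_pos hε))
    obtain ⟨j, hj1, hj2⟩ := (h5.and (hφ.tendsto_atTop.eventually_ge_atTop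
      (n0 + c.natAbs))).exists
    have h6 : 0 ≤ ((φ j : ℕ) : ℤ) + c := by omega
    obtain ⟨z, hz, hz2⟩ := hback w ⟨s, hs⟩ (k * (((φ j : ℕ) : ℤ) + c).toNat)
    have h7 : (Q.F⁻¹ ^ (k * (((φ j : ℕ) : ℤ) + c).toNat)) w =
        (Q.F ^ ((k : ℤ) * (-((φ j : ℕ) : ℤ)))) x := by
      rw [← P71a_neg, hxw, ← Equiv.Perm.mul_apply, ← zpow_add, Nat.cast_mul,
        Int.toNat_of_nonneg h6]
      congr 2
      ring
    rw [h7] at hz2
    have h8 : n0 ≤ k * (((φ j : ℕ) : ℤ) + c).toNat := by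
      have h9 : n0 ≤ (((φ j : ℕ) : ℤ) + c).toNat := by omega
      exact h9.trans (Nat.le_mul_of_pos_left _ hk)
    have h10 := hn0 _ h8
    refine ⟨z, hz, ?_⟩
    calc dist (h z') z ≤ dist (h z') ((Q.F ^ ((k : ℤ) * (-((φ j : ℕ) : ℤ)))) x) +
          dist ((Q.F ^ ((k : ℤ) * (-((φ j : ℕ) : ℤ)))) x) z := dist_triangle _ _ _
      _ < ε / 2 + ε / 2 := by
          rw [dist_comm (h z')]
          linarith
      _ = ε := add_halves ε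
  exact clSad_not_int_p Q h4 (hΩ.sub (hm h hh hz'))

theorem LL_compact (Q : QS) (h5 : Q.H5) (hV : interior Q.Km = ∅) {k : ℕ} (hk : 0 < k)
    {Ω : Set E} (hΩ : Q.IsComp Ω) (hF : (⇑(Q.F ^ k)) '' Ω = Ω)
    (hm : ∀ g ∈ Q.Lim k Ω, MapsTo g Ω Ω) :
    IsCompact {y | ∃ g ∈ Q.Lim k Ω, ∃ x ∈ Ω, g x = y} := by
  obtain ⟨κ, Λ, hg⟩ := growth Q
  obtain ⟨N, hN⟩ := pow_unbounded_of_one_lt Λ hg.one_lt
  have hΛ : 0 < Λ := lt_of_lt_of_le (lt_trans zero_lt_one hg.one_lt) hg.le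
  have h1 := P71a_image Q hk hΩ (P71a_Kq Q h5 hΛ N k hΩ) fun x hx => hx.1
  have h2 : {y | ∃ g ∈ Q.Lim k Ω, ∃ x ∈ Ω, g x = y} = {y | ∃ g ∈ Q.Lim k Ω,
      ∃ x ∈ {x | x ∈ Ω ∧ ∃ s : ℕ, s < k ∧ (Q.F ^ s) x ∈ Q.Kc Λ N}, g x = y} := by
    ext y
    constructor
    · rintro ⟨g, hgL, x, hx, rfl⟩
      obtain ⟨g2, hg2, w, hw, hgw⟩ := P71a_main Q h5 hV hk hΩ hF hm hg hN.le hgL hx
      exact ⟨g2, hg2, w, hw, hgw⟩
    · rintro ⟨g, hgL, x, hx, rfl⟩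
      exact ⟨g, hgL, x, hx.1, rfl⟩
  rw [h2]
  exact h1

end Pool.Agent.HQ
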