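import Pool.Agent.HQ.Defs
import Pool.Agent.HQ.DHb

/-!
# HQ module P71b: maximum principle for a family with compact total image
-/

set_option autoImplicit false

open Filter Topology Set Metric

namespace Pool.Agent.HQ

theorem P71b_fst {W : Set E} {g : E → E} (hg : DH W g) : DH W (fun x => (g x).1) :=
  ⟨continuous_fst.comp_continuousOn hg.1, fun γ D hD hγ hm =>
    differentiable_fst.comp_differentiableOn (hg.2 γ D hD hγ hm)⟩

theorem P71b_snd {W : Set E} {g : E → E} (hg : DH W g) : DH W (fun x => (g x).2) :=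
  ⟨continuous_snd.comp_continuousOn hg.1, fun γ D hD hγ hm =>
    differentiable_snd.comp_differentiableOn (hg.2 γ D hD hγ hm)⟩

theorem const_of_compact {Ω : Set E} (hO : IsOpen Ω) (hc : IsPreconnected Ω)
    (hne : Ω.Nonempty) {L : Set (E → E)} (hL : ∀ g ∈ L, DH Ω g) (hLne : L.Nonempty)
    (hK : IsCompact {y | ∃ g ∈ L, ∃ x ∈ Ω, g x = y}) :
    ∃ g ∈ L, ∃ c, ∀ x ∈ Ω, g x = c := by
  set T : Set E := {y | ∃ g ∈ L, ∃ x ∈ Ω, g x = y} with hT
  have hTne : T.Nonempty := by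
    obtain ⟨x, hx⟩ := hne
    obtain ⟨g, hg⟩ := hLne
    exact ⟨g x, g, hg, x, hx, rfl⟩
  obtain ⟨y1, hy1, hmax1⟩ := hK.exists_isMaxOn hTne
    (f := fun y : E => ‖y.1‖) (continuous_fst.norm.continuousOn)
  have hT1 : IsCompact (T ∩ {y : E | ‖y.1‖ = ‖y1.1‖}) :=
    hK.inter_right (isClosed_eq continuous_fst.norm continuous_const)
  obtain ⟨y0, hy0, hmax0⟩ := hT1.exists_isMaxOn ⟨y1, hy1, rfl⟩
    (f := fun y : E => ‖y.2‖) (continuous_snd.norm.continuousOn)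
  obtain ⟨⟨g, hg, x0, hx0, rfl⟩, hn0⟩ := hy0
  have hn : ‖(g x0).1‖ = ‖y1.1‖ := hn0
  have hin : ∀ x ∈ Ω, g x ∈ T := fun x hx => ⟨g, hg, x, hx, rfl⟩
  have h1 : ∀ x ∈ Ω, (g x).1 = (g x0).1 := by
    refine dh_max hO hc (P71b_fst (hL g hg)) hx0 ?_
    intro x hx
    rw [hn]
    exact hmax1 (hin x hx)
  have h2 : ∀ x ∈ Ω, (g x).2 = (g x0).2 := by
    refine dh_max hO hc (P71b_snd (hL g hg)) hx0 ?_
    intro x hx
    have hm : g x ∈ T ∩ {y : E | ‖y.1‖ = ‖y1.1‖} := by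
      refine ⟨hin x hx, ?_⟩
      show ‖(g x).1‖ = ‖y1.1‖
      rw [h1 x hx, hn]
    exact hmax0 hm
  exact ⟨g, hg, g x0, fun x hx => Prod.ext (h1 x hx) (h2 x hx)⟩

end Pool.Agent.HQ
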