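import Pool.Agent.HQ.Defs
import Pool.Agent.HQ.Bas
import Pool.Agent.HQ.Cmp
import Pool.Agent.HQ.Lm50
import Pool.Agent.HQ.S51
import Pool.Agent.HQ.R53
import Pool.Agent.HQ.P71a
import Pool.Agent.HQ.P71b

/-!
# HQ module P71: periodic components are basins (case V1)
-/

set_option autoImplicit false

open Filter Topology Set Metric

namespace Pool.Agent.HQ

theorem per_sink (Q : QS) (h5 : Q.H5) (hV : interior Q.Km = ∅) {k : ℕ} (hk : 0 < k)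
    {Ω : Set E} (hΩ : Q.IsComp Ω) (hF : (⇑(Q.F ^ k)) '' Ω = Ω) :
    ∃ c ∈ Ω, c ∈ Snk Q.F ∧ (Q.F ^ k) c = c ∧
      ∀ x ∈ Ω, Tendsto (fun n : ℕ => (Q.F ^ (k * n)) x) atTop (𝓝 c) := by
  by_cases hns : ∃ g ∈ Q.Lim k Ω, ∃ c ∈ interior Q.Kp, ∀ x ∈ Ω, g x = c
  · obtain ⟨g, hg, c, hc, hgc⟩ := hns
    exact ⟨c, sink_of_const Q.toSys hk hΩ hF hg hgc hc⟩
  · exfalso
    obtain ⟨h1, -⟩ := retr Q h5 hk hΩ hF hns
    obtain ⟨φ, -, g0, hg0, -⟩ := Lim_sub Q.toSys k hΩ (m := fun n => n) tendsto_id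
    obtain ⟨g, hg, c, hgc⟩ := const_of_compact (Sys.IsComp.isOpen hΩ) (Sys.IsComp.conn hΩ)
      (Sys.IsComp.nonempty hΩ) (L := Q.Lim k Ω) (fun g hg => Lim_dh hΩ hg) ⟨g0, hg0⟩
      (LL_compact Q h5 hV hk hΩ hF fun g hg => (h1 g hg).1)
    obtain ⟨-, x, hx, y, hy, hxy⟩ := h1 g hg
    exact hxy ((hgc x hx).trans (hgc y hy).symm)

end Pool.Agent.HQ
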