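import Pool.Agent.HQ.Defs
import Pool.Agent.HQ.Bas
import Pool.Agent.HQ.Mont
import Pool.Agent.HQ.Lines

/-!
# HQ module Z84: second zoom
-/

set_option autoImplicit false

open Filter Topology Set Metric

namespace Pool.Agent.HQ

/-- the largest radius at most one where a continuous function is at most `ε` -/
theorem Z84_rad {h : ℂ → ℝ} (hc : Continuous h) (h0 : h 0 = 0) {ε : ℝ} (hε : 0 < ε) :
    ∃ ρ : ℝ, 0 < ρ ∧ ρ ≤ 1 ∧ (∀ t, ‖t‖ ≤ ρ → h t ≤ ε) ∧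
      (ρ < 1 → ∃ t, ‖t‖ ≤ ρ ∧ h t = ε) := by
  let A : Set ℝ := {r | 0 ≤ r ∧ r ≤ 1 ∧ ∀ t, ‖t‖ ≤ r → h t ≤ ε}
  have hA1 : BddAbove A := ⟨1, fun r hr => hr.2.1⟩
  obtain ⟨δ, hδ, hδ'⟩ : ∃ δ > 0, ∀ t, ‖t‖ < δ → h t < ε := by
    have h1 : ∀ᶠ t in 𝓝 (0 : ℂ), h t < ε := by
      refine (hc.tendsto 0).eventually (gt_mem_nhds ?_)
      rw [h0]
      exact hε
    obtain ⟨δ, hδ, h2⟩ := Metric.eventually_nhds_iff.1 h1
    exact ⟨δ, hδ, fun t ht => h2 (by rwa [dist_zero_right])⟩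
  have hm : min (δ / 2) 1 ∈ A := by
    refine ⟨le_min (by positivity) zero_le_one, min_le_right _ _, fun t ht => ?_⟩
    exact (hδ' t (lt_of_le_of_lt (ht.trans (min_le_left _ _)) (by linarith))).le
  have hpos : 0 < sSup A :=
    lt_of_lt_of_le (lt_min (by positivity) zero_lt_one) (le_csSup hA1 hm)
  have hle1 : sSup A ≤ 1 := csSup_le ⟨_, hm⟩ fun r hr => hr.2.1
  have hlt : ∀ t ∈ ball (0 : ℂ) (sSup A), h t ≤ ε := by
    intro t ht
    rw [mem_ball_zero_iff] at ht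
    obtain ⟨r, hr, h1⟩ := exists_lt_of_lt_csSup ⟨_, hm⟩ ht
    exact hr.2.2 t h1.le
  have hle : ∀ t, ‖t‖ ≤ sSup A → h t ≤ ε := by
    intro t ht
    have h1 : closure (ball (0 : ℂ) (sSup A)) ⊆ {t | h t ≤ ε} :=
      closure_minimal hlt (isClosed_le hc continuous_const)
    rw [closure_ball _ hpos.ne'] at h1
    exact h1 (mem_closedBall_zero_iff.2 ht)
  refine ⟨sSup A, hpos, hle1, hle, fun hlt1 => ?_⟩
  by_contra hcon
  push Not at hcon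
  have h1 : closedBall (0 : ℂ) (sSup A) ⊆ {t | h t < ε} := fun t ht =>
    lt_of_le_of_ne (hle t (mem_closedBall_zero_iff.1 ht)) (hcon t (mem_closedBall_zero_iff.1 ht))
  obtain ⟨η, hη, h2⟩ := (isCompact_closedBall (0 : ℂ) (sSup A)).exists_cthickening_subset_open
    (isOpen_lt hc continuous_const) h1
  rw [cthickening_closedBall hη.le hpos.le] at h2
  have h3 : min (η + sSup A) 1 ∈ A := by
    refine ⟨le_min (by positivity) zero_le_one, min_le_right _ _, fun t ht => ?_⟩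
    have h4 : h t < ε := h2 (mem_closedBall_zero_iff.2 (ht.trans (min_le_left _ _)))
    exact h4.le
  have h4 := le_csSup hA1 h3
  rcases min_le_iff.1 h4 with h5 | h5
  · linarith
  · linarith

theorem Z84_radii {h : ℂ → ℝ} (hc : Continuous h) (h0 : h 0 = 0)
    (hnf : ∀ r > 0, ∃ t ∈ ball (0 : ℂ) r, 0 < h t) {d : ℝ} (hd : 1 < d) :
    ∃ ρ : ℕ → ℝ, (∀ n, 0 < ρ n) ∧ (∀ n, ρ n ≤ 1) ∧ (∀ n t, ‖t‖ ≤ ρ n → h t ≤ (d ^ n)⁻¹) ∧
      (∀ n, ρ n < 1 → ∃ t, ‖t‖ ≤ ρ n ∧ h t = (d ^ n)⁻¹) ∧ Tendsto ρ atTop (𝓝 0) := by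
  have hd0 : 0 < d := lt_trans zero_lt_one hd
  choose ρ h1 h2 h3 h4 using fun n : ℕ =>
    Z84_rad hc h0 (ε := (d ^ n)⁻¹) (inv_pos.2 (pow_pos hd0 n))
  refine ⟨ρ, h1, h2, h3, h4, ?_⟩
  rw [Metric.tendsto_nhds]
  intro ε hε
  obtain ⟨t, ht, hpos⟩ := hnf ε hε
  have h5 : Tendsto (fun n : ℕ => (d ^ n)⁻¹) atTop (𝓝 0) :=
    tendsto_inv_atTop_zero.comp (tendsto_pow_atTop_atTop_of_one_lt hd)
  filter_upwards [h5.eventually (gt_mem_nhds hpos)] with n hn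
  rw [dist_zero_right, Real.norm_eq_abs, abs_of_pos (h1 n)]
  rw [mem_ball_zero_iff] at ht
  by_contra hcon
  push Not at hcon
  exact absurd (h3 n t (ht.le.trans hcon)) (not_le.2 hn)

/-- infinitely many good steps -/
theorem Z84_ratio {ρ : ℕ → ℝ} (hρ : ∀ n, 0 < ρ n) {θ θ' K : ℝ} (hθ : 0 < θ) (hθθ' : θ < θ')
    (hθ' : θ' < 1) {n : ℕ → ℕ} (hn : StrictMono n) (hK : ∀ j, ρ (n j) ≤ K * θ ^ n j) (N : ℕ) :
    ∃ k, N ≤ k ∧ ρ (k + 1) ≤ θ' * ρ k := by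
  by_contra hcon
  push Not at hcon
  have hθ0 : 0 < θ' := hθ.trans hθθ'
  have h1 : ∀ k, θ' ^ k * ρ N ≤ ρ (N + k) := by
    intro k
    induction k with
    | zero => simp
    | succ k ih =>
      have h2 := hcon (N + k) (Nat.le_add_right _ _)
      rw [pow_succ', mul_assoc]
      calc θ' * (θ' ^ k * ρ N) ≤ θ' * ρ (N + k) := mul_le_mul_of_nonneg_left ih hθ0.le
        _ ≤ ρ (N + k + 1) := h2.le
        _ = ρ (N + (k + 1)) := by rw [add_assoc]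
  have h2 : ∀ j, N ≤ n j → (θ' / θ) ^ n j * ρ N ≤ K := by
    intro j hj
    have h3 := h1 (n j - N)
    rw [Nat.add_sub_cancel' hj] at h3
    have h4 : θ' ^ n j ≤ θ' ^ (n j - N) :=
      pow_le_pow_of_le_one hθ0.le hθ'.le (Nat.sub_le _ _)
    have h5 : θ' ^ n j * ρ N ≤ K * θ ^ n j :=
      (mul_le_mul_of_nonneg_right h4 (hρ N).le).trans (h3.trans (hK j))
    rw [div_pow, div_mul_eq_mul_div, div_le_iff₀ (pow_pos hθ _)]
    exact h5
  have h3 : Tendsto (fun j => (θ' / θ) ^ n j * ρ N) atTop atTop :=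
    Tendsto.atTop_mul_const (hρ N) ((tendsto_pow_atTop_atTop_of_one_lt
      ((one_lt_div hθ).2 hθθ')).comp hn.tendsto_atTop)
  obtain ⟨j, h4, h5⟩ := ((h3.eventually (eventually_gt_atTop K)).and
    (hn.tendsto_atTop.eventually (eventually_ge_atTop N))).exists
  exact absurd (h2 j h5) (not_le.2 h4)

theorem zoom2 (S : Sys) {b v : E} (hb : S.P b = 0)
    (hnf : ∀ r > 0, ∃ t ∈ ball (0 : ℂ) r, 0 < S.P (b + t • v)) {c₃ : ℝ} (hc₃ : 0 < c₃)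
    {n : ℕ → ℕ} (hn : StrictMono n) {t : ℕ → ℂ} {C θ : ℝ} (hθ0 : 0 < θ) (hθ1 : θ < 1)
    (ht : ∀ j, ‖t j‖ ≤ C * θ ^ n j)
    (hsep : ∀ j, c₃ ≤ ‖(S.F ^ n j) (b + t j • v) - (S.F ^ n j) b‖) :
    ∃ (m : ℕ → ℕ) (r : ℕ → ℝ) (g : ℂ → E), StrictMono m ∧ (∀ j, 0 < r j) ∧
      Tendsto r atTop (𝓝 0) ∧ DifferentiableOn ℂ g (ball 0 1) ∧
      TendstoLocallyUniformlyOn
        (fun j (s : ℂ) => (S.F ^ m j) (b + ((r j : ℂ) * s) • v)) g atTop (ball 0 1) ∧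
      (∀ s ∈ ball (0 : ℂ) 1, S.M (g s) = 0) ∧ ∃ s ∈ ball (0 : ℂ) 1, 0 < S.P (g s) := by
  have hTd : Differentiable ℂ (fun t : ℂ => b + t • v) := by fun_prop
  have hhc : Continuous (fun t : ℂ => S.P (b + t • v)) := S.cP.comp hTd.continuous
  obtain ⟨ρ, hρ0, hρ1, hρP, hρe, hρlim⟩ := Z84_radii hhc
    (by rw [zero_smul, add_zero]; exact hb) hnf S.hd
  have hd0 := S.d_pos
  -- the bound for `M`
  obtain ⟨A, hA⟩ : ∃ A : ℝ, ∀ t : ℂ, ‖t‖ ≤ 1 → S.M (b + t • v) ≤ A := by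
    obtain ⟨A, hA⟩ := (isCompact_closedBall (0 : ℂ) 1).bddAbove_image
      (f := fun t : ℂ => S.M (b + t • v)) (S.cM.comp hTd.continuous).continuousOn
    exact ⟨A, fun t ht => hA ⟨t, mem_closedBall_zero_iff.2 ht, rfl⟩⟩
  have hMn : ∀ (k : ℕ) (t : ℂ), ‖t‖ ≤ 1 → S.M ((S.F ^ k) (b + t • v)) ≤ A := by
    intro k t ht
    rw [S.M_pow]
    have h3 : (S.d ^ k)⁻¹ ≤ 1 := inv_le_one_of_one_le₀ (one_le_pow₀ S.hd.le)
    calc (S.d ^ k)⁻¹ * S.M (b + t • v) ≤ 1 * S.M (b + t • v) :=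
          mul_le_mul_of_nonneg_right h3 (S.M0 _)
      _ = S.M (b + t • v) := one_mul _
      _ ≤ A := hA t ht
  obtain ⟨R, hR⟩ := S.sub_bdd (max S.d A)
  have hbd : ∀ (k : ℕ) (t : ℂ), ‖t‖ ≤ ρ k → ‖(S.F ^ k) (b + t • v)‖ ≤ R := by
    intro k t ht
    refine hR _ ?_ ((hMn k t (ht.trans (hρ1 k))).trans (le_max_right _ _))
    rw [S.P_pow]
    have h1 := hρP k t ht
    have h2 : S.d ^ k * S.P (b + t • v) ≤ S.d ^ k * (S.d ^ k)⁻¹ :=
      mul_le_mul_of_nonneg_left h1 (pow_nonneg hd0.le k)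
    rw [mul_inv_cancel₀ (pow_ne_zero _ hd0.ne')] at h2
    exact h2.trans (S.hd.le.trans (le_max_left _ _))
  have hbd' : ∀ (k : ℕ) (t : ℂ), ‖t‖ ≤ ρ k → ‖(S.F ^ (k + 1)) (b + t • v)‖ ≤ R := by
    intro k t ht
    refine hR _ ?_ ((hMn (k + 1) t (ht.trans (hρ1 k))).trans (le_max_right _ _))
    rw [S.P_pow]
    have h1 := hρP k t ht
    have h2 : S.d ^ (k + 1) * S.P (b + t • v) ≤ S.d ^ (k + 1) * (S.d ^ k)⁻¹ :=
      mul_le_mul_of_nonneg_left h1 (pow_nonneg hd0.le _)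
    have h3 : S.d ^ (k + 1) * (S.d ^ k)⁻¹ = S.d := by
      rw [pow_succ', mul_assoc, mul_inv_cancel₀ (pow_ne_zero _ hd0.ne'), mul_one]
    rw [h3] at h2
    exact h2.trans (le_max_left _ _)
  have hR0 : 0 ≤ R := (norm_nonneg _).trans (hbd 0 0 (by rw [norm_zero]; exact (hρ0 0).le))
  -- the radii along `n`
  have hK : ∀ j, ρ (n j) ≤ (max (8 * R / c₃) 2 * C) * θ ^ n j := by
    intro j
    have h1 : ρ (n j) ≤ max (8 * R / c₃) 2 * ‖t j‖ := by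
      by_cases h2 : ‖t j‖ < ρ (n j) / 2
      · have h3 := lip_of_bdd_disc (x := 0) (r := ρ (n j)) (R := R) (hρ0 _)
          (g := fun t : ℂ => (S.F ^ n j) (b + t • v))
          ((S.diff_pow (n j)).comp hTd).differentiableOn
          (fun y hy => hbd _ _ (mem_ball_zero_iff.1 hy).le) (t j) (mem_ball_zero_iff.2 h2) 0
          (mem_ball_zero_iff.2 (by rw [norm_zero]; exact half_pos (hρ0 _)))
        rw [zero_smul, add_zero, sub_zero] at h3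
        have h4 := (hsep j).trans h3
        have h5 : ρ (n j) ≤ 8 * R / c₃ * ‖t j‖ := by
          rw [div_mul_eq_mul_div, le_div_iff₀ (hρ0 (n j))] at h4
          rw [div_mul_eq_mul_div, le_div_iff₀ hc₃]
          linarith
        exact h5.trans (mul_le_mul_of_nonneg_right (le_max_left _ _) (norm_nonneg _))
      · push Not at h2
        have h3 : ρ (n j) ≤ 2 * ‖t j‖ := by linarith
        exact h3.trans (mul_le_mul_of_nonneg_right (le_max_right _ _) (norm_nonneg _))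
    refine h1.trans ?_
    rw [mul_assoc]
    exact mul_le_mul_of_nonneg_left (ht j) (le_trans (by norm_num) (le_max_right _ _))
  obtain ⟨θ', hθ'1, hθ'2⟩ := exists_between hθ1
  have hgood : ∀ N, ∃ k, N ≤ k ∧ ρ (k + 1) ≤ θ' * ρ k :=
    Z84_ratio hρ0 hθ0 hθ'1 hθ'2 hn hK
  obtain ⟨m0, hm0, hm0'⟩ := Filter.extraction_of_frequently_atTop
    (P := fun k => ρ (k + 1) ≤ θ' * ρ k) (Filter.frequently_atTop.2 fun N => by
      obtain ⟨k, h1, h2⟩ := hgood N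
      exact ⟨k, h1, h2⟩)
  have hθ'0 : 0 < θ' := hθ0.trans hθ'1
  -- the zoomed maps
  have hdf : ∀ j, DifferentiableOn ℂ
      (fun s : ℂ => (S.F ^ (m0 j + 1)) (b + ((ρ (m0 j) : ℂ) * s) • v)) (ball 0 1) := by
    intro j
    refine Differentiable.differentiableOn ?_
    refine (S.diff_pow (m0 j + 1)).comp ?_
    fun_prop
  have hin : ∀ (k : ℕ) (s : ℂ), ‖s‖ ≤ 1 → ‖(ρ k : ℂ) * s‖ ≤ ρ k := by
    intro k s hs
    rw [norm_mul, Complex.norm_real, Real.norm_eq_abs, abs_of_pos (hρ0 k)]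
    exact mul_le_of_le_one_right (hρ0 k).le hs
  obtain ⟨φ, hφ, g, hg, hlim⟩ := montel isOpen_ball _ hdf (fun z _ => ⟨1, one_pos, R,
    fun j w _ hw => hbd' _ _ (hin _ _ (mem_ball_zero_iff.1 hw).le)⟩)
  have hmφ : StrictMono fun j => m0 (φ j) + 1 := fun i j hij =>
    Nat.add_lt_add_right (hm0 (hφ hij)) 1
  -- the points where `P = 1`
  have hpt : ∀ j, ∃ s : ℂ, ‖s‖ ≤ θ' ∧
      S.P ((S.F ^ (m0 (φ j) + 1)) (b + ((ρ (m0 (φ j)) : ℂ) * s) • v)) = 1 := by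
    intro j
    have h1 : ρ (m0 (φ j) + 1) ≤ θ' * ρ (m0 (φ j)) := hm0' (φ j)
    have h2 : ρ (m0 (φ j) + 1) < 1 := by
      have := hρ1 (m0 (φ j))
      nlinarith
    obtain ⟨t', h3, h4⟩ := hρe _ h2
    have h5 : (ρ (m0 (φ j)) : ℂ) ≠ 0 := Complex.ofReal_ne_zero.2 (hρ0 _).ne'
    refine ⟨t' / (ρ (m0 (φ j)) : ℂ), ?_, ?_⟩
    · rw [norm_div, Complex.norm_real, Real.norm_eq_abs, abs_of_pos (hρ0 _),
        div_le_iff₀ (hρ0 _)]
      exact h3.trans h1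
    · rw [mul_div_cancel₀ _ h5, S.P_pow, h4, mul_inv_cancel₀ (pow_ne_zero _ hd0.ne')]
  choose s hs hs' using hpt
  obtain ⟨s0, hs0, ψ, hψ, hslim⟩ := (isCompact_closedBall (0 : ℂ) θ').tendsto_subseq
    (fun j => mem_closedBall_zero_iff.2 (hs j))
  have hs0' : s0 ∈ ball (0 : ℂ) 1 :=
    mem_ball_zero_iff.2 (lt_of_le_of_lt (mem_closedBall_zero_iff.1 hs0) hθ'2)
  refine ⟨fun j => m0 (φ j) + 1, fun j => ρ (m0 (φ j)), g, hmφ, fun j => hρ0 _,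
    hρlim.comp (hm0.tendsto_atTop.comp hφ.tendsto_atTop), hg, hlim, fun z hz => ?_,
    s0, hs0', ?_⟩
  · refine S.M_lim (x := fun j => b + ((ρ (m0 (φ j)) : ℂ) * z) • v) (n := fun j => m0 (φ j) + 1)
      hmφ.tendsto_atTop (c := A) (fun j => ?_) ?_
    · exact hA _ ((hin _ _ (mem_ball_zero_iff.1 hz).le).trans (hρ1 _))
    · exact hlim.tendsto_at hz
  · have h1 : Tendsto (fun j => (S.F ^ (m0 (φ (ψ j)) + 1))
        (b + ((ρ (m0 (φ (ψ j))) : ℂ) * s (ψ j)) • v)) atTop (𝓝 (g s0)) := by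
      have h2 : TendstoLocallyUniformlyOn (fun j (z : ℂ) => (S.F ^ (m0 (φ (ψ j)) + 1))
          (b + ((ρ (m0 (φ (ψ j))) : ℂ) * z) • v)) g atTop (ball 0 1) := by
        intro u hu x hx
        obtain ⟨w, hw, h3⟩ := hlim u hu x hx
        exact ⟨w, hw, hψ.tendsto_atTop.eventually h3⟩
      refine h2.tendsto_comp (hg.continuousOn s0 hs0') hs0' ?_
      rw [isOpen_ball.nhdsWithin_eq hs0']
      exact hslim
    have h2 : Tendsto (fun j => S.P ((S.F ^ (m0 (φ (ψ j)) + 1))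
        (b + ((ρ (m0 (φ (ψ j))) : ℂ) * s (ψ j)) • v))) atTop (𝓝 (S.P (g s0))) :=
      (S.cP.tendsto _).comp h1
    simp only [hs'] at h2
    rw [tendsto_nhds_unique h2 tendsto_const_nhds]
    exact one_pos

end Pool.Agent.HQ
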