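import Pool.Agent.HQ.Defs
import Pool.Agent.HQ.Bas
import Pool.Agent.HQ.Cmp
import Pool.Agent.HQ.C27
import Pool.Agent.HQ.N83
import Pool.Agent.HQ.O82
import Pool.Agent.HQ.FP84
import Pool.Agent.HQ.Z84
import Pool.Agent.HQ.Surj

/-!
# HQ module Z86: all components are attracted to a limit component
-/

set_option autoImplicit false

open Filter Topology Set Metric

namespace Pool.Agent.HQ

/-- small multiples of a point of the right half plane lie in the tangent disc -/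
theorem Z86_tangent {ρ : ℝ} (hρ : 0 < ρ) {s : ℂ} (hs : 0 < s.re) {r : ℕ → ℝ}
    (hr : ∀ j, 0 < r j) (hr0 : Tendsto r atTop (𝓝 0)) :
    ∀ᶠ j in atTop, (r j : ℂ) * s ∈ ball (ρ : ℂ) ρ := by
  have hsn : 0 < Complex.normSq s := by
    apply Complex.normSq_pos.2
    rintro rfl
    simp at hs
  have hb : 0 < 2 * ρ * s.re / Complex.normSq s := by positivity
  filter_upwards [hr0.eventually (gt_mem_nhds hb)] with j hj
  rw [lt_div_iff₀ hsn] at hj
  rw [mem_ball, dist_eq_norm]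
  have h1 : ‖(r j : ℂ) * s - ρ‖ ^ 2 < ρ ^ 2 := by
    rw [← Complex.normSq_eq_norm_sq]
    have h2 : Complex.normSq ((r j : ℂ) * s - ρ) =
        r j * (r j * Complex.normSq s) - r j * (2 * ρ * s.re) + ρ ^ 2 := by
      rw [Complex.normSq_apply, Complex.normSq_apply]
      simp
      ring
    rw [h2]
    have h3 := mul_lt_mul_of_pos_left hj (hr j)
    linarith
  exact lt_of_pow_lt_pow_left₀ 2 hρ.le h1

theorem comp_limit (Q : QS) (h5 : Q.H5) {Ω : Set E} (hΩ : Q.IsComp Ω) :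
    ∃ (g : ℂ → E) (m : ℕ → ℕ) (Ω' : Set E), StrictMono m ∧ DifferentiableOn ℂ g (ball 0 1) ∧
      (∀ s ∈ ball (0 : ℂ) 1, Q.M (g s) = 0) ∧ g 0 ∈ closure (Sad Q.F) ∧
      (∃ s ∈ ball (0 : ℂ) 1, 0 < Q.P (g s)) ∧
      (∀ s ∈ ball (0 : ℂ) 1, 0 < s.re → g s ∈ interior Q.Kp) ∧
      Q.IsComp Ω' ∧ g (1 / 2) ∈ Ω' ∧ ∀ j, (⇑(Q.F ^ m j)) '' Ω = Ω' := by
  obtain ⟨b, v, ρ, hρ, hbP, hbi, htan⟩ := hΩ.tangent
  have hint : ∀ t ∈ ball (ρ : ℂ) ρ, b + t • v ∈ interior Q.Kp := fun t ht => hΩ.sub (htan t ht)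
  obtain ⟨σ, hσ, v₀, hb⟩ := on_curve Q h5 hbP hbi
  obtain ⟨c₃, hc₃, n, t, C, θ, hn, hθ0, hθ1, ht, hsep⟩ := fast_points Q h5 hρ hbP hbi hint
  obtain ⟨m, r, g, hm, hr, hr0, hgd, hlu, hgM, s₁, hs₁, hgP⟩ := zoom2 Q.toSys hbP
    (fun r hr => not_flat Q hσ hb hρ hint hr) hc₃ hn hθ0 hθ1 ht hsep
  have hpt : ∀ s ∈ ball (0 : ℂ) 1,
      Tendsto (fun j => (Q.F ^ m j) (b + ((r j : ℂ) * s) • v)) atTop (𝓝 (g s)) :=
    fun s hs => hlu.tendsto_at hs
  have h0 : (0 : ℂ) ∈ ball (0 : ℂ) 1 := mem_ball_self one_pos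
  have hpt0 : Tendsto (fun j => (Q.F ^ m j) b) atTop (𝓝 (g 0)) := by
    have := hpt 0 h0
    simpa using this
  have hP0 : Q.P (g 0) = 0 := by
    have h1 : Tendsto (fun j => Q.P ((Q.F ^ m j) b)) atTop (𝓝 (Q.P (g 0))) :=
      (Q.cP.tendsto _).comp hpt0
    have h2 : (fun j => Q.P ((Q.F ^ m j) b)) = fun _ => (0 : ℝ) := by
      funext j
      rw [Q.P_pow, hbP, mul_zero]
    rw [h2] at h1
    exact (tendsto_nhds_unique h1 tendsto_const_nhds)
  have hgi : g 0 ∉ interior Q.Kp := by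
    intro h
    obtain ⟨j, hj⟩ := (hpt0.eventually (isOpen_interior.mem_nhds h)).exists
    have h3 := Q.mem_int_Kp (m j : ℤ) b
    rw [zpow_natCast] at h3
    exact hbi (h3.1 hj)
  have hg0 : g 0 ∈ closure (Sad Q.F) := h5 _ hP0 (hgM 0 h0) hgi
  -- the right half disc
  have hcomp : ∀ j, Q.IsComp ((⇑(Q.F ^ m j)) '' Ω) := by
    intro j
    have := hΩ.image (m j : ℤ)
    rwa [zpow_natCast] at this
  have hev : ∀ s : ℂ, 0 < s.re → ∀ᶠ j in atTop,
      (Q.F ^ m j) (b + ((r j : ℂ) * s) • v) ∈ (⇑(Q.F ^ m j)) '' Ω := by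
    intro s hs
    filter_upwards [Z86_tangent hρ hs hr hr0] with j hj
    exact ⟨_, htan _ hj, rfl⟩
  have hPz : ∀ s ∈ ball (0 : ℂ) 1, 0 < s.re → Q.P (g s) = 0 := by
    intro s hs hre
    have h1 : g s ∈ closure Q.Kp := by
      refine mem_closure_of_tendsto (hpt s hs) ?_
      filter_upwards [hev s hre] with j hj
      exact interior_subset ((hcomp j).sub hj)
    rw [Q.isClosed_Kp.closure_eq] at h1
    exact h1
  set D : Set ℂ := ball (0 : ℂ) 1 ∩ {s | 0 < s.re} with hD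
  have hDo : IsOpen D := isOpen_ball.inter (isOpen_lt continuous_const Complex.continuous_re)
  have hDc : IsPreconnected D :=
    ((convex_ball (0 : ℂ) 1).inter (convex_halfSpace_re_gt 0)).isPreconnected
  have hhalf : (1 / 2 : ℂ) ∈ D := by
    refine ⟨?_, ?_⟩
    · rw [mem_ball_zero_iff]
      norm_num
    · change 0 < (1 / 2 : ℂ).re
      norm_num
  have hnc : ∃ s ∈ D, ∃ s' ∈ D, g s ≠ g s' := by
    by_contra hcon
    push Not at hcon
    have ha : AnalyticOnNhd ℂ g (ball 0 1) := hgd.analyticOnNhd isOpen_ball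
    have hc : AnalyticOnNhd ℂ (fun _ : ℂ => g (1 / 2)) (ball 0 1) := analyticOnNhd_const
    have heq : g =ᶠ[𝓝 (1 / 2 : ℂ)] fun _ => g (1 / 2) := by
      filter_upwards [hDo.mem_nhds hhalf] with z hz
      exact hcon z hz _ hhalf
    have hall := ha.eqOn_of_preconnected_of_eventuallyEq hc
      (convex_ball (0 : ℂ) 1).isPreconnected hhalf.1 heq
    have e1 := hall h0
    have e2 := hall hs₁
    rw [e2, ← e1, hP0] at hgP
    exact lt_irrefl _ hgP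
  have hgint : ∀ s ∈ D, g s ∈ interior Q.Kp :=
    discC Q h5 hDo hDc (hgd.mono inter_subset_left) (fun s hs => hPz s hs.1 hs.2)
      (fun s hs => hgM s hs.1) hnc
  obtain ⟨Ω', hΩ', hgΩ'⟩ := Sys.exists_comp (S := Q.toSys) (hgint _ hhalf)
  have hlarge : ∀ᶠ j in atTop, (⇑(Q.F ^ m j)) '' Ω = Ω' := by
    filter_upwards [hev (1 / 2) hhalf.2,
      (hpt (1 / 2) hhalf.1).eventually (hΩ'.isOpen.mem_nhds hgΩ')] with j h1 h2
    exact (hcomp j).eq_of_mem hΩ' h1 h2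
  obtain ⟨N, hN⟩ := eventually_atTop.1 hlarge
  refine ⟨g, fun j => m (j + N), Ω', ?_, hgd, hgM, hg0, ⟨s₁, hs₁, hgP⟩, ?_, hΩ', hgΩ', ?_⟩
  · intro a b' hab
    exact hm (Nat.add_lt_add_right hab N)
  · intro s hs hre
    exact hgint s ⟨hs, hre⟩
  · intro j
    exact hN _ (Nat.le_add_left _ _)

end Pool.Agent.HQ
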