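import Pool.Agent.HQ.Defs
import Pool.Agent.HQ.Bas
import Pool.Agent.HQ.Cmp
import Pool.Agent.HQ.DmB
import Pool.Agent.HQ.CF44
import Pool.Agent.HQ.P71
import Pool.Agent.HQ.Z86

/-!
# HQ module V1f: case V1: all components are periodic basins, finitely many
-/

set_option autoImplicit false

open Filter Topology Set Metric

namespace Pool.Agent.HQ

theorem V1f_img (F : Equiv.Perm E) (a b : ℤ) (Ω : Set E) :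
    (⇑(F ^ (a + b))) '' Ω = (⇑(F ^ a)) '' ((⇑(F ^ b)) '' Ω) := by
  rw [zpow_add, ← Set.image_comp]
  rfl

theorem V1f_per (F : Equiv.Perm E) {k : ℤ} {Ω : Set E} (h : (⇑(F ^ k)) '' Ω = Ω) (q : ℤ) :
    (⇑(F ^ (k * q))) '' Ω = Ω := by
  induction q using Int.induction_on with
  | zero => simp
  | succ i ih => rw [mul_add, mul_one, V1f_img, h, ih]
  | pred i ih =>
    have h1 : k * (-(i : ℤ)) = k * (-(i : ℤ) - 1) + k := by ring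
    rw [h1, V1f_img, h] at ih
    exact ih

theorem V1f_key (Q : QS) (h5 : Q.H5) (hV : interior Q.Km = ∅) {Ω : Set E} (hΩ : Q.IsComp Ω) :
    ∃ (Ω' : Set E) (m : ℕ), Q.IsComp Ω' ∧ (∃ p ∈ Sad Q.F, (Ω' ∩ Wu Q.F p).Nonempty) ∧
      (⇑(Q.F ^ m)) '' Ω = Ω' := by
  obtain ⟨g, m, Ω', -, -, hM, -, -, -, hΩ', hg, him⟩ := comp_limit Q h5 hΩ
  refine ⟨Ω', m 0, hΩ', ?_, him 0⟩
  have h1 : g (1 / 2) ∈ Q.Km := by
    apply hM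
    rw [mem_ball_zero_iff]
    norm_num
  have h2 := Dminus Q h5 hV h1
  obtain ⟨y, hy1, hy2⟩ := mem_closure_iff.1 h2 Ω' hΩ'.isOpen hg
  simp only [mem_iUnion] at hy2
  obtain ⟨p, hp, hyp⟩ := hy2
  exact ⟨p, hp, y, hy1, hyp⟩

theorem V1_final (Q : QS) (h5 : Q.H5) (hV : interior Q.Km = ∅) :
    {Ω : Set E | Q.IsComp Ω}.Finite ∧ ∀ Ω, Q.IsComp Ω → ∃ k : ℕ, 0 < k ∧ ∃ c ∈ Ω,
      c ∈ Snk Q.F ∧ (Q.F ^ k) c = c ∧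
      ∀ x ∈ Ω, Tendsto (fun n : ℕ => (Q.F ^ (k * n)) x) atTop (𝓝 c) := by
  have hfin := comp_fin Q h5
  have hper : ∀ Ω' ∈ {Ω : Set E | Q.IsComp Ω ∧ ∃ p ∈ Sad Q.F, (Ω ∩ Wu Q.F p).Nonempty},
      ∃ k : ℕ, 0 < k ∧ (⇑(Q.F ^ k)) '' Ω' = Ω' := by
    rintro Ω' ⟨h1, p, hp, hne⟩
    exact comp_per Q h5 h1 hp hne
  have hback : ∀ (Ω Ω' : Set E) (m : ℕ), (⇑(Q.F ^ m)) '' Ω = Ω' →
      Ω = (⇑(Q.F ^ (-(m : ℤ)))) '' Ω' := by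
    intro Ω Ω' m h
    have h0 := V1f_img Q.F (-(m : ℤ)) (m : ℤ) Ω
    rw [neg_add_cancel, zpow_zero, zpow_natCast, h] at h0
    rw [← h0]
    simp
  constructor
  · choose! k hk0 hk using hper
    have hbig : (⋃ Ω' ∈ {Ω : Set E | Q.IsComp Ω ∧ ∃ p ∈ Sad Q.F, (Ω ∩ Wu Q.F p).Nonempty},
        (fun j : ℕ => (⇑(Q.F ^ j)) '' Ω') '' (Set.Iio (k Ω'))).Finite :=
      hfin.biUnion fun Ω' _ => (Set.finite_Iio _).image _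
    refine hbig.subset ?_
    intro Ω hΩ
    obtain ⟨Ω', m, hΩ', hp, him⟩ := V1f_key Q h5 hV hΩ
    have hmem : Ω' ∈ {Ω : Set E | Q.IsComp Ω ∧ ∃ p ∈ Sad Q.F, (Ω ∩ Wu Q.F p).Nonempty} :=
      ⟨hΩ', hp⟩
    have h1 := hk0 Ω' hmem
    have h2 := hk Ω' hmem
    simp only [mem_iUnion]
    refine ⟨Ω', hmem, ((-(m : ℤ)) % (k Ω' : ℤ)).toNat, ?_, ?_⟩
    · rw [Set.mem_Iio]
      have h3 := Int.emod_lt_of_pos (-(m : ℤ)) (show (0 : ℤ) < k Ω' by exact_mod_cast h1)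
      have h4 := Int.emod_nonneg (-(m : ℤ)) (show (k Ω' : ℤ) ≠ 0 by exact_mod_cast h1.ne')
      omega
    · change (⇑(Q.F ^ ((-(m : ℤ)) % (k Ω' : ℤ)).toNat)) '' Ω' = Ω
      have h4 := Int.emod_nonneg (-(m : ℤ)) (show (k Ω' : ℤ) ≠ 0 by exact_mod_cast h1.ne')
      rw [hback Ω Ω' m him]
      have h5 : (-(m : ℤ)) = (-(m : ℤ)) % (k Ω' : ℤ) + (k Ω' : ℤ) * ((-(m : ℤ)) / (k Ω' : ℤ)) :=
        (Int.emod_add_mul_ediv _ _).symm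
      have h2' : (⇑(Q.F ^ ((k Ω' : ℕ) : ℤ))) '' Ω' = Ω' := by rw [zpow_natCast]; exact h2
      have h6 : (⇑(Q.F ^ (-(m : ℤ)))) '' Ω' = (⇑(Q.F ^ ((-(m : ℤ)) % (k Ω' : ℤ)))) '' Ω' := by
        conv_lhs => rw [h5, V1f_img, V1f_per Q.F h2']
      rw [h6, ← zpow_natCast, Int.toNat_of_nonneg h4]
  · intro Ω hΩ
    obtain ⟨Ω', m, hΩ', hp, him⟩ := V1f_key Q h5 hV hΩ
    obtain ⟨k, hk0, hk⟩ := hper Ω' ⟨hΩ', hp⟩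
    refine ⟨k, hk0, per_sink Q h5 hV hk0 hΩ ?_⟩
    rw [hback Ω Ω' m him]
    have h1 := V1f_img Q.F (k : ℤ) (-(m : ℤ)) Ω'
    have h2 := V1f_img Q.F (-(m : ℤ)) (k : ℤ) Ω'
    rw [zpow_natCast] at h1 h2
    rw [← h1, add_comm, h2, hk]

end Pool.Agent.HQ
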