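import Pool.Agent.HQ.Defs
import Pool.Agent.HQ.Bas
import Pool.Agent.HQ.Cmp
import Pool.Agent.HQ.IP
import Pool.Agent.HQ.Germ
import Pool.Agent.HQ.StayA
import Pool.Agent.HQ.Fr23
import Pool.Agent.HQ.UBas
import Pool.Agent.HQ.Z86
import Pool.Agent.HQ.Surj

/-!
# HQ module V286: case V2: the interior is empty
-/

set_option autoImplicit false

open Filter Topology Set Metric

namespace Pool.Agent.HQ

theorem V2_empty (Q : QS) (h5 : Q.H5) (hV : interior Q.Kp = interior Q.Km) :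
    interior Q.Kp = ∅ := by
  rw [Set.eq_empty_iff_forall_notMem]
  intro x hx
  obtain ⟨Ω, hΩ, -⟩ := Sys.exists_comp hx
  obtain ⟨g, m, Ω', -, hg, hgM, hg0, ⟨s1, hs1, hs1P⟩, hgint, -, -, -⟩ := comp_limit Q h5 hΩ
  have h0m : (0 : ℂ) ∈ ball (0 : ℂ) 1 := mem_ball_self one_pos
  have hconn : IsPreconnected (ball (0 : ℂ) 1) := (convex_ball (0 : ℂ) 1).isPreconnected
  have hnc : NC g 0 := by
    refine nc_of_conn isOpen_ball hconn hg ⟨s1, hs1, 0, h0m, ?_⟩ h0m
    intro h1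
    rw [h1, Q.clSad_P hg0] at hs1P
    exact lt_irrefl _ hs1P
  obtain ⟨p, hp, ξ, hξ, hξ0, hlim⟩ := U_center Q hg0
  have hip := ip (Γ := g) (g := ξ) (gs := fun n => Q.Xu (p n)) (s₀ := 0) (z₀ := 0)
    isOpen_ball h0m hg hnc isOpen_univ (mem_univ _)
    (fun n => (Q.hu (p n) (hp n)).diff.differentiableOn)
    (tendstoLocallyUniformlyOn_univ.2 hlim) hξ0
  rcases hip with ha | hb
  · have hncξ : NC ξ 0 := nc_of_entire (U_diff Q hξ) (U_ne Q hξ) 0
    have h1 : Gm g 0 ξ 0 := germ_symm isOpen_ball h0m hg hnc isOpen_univ (mem_univ _)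
      (U_diff Q hξ).differentiableOn hncξ hξ0 ha
    obtain ⟨r, hr, hr1⟩ := h1 1 one_pos
    have hm : 0 < min (r / 2) (1 / 2) := lt_min (half_pos hr) (by norm_num)
    have hm1 : min (r / 2) (1 / 2) ≤ r / 2 := min_le_left _ _
    have hm2 : min (r / 2) (1 / 2) ≤ 1 / 2 := min_le_right _ _
    have hd : dist (((min (r / 2) (1 / 2) : ℝ) : ℂ)) 0 = min (r / 2) (1 / 2) := by
      rw [dist_zero_right, Complex.norm_real, Real.norm_eq_abs, abs_of_pos hm]
    obtain ⟨w, -, hw⟩ := hr1 ((min (r / 2) (1 / 2) : ℝ) : ℂ) (by rw [mem_ball, hd]; linarith)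
    have h2 := hgint ((min (r / 2) (1 / 2) : ℝ) : ℂ) (by rw [mem_ball, hd]; linarith)
      (by rw [Complex.ofReal_re]; exact hm)
    rw [hV, ← hw] at h2
    exact U_not_int Q hξ w h2
  · obtain ⟨i, hi⟩ := (hb 1 one_pos).exists
    obtain ⟨z, -, s, hs, hzs⟩ := hi
    have h1 : g s ∈ Wu Q.F (p i) := by
      rw [← (Q.hu (p i) (hp i)).range, ← hzs]
      exact mem_range_self z
    have hhalf : (1 / 2 : ℂ) ∈ ball (0 : ℂ) 1 := by
      rw [mem_ball, dist_zero_right, norm_div, norm_one, Complex.norm_ofNat]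
      norm_num
    have h2 := stay_u Q.toSys isOpen_ball hconn hg hgM (hp i) hs h1 (1 / 2) hhalf
    have h3 := hgint (1 / 2) hhalf (by norm_num)
    rw [hV] at h3
    exact Wu_not_int Q (hp i) h2 h3

end Pool.Agent.HQ
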