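import Pool.Agent.HQ.Defs
import Pool.Agent.HQ.Bas
import Pool.Agent.HQ.Cmp
import Pool.Agent.HQ.V1f
import Pool.Agent.HQ.V286
import Pool.Agent.HQ.Sn87

/-!
# HQ module FinA: the abstract theorem
-/

set_option autoImplicit false

open Filter Topology Set Metric

namespace Pool.Agent.HQ

/-- convergence along multiples of the period to a periodic point gives membership in the basin -/
theorem FinA_basin (S : Sys) {k : ℕ} (hk : 0 < k) {c x : E}
    (hx : Tendsto (fun n : ℕ => (S.F ^ (k * n)) x) atTop (𝓝 c)) : x ∈ Basin S.F c := by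
  have h1 : Tendsto (fun n : ℕ => ∑ j ∈ Finset.range k,
      dist ((S.F ^ j) ((S.F ^ (k * n)) x)) ((S.F ^ j) c)) atTop (𝓝 0) := by
    have h2 : Tendsto (fun n : ℕ => ∑ j ∈ Finset.range k,
        dist ((S.F ^ j) ((S.F ^ (k * n)) x)) ((S.F ^ j) c)) atTop
        (𝓝 (∑ _j ∈ Finset.range k, (0 : ℝ))) := by
      refine tendsto_finsetSum _ fun j _ => ?_
      rw [← tendsto_iff_dist_tendsto_zero]
      exact ((S.diff_pow j).continuous.tendsto c).comp hx
    simpa using h2
  have h3 : Tendsto (fun m : ℕ => m / k) atTop atTop := by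
    refine tendsto_atTop.2 fun b => ?_
    filter_upwards [eventually_ge_atTop (b * k)] with m hm
    exact (Nat.le_div_iff_mul_le hk).2 hm
  have h4 := h1.comp h3
  refine squeeze_zero (fun _ => infDist_nonneg) (fun m => ?_) h4
  have h5 : (S.F ^ m) x = (S.F ^ (m % k)) ((S.F ^ (k * (m / k))) x) := by
    rw [← Equiv.Perm.mul_apply, ← pow_add, Nat.mod_add_div]
  calc infDist ((S.F ^ m) x) (range fun j : ℕ => (S.F ^ j) c)
      ≤ dist ((S.F ^ m) x) ((S.F ^ (m % k)) c) := infDist_le_dist_of_mem ⟨m % k, rfl⟩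
    _ = dist ((S.F ^ (m % k)) ((S.F ^ (k * (m / k))) x)) ((S.F ^ (m % k)) c) := by rw [h5]
    _ ≤ ∑ j ∈ Finset.range k,
        dist ((S.F ^ j) ((S.F ^ (k * (m / k))) x)) ((S.F ^ j) c) :=
        Finset.single_le_sum
          (f := fun j => dist ((S.F ^ j) ((S.F ^ (k * (m / k))) x)) ((S.F ^ j) c))
          (fun _ _ => dist_nonneg) (Finset.mem_range.2 (Nat.mod_lt _ hk))

theorem abs_V1 (Q : QS) (h5 : Q.H5) (hV : interior Q.Km = ∅) :
    (Snk Q.F).Finite ∧ interior Q.Kp = ⋃ p ∈ Snk Q.F, Basin Q.F p := by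
  classical
  obtain ⟨hfin, hcomp⟩ := V1_final Q h5 hV
  choose! K hK C hC hCs hKC hlim using hcomp
  constructor
  · refine (hfin.image C).subset fun p hp => ?_
    obtain ⟨Ω, hΩ, hpΩ⟩ := Sys.exists_comp (S := Q.toSys) (sink_int Q.toSys hp)
    refine ⟨Ω, hΩ, ?_⟩
    obtain ⟨l, hl, hlp, -⟩ := hp
    have h1 := hlim Ω hΩ p hpΩ
    have h2 : Tendsto (fun n : ℕ => l * n) atTop atTop := Filter.tendsto_id.const_mul_atTop' hl
    have h3 := h1.comp h2
    have h4 : (fun n : ℕ => (Q.F ^ (K Ω * n)) p) ∘ (fun n : ℕ => l * n) = fun _ => p := by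
      funext n
      simp only [Function.comp]
      rw [← mul_assoc, mul_comm (K Ω) l, mul_assoc, Q.toSys.per_mul hlp]
    rw [h4] at h3
    exact tendsto_nhds_unique h3 tendsto_const_nhds
  · refine Subset.antisymm (fun x hx => ?_) ?_
    · obtain ⟨Ω, hΩ, hxΩ⟩ := Sys.exists_comp (S := Q.toSys) hx
      exact mem_biUnion (hCs Ω hΩ) (FinA_basin Q.toSys (hK Ω hΩ) (hlim Ω hΩ x hxΩ))
    · exact iUnion₂_subset fun p hp => basin_int Q.toSys hp

theorem abs_empty (S : Sys) (h : interior S.Kp = ∅) :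
    (Snk S.F).Finite ∧ interior S.Kp = ⋃ p ∈ Snk S.F, Basin S.F p := by
  have h1 : Snk S.F = ∅ := by
    refine eq_empty_of_forall_notMem fun p hp => ?_
    have := sink_int S hp
    rw [h] at this
    exact this
  rw [h1, h]
  exact ⟨finite_empty, by simp⟩

end Pool.Agent.HQ
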