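import Pool.Agent.HQ.Defs

/-!
# HQ module HDefs: Henon maps
-/

set_option autoImplicit false

open Filter Topology Set Metric

namespace Pool.Agent.HQ

/-- the Henon map `(x, y) ↦ (a y + P(x), x)` -/
noncomputable def hen (a : ℂˣ) (P : Polynomial ℂ) : Equiv.Perm E where
  toFun z := (a * z.2 + P.eval z.1, z.1)
  invFun z := (z.2, (z.1 - P.eval z.2) * (a⁻¹ : ℂˣ))
  left_inv z := by
    refine Prod.ext ?_ ?_
    · rfl
    · show ((a : ℂ) * z.2 + P.eval z.1 - P.eval z.1) * ((a⁻¹ : ℂˣ) : ℂ) = z.2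
      rw [add_sub_cancel_right, mul_right_comm, Units.mul_inv, one_mul]
  right_inv z := by
    refine Prod.ext ?_ ?_
    · show (a : ℂ) * ((z.1 - P.eval z.2) * ((a⁻¹ : ℂˣ) : ℂ)) + P.eval z.2 = z.1
      rw [mul_left_comm, Units.mul_inv, mul_one, sub_add_cancel]
    · rfl

/-- a generalized Henon map: the composition of the Henon maps of a list -/
noncomputable def henon (L : List (ℂˣ × Polynomial ℂ)) : Equiv.Perm E :=
  (L.map fun q => hen q.1 q.2).prod

/-- the degree of a generalized Henon map -/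
noncomputable def hdeg (L : List (ℂˣ × Polynomial ℂ)) : ℕ := (L.map fun q => q.2.natDegree).prod

/-- the Green function `lim d⁻ⁿ log max(1, ‖Fⁿ z‖)` -/
noncomputable def Green (F : Equiv.Perm E) (d : ℝ) (z : E) : ℝ :=
  limUnder atTop (fun n : ℕ => Real.log (max 1 ‖(F ^ n) z‖) / d ^ n)

/-- admissible lists: nonempty, all degrees at least two -/
def Adm (L : List (ℂˣ × Polynomial ℂ)) : Prop := L ≠ [] ∧ ∀ q ∈ L, 2 ≤ q.2.natDegree

/-- a list giving the inverse map up to the exchange of the coordinates -/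
noncomputable def rev (L : List (ℂˣ × Polynomial ℂ)) : List (ℂˣ × Polynomial ℂ) :=
  (L.map fun q => (q.1⁻¹, Polynomial.C (-((q.1⁻¹ : ℂˣ) : ℂ)) * q.2)).reverse

end Pool.Agent.HQ
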