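import Pool.Agent.HQ.Defs
import Pool.Agent.HQ.HDefs

/-!
# HQ module HA: filtration estimates for generalized Henon maps
-/

set_option autoImplicit false

open Filter Topology Set Metric

namespace Pool.Agent.HQ

theorem hen_diff (a : ℂˣ) (P : Polynomial ℂ) : Differentiable ℂ (⇑(hen a P)) := by
  have h1 : Differentiable ℂ fun z : E => ((a : ℂ) * z.2 + P.eval z.1, z.1) :=
    ((differentiable_snd.const_mul (a : ℂ)).add
      (P.differentiable.comp differentiable_fst)).prodMk differentiable_fst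
  exact h1

theorem HA_cons (q : ℂˣ × Polynomial ℂ) (L : List (ℂˣ × Polynomial ℂ)) :
    henon (q :: L) = hen q.1 q.2 * henon L := by
  unfold henon
  rw [List.map_cons, List.prod_cons]

theorem HA_hcons (q : ℂˣ × Polynomial ℂ) (L : List (ℂˣ × Polynomial ℂ)) :
    hdeg (q :: L) = q.2.natDegree * hdeg L := by
  unfold hdeg
  rw [List.map_cons, List.prod_cons]

theorem henon_diff (L : List (ℂˣ × Polynomial ℂ)) : Differentiable ℂ (⇑(henon L)) := by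
  induction L with
  | nil =>
    have h : (⇑(henon []) : E → E) = id := by
      unfold henon
      rw [List.map_nil, List.prod_nil]
      rfl
    rw [h]
    exact differentiable_id
  | cons q L ih =>
    rw [HA_cons, Equiv.Perm.coe_mul]
    exact (hen_diff q.1 q.2).comp ih

/-- upper bound for a polynomial -/
theorem HA_upper (P : Polynomial ℂ) : ∃ C : ℝ, 0 ≤ C ∧
    ∀ t : ℂ, ‖P.eval t‖ ≤ C * (max 1 ‖t‖) ^ P.natDegree := by
  refine ⟨∑ i ∈ Finset.range (P.natDegree + 1), ‖P.coeff i‖,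
    Finset.sum_nonneg fun i _ => norm_nonneg _, fun t => ?_⟩
  rw [Polynomial.eval_eq_sum_range, Finset.sum_mul]
  refine (norm_sum_le _ _).trans (Finset.sum_le_sum fun i hi => ?_)
  rw [norm_mul, norm_pow]
  have hi' : i ≤ P.natDegree := Nat.lt_succ_iff.mp (Finset.mem_range.mp hi)
  refine mul_le_mul_of_nonneg_left ?_ (norm_nonneg _)
  calc ‖t‖ ^ i ≤ (max 1 ‖t‖) ^ i := pow_le_pow_left₀ (norm_nonneg _) (le_max_right _ _) _
    _ ≤ (max 1 ‖t‖) ^ P.natDegree := pow_le_pow_right₀ (le_max_left _ _) hi'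

/-- lower bound for a polynomial -/
theorem HA_lower (P : Polynomial ℂ) (hP : 1 ≤ P.natDegree) : ∃ c R : ℝ, 0 < c ∧ 1 ≤ R ∧
    ∀ t : ℂ, R ≤ ‖t‖ → c * ‖t‖ ^ P.natDegree ≤ ‖P.eval t‖ := by
  have hlc : 0 < ‖P.leadingCoeff‖ := by
    rw [norm_pos_iff]
    intro h
    rw [Polynomial.leadingCoeff_eq_zero] at h
    rw [h, Polynomial.natDegree_zero] at hP
    omega
  set S : ℝ := ∑ i ∈ Finset.range P.natDegree, ‖P.coeff i‖ with hS
  have hS0 : 0 ≤ S := Finset.sum_nonneg fun i _ => norm_nonneg _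
  refine ⟨‖P.leadingCoeff‖ / 2, max 1 (2 * S / ‖P.leadingCoeff‖), by positivity,
    le_max_left _ _, fun t ht => ?_⟩
  have ht1 : 1 ≤ ‖t‖ := (le_max_left _ _).trans ht
  have ht2 : 2 * S / ‖P.leadingCoeff‖ ≤ ‖t‖ := (le_max_right _ _).trans ht
  rw [div_le_iff₀ hlc] at ht2
  obtain ⟨m, hm⟩ : ∃ m, P.natDegree = m + 1 := ⟨P.natDegree - 1, by omega⟩
  have hsum : ‖∑ i ∈ Finset.range P.natDegree, P.coeff i * t ^ i‖ ≤ S * ‖t‖ ^ m := by
    rw [hS, Finset.sum_mul]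
    refine (norm_sum_le _ _).trans (Finset.sum_le_sum fun i hi => ?_)
    rw [norm_mul, norm_pow]
    have hi' : i ≤ m := by
      have := Finset.mem_range.mp hi
      omega
    exact mul_le_mul_of_nonneg_left (pow_le_pow_right₀ ht1 hi') (norm_nonneg _)
  have heq : P.eval t = (∑ i ∈ Finset.range P.natDegree, P.coeff i * t ^ i) +
      P.leadingCoeff * t ^ P.natDegree := by
    rw [Polynomial.eval_eq_sum_range, Finset.sum_range_succ]
    rfl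
  have h1 : ‖P.leadingCoeff‖ * ‖t‖ ^ P.natDegree ≤ ‖P.eval t‖ + S * ‖t‖ ^ m := by
    have h2 : P.leadingCoeff * t ^ P.natDegree =
        P.eval t - ∑ i ∈ Finset.range P.natDegree, P.coeff i * t ^ i := by
      rw [heq]; ring
    calc ‖P.leadingCoeff‖ * ‖t‖ ^ P.natDegree = ‖P.leadingCoeff * t ^ P.natDegree‖ := by
          rw [norm_mul, norm_pow]
      _ = ‖P.eval t - ∑ i ∈ Finset.range P.natDegree, P.coeff i * t ^ i‖ := by rw [h2]
      _ ≤ ‖P.eval t‖ + ‖∑ i ∈ Finset.range P.natDegree, P.coeff i * t ^ i‖ := norm_sub_le _ _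
      _ ≤ _ := by gcongr
  have h3 : S * ‖t‖ ^ m ≤ ‖P.leadingCoeff‖ / 2 * ‖t‖ ^ P.natDegree := by
    rw [hm, pow_succ]
    have hp : 0 ≤ ‖t‖ ^ m := by positivity
    nlinarith
  linarith

/-- the filtration property with constants -/
def HA_Filt (f : E → E) (d : ℕ) (R C : ℝ) : Prop :=
  (∀ z : E, R ≤ ‖z.1‖ → ‖z.2‖ ≤ ‖z.1‖ →
    ‖(f z).2‖ ≤ ‖(f z).1‖ ∧ 2 * ‖z.1‖ ≤ ‖(f z).1‖ ∧ ‖z.1‖ ^ d / C ≤ ‖(f z).1‖) ∧
  (∀ z : E, ‖f z‖ ≤ C * (max 1 ‖z‖) ^ d) ∧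
  (∀ z : E, R ≤ ‖(f z).2‖ → ‖(f z).1‖ ≤ ‖(f z).2‖ →
    ‖z.1‖ ≤ ‖z.2‖ ∧ 2 * ‖(f z).2‖ ≤ ‖z.2‖)

theorem HA_mono {f : E → E} {d : ℕ} {R C R' C' : ℝ} (h : HA_Filt f d R C) (hC : 1 ≤ C)
    (hR : R ≤ R') (hCC : C ≤ C') : HA_Filt f d R' C' := by
  obtain ⟨h1, h2, h3⟩ := h
  refine ⟨fun z hz hz' => ?_, fun z => ?_, fun z hz hz' => h3 z (hR.trans hz) hz'⟩
  · obtain ⟨a1, a2, a3⟩ := h1 z (hR.trans hz) hz'
    refine ⟨a1, a2, le_trans ?_ a3⟩
    have : 0 < C := by linarith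
    exact div_le_div_of_nonneg_left (by positivity) this hCC
  · refine (h2 z).trans ?_
    have : (0 : ℝ) ≤ (max 1 ‖z‖) ^ d := by positivity
    exact mul_le_mul_of_nonneg_right hCC this

theorem HA_comp {f g : E → E} {d e : ℕ} {R C : ℝ} (hf : HA_Filt f d R C)
    (hg : HA_Filt g e R C) (hR : 1 ≤ R) (hC : 1 ≤ C) :
    HA_Filt (f ∘ g) (d * e) R (C ^ (d + 1)) := by
  obtain ⟨f1, f2, f3⟩ := hf
  obtain ⟨g1, g2, g3⟩ := hg
  have hC0 : 0 < C := by linarith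
  refine ⟨fun z hz hz' => ?_, fun z => ?_, fun z hz hz' => ?_⟩
  · obtain ⟨a1, a2, a3⟩ := g1 z hz hz'
    have hb : R ≤ ‖(g z).1‖ := by linarith [norm_nonneg z.1]
    obtain ⟨b1, b2, b3⟩ := f1 (g z) hb a1
    refine ⟨b1, ?_, ?_⟩
    · show 2 * ‖z.1‖ ≤ ‖(f (g z)).1‖
      linarith [norm_nonneg z.1]
    · show ‖z.1‖ ^ (d * e) / C ^ (d + 1) ≤ ‖(f (g z)).1‖
      refine le_trans ?_ b3
      have h1 : (‖z.1‖ ^ e / C) ^ d ≤ ‖(g z).1‖ ^ d :=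
        pow_le_pow_left₀ (by positivity) a3 d
      have h2 : ‖z.1‖ ^ (d * e) / C ^ (d + 1) = (‖z.1‖ ^ e / C) ^ d / C := by
        rw [div_pow, div_div, ← pow_succ, ← pow_mul, mul_comm e d]
      rw [h2]
      exact div_le_div_of_nonneg_right h1 hC0.le
  · show ‖f (g z)‖ ≤ C ^ (d + 1) * (max 1 ‖z‖) ^ (d * e)
    have hm : (1 : ℝ) ≤ (max 1 ‖z‖) ^ e := one_le_pow₀ (le_max_left _ _)
    have h1 : max 1 ‖g z‖ ≤ C * (max 1 ‖z‖) ^ e := by
      refine max_le ?_ (g2 z)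
      nlinarith
    calc ‖f (g z)‖ ≤ C * (max 1 ‖g z‖) ^ d := f2 _
      _ ≤ C * (C * (max 1 ‖z‖) ^ e) ^ d := by
          refine mul_le_mul_of_nonneg_left ?_ hC0.le
          exact pow_le_pow_left₀ (by positivity) h1 d
      _ = C ^ (d + 1) * (max 1 ‖z‖) ^ (d * e) := by
          rw [mul_pow, ← pow_mul, mul_comm e d]
          ring
  · have hz2 : R ≤ ‖(f (g z)).2‖ := hz
    obtain ⟨a1, a2⟩ := f3 (g z) hz hz'
    have hb : R ≤ ‖(g z).2‖ := by linarith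
    obtain ⟨b1, b2⟩ := g3 z hb a1
    refine ⟨b1, ?_⟩
    show 2 * ‖(f (g z)).2‖ ≤ ‖z.2‖
    linarith

theorem HA_single (a : ℂˣ) (P : Polynomial ℂ) (hP : 2 ≤ P.natDegree) :
    ∃ R C : ℝ, 1 ≤ R ∧ 1 ≤ C ∧ HA_Filt (⇑(hen a P)) P.natDegree R C := by
  obtain ⟨c, R1, hc, hR1, hlow⟩ := HA_lower P (by omega)
  obtain ⟨C1, hC1, hup⟩ := HA_upper P
  have ha : 0 < ‖(a : ℂ)‖ := norm_pos_iff.mpr a.ne_zero
  set A : ℝ := ‖(a : ℂ)‖ with hA
  set R : ℝ := R1 + (2 * A + 4) / c with hR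
  set C : ℝ := 1 + A + C1 + 2 / c with hC
  have hRR : R1 ≤ R := by
    have : 0 ≤ (2 * A + 4) / c := by positivity
    linarith
  have hR1' : 1 ≤ R := hR1.trans hRR
  have hRc : 2 * A + 4 ≤ c * R := by
    have h1 : (2 * A + 4) / c ≤ R := by linarith
    rw [div_le_iff₀ hc] at h1
    linarith
  have h2c : 0 ≤ 2 / c := by positivity
  have hC1' : 1 ≤ C := by linarith
  obtain ⟨m, hm⟩ : ∃ m, P.natDegree = m + 2 := ⟨P.natDegree - 2, by omega⟩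
  -- the main lower bound
  have key : ∀ t : ℂ, R ≤ ‖t‖ → (2 * A + 4) * ‖t‖ ≤ c * ‖t‖ ^ P.natDegree ∧
      c * ‖t‖ ^ P.natDegree ≤ ‖P.eval t‖ := by
    intro t ht
    refine ⟨?_, hlow t (hRR.trans ht)⟩
    have ht1 : 1 ≤ ‖t‖ := hR1'.trans ht
    have hp : 1 ≤ ‖t‖ ^ m := one_le_pow₀ ht1
    have h3 : 2 * A + 4 ≤ c * ‖t‖ := hRc.trans (mul_le_mul_of_nonneg_left ht hc.le)
    have h4 : ‖t‖ * ‖t‖ ≤ ‖t‖ ^ P.natDegree := by
      rw [hm, pow_add, pow_two]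
      have : 0 ≤ ‖t‖ * ‖t‖ := by positivity
      nlinarith
    calc (2 * A + 4) * ‖t‖ ≤ c * ‖t‖ * ‖t‖ :=
          mul_le_mul_of_nonneg_right h3 (norm_nonneg _)
      _ = c * (‖t‖ * ‖t‖) := by ring
      _ ≤ c * ‖t‖ ^ P.natDegree := mul_le_mul_of_nonneg_left h4 hc.le
  refine ⟨R, C, hR1', hC1', fun z hz hz' => ?_, fun z => ?_, fun z hz hz' => ?_⟩
  · obtain ⟨k1, k2⟩ := key z.1 hz
    have e1 : (hen a P z).1 = (a : ℂ) * z.2 + P.eval z.1 := rfl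
    have e2 : (hen a P z).2 = z.1 := rfl
    have h1 : ‖P.eval z.1‖ ≤ ‖(hen a P z).1‖ + A * ‖z.1‖ := by
      have h2 : P.eval z.1 = (hen a P z).1 - (a : ℂ) * z.2 := by rw [e1]; ring
      calc ‖P.eval z.1‖ = ‖(hen a P z).1 - (a : ℂ) * z.2‖ := by rw [← h2]
        _ ≤ ‖(hen a P z).1‖ + ‖(a : ℂ) * z.2‖ := norm_sub_le _ _
        _ = ‖(hen a P z).1‖ + A * ‖z.2‖ := by rw [norm_mul]
        _ ≤ _ := by
            have := mul_le_mul_of_nonneg_left hz' ha.le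
            linarith
    have hz0 : 0 ≤ ‖z.1‖ := norm_nonneg _
    have h5 : c * ‖z.1‖ ^ P.natDegree / 2 + 2 * ‖z.1‖ ≤ ‖(hen a P z).1‖ := by
      nlinarith
    have hp0 : 0 ≤ ‖z.1‖ ^ P.natDegree := by positivity
    refine ⟨?_, ?_, ?_⟩
    · rw [e2]
      have : 0 ≤ c * ‖z.1‖ ^ P.natDegree := by positivity
      linarith
    · have : 0 ≤ c * ‖z.1‖ ^ P.natDegree := by positivity
      linarith
    · rw [div_le_iff₀ (by linarith)]
      have h6 : c * ‖z.1‖ ^ P.natDegree / 2 ≤ ‖(hen a P z).1‖ := by linarith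
      have h7 : 2 / c ≤ C := by linarith
      have h8 : ‖z.1‖ ^ P.natDegree = c * ‖z.1‖ ^ P.natDegree / 2 * (2 / c) := by
        field_simp
      calc ‖z.1‖ ^ P.natDegree = c * ‖z.1‖ ^ P.natDegree / 2 * (2 / c) := h8
        _ ≤ ‖(hen a P z).1‖ * C := by
            apply mul_le_mul h6 h7 h2c (norm_nonneg _)
  · have e : hen a P z = ((a : ℂ) * z.2 + P.eval z.1, z.1) := rfl
    have hM1 : 1 ≤ max 1 ‖z‖ := le_max_left _ _
    have hMz : ‖z‖ ≤ max 1 ‖z‖ := le_max_right _ _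
    have hMp : max 1 ‖z‖ ≤ (max 1 ‖z‖) ^ P.natDegree := by
      calc max 1 ‖z‖ = (max 1 ‖z‖) ^ 1 := (pow_one _).symm
        _ ≤ _ := pow_le_pow_right₀ hM1 (by omega)
    have hz1 : ‖z.1‖ ≤ ‖z‖ := norm_fst_le z
    have hz2 : ‖z.2‖ ≤ ‖z‖ := norm_snd_le z
    have hu : ‖P.eval z.1‖ ≤ C1 * (max 1 ‖z‖) ^ P.natDegree := by
      refine (hup z.1).trans (mul_le_mul_of_nonneg_left ?_ hC1)
      exact pow_le_pow_left₀ (by positivity) (max_le_max le_rfl hz1) _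
    rw [e, Prod.norm_mk]
    have hpp : 0 ≤ (max 1 ‖z‖) ^ P.natDegree := by positivity
    refine max_le ?_ ?_
    · calc ‖(a : ℂ) * z.2 + P.eval z.1‖ ≤ ‖(a : ℂ) * z.2‖ + ‖P.eval z.1‖ := norm_add_le _ _
        _ ≤ A * (max 1 ‖z‖) ^ P.natDegree + C1 * (max 1 ‖z‖) ^ P.natDegree := by
            rw [norm_mul]
            refine add_le_add (mul_le_mul_of_nonneg_left ?_ ha.le) hu
            exact hz2.trans (hMz.trans hMp)
        _ ≤ C * (max 1 ‖z‖) ^ P.natDegree := by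
            rw [← add_mul]
            exact mul_le_mul_of_nonneg_right (by linarith) hpp
    · calc ‖z.1‖ ≤ 1 * (max 1 ‖z‖) ^ P.natDegree := by
            rw [one_mul]; exact hz1.trans (hMz.trans hMp)
        _ ≤ C * (max 1 ‖z‖) ^ P.natDegree := mul_le_mul_of_nonneg_right hC1' hpp
  · have e1 : (hen a P z).1 = (a : ℂ) * z.2 + P.eval z.1 := rfl
    have e2 : (hen a P z).2 = z.1 := rfl
    rw [e2] at hz hz' ⊢
    obtain ⟨k1, k2⟩ := key z.1 hz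
    have h1 : ‖P.eval z.1‖ ≤ ‖(hen a P z).1‖ + A * ‖z.2‖ := by
      have h2 : P.eval z.1 = (hen a P z).1 - (a : ℂ) * z.2 := by rw [e1]; ring
      calc ‖P.eval z.1‖ = ‖(hen a P z).1 - (a : ℂ) * z.2‖ := by rw [← h2]
        _ ≤ ‖(hen a P z).1‖ + ‖(a : ℂ) * z.2‖ := norm_sub_le _ _
        _ = ‖(hen a P z).1‖ + A * ‖z.2‖ := by rw [norm_mul]
    have hz0 : 0 ≤ ‖z.1‖ := norm_nonneg _
    have h3 : A * (2 * ‖z.1‖) ≤ A * ‖z.2‖ := by nlinarith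
    have h4 : 2 * ‖z.1‖ ≤ ‖z.2‖ := le_of_mul_le_mul_left h3 ha
    exact ⟨by linarith, h4⟩

theorem HA_list (L : List (ℂˣ × Polynomial ℂ)) (h0 : L ≠ [])
    (h : ∀ q ∈ L, 2 ≤ q.2.natDegree) :
    ∃ R C : ℝ, 1 ≤ R ∧ 1 ≤ C ∧ HA_Filt (⇑(henon L)) (hdeg L) R C := by
  induction L with
  | nil => exact absurd rfl h0
  | cons q L ih =>
    obtain ⟨R1, C1, hR1, hC1, hq⟩ := HA_single q.1 q.2 (h q List.mem_cons_self)
    by_cases hL : L = []
    · subst hL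
      refine ⟨R1, C1, hR1, hC1, ?_⟩
      have e1 : henon [q] = hen q.1 q.2 := by
        unfold henon
        rw [List.map_cons, List.prod_cons, List.map_nil, List.prod_nil, mul_one]
      have e2 : hdeg [q] = q.2.natDegree := by
        unfold hdeg
        rw [List.map_cons, List.prod_cons, List.map_nil, List.prod_nil, mul_one]
      rw [e1, e2]
      exact hq
    · obtain ⟨R2, C2, hR2, hC2, hl⟩ := ih hL fun p hp => h p (List.mem_cons_of_mem _ hp)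
      have hq' := HA_mono hq hC1 (le_max_left R1 R2) (le_max_left C1 C2)
      have hl' := HA_mono hl hC2 (le_max_right R1 R2) (le_max_right C1 C2)
      have hR : 1 ≤ max R1 R2 := hR1.trans (le_max_left _ _)
      have hC : 1 ≤ max C1 C2 := hC1.trans (le_max_left _ _)
      refine ⟨max R1 R2, (max C1 C2) ^ (q.2.natDegree + 1), hR, one_le_pow₀ hC, ?_⟩
      rw [HA_cons, HA_hcons, Equiv.Perm.coe_mul]
      exact HA_comp hq' hl' hR hC

/-- filtration: forward estimates -/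
theorem filtration {L : List (ℂˣ × Polynomial ℂ)} (hL : Adm L) :
    ∃ R C : ℝ, 1 ≤ R ∧ 1 ≤ C ∧
      (∀ z : E, R ≤ ‖z.1‖ → ‖z.2‖ ≤ ‖z.1‖ →
        ‖((henon L) z).2‖ ≤ ‖((henon L) z).1‖ ∧ 2 * ‖z.1‖ ≤ ‖((henon L) z).1‖ ∧
        ‖z.1‖ ^ hdeg L / C ≤ ‖((henon L) z).1‖) ∧
      (∀ z : E, ‖(henon L) z‖ ≤ C * (max 1 ‖z‖) ^ hdeg L) ∧
      (∀ z : E, R ≤ ‖((henon L) z).2‖ → ‖((henon L) z).1‖ ≤ ‖((henon L) z).2‖ →
        ‖z.1‖ ≤ ‖z.2‖ ∧ 2 * ‖((henon L) z).2‖ ≤ ‖z.2‖) := by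
  obtain ⟨R, C, hR, hC, h⟩ := HA_list L hL.1 hL.2
  exact ⟨R, C, hR, hC, h⟩

end Pool.Agent.HQ
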