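import Pool.Agent.HQ.Defs
import Pool.Agent.HQ.HDefs
import Pool.Agent.HQ.HA

/-!
# HQ module HB: the Green function
-/

set_option autoImplicit false

open Filter Topology Set Metric

namespace Pool.Agent.HQ

theorem HB_two_le_prod : ∀ l : List (ℂˣ × Polynomial ℂ), (∀ q ∈ l, 2 ≤ q.2.natDegree) →
    1 ≤ (l.map fun q => q.2.natDegree).prod
  | [], _ => by simp
  | q :: l, h => by
    have h1 := HB_two_le_prod l (fun q' hq' => h q' (List.mem_cons_of_mem _ hq'))
    have h2 := h q List.mem_cons_self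
    rw [List.map_cons, List.prod_cons]
    nlinarith

/-- backward estimates -/
theorem HB_back {F : Equiv.Perm E} {R : ℝ}
    (h3 : ∀ z : E, R ≤ ‖(F z).2‖ → ‖(F z).1‖ ≤ ‖(F z).2‖ →
        ‖z.1‖ ≤ ‖z.2‖ ∧ 2 * ‖(F z).2‖ ≤ ‖z.2‖) :
    ∀ (n : ℕ) (z : E), R ≤ ‖((F ^ n) z).2‖ → ‖((F ^ n) z).1‖ ≤ ‖((F ^ n) z).2‖ →
      ‖((F ^ n) z).2‖ ≤ ‖z‖ := by
  intro n
  induction n with
  | zero =>
    intro z _ _
    rw [pow_zero, Equiv.Perm.one_apply]
    exact norm_snd_le z
  | succ n ih =>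
    intro z hz1 hz2
    have e : (F ^ (n + 1)) z = F ((F ^ n) z) := by
      rw [pow_succ', Equiv.Perm.mul_apply]
    rw [e] at hz1 hz2 ⊢
    obtain ⟨h1, h2⟩ := h3 _ hz1 hz2
    have h4 : 0 ≤ ‖(F ((F ^ n) z)).2‖ := norm_nonneg _
    have h5 := ih z (by linarith) h1
    linarith

theorem HB_not_mem {F : Equiv.Perm E} {R : ℝ}
    (h3 : ∀ z : E, R ≤ ‖(F z).2‖ → ‖(F z).1‖ ≤ ‖(F z).2‖ →
        ‖z.1‖ ≤ ‖z.2‖ ∧ 2 * ‖(F z).2‖ ≤ ‖z.2‖) (n : ℕ) (z : E)
    (h : ¬ (R ≤ ‖((F ^ n) z).1‖ ∧ ‖((F ^ n) z).2‖ ≤ ‖((F ^ n) z).1‖)) :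
    ‖(F ^ n) z‖ ≤ max R ‖z‖ := by
  rcases le_total ‖((F ^ n) z).2‖ ‖((F ^ n) z).1‖ with h1 | h1
  · have h2 : ‖((F ^ n) z).1‖ < R := by
      by_contra h4
      exact h ⟨not_lt.1 h4, h1⟩
    rw [Prod.norm_def, max_eq_left h1]
    exact h2.le.trans (le_max_left _ _)
  · rw [Prod.norm_def, max_eq_right h1]
    rcases le_total R ‖((F ^ n) z).2‖ with h2 | h2
    · exact (HB_back h3 n z h2 h1).trans (le_max_right _ _)
    · exact h2.trans (le_max_left _ _)

section
variable {L : List (ℂˣ × Polynomial ℂ)} (hL : Adm L)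
include hL

theorem hdeg_ge : 2 ≤ hdeg L := by
  obtain ⟨h1, h2⟩ := hL
  unfold hdeg
  cases L with
  | nil => exact absurd rfl h1
  | cons q l =>
    have h3 := HB_two_le_prod l (fun q' hq' => h2 q' (List.mem_cons_of_mem _ hq'))
    have h4 := h2 q List.mem_cons_self
    rw [List.map_cons, List.prod_cons]
    nlinarith

theorem HB_step (ρ : ℝ) : ∃ K : ℝ, 0 ≤ K ∧ ∀ z : E, ‖z‖ ≤ ρ → ∀ n : ℕ,
    dist (Real.log (max 1 ‖((henon L) ^ n) z‖) / (hdeg L : ℝ) ^ n)
      (Real.log (max 1 ‖((henon L) ^ (n + 1)) z‖) / (hdeg L : ℝ) ^ (n + 1))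
      ≤ K * (1 / (hdeg L : ℝ)) ^ n := by
  obtain ⟨R, C, hR, hC, h1, h2, h3⟩ := filtration hL
  have hd2 : (2 : ℝ) ≤ (hdeg L : ℝ) := by exact_mod_cast hdeg_ge hL
  set F := henon L with hF
  set d : ℕ := hdeg L with hd
  have hlC : 0 ≤ Real.log C := Real.log_nonneg hC
  have hM1 : 1 ≤ max R ρ := hR.trans (le_max_left _ _)
  have hlM : 0 ≤ Real.log (max R ρ) := Real.log_nonneg hM1
  have hd0 : (0 : ℝ) < d := by linarith
  refine ⟨Real.log C + d * Real.log (max R ρ), by positivity, ?_⟩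
  intro z hz n
  set w := (F ^ n) z with hw
  have e : (F ^ (n + 1)) z = F w := by
    rw [pow_succ', Equiv.Perm.mul_apply]
  rw [e]
  have hup : Real.log (max 1 ‖F w‖) ≤ Real.log C + d * Real.log (max 1 ‖w‖) := by
    have hm : (0 : ℝ) < max 1 ‖w‖ := lt_of_lt_of_le one_pos (le_max_left _ _)
    have hpow : (1 : ℝ) ≤ (max 1 ‖w‖) ^ d := one_le_pow₀ (le_max_left _ _)
    have hle : max 1 ‖F w‖ ≤ C * (max 1 ‖w‖) ^ d := by
      refine max_le ?_ (h2 w)
      nlinarith
    calc Real.log (max 1 ‖F w‖) ≤ Real.log (C * (max 1 ‖w‖) ^ d) :=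
          Real.log_le_log (lt_of_lt_of_le one_pos (le_max_left _ _)) hle
      _ = Real.log C + d * Real.log (max 1 ‖w‖) := by
          rw [Real.log_mul (by linarith) (pow_pos hm d).ne', Real.log_pow]
  have hlo : d * Real.log (max 1 ‖w‖) - (Real.log C + d * Real.log (max R ρ)) ≤
      Real.log (max 1 ‖F w‖) := by
    by_cases hv : R ≤ ‖w.1‖ ∧ ‖w.2‖ ≤ ‖w.1‖
    · obtain ⟨hv1, hv2⟩ := hv
      have hn : ‖w‖ = ‖w.1‖ := by rw [Prod.norm_def, max_eq_left hv2]
      have h1w : 1 ≤ ‖w.1‖ := hR.trans hv1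
      have hx0 : 0 < ‖w.1‖ := by linarith
      obtain ⟨-, -, h6⟩ := h1 w hv1 hv2
      rw [hn, max_eq_right h1w]
      have h7 : ‖w.1‖ ^ d / C ≤ max 1 ‖F w‖ :=
        (h6.trans (norm_fst_le (F w))).trans (le_max_right _ _)
      have h8 : Real.log (‖w.1‖ ^ d / C) ≤ Real.log (max 1 ‖F w‖) :=
        Real.log_le_log (div_pos (pow_pos hx0 d) (by linarith)) h7
      rw [Real.log_div (pow_pos hx0 d).ne' (by linarith), Real.log_pow] at h8
      have : 0 ≤ d * Real.log (max R ρ) := by positivity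
      linarith
    · have h6 : ‖w‖ ≤ max R ρ := by
        refine (HB_not_mem h3 n z hv).trans ?_
        exact max_le_max le_rfl hz
      have h7 : Real.log (max 1 ‖w‖) ≤ Real.log (max R ρ) :=
        Real.log_le_log (lt_of_lt_of_le one_pos (le_max_left _ _)) (max_le hM1 h6)
      have h8 : 0 ≤ Real.log (max 1 ‖F w‖) := Real.log_nonneg (le_max_left _ _)
      have h9 : (d : ℝ) * Real.log (max 1 ‖w‖) ≤ d * Real.log (max R ρ) :=
        mul_le_mul_of_nonneg_left h7 hd0.le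
      linarith
  have hid : Real.log (max 1 ‖w‖) / (d : ℝ) ^ n - Real.log (max 1 ‖F w‖) / (d : ℝ) ^ (n + 1) =
      (d * Real.log (max 1 ‖w‖) - Real.log (max 1 ‖F w‖)) / (d : ℝ) ^ (n + 1) := by
    rw [pow_succ]
    field_simp
  rw [Real.dist_eq, hid, abs_div, abs_of_pos (pow_pos hd0 (n + 1)), one_div, inv_pow,
    div_le_iff₀ (pow_pos hd0 (n + 1))]
  have hK : 0 ≤ Real.log C + d * Real.log (max R ρ) := by positivity
  have habs : |d * Real.log (max 1 ‖w‖) - Real.log (max 1 ‖F w‖)| ≤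
      Real.log C + d * Real.log (max R ρ) := by
    rw [abs_le]
    have : 0 ≤ d * Real.log (max R ρ) := by positivity
    constructor <;> linarith
  refine habs.trans ?_
  have hpn : (0 : ℝ) < (d : ℝ) ^ n := pow_pos hd0 n
  rw [pow_succ]
  have : (Real.log C + d * Real.log (max R ρ)) * ((d : ℝ) ^ n)⁻¹ * ((d : ℝ) ^ n * d) =
      (Real.log C + d * Real.log (max R ρ)) * d := by
    field_simp
  rw [this]
  nlinarith

theorem green_tendsto (z : E) : Tendsto
    (fun n : ℕ => Real.log (max 1 ‖((henon L) ^ n) z‖) / (hdeg L : ℝ) ^ n) atTop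
    (𝓝 (Green (henon L) (hdeg L) z)) := by
  obtain ⟨K, hK, h⟩ := HB_step hL ‖z‖
  have hd2 : (2 : ℝ) ≤ (hdeg L : ℝ) := by exact_mod_cast hdeg_ge hL
  have hr : 1 / (hdeg L : ℝ) < 1 := by
    rw [div_lt_one (by linarith)]
    linarith
  have hc : CauchySeq (fun n : ℕ => Real.log (max 1 ‖((henon L) ^ n) z‖) / (hdeg L : ℝ) ^ n) :=
    cauchySeq_of_le_geometric _ _ hr (h z le_rfl)
  exact hc.tendsto_limUnder

/-- the approximating sequence converges, geometrically and locally uniformly -/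
theorem green_rate (ρ : ℝ) : ∃ C : ℝ, ∀ z : E, ‖z‖ ≤ ρ → ∀ n : ℕ,
    |Real.log (max 1 ‖((henon L) ^ n) z‖) / (hdeg L : ℝ) ^ n - Green (henon L) (hdeg L) z|
      ≤ C / (hdeg L : ℝ) ^ n := by
  obtain ⟨K, hK, h⟩ := HB_step hL ρ
  have hd2 : (2 : ℝ) ≤ (hdeg L : ℝ) := by exact_mod_cast hdeg_ge hL
  have hr : 1 / (hdeg L : ℝ) < 1 := by
    rw [div_lt_one (by linarith)]
    linarith
  refine ⟨K / (1 - 1 / (hdeg L : ℝ)), ?_⟩
  intro z hz n
  have h1 := dist_le_of_le_geometric_of_tendsto _ _ hr (h z hz) (green_tendsto hL z) n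
  rw [Real.dist_eq] at h1
  refine h1.trans (le_of_eq ?_)
  rw [one_div, inv_pow]
  ring

theorem green_cont : Continuous (Green (henon L) (hdeg L)) := by
  have hd2 : (2 : ℝ) ≤ (hdeg L : ℝ) := by exact_mod_cast hdeg_ge hL
  have hu : ∀ n : ℕ, Continuous
      (fun z : E => Real.log (max 1 ‖((henon L) ^ n) z‖) / (hdeg L : ℝ) ^ n) := by
    intro n
    have hF : Continuous (⇑((henon L) ^ n)) := (diff_pow (henon_diff L) n).continuous
    refine Continuous.div_const ?_ _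
    refine Continuous.log (continuous_const.max hF.norm) ?_
    intro z
    exact (lt_of_lt_of_le one_pos (le_max_left _ _)).ne'
  have hl : TendstoLocallyUniformly
      (fun (n : ℕ) (z : E) => Real.log (max 1 ‖((henon L) ^ n) z‖) / (hdeg L : ℝ) ^ n)
      (Green (henon L) (hdeg L)) atTop := by
    rw [Metric.tendstoLocallyUniformly_iff]
    intro ε hε x
    obtain ⟨C, hC⟩ := green_rate hL (‖x‖ + 1)
    refine ⟨ball x 1, ball_mem_nhds x one_pos, ?_⟩
    have ht : Tendsto (fun n : ℕ => C / (hdeg L : ℝ) ^ n) atTop (𝓝 0) := by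
      have := tendsto_pow_atTop_nhds_zero_of_lt_one (r := 1 / (hdeg L : ℝ)) (by positivity)
        (by rw [div_lt_one (by linarith)]; linarith)
      have h2 := this.const_mul C
      rw [mul_zero] at h2
      refine h2.congr ?_
      intro n
      rw [one_div, inv_pow]
      rfl
    filter_upwards [ht.eventually_lt_const hε] with n hn y hy
    rw [mem_ball, dist_eq_norm] at hy
    have hy2 : ‖y‖ ≤ ‖x‖ + 1 := by
      have := norm_le_norm_add_norm_sub' y x
      linarith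
    rw [dist_comm, Real.dist_eq]
    exact lt_of_le_of_lt (hC y hy2 n) hn
  exact hl.continuous (Frequently.of_forall hu)

theorem green_nonneg (z : E) : 0 ≤ Green (henon L) (hdeg L) z := by
  refine ge_of_tendsto (green_tendsto hL z) (Eventually.of_forall fun n => ?_)
  exact div_nonneg (Real.log_nonneg (le_max_left _ _)) (by positivity)

theorem green_map (z : E) :
    Green (henon L) (hdeg L) ((henon L) z) = hdeg L * Green (henon L) (hdeg L) z := by
  have hd2 : (2 : ℝ) ≤ (hdeg L : ℝ) := by exact_mod_cast hdeg_ge hL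
  have h1 := green_tendsto hL ((henon L) z)
  have h2 := ((tendsto_add_atTop_iff_nat 1).2 (green_tendsto hL z)).const_mul (hdeg L : ℝ)
  refine tendsto_nhds_unique h1 (h2.congr ?_)
  intro n
  have e : ((henon L) ^ (n + 1)) z = ((henon L) ^ n) ((henon L) z) := by
    rw [pow_succ, Equiv.Perm.mul_apply]
  rw [e, pow_succ]
  field_simp

theorem HB_map_pow (n : ℕ) (z : E) :
    Green (henon L) (hdeg L) (((henon L) ^ n) z) =
      (hdeg L : ℝ) ^ n * Green (henon L) (hdeg L) z := by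
  induction n with
  | zero => simp
  | succ n ih =>
    rw [pow_succ', Equiv.Perm.mul_apply, green_map hL, ih]
    ring

/-- lower bound in the region where the first coordinate dominates -/
theorem green_lower : ∃ R C : ℝ, ∀ z : E, R ≤ ‖z.1‖ → ‖z.2‖ ≤ ‖z.1‖ →
    Real.log ‖z.1‖ - C ≤ Green (henon L) (hdeg L) z := by
  obtain ⟨R, C, hR, hC, h1, h2, h3⟩ := filtration hL
  have hd2 : (2 : ℝ) ≤ (hdeg L : ℝ) := by exact_mod_cast hdeg_ge hL
  have hd0 : (0 : ℝ) < hdeg L := by linarith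
  refine ⟨R, Real.log C, ?_⟩
  intro z hz1 hz2
  have hlC : 0 ≤ Real.log C := Real.log_nonneg hC
  have key : ∀ n : ℕ, R ≤ ‖(((henon L) ^ n) z).1‖ ∧
      ‖(((henon L) ^ n) z).2‖ ≤ ‖(((henon L) ^ n) z).1‖ ∧
      (hdeg L : ℝ) ^ n * (Real.log ‖z.1‖ - Real.log C) ≤
        Real.log ‖(((henon L) ^ n) z).1‖ - Real.log C := by
    intro n
    induction n with
    | zero => exact ⟨hz1, hz2, by simp⟩
    | succ n ih =>
      obtain ⟨i1, i2, i3⟩ := ih
      have e : ((henon L) ^ (n + 1)) z = (henon L) (((henon L) ^ n) z) := by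
        rw [pow_succ', Equiv.Perm.mul_apply]
      rw [e]
      obtain ⟨j1, j2, j3⟩ := h1 _ i1 i2
      have hx0 : 0 < ‖(((henon L) ^ n) z).1‖ := by linarith
      refine ⟨by linarith, j1, ?_⟩
      have h8 := Real.log_le_log (div_pos (pow_pos hx0 _) (by linarith)) j3
      rw [Real.log_div (pow_pos hx0 _).ne' (by linarith), Real.log_pow] at h8
      have h9 : (hdeg L : ℝ) ^ (n + 1) * (Real.log ‖z.1‖ - Real.log C) ≤
          hdeg L * (Real.log ‖(((henon L) ^ n) z).1‖ - Real.log C) := by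
        rw [pow_succ', mul_assoc]
        exact mul_le_mul_of_nonneg_left i3 hd0.le
      nlinarith
  refine ge_of_tendsto (green_tendsto hL z) (Eventually.of_forall fun n => ?_)
  obtain ⟨i1, i2, i3⟩ := key n
  have hx0 : 0 < ‖(((henon L) ^ n) z).1‖ := by linarith
  rw [le_div_iff₀ (pow_pos hd0 n)]
  have h4 : Real.log ‖(((henon L) ^ n) z).1‖ ≤ Real.log (max 1 ‖((henon L) ^ n) z‖) :=
    Real.log_le_log hx0 ((norm_fst_le _).trans (le_max_right _ _))
  rw [mul_comm]
  linarith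

theorem green_zero_iff (z : E) : Green (henon L) (hdeg L) z = 0 ↔ z ∈ Kplus (henon L) := by
  have hd2 : (2 : ℝ) ≤ (hdeg L : ℝ) := by exact_mod_cast hdeg_ge hL
  have hd0 : (0 : ℝ) < hdeg L := by linarith
  constructor
  · intro h0
    by_contra hK
    obtain ⟨R, C, hR, hC, h1, h2, h3⟩ := filtration hL
    have hex : ∃ n : ℕ, R ≤ ‖(((henon L) ^ n) z).1‖ ∧
        ‖(((henon L) ^ n) z).2‖ ≤ ‖(((henon L) ^ n) z).1‖ := by
      by_contra hne
      rw [not_exists] at hne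
      apply hK
      have hb : Bornology.IsBounded (range fun n : ℕ => ((henon L) ^ n) z) := by
        refine (isBounded_iff_forall_norm_le).2 ⟨max R ‖z‖, ?_⟩
        rintro x ⟨n, rfl⟩
        exact HB_not_mem h3 n z (hne n)
      exact hb
    obtain ⟨n, hn1, hn2⟩ := hex
    set w := ((henon L) ^ n) z with hw
    have hgw : Green (henon L) (hdeg L) w = 0 := by
      rw [hw, HB_map_pow hL, h0, mul_zero]
    have key : ∀ k : ℕ, R ≤ ‖(((henon L) ^ k) w).1‖ ∧
        ‖(((henon L) ^ k) w).2‖ ≤ ‖(((henon L) ^ k) w).1‖ ∧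
        (2 : ℝ) ^ k ≤ ‖(((henon L) ^ k) w).1‖ := by
      intro k
      induction k with
      | zero => exact ⟨hn1, hn2, by rw [pow_zero, pow_zero]; exact hR.trans hn1⟩
      | succ k ih =>
        obtain ⟨i1, i2, i3⟩ := ih
        have e : ((henon L) ^ (k + 1)) w = (henon L) (((henon L) ^ k) w) := by
          rw [pow_succ', Equiv.Perm.mul_apply]
        rw [e]
        obtain ⟨j1, j2, -⟩ := h1 _ i1 i2
        refine ⟨by linarith, j1, ?_⟩
        rw [pow_succ']
        linarith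
    obtain ⟨R', C', hG⟩ := green_lower hL
    have hev : ∀ᶠ k : ℕ in atTop, max R' (Real.exp (C' + 1)) ≤ (2 : ℝ) ^ k :=
      (tendsto_pow_atTop_atTop_of_one_lt (by norm_num : (1 : ℝ) < 2)).eventually_ge_atTop _
    obtain ⟨k, hk⟩ := hev.exists
    obtain ⟨i1, i2, i3⟩ := key k
    have h5 := hG (((henon L) ^ k) w) (((le_max_left _ _).trans hk).trans i3) i2
    rw [HB_map_pow hL, hgw, mul_zero] at h5
    have h6 : C' + 1 ≤ Real.log ‖(((henon L) ^ k) w).1‖ := by
      rw [Real.le_log_iff_exp_le (by linarith)]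
      exact ((le_max_right _ _).trans hk).trans i3
    linarith
  · intro hK
    have hb : Bornology.IsBounded (range fun n : ℕ => ((henon L) ^ n) z) := hK
    obtain ⟨B, hB⟩ := (isBounded_iff_forall_norm_le).1 hb
    have hB' : ∀ n : ℕ, ‖((henon L) ^ n) z‖ ≤ B := fun n => hB _ ⟨n, rfl⟩
    have ht : Tendsto (fun n : ℕ => Real.log (max 1 B) / (hdeg L : ℝ) ^ n) atTop (𝓝 0) := by
      have := tendsto_pow_atTop_nhds_zero_of_lt_one (r := 1 / (hdeg L : ℝ)) (by positivity)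
        (by rw [div_lt_one (by linarith)]; linarith)
      have h2 := this.const_mul (Real.log (max 1 B))
      rw [mul_zero] at h2
      refine h2.congr ?_
      intro n
      rw [one_div, inv_pow]
      rfl
    refine le_antisymm ?_ (green_nonneg hL z)
    refine le_of_tendsto_of_tendsto (green_tendsto hL z) ht (Eventually.of_forall fun n => ?_)
    refine div_le_div_of_nonneg_right ?_ (by positivity)
    exact Real.log_le_log (lt_of_lt_of_le one_pos (le_max_left _ _)) (max_le_max le_rfl (hB' n))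

theorem green_pos : ∃ z, 0 < Green (henon L) (hdeg L) z := by
  obtain ⟨R, C, h⟩ := green_lower hL
  set t : ℝ := max R (Real.exp (C + 1)) with ht
  have ht0 : 0 < t := lt_of_lt_of_le (Real.exp_pos _) (le_max_right _ _)
  refine ⟨((t : ℂ), 0), ?_⟩
  have hn : ‖(t : ℂ)‖ = t := by rw [Complex.norm_real, Real.norm_of_nonneg ht0.le]
  have h1 := h ((t : ℂ), 0) (by
    show R ≤ ‖(t : ℂ)‖
    rw [hn]
    exact le_max_left _ _) (by
    show ‖(0 : ℂ)‖ ≤ ‖(t : ℂ)‖
    rw [norm_zero]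
    exact norm_nonneg _)
  have h2 : C + 1 ≤ Real.log ‖(t : ℂ)‖ := by
    rw [hn, Real.le_log_iff_exp_le ht0]
    exact le_max_right _ _
  have h3 : Real.log ‖(t : ℂ)‖ - C ≤ Green (henon L) (hdeg L) ((t : ℂ), 0) := h1
  linarith

end

end Pool.Agent.HQ
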