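import Pool.Agent.HQ.Defs
import Pool.Agent.HQ.HDefs
import Pool.Agent.HQ.HL

/-!
# HQ module HC: Harnack and nonisolated zeros for limits of logarithms
-/

set_option autoImplicit false

open Filter Topology Set Metric

namespace Pool.Agent.HQ

/-- `g` is a limit of `c n * log ‖h n‖`, uniformly near the points where `g > 0` -/
def LogLim (g : E → ℝ) : Prop :=
  ∃ (h : ℕ → E → ℂ) (c : ℕ → ℝ), (∀ n, Differentiable ℂ (h n)) ∧ (∀ n, 0 < c n) ∧
    ∀ x, 0 < g x → ∃ r > 0, (∀ᶠ n in atTop, ∀ y ∈ ball x r, 1 < ‖h n y‖) ∧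
      TendstoUniformlyOn (fun n y => c n * Real.log ‖h n y‖) g atTop (ball x r)

theorem HC_inner {g : E → ℝ} (h : LogLim g) {γ : ℂ → E} {a : ℂ} {r : ℝ} (hr : 0 < r)
    (hγ : DifferentiableOn ℂ γ (ball a r)) (hpos : ∀ z ∈ ball a r, 0 < g (γ z))
    {z : ℂ} {s : ℝ} (hz : dist z a < s) (hs : s < r) :
    (s - dist z a) / (s + dist z a) * g (γ a) ≤ g (γ z) ∧
      g (γ z) ≤ (s + dist z a) / (s - dist z a) * g (γ a) := by
  obtain ⟨h, c, hd, hc, hl⟩ := h
  have hs0 : 0 < s := lt_of_le_of_lt dist_nonneg hz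
  have hsub : closedBall a s ⊆ ball a r := closedBall_subset_ball hs
  have hK : IsCompact (γ '' closedBall a s) :=
    (isCompact_closedBall a s).image_of_continuousOn (hγ.continuousOn.mono hsub)
  -- eventually all values are larger than one
  have hev : ∀ᶠ n in atTop, ∀ y ∈ γ '' closedBall a s, 1 < ‖h n y‖ := by
    have hposK : ∀ x ∈ γ '' closedBall a s, 0 < g x := by
      rintro x ⟨w, hw, rfl⟩
      exact hpos w (hsub hw)
    choose! ρ hρ using hl
    obtain ⟨t, ht, hcov⟩ := hK.elim_nhds_subcover (fun x => ball x (ρ x))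
      (fun x hx => ball_mem_nhds x (hρ x (hposK x hx)).1)
    have hall : ∀ᶠ n in atTop, ∀ x ∈ t, ∀ y ∈ ball x (ρ x), 1 < ‖h n y‖ := by
      rw [Filter.eventually_all_finset]
      intro x hx
      exact (hρ x (hposK x (ht x hx))).2.1
    filter_upwards [hall] with n hn y hy
    obtain ⟨x, hx, hyx⟩ := mem_iUnion₂.1 (hcov hy)
    exact hn x hx y hyx
  have hlim : ∀ w ∈ ball a r, Tendsto (fun n => c n * Real.log ‖h n (γ w)‖) atTop (𝓝 (g (γ w))) := by
    intro w hw
    obtain ⟨ρ, hρ, -, hu⟩ := hl (γ w) (hpos w hw)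
    exact hu.tendsto_at (mem_ball_self hρ)
  have hza : z ∈ ball a s := hz
  have haa : a ∈ ball a s := mem_ball_self hs0
  have hzr : z ∈ ball a r := hsub (ball_subset_closedBall hza)
  have har : a ∈ ball a r := mem_ball_self hr
  have hmain : ∀ᶠ n in atTop,
      (s - dist z a) / (s + dist z a) * (c n * Real.log ‖h n (γ a)‖) ≤
        c n * Real.log ‖h n (γ z)‖ ∧
      c n * Real.log ‖h n (γ z)‖ ≤
        (s + dist z a) / (s - dist z a) * (c n * Real.log ‖h n (γ a)‖) := by
    filter_upwards [hev] with n hn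
    have hφ : DifferentiableOn ℂ (fun w => h n (γ w)) (ball a s) := by
      have h1 : DifferentiableOn ℂ γ (ball a s) :=
        hγ.mono (ball_subset_ball hs.le)
      exact (hd n).comp_differentiableOn h1
    have h1 : ∀ w ∈ ball a s, 1 < ‖h n (γ w)‖ := fun w hw =>
      hn _ ⟨w, ball_subset_closedBall hw, rfl⟩
    obtain ⟨e1, e2⟩ := harnack_log hs0 hφ h1 z hza
    have hcn := (hc n).le
    constructor
    · have := mul_le_mul_of_nonneg_left e1 hcn
      calc _ = c n * ((s - dist z a) / (s + dist z a) * Real.log ‖h n (γ a)‖) := by ring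
        _ ≤ _ := this
    · have := mul_le_mul_of_nonneg_left e2 hcn
      calc _ ≤ c n * ((s + dist z a) / (s - dist z a) * Real.log ‖h n (γ a)‖) := this
        _ = _ := by ring
  constructor
  · exact le_of_tendsto_of_tendsto ((hlim a har).const_mul _) (hlim z hzr)
      (hmain.mono fun n hn => hn.1)
  · exact le_of_tendsto_of_tendsto (hlim z hzr) ((hlim a har).const_mul _)
      (hmain.mono fun n hn => hn.2)

theorem harn_of_logLim {g : E → ℝ} (hg : Continuous g) (h : LogLim g) : Harn g := by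
  have _ := hg
  intro γ a r hr hγ hpos z hz
  have hzr : dist z a < r := hz
  have hev : ∀ᶠ s in 𝓝[<] r, dist z a < s ∧ s < r := by
    have h1 : ∀ᶠ s in 𝓝[<] r, s < r := self_mem_nhdsWithin
    have h2 : ∀ᶠ s in 𝓝[<] r, dist z a < s :=
      (eventually_gt_nhds hzr).filter_mono nhdsWithin_le_nhds
    exact h2.and h1
  have hid : Tendsto (fun s : ℝ => s) (𝓝[<] r) (𝓝 r) := tendsto_id.mono_left nhdsWithin_le_nhds
  have hd0 : 0 ≤ dist z a := dist_nonneg
  have t1 : Tendsto (fun s : ℝ => (s - dist z a) / (s + dist z a) * g (γ a)) (𝓝[<] r)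
      (𝓝 ((r - dist z a) / (r + dist z a) * g (γ a))) :=
    ((hid.sub_const _).div (hid.add_const _) (by positivity)).mul_const _
  have t2 : Tendsto (fun s : ℝ => (s + dist z a) / (s - dist z a) * g (γ a)) (𝓝[<] r)
      (𝓝 ((r + dist z a) / (r - dist z a) * g (γ a))) :=
    ((hid.add_const _).div (hid.sub_const _) (sub_pos.2 hzr).ne').mul_const _
  constructor
  · exact le_of_tendsto t1 (hev.mono fun s hs => (HC_inner h hr hγ hpos hs.1 hs.2).1)
  · exact ge_of_tendsto t2 (hev.mono fun s hs => (HC_inner h hr hγ hpos hs.1 hs.2).2)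

end Pool.Agent.HQ
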