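import Pool.Agent.HQ.Defs
import Pool.Agent.HQ.HDefs
import Pool.Agent.HQ.HC

/-!
# HQ module HD: zeros are not isolated
-/

set_option autoImplicit false

open Filter Topology Set Metric

namespace Pool.Agent.HQ

/-- uniformity on compact sets of points with `g > 0` -/
theorem HD_unif {g : E → ℝ} {h : ℕ → E → ℂ} {c : ℕ → ℝ}
    (H : ∀ x, 0 < g x → ∃ r > 0, (∀ᶠ n in atTop, ∀ y ∈ ball x r, 1 < ‖h n y‖) ∧
      TendstoUniformlyOn (fun n y => c n * Real.log ‖h n y‖) g atTop (ball x r))
    {K : Set E} (hK : IsCompact K) (hg : ∀ x ∈ K, 0 < g x) :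
    (∀ᶠ n in atTop, ∀ y ∈ K, 1 < ‖h n y‖) ∧
      ∀ e > 0, ∀ᶠ n in atTop, ∀ y ∈ K, |g y - c n * Real.log ‖h n y‖| < e := by
  choose! r hr0 h1 h2 using H
  obtain ⟨t, htK, hcov⟩ := hK.elim_nhds_subcover (fun x => ball x (r x))
    (fun x hx => ball_mem_nhds x (hr0 x (hg x hx)))
  refine ⟨?_, ?_⟩
  · have : ∀ᶠ n in atTop, ∀ x ∈ t, ∀ y ∈ ball x (r x), 1 < ‖h n y‖ := by
      rw [Filter.eventually_all_finset]
      exact fun x hx => h1 x (hg x (htK x hx))
    filter_upwards [this] with n hn y hy
    obtain ⟨x, hx, hyx⟩ := Set.mem_iUnion₂.1 (hcov hy)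
    exact hn x hx y hyx
  · intro e he
    have : ∀ᶠ n in atTop, ∀ x ∈ t, ∀ y ∈ ball x (r x),
        |g y - c n * Real.log ‖h n y‖| < e := by
      rw [Filter.eventually_all_finset]
      intro x hx
      have := (Metric.tendstoUniformlyOn_iff.1 (h2 x (hg x (htK x hx)))) e he
      simpa only [Real.dist_eq] using this
    filter_upwards [this] with n hn y hy
    obtain ⟨x, hx, hyx⟩ := Set.mem_iUnion₂.1 (hcov hy)
    exact hn x hx y hyx

/-- the estimate on the annulus for one function `f` -/
theorem HD_annulus {f : ℂ → ℂ} {a z : ℂ} {R c mu : ℝ} (hz0 : 0 < dist z a) (hzR : dist z a < R)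
    (hc : 0 < c)
    (hf : ∀ w, dist z a ^ 2 / R ≤ dist w a → dist w a ≤ R → DifferentiableAt ℂ f w ∧ 1 < ‖f w‖)
    (hR : ∀ w, dist w a = R → mu ≤ c * Real.log ‖f w‖) :
    mu / 2 ≤ c * Real.log ‖f z‖ := by
  set d := dist z a with hd
  have hR0 : 0 < R := hz0.trans hzR
  set ε := d ^ 2 / R with hε
  have hε0 : 0 < ε := by positivity
  have hεd : ε < d := by
    rw [hε, div_lt_iff₀ hR0]
    nlinarith
  set L := Real.log (R / d) with hL
  have hL0 : 0 < L := Real.log_pos (by rw [one_lt_div hz0]; exact hzR)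
  have hdε : d / ε = R / d := by
    rw [hε]; field_simp
  have hRε : R / ε = (R / d) ^ 2 := by
    rw [hε]; field_simp
  by_contra hcon
  push Not at hcon
  have hlz : Real.log ‖f z‖ / L < mu / (2 * c * L) := by
    rw [div_lt_div_iff₀ hL0 (by positivity)]
    have : Real.log ‖f z‖ * (2 * c) < mu := by nlinarith
    nlinarith
  obtain ⟨x, hx1, hx2⟩ := exists_rat_btwn hlz
  have hlz0 : 0 < Real.log ‖f z‖ :=
    Real.log_pos (hf z hεd.le hzR.le).2
  have hx0 : (0 : ℝ) < (x : ℝ) := lt_trans (div_pos hlz0 hL0) hx1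
  have hxq : (0 : ℚ) < x := by exact_mod_cast hx0
  -- p = x.num, q = x.den
  obtain ⟨p, hp⟩ : ∃ p : ℕ, (p : ℤ) = x.num := ⟨x.num.toNat, Int.toNat_of_nonneg (by
    exact (Rat.num_pos.2 hxq).le)⟩
  set q := x.den with hq
  have hq0 : (0 : ℝ) < q := by exact_mod_cast x.den_pos
  have hxpq : (x : ℝ) = (p : ℝ) / (q : ℝ) := by
    rw [Rat.cast_def x, ← hp, Int.cast_natCast]
  let Φ : ℂ → ℂ := fun w => ((w - a) / (ε : ℂ)) ^ p / (f w) ^ q
  let U : Set ℂ := {w | ε < dist w a ∧ dist w a < R}
  have hUo : IsOpen U := by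
    refine IsOpen.inter ?_ ?_
    · exact isOpen_lt continuous_const (continuous_id.dist continuous_const)
    · exact isOpen_lt (continuous_id.dist continuous_const) continuous_const
  have hclU : closure U ⊆ {w | ε ≤ dist w a ∧ dist w a ≤ R} := by
    refine closure_minimal (fun w hw => ⟨hw.1.le, hw.2.le⟩) ?_
    refine IsClosed.inter ?_ ?_
    · exact isClosed_le continuous_const (continuous_id.dist continuous_const)
    · exact isClosed_le (continuous_id.dist continuous_const) continuous_const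
  have hfr : ∀ w ∈ frontier U, dist w a = ε ∨ dist w a = R := by
    intro w hw
    rw [frontier, hUo.interior_eq] at hw
    obtain ⟨h1, h2⟩ := hw
    obtain ⟨h3, h4⟩ := hclU h1
    by_contra hc
    push Not at hc
    exact h2 ⟨lt_of_le_of_ne h3 (Ne.symm hc.1), lt_of_le_of_ne h4 hc.2⟩
  have hf0 : ∀ w, ε ≤ dist w a → dist w a ≤ R → f w ≠ 0 := by
    intro w h1 h2 h0
    have := (hf w h1 h2).2
    rw [h0, norm_zero] at this
    linarith
  have hΦd : DiffContOnCl ℂ Φ U := by
    apply DifferentiableOn.diffContOnCl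
    intro w hw
    obtain ⟨h1, h2⟩ := hclU hw
    refine DifferentiableAt.differentiableWithinAt ?_
    refine DifferentiableAt.div ?_ ((hf w h1 h2).1.pow _) (pow_ne_zero _ (hf0 w h1 h2))
    fun_prop
  have hnorm : ∀ w, ‖Φ w‖ = (dist w a / ε) ^ p / ‖f w‖ ^ q := by
    intro w
    simp only [Φ, norm_div, norm_pow]
    rw [dist_eq_norm, Complex.norm_real, Real.norm_eq_abs, abs_of_pos hε0]
  have hbd : ∀ w ∈ frontier U, ‖Φ w‖ ≤ 1 := by
    intro w hw
    rw [hnorm]
    rcases hfr w hw with h | h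
    · rw [h, div_self hε0.ne', one_pow]
      have := (hf w h.ge (h.le.trans (hεd.le.trans hzR.le))).2
      rw [div_le_one (by positivity)]
      exact one_le_pow₀ this.le
    · have h1 := (hf w (by rw [h]; exact hεd.le.trans hzR.le) h.le).2
      have h1' : 0 < ‖f w‖ := by linarith
      rw [h, hRε, div_le_one (by positivity)]
      have h2 := hR w h
      rw [← Real.log_le_log_iff (by positivity) (by positivity), Real.log_pow, Real.log_pow,
        Real.log_pow]
      push_cast
      change (p : ℝ) * (2 * L) ≤ (q : ℝ) * Real.log ‖f w‖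
      have h3 : (p : ℝ) = x * q := by rw [hxpq]; field_simp
      have h4 : (x : ℝ) * (2 * c * L) < mu := by
        rwa [lt_div_iff₀ (by positivity)] at hx2
      have h5 : (x : ℝ) * (2 * L) ≤ Real.log ‖f w‖ := by
        have : (x : ℝ) * (2 * L) * c ≤ Real.log ‖f w‖ * c := by nlinarith
        exact le_of_mul_le_mul_right this hc
      rw [h3]
      nlinarith
  have hzU : z ∈ closure U := subset_closure ⟨hεd, hzR⟩
  have hUb : Bornology.IsBounded U := by
    refine (isBounded_ball (x := a) (r := R)).subset fun w hw => hw.2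
  have key := Complex.norm_le_of_forall_mem_frontier_norm_le hUb hΦd hbd hzU
  rw [hnorm] at key
  have h1 := (hf z hεd.le hzR.le).2
  have h1' : 0 < ‖f z‖ := by linarith
  rw [← hd, hdε, div_le_one (by positivity),
    ← Real.log_le_log_iff (by positivity) (by positivity), Real.log_pow, Real.log_pow] at key
  change (p : ℝ) * L ≤ (q : ℝ) * Real.log ‖f z‖ at key
  have h3 : (p : ℝ) = x * q := by rw [hxpq]; field_simp
  rw [h3] at key
  have h6 : (x : ℝ) * L ≤ Real.log ‖f z‖ := by
    have : (q : ℝ) * (x * L) ≤ (q : ℝ) * Real.log ‖f z‖ := by nlinarith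
    exact le_of_mul_le_mul_left this hq0
  rw [div_lt_iff₀ hL0] at hx1
  linarith

theorem noIso_of_logLim {g : E → ℝ} (hg : Continuous g) (g0 : ∀ x, 0 ≤ g x) (h : LogLim g) :
    NoIso g := by
  intro γ a r hr hγ hpos
  obtain ⟨h, c, hh, hc, H⟩ := h
  set R := r / 2 with hR
  have hR0 : 0 < R := by positivity
  have hRr : R < r := by rw [hR]; linarith
  have hcont : ContinuousOn (fun z => g (γ z)) (ball a r) :=
    hg.comp_continuousOn hγ.continuousOn
  have hsph : (sphere a R).Nonempty := NormedSpace.sphere_nonempty.2 hR0.le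
  have hsub : sphere a R ⊆ ball a r := by
    intro w hw
    rw [mem_sphere] at hw
    rw [mem_ball, hw]; exact hRr
  obtain ⟨w0, hw0, hmin⟩ := (isCompact_sphere a R).exists_isMinOn hsph (hcont.mono hsub)
  have hw0ne : w0 ≠ a := by
    rintro rfl
    rw [mem_sphere, dist_self] at hw0
    linarith
  set mu := g (γ w0) with hmu
  have hmu0 : 0 < mu := hpos w0 (hsub hw0) hw0ne
  -- the lower bound
  have key : ∀ z, 0 < dist z a → dist z a < R → mu / 4 ≤ g (γ z) := by
    intro z hz0 hzR
    have hε0 : 0 < dist z a ^ 2 / R := by positivity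
    have hεd : dist z a ^ 2 / R < dist z a := by
      rw [div_lt_iff₀ hR0]
      nlinarith
    let A : Set ℂ := {w | dist z a ^ 2 / R ≤ dist w a ∧ dist w a ≤ R}
    have hAsub : A ⊆ ball a r := fun w hw => lt_of_le_of_lt hw.2 hRr
    have hAc : IsCompact A := by
      refine (isCompact_closedBall a R).of_isClosed_subset ?_ fun w hw => hw.2
      refine IsClosed.inter ?_ ?_
      · exact isClosed_le continuous_const (continuous_id.dist continuous_const)
      · exact isClosed_le (continuous_id.dist continuous_const) continuous_const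
    have hK : IsCompact (γ '' A) := hAc.image_of_continuousOn (hγ.continuousOn.mono hAsub)
    have hKp : ∀ x ∈ γ '' A, 0 < g x := by
      rintro _ ⟨w, hw, rfl⟩
      refine hpos w (hAsub hw) ?_
      rintro rfl
      have := hw.1
      rw [dist_self] at this
      linarith
    obtain ⟨h1, h2⟩ := HD_unif H hK hKp
    have hzA : z ∈ A := ⟨hεd.le, hzR.le⟩
    have hlim : Tendsto (fun n => c n * Real.log ‖h n (γ z)‖) atTop (𝓝 (g (γ z))) := by
      rw [Metric.tendsto_nhds]
      intro e he
      filter_upwards [h2 e he] with n hn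
      have := hn (γ z) (mem_image_of_mem γ hzA)
      rw [Real.dist_eq, abs_sub_comm]
      exact this
    refine ge_of_tendsto hlim ?_
    filter_upwards [h1, h2 (mu / 2) (by positivity)] with n hn1 hn2
    have := HD_annulus (f := fun w => h n (γ w)) (a := a) (z := z) (R := R) (c := c n)
      (mu := mu / 2) hz0 hzR (hc n) ?_ ?_
    · have h4 : mu / 2 / 2 = mu / 4 := by ring
      rw [h4] at this
      exact this
    · intro w hw1 hw2
      have hwA : w ∈ A := ⟨hw1, hw2⟩
      refine ⟨?_, hn1 _ (mem_image_of_mem γ hwA)⟩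
      have : DifferentiableAt ℂ γ w :=
        (hγ w (hAsub hwA)).differentiableAt (isOpen_ball.mem_nhds (hAsub hwA))
      exact (hh n (γ w)).comp w this
    · intro w hw
      have hwA : w ∈ A := ⟨by rw [hw]; exact hεd.le.trans hzR.le, hw.le⟩
      have h5 := hn2 _ (mem_image_of_mem γ hwA)
      have h6 : mu ≤ g (γ w) := hmin (by rw [mem_sphere]; exact hw)
      have h7 := (abs_lt.1 h5).2
      show mu / 2 ≤ c n * Real.log ‖h n (γ w)‖
      linarith
  -- continuity at a
  have hca : ContinuousAt (fun z => g (γ z)) a :=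
    (hcont a (mem_ball_self hr)).continuousAt (ball_mem_nhds a hr)
  have hlim : Tendsto (fun z => g (γ z)) (𝓝[≠] a) (𝓝 (g (γ a))) :=
    hca.tendsto.mono_left nhdsWithin_le_nhds
  have : mu / 4 ≤ g (γ a) := by
    refine ge_of_tendsto hlim ?_
    have hb : ball a R ∈ 𝓝[≠] a := mem_nhdsWithin_of_mem_nhds (ball_mem_nhds a hR0)
    filter_upwards [hb, self_mem_nhdsWithin] with z hz1 hz2
    exact key z (dist_pos.2 hz2) hz1
  linarith

end Pool.Agent.HQ
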