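import Pool.Agent.HQ.Defs
import Pool.Agent.HQ.HDefs
import Pool.Agent.HQ.HA
import Pool.Agent.HQ.HB
import Pool.Agent.HQ.HC

/-!
# HQ module HE: the Green function is a limit of logarithms
-/

set_option autoImplicit false

open Filter Topology Set Metric

namespace Pool.Agent.HQ

theorem HE_succ (F : Equiv.Perm E) (n : ℕ) (y : E) : (F ^ (n + 1)) y = F ((F ^ n) y) := by
  rw [pow_succ', Equiv.Perm.mul_apply]

/-- the region where the first coordinate dominates is invariant -/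
theorem HE_inv {F : Equiv.Perm E} {R : ℝ} (hR : 1 ≤ R)
    (f1 : ∀ z : E, R ≤ ‖z.1‖ → ‖z.2‖ ≤ ‖z.1‖ → ‖(F z).2‖ ≤ ‖(F z).1‖ ∧ 2 * ‖z.1‖ ≤ ‖(F z).1‖)
    {m : ℕ} {y : E} (h1 : R ≤ ‖((F ^ m) y).1‖) (h2 : ‖((F ^ m) y).2‖ ≤ ‖((F ^ m) y).1‖) (k : ℕ) :
    R ≤ ‖((F ^ (m + k)) y).1‖ ∧ ‖((F ^ (m + k)) y).2‖ ≤ ‖((F ^ (m + k)) y).1‖ := by
  induction k with
  | zero => exact ⟨h1, h2⟩
  | succ k ih =>
    obtain ⟨h3, h4⟩ := f1 _ ih.1 ih.2
    rw [← add_assoc, HE_succ]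
    exact ⟨by linarith [ih.1], h3⟩

/-- backward estimates in the region where the second coordinate dominates -/
theorem HE_back {F : Equiv.Perm E} {R : ℝ} (hR : 1 ≤ R)
    (f3 : ∀ z : E, R ≤ ‖(F z).2‖ → ‖(F z).1‖ ≤ ‖(F z).2‖ → ‖z.1‖ ≤ ‖z.2‖ ∧ 2 * ‖(F z).2‖ ≤ ‖z.2‖)
    (n : ℕ) (y : E) (h1 : R ≤ ‖((F ^ n) y).2‖) (h2 : ‖((F ^ n) y).1‖ ≤ ‖((F ^ n) y).2‖) :
    2 ^ n * ‖((F ^ n) y).2‖ ≤ ‖y.2‖ := by
  induction n with
  | zero => simp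
  | succ n ih =>
    rw [HE_succ] at h1 h2 ⊢
    obtain ⟨h3, h4⟩ := f3 _ h1 h2
    have h5 := ih (by linarith) h3
    have h6 : (0 : ℝ) < 2 ^ n := by positivity
    calc 2 ^ (n + 1) * ‖(F ((F ^ n) y)).2‖ = 2 ^ n * (2 * ‖(F ((F ^ n) y)).2‖) := by ring
      _ ≤ 2 ^ n * ‖((F ^ n) y).2‖ := by gcongr
      _ ≤ ‖y.2‖ := h5

/-- far points of late iterates are in the region where the first coordinate dominates -/
theorem HE_far {F : Equiv.Perm E} {R ρ : ℝ} (hR : 1 ≤ R)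
    (f3 : ∀ z : E, R ≤ ‖(F z).2‖ → ‖(F z).1‖ ≤ ‖(F z).2‖ → ‖z.1‖ ≤ ‖z.2‖ ∧ 2 * ‖(F z).2‖ ≤ ‖z.2‖)
    {n : ℕ} (hn : ρ < 2 ^ n) {y : E} (hy : ‖y‖ ≤ ρ) (h : R < ‖(F ^ n) y‖) :
    R ≤ ‖((F ^ n) y).1‖ ∧ ‖((F ^ n) y).2‖ ≤ ‖((F ^ n) y).1‖ := by
  by_contra hc
  have h1 : R ≤ ‖((F ^ n) y).2‖ ∧ ‖((F ^ n) y).1‖ ≤ ‖((F ^ n) y).2‖ := by
    rw [Prod.norm_def, lt_max_iff] at h
    rcases h with h | h
    · have h2 : ¬ ‖((F ^ n) y).2‖ ≤ ‖((F ^ n) y).1‖ := fun h3 => hc ⟨h.le, h3⟩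
      rw [not_le] at h2
      exact ⟨by linarith, h2.le⟩
    · refine ⟨h.le, ?_⟩
      by_contra h2
      rw [not_le] at h2
      exact hc ⟨by linarith, h2.le⟩
  have h2 := HE_back hR f3 n y h1.1 h1.2
  have h3 : ‖y.2‖ ≤ ‖y‖ := norm_snd_le y
  have h4 : (0 : ℝ) < 2 ^ n := by positivity
  have h5 : (2 : ℝ) ^ n * 1 ≤ 2 ^ n * ‖((F ^ n) y).2‖ := by
    have : (1 : ℝ) ≤ ‖((F ^ n) y).2‖ := by linarith [h1.1]
    gcongr
  linarith

theorem green_logLim {L : List (ℂˣ × Polynomial ℂ)} (hL : Adm L) :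
    LogLim (Green (henon L) (hdeg L)) := by
  obtain ⟨R, C, hR, hC, f1, f2, f3⟩ := filtration hL
  set F := henon L with hF
  have hd : (1 : ℝ) < hdeg L := by
    have := hdeg_ge hL
    have h2 : (2 : ℝ) ≤ hdeg L := by exact_mod_cast this
    linarith
  have f1' : ∀ z : E, R ≤ ‖z.1‖ → ‖z.2‖ ≤ ‖z.1‖ →
      ‖(F z).2‖ ≤ ‖(F z).1‖ ∧ 2 * ‖z.1‖ ≤ ‖(F z).1‖ := fun z h1 h2 =>
    ⟨(f1 z h1 h2).1, (f1 z h1 h2).2.1⟩
  refine ⟨fun n z => ((F ^ n) z).1, fun n => 1 / (hdeg L : ℝ) ^ n, fun n => ?_, fun n => ?_,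
    fun x hx => ?_⟩
  · exact differentiable_fst.comp (diff_pow (henon_diff L) n)
  · have : (0 : ℝ) < (hdeg L : ℝ) ^ n := by positivity
    positivity
  -- a late iterate of `x` which is far away
  obtain ⟨n1, hn1⟩ := pow_unbounded_of_one_lt (‖x‖ + 1) (one_lt_two : (1 : ℝ) < 2)
  have hux : x ∉ Kplus F := by
    intro h
    have := (green_zero_iff hL x).2 h
    rw [this] at hx
    exact lt_irrefl _ hx
  obtain ⟨n2, hn12, hn2⟩ : ∃ n2, n1 ≤ n2 ∧ R < ‖(F ^ n2) x‖ := by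
    by_contra hc
    push Not at hc
    apply hux
    have hsub : (range fun n : ℕ => (F ^ n) x) ⊆
        closedBall 0 R ∪ ((fun n : ℕ => (F ^ n) x) '' (Set.Iio n1)) := by
      rintro _ ⟨n, rfl⟩
      by_cases h : n1 ≤ n
      · left
        rw [mem_closedBall, dist_zero_right]
        exact hc n h
      · right
        exact ⟨n, not_le.1 h, rfl⟩
    exact (isBounded_closedBall.union ((Set.finite_Iio n1).image _).isBounded).subset hsub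
  have hcont : Continuous fun y : E => ‖(F ^ n2) y‖ :=
    (diff_pow (henon_diff L) n2).continuous.norm
  have hev : ∀ᶠ y in 𝓝 x, R < ‖(F ^ n2) y‖ := hcont.continuousAt.eventually (lt_mem_nhds hn2)
  obtain ⟨r0, hr0, hball⟩ := Metric.eventually_nhds_iff_ball.1 hev
  set r := min r0 1 with hr
  have hrpos : 0 < r := lt_min hr0 one_pos
  have hpow : ‖x‖ + 1 < 2 ^ n2 := by
    have : (2 : ℝ) ^ n1 ≤ 2 ^ n2 := pow_le_pow_right₀ one_le_two hn12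
    linarith
  have hnorm : ∀ y ∈ ball x r, ‖y‖ ≤ ‖x‖ + 1 := by
    intro y hy
    have h1 : dist y x < 1 := lt_of_lt_of_le hy (min_le_right _ _)
    have h2 : ‖y‖ ≤ ‖x‖ + dist y x := by
      rw [dist_eq_norm]
      calc ‖y‖ = ‖x + (y - x)‖ := by rw [add_sub_cancel]
        _ ≤ ‖x‖ + ‖y - x‖ := norm_add_le _ _
    linarith
  have hV : ∀ y ∈ ball x r, ∀ n, n2 ≤ n →
      R ≤ ‖((F ^ n) y).1‖ ∧ ‖((F ^ n) y).2‖ ≤ ‖((F ^ n) y).1‖ := by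
    intro y hy n hn
    obtain ⟨k, rfl⟩ := Nat.exists_eq_add_of_le hn
    have h1 := HE_far hR f3 hpow (hnorm y hy)
      (hball y (ball_subset_ball (min_le_left _ _) hy))
    exact HE_inv hR f1' h1.1 h1.2 k
  have hV1 : ∀ y ∈ ball x r, ∀ n, n2 + 1 ≤ n → 1 < ‖((F ^ n) y).1‖ := by
    intro y hy n hn
    obtain ⟨k, rfl⟩ := Nat.exists_eq_add_of_le hn
    have h1 := hV y hy (n2 + k) (by omega)
    have h2 := (f1' _ h1.1 h1.2).2
    rw [← HE_succ] at h2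
    rw [show n2 + 1 + k = n2 + k + 1 by ring]
    linarith [h1.1]
  refine ⟨r, hrpos, ?_, ?_⟩
  · filter_upwards [eventually_ge_atTop (n2 + 1)] with n hn y hy
    exact hV1 y hy n hn
  · obtain ⟨C', hC'⟩ := green_rate hL (‖x‖ + 1)
    rw [Metric.tendstoUniformlyOn_iff]
    intro ε hε
    have hlim : Tendsto (fun n : ℕ => C' / (hdeg L : ℝ) ^ n) atTop (𝓝 0) := by
      have h1 := tendsto_pow_atTop_atTop_of_one_lt hd
      exact h1.const_div_atTop C'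
    filter_upwards [eventually_ge_atTop (n2 + 1), (hlim.eventually (gt_mem_nhds hε))]
      with n hn hn' y hy
    have h1 := hV y hy n (by omega)
    have h2 := hV1 y hy n hn
    have h3 : ‖(F ^ n) y‖ = ‖((F ^ n) y).1‖ := by
      rw [Prod.norm_def]
      exact max_eq_left h1.2
    have h4 := hC' y (hnorm y hy) n
    rw [← hF, h3, max_eq_right h2.le] at h4
    rw [dist_comm, Real.dist_eq, one_div, inv_mul_eq_div]
    exact lt_of_le_of_lt h4 hn'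

end Pool.Agent.HQ
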