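import Pool.Agent.HQ.Defs
import Pool.Agent.HQ.HDefs
import Pool.Agent.HQ.HA

/-!
# HQ module HF: the inverse map is conjugate to a generalized Henon map
-/

set_option autoImplicit false

open Filter Topology Set Metric

namespace Pool.Agent.HQ

/-- the exchange of the coordinates -/
def HF_s : Equiv.Perm E := Equiv.prodComm ℂ ℂ

theorem HF_s_apply (z : E) : HF_s z = z.swap := rfl

theorem HF_ss : HF_s * HF_s = 1 := by
  apply Equiv.ext
  intro z
  rfl

/-- the pair of the inverse map -/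
noncomputable def HF_q (q : ℂˣ × Polynomial ℂ) : ℂˣ × Polynomial ℂ :=
  (q.1⁻¹, Polynomial.C (-((q.1⁻¹ : ℂˣ) : ℂ)) * q.2)

theorem HF_rev_nil : rev [] = [] := rfl

theorem HF_rev_cons (q : ℂˣ × Polynomial ℂ) (L : List (ℂˣ × Polynomial ℂ)) :
    rev (q :: L) = rev L ++ [HF_q q] := by
  unfold rev
  rw [List.map_cons, List.reverse_cons]
  rfl

theorem HF_deg (q : ℂˣ × Polynomial ℂ) : (HF_q q).2.natDegree = q.2.natDegree := by
  unfold HF_q
  refine Polynomial.natDegree_C_mul ?_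
  exact neg_ne_zero.2 (Units.ne_zero _)

theorem rev_adm {L : List (ℂˣ × Polynomial ℂ)} (hL : Adm L) : Adm (rev L) := by
  refine ⟨?_, ?_⟩
  · intro h
    unfold rev at h
    rw [List.reverse_eq_nil_iff, List.map_eq_nil_iff] at h
    exact hL.1 h
  · intro q hq
    unfold rev at hq
    rw [List.mem_reverse, List.mem_map] at hq
    obtain ⟨q', hq', rfl⟩ := hq
    have h1 := HF_deg q'
    have h2 := hL.2 q' hq'
    rw [← h1] at h2
    exact h2

theorem rev_deg (L : List (ℂˣ × Polynomial ℂ)) : hdeg (rev L) = hdeg L := by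
  induction L with
  | nil => rfl
  | cons q L ih =>
    rw [HF_rev_cons]
    unfold hdeg at ih ⊢
    rw [List.map_append, List.prod_append, ih, List.map_cons, List.prod_cons, List.map_cons,
      List.prod_cons, List.map_nil, List.prod_nil, mul_one, HF_deg, mul_comm]

theorem HF_hen (q : ℂˣ × Polynomial ℂ) :
    (hen q.1 q.2)⁻¹ = HF_s * hen (HF_q q).1 (HF_q q).2 * HF_s := by
  apply Equiv.ext
  intro z
  show ((z.2, (z.1 - q.2.eval z.2) * ((q.1⁻¹ : ℂˣ) : ℂ)) : E) =
    (z.2, ((q.1⁻¹ : ℂˣ) : ℂ) * z.1 +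
      (Polynomial.C (-((q.1⁻¹ : ℂˣ) : ℂ)) * q.2).eval z.2)
  refine Prod.ext rfl ?_
  show (z.1 - q.2.eval z.2) * ((q.1⁻¹ : ℂˣ) : ℂ) = ((q.1⁻¹ : ℂˣ) : ℂ) * z.1 +
      (Polynomial.C (-((q.1⁻¹ : ℂˣ) : ℂ)) * q.2).eval z.2
  rw [Polynomial.eval_mul, Polynomial.eval_C]
  ring

theorem HF_inv (L : List (ℂˣ × Polynomial ℂ)) :
    (henon L)⁻¹ = HF_s * henon (rev L) * HF_s := by
  induction L with
  | nil =>
    rw [HF_rev_nil]
    have : henon [] = 1 := rfl
    rw [this, inv_one, mul_one, HF_ss]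
  | cons q L ih =>
    have h1 : henon (q :: L) = hen q.1 q.2 * henon L := by
      unfold henon
      rw [List.map_cons, List.prod_cons]
    have h2 : henon (rev (q :: L)) = henon (rev L) * hen (HF_q q).1 (HF_q q).2 := by
      rw [HF_rev_cons]
      unfold henon
      rw [List.map_append, List.prod_append, List.map_cons, List.prod_cons, List.map_nil,
        List.prod_nil, mul_one]
    rw [h1, mul_inv_rev, ih, HF_hen, h2]
    have h3 : HF_s * henon (rev L) * HF_s * (HF_s * hen (HF_q q).1 (HF_q q).2 * HF_s)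
        = HF_s * henon (rev L) * (HF_s * HF_s) * hen (HF_q q).1 (HF_q q).2 * HF_s := by
      simp only [mul_assoc]
    rw [h3, HF_ss, mul_one]
    simp only [mul_assoc]

theorem HF_pow (h : Equiv.Perm E) (n : ℕ) :
    (HF_s * h * HF_s) ^ n = HF_s * h ^ n * HF_s := by
  induction n with
  | zero => rw [pow_zero, pow_zero, mul_one, HF_ss]
  | succ n ih =>
    rw [pow_succ, ih, pow_succ]
    have h3 : HF_s * h ^ n * HF_s * (HF_s * h * HF_s)
        = HF_s * h ^ n * (HF_s * HF_s) * h * HF_s := by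
      simp only [mul_assoc]
    rw [h3, HF_ss, mul_one]
    simp only [mul_assoc]

theorem henon_inv (L : List (ℂˣ × Polynomial ℂ)) (z : E) :
    ((henon L)⁻¹ : Equiv.Perm E) z = ((henon (rev L)) z.swap).swap := by
  rw [HF_inv]
  rfl

theorem henon_inv_pow (L : List (ℂˣ × Polynomial ℂ)) (n : ℕ) (z : E) :
    (((henon L)⁻¹ : Equiv.Perm E) ^ n) z = (((henon (rev L)) ^ n) z.swap).swap := by
  rw [HF_inv, HF_pow]
  rfl

theorem henon_inv_diff (L : List (ℂˣ × Polynomial ℂ)) :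
    Differentiable ℂ (⇑((henon L)⁻¹ : Equiv.Perm E)) := by
  have h1 : (⇑((henon L)⁻¹ : Equiv.Perm E) : E → E) =
      fun z : E => (((henon (rev L)) (z.2, z.1)).2, ((henon (rev L)) (z.2, z.1)).1) := by
    funext z
    rw [henon_inv]
    rfl
  rw [h1]
  have h2 := henon_diff (rev L)
  have h3 : Differentiable ℂ fun z : E => ((henon (rev L)) (z.2, z.1)) :=
    h2.comp (differentiable_snd.prodMk differentiable_fst)
  exact h3.snd.prodMk h3.fst

theorem HF_norm (z : E) : ‖z.swap‖ = ‖z‖ := by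
  rw [Prod.norm_def, Prod.norm_def, max_comm]
  rfl

theorem green_inv (L : List (ℂˣ × Polynomial ℂ)) (z : E) :
    Green (henon L)⁻¹ (hdeg L) z = Green (henon (rev L)) (hdeg (rev L)) z.swap := by
  unfold Green
  rw [rev_deg]
  have h : (fun n : ℕ => Real.log (max 1 ‖(((henon L)⁻¹ : Equiv.Perm E) ^ n) z‖) /
      ((hdeg L : ℕ) : ℝ) ^ n) =
      (fun n : ℕ => Real.log (max 1 ‖((henon (rev L)) ^ n) z.swap‖) /
      ((hdeg L : ℕ) : ℝ) ^ n) := by
    funext n
    rw [henon_inv_pow, HF_norm]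
  rw [h]

theorem Kplus_inv (L : List (ℂˣ × Polynomial ℂ)) (z : E) :
    z ∈ Kplus (henon L)⁻¹ ↔ z.swap ∈ Kplus (henon (rev L)) := by
  unfold Kplus
  show Bornology.IsBounded (range fun n : ℕ => (((henon L)⁻¹ : Equiv.Perm E) ^ n) z) ↔
    Bornology.IsBounded (range fun n : ℕ => ((henon (rev L)) ^ n) z.swap)
  rw [isBounded_iff_forall_norm_le, isBounded_iff_forall_norm_le]
  simp only [forall_mem_range]
  have h : ∀ n : ℕ, ‖(((henon L)⁻¹ : Equiv.Perm E) ^ n) z‖ = ‖((henon (rev L)) ^ n) z.swap‖ := by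
    intro n
    rw [henon_inv_pow, HF_norm]
  simp only [h]

end Pool.Agent.HQ
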