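import Pool.Agent.HQ.Defs
import Pool.Agent.HQ.HDefs
import Pool.Agent.HQ.HA
import Pool.Agent.HQ.HB
import Pool.Agent.HQ.HF

/-!
# HQ module HG: sublevel sets are bounded
-/

set_option autoImplicit false

open Filter Topology Set Metric

namespace Pool.Agent.HQ

theorem HG_aux {t c C R : ℝ} (ht : 0 ≤ t) (h : R ≤ t → Real.log t - C ≤ c) :
    t ≤ max R (Real.exp (c + C)) := by
  by_cases hR : R ≤ t
  · have h1 := h hR
    refine le_max_of_le_right ?_
    rcases ht.eq_or_lt with h0 | h0
    · rw [← h0]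
      exact (Real.exp_pos _).le
    · rw [← Real.log_le_iff_le_exp h0]
      linarith
  · exact le_max_of_le_left (le_of_lt (not_le.1 hR))

theorem green_bdd {L : List (ℂˣ × Polynomial ℂ)} (hL : Adm L) (c : ℝ) :
    Bornology.IsBounded {z : E | Green (henon L) (hdeg L) z ≤ c ∧
      Green (henon L)⁻¹ (hdeg L) z ≤ c} := by
  obtain ⟨R1, C1, h1⟩ := green_lower hL
  obtain ⟨R2, C2, h2⟩ := green_lower (rev_adm hL)
  rw [isBounded_iff_forall_norm_le]
  refine ⟨max (max R1 (Real.exp (c + C1))) (max R2 (Real.exp (c + C2))), ?_⟩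
  rintro z ⟨hz1, hz2⟩
  rcases le_total ‖z.2‖ ‖z.1‖ with h | h
  · have e : ‖z‖ = ‖z.1‖ := by
      rw [Prod.norm_def]
      exact max_eq_left h
    rw [e]
    refine le_max_of_le_left (HG_aux (norm_nonneg _) fun hR => ?_)
    exact (h1 z hR h).trans hz1
  · have e : ‖z‖ = ‖z.2‖ := by
      rw [Prod.norm_def]
      exact max_eq_right h
    rw [e]
    refine le_max_of_le_right (HG_aux (norm_nonneg _) fun hR => ?_)
    have h3 := h2 z.swap hR h
    rw [← green_inv L z] at h3
    exact h3.trans hz2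

end Pool.Agent.HQ
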