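import Pool.Agent.HQ.Defs
import Pool.Agent.HQ.HDefs
import Pool.Agent.HQ.HA
import Pool.Agent.HQ.HB
import Pool.Agent.HQ.HC
import Pool.Agent.HQ.HD
import Pool.Agent.HQ.HE
import Pool.Agent.HQ.HF
import Pool.Agent.HQ.HG

/-!
# HQ module HH: the abstract system of a generalized Henon map
-/

set_option autoImplicit false

open Filter Topology Set Metric

namespace Pool.Agent.HQ

theorem HH_swap_cont : Continuous fun z : E => z.swap := continuous_swap

theorem HH_swap_diff {γ : ℂ → E} {D : Set ℂ} (h : DifferentiableOn ℂ γ D) :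
    DifferentiableOn ℂ (fun t => (γ t).swap) D :=
  h.snd.prodMk h.fst

theorem HH_harn {g : E → ℝ} (h : Harn g) : Harn (fun z => g z.swap) := by
  intro γ a r hr hγ hpos z hz
  exact h (fun t => (γ t).swap) a r hr (HH_swap_diff hγ) hpos z hz

theorem HH_noIso {g : E → ℝ} (h : NoIso g) : NoIso (fun z => g z.swap) := by
  intro γ a r hr hγ hpos
  exact h (fun t => (γ t).swap) a r hr (HH_swap_diff hγ) hpos

theorem HH_green (L : List (ℂˣ × Polynomial ℂ)) : Green (henon L)⁻¹ (hdeg L) =
    fun z : E => Green (henon (rev L)) (hdeg (rev L)) z.swap := by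
  funext z
  exact green_inv L z

theorem HH_hd {L : List (ℂˣ × Polynomial ℂ)} (hL : Adm L) : (1 : ℝ) < hdeg L := by
  have h := hdeg_ge hL
  have h2 : (2 : ℝ) ≤ hdeg L := by exact_mod_cast h
  linarith

theorem HH_map {L : List (ℂˣ × Polynomial ℂ)} (hL : Adm L) (x : E) :
    Green (henon L)⁻¹ (hdeg L) (((henon L)⁻¹ : Equiv.Perm E) x) =
      hdeg L * Green (henon L)⁻¹ (hdeg L) x := by
  rw [green_inv, green_inv, henon_inv, Prod.swap_swap, green_map (rev_adm hL), rev_deg]

/-- the system of a generalized Henon map -/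
noncomputable def hsys (L : List (ℂˣ × Polynomial ℂ)) (hL : Adm L) : Sys where
  F := henon L
  dF := henon_diff L
  dG := henon_inv_diff L
  d := hdeg L
  hd := HH_hd hL
  P := Green (henon L) (hdeg L)
  M := Green (henon L)⁻¹ (hdeg L)
  cP := green_cont hL
  cM := by
    rw [HH_green]
    exact (green_cont (rev_adm hL)).comp HH_swap_cont
  P0 := green_nonneg hL
  M0 := by
    intro x
    rw [green_inv]
    exact green_nonneg (rev_adm hL) _
  PF := green_map hL
  MF := HH_map hL
  bdd := green_bdd hL
  neP := green_pos hL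
  neM := by
    obtain ⟨z, hz⟩ := green_pos (rev_adm hL)
    refine ⟨z.swap, ?_⟩
    rw [green_inv, Prod.swap_swap]
    exact hz
  hP := harn_of_logLim (green_cont hL) (green_logLim hL)
  hM := by
    rw [HH_green]
    exact HH_harn (harn_of_logLim (green_cont (rev_adm hL)) (green_logLim (rev_adm hL)))
  iP := noIso_of_logLim (green_cont hL) (green_nonneg hL) (green_logLim hL)
  iM := by
    rw [HH_green]
    exact HH_noIso (noIso_of_logLim (green_cont (rev_adm hL)) (green_nonneg (rev_adm hL))
      (green_logLim (rev_adm hL)))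

end Pool.Agent.HQ
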