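import Pool.Agent.HQ.Defs
import Pool.Agent.HQ.HDefs

/-!
# HQ module HV1: volume
-/

set_option autoImplicit false

open Filter Topology Set Metric

namespace Pool.Agent.HQ

open MeasureTheory in
theorem HV1_slice (a : ℂˣ) (c : ℂ) (S : Set ℂ) :
    volume {u : ℂ | (u - c) * ((a⁻¹ : ℂˣ) : ℂ) ∈ S} = ENNReal.ofReal (‖(a : ℂ)‖ ^ 2) * volume S := by
  have ha : (a : ℂ) ≠ 0 := a.ne_zero
  have hdet : LinearMap.det (LinearMap.mulLeft ℝ ((a⁻¹ : ℂˣ) : ℂ)) = (‖(a : ℂ)‖ ^ 2)⁻¹ := by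
    have h1 : LinearMap.det (LinearMap.mulLeft ℝ ((a⁻¹ : ℂˣ) : ℂ)) =
        Algebra.norm ℝ ((a⁻¹ : ℂˣ) : ℂ) := rfl
    rw [h1, Algebra.norm_complex_apply, Complex.normSq_eq_norm_sq, Units.val_inv_eq_inv_val,
      norm_inv, inv_pow]
  have hne : LinearMap.det (LinearMap.mulLeft ℝ ((a⁻¹ : ℂˣ) : ℂ)) ≠ 0 := by
    rw [hdet]
    have : 0 < ‖(a : ℂ)‖ := norm_pos_iff.2 ha
    positivity
  have h2 := Measure.addHaar_preimage_linearMap (volume : Measure ℂ) hne S
  have h3 : {u : ℂ | (u - c) * ((a⁻¹ : ℂˣ) : ℂ) ∈ S} =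
      (fun u => u + (-c)) ⁻¹' ((LinearMap.mulLeft ℝ ((a⁻¹ : ℂˣ) : ℂ)) ⁻¹' S) := by
    ext u
    simp only [mem_ofPred_eq, mem_preimage, LinearMap.mulLeft_apply]
    rw [mul_comm, sub_eq_add_neg]
  rw [h3, measure_preimage_add_right, h2, hdet, inv_inv, abs_of_nonneg (by positivity)]

theorem HV1_cont (a : ℂˣ) (P : Polynomial ℂ) : Continuous (hen a P).symm := by
  show Continuous fun z : E => (z.2, (z.1 - P.eval z.2) * ((a⁻¹ : ℂˣ) : ℂ))
  have h := P.continuous
  fun_prop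

theorem HV1_meas {F : Equiv.Perm E} (hF : Continuous F.symm) {A : Set E} (hA : MeasurableSet A) :
    MeasurableSet (F '' A) := by
  rw [F.image_eq_preimage_symm]
  exact hF.measurable hA

open MeasureTheory in
theorem vol_hen (a : ℂˣ) (P : Polynomial ℂ) {A : Set E} (hA : MeasurableSet A) :
    volume ((hen a P) '' A) = ENNReal.ofReal (‖(a : ℂ)‖ ^ 2) * volume A := by
  have hB : MeasurableSet ((hen a P) '' A) := HV1_meas (HV1_cont a P) hA
  rw [Measure.volume_eq_prod, Measure.prod_apply_symm hB, Measure.prod_apply hA,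
    ← lintegral_const_mul' _ _ ENNReal.ofReal_ne_top]
  refine lintegral_congr fun v => ?_
  rw [← HV1_slice a (P.eval v)]
  congr 1
  ext u
  rw [(hen a P).image_eq_preimage_symm]
  rfl

open MeasureTheory in
theorem vol_henon (L : List (ℂˣ × Polynomial ℂ)) {A : Set E} (hA : MeasurableSet A) :
    volume ((henon L) '' A) =
      ENNReal.ofReal ((L.map fun q => ‖((q.1 : ℂˣ) : ℂ)‖ ^ 2).prod) * volume A := by
  have key : MeasurableSet ((henon L) '' A) ∧ volume ((henon L) '' A) =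
      ENNReal.ofReal ((L.map fun q => ‖((q.1 : ℂˣ) : ℂ)‖ ^ 2).prod) * volume A := by
    induction L with
    | nil =>
      have h1 : (⇑(henon []) : E → E) = id := rfl
      rw [h1, image_id]
      simpa using hA
    | cons q L ih =>
      have h1 : (⇑(henon (q :: L)) : E → E) = ⇑(hen q.1 q.2) ∘ ⇑(henon L) := by
        unfold henon
        rw [List.map_cons, List.prod_cons]
        rfl
      rw [h1, image_comp]
      refine ⟨HV1_meas (HV1_cont _ _) ih.1, ?_⟩
      rw [vol_hen q.1 q.2 ih.1, ih.2, List.map_cons, List.prod_cons, ← mul_assoc,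
        ENNReal.ofReal_mul (by positivity)]
  exact key.2

end Pool.Agent.HQ
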