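import Pool.Agent.HQ.Defs
import Pool.Agent.HQ.Bas

/-!
# HQ module HV2: the volume trichotomy
-/

set_option autoImplicit false

open Filter Topology Set Metric

namespace Pool.Agent.HQ

theorem HV2_inv_apply (F : Equiv.Perm E) (x : E) : F⁻¹ (F x) = x := F.symm_apply_apply x

theorem HV2_apply_inv (F : Equiv.Perm E) (x : E) : F (F⁻¹ x) = x := F.apply_symm_apply x

theorem HV2_P_apply (S : Sys) (x : E) : S.P (S.F x) = S.d * S.P x := S.PF x

theorem HV2_M_apply (S : Sys) (x : E) : S.M x = S.d * S.M (S.F x) := by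
  have := S.MF (S.F x)
  rwa [HV2_inv_apply] at this

/-- sublevel sets in `Km` -/
def HV2_A (S : Sys) (s : ℝ) : Set E := {x | S.M x = 0 ∧ S.P x ≤ s}

/-- sublevel sets in `Kp` -/
def HV2_B (S : Sys) (s : ℝ) : Set E := {x | S.P x = 0 ∧ S.M x ≤ s}

theorem HV2_image_A (S : Sys) (s : ℝ) : S.F '' HV2_A S (s / S.d) = HV2_A S s := by
  have hd : 0 < S.d := by linarith [S.hd]
  ext y
  constructor
  · rintro ⟨x, ⟨h1, h2⟩, rfl⟩
    refine ⟨?_, ?_⟩
    · have := HV2_M_apply S x
      rw [h1] at this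
      rcases mul_eq_zero.1 this.symm with h | h
      · exact absurd h hd.ne'
      · exact h
    · rw [HV2_P_apply]
      have := mul_le_mul_of_nonneg_left h2 hd.le
      rwa [mul_div_cancel₀ s hd.ne'] at this
  · rintro ⟨h1, h2⟩
    refine ⟨S.F⁻¹ y, ⟨?_, ?_⟩, HV2_apply_inv S.F y⟩
    · rw [S.MF, h1, mul_zero]
    · rw [le_div_iff₀ hd, mul_comm]
      have := HV2_P_apply S (S.F⁻¹ y)
      rw [HV2_apply_inv] at this
      rw [← this]
      exact h2

theorem HV2_image_B (S : Sys) (s : ℝ) : S.F '' HV2_B S s = HV2_B S (s / S.d) := by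
  have hd : 0 < S.d := by linarith [S.hd]
  ext y
  constructor
  · rintro ⟨x, ⟨h1, h2⟩, rfl⟩
    refine ⟨?_, ?_⟩
    · rw [HV2_P_apply, h1, mul_zero]
    · rw [le_div_iff₀ hd, mul_comm, ← HV2_M_apply]
      exact h2
  · rintro ⟨h1, h2⟩
    refine ⟨S.F⁻¹ y, ⟨?_, ?_⟩, HV2_apply_inv S.F y⟩
    · have := HV2_P_apply S (S.F⁻¹ y)
      rw [HV2_apply_inv, h1] at this
      rcases mul_eq_zero.1 this.symm with h | h
      · exact absurd h hd.ne'
      · exact h
    · rw [S.MF]
      have := mul_le_mul_of_nonneg_left h2 hd.le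
      rwa [mul_div_cancel₀ s hd.ne'] at this

theorem HV2_A_mono (S : Sys) {s t : ℝ} (h : s ≤ t) : HV2_A S s ⊆ HV2_A S t :=
  fun _ hx => ⟨hx.1, hx.2.trans h⟩

theorem HV2_B_mono (S : Sys) {s t : ℝ} (h : s ≤ t) : HV2_B S s ⊆ HV2_B S t :=
  fun _ hx => ⟨hx.1, hx.2.trans h⟩

theorem HV2_div_le (S : Sys) {s : ℝ} (hs : 0 ≤ s) : s / S.d ≤ s :=
  div_le_self hs S.hd.le

theorem HV2_closed_A (S : Sys) (s : ℝ) : IsClosed (HV2_A S s) :=
  (isClosed_eq S.cM continuous_const).inter (isClosed_le S.cP continuous_const)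

theorem HV2_closed_B (S : Sys) (s : ℝ) : IsClosed (HV2_B S s) :=
  (isClosed_eq S.cP continuous_const).inter (isClosed_le S.cM continuous_const)

theorem HV2_bdd_A (S : Sys) {s : ℝ} (hs : 0 ≤ s) : Bornology.IsBounded (HV2_A S s) := by
  refine (S.bdd s).subset ?_
  rintro x ⟨h1, h2⟩
  exact ⟨h2, by rw [h1]; exact hs⟩

theorem HV2_bdd_B (S : Sys) {s : ℝ} (hs : 0 ≤ s) : Bornology.IsBounded (HV2_B S s) := by
  refine (S.bdd s).subset ?_
  rintro x ⟨h1, h2⟩
  exact ⟨by rw [h1]; exact hs, h2⟩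

theorem HV2_Km (S : Sys) : S.Km ⊆ ⋃ n : ℕ, HV2_A S n := by
  intro x hx
  obtain ⟨n, hn⟩ := exists_nat_ge (S.P x)
  exact mem_iUnion.2 ⟨n, hx, hn⟩

theorem HV2_Kp (S : Sys) : S.Kp ⊆ ⋃ n : ℕ, HV2_B S n := by
  intro x hx
  obtain ⟨n, hn⟩ := exists_nat_ge (S.M x)
  exact mem_iUnion.2 ⟨n, hx, hn⟩

theorem HV2_zero_of_le {a b : ENNReal} {c : ℝ} (hc1 : c < 1) (hb : b ≠ ⊤)
    (hab : a ≤ b) (h : b = ENNReal.ofReal c * a) : b = 0 := by
  by_contra h0
  have h1 : b ≤ ENNReal.ofReal c * b := by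
    conv_lhs => rw [h]
    gcongr
  have h2 : ENNReal.ofReal c * b < 1 * b := by
    refine ENNReal.mul_lt_mul_left h0 hb ?_
    rw [← ENNReal.ofReal_one]
    exact (ENNReal.ofReal_lt_ofReal_iff one_pos).2 hc1
  rw [one_mul] at h2
  exact absurd h1 (not_le.2 h2)

open MeasureTheory in
theorem HV2_int_empty {A : Set E} (h : volume A = 0) : interior A = ∅ :=
  isOpen_interior.measure_eq_zero_iff volume |>.1 (measure_mono_null interior_subset h)

open MeasureTheory in
theorem HV2_lt (S : Sys) {c : ℝ} (hc1 : c < 1)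
    (hvol : ∀ A : Set E, MeasurableSet A →
      volume (S.F '' A) = ENNReal.ofReal c * volume A) : interior S.Km = ∅ := by
  refine HV2_int_empty (measure_mono_null (HV2_Km S) (measure_iUnion_null fun n => ?_))
  have h1 := hvol (HV2_A S (n / S.d)) (HV2_closed_A S _).measurableSet
  rw [HV2_image_A] at h1
  exact HV2_zero_of_le hc1 (HV2_bdd_A S (Nat.cast_nonneg n)).measure_lt_top.ne
    (measure_mono (HV2_A_mono S (HV2_div_le S (Nat.cast_nonneg n)))) h1

open MeasureTheory in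
theorem HV2_vol_inv (S : Sys) {c : ℝ} (hc : 0 < c)
    (hvol : ∀ A : Set E, MeasurableSet A →
      volume (S.F '' A) = ENNReal.ofReal c * volume A) :
    ∀ A : Set E, MeasurableSet A →
      volume (S.dual.F '' A) = ENNReal.ofReal c⁻¹ * volume A := by
  intro A hA
  have e : S.dual.F '' A = S.F ⁻¹' A := by
    rw [Sys.dual_F]
    ext x
    constructor
    · rintro ⟨y, hy, rfl⟩
      change S.F (S.F⁻¹ y) ∈ A
      rwa [HV2_apply_inv]
    · intro hx
      exact ⟨S.F x, hx, HV2_inv_apply S.F x⟩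
  have hm : MeasurableSet (S.F ⁻¹' A) := S.dF.continuous.measurable hA
  have h1 := hvol _ hm
  rw [image_preimage_eq A S.F.surjective] at h1
  rw [e, h1, ← mul_assoc, ← ENNReal.ofReal_mul (inv_nonneg.2 hc.le), inv_mul_cancel₀ hc.ne',
    ENNReal.ofReal_one, one_mul]

open MeasureTheory in
theorem HV2_sub (S : Sys) (hvol : ∀ A : Set E, MeasurableSet A → volume (S.F '' A) = volume A) :
    interior S.Kp ⊆ interior S.Km := by
  have hd : 0 < S.d := by linarith [S.hd]
  have hB : ∀ (s : ℝ) (n : ℕ), volume (HV2_B S (s / S.d ^ n)) = volume (HV2_B S s) := by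
    intro s n
    induction n with
    | zero => simp
    | succ n ih =>
      rw [← ih, ← hvol (HV2_B S (s / S.d ^ n)) (HV2_closed_B S _).measurableSet, HV2_image_B,
        div_div, pow_succ]
  have hnull : volume (S.Kp \ S.Km) = 0 := by
    have hsub : S.Kp \ S.Km ⊆ ⋃ (N : ℕ) (n : ℕ), HV2_B S N \ HV2_B S (N / S.d ^ n) := by
      rintro x ⟨h1, h2⟩
      have h3 : 0 < S.M x := lt_of_le_of_ne (S.M0 x) fun h => h2 h.symm
      obtain ⟨N, hN⟩ := exists_nat_ge (S.M x)
      obtain ⟨n, hn⟩ := pow_unbounded_of_one_lt ((N : ℝ) / S.M x) S.hd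
      refine mem_iUnion.2 ⟨N, mem_iUnion.2 ⟨n, ⟨h1, hN⟩, fun h4 => ?_⟩⟩
      have h5 : S.M x ≤ N / S.d ^ n := h4.2
      rw [le_div_iff₀ (pow_pos hd n)] at h5
      rw [div_lt_iff₀ h3] at hn
      linarith [mul_comm (S.d ^ n) (S.M x)]
    refine measure_mono_null hsub (measure_iUnion_null fun N => measure_iUnion_null fun n => ?_)
    rw [measure_sdiff (HV2_B_mono S ?_) (HV2_closed_B S _).measurableSet.nullMeasurableSet ?_,
      hB, tsub_self]
    · exact div_le_self (Nat.cast_nonneg N) (one_le_pow₀ S.hd.le)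
    · exact (HV2_bdd_B S (div_nonneg (Nat.cast_nonneg N) (pow_nonneg hd.le n))).measure_lt_top.ne
  have hopen : IsOpen (interior S.Kp \ S.Km) :=
    isOpen_interior.sdiff (isClosed_eq S.cM continuous_const)
  have hempty : interior S.Kp \ S.Km = ∅ :=
    (hopen.measure_eq_zero_iff volume).1
      (measure_mono_null (sdiff_subset_sdiff_left interior_subset) hnull)
  rw [sdiff_eq_empty] at hempty
  exact interior_maximal hempty isOpen_interior

open MeasureTheory in
theorem vol_tri (S : Sys) {c : ℝ} (hc : 0 < c)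
    (hvol : ∀ A : Set E, MeasurableSet A →
      volume (S.F '' A) = ENNReal.ofReal c * volume A) :
    interior S.Km = ∅ ∨ interior S.Kp = ∅ ∨ interior S.Kp = interior S.Km := by
  have hinv := HV2_vol_inv S hc hvol
  rcases lt_trichotomy c 1 with h | h | h
  · exact Or.inl (HV2_lt S h hvol)
  · right
    right
    subst h
    refine Subset.antisymm (HV2_sub S fun A hA => ?_) (HV2_sub S.dual fun A hA => ?_)
    · rw [hvol A hA, ENNReal.ofReal_one, one_mul]
    · rw [hinv A hA, inv_one, ENNReal.ofReal_one, one_mul]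
  · right
    left
    exact HV2_lt S.dual (inv_lt_one_of_one_lt₀ h) hinv

end Pool.Agent.HQ
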