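import Pool.Agent.HQ.Defs

/-!
# HQ module Lk0: the growth facts used in the linking lemma
-/

set_option autoImplicit false

open Filter Topology Set Metric

namespace Pool.Agent.HQ

/-- the growth facts of Henon maps used in the linking lemma `link` -/
structure Hen (S : Sys) : Prop where
  up : ∃ C : ℝ, ∀ x, S.P x ≤ Real.log (max 1 ‖x‖) + C
  um : ∃ C : ℝ, ∀ x, S.M x ≤ Real.log (max 1 ‖x‖) + C
  sep : ∀ A : ℝ, ∃ C : ℝ, ∀ x y : E, S.M x ≤ A → S.P y ≤ A →
    max ‖x‖ ‖y‖ ≤ 2 * ‖x - y‖ + C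

theorem Hen.dual {S : Sys} (h : Hen S) : Hen S.dual where
  up := h.um
  um := h.up
  sep := fun A => by
    obtain ⟨C, hC⟩ := h.sep A
    refine ⟨C, fun x y hx hy => ?_⟩
    have := hC y x hy hx
    rwa [max_comm, norm_sub_rev] at this

end Pool.Agent.HQ
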