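import Pool.Agent.HQ.Defs

/-!
# HQ module Lk1: a maximum principle without plurisubharmonic functions

`no_max`: let `F : ℂ × ℂ → ℂ × ℂ` be holomorphic near `q` and `F q ≠ 0`.  The function
`ε h + η |· - q₀|² - κ log |F|²`, where `h = - log |z - z₁| - log |s - s₁|`, has no local maximum
at `q`.  Proof: average over the four points `q + iᵏ ζ v` of a complex line along which the
derivative of `F` is proportional to `F q`.
-/

set_option autoImplicit false

open Filter Topology Set Metric Asymptotics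

namespace Pool.Agent.HQ

/-- Taylor expansion of order two -/
theorem Lk1_taylor {H : ℂ → ℂ} (hH : AnalyticAt ℂ H 0) :
    ∃ a b : ℂ, (fun z => H z - (H 0 + a * z + b * z ^ 2)) =O[𝓝 0] fun z => ‖z‖ ^ 3 := by
  obtain ⟨p, hp⟩ := hH
  have h3 := hp.isBigO_sub_partialSum_pow 3
  refine ⟨p.coeff 1, p.coeff 2, ?_⟩
  have h0 : p.coeff 0 = H 0 := by
    have := hp.coeff_zero 1
    rw [FormalMultilinearSeries.coeff]
    exact hp.coeff_zero _
  refine (h3.congr' ?_ (EventuallyEq.refl _ _))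
  filter_upwards with z
  rw [zero_add, FormalMultilinearSeries.partialSum]
  simp only [Finset.sum_range_succ, Finset.sum_range_zero, FormalMultilinearSeries.apply_eq_pow_smul_coeff,
    smul_eq_mul, h0]
  ring

/-- the four point sum of an analytic function -/
theorem Lk1_four {H : ℂ → ℂ} (hH : AnalyticAt ℂ H 0) :
    ∃ C : ℝ, 0 ≤ C ∧ ∀ᶠ z in 𝓝 (0 : ℂ),
      ‖H z + H (Complex.I * z) + H (-z) + H (-(Complex.I * z)) - 4 * H 0‖ ≤ C * ‖z‖ ^ 3 := by
  obtain ⟨a, b, h⟩ := Lk1_taylor hH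
  obtain ⟨C, hC0, hC⟩ := h.exists_nonneg
  rw [isBigOWith_iff] at hC
  have key : ∀ u : ℂ, ‖u‖ = 1 → ∀ᶠ z in 𝓝 (0 : ℂ),
      ‖H (u * z) - (H 0 + a * (u * z) + b * (u * z) ^ 2)‖ ≤ C * ‖z‖ ^ 3 := by
    intro u hu
    have ht : Tendsto (fun z : ℂ => u * z) (𝓝 0) (𝓝 0) := by
      have : Tendsto (fun z : ℂ => u * z) (𝓝 0) (𝓝 (u * 0)) := (continuous_const_mul u).tendsto 0
      rwa [mul_zero] at this
    filter_upwards [ht.eventually hC] with z hz
    rw [norm_pow, norm_norm, norm_mul, hu, one_mul] at hz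
    exact hz
  refine ⟨4 * C, by positivity, ?_⟩
  filter_upwards [key 1 (by simp), key Complex.I (by simp), key (-1) (by simp),
    key (-Complex.I) (by simp)] with z h1 h2 h3 h4
  rw [one_mul] at h1
  rw [neg_one_mul] at h3
  rw [neg_mul] at h4
  have e : H z + H (Complex.I * z) + H (-z) + H (-(Complex.I * z)) - 4 * H 0 =
      (H z - (H 0 + a * z + b * z ^ 2)) +
      (H (Complex.I * z) - (H 0 + a * (Complex.I * z) + b * (Complex.I * z) ^ 2)) +
      (H (-z) - (H 0 + a * (-z) + b * (-z) ^ 2)) +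
      (H (-(Complex.I * z)) - (H 0 + a * (-(Complex.I * z)) + b * (-(Complex.I * z)) ^ 2)) := by
    ring_nf
    rw [Complex.I_sq]
    ring
  rw [e]
  calc _ ≤ ‖H z - (H 0 + a * z + b * z ^ 2)‖ +
      ‖H (Complex.I * z) - (H 0 + a * (Complex.I * z) + b * (Complex.I * z) ^ 2)‖ +
      ‖H (-z) - (H 0 + a * (-z) + b * (-z) ^ 2)‖ +
      ‖H (-(Complex.I * z)) - (H 0 + a * (-(Complex.I * z)) + b * (-(Complex.I * z)) ^ 2)‖ :=
        norm_add₄_le
    _ ≤ 4 * C * ‖z‖ ^ 3 := by linarith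

/-- an analytic function with vanishing value and derivative is `O(z²)` -/
theorem Lk1_sq {B : ℂ → ℂ} (hB : AnalyticAt ℂ B 0) (h0 : B 0 = 0) (h1 : deriv B 0 = 0) :
    ∃ C : ℝ, 0 ≤ C ∧ ∀ᶠ z in 𝓝 (0 : ℂ), ‖B z‖ ≤ C * ‖z‖ ^ 2 := by
  obtain ⟨p, hp⟩ := hB
  have h2 := hp.isBigO_sub_partialSum_pow 2
  have e0 : p.coeff 0 = 0 := by
    rw [← h0]
    exact hp.coeff_zero _
  have e1 : p.coeff 1 = 0 := by
    rw [← h1, hp.deriv]
    rfl
  obtain ⟨C, hC0, hC⟩ := h2.exists_nonneg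
  rw [isBigOWith_iff] at hC
  refine ⟨C, hC0, ?_⟩
  filter_upwards [hC] with z hz
  rw [zero_add, FormalMultilinearSeries.partialSum] at hz
  simp only [Finset.sum_range_succ, Finset.sum_range_zero,
    FormalMultilinearSeries.apply_eq_pow_smul_coeff, smul_eq_mul, e0, e1, mul_zero, add_zero,
    sub_zero, norm_pow, norm_norm] at hz
  exact hz

end Pool.Agent.HQ
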