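import Pool.Agent.HQ.Lk1

/-!
# HQ module Lk2: the maximum principle `no_max`
-/

set_option autoImplicit false

open Filter Topology Set Metric Asymptotics

namespace Pool.Agent.HQ

/-- the square of the Euclidean norm -/
noncomputable def nsq (x : E) : ℝ := ‖x.1‖ ^ 2 + ‖x.2‖ ^ 2

theorem nsq_pos {x : E} (h : x ≠ 0) : 0 < nsq x := by
  unfold nsq
  by_cases h1 : x.1 = 0
  · have h2 : x.2 ≠ 0 := fun h2 => h (Prod.ext h1 h2)
    have := norm_pos_iff.2 h2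
    positivity
  · have := norm_pos_iff.2 h1
    positivity

/-- a direction in which the derivative is proportional to a given vector -/
theorem Lk2_dir (L : E →L[ℂ] E) (w : E) (hw : w ≠ 0) :
    ∃ (v : E) (α : ℂ), v ≠ 0 ∧ L v = α • w := by
  by_cases hinj : Function.Injective L
  · have hsurj : Function.Surjective L := by
      have : Function.Injective (L : E →ₗ[ℂ] E) := hinj
      exact (LinearMap.injective_iff_surjective (f := (L : E →ₗ[ℂ] E))).1 this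
    obtain ⟨v, hv⟩ := hsurj w
    refine ⟨v, 1, ?_, by rw [hv, one_smul]⟩
    rintro rfl
    rw [map_zero] at hv
    exact hw hv.symm
  · have h1 : ¬ LinearMap.ker (L : E →ₗ[ℂ] E) = ⊥ := by
      rw [LinearMap.ker_eq_bot]
      exact hinj
    obtain ⟨v, hv, hv0⟩ := (Submodule.ne_bot_iff _).1 h1
    refine ⟨v, 0, hv0, ?_⟩
    rw [zero_smul]
    exact hv

theorem Lk2_lagrange (w x : E) (hw : 0 < nsq w) :
    nsq x = nsq w * (‖(starRingEnd ℂ w.1 * x.1 + starRingEnd ℂ w.2 * x.2) / (nsq w : ℂ)‖ ^ 2 +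
      ‖(w.1 * x.2 - w.2 * x.1) / (nsq w : ℂ)‖ ^ 2) := by
  have hn : ‖(nsq w : ℂ)‖ = nsq w := by
    rw [Complex.norm_real, Real.norm_of_nonneg hw.le]
  rw [norm_div, norm_div, hn, div_pow, div_pow, ← add_div]
  have key : ‖starRingEnd ℂ w.1 * x.1 + starRingEnd ℂ w.2 * x.2‖ ^ 2 +
      ‖w.1 * x.2 - w.2 * x.1‖ ^ 2 = nsq w * nsq x := by
    unfold nsq
    simp only [Complex.sq_norm, Complex.normSq_apply, Complex.add_re, Complex.add_im,
      Complex.mul_re, Complex.mul_im, Complex.conj_re, Complex.conj_im, Complex.sub_re,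
      Complex.sub_im]
    ring
  rw [key]
  field_simp

theorem Lk2_log_upper {a b : ℝ} (ha : 1 / 2 ≤ a) :
    Real.log (a ^ 2 + b ^ 2) ≤ 2 * Real.log a + 4 * b ^ 2 := by
  have ha0 : 0 < a := by linarith
  have h1 : a ^ 2 + b ^ 2 = a ^ 2 * (1 + b ^ 2 / a ^ 2) := by field_simp
  have h2 : (0 : ℝ) < 1 + b ^ 2 / a ^ 2 := by positivity
  rw [h1, Real.log_mul (by positivity) h2.ne', Real.log_pow]
  have h3 := Real.log_le_sub_one_of_pos h2
  have h4 : b ^ 2 / a ^ 2 ≤ 4 * b ^ 2 := by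
    rw [div_le_iff₀ (by positivity)]
    have : (1 / 4 : ℝ) ≤ a ^ 2 := by nlinarith
    nlinarith [sq_nonneg b]
  push_cast
  linarith

/-- the linear factor `z - z₁` along a line -/
theorem Lk2_lin {c β : ℂ} (hc : c ≠ 0) (ζ : ℂ) (h : 1 + β / c * ζ ≠ 0) :
    Real.log ‖c + ζ * β‖ = Real.log ‖c‖ + (Complex.log (1 + β / c * ζ)).re := by
  have h1 : c + ζ * β = c * (1 + β / c * ζ) := by field_simp
  rw [h1, norm_mul, Real.log_mul (norm_ne_zero_iff.2 hc) (norm_ne_zero_iff.2 h), Complex.log_re]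

theorem Lk2_par (a b : ℂ) : ‖a + b‖ ^ 2 + ‖a + Complex.I * b‖ ^ 2 + ‖a + -b‖ ^ 2 +
    ‖a + -(Complex.I * b)‖ ^ 2 = 4 * ‖a‖ ^ 2 + 4 * ‖b‖ ^ 2 := by
  simp only [Complex.sq_norm, Complex.normSq_apply, Complex.add_re, Complex.add_im,
    Complex.mul_re, Complex.mul_im, Complex.neg_re, Complex.neg_im, Complex.I_re, Complex.I_im]
  ring

/-- the function of the maximum principle -/
noncomputable def psi (F : E → E) (z1 s1 z0 s0 : ℂ) (ε η κ : ℝ) (x : E) : ℝ :=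
  ε * (-Real.log ‖x.1 - z1‖ - Real.log ‖x.2 - s1‖) + η * (‖x.1 - z0‖ ^ 2 + ‖x.2 - s0‖ ^ 2) -
    κ * Real.log (nsq (F x))

theorem no_max {F : E → E} {q : E} (hF : ∀ᶠ x in 𝓝 q, DifferentiableAt ℂ F x) (h0 : F q ≠ 0)
    {z1 s1 : ℂ} (hz : q.1 ≠ z1) (hs : q.2 ≠ s1) (z0 s0 : ℂ) {ε η κ : ℝ} (hκ : 0 ≤ κ)
    (hη : 0 < η) :
    ¬ ∀ᶠ x in 𝓝 q, psi F z1 s1 z0 s0 ε η κ x ≤ psi F z1 s1 z0 s0 ε η κ q := by
  intro hmax
  set w := F q with hw
  have hN : 0 < nsq w := nsq_pos h0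
  obtain ⟨v, α, hv0, hv⟩ := Lk2_dir (fderiv ℂ F q) w h0
  -- the line
  have hline : Tendsto (fun ζ : ℂ => q + ζ • v) (𝓝 0) (𝓝 q) := by
    have : Tendsto (fun ζ : ℂ => q + ζ • v) (𝓝 0) (𝓝 (q + (0 : ℂ) • v)) :=
      (Continuous.tendsto (by fun_prop) 0)
    rwa [zero_smul, add_zero] at this
  have hgd : ∀ᶠ ζ in 𝓝 (0 : ℂ), DifferentiableAt ℂ (fun ζ : ℂ => F (q + ζ • v)) ζ := by
    filter_upwards [hline.eventually hF] with ζ hζ
    exact DifferentiableAt.comp ζ hζ (by fun_prop)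
  have hg1d : ∀ᶠ ζ in 𝓝 (0 : ℂ), DifferentiableAt ℂ (fun ζ : ℂ => (F (q + ζ • v)).1) ζ := by
    filter_upwards [hgd] with ζ hζ using hζ.fst
  have hg2d : ∀ᶠ ζ in 𝓝 (0 : ℂ), DifferentiableAt ℂ (fun ζ : ℂ => (F (q + ζ • v)).2) ζ := by
    filter_upwards [hgd] with ζ hζ using hζ.snd
  have hg1 : AnalyticAt ℂ (fun ζ : ℂ => (F (q + ζ • v)).1) 0 :=
    Complex.analyticAt_iff_eventually_differentiableAt.2 hg1d
  have hg2 : AnalyticAt ℂ (fun ζ : ℂ => (F (q + ζ • v)).2) 0 :=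
    Complex.analyticAt_iff_eventually_differentiableAt.2 hg2d
  have hgder : HasDerivAt (fun ζ : ℂ => F (q + ζ • v)) (α • w) 0 := by
    have h1 : HasFDerivAt F (fderiv ℂ F q) (q + (0 : ℂ) • v) := by
      rw [zero_smul, add_zero]
      exact hF.self_of_nhds.hasFDerivAt
    have h2 : HasDerivAt (fun ζ : ℂ => q + ζ • v) v 0 := by
      have h3 : HasDerivAt (fun ζ : ℂ => ζ • v) ((1 : ℂ) • v) 0 := (hasDerivAt_id 0).smul_const v
      rw [one_smul] at h3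
      exact h3.const_add q
    have h4 := h1.comp_hasDerivAt (0 : ℂ) h2
    rw [hv] at h4
    exact h4
  have hq0 : F (q + (0 : ℂ) • v) = w := by rw [zero_smul, add_zero]
  have hNc : (nsq w : ℂ) ≠ 0 := by exact_mod_cast hN.ne'
  -- the two components
  set A : ℂ → ℂ := fun ζ => (starRingEnd ℂ w.1 * (F (q + ζ • v)).1 +
    starRingEnd ℂ w.2 * (F (q + ζ • v)).2) / (nsq w : ℂ) with hA
  set B : ℂ → ℂ := fun ζ => (w.1 * (F (q + ζ • v)).2 - w.2 * (F (q + ζ • v)).1) /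
    (nsq w : ℂ) with hB
  have hAan : AnalyticAt ℂ A 0 := by
    have h1 : AnalyticAt ℂ (fun _ : ℂ => starRingEnd ℂ w.1) 0 := analyticAt_const
    have h2 : AnalyticAt ℂ (fun _ : ℂ => starRingEnd ℂ w.2) 0 := analyticAt_const
    have h3 : AnalyticAt ℂ (fun _ : ℂ => (nsq w : ℂ)) 0 := analyticAt_const
    exact ((h1.mul hg1).add (h2.mul hg2)).div h3 hNc
  have hBan : AnalyticAt ℂ B 0 := by
    have h1 : AnalyticAt ℂ (fun _ : ℂ => w.1) 0 := analyticAt_const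
    have h2 : AnalyticAt ℂ (fun _ : ℂ => w.2) 0 := analyticAt_const
    have h3 : AnalyticAt ℂ (fun _ : ℂ => (nsq w : ℂ)) 0 := analyticAt_const
    exact ((h1.mul hg2).sub (h2.mul hg1)).div h3 hNc
  have hA0 : A 0 = 1 := by
    have h1 : A 0 = (starRingEnd ℂ w.1 * w.1 + starRingEnd ℂ w.2 * w.2) / (nsq w : ℂ) := by
      rw [hA]
      simp only [hq0]
    rw [h1, div_eq_one_iff_eq hNc]
    unfold nsq
    push_cast
    rw [Complex.conj_mul', Complex.conj_mul']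
  have hB0 : B 0 = 0 := by
    have h1 : B 0 = (w.1 * w.2 - w.2 * w.1) / (nsq w : ℂ) := by
      rw [hB]
      simp only [hq0]
    rw [h1]
    ring
  have hB1 : deriv B 0 = 0 := by
    have h1 : HasDerivAt (fun ζ : ℂ => (F (q + ζ • v)).1) (α * w.1) 0 :=
      (ContinuousLinearMap.fst ℂ ℂ ℂ).hasFDerivAt.comp_hasDerivAt (0 : ℂ) hgder
    have h2 : HasDerivAt (fun ζ : ℂ => (F (q + ζ • v)).2) (α * w.2) 0 :=
      (ContinuousLinearMap.snd ℂ ℂ ℂ).hasFDerivAt.comp_hasDerivAt (0 : ℂ) hgder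
    have h3 : HasDerivAt B ((w.1 * (α * w.2) - w.2 * (α * w.1)) / (nsq w : ℂ)) 0 :=
      ((h2.const_mul w.1).sub (h1.const_mul w.2)).div_const _
    rw [h3.deriv]
    ring
  obtain ⟨CB, hCB0, hCB⟩ := Lk1_sq hBan hB0 hB1
  -- the harmonic part
  set β1 : ℂ := v.1 / (q.1 - z1) with hβ1
  set β2 : ℂ := v.2 / (q.2 - s1) with hβ2
  have hc1 : q.1 - z1 ≠ 0 := sub_ne_zero.2 hz
  have hc2 : q.2 - s1 ≠ 0 := sub_ne_zero.2 hs
  have hlin : ∀ β : ℂ, AnalyticAt ℂ (fun ζ : ℂ => Complex.log (1 + β * ζ)) 0 := by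
    intro β
    have h1 : AnalyticAt ℂ (fun ζ : ℂ => 1 + β * ζ) 0 := by fun_prop
    refine h1.clog ?_
    rw [mul_zero, add_zero]
    exact Complex.one_mem_slitPlane
  have hlogA : AnalyticAt ℂ (fun ζ : ℂ => Complex.log (A ζ)) 0 := by
    refine hAan.clog ?_
    rw [hA0]
    exact Complex.one_mem_slitPlane
  set H : ℂ → ℂ := fun ζ => -(ε : ℂ) * Complex.log (1 + β1 * ζ) -
    (ε : ℂ) * Complex.log (1 + β2 * ζ) - (2 * κ : ℂ) * Complex.log (A ζ) with hH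
  have hHan : AnalyticAt ℂ H 0 := by
    have h1 : AnalyticAt ℂ (fun _ : ℂ => -(ε : ℂ)) 0 := analyticAt_const
    have h2 : AnalyticAt ℂ (fun _ : ℂ => (ε : ℂ)) 0 := analyticAt_const
    have h3 : AnalyticAt ℂ (fun _ : ℂ => (2 * κ : ℂ)) 0 := analyticAt_const
    exact ((h1.mul (hlin β1)).sub (h2.mul (hlin β2))).sub (h3.mul hlogA)
  have hH0 : H 0 = 0 := by
    rw [hH]
    simp only [mul_zero, add_zero, Complex.log_one, hA0, sub_zero]
  obtain ⟨CH, hCH0, hCH⟩ := Lk1_four hHan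
  -- the pointwise lower bound
  have hpt : ∀ᶠ ζ in 𝓝 (0 : ℂ),
      psi F z1 s1 z0 s0 ε η κ q + (H ζ).re +
        η * (‖(q.1 - z0) + ζ * v.1‖ ^ 2 - ‖q.1 - z0‖ ^ 2 +
          (‖(q.2 - s0) + ζ * v.2‖ ^ 2 - ‖q.2 - s0‖ ^ 2)) - 4 * κ * CB ^ 2 * ‖ζ‖ ^ 4 ≤
      psi F z1 s1 z0 s0 ε η κ (q + ζ • v) := by
    have hA' : ∀ᶠ ζ in 𝓝 (0 : ℂ), 1 / 2 ≤ ‖A ζ‖ := by
      have h1 : Tendsto (fun ζ => ‖A ζ‖) (𝓝 0) (𝓝 ‖A 0‖) := hAan.continuousAt.norm
      rw [hA0, norm_one] at h1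
      exact (h1.eventually (eventually_ge_nhds (by norm_num : (1 / 2 : ℝ) < 1)))
    have hne : ∀ β : ℂ, ∀ᶠ ζ in 𝓝 (0 : ℂ), 1 + β * ζ ≠ 0 := by
      intro β
      have h1 : ContinuousAt (fun ζ : ℂ => 1 + β * ζ) 0 := by fun_prop
      refine h1.eventually_ne ?_
      rw [mul_zero, add_zero]
      exact one_ne_zero
    filter_upwards [hA', hCB, hne β1, hne β2] with ζ h1 h2 h3 h4
    have e1 : (q + ζ • v).1 - z1 = (q.1 - z1) + ζ * v.1 := by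
      simp only [Prod.fst_add, Prod.smul_fst, smul_eq_mul]
      ring
    have e2 : (q + ζ • v).2 - s1 = (q.2 - s1) + ζ * v.2 := by
      simp only [Prod.snd_add, Prod.smul_snd, smul_eq_mul]
      ring
    have e3 : (q + ζ • v).1 - z0 = (q.1 - z0) + ζ * v.1 := by
      simp only [Prod.fst_add, Prod.smul_fst, smul_eq_mul]
      ring
    have e4 : (q + ζ • v).2 - s0 = (q.2 - s0) + ζ * v.2 := by
      simp only [Prod.snd_add, Prod.smul_snd, smul_eq_mul]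
      ring
    have l1 := Lk2_lin hc1 ζ h3
    have l2 := Lk2_lin hc2 ζ h4
    have l3 : nsq (F (q + ζ • v)) = nsq w * (‖A ζ‖ ^ 2 + ‖B ζ‖ ^ 2) :=
      Lk2_lagrange w (F (q + ζ • v)) hN
    have hApos : 0 < ‖A ζ‖ := by linarith
    have l4 : Real.log (nsq (F (q + ζ • v))) ≤
        Real.log (nsq w) + (2 * (Complex.log (A ζ)).re + 4 * CB ^ 2 * ‖ζ‖ ^ 4) := by
      rw [l3, Real.log_mul hN.ne' (by positivity), Complex.log_re]
      have l5 := Lk2_log_upper (a := ‖A ζ‖) (b := ‖B ζ‖) h1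
      have l6 : ‖B ζ‖ ^ 2 ≤ (CB * ‖ζ‖ ^ 2) ^ 2 := by
        exact pow_le_pow_left₀ (norm_nonneg _) h2 2
      have l7 : (CB * ‖ζ‖ ^ 2) ^ 2 = CB ^ 2 * ‖ζ‖ ^ 4 := by ring
      linarith
    have l8 := mul_le_mul_of_nonneg_left l4 hκ
    have eH : (H ζ).re = -ε * (Complex.log (1 + β1 * ζ)).re -
        ε * (Complex.log (1 + β2 * ζ)).re - 2 * κ * (Complex.log (A ζ)).re := by
      rw [hH]
      simp only [Complex.sub_re, Complex.mul_re, Complex.neg_re, Complex.neg_im,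
        Complex.ofReal_re, Complex.ofReal_im, Complex.re_ofNat, Complex.im_ofNat,
        Complex.mul_im]
      ring
    unfold psi
    rw [e1, e2, e3, e4, l1, l2, eH, ← hβ1, ← hβ2, ← hw]
    linarith
  -- rotations
  have hrot : ∀ u : ℂ, Tendsto (fun ζ : ℂ => u * ζ) (𝓝 0) (𝓝 0) := by
    intro u
    have : Tendsto (fun z : ℂ => u * z) (𝓝 0) (𝓝 (u * 0)) := (continuous_const_mul u).tendsto 0
    rwa [mul_zero] at this
  have hmax' := hline.eventually hmax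
  have hfinal : ∀ᶠ ζ in 𝓝 (0 : ℂ), 4 * η * (‖v.1‖ ^ 2 + ‖v.2‖ ^ 2) * ‖ζ‖ ^ 2 ≤
      CH * ‖ζ‖ ^ 3 + 16 * κ * CB ^ 2 * ‖ζ‖ ^ 4 := by
    have r1 : ∀ u : ℂ, ∀ᶠ ζ in 𝓝 (0 : ℂ),
        psi F z1 s1 z0 s0 ε η κ q + (H (u * ζ)).re +
        η * (‖(q.1 - z0) + (u * ζ) * v.1‖ ^ 2 - ‖q.1 - z0‖ ^ 2 +
          (‖(q.2 - s0) + (u * ζ) * v.2‖ ^ 2 - ‖q.2 - s0‖ ^ 2)) -
          4 * κ * CB ^ 2 * ‖u * ζ‖ ^ 4 ≤ psi F z1 s1 z0 s0 ε η κ q := by
      intro u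
      filter_upwards [(hrot u).eventually hpt, (hrot u).eventually hmax'] with ζ h1 h2
      exact h1.trans h2
    filter_upwards [r1 1, r1 Complex.I, r1 (-1), r1 (-Complex.I), hCH] with ζ h1 h2 h3 h4 h5
    rw [hH0, mul_zero, sub_zero] at h5
    have h6 := (Complex.abs_re_le_norm _).trans h5
    rw [Complex.add_re, Complex.add_re, Complex.add_re, abs_le] at h6
    rw [one_mul] at h1
    rw [neg_one_mul, norm_neg] at h3
    rw [neg_mul, norm_neg] at h4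
    rw [norm_mul, Complex.norm_I, one_mul] at h2 h4
    have p1 := Lk2_par (q.1 - z0) (ζ * v.1)
    have p2 := Lk2_par (q.2 - s0) (ζ * v.2)
    have n1 : ‖ζ * v.1‖ ^ 2 = ‖ζ‖ ^ 2 * ‖v.1‖ ^ 2 := by rw [norm_mul, mul_pow]
    have n2 : ‖ζ * v.2‖ ^ 2 = ‖ζ‖ ^ 2 * ‖v.2‖ ^ 2 := by rw [norm_mul, mul_pow]
    rw [n1] at p1
    rw [n2] at p2
    have m1 : Complex.I * ζ * v.1 = Complex.I * (ζ * v.1) := by ring
    have m2 : Complex.I * ζ * v.2 = Complex.I * (ζ * v.2) := by ring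
    have m3 : -ζ * v.1 = -(ζ * v.1) := by ring
    have m4 : -ζ * v.2 = -(ζ * v.2) := by ring
    have m5 : -(Complex.I * ζ) * v.1 = -(Complex.I * (ζ * v.1)) := by ring
    have m6 : -(Complex.I * ζ) * v.2 = -(Complex.I * (ζ * v.2)) := by ring
    rw [m1, m2] at h2
    rw [m3, m4] at h3
    rw [m5, m6] at h4
    have s1 := mul_le_mul_of_nonneg_left (le_of_eq p1.symm) hη.le
    have s2 := mul_le_mul_of_nonneg_left (le_of_eq p2.symm) hη.le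
    nlinarith [h1, h2, h3, h4, h6.1, s1, s2]
  -- contradiction along positive reals
  have hvv : 0 < ‖v.1‖ ^ 2 + ‖v.2‖ ^ 2 := nsq_pos hv0
  have hreal : Tendsto (fun t : ℝ => (t : ℂ)) (𝓝[>] 0) (𝓝 0) := by
    have h1 : Tendsto (fun t : ℝ => (t : ℂ)) (𝓝 0) (𝓝 ((0 : ℝ) : ℂ)) :=
      Complex.continuous_ofReal.tendsto 0
    rw [Complex.ofReal_zero] at h1
    exact h1.mono_left nhdsWithin_le_nhds
  have hf2 := hreal.eventually hfinal
  have hlim : Tendsto (fun t : ℝ => CH * t + 16 * κ * CB ^ 2 * t ^ 2) (𝓝[>] 0) (𝓝 0) := by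
    have h1 : Tendsto (fun t : ℝ => CH * t + 16 * κ * CB ^ 2 * t ^ 2) (𝓝 0)
        (𝓝 (CH * 0 + 16 * κ * CB ^ 2 * 0 ^ 2)) := by
      apply Continuous.tendsto
      fun_prop
    have h2 : CH * 0 + 16 * κ * CB ^ 2 * (0 : ℝ) ^ 2 = 0 := by ring
    rw [h2] at h1
    exact h1.mono_left nhdsWithin_le_nhds
  have hlt : ∀ᶠ t in 𝓝[>] (0 : ℝ), CH * t + 16 * κ * CB ^ 2 * t ^ 2 <
      4 * η * (‖v.1‖ ^ 2 + ‖v.2‖ ^ 2) := hlim.eventually_lt_const (by positivity)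
  obtain ⟨t, ht1, ht2, ht3⟩ := (hf2.and (hlt.and self_mem_nhdsWithin)).exists
  have ht0 : 0 < t := ht3
  rw [Complex.norm_real, Real.norm_of_nonneg ht0.le] at ht1
  have ht4 : 0 < t ^ 2 := by positivity
  nlinarith

end Pool.Agent.HQ
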