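import Pool.Agent.HQ.Lk2

/-!
# HQ module Lk3: the two disc argument, static part

`lk_region`: there is no nonvanishing holomorphic `F` near the product `X` of two annuli with
`κ log |F|² ≥ max (u, v) - e` on `X` and `κ log |F|² ≤ e` at `(z₀, s₀)`, if `e` is small
(depending on the annuli and on lower bounds of `u`, `v` on smaller discs only).
-/

set_option autoImplicit false

open Filter Topology Set Metric

namespace Pool.Agent.HQ

/-- the closed annulus `r / 2 ≤ |z - z₁| ≤ 3 r` -/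
def ann (z1 : ℂ) (r : ℝ) : Set ℂ := {z | r / 2 ≤ ‖z - z1‖ ∧ ‖z - z1‖ ≤ 3 * r}

theorem ann_compact (z1 : ℂ) (r : ℝ) : IsCompact (ann z1 r) := by
  have h1 : ann z1 r = closedBall z1 (3 * r) ∩ {z | r / 2 ≤ ‖z - z1‖} := by
    ext z
    simp only [ann, mem_ofPred_eq, mem_inter_iff, mem_closedBall, dist_eq_norm]
    tauto
  rw [h1]
  refine (isCompact_closedBall z1 (3 * r)).inter_right ?_
  exact isClosed_le continuous_const (by fun_prop)

theorem lk_region {z1 s1 z0 s0 : ℂ} {r1 r2 c : ℝ} (hr1 : 0 < r1) (hr2 : 0 < r2) (hc : 0 < c)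
    (hz : ‖z0 - z1‖ = r1) (hs : ‖s0 - s1‖ = r2) :
    ∃ e0 > 0, ∀ (u v : ℂ → ℝ) (F : E → E) (V : Set E) (κ e : ℝ), IsOpen V →
      (ann z1 r1) ×ˢ (ann s1 r2) ⊆ V → DifferentiableOn ℂ F V → (∀ x ∈ V, F x ≠ 0) → 0 ≤ κ →
      (∀ z, 0 ≤ u z) → (∀ s, 0 ≤ v s) →
      (∀ z, ‖z - z1‖ ≤ 2 / 3 * r1 → c ≤ u z) → (∀ s, ‖s - s1‖ ≤ 2 / 3 * r2 → c ≤ v s) →
      (∀ x ∈ (ann z1 r1) ×ˢ (ann s1 r2), max (u x.1) (v x.2) - e ≤ κ * Real.log (nsq (F x))) →
      κ * Real.log (nsq (F (z0, s0))) ≤ e → e0 ≤ e := by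
  have hlog2 : 0 < Real.log 2 := Real.log_pos (by norm_num)
  have hlog2' : Real.log 2 < 1 := by
    have := Real.log_two_lt_d9
    linarith
  set S : ℝ := 16 * (r1 ^ 2 + r2 ^ 2) with hS
  have hS0 : 0 < S := by positivity
  set ε : ℝ := c / 6 with hε
  have hε0 : 0 < ε := by positivity
  set η : ℝ := ε * Real.log 2 / (4 * S) with hη
  have hη0 : 0 < η := by positivity
  have hηS : η * S = ε * Real.log 2 / 4 := by
    rw [hη]
    field_simp
  refine ⟨ε * Real.log 2 / 4, by positivity, ?_⟩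
  intro u v F V κ e hV hXV hF hF0 hκ hu hv hu' hv' hlow hup
  by_contra hcon
  push Not at hcon
  set X : Set E := (ann z1 r1) ×ˢ (ann s1 r2) with hX
  have hXc : IsCompact X := (ann_compact z1 r1).prod (ann_compact s1 r2)
  have hq0X : ((z0, s0) : E) ∈ X := by
    refine ⟨⟨?_, ?_⟩, ⟨?_, ?_⟩⟩
    · change r1 / 2 ≤ ‖z0 - z1‖
      rw [hz]
      linarith
    · change ‖z0 - z1‖ ≤ 3 * r1
      rw [hz]
      linarith
    · change r2 / 2 ≤ ‖s0 - s1‖
      rw [hs]
      linarith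
    · change ‖s0 - s1‖ ≤ 3 * r2
      rw [hs]
      linarith
  have hX1 : ∀ x ∈ X, 0 < ‖x.1 - z1‖ := fun x hx => lt_of_lt_of_le (by positivity) hx.1.1
  have hX2 : ∀ x ∈ X, 0 < ‖x.2 - s1‖ := fun x hx => lt_of_lt_of_le (by positivity) hx.2.1
  -- continuity of `psi` on `X`
  have hcont : ContinuousOn (psi F z1 s1 z0 s0 ε η κ) X := by
    have hFc : ContinuousOn F X := hF.continuousOn.mono hXV
    unfold psi
    have c1 : ContinuousOn (fun x : E => Real.log ‖x.1 - z1‖) X := by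
      refine ContinuousOn.log (by fun_prop) ?_
      intro x hx
      exact (hX1 x hx).ne'
    have c2 : ContinuousOn (fun x : E => Real.log ‖x.2 - s1‖) X := by
      refine ContinuousOn.log (by fun_prop) ?_
      intro x hx
      exact (hX2 x hx).ne'
    have c3 : ContinuousOn (fun x : E => Real.log (nsq (F x))) X := by
      refine ContinuousOn.log ?_ ?_
      · unfold nsq
        exact (hFc.fst.norm.pow 2).add (hFc.snd.norm.pow 2)
      · intro x hx
        exact (nsq_pos (hF0 x (hXV hx))).ne'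
    have c4 : ContinuousOn (fun x : E => η * (‖x.1 - z0‖ ^ 2 + ‖x.2 - s0‖ ^ 2)) X := by
      fun_prop
    exact (((c1.neg.sub c2).const_smul ε).add c4).sub (c3.const_smul κ)
  obtain ⟨q, hqX, hq⟩ := hXc.exists_isMaxOn ⟨_, hq0X⟩ hcont
  -- the shifted constants
  set K : ℝ := ε * (Real.log 2 + Real.log r1 + Real.log r2) with hK
  -- value at `q0`
  have hval0 : ε * Real.log 2 - e ≤ psi F z1 s1 z0 s0 ε η κ (z0, s0) + K := by
    unfold psi
    simp only [sub_self, norm_zero, hz, hs]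
    rw [hK]
    nlinarith
  have hqval : ε * Real.log 2 - e ≤ psi F z1 s1 z0 s0 ε η κ q + K := by
    have := hq hq0X
    simp only [mem_ofPred_eq] at this
    linarith
  -- quadratic term
  have hquad : η * (‖q.1 - z0‖ ^ 2 + ‖q.2 - s0‖ ^ 2) ≤ ε * Real.log 2 / 4 := by
    have h1 : ‖q.1 - z0‖ ≤ 4 * r1 := by
      have h2 : q.1 - z0 = (q.1 - z1) - (z0 - z1) := by ring
      rw [h2]
      refine (norm_sub_le _ _).trans ?_
      rw [hz]
      have := hqX.1.2
      linarith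
    have h2 : ‖q.2 - s0‖ ≤ 4 * r2 := by
      have h2 : q.2 - s0 = (q.2 - s1) - (s0 - s1) := by ring
      rw [h2]
      refine (norm_sub_le _ _).trans ?_
      rw [hs]
      have := hqX.2.2
      linarith
    have h3 : ‖q.1 - z0‖ ^ 2 ≤ (4 * r1) ^ 2 := pow_le_pow_left₀ (norm_nonneg _) h1 2
    have h4 : ‖q.2 - s0‖ ^ 2 ≤ (4 * r2) ^ 2 := pow_le_pow_left₀ (norm_nonneg _) h2 2
    rw [← hηS]
    refine mul_le_mul_of_nonneg_left ?_ hη0.le
    rw [hS]
    nlinarith
  have hlowq := hlow q hqX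
  have hW0 : 0 ≤ max (u q.1) (v q.2) := le_max_of_le_left (hu _)
  -- logs
  have hl1 : Real.log (r1 / 2) ≤ Real.log ‖q.1 - z1‖ :=
    Real.log_le_log (by positivity) hqX.1.1
  have hl2 : Real.log (r2 / 2) ≤ Real.log ‖q.2 - s1‖ :=
    Real.log_le_log (by positivity) hqX.2.1
  rw [Real.log_div hr1.ne' two_ne_zero] at hl1
  rw [Real.log_div hr2.ne' two_ne_zero] at hl2
  -- large value of the weight excluded
  have hWc : ¬ c ≤ max (u q.1) (v q.2) := by
    intro hW
    have hval : psi F z1 s1 z0 s0 ε η κ q + K ≤ 3 * (ε * Real.log 2) + ε * Real.log 2 / 4 +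
        e - c := by
      unfold psi
      rw [hK]
      nlinarith
    have h1 : ε * Real.log 2 ≤ ε := by nlinarith
    have h2 : ε = c / 6 := hε
    linarith
  have hlog3 : Real.log 2 ≤ Real.log 3 := Real.log_le_log (by norm_num) (by norm_num)
  -- the boundary with `h ≤ 0`
  have hh : ¬ (Real.log 2 + Real.log r1 + Real.log r2 ≤
      Real.log ‖q.1 - z1‖ + Real.log ‖q.2 - s1‖) := by
    intro hh
    have hval : psi F z1 s1 z0 s0 ε η κ q + K ≤ ε * Real.log 2 / 4 + e := by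
      unfold psi
      rw [hK]
      nlinarith
    have h1 : 0 < ε * Real.log 2 := by positivity
    linarith
  -- `q` is interior
  have hi1 : r1 / 2 < ‖q.1 - z1‖ := by
    refine lt_of_le_of_ne hqX.1.1 ?_
    intro h
    refine hWc (le_max_of_le_left (hu' _ ?_))
    rw [← h]
    linarith
  have hi2 : r2 / 2 < ‖q.2 - s1‖ := by
    refine lt_of_le_of_ne hqX.2.1 ?_
    intro h
    refine hWc (le_max_of_le_right (hv' _ ?_))
    rw [← h]
    linarith
  have hi3 : ‖q.1 - z1‖ < 3 * r1 := by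
    refine lt_of_le_of_ne hqX.1.2 ?_
    intro h
    by_cases h2 : ‖q.2 - s1‖ ≤ 2 / 3 * r2
    · exact hWc (le_max_of_le_right (hv' _ h2))
    · push Not at h2
      apply hh
      rw [h, Real.log_mul (by norm_num) hr1.ne']
      have h3 : Real.log (2 / 3 * r2) ≤ Real.log ‖q.2 - s1‖ :=
        Real.log_le_log (by positivity) h2.le
      rw [Real.log_mul (by norm_num) hr2.ne', Real.log_div (by norm_num) (by norm_num)] at h3
      linarith
  have hi4 : ‖q.2 - s1‖ < 3 * r2 := by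
    refine lt_of_le_of_ne hqX.2.2 ?_
    intro h
    by_cases h2 : ‖q.1 - z1‖ ≤ 2 / 3 * r1
    · exact hWc (le_max_of_le_left (hu' _ h2))
    · push Not at h2
      apply hh
      rw [h, Real.log_mul (by norm_num) hr2.ne']
      have h3 : Real.log (2 / 3 * r1) ≤ Real.log ‖q.1 - z1‖ :=
        Real.log_le_log (by positivity) h2.le
      rw [Real.log_mul (by norm_num) hr1.ne', Real.log_div (by norm_num) (by norm_num)] at h3
      linarith
  have hnear : ∀ᶠ x in 𝓝 q, x ∈ X := by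
    have hopen : IsOpen {x : E | (r1 / 2 < ‖x.1 - z1‖ ∧ ‖x.1 - z1‖ < 3 * r1) ∧
        (r2 / 2 < ‖x.2 - s1‖ ∧ ‖x.2 - s1‖ < 3 * r2)} := by
      refine IsOpen.and (IsOpen.and ?_ ?_) (IsOpen.and ?_ ?_)
      · exact isOpen_lt continuous_const (by fun_prop)
      · exact isOpen_lt (by fun_prop) continuous_const
      · exact isOpen_lt continuous_const (by fun_prop)
      · exact isOpen_lt (by fun_prop) continuous_const
    filter_upwards [hopen.mem_nhds ⟨⟨hi1, hi3⟩, ⟨hi2, hi4⟩⟩] with x hx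
    exact ⟨⟨hx.1.1.le, hx.1.2.le⟩, ⟨hx.2.1.le, hx.2.2.le⟩⟩
  refine no_max (F := F) (q := q) ?_ (hF0 q (hXV hqX)) (z1 := z1) (s1 := s1) ?_ ?_ z0 s0
    (ε := ε) hκ hη0 ?_
  · filter_upwards [hV.mem_nhds (hXV hqX)] with x hx
    exact (hF x hx).differentiableAt (hV.mem_nhds hx)
  · intro h
    have := hX1 q hqX
    rw [h, sub_self, norm_zero] at this
    exact lt_irrefl _ this
  · intro h
    have := hX2 q hqX
    rw [h, sub_self, norm_zero] at this
    exact lt_irrefl _ this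
  · filter_upwards [hnear] with x hx
    exact hq hx

end Pool.Agent.HQ
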