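import Pool.Agent.HQ.Lk0
import Pool.Agent.HQ.Lk3
import Pool.Agent.HQ.Bas
import Pool.Agent.HQ.Lines
import Pool.Agent.HQ.DHb

/-!
# HQ module Lk4: the linking lemma

`link`: a disc crossing `J⁺` has iterates passing arbitrarily close to every disc crossing `J⁻`.
-/

set_option autoImplicit false

open Filter Topology Set Metric

namespace Pool.Agent.HQ

theorem Lk4_lip (S : Sys) (B : ℝ) : ∃ L : ℝ, 1 ≤ L ∧ ∀ x y : E, ‖x‖ ≤ B → ‖y‖ ≤ B →
    ‖S.F x - S.F y‖ ≤ L * ‖x - y‖ := by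
  set r : ℝ := 2 * (|B| + 1) with hr
  have hr0 : 0 < r := by positivity
  obtain ⟨R, hR⟩ := (isCompact_closedBall (0 : E) r).exists_bound_of_continuousOn
    (f := S.F) S.dF.continuous.continuousOn
  have h1 := lip_of_bdd (x := (0 : E)) hr0 (dh_of_diff S.dF _)
    (fun y hy => hR y (ball_subset_closedBall hy))
  refine ⟨max 1 (8 * R / r), le_max_left _ _, fun x y hx hy => ?_⟩
  have hx' : x ∈ ball (0 : E) (r / 2) := by
    rw [mem_ball_zero_iff, hr]
    have := le_abs_self B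
    linarith
  have hy' : y ∈ ball (0 : E) (r / 2) := by
    rw [mem_ball_zero_iff, hr]
    have := le_abs_self B
    linarith
  exact (h1 x hx' y hy').trans (mul_le_mul_of_nonneg_right (le_max_right _ _) (norm_nonneg _))

theorem Lk4_sep (S : Sys) (A B : ℝ) : ∃ L : ℝ, 1 ≤ L ∧ ∀ (c : ℝ) (n : ℕ) (x y : E), c ≤ 1 →
    S.P ((S.F ^ n) y) ≤ A → ‖y‖ ≤ B → c ≤ ‖(S.F ^ n) x - (S.F ^ n) y‖ →
    c ≤ L ^ n * ‖x - y‖ := by
  obtain ⟨A1, hA1⟩ := (isCompact_closedBall (0 : E) B).exists_bound_of_continuousOn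
    (f := S.M) S.cM.continuousOn
  obtain ⟨B2, hB2⟩ := S.sub_bdd (max A A1)
  obtain ⟨L, hL, hlip⟩ := Lk4_lip S (B2 + 1)
  refine ⟨L, hL, fun c n x y hc hP hy hd => ?_⟩
  by_contra hcon
  push Not at hcon
  have hdpos := S.d_pos
  -- the orbit of `y` is bounded
  have horb : ∀ j ≤ n, ‖(S.F ^ j) y‖ ≤ B2 := by
    intro j hj
    apply hB2
    · refine le_trans ?_ (le_max_left _ _)
      have h1 : (S.F ^ n) y = (S.F ^ (n - j)) ((S.F ^ j) y) := by
        rw [← Equiv.Perm.mul_apply, ← pow_add]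
        congr 2
        omega
      rw [h1, S.P_pow] at hP
      refine le_trans ?_ hP
      have h2 : 1 ≤ S.d ^ (n - j) := one_le_pow₀ S.hd.le
      have h3 := S.P0 ((S.F ^ j) y)
      nlinarith
    · refine le_trans ?_ (le_max_right _ _)
      rw [S.M_pow]
      have h1 := hA1 y (mem_closedBall_zero_iff.2 hy)
      have h2 := (le_abs_self _).trans h1
      have h3 : (S.d ^ j)⁻¹ ≤ 1 := inv_le_one_of_one_le₀ (one_le_pow₀ S.hd.le)
      have h4 := S.M0 y
      nlinarith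
  have hLn : 0 ≤ ‖x - y‖ := norm_nonneg _
  have hind : ∀ j ≤ n, ‖(S.F ^ j) x - (S.F ^ j) y‖ ≤ L ^ j * ‖x - y‖ := by
    intro j
    induction j with
    | zero => intro _; simp
    | succ j ih =>
      intro hj
      have h1 := ih (by omega)
      have h2 : L ^ j * ‖x - y‖ ≤ L ^ n * ‖x - y‖ :=
        mul_le_mul_of_nonneg_right (pow_le_pow_right₀ hL (by omega)) hLn
      have h3 := horb j (by omega)
      have h4 : ‖(S.F ^ j) x‖ ≤ B2 + 1 := by
        have h5 : (S.F ^ j) x = (S.F ^ j) y + ((S.F ^ j) x - (S.F ^ j) y) := by abel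
        rw [h5]
        refine (norm_add_le _ _).trans ?_
        linarith
      have h6 := hlip _ _ h4 (by linarith : ‖(S.F ^ j) y‖ ≤ B2 + 1)
      rw [pow_succ', Equiv.Perm.mul_apply, Equiv.Perm.mul_apply]
      refine h6.trans ?_
      rw [pow_succ, mul_assoc, mul_comm (L ^ j), mul_assoc, mul_comm ‖x - y‖]
      exact mul_le_mul_of_nonneg_left h1 (by linarith)
  have := hind n le_rfl
  linarith

/-- choice of a small disc touching an accessible zero -/
theorem Lk4_small {g : E → ℝ} (hg : Continuous g) {T : ℂ → E} {D : Set ℂ} (hD : IsOpen D)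
    (hT : DifferentiableOn ℂ T D) {a b : ℂ} (hA : Acc g T D a b) {ε : ℝ} (hε : 0 < ε) :
    ∃ (z1 : ℂ) (r c : ℝ), 0 < r ∧ 0 < c ∧ ‖b - z1‖ = r ∧ 4 * r < ε ∧ ball b (5 * r) ⊆ D ∧
      ∀ z, ‖z - z1‖ ≤ 2 / 3 * r → c ≤ g (T z) := by
  obtain ⟨hne, hzero, hpos, hsub⟩ := hA
  have hbD : b ∈ D := hsub (by rw [mem_closedBall, dist_comm])
  obtain ⟨ρ, hρ, hball⟩ := Metric.isOpen_iff.1 hD b hbD
  set R := dist a b with hR
  have hR0 : 0 < R := dist_pos.2 hne
  set r : ℝ := min (min (ρ / 5) (ε / 5)) R / 2 with hr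
  have hr0 : 0 < r := by positivity
  have h1 : min (min (ρ / 5) (ε / 5)) R ≤ ρ / 5 := (min_le_left _ _).trans (min_le_left _ _)
  have h2 : min (min (ρ / 5) (ε / 5)) R ≤ ε / 5 := (min_le_left _ _).trans (min_le_right _ _)
  have h3 : min (min (ρ / 5) (ε / 5)) R ≤ R := min_le_right _ _
  set z1 : ℂ := b + ((r / R : ℝ) : ℂ) * (a - b) with hz1
  have hb1 : ‖b - z1‖ = r := by
    rw [hz1]
    have : b - (b + ((r / R : ℝ) : ℂ) * (a - b)) = -(((r / R : ℝ) : ℂ) * (a - b)) := by ring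
    rw [this, norm_neg, norm_mul, Complex.norm_real, Real.norm_of_nonneg (by positivity),
      ← dist_eq_norm, ← hR]
    field_simp
  have ha1 : ‖z1 - a‖ = R - r := by
    rw [hz1]
    have : b + ((r / R : ℝ) : ℂ) * (a - b) - a = -(((1 - r / R : ℝ) : ℂ) * (a - b)) := by
      push_cast
      ring
    rw [this, norm_neg, norm_mul, Complex.norm_real, Real.norm_of_nonneg, ← dist_eq_norm, ← hR]
    · field_simp
    · rw [sub_nonneg, div_le_one hR0]
      linarith
  have hin : closedBall z1 (2 / 3 * r) ⊆ ball a R := by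
    intro z hz
    rw [mem_closedBall, dist_eq_norm] at hz
    rw [mem_ball, dist_eq_norm]
    have : z - a = (z - z1) + (z1 - a) := by ring
    rw [this]
    refine (norm_add_le _ _).trans_lt ?_
    rw [ha1]
    linarith
  have hsubD : closedBall z1 (2 / 3 * r) ⊆ D := fun z hz =>
    hsub (ball_subset_closedBall (hin hz))
  have hcont : ContinuousOn (fun z => g (T z)) (closedBall z1 (2 / 3 * r)) :=
    hg.comp_continuousOn (hT.continuousOn.mono hsubD)
  obtain ⟨w, hw, hmin⟩ := (isCompact_closedBall z1 (2 / 3 * r)).exists_isMinOn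
    ⟨z1, mem_closedBall_self (by positivity)⟩ hcont
  refine ⟨z1, r, g (T w), hr0, hpos w (hin hw), hb1, by linarith, ?_, ?_⟩
  · refine (ball_subset_ball ?_).trans hball
    linarith
  · intro z hz
    exact hmin (by rw [mem_closedBall, dist_eq_norm]; exact hz)

theorem Lk4_nsq_ge (w : E) : ‖w‖ ^ 2 ≤ nsq w := by
  unfold nsq
  rw [Prod.norm_def]
  rcases le_total ‖w.1‖ ‖w.2‖ with h | h
  · rw [max_eq_right h]
    have := sq_nonneg ‖w.1‖
    linarith
  · rw [max_eq_left h]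
    have := sq_nonneg ‖w.2‖
    linarith

theorem Lk4_nsq_le (w : E) : nsq w ≤ 2 * ‖w‖ ^ 2 := by
  unfold nsq
  have h1 : ‖w.1‖ ^ 2 ≤ ‖w‖ ^ 2 := pow_le_pow_left₀ (norm_nonneg _) (norm_fst_le w) 2
  have h2 : ‖w.2‖ ^ 2 ≤ ‖w‖ ^ 2 := pow_le_pow_left₀ (norm_nonneg _) (norm_snd_le w) 2
  linarith

/-- the uniform lower bound -/
theorem Lk4_lower {S : Sys} (hS : Hen S) (A c : ℝ) (hc : 0 < c) (hc1 : c ≤ 1) :
    ∃ C : ℝ, 0 ≤ C ∧ ∀ (n : ℕ) (p t : E), S.M p ≤ A → S.P t ≤ A →
      c ≤ dist ((S.F ^ (n + n)) p) t →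
      S.d ^ n * max (S.P p) (S.M t) - C * (n + 1) ≤
        Real.log ‖(S.F ^ n) p - (S.F⁻¹ ^ n) t‖ := by
  obtain ⟨C1', hsep⟩ := hS.sep A
  obtain ⟨C2a, hup⟩ := hS.up
  obtain ⟨C2b, hum⟩ := hS.um
  set C1 := max C1' 0 with hC1
  set C2 := max (max C2a C2b) 0 with hC2
  have hC1n : 0 ≤ C1 := le_max_right _ _
  have hC2n : 0 ≤ C2 := le_max_right _ _
  have hC2a : C2a ≤ C2 := (le_max_left _ _).trans (le_max_left _ _)
  have hC2b : C2b ≤ C2 := (le_max_right _ _).trans (le_max_left _ _)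
  set B : ℝ := 2 * C1 + 1 with hB
  have hB1 : 1 ≤ B := by linarith
  obtain ⟨L, hL, hLs⟩ := Lk4_sep S A B
  have hlogB : 0 ≤ Real.log B := Real.log_nonneg hB1
  have hlogL : 0 ≤ Real.log L := Real.log_nonneg hL
  have hlogc : Real.log c ≤ 0 := Real.log_nonpos hc.le hc1
  have hlog4 : 0 ≤ Real.log 4 := Real.log_nonneg (by norm_num)
  refine ⟨Real.log 4 + C2 + Real.log B + Real.log L - Real.log c, by linarith, ?_⟩
  intro n p t hMp hPt hd
  have hdn : 1 ≤ S.d ^ n := one_le_pow₀ S.hd.le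
  have hdinv : (S.d ^ n)⁻¹ ≤ 1 := inv_le_one_of_one_le₀ hdn
  set x := (S.F ^ n) p with hx
  set y := (S.F⁻¹ ^ n) t with hy
  have hMx : S.M x ≤ A := by
    rw [hx, S.M_pow]
    have := S.M0 p
    nlinarith
  have hPy : S.P y ≤ A := by
    have h1 := S.dual.M_pow n t
    rw [Sys.dual_M, Sys.dual_F, Sys.dual_d] at h1
    rw [hy, h1]
    have := S.P0 t
    nlinarith
  have hPx : S.P x = S.d ^ n * S.P p := S.P_pow n p
  have hMy : S.M y = S.d ^ n * S.M t := by
    have h1 := S.dual.P_pow n t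
    rwa [Sys.dual_P, Sys.dual_F, Sys.dual_d] at h1
  have hW : S.d ^ n * max (S.P p) (S.M t) = max (S.P x) (S.M y) := by
    rw [hPx, hMy, mul_max_of_nonneg _ _ (by linarith)]
  rw [hW]
  have hs : max ‖x‖ ‖y‖ ≤ 2 * ‖x - y‖ + C1 :=
    (hsep x y hMx hPy).trans (by have := le_max_left C1' 0; linarith)
  have hn0 : (0 : ℝ) ≤ n := Nat.cast_nonneg n
  have hF2 : (S.F ^ n) x = (S.F ^ (n + n)) p := by
    rw [hx, ← Equiv.Perm.mul_apply, ← pow_add]
  have hFy : (S.F ^ n) y = t := by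
    rw [hy, inv_pow]
    exact (S.F ^ n).apply_symm_apply t
  by_cases hm : B ≤ max ‖x‖ ‖y‖
  · -- far from the origin
    have hm0 : 0 < max ‖x‖ ‖y‖ := by linarith
    have h1 : max ‖x‖ ‖y‖ ≤ 4 * ‖x - y‖ := by linarith
    have hxy : 0 < ‖x - y‖ := by linarith
    have h2 : Real.log (max ‖x‖ ‖y‖) ≤ Real.log 4 + Real.log ‖x - y‖ := by
      rw [← Real.log_mul (by norm_num) hxy.ne']
      exact Real.log_le_log hm0 h1
    have h3 : S.P x ≤ Real.log (max ‖x‖ ‖y‖) + C2 := by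
      refine (hup x).trans ?_
      have : Real.log (max 1 ‖x‖) ≤ Real.log (max ‖x‖ ‖y‖) := by
        refine Real.log_le_log (by positivity) (max_le (by linarith) (le_max_left _ _))
      linarith
    have h4 : S.M y ≤ Real.log (max ‖x‖ ‖y‖) + C2 := by
      refine (hum y).trans ?_
      have : Real.log (max 1 ‖y‖) ≤ Real.log (max ‖x‖ ‖y‖) := by
        refine Real.log_le_log (by positivity) (max_le (by linarith) (le_max_right _ _))
      linarith
    have h5 := max_le h3 h4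
    have h6 : Real.log 4 + C2 ≤
        (Real.log 4 + C2 + Real.log B + Real.log L - Real.log c) * (n + 1) := by
      nlinarith
    linarith
  · -- bounded part
    push Not at hm
    have hxB : ‖x‖ ≤ B := (le_max_left _ _).trans hm.le
    have hyB : ‖y‖ ≤ B := (le_max_right _ _).trans hm.le
    have h1 := hLs c n x y hc1 (by rw [hFy]; exact hPt) hyB (by
      rw [hF2, hFy, ← dist_eq_norm]
      exact hd)
    have hxy : 0 < ‖x - y‖ := by
      rcases (norm_nonneg (x - y)).eq_or_lt with h | h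
      · rw [← h, mul_zero] at h1
        linarith
      · exact h
    have h2 : Real.log c ≤ n * Real.log L + Real.log ‖x - y‖ := by
      rw [← Real.log_pow, ← Real.log_mul (by positivity) hxy.ne']
      exact Real.log_le_log hc h1
    have h3 : S.P x ≤ Real.log B + C2 := by
      refine (hup x).trans ?_
      have : Real.log (max 1 ‖x‖) ≤ Real.log B :=
        Real.log_le_log (by positivity) (max_le hB1 hxB)
      linarith
    have h4 : S.M y ≤ Real.log B + C2 := by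
      refine (hum y).trans ?_
      have : Real.log (max 1 ‖y‖) ≤ Real.log B :=
        Real.log_le_log (by positivity) (max_le hB1 hyB)
      linarith
    have h5 := max_le h3 h4
    have h6 : Real.log B + C2 + n * Real.log L - Real.log c ≤
        (Real.log 4 + C2 + Real.log B + Real.log L - Real.log c) * (n + 1) := by
      nlinarith [mul_nonneg hn0 hlog4, mul_nonneg hn0 hC2n, mul_nonneg hn0 hlogB,
        mul_nonneg hn0 hlogL, mul_nonneg hn0 (neg_nonneg.2 hlogc)]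
    linarith

/-- THE LINKING LEMMA -/
theorem link {S : Sys} (hS : Hen S) {φ T : ℂ → E} {D1 D2 : Set ℂ} (h1 : IsOpen D1)
    (h2 : IsOpen D2) (hφ : DifferentiableOn ℂ φ D1) (hT : DifferentiableOn ℂ T D2)
    {a1 b1 a2 b2 : ℂ} (A1 : Acc S.P φ D1 a1 b1) (A2 : Acc S.M T D2 a2 b2) {ε c : ℝ}
    (hε : 0 < ε) (hc : 0 < c) (m0 : ℕ) :
    ∃ m ≥ m0, ∃ z ∈ ball b1 ε, ∃ s ∈ ball b2 ε, z ∈ D1 ∧ s ∈ D2 ∧
      dist ((S.F ^ m) (φ z)) (T s) < c := by
  by_contra hcon
  push Not at hcon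
  obtain ⟨z1, r1, c1, hr1, hc1, hb1, hε1, hD1, hu1⟩ := Lk4_small S.cP h1 hφ A1 hε
  obtain ⟨s1, r2, c2, hr2, hc2, hb2, hε2, hD2, hv2⟩ := Lk4_small S.cM h2 hT A2 hε
  obtain ⟨e0, he0, hreg⟩ := lk_region (z1 := z1) (s1 := s1) (z0 := b1) (s0 := b2) hr1 hr2
    (lt_min hc1 hc2) hb1 hb2
  -- the sets
  have hann1 : closedBall z1 (3 * r1) ⊆ ball b1 (5 * r1) := by
    intro z hz
    rw [mem_closedBall, dist_eq_norm] at hz
    rw [mem_ball, dist_eq_norm]
    have : z - b1 = (z - z1) - (b1 - z1) := by ring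
    rw [this]
    refine (norm_sub_le _ _).trans_lt ?_
    rw [hb1]
    linarith
  have hann1' : closedBall z1 (3 * r1) ⊆ ball b1 ε := by
    intro z hz
    rw [mem_closedBall, dist_eq_norm] at hz
    rw [mem_ball, dist_eq_norm]
    have : z - b1 = (z - z1) - (b1 - z1) := by ring
    rw [this]
    refine (norm_sub_le _ _).trans_lt ?_
    rw [hb1]
    linarith
  have hann2 : closedBall s1 (3 * r2) ⊆ ball b2 (5 * r2) := by
    intro z hz
    rw [mem_closedBall, dist_eq_norm] at hz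
    rw [mem_ball, dist_eq_norm]
    have : z - b2 = (z - s1) - (b2 - s1) := by ring
    rw [this]
    refine (norm_sub_le _ _).trans_lt ?_
    rw [hb2]
    linarith
  have hann2' : closedBall s1 (3 * r2) ⊆ ball b2 ε := by
    intro z hz
    rw [mem_closedBall, dist_eq_norm] at hz
    rw [mem_ball, dist_eq_norm]
    have : z - b2 = (z - s1) - (b2 - s1) := by ring
    rw [this]
    refine (norm_sub_le _ _).trans_lt ?_
    rw [hb2]
    linarith
  set V : Set E := (ball b1 (5 * r1) ∩ ball b1 ε) ×ˢ (ball b2 (5 * r2) ∩ ball b2 ε) with hV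
  have hVo : IsOpen V := (isOpen_ball.inter isOpen_ball).prod (isOpen_ball.inter isOpen_ball)
  have hXV : (ann z1 r1) ×ˢ (ann s1 r2) ⊆ V := by
    rintro ⟨z, s⟩ ⟨hz, hs⟩
    have hz' : z ∈ closedBall z1 (3 * r1) := by
      rw [mem_closedBall, dist_eq_norm]
      exact hz.2
    have hs' : s ∈ closedBall s1 (3 * r2) := by
      rw [mem_closedBall, dist_eq_norm]
      exact hs.2
    exact ⟨⟨hann1 hz', hann1' hz'⟩, ⟨hann2 hs', hann2' hs'⟩⟩
  -- bounds on compact sets
  obtain ⟨A3, hA3⟩ := (isCompact_closedBall z1 (3 * r1)).exists_bound_of_continuousOn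
    (f := fun z => S.M (φ z)) (S.cM.comp_continuousOn
      (hφ.continuousOn.mono (hann1.trans hD1)))
  obtain ⟨A4, hA4⟩ := (isCompact_closedBall s1 (3 * r2)).exists_bound_of_continuousOn
    (f := fun z => S.P (T z)) (S.cP.comp_continuousOn
      (hT.continuousOn.mono (hann2.trans hD2)))
  set c' : ℝ := min c 1 with hc'
  have hc'0 : 0 < c' := lt_min hc one_pos
  obtain ⟨C, hC0, hlower⟩ := Lk4_lower hS (max A3 A4) c' hc'0 (min_le_right _ _)
  -- bound at the base point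
  have hb1D : b1 ∈ closedBall z1 (3 * r1) := by
    rw [mem_closedBall, dist_eq_norm, hb1]
    linarith
  have hb2D : b2 ∈ closedBall s1 (3 * r2) := by
    rw [mem_closedBall, dist_eq_norm, hb2]
    linarith
  obtain ⟨R1, hR1⟩ := S.fwd_bdd (S.M (φ b1))
  obtain ⟨R2, hR2⟩ := S.dual.fwd_bdd (S.P (T b2))
  set Q : ℝ := Real.log (2 * (|R1| + |R2| + 1) ^ 2) with hQ
  have hQ0 : 0 ≤ Q := by
    refine Real.log_nonneg ?_
    have h3 : 0 ≤ |R1| := abs_nonneg _
    have h4 : 0 ≤ |R2| := abs_nonneg _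
    nlinarith
  -- choice of `n`
  have hlim : Tendsto (fun n : ℕ => (C + Q) * (((n : ℝ) + 1) / S.d ^ n)) atTop (𝓝 0) := by
    have h3 := tendsto_pow_const_div_const_pow_of_one_lt 1 S.hd
    have h4 := tendsto_pow_const_div_const_pow_of_one_lt 0 S.hd
    have h5 := (h3.add h4).const_mul (C + Q)
    rw [add_zero, mul_zero] at h5
    refine h5.congr fun n => ?_
    rw [pow_one, pow_zero, ← add_div]
  obtain ⟨n, hn1, hn2⟩ := ((hlim.eventually_lt_const he0).and
    (eventually_ge_atTop m0)).exists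
  have hdn : 0 < S.d ^ n := pow_pos S.d_pos n
  have hm0 : m0 ≤ n + n := by omega
  -- the map
  set Fn : E → E := fun x => (S.F ^ n) (φ x.1) - (S.F⁻¹ ^ n) (T x.2) with hFn
  have hfar : ∀ z ∈ ball b1 (5 * r1) ∩ ball b1 ε, ∀ s ∈ ball b2 (5 * r2) ∩ ball b2 ε,
      c' ≤ dist ((S.F ^ (n + n)) (φ z)) (T s) := by
    intro z hz s hs
    exact (min_le_left _ _).trans
      (hcon (n + n) hm0 z hz.2 s hs.2 (hD1 hz.1) (hD2 hs.1))
  have hFd : DifferentiableOn ℂ Fn V := by
    intro x hx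
    have d1 : DifferentiableAt ℂ φ x.1 :=
      (hφ _ (hD1 hx.1.1)).differentiableAt (h1.mem_nhds (hD1 hx.1.1))
    have d2 : DifferentiableAt ℂ T x.2 :=
      (hT _ (hD2 hx.2.1)).differentiableAt (h2.mem_nhds (hD2 hx.2.1))
    have d3 : DifferentiableAt ℂ (fun x : E => (S.F ^ n) (φ x.1)) x :=
      (S.diff_pow n).differentiableAt.comp x (d1.comp x differentiableAt_fst)
    have d4 : DifferentiableAt ℂ (fun x : E => (S.F⁻¹ ^ n) (T x.2)) x :=
      (S.diff_inv_pow n).differentiableAt.comp x (d2.comp x differentiableAt_snd)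
    exact (d3.sub d4).differentiableWithinAt
  have hF0 : ∀ x ∈ V, Fn x ≠ 0 := by
    intro x hx h0
    have h3 : (S.F ^ n) (φ x.1) = (S.F⁻¹ ^ n) (T x.2) := sub_eq_zero.1 h0
    have h4 : (S.F ^ (n + n)) (φ x.1) = T x.2 := by
      rw [pow_add, Equiv.Perm.mul_apply, h3, inv_pow]
      exact (S.F ^ n).apply_symm_apply _
    have h5 := hfar x.1 hx.1 x.2 hx.2
    rw [h4, dist_self] at h5
    linarith
  have hkey := hreg (fun z => S.P (φ z)) (fun s => S.M (T s)) Fn V (1 / (2 * S.d ^ n))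
    ((C + Q) * (((n : ℝ) + 1) / S.d ^ n)) hVo hXV hFd hF0 (by positivity)
    (fun z => S.P0 _) (fun s => S.M0 _) (fun z hz => (min_le_left _ _).trans (hu1 z hz))
    (fun s hs => (min_le_right _ _).trans (hv2 s hs)) ?_ ?_
  · linarith
  · rintro ⟨z, s⟩ ⟨hz, hs⟩
    have hz' : z ∈ closedBall z1 (3 * r1) := by
      rw [mem_closedBall, dist_eq_norm]
      exact hz.2
    have hs' : s ∈ closedBall s1 (3 * r2) := by
      rw [mem_closedBall, dist_eq_norm]
      exact hs.2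
    have h3 := hlower n (φ z) (T s)
      (((le_abs_self _).trans (hA3 z hz')).trans (le_max_left _ _))
      (((le_abs_self _).trans (hA4 s hs')).trans (le_max_right _ _))
      (hfar z ⟨hann1 hz', hann1' hz'⟩ s ⟨hann2 hs', hann2' hs'⟩)
    have hne : Fn (z, s) ≠ 0 := hF0 _ (hXV ⟨hz, hs⟩)
    have h4 : 2 * Real.log ‖Fn (z, s)‖ ≤ Real.log (nsq (Fn (z, s))) := by
      have h5 : 2 * Real.log ‖Fn (z, s)‖ = Real.log (‖Fn (z, s)‖ ^ 2) := by
        rw [Real.log_pow]
        push_cast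
        ring
      rw [h5]
      have := norm_pos_iff.2 hne
      exact Real.log_le_log (by positivity) (Lk4_nsq_ge _)
    have h6 : S.d ^ n * max (S.P (φ z)) (S.M (T s)) - C * (n + 1) ≤
        1 / 2 * Real.log (nsq (Fn (z, s))) := by
      have : Real.log ‖Fn (z, s)‖ = Real.log ‖(S.F ^ n) (φ z) - (S.F⁻¹ ^ n) (T s)‖ := rfl
      linarith
    have h7 : max (S.P (φ z)) (S.M (T s)) - C * (n + 1) / S.d ^ n ≤
        1 / (2 * S.d ^ n) * Real.log (nsq (Fn (z, s))) := by
      have h8 : max (S.P (φ z)) (S.M (T s)) - C * (n + 1) / S.d ^ n =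
          (S.d ^ n * max (S.P (φ z)) (S.M (T s)) - C * (n + 1)) / S.d ^ n := by
        field_simp
      have h9 : 1 / (2 * S.d ^ n) * Real.log (nsq (Fn (z, s))) =
          (1 / 2 * Real.log (nsq (Fn (z, s)))) / S.d ^ n := by
        field_simp
      rw [h8, h9]
      exact div_le_div_of_nonneg_right h6 hdn.le
    refine le_trans ?_ h7
    have h10 : 0 ≤ Q * (((n : ℝ) + 1) / S.d ^ n) := by positivity
    have h11 : (C + Q) * (((n : ℝ) + 1) / S.d ^ n) =
        C * (n + 1) / S.d ^ n + Q * (((n : ℝ) + 1) / S.d ^ n) := by ring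
    change max (S.P (φ z)) (S.M (T s)) - (C + Q) * (((n : ℝ) + 1) / S.d ^ n) ≤ _
    rw [h11]
    linarith
  · -- the base point
    have h3 : ‖(S.F ^ n) (φ b1)‖ ≤ |R1| := (hR1 _ A1.zero le_rfl n).trans (le_abs_self _)
    have h4 : ‖(S.F⁻¹ ^ n) (T b2)‖ ≤ |R2| := (hR2 _ A2.zero le_rfl n).trans (le_abs_self _)
    have h5 : nsq (Fn (b1, b2)) ≤ 2 * (|R1| + |R2| + 1) ^ 2 := by
      refine (Lk4_nsq_le _).trans ?_
      have h6 : ‖Fn (b1, b2)‖ ≤ |R1| + |R2| + 1 := by
        refine (norm_sub_le _ _).trans ?_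
        linarith
      have := pow_le_pow_left₀ (norm_nonneg _) h6 2
      linarith
    have hb : ((b1, b2) : E) ∈ V := by
      refine ⟨⟨?_, ?_⟩, ⟨?_, ?_⟩⟩
      · exact mem_ball_self (by positivity)
      · exact mem_ball_self hε
      · exact mem_ball_self (by positivity)
      · exact mem_ball_self hε
    have h7 : Real.log (nsq (Fn (b1, b2))) ≤ Q :=
      Real.log_le_log (nsq_pos (hF0 _ hb)) h5
    have h8 : 1 / (2 * S.d ^ n) * Real.log (nsq (Fn (b1, b2))) ≤ 1 / (2 * S.d ^ n) * Q :=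
      mul_le_mul_of_nonneg_left h7 (by positivity)
    refine h8.trans ?_
    have h9 : 1 / (2 * S.d ^ n) * Q ≤ Q * (((n : ℝ) + 1) / S.d ^ n) := by
      have hn0 : (0 : ℝ) ≤ n := Nat.cast_nonneg n
      have h10 : 1 / (2 * S.d ^ n) * Q = Q * ((1 / 2) / S.d ^ n) := by
        field_simp
      rw [h10]
      refine mul_le_mul_of_nonneg_left ?_ hQ0
      exact div_le_div_of_nonneg_right (by linarith) hdn.le
    have h11 : 0 ≤ C * (((n : ℝ) + 1) / S.d ^ n) := by positivity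
    rw [add_mul]
    linarith

end Pool.Agent.HQ
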