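import Pool.Agent.HQ.Lk0
import Pool.Agent.HQ.HH

/-!
# HQ module Lk5: the growth facts `Hen` for generalized Henon maps
-/

set_option autoImplicit false

open Filter Topology Set Metric

namespace Pool.Agent.HQ

theorem Lk5_up {L : List (ℂˣ × Polynomial ℂ)} (hL : Adm L) :
    ∃ C : ℝ, ∀ x : E, Green (henon L) (hdeg L) x ≤ Real.log (max 1 ‖x‖) + C := by
  obtain ⟨R, C, hR, hC, -, h2, -⟩ := filtration hL
  have hd2 : (2 : ℝ) ≤ (hdeg L : ℝ) := by exact_mod_cast hdeg_ge hL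
  have hd0 : (0 : ℝ) < hdeg L := by linarith
  have hlC : 0 ≤ Real.log C := Real.log_nonneg hC
  refine ⟨Real.log C, fun z => ?_⟩
  have key : ∀ n : ℕ, Real.log (max 1 ‖((henon L) ^ n) z‖) ≤
      (hdeg L : ℝ) ^ n * (Real.log (max 1 ‖z‖) + Real.log C) - Real.log C := by
    intro n
    induction n with
    | zero => simp
    | succ n ih =>
      have e : ((henon L) ^ (n + 1)) z = (henon L) (((henon L) ^ n) z) := by
        rw [pow_succ', Equiv.Perm.mul_apply]
      have hm : 1 ≤ max 1 ‖((henon L) ^ n) z‖ := le_max_left _ _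
      have h3 : max 1 ‖((henon L) ^ (n + 1)) z‖ ≤
          C * (max 1 ‖((henon L) ^ n) z‖) ^ hdeg L := by
        rw [e]
        refine max_le ?_ (h2 _)
        have : 1 ≤ (max 1 ‖((henon L) ^ n) z‖) ^ hdeg L := one_le_pow₀ hm
        nlinarith
      have h4 := Real.log_le_log (by positivity) h3
      rw [Real.log_mul (by linarith) (by positivity), Real.log_pow] at h4
      have h5 := mul_le_mul_of_nonneg_left ih hd0.le
      have h6 : (hdeg L : ℝ) ^ (n + 1) * (Real.log (max 1 ‖z‖) + Real.log C) =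
          hdeg L * ((hdeg L : ℝ) ^ n * (Real.log (max 1 ‖z‖) + Real.log C)) := by
        rw [pow_succ']
        ring
      rw [h6]
      nlinarith
  refine le_of_tendsto (green_tendsto hL z) (Eventually.of_forall fun n => ?_)
  rw [div_le_iff₀ (pow_pos hd0 n)]
  have := key n
  linarith

theorem Lk5_rev_rev (L : List (ℂˣ × Polynomial ℂ)) : rev (rev L) = L := by
  unfold rev
  rw [← List.map_reverse, List.reverse_reverse, List.map_map]
  have : ((fun q : ℂˣ × Polynomial ℂ =>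
      (q.1⁻¹, Polynomial.C (-((q.1⁻¹ : ℂˣ) : ℂ)) * q.2)) ∘ fun q : ℂˣ × Polynomial ℂ =>
      (q.1⁻¹, Polynomial.C (-((q.1⁻¹ : ℂˣ) : ℂ)) * q.2)) = id := by
    funext q
    refine Prod.ext (inv_inv _) ?_
    simp only [Function.comp_apply, id_eq, inv_inv]
    rw [← mul_assoc, ← Polynomial.C_mul, neg_mul_neg, Units.mul_inv, Polynomial.C_1, one_mul]
  rw [this, List.map_id]

theorem Lk5_sepM {L : List (ℂˣ × Polynomial ℂ)} (hL : Adm L) (A : ℝ) :
    ∃ C : ℝ, ∀ x : E, Green (henon L)⁻¹ (hdeg L) x ≤ A → ‖x.2‖ ≤ max (‖x.1‖ / 4) C := by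
  obtain ⟨R2, C2, hlow⟩ := green_lower (rev_adm hL)
  have hd2 : (2 : ℝ) ≤ (hdeg L : ℝ) := by exact_mod_cast hdeg_ge hL
  cases L with
  | nil => exact absurd rfl hL.1
  | cons q L' =>
    obtain ⟨c, R0, hc, hR0, hP⟩ := HA_lower q.2 (by
      have := hL.2 q List.mem_cons_self
      omega)
    have hdeg2 : 2 ≤ q.2.natDegree := hL.2 q List.mem_cons_self
    -- the back step through the tail
    have htail : ∃ R1 : ℝ, 1 ≤ R1 ∧ ∀ z : E, R1 ≤ ‖((henon L') z).2‖ →
        ‖((henon L') z).1‖ ≤ ‖((henon L') z).2‖ →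
        ‖z.1‖ ≤ ‖z.2‖ ∧ ‖((henon L') z).2‖ ≤ ‖z.2‖ := by
      by_cases h0 : L' = []
      · refine ⟨1, le_rfl, fun z h1 h2 => ?_⟩
        subst h0
        have h3 : (henon []) z = z := rfl
        rw [h3] at h2 ⊢
        exact ⟨h2, le_rfl⟩
      · obtain ⟨R1, C1, hR1, -, -, -, h3⟩ := HA_list L' h0
          (fun p hp => hL.2 p (List.mem_cons_of_mem _ hp))
        refine ⟨R1, hR1, fun z h1 h2 => ?_⟩
        obtain ⟨h4, h5⟩ := h3 z h1 h2
        have := norm_nonneg ((henon L') z).2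
        exact ⟨h4, by linarith⟩
    obtain ⟨R1, hR1, htail⟩ := htail
    set α : ℝ := ‖((q.1 : ℂˣ) : ℂ)‖ with hα
    have hα0 : 0 < α := norm_pos_iff.2 q.1.ne_zero
    set C : ℝ := max (max (max R0 R1) (max R2 ((4 + α) / c)))
      (Real.exp ((hdeg (q :: L') : ℝ) * |A| + C2)) with hC
    refine ⟨C, fun x hx => ?_⟩
    by_contra hcon
    push Not at hcon
    have hx1 : ‖x.1‖ / 4 < ‖x.2‖ := (le_max_left _ _).trans_lt hcon
    have hx2 : C < ‖x.2‖ := (le_max_right _ _).trans_lt hcon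
    have hxR0 : R0 ≤ ‖x.2‖ := by
      refine le_trans ?_ hx2.le
      exact (le_max_left _ _).trans ((le_max_left _ _).trans (le_max_left _ _))
    have hxR1 : R1 ≤ ‖x.2‖ := by
      refine le_trans ?_ hx2.le
      exact (le_max_right _ _).trans ((le_max_left _ _).trans (le_max_left _ _))
    have hxR2 : R2 ≤ ‖x.2‖ := by
      refine le_trans ?_ hx2.le
      exact (le_max_left _ _).trans ((le_max_right _ _).trans (le_max_left _ _))
    have hxc : (4 + α) / c ≤ ‖x.2‖ := by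
      refine le_trans ?_ hx2.le
      exact (le_max_right _ _).trans ((le_max_right _ _).trans (le_max_left _ _))
    have hxe : Real.exp ((hdeg (q :: L') : ℝ) * |A| + C2) < ‖x.2‖ :=
      (le_max_right _ _).trans_lt hx2
    -- first back step
    set x' : E := (hen q.1 q.2)⁻¹ x with hx'
    have hx'1 : x'.1 = x.2 := rfl
    have hx'2 : x'.2 = (x.1 - q.2.eval x.2) * ((q.1⁻¹ : ℂˣ) : ℂ) := rfl
    have h1x : 1 ≤ ‖x.2‖ := hR0.trans hxR0
    have hbig : ‖x.2‖ ≤ ‖x'.2‖ := by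
      have h3 := hP x.2 hxR0
      have h4 : ‖x.2‖ ^ 2 ≤ ‖x.2‖ ^ q.2.natDegree := pow_le_pow_right₀ h1x hdeg2
      have h5 : c * ‖x.2‖ ^ 2 ≤ ‖q.2.eval x.2‖ :=
        (mul_le_mul_of_nonneg_left h4 hc.le).trans h3
      have h6 : 4 + α ≤ c * ‖x.2‖ := by
        rw [div_le_iff₀ hc] at hxc
        linarith
      have h7 : (4 + α) * ‖x.2‖ ≤ c * ‖x.2‖ ^ 2 := by nlinarith
      have h8 : ‖q.2.eval x.2‖ - ‖x.1‖ ≤ ‖x.1 - q.2.eval x.2‖ := by
        rw [norm_sub_rev]
        exact norm_sub_norm_le _ _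
      have h9 : α * ‖x.2‖ ≤ ‖x.1 - q.2.eval x.2‖ := by nlinarith
      have h10 : ‖x'.2‖ * α = ‖x.1 - q.2.eval x.2‖ := by
        rw [hx'2, norm_mul, hα, mul_assoc, ← norm_mul, Units.inv_mul, norm_one, mul_one]
      have h11 : α * ‖x.2‖ ≤ α * ‖x'.2‖ := by linarith
      exact le_of_mul_le_mul_left h11 hα0
    -- the rest
    set z : E := (henon (q :: L'))⁻¹ x with hz
    have hzx : (henon L') z = x' := by
      rw [hz, HA_cons, mul_inv_rev, Equiv.Perm.mul_apply]
      exact (henon L').apply_symm_apply x'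
    obtain ⟨hz1, hz2⟩ := htail z (by rw [hzx]; exact hxR1.trans hbig)
      (by rw [hzx, hx'1]; exact hbig)
    rw [hzx] at hz2
    have hz3 : ‖x.2‖ ≤ ‖z.2‖ := hbig.trans hz2
    have hM : Green (henon (q :: L'))⁻¹ (hdeg (q :: L')) z =
        hdeg (q :: L') * Green (henon (q :: L'))⁻¹ (hdeg (q :: L')) x := HH_map hL x
    have hlz := hlow z.swap (by
      change R2 ≤ ‖z.2‖
      exact hxR2.trans hz3) (by
      change ‖z.1‖ ≤ ‖z.2‖
      exact hz1)
    rw [← green_inv, hM] at hlz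
    have h12 : (hdeg (q :: L') : ℝ) * Green (henon (q :: L'))⁻¹ (hdeg (q :: L')) x ≤
        (hdeg (q :: L') : ℝ) * |A| :=
      mul_le_mul_of_nonneg_left (hx.trans (le_abs_self A)) (by linarith)
    have h13 : Real.log ‖z.2‖ ≤ (hdeg (q :: L') : ℝ) * |A| + C2 := by
      have : Real.log ‖z.swap.1‖ = Real.log ‖z.2‖ := rfl
      linarith
    have h14 : ‖z.2‖ ≤ Real.exp ((hdeg (q :: L') : ℝ) * |A| + C2) := by
      rw [← Real.log_le_iff_le_exp (by linarith)]
      exact h13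
    linarith

theorem hsys_hen (L : List (ℂˣ × Polynomial ℂ)) (hL : Adm L) : Hen (hsys L hL) where
  up := Lk5_up hL
  um := by
    obtain ⟨C, hC⟩ := Lk5_up (rev_adm hL)
    refine ⟨C, fun x => ?_⟩
    have h := hC x.swap
    rw [← green_inv, HF_norm] at h
    exact h
  sep := by
    intro A
    obtain ⟨C1, h1⟩ := Lk5_sepM hL A
    obtain ⟨C2, h2⟩ := Lk5_sepM (rev_adm hL) A
    set C := max (max C1 C2) 0 with hC
    have hC0 : 0 ≤ C := le_max_right _ _
    have hC1 : C1 ≤ C := (le_max_left _ _).trans (le_max_left _ _)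
    have hC2 : C2 ≤ C := (le_max_right _ _).trans (le_max_left _ _)
    refine ⟨4 * C, fun x y hx hy => ?_⟩
    have hx2 : ‖x.2‖ ≤ max (‖x.1‖ / 4) C :=
      (h1 x hx).trans (max_le_max le_rfl hC1)
    have hy1 : ‖y.1‖ ≤ max (‖y.2‖ / 4) C := by
      have h3 : Green (henon (rev L))⁻¹ (hdeg (rev L)) y.swap = Green (henon L) (hdeg L) y := by
        rw [green_inv, Lk5_rev_rev, Prod.swap_swap]
      have h4 := h2 y.swap (by rw [h3]; exact hy)
      exact h4.trans (max_le_max le_rfl hC2)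
    have hnx : ‖x‖ = max ‖x.1‖ ‖x.2‖ := Prod.norm_def x
    have hny : ‖y‖ = max ‖y.1‖ ‖y.2‖ := Prod.norm_def y
    have d1 : ‖x.1‖ - ‖y.1‖ ≤ ‖x - y‖ :=
      (norm_sub_norm_le _ _).trans (norm_fst_le (x - y))
    have d2 : ‖y.2‖ - ‖x.2‖ ≤ ‖x - y‖ := by
      refine (norm_sub_norm_le _ _).trans ?_
      rw [norm_sub_rev]
      exact norm_snd_le (x - y)
    have n0 := norm_nonneg (x - y)
    have n1 := norm_nonneg x.1
    have n2 := norm_nonneg y.2
    rw [hnx, hny]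
    rcases le_max_iff.1 hx2 with a1 | a1 <;> rcases le_max_iff.1 hy1 with b1 | b1 <;>
      rcases le_total ‖x.1‖ ‖y.2‖ with c1 | c1 <;>
      refine max_le (max_le ?_ ?_) (max_le ?_ ?_) <;> linarith

end Pool.Agent.HQ
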