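import Pool.Agent.HQ.Defs
import Pool.Agent.HQ.HDefs
import Pool.Agent.HQ.HH
import Pool.Agent.HQ.HV1
import Pool.Agent.HQ.HV2
import Pool.Agent.HQ.FinA
import Pool.Agent.HQ.V286

/-!
# HQ module Result0: the theorem for generalized Henon maps
-/

set_option autoImplicit false

open Filter Topology Set Metric

namespace Pool.Agent.HQ

/-- `F` is quasi-expanding (with respect to `G`): there are normalised injective immersed
parametrisations of the unstable manifolds of the saddle points forming a normal family -/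
def QExp (F : Equiv.Perm E) (G : E → ℝ) : Prop :=
  ∃ X : E → ℂ → E, (∀ p ∈ Sad F, UPar F G p (X p)) ∧ Nrml X (Sad F)

/-- quasi-hyperbolic: `F` and its inverse are quasi-expanding -/
def QHyp (L : List (ℂˣ × Polynomial ℂ)) : Prop :=
  QExp (henon L) (Green (henon L) (hdeg L)) ∧ QExp (henon L)⁻¹ (Green (henon L)⁻¹ (hdeg L))

theorem hsys_F (L : List (ℂˣ × Polynomial ℂ)) (hL : Adm L) : (hsys L hL).F = henon L := rfl

theorem hsys_Kp (L : List (ℂˣ × Polynomial ℂ)) (hL : Adm L) :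
    (hsys L hL).Kp = Kplus (henon L) := by
  ext z
  exact green_zero_iff hL z

theorem hsys_Km (L : List (ℂˣ × Polynomial ℂ)) (hL : Adm L) :
    (hsys L hL).Km = Kplus (henon L)⁻¹ := by
  ext z
  rw [Kplus_inv L z, ← green_zero_iff (rev_adm hL)]
  change Green (henon L)⁻¹ (hdeg L) z = 0 ↔ _
  rw [green_inv L z]

theorem main {L : List (ℂˣ × Polynomial ℂ)} (hL : Adm L) (hq : QHyp L)
    (hJ : frontier (Kplus (henon L)) ∩ frontier (Kplus (henon L)⁻¹) ⊆
      closure (Sad (henon L))) :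
    (Snk (henon L)).Finite ∧
      interior (Kplus (henon L)) = ⋃ p ∈ Snk (henon L), Basin (henon L) p := by
  obtain ⟨⟨Xu, hXu, nXu⟩, ⟨Xs, hXs, nXs⟩⟩ := hq
  have hinv : Sad (henon L)⁻¹ = Sad (henon L) := Sad_inv (henon_diff L) (henon_inv_diff L)
  rw [hinv] at hXs nXs
  rw [← hsys_Kp L hL, ← hsys_Km L hL] at hJ
  rw [← hsys_Kp L hL]
  have h5 : ∀ (hm : ∀ x, x ∉ interior (hsys L hL).Kp → x ∉ interior (hsys L hL).Km),
      (hsys L hL).H5 := by
    intro hm x hP hM hx
    refine hJ ⟨⟨subset_closure hP, hx⟩, ⟨subset_closure hM, hm x hx⟩⟩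
  have hc : 0 < (L.map fun q => ‖((q.1 : ℂˣ) : ℂ)‖ ^ 2).prod := by
    refine List.prod_pos ?_
    intro a ha
    obtain ⟨q, -, rfl⟩ := List.mem_map.1 ha
    exact pow_pos (norm_pos_iff.2 q.1.ne_zero) 2
  rcases vol_tri (hsys L hL) hc (fun A hA => vol_henon L hA) with h | h | h
  · exact abs_V1 (QS.mk (hsys L hL) Xu Xs hXu hXs nXu nXs)
      (h5 (fun x _ => by rw [h]; exact fun hx => hx)) h
  · exact abs_empty (hsys L hL) h
  · have h2 := V2_empty (QS.mk (hsys L hL) Xu Xs hXu hXs nXu nXs)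
      (h5 (fun x hx => by rw [← h]; exact hx)) h
    exact abs_empty (hsys L hL) h2

end Pool.Agent.HQ
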